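import Pool.Agent.Lib.MP_d57abb_nt.GV.Few

/-!
# Few primitive vectors have large bad prime factors
-/

namespace Pool.Agent.Lib.MP_d57abb_nt.GV

open Finset MR GT

/-- a bad prime factor of norm prime to `M` -/
def Hb (Bd : O → Prop) (M : ℕ) (u : ℤ × ℤ) : Prop := ∃ p : O, Dg M p ∧ p ∣ tO u ∧ Bd p

open Classical in
theorem big {W : ℕ} {Bd : O → Prop} (h : Ms W Bd) {ε : ℝ} (hε : 0 < ε) :
    ∃ Y : ℕ, ∀ M : ℕ, 0 < M → W ∣ M → (∀ q : ℕ, q.Prime → q ≤ Y → q ∣ M) → ∃ T₀ : ℕ, ∀ T : ℕ, T₀ ≤ T →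
      (((GA.TA.Bx T).filter (fun u => IsCoprime u.1 u.2 ∧ Hb Bd M u)).card : ℝ) ≤ ε * (T : ℝ) ^ 2 := by
  obtain ⟨Y, hY⟩ := few h hε
  refine ⟨Y, fun M hM hW hq => ?_⟩
  obtain ⟨T₀, hT₀⟩ := hY M hM hW hq
  refine ⟨T₀, fun T hT => ?_⟩
  have hM0 : (0 : ℝ) < M := by exact_mod_cast hM
  have hMz : (0 : ℤ) < M := by exact_mod_cast hM
  obtain ⟨I, hI⟩ : ∃ I : Finset (ℕ × ℕ), I = (range M ×ˢ range M).filter
    (fun b => ∀ q : ℕ, q.Prime → q ∣ M → ¬ ((q : ℤ) ∣ (b.1 : ℤ) ∧ (q : ℤ) ∣ (b.2 : ℤ))) := ⟨_, rfl⟩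
  have hres : ∀ z : ℤ, ∃ i : ℕ, i < M ∧ (M : ℤ) ∣ z - i := by
    intro z
    have h1 := Int.emod_nonneg z hMz.ne'
    have h2 := Int.emod_lt_of_pos z hMz
    refine ⟨(z % M).toNat, by omega, z / M, ?_⟩
    have h3 := Int.emod_add_mul_ediv z (M : ℤ)
    rw [Int.toNat_of_nonneg h1]
    linarith
  have hcov : (GA.TA.Bx T).filter (fun u => IsCoprime u.1 u.2 ∧ Hb Bd M u) ⊆
      I.biUnion (fun b => (GA.TA.Bx T).filter (fun u => (u ≠ 0 ∧ Cg M u ((b.1 : ℤ), (b.2 : ℤ))) ∧ ¬ Gb Bd M u)) := by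
    intro u hu
    obtain ⟨hu1, hu2, p, hp, hpu, hbd⟩ := mem_filter.1 hu
    obtain ⟨i, hi, hdi⟩ := hres u.1
    obtain ⟨j, hj, hdj⟩ := hres u.2
    refine mem_biUnion.2 ⟨(i, j), ?_, mem_filter.2 ⟨hu1, ⟨?_, hdi, hdj⟩, fun hG => hG.2 p hp hpu hbd⟩⟩
    · rw [hI, mem_filter, mem_product, mem_range, mem_range]
      refine ⟨⟨hi, hj⟩, fun q hq hqM hd => ?_⟩
      have hqz : (q : ℤ) ∣ (M : ℤ) := Int.natCast_dvd_natCast.2 hqM
      have h1 : (q : ℤ) ∣ u.1 := by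
        have := dvd_add (hqz.trans hdi) hd.1
        have e : u.1 - (i : ℤ) + i = u.1 := by ring
        rwa [e] at this
      have h2 : (q : ℤ) ∣ u.2 := by
        have := dvd_add (hqz.trans hdj) hd.2
        have e : u.2 - (j : ℤ) + j = u.2 := by ring
        rwa [e] at this
      obtain ⟨s, t, hst⟩ := hu2
      have h3 : (q : ℤ) ∣ 1 := by
        rw [← hst]
        exact dvd_add (Dvd.dvd.mul_left h1 _) (Dvd.dvd.mul_left h2 _)
      have h4 : q ∣ 1 := by exact_mod_cast h3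
      exact hq.one_lt.ne' (Nat.dvd_one.1 h4)
    · intro h0
      rw [h0] at hu2
      simp only [Prod.fst_zero, Prod.snd_zero] at hu2
      exact not_isCoprime_zero_zero hu2
  have h1 : (((GA.TA.Bx T).filter (fun u => IsCoprime u.1 u.2 ∧ Hb Bd M u)).card : ℝ) ≤
      ∑ b ∈ I, (((GA.TA.Bx T).filter (fun u => (u ≠ 0 ∧ Cg M u ((b.1 : ℤ), (b.2 : ℤ))) ∧ ¬ Gb Bd M u)).card : ℝ) := by
    have := (Finset.card_le_card hcov).trans Finset.card_biUnion_le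
    exact_mod_cast this
  refine h1.trans ((Finset.sum_le_sum fun b hb => hT₀ T hT ((b.1 : ℤ), (b.2 : ℤ)) ?_).trans ?_)
  · rw [hI] at hb
    exact (mem_filter.1 hb).2
  · rw [Finset.sum_const, nsmul_eq_mul]
    have h2 : (I.card : ℝ) ≤ (M : ℝ) ^ 2 := by
      have h3 : I.card ≤ M * M := by
        rw [hI]
        refine (Finset.card_filter_le _ _).trans ?_
        rw [card_product, card_range]
      rw [sq]
      exact_mod_cast h3
    refine (mul_le_mul_of_nonneg_right h2 (by positivity)).trans (le_of_eq ?_)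
    field_simp

end Pool.Agent.Lib.MP_d57abb_nt.GV
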