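import Pool.Agent.Lib.MP_d57abb_nt.GV.Pell
import Pool.Agent.Lib.MP_d57abb_nt.GA.TS.Big
import Pool.Agent.Lib.MP_d57abb_nt.GT.Defs
import Pool.Agent.Lib.MP_2a816b_nt.Divisor

/-!
# The values which are divisible by the square of a large prime have small mass
-/

namespace Pool.Agent.Lib.MP_d57abb_nt.GV

open Finset Pool.Agent.Lib.MP_d57abb_nt Pool.Agent.Lib.MP_d57abb_nt.GA.TZ

private theorem BigL_inj {N m : ℕ} (S : Finset ℕ) (hS : ∀ k ∈ S, k ≤ N)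
    (hc : ∀ k ∈ S, ∀ k' ∈ S, k % m = k' % m) : S.card ≤ N / m + 1 := by
  have h : S.card ≤ (range (N / m + 1)).card := by
    refine card_le_card_of_injOn (fun k => k / m) ?_ ?_
    · intro k hk
      rw [mem_coe, mem_range]
      exact Nat.lt_succ_of_le (Nat.div_le_div_right (hS k hk))
    · intro k hk k' hk' h1
      have h2 : k / m = k' / m := h1
      rw [← Nat.div_add_mod k m, ← Nat.div_add_mod k' m, h2, hc k hk k' hk']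
  rwa [card_range] at h

private theorem BigL_dvd {l : ℕ} (hl : l.Prime) {a b : ℤ} (ha : (l : ℤ) ^ 2 ∣ a ^ 2 + 3 * a + 1)
    (hb : (l : ℤ) ^ 2 ∣ b ^ 2 + 3 * b + 1) :
    (l : ℤ) ^ 2 ∣ a - b ∨ (l : ℤ) ^ 2 ∣ a + b + 3 := by
  have hp : Prime (l : ℤ) := Nat.prime_iff_prime_int.1 hl
  have h : (l : ℤ) ^ 2 ∣ (a - b) * (a + b + 3) := by
    have h1 := dvd_sub ha hb
    have h2 : a ^ 2 + 3 * a + 1 - (b ^ 2 + 3 * b + 1) = (a - b) * (a + b + 3) := by ring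
    rwa [h2] at h1
  by_cases h1 : (l : ℤ) ∣ a - b
  · by_cases h2 : (l : ℤ) ∣ a + b + 3
    · exfalso
      have h3 : (l : ℤ) ∣ 2 * a + 3 := by
        have h4 := dvd_add h1 h2
        have e : a - b + (a + b + 3) = 2 * a + 3 := by ring
        rwa [e] at h4
      have h4 : (l : ℤ) ∣ 5 := by
        have e : (5 : ℤ) = (2 * a + 3) * (2 * a + 3) - 4 * (a ^ 2 + 3 * a + 1) := by ring
        rw [e]
        exact dvd_sub (Dvd.dvd.mul_left h3 _)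
          (Dvd.dvd.mul_left ((dvd_pow_self _ two_ne_zero).trans ha) _)
      have h5 : l ∣ 5 := by exact_mod_cast h4
      have h6 : l = 5 := (Nat.prime_dvd_prime_iff_eq hl (by norm_num)).1 h5
      subst h6
      have h7 : (25 : ℤ) ∣ a ^ 2 + 3 * a + 1 := by
        have e : (((5 : ℕ) : ℤ)) ^ 2 = 25 := by norm_num
        rwa [e] at ha
      have h8 : (5 : ℤ) ∣ 2 * a + 3 := h3
      obtain ⟨t, ht⟩ : ∃ t, a = 5 * t + 1 := ⟨a / 5, by omega⟩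
      have e : a ^ 2 + 3 * a + 1 = 25 * (t ^ 2 + t) + 5 := by
        rw [ht]
        ring
      rw [e] at h7
      generalize t ^ 2 + t = s at h7
      omega
    · left
      have h3 : IsCoprime ((l : ℤ) ^ 2) (a + b + 3) :=
        ((Prime.coprime_iff_not_dvd hp).2 h2).pow_left
      exact h3.dvd_of_dvd_mul_right h
  · right
    have h3 : IsCoprime ((l : ℤ) ^ 2) (a - b) := ((Prime.coprime_iff_not_dvd hp).2 h1).pow_left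
    exact h3.dvd_of_dvd_mul_left h

private theorem BigL_cast {l k : ℕ} (h : l ^ 2 ∣ k ^ 2 + 3 * k + 1) :
    (l : ℤ) ^ 2 ∣ (k : ℤ) ^ 2 + 3 * k + 1 := by
  have h1 : ((l ^ 2 : ℕ) : ℤ) ∣ ((k ^ 2 + 3 * k + 1 : ℕ) : ℤ) := Int.natCast_dvd_natCast.2 h
  push_cast at h1
  exact h1

open Classical in
private theorem BigL_sq {l : ℕ} (hl : l.Prime) (N : ℕ) :
    ((Icc 1 N).filter (fun k => l ^ 2 ∣ k ^ 2 + 3 * k + 1)).card ≤ 2 * (N / l ^ 2 + 1) := by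
  set S := (Icc 1 N).filter (fun k => l ^ 2 ∣ k ^ 2 + 3 * k + 1) with hS
  rcases S.eq_empty_or_nonempty with h | ⟨k0, hk0⟩
  · rw [h, card_empty]
    exact Nat.zero_le _
  · have hd0 : l ^ 2 ∣ k0 ^ 2 + 3 * k0 + 1 := (mem_filter.1 hk0).2
    have hsub : S ⊆ S.filter (fun k : ℕ => (l : ℤ) ^ 2 ∣ (k : ℤ) - k0) ∪
        S.filter (fun k : ℕ => (l : ℤ) ^ 2 ∣ (k : ℤ) + k0 + 3) := by
      intro k hk
      rcases BigL_dvd hl (BigL_cast (mem_filter.1 hk).2) (BigL_cast hd0) with h1 | h1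
      · exact mem_union_left _ (mem_filter.2 ⟨hk, h1⟩)
      · exact mem_union_right _ (mem_filter.2 ⟨hk, h1⟩)
    have hle : ∀ k ∈ S, k ≤ N := fun k hk => (mem_Icc.1 (mem_filter.1 hk).1).2
    have hmod : ∀ k k' : ℕ, (l : ℤ) ^ 2 ∣ (k : ℤ) - k' → k % l ^ 2 = k' % l ^ 2 := by
      intro k k' h1
      have h2 : ((l ^ 2 : ℕ) : ℤ) ∣ (k : ℤ) - k' := by
        push_cast
        exact h1
      have h3 : k' ≡ k [MOD l ^ 2] := (Nat.modEq_iff_dvd).2 h2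
      exact h3.symm
    have h1 : (S.filter (fun k : ℕ => (l : ℤ) ^ 2 ∣ (k : ℤ) - k0)).card ≤ N / l ^ 2 + 1 := by
      refine BigL_inj _ (fun k hk => hle k (mem_filter.1 hk).1) fun k hk k' hk' => ?_
      apply hmod
      have h2 := dvd_sub (mem_filter.1 hk).2 (mem_filter.1 hk').2
      have e : (k : ℤ) - k0 - (k' - k0) = k - k' := by ring
      rwa [e] at h2
    have h2 : (S.filter (fun k : ℕ => (l : ℤ) ^ 2 ∣ (k : ℤ) + k0 + 3)).card ≤ N / l ^ 2 + 1 := by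
      refine BigL_inj _ (fun k hk => hle k (mem_filter.1 hk).1) fun k hk k' hk' => ?_
      apply hmod
      have h2 := dvd_sub (mem_filter.1 hk).2 (mem_filter.1 hk').2
      have e : (k : ℤ) + k0 + 3 - (k' + k0 + 3) = k - k' := by ring
      rwa [e] at h2
    have h3 := (card_le_card hsub).trans (card_union_le _ _)
    omega

open Classical in
/-- the small primes -/
private theorem BigL_small {N : ℕ} {y L : ℝ} (hy : 1 ≤ y) (hL : 0 ≤ L) :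
    (((Icc 1 N).filter (fun k => ∃ l : ℕ, l.Prime ∧ y < l ∧ (l : ℝ) ≤ L ∧
      l ^ 2 ∣ k ^ 2 + 3 * k + 1)).card : ℝ) ≤ 4 * N / y + 2 * L := by
  set Ls := (Ioo ⌊y⌋₊ (⌊L⌋₊ + 1)).filter (fun l : ℕ => l.Prime) with hLs
  have hsub : (Icc 1 N).filter (fun k => ∃ l : ℕ, l.Prime ∧ y < l ∧ (l : ℝ) ≤ L ∧
      l ^ 2 ∣ k ^ 2 + 3 * k + 1) ⊆
      Ls.biUnion (fun l => (Icc 1 N).filter (fun k => l ^ 2 ∣ k ^ 2 + 3 * k + 1)) := by
    intro k hk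
    obtain ⟨hk1, l, h1, h2, h3, h4⟩ := mem_filter.1 hk
    refine mem_biUnion.2 ⟨l, mem_filter.2 ⟨mem_Ioo.2 ⟨?_, ?_⟩, h1⟩, mem_filter.2 ⟨hk1, h4⟩⟩
    · exact (Nat.floor_lt (by linarith)).2 h2
    · exact Nat.lt_succ_of_le (Nat.le_floor h3)
  have h1 : (((Icc 1 N).filter (fun k => ∃ l : ℕ, l.Prime ∧ y < l ∧ (l : ℝ) ≤ L ∧
      l ^ 2 ∣ k ^ 2 + 3 * k + 1)).card : ℝ) ≤
      ∑ l ∈ Ls, (((Icc 1 N).filter (fun k => l ^ 2 ∣ k ^ 2 + 3 * k + 1)).card : ℝ) := by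
    exact_mod_cast (card_le_card hsub).trans card_biUnion_le
  have h2 : ∀ l ∈ Ls, (((Icc 1 N).filter (fun k => l ^ 2 ∣ k ^ 2 + 3 * k + 1)).card : ℝ) ≤
      2 * N * ((l : ℝ) ^ 2)⁻¹ + 2 := by
    intro l hl
    have hp : l.Prime := (mem_filter.1 hl).2
    have h3 : (((Icc 1 N).filter (fun k => l ^ 2 ∣ k ^ 2 + 3 * k + 1)).card : ℝ) ≤
        2 * (((N / l ^ 2 : ℕ) : ℝ) + 1) := by exact_mod_cast BigL_sq hp N
    have h4 : ((N / l ^ 2 : ℕ) : ℝ) ≤ (N : ℝ) / ((l ^ 2 : ℕ) : ℝ) := Nat.cast_div_le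
    have h5 : (N : ℝ) / ((l ^ 2 : ℕ) : ℝ) = N * ((l : ℝ) ^ 2)⁻¹ := by
      push_cast
      rw [div_eq_mul_inv]
    rw [h5] at h4
    linarith
  have h3 : ∑ l ∈ Ls, (2 * N * ((l : ℝ) ^ 2)⁻¹ + 2) =
      2 * N * ∑ l ∈ Ls, ((l : ℝ) ^ 2)⁻¹ + 2 * Ls.card := by
    rw [sum_add_distrib, ← mul_sum, sum_const, nsmul_eq_mul]
    ring
  have h4 : ∑ l ∈ Ls, ((l : ℝ) ^ 2)⁻¹ ≤ 2 / y := by
    calc ∑ l ∈ Ls, ((l : ℝ) ^ 2)⁻¹ ≤ ∑ l ∈ Ioo ⌊y⌋₊ (⌊L⌋₊ + 1), ((l : ℝ) ^ 2)⁻¹ := by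
          refine sum_le_sum_of_subset_of_nonneg (filter_subset _ _) fun i _ _ => by positivity
      _ ≤ 2 / ((⌊y⌋₊ : ℝ) + 1) := sum_Ioo_inv_sq_le _ _
      _ ≤ 2 / y := div_le_div_of_nonneg_left (by norm_num) (by linarith) (Nat.lt_floor_add_one y).le
  have h5 : (Ls.card : ℝ) ≤ L := by
    have h6 : Ls.card ≤ ⌊L⌋₊ := by
      refine (card_filter_le _ _).trans ?_
      rw [Nat.card_Ioo]
      have h7 : 1 ≤ ⌊y⌋₊ := Nat.le_floor (by exact_mod_cast hy)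
      omega
    exact (Nat.cast_le.2 h6).trans (Nat.floor_le hL)
  refine h1.trans ((sum_le_sum h2).trans ?_)
  rw [h3]
  have h6 : 2 * (N : ℝ) * ∑ l ∈ Ls, ((l : ℝ) ^ 2)⁻¹ ≤ 2 * N * (2 / y) :=
    mul_le_mul_of_nonneg_left h4 (by positivity)
  have h7 : 2 * (N : ℝ) * (2 / y) = 4 * N / y := by ring
  linarith

open Classical in
/-- the large primes -/
private theorem BigL_large {C : ℝ} (hC : 0 < C) (hP : ∀ e X : ℕ, 1 ≤ e → 2 ≤ X →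
    (((Icc 1 X).filter (fun k => ∃ l : ℕ, k ^ 2 + 3 * k + 1 = e * l ^ 2)).card : ℝ) ≤
      C * Real.log X) {N : ℕ} (hN : 2 ≤ N) {L : ℝ} (hL : 0 < L) :
    (((Icc 1 N).filter (fun k => ∃ l : ℕ, L < l ∧ l ^ 2 ∣ k ^ 2 + 3 * k + 1)).card : ℝ) ≤
      5 * N ^ 2 / L ^ 2 * (C * Real.log N) := by
  set M : ℝ := 5 * N ^ 2 / L ^ 2 with hM
  have hM0 : 0 ≤ M := by positivity
  have hsub : (Icc 1 N).filter (fun k => ∃ l : ℕ, L < l ∧ l ^ 2 ∣ k ^ 2 + 3 * k + 1) ⊆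
      (Icc 1 ⌊M⌋₊).biUnion (fun e => (Icc 1 N).filter
        (fun k => ∃ l : ℕ, k ^ 2 + 3 * k + 1 = e * l ^ 2)) := by
    intro k hk
    obtain ⟨hk1, l, h1, e, he⟩ := mem_filter.1 hk
    have hk2 := mem_Icc.1 hk1
    have he1 : 1 ≤ e := by
      rcases Nat.eq_zero_or_pos e with h | h
      · rw [h, mul_zero] at he
        omega
      · exact h
    refine mem_biUnion.2 ⟨e, mem_Icc.2 ⟨he1, Nat.le_floor ?_⟩,
      mem_filter.2 ⟨hk1, l, by rw [he, mul_comm]⟩⟩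
    rw [hM, le_div_iff₀ (by positivity)]
    have h2 : (e : ℝ) * L ^ 2 ≤ e * (l : ℝ) ^ 2 := by
      refine mul_le_mul_of_nonneg_left (pow_le_pow_left₀ hL.le h1.le 2) (Nat.cast_nonneg _)
    have h3 : (e : ℝ) * (l : ℝ) ^ 2 = (k : ℝ) ^ 2 + 3 * k + 1 := by
      have h4 : ((k ^ 2 + 3 * k + 1 : ℕ) : ℝ) = ((l ^ 2 * e : ℕ) : ℝ) := by rw [he]
      push_cast at h4
      linarith
    have h5 : (k : ℝ) ≤ N := by exact_mod_cast hk2.2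
    have h6 : (1 : ℝ) ≤ k := by exact_mod_cast hk2.1
    nlinarith
  have h1 : (((Icc 1 N).filter (fun k => ∃ l : ℕ, L < l ∧ l ^ 2 ∣ k ^ 2 + 3 * k + 1)).card : ℝ) ≤
      ∑ e ∈ Icc 1 ⌊M⌋₊, (((Icc 1 N).filter
        (fun k => ∃ l : ℕ, k ^ 2 + 3 * k + 1 = e * l ^ 2)).card : ℝ) := by
    exact_mod_cast (card_le_card hsub).trans card_biUnion_le
  have h2 : ∀ e ∈ Icc 1 ⌊M⌋₊, (((Icc 1 N).filter
        (fun k => ∃ l : ℕ, k ^ 2 + 3 * k + 1 = e * l ^ 2)).card : ℝ) ≤ C * Real.log N :=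
    fun e he => hP e N (mem_Icc.1 he).1 hN
  refine h1.trans ((sum_le_sum h2).trans ?_)
  rw [sum_const, Nat.card_Icc, nsmul_eq_mul, Nat.add_sub_cancel]
  have h3 : (⌊M⌋₊ : ℝ) ≤ M := Nat.floor_le hM0
  have h4 : 0 ≤ Real.log N := Real.log_natCast_nonneg N
  exact mul_le_mul_of_nonneg_right h3 (by positivity)

open Classical in
private theorem BigL_card {δ : ℝ} (hδ : 0 < δ) (hδ' : δ ≤ 1 / 4) : ∃ A : ℝ, 0 < A ∧ ∀ N : ℕ, 2 ≤ N →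
    (((Icc 1 N).filter (fun k => ∃ l : ℕ, l.Prime ∧ (N : ℝ) ^ δ < l ∧
      l ^ 2 ∣ k ^ 2 + 3 * k + 1)).card : ℝ) ≤ A * (N : ℝ) ^ (1 - δ) := by
  obtain ⟨C, hC, hP⟩ := pell_card
  refine ⟨6 + 20 * C, by positivity, fun N hN => ?_⟩
  have hN1 : (1 : ℝ) ≤ N := by exact_mod_cast (by omega : 1 ≤ N)
  have hN0 : (0 : ℝ) < N := by linarith
  set L : ℝ := (N : ℝ) ^ (3 / 4 : ℝ) with hL
  have hL0 : 0 < L := Real.rpow_pos_of_pos hN0 _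
  set y : ℝ := (N : ℝ) ^ δ with hy
  have hy1 : 1 ≤ y := Real.one_le_rpow hN1 hδ.le
  have hsub : (Icc 1 N).filter (fun k => ∃ l : ℕ, l.Prime ∧ y < l ∧ l ^ 2 ∣ k ^ 2 + 3 * k + 1) ⊆
      (Icc 1 N).filter (fun k => ∃ l : ℕ, l.Prime ∧ y < l ∧ (l : ℝ) ≤ L ∧
        l ^ 2 ∣ k ^ 2 + 3 * k + 1) ∪
      (Icc 1 N).filter (fun k => ∃ l : ℕ, L < l ∧ l ^ 2 ∣ k ^ 2 + 3 * k + 1) := by
    intro k hk
    obtain ⟨hk1, l, h1, h2, h3⟩ := mem_filter.1 hk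
    rcases le_or_gt (l : ℝ) L with h4 | h4
    · exact mem_union_left _ (mem_filter.2 ⟨hk1, l, h1, h2, h4, h3⟩)
    · exact mem_union_right _ (mem_filter.2 ⟨hk1, l, h4, h3⟩)
  have h1 : (((Icc 1 N).filter (fun k => ∃ l : ℕ, l.Prime ∧ y < l ∧
      l ^ 2 ∣ k ^ 2 + 3 * k + 1)).card : ℝ) ≤
      (((Icc 1 N).filter (fun k => ∃ l : ℕ, l.Prime ∧ y < l ∧ (l : ℝ) ≤ L ∧
        l ^ 2 ∣ k ^ 2 + 3 * k + 1)).card : ℝ) +
      (((Icc 1 N).filter (fun k => ∃ l : ℕ, L < l ∧ l ^ 2 ∣ k ^ 2 + 3 * k + 1)).card : ℝ) := by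
    exact_mod_cast (card_le_card hsub).trans (card_union_le _ _)
  have h2 := BigL_small (N := N) hy1 hL0.le
  have h3 := BigL_large hC hP hN hL0
  have h4 : 4 * (N : ℝ) / y = 4 * (N : ℝ) ^ (1 - δ) := by
    rw [hy, Real.rpow_sub hN0, Real.rpow_one]
    ring
  have h5 : L ≤ (N : ℝ) ^ (1 - δ) := Real.rpow_le_rpow_of_exponent_le hN1 (by linarith)
  have h6 : 5 * (N : ℝ) ^ 2 / L ^ 2 = 5 * (N : ℝ) ^ (1 / 2 : ℝ) := by
    have e1 : L ^ 2 = (N : ℝ) ^ (3 / 2 : ℝ) := by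
      rw [hL, ← Real.rpow_natCast, ← Real.rpow_mul hN0.le]
      norm_num
    have e2 : (N : ℝ) ^ 2 = (N : ℝ) ^ (1 / 2 : ℝ) * (N : ℝ) ^ (3 / 2 : ℝ) := by
      rw [← Real.rpow_natCast, ← Real.rpow_add hN0]
      norm_num
    rw [e1, e2]
    have e3 : (N : ℝ) ^ (3 / 2 : ℝ) ≠ 0 := (Real.rpow_pos_of_pos hN0 _).ne'
    field_simp
  have h7 : Real.log N ≤ 4 * (N : ℝ) ^ (1 / 4 : ℝ) := by
    have := Real.log_le_rpow_div hN0.le (by norm_num : (0 : ℝ) < 1 / 4)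
    linarith
  have h8 : 5 * (N : ℝ) ^ 2 / L ^ 2 * (C * Real.log N) ≤ 20 * C * (N : ℝ) ^ (1 - δ) := by
    rw [h6]
    have e1 : (N : ℝ) ^ (1 / 2 : ℝ) * (N : ℝ) ^ (1 / 4 : ℝ) = L := by
      rw [← Real.rpow_add hN0, hL]
      norm_num
    calc 5 * (N : ℝ) ^ (1 / 2 : ℝ) * (C * Real.log N) ≤
          5 * (N : ℝ) ^ (1 / 2 : ℝ) * (C * (4 * (N : ℝ) ^ (1 / 4 : ℝ))) := by gcongr
      _ = 20 * C * ((N : ℝ) ^ (1 / 2 : ℝ) * (N : ℝ) ^ (1 / 4 : ℝ)) := by ring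
      _ = 20 * C * L := by rw [e1]
      _ ≤ _ := by gcongr
  rw [h4] at h2
  have h9 : (6 + 20 * C) * (N : ℝ) ^ (1 - δ) =
    4 * (N : ℝ) ^ (1 - δ) + 2 * (N : ℝ) ^ (1 - δ) + 20 * C * (N : ℝ) ^ (1 - δ) := by ring
  linarith

/-- a power below one is at most a small multiple plus a constant -/
private theorem BigL_pow {A δ ε : ℝ} (hA : 0 < A) (hδ : 0 < δ) (hδ' : δ ≤ 1) (hε : 0 < ε) :
    ∃ K : ℝ, 0 ≤ K ∧ ∀ N : ℕ, 2 ≤ N → A * (N : ℝ) ^ (1 - δ) ≤ ε * N + K := by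
  set X : ℝ := (A / ε) ^ (1 / δ) with hX
  have hAε : 0 < A / ε := by positivity
  have hX0 : 0 < X := Real.rpow_pos_of_pos hAε _
  refine ⟨A * X ^ (1 - δ), by positivity, fun N hN => ?_⟩
  have hN0 : (0 : ℝ) < N := by
    have : (2 : ℝ) ≤ N := by exact_mod_cast hN
    linarith
  rcases le_or_gt (N : ℝ) X with h | h
  · have h1 : A * (N : ℝ) ^ (1 - δ) ≤ A * X ^ (1 - δ) := by
      refine mul_le_mul_of_nonneg_left (Real.rpow_le_rpow hN0.le h (by linarith)) hA.le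
    have h2 : 0 ≤ ε * (N : ℝ) := by positivity
    linarith
  · have h1 : A / ε ≤ (N : ℝ) ^ δ := by
      have h2 : X ^ δ = A / ε := by
        rw [hX, ← Real.rpow_mul hAε.le, one_div_mul_cancel hδ.ne', Real.rpow_one]
      rw [← h2]
      exact Real.rpow_le_rpow hX0.le h.le hδ.le
    have h3 : (N : ℝ) ^ δ * (N : ℝ) ^ (1 - δ) = N := by
      rw [← Real.rpow_add hN0]
      norm_num
    have h4 : A ≤ ε * (N : ℝ) ^ δ := by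
      rw [div_le_iff₀ hε] at h1
      linarith
    have h5 : A * (N : ℝ) ^ (1 - δ) ≤ ε * (N : ℝ) ^ δ * (N : ℝ) ^ (1 - δ) :=
      mul_le_mul_of_nonneg_right h4 (Real.rpow_nonneg hN0.le _)
    rw [mul_assoc, h3] at h5
    have h6 : 0 ≤ A * X ^ (1 - δ) := by positivity
    linarith

open Classical in
private theorem BigL_main (t : ℕ → ℕ) (ht : ∀ k, t k ≤ (k ^ 2 + 3 * k + 1).divisors.card)
    {δ ε : ℝ} (hδ : 0 < δ) (hδ' : δ ≤ 1 / 4) (hε : 0 < ε) : ∃ K : ℝ, 0 ≤ K ∧ ∀ N : ℕ, 2 ≤ N →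
    ∑ k ∈ (Icc 1 N).filter (fun k => ∃ l : ℕ, l.Prime ∧ (N : ℝ) ^ δ < l ∧
      l ^ 2 ∣ k ^ 2 + 3 * k + 1), (t k : ℝ) ≤ ε * N + K := by
  obtain ⟨A, hA, hcard⟩ := BigL_card hδ hδ'
  obtain ⟨D, hD, hdiv⟩ := Pool.Agent.Lib.MP_2a816b_nt.divisor_bound (δ / 4) (by positivity)
  obtain ⟨K, hK, hpow⟩ := BigL_pow (A := D * 5 ^ (δ / 4) * A) (δ := δ / 2) (ε := ε)
    (by positivity) (by positivity) (by linarith) hε
  refine ⟨K, hK, fun N hN => ?_⟩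
  have hN1 : (1 : ℝ) ≤ N := by exact_mod_cast (by omega : 1 ≤ N)
  have hN0 : (0 : ℝ) < N := by linarith
  have h1 : ∀ k ∈ (Icc 1 N).filter (fun k => ∃ l : ℕ, l.Prime ∧ (N : ℝ) ^ δ < l ∧
      l ^ 2 ∣ k ^ 2 + 3 * k + 1), (t k : ℝ) ≤ D * 5 ^ (δ / 4) * (N : ℝ) ^ (δ / 2) := by
    intro k hk
    have hk2 := mem_Icc.1 (mem_filter.1 hk).1
    have h2 : (t k : ℝ) ≤ ((k ^ 2 + 3 * k + 1).divisors.card : ℝ) := by exact_mod_cast ht k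
    have h3 := hdiv (k ^ 2 + 3 * k + 1) (by omega)
    have h4 : ((k ^ 2 + 3 * k + 1 : ℕ) : ℝ) ≤ 5 * (N : ℝ) ^ 2 := by
      push_cast
      have h5 : (k : ℝ) ≤ N := by exact_mod_cast hk2.2
      have h6 : (1 : ℝ) ≤ k := by exact_mod_cast hk2.1
      nlinarith
    have h5 : ((k ^ 2 + 3 * k + 1 : ℕ) : ℝ) ^ (δ / 4) ≤ (5 * (N : ℝ) ^ 2) ^ (δ / 4) :=
      Real.rpow_le_rpow (Nat.cast_nonneg _) h4 (by positivity)
    have h6 : (5 * (N : ℝ) ^ 2) ^ (δ / 4) = 5 ^ (δ / 4) * (N : ℝ) ^ (δ / 2) := by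
      rw [Real.mul_rpow (by norm_num) (by positivity), ← Real.rpow_natCast,
        ← Real.rpow_mul hN0.le]
      congr 2
      push_cast
      ring
    rw [h6] at h5
    calc (t k : ℝ) ≤ D * ((k ^ 2 + 3 * k + 1 : ℕ) : ℝ) ^ (δ / 4) := h2.trans h3
      _ ≤ D * (5 ^ (δ / 4) * (N : ℝ) ^ (δ / 2)) := by gcongr
      _ = _ := by ring
  refine (sum_le_sum h1).trans ?_
  rw [sum_const, nsmul_eq_mul]
  have h2 := hcard N hN
  have h3 : (N : ℝ) ^ (1 - δ) * (N : ℝ) ^ (δ / 2) = (N : ℝ) ^ (1 - δ / 2) := by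
    rw [← Real.rpow_add hN0]
    congr 1
    ring
  calc _ ≤ A * (N : ℝ) ^ (1 - δ) * (D * 5 ^ (δ / 4) * (N : ℝ) ^ (δ / 2)) := by gcongr
    _ = D * 5 ^ (δ / 4) * A * ((N : ℝ) ^ (1 - δ) * (N : ℝ) ^ (δ / 2)) := by ring
    _ = D * 5 ^ (δ / 4) * A * (N : ℝ) ^ (1 - δ / 2) := by rw [h3]
    _ ≤ _ := hpow N hN

open Classical in
theorem big_l {c : ℝ} (hc : 1 ≤ c) {δ ε : ℝ} (hδ : 0 < δ) (hε : 0 < ε) : ∃ K : ℝ, ∀ N : ℕ,
    ∑ k ∈ (Icc 1 N).filter (fun k => ∃ l : ℕ, l.Prime ∧ (N : ℝ) ^ δ < l ∧ l ^ 2 ∣ k ^ 2 + 3 * k + 1), (tc c k : ℝ) ≤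
      ε * N + K := by
  have _ := hc
  obtain ⟨K, hK, h⟩ := BigL_main (fun k => tc c k) (fun k => card_filter_le _ _)
    (δ := min δ (1 / 4)) (lt_min hδ (by norm_num)) (min_le_right _ _) hε
  refine ⟨K + (tc c 1 : ℝ), fun N => ?_⟩
  rcases Nat.lt_or_ge N 2 with hN | hN
  · have h1 : ∑ k ∈ (Icc 1 N).filter (fun k => ∃ l : ℕ, l.Prime ∧ (N : ℝ) ^ δ < l ∧
        l ^ 2 ∣ k ^ 2 + 3 * k + 1), (tc c k : ℝ) ≤ ∑ k ∈ Icc 1 1, (tc c k : ℝ) := by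
      refine sum_le_sum_of_subset_of_nonneg ?_ fun k _ _ => Nat.cast_nonneg _
      exact (filter_subset _ _).trans (Icc_subset_Icc le_rfl (by omega))
    rw [Icc_self, sum_singleton] at h1
    have h2 : 0 ≤ ε * (N : ℝ) := by positivity
    linarith
  · have hN1 : (1 : ℝ) ≤ N := by exact_mod_cast (by omega : 1 ≤ N)
    have h1 : (N : ℝ) ^ (min δ (1 / 4)) ≤ (N : ℝ) ^ δ :=
      Real.rpow_le_rpow_of_exponent_le hN1 (min_le_left _ _)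
    have h2 : ∑ k ∈ (Icc 1 N).filter (fun k => ∃ l : ℕ, l.Prime ∧ (N : ℝ) ^ δ < l ∧
        l ^ 2 ∣ k ^ 2 + 3 * k + 1), (tc c k : ℝ) ≤
        ∑ k ∈ (Icc 1 N).filter (fun k => ∃ l : ℕ, l.Prime ∧ (N : ℝ) ^ (min δ (1 / 4)) < l ∧
        l ^ 2 ∣ k ^ 2 + 3 * k + 1), (tc c k : ℝ) := by
      refine sum_le_sum_of_subset_of_nonneg ?_ fun k _ _ => Nat.cast_nonneg _
      intro k hk
      obtain ⟨hk1, l, h3, h4, h5⟩ := mem_filter.1 hk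
      exact mem_filter.2 ⟨hk1, l, h3, lt_of_le_of_lt h1 h4, h5⟩
    have h3 := h N hN
    have h4 : (0 : ℝ) ≤ tc c 1 := Nat.cast_nonneg _
    linarith

end Pool.Agent.Lib.MP_d57abb_nt.GV
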