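import Pool.Agent.Lib.MP_d57abb_nt.GT.Abs
import Pool.Agent.Lib.MP_d57abb_nt.GT.Defs
import Pool.Agent.Lib.MP_d57abb_nt.GA.TS.MassG
import Pool.Agent.Lib.MP_d57abb_nt.GA.TS.Geo
import Pool.Agent.Lib.MP_d57abb_nt.GA.TS.Cnt

/-!
# The mass of the weights; from weights to numbers
-/

namespace Pool.Agent.Lib.MP_d57abb_nt.GV

open Finset GT
open Pool.Agent.Lib.MP_d57abb_nt.GA Pool.Agent.Lib.MP_d57abb_nt.GA.TZ

/-- the mass of the weights -/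
theorem mass_low {c : ℝ} (hc : 1 < c) : ∃ a : ℝ, 0 < a ∧ ∃ K : ℝ, ∀ A X : ℕ, 1 ≤ A → A ≤ X →
    a * Real.log (X / A) - K ≤ ∑ k ∈ Ioc A X, (tc c k : ℝ) / k := by
  obtain ⟨c0, hc0, N0, hN0⟩ := @TS.mass_ge lab0 c hc
  obtain ⟨a, ha, K, -, h⟩ := low_abs (u := fun k => (tc c k : ℝ)) (fun k => by positivity) hc0
    (show (0 : ℝ) < 3 * c by linarith) (N0 := N0) hN0 (fun N => @TS.mass_le lab0 c hc.le N)
  exact ⟨a, ha, K, h⟩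

/-- from weights to numbers -/
theorem to_card {b : ℝ} (hb : 1 < b) {κ : ℝ} (hκ : 0 < κ) (P : ℕ → Prop) [DecidablePred P] {X₀ : ℕ}
    (h : ∀ X : ℕ, X₀ ≤ X → κ * X ≤ ∑ k ∈ (Icc 1 X).filter P, (tc b k : ℝ)) :
    ∃ κ' : ℝ, 0 < κ' ∧ κ' ≤ κ ∧ ∃ X₁ : ℕ, X₀ ≤ X₁ ∧ ∀ X : ℕ, X₁ ≤ X →
      κ' * X / (Real.log X) ^ 2 ≤ (((Icc 1 X).filter P).card : ℝ) := by
  obtain ⟨κ', hκ', hcount⟩ := @TS.count lab0 b hb.le κ hκ
  refine ⟨min κ' κ, lt_min hκ' hκ, min_le_right _ _, X₀ + 3, by omega, fun X hX => ?_⟩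
  refine le_trans ?_ (hcount X (by omega) P (h X (by omega)))
  have h1 : (0 : ℝ) ≤ X := Nat.cast_nonneg _
  exact div_le_div_of_nonneg_right (mul_le_mul_of_nonneg_right (min_le_left _ _) h1) (by positivity)

end Pool.Agent.Lib.MP_d57abb_nt.GV
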