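import Pool.Agent.Lib.MP_d57abb_nt.GV.Mul
import Pool.Agent.Lib.MP_d57abb_nt.GT.Dich

/-!
# The residue class modulo `D` as the value of an additive function

`hD D m n` has the components `v_l(n)` modulo `m` for the primes `l` dividing `D` and the residue class modulo `D` of the part of
`n` prime to `D`. The functions `ψ (hD D m n)`, `ψ` a character, pretend to be characters (`npx_hD`). If no `l ^ m`, `l ∣ D`,
divides `n` then the residue class of `n` modulo `D` is a function of `hD D m n` (`cls_hD`).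
-/

namespace Pool.Agent.Lib.MP_d57abb_nt.GV

open Finset MR GT

/-- a function which is a character of the residue classes at the primes not dividing `W` -/
theorem npx_dir {W : ℕ} [NeZero W] {g : ℕ → ℂ} (φ : (ZMod W)ˣ →* ℂˣ)
    (hg : ∀ (p : ℕ) (_ : p.Prime) (hc : p.Coprime W), g p = (φ (ZMod.unitOfCoprime p hc) : ℂ)) : ¬ NPx g := by
  classical
  have h0 : 0 < W := Nat.pos_of_ne_zero (NeZero.ne W)
  have hV : NeZero (5 * W) := ⟨by omega⟩
  have hd : W ∣ 5 * W := Dvd.intro_left _ rfl
  obtain ⟨θ, hθ⟩ : ∃ θ : (RW (5 * W))ˣ →* ℂˣ, θ = ((φ.comp (ZMod.unitsMap hd)).comp (nuH (5 * W)))⁻¹ := ⟨_, rfl⟩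
  have key : ∀ x : RW (5 * W), ∀ hx : IsUnit x, ∀ u : (ZMod W)ˣ, (u : ZMod W) = ZMod.castHom hd (ZMod W) (MR.nm x) →
      MulChar.ofUnitHom θ x * (φ u : ℂ) = 1 := by
    intro x hx u hu
    obtain ⟨v, rfl⟩ := hx
    rw [MulChar.ofUnitHom_coe, hθ, MonoidHom.inv_apply, MonoidHom.comp_apply, MonoidHom.comp_apply]
    have e : ZMod.unitsMap hd (nuH (5 * W) v) = u := by
      ext
      rw [hu, ← nuH_val]
      rfl
    rw [e, ← Units.val_mul, inv_mul_cancel, Units.val_one]
  unfold NPx
  push Not
  refine ⟨5 * W, hV, Dvd.intro _ rfl, MulChar.ofUnitHom θ, ?_, 1, fun y => ?_⟩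
  · have h1 := key (red (5 * W) om) isUnit_red_om 1 (by
      rw [nm_red]
      have : N om = 1 := by decide
      rw [this, Int.cast_one, map_one, Units.val_one])
    rw [map_one, Units.val_one, mul_one] at h1
    exact h1
  · rw [Finset.sum_eq_zero]
    · norm_num
    · intro p hp
      exfalso
      obtain ⟨hp1, hp2⟩ := mem_filter.1 hp
      have hD := (mem_PP.1 hp1).1
      have hu := isUnit_red_prime hD
      have hpr := hD.2.1
      have hcop : (N p).natAbs.Coprime W := (Nat.Prime.coprime_iff_not_dvd hpr).2 fun h => hD.2.2 (h.trans hd)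
      have h1 := key (red (5 * W) p) hu (ZMod.unitOfCoprime _ hcop) (by
        rw [nm_red, map_intCast, ZMod.coe_unitOfCoprime]
        have h2 := hD.tp.N_pos
        have h3 : N p = (((N p).natAbs : ℕ) : ℤ) := by omega
        conv_rhs => rw [h3]
        rw [Int.cast_natCast])
      rw [← hg _ hpr hcop] at h1
      exact hp2 (by rw [mul_comm]; exact h1)

section

variable (D m : ℕ)

/-- the group of the values -/
abbrev GD : Type := (D.primeFactors → ZMod m) × Additive (ZMod D)ˣ

open Classical in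
/-- the value at a prime -/
noncomputable def dD (p : ℕ) : GD D m :=
  if hc : p.Coprime D then (0, Additive.ofMul (ZMod.unitOfCoprime p hc)) else (fun l => if (l : ℕ) = p then 1 else 0, 0)

/-- the additive function -/
noncomputable def hD (n : ℕ) : GD D m := (n.primeFactorsList.map (dD D m)).sum

end

theorem hD_add (D m : ℕ) {a b : ℕ} (ha : 0 < a) (hb : 0 < b) : hD D m (a * b) = hD D m a + hD D m b := by
  unfold hD
  rw [((Nat.perm_primeFactorsList_mul ha.ne' hb.ne').map _).sum_eq, List.map_append, List.sum_append]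

theorem hD_prime (D m : ℕ) {p : ℕ} (hp : p.Prime) : hD D m p = dD D m p := by
  unfold hD
  rw [Nat.primeFactorsList_prime hp, List.map_singleton, List.sum_singleton]

theorem hD_one (D m : ℕ) : hD D m 1 = 0 := by
  unfold hD
  simp

theorem hD_val (D m : ℕ) (hD0 : 0 < D) (n : ℕ) : 0 < n →
    (n : ZMod D) = ((hD D m n).2.toMul : ZMod D) * ∏ l : D.primeFactors, ((l : ℕ) : ZMod D) ^ (n.factorization l) ∧
      ∀ l : D.primeFactors, (hD D m n).1 l = (n.factorization l : ZMod m) := by
  classical
  induction n using induction_on_primes with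
  | zero => intro h0; exact absurd h0 (lt_irrefl 0)
  | one =>
    intro _
    rw [hD_one]
    refine ⟨?_, fun l => ?_⟩
    · simp
    · simp
  | prime_mul p a hp ih =>
    intro hpa
    have ha : 0 < a := Nat.pos_of_mul_pos_left hpa
    obtain ⟨h1, h2⟩ := ih ha
    rw [hD_add D m hp.pos ha, hD_prime D m hp]
    have hfac : ∀ l : ℕ, (p * a).factorization l = (if p = l then 1 else 0) + a.factorization l := by
      intro l
      rw [Nat.factorization_mul hp.ne_zero ha.ne', Finsupp.add_apply, hp.factorization, Finsupp.single_apply]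
    by_cases hc : p.Coprime D
    · have hd : dD D m p = (0, Additive.ofMul (ZMod.unitOfCoprime p hc)) := by
        unfold dD
        rw [dif_pos hc]
      have hne : ∀ l : D.primeFactors, ¬ p = (l : ℕ) := by
        intro l hl
        have h3 : (l : ℕ) ∣ D := Nat.dvd_of_mem_primeFactors l.2
        rw [← hl] at h3
        exact (Nat.Prime.coprime_iff_not_dvd hp).1 hc h3
      refine ⟨?_, fun l => ?_⟩
      · rw [hd]
        have e1 : ∏ l : D.primeFactors, ((l : ℕ) : ZMod D) ^ ((p * a).factorization l) =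
            ∏ l : D.primeFactors, ((l : ℕ) : ZMod D) ^ (a.factorization l) := by
          refine Finset.prod_congr rfl fun l _ => ?_
          rw [hfac, if_neg (hne l), zero_add]
        rw [e1, Nat.cast_mul, h1]
        have e2 : (((0, Additive.ofMul (ZMod.unitOfCoprime p hc)) : GD D m) + hD D m a).2 =
            Additive.ofMul (ZMod.unitOfCoprime p hc) + (hD D m a).2 := rfl
        rw [e2, toMul_add, Units.val_mul, toMul_ofMul, ZMod.coe_unitOfCoprime]
        ring
      · rw [hd, hfac, if_neg (hne l), zero_add]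
        have e2 : (((0, Additive.ofMul (ZMod.unitOfCoprime p hc)) : GD D m) + hD D m a).1 l = 0 + (hD D m a).1 l := rfl
        rw [e2, zero_add, h2]
    · have hd : dD D m p = (fun l : D.primeFactors => if (l : ℕ) = p then (1 : ZMod m) else 0, 0) := by
        unfold dD
        rw [dif_neg hc]
      have hpD : p ∣ D := by
        by_contra h3
        exact hc ((Nat.Prime.coprime_iff_not_dvd hp).2 h3)
      have hmem : p ∈ D.primeFactors := Nat.mem_primeFactors.2 ⟨hp, hpD, hD0.ne'⟩
      refine ⟨?_, fun l => ?_⟩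
      · rw [hd]
        have e1 : ∏ l : D.primeFactors, ((l : ℕ) : ZMod D) ^ ((p * a).factorization l) =
            (p : ZMod D) * ∏ l : D.primeFactors, ((l : ℕ) : ZMod D) ^ (a.factorization l) := by
          have e2 : ∀ l : D.primeFactors, ((l : ℕ) : ZMod D) ^ ((p * a).factorization l) =
              (if l = ⟨p, hmem⟩ then (p : ZMod D) else 1) * ((l : ℕ) : ZMod D) ^ (a.factorization l) := by
            intro l
            rw [hfac]
            by_cases h3 : l = ⟨p, hmem⟩
            · have h4 : p = (l : ℕ) := by rw [h3]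
              rw [if_pos h3, if_pos h4, pow_add, pow_one, ← h4]
            · have h4 : ¬ p = (l : ℕ) := fun h5 => h3 (Subtype.ext h5.symm)
              rw [if_neg h3, if_neg h4, zero_add, one_mul]
          rw [Finset.prod_congr rfl fun l _ => e2 l, Finset.prod_mul_distrib, Finset.prod_ite_eq' univ (⟨p, hmem⟩ : D.primeFactors),
            if_pos (mem_univ _)]
        rw [e1, Nat.cast_mul, h1]
        have e2 : (((fun l : D.primeFactors => if (l : ℕ) = p then (1 : ZMod m) else 0, 0) : GD D m) + hD D m a).2 = 0 + (hD D m a).2 := rfl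
        rw [e2, zero_add]
        ring
      · rw [hd, hfac]
        have e2 : (((fun l : D.primeFactors => if (l : ℕ) = p then (1 : ZMod m) else 0, 0) : GD D m) + hD D m a).1 l =
            (if (l : ℕ) = p then 1 else 0) + (hD D m a).1 l := rfl
        rw [e2, h2]
        by_cases h3 : (l : ℕ) = p
        · rw [if_pos h3, if_pos h3.symm]
          push_cast
          ring
        · rw [if_neg h3, if_neg (fun h4 : p = (l : ℕ) => h3 h4.symm)]
          push_cast
          ring

/-- the indicator of a residue class as a function of the value -/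
noncomputable def Ph (D m r : ℕ) (x : GD D m) : ℂ :=
  open Classical in if (x.2.toMul : ZMod D) * ∏ l : D.primeFactors, ((l : ℕ) : ZMod D) ^ (x.1 l).val = (r : ZMod D) then 1 else 0

theorem norm_Ph (D m r : ℕ) (x : GD D m) : ‖Ph D m r x‖ ≤ 1 := by
  unfold Ph
  split_ifs <;> simp

open Classical in
theorem cls_hD {D m : ℕ} (hD0 : 0 < D) (r : ℕ) {n : ℕ} (hn : 0 < n)
    (hl : ∀ l ∈ D.primeFactors, ¬ l ^ m ∣ n) : Ph D m r (hD D m n) = if n ≡ r [MOD D] then 1 else 0 := by
  obtain ⟨h1, h2⟩ := hD_val D m hD0 n hn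
  have h3 : ∀ l : D.primeFactors, ((hD D m n).1 l).val = n.factorization l := by
    intro l
    rw [h2, ZMod.val_natCast_of_lt]
    by_contra hcon
    refine hl l l.2 ?_
    exact ((Nat.prime_of_mem_primeFactors l.2).pow_dvd_iff_le_factorization hn.ne').2 (not_lt.1 hcon)
  unfold Ph
  have h4 : ∏ l : D.primeFactors, ((l : ℕ) : ZMod D) ^ ((hD D m n).1 l).val =
      ∏ l : D.primeFactors, ((l : ℕ) : ZMod D) ^ (n.factorization l) :=
    Finset.prod_congr rfl fun l _ => by rw [h3]
  rw [h4, ← h1]
  exact if_congr (ZMod.natCast_eq_natCast_iff n r D) rfl rfl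

theorem npx_hD {D m : ℕ} (hD0 : 0 < D) (ψ : AddChar (GD D m) ℂ) : ¬ NPx (fun n => ψ (hD D m n)) := by
  have : NeZero D := ⟨hD0.ne'⟩
  obtain ⟨φ, hφ⟩ : ∃ φ : (ZMod D)ˣ →* ℂˣ, ∀ u, (φ u : ℂ) = ψ (0, Additive.ofMul u) := by
    refine ⟨MonoidHom.toHomUnits ⟨⟨fun u => ψ (0, Additive.ofMul u), ?_⟩, fun u v => ?_⟩, fun u => rfl⟩
    · exact AddChar.map_zero_eq_one ψ
    · show ψ (0, Additive.ofMul (u * v)) = ψ (0, Additive.ofMul u) * ψ (0, Additive.ofMul v)
      rw [← AddChar.map_add_eq_mul]
      congr 1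
      exact Prod.ext (by simp) rfl
  refine npx_dir φ fun p hp hc => ?_
  rw [hφ, hD_prime D m hp]
  unfold dD
  rw [dif_pos hc]

open Classical in
/-- Fourier inversion -/
theorem Ph_fourier {D m : ℕ} [NeZero D] [NeZero m] (r : ℕ) : ∃ c : AddChar (GD D m) ℂ → ℂ, ∀ x : GD D m,
    Ph D m r x = ∑ ψ : AddChar (GD D m) ℂ, c ψ * ψ x := by
  have hqc : (Fintype.card (GD D m) : ℂ) ≠ 0 := by
    have : 0 < Fintype.card (GD D m) := Fintype.card_pos
    exact_mod_cast this.ne'
  refine ⟨fun ψ => (1 / (Fintype.card (GD D m) : ℂ)) * ∑ y, Ph D m r y * ψ (-y), fun x => ?_⟩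
  have h1 : ∑ ψ : AddChar (GD D m) ℂ, ((1 / (Fintype.card (GD D m) : ℂ)) * ∑ y, Ph D m r y * ψ (-y)) * ψ x =
      (1 / (Fintype.card (GD D m) : ℂ)) * ∑ y, Ph D m r y * ∑ ψ : AddChar (GD D m) ℂ, ψ (x - y) := by
    simp only [Finset.mul_sum, Finset.sum_mul]
    rw [Finset.sum_comm]
    refine Finset.sum_congr rfl fun y _ => Finset.sum_congr rfl fun ψ _ => ?_
    have e : ψ (x - y) = ψ (-y) * ψ x := by
      rw [← AddChar.map_add_eq_mul]
      congr 1
      abel
    rw [e]
    ring
  rw [h1]
  simp only [AddChar.sum_apply_eq_ite]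
  rw [Finset.sum_eq_single x]
  · rw [if_pos (sub_self x)]
    field_simp
  · intro y _ hy
    rw [if_neg (fun h => hy (sub_eq_zero.1 h).symm), mul_zero]
  · intro h
    exact absurd (mem_univ x) h

end Pool.Agent.Lib.MP_d57abb_nt.GV
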