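import Pool.Agent.Lib.MP_d57abb_nt.GV.SqDefs
import Pool.Agent.Lib.MP_d57abb_nt.GA.TA.Defs

/-!
# The primitive vectors of a given norm

The slope `x / y` of a primitive vector of norm `n` is a root of `s² + 3 s + 1` modulo `n`. For `n > 1` it determines the vector
(`nm v * nm w = kk v w ^ 2 + 3 * kk v w * dt v w + dt v w ^ 2`, and `n` divides `dt v w`). The number of roots modulo `n` is at
most the number of divisors: at most two modulo each prime power, and the Chinese remainder theorem.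
-/

namespace Pool.Agent.Lib.MP_d57abb_nt.GV

open Finset Pool.Agent.Lib.MP_d57abb_nt Pool.Agent.Lib.MP_d57abb_nt.GA.TA

private theorem SqC_dvd {v : ℤ × ℤ} (hv : IsCoprime v.1 v.2) {p : ℤ} (hp : Prime p) (h : p ∣ nm v) : ¬ p ∣ v.2 := by
  intro hy
  have h2 : p ∣ v.1 ^ 2 := by
    have h3 : v.1 ^ 2 = nm v - (3 * v.1 + v.2) * v.2 := by
      unfold nm
      ring
    rw [h3]
    exact dvd_sub h (Dvd.dvd.mul_left hy _)
  exact hp.not_isUnit (hv.isUnit_of_dvd' (hp.dvd_of_dvd_pow h2) hy)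

private theorem SqC_five : ∀ x : ZMod 5, x ≠ 0 → IsSquare x → x = 1 ∨ x = 4 := by
  decide

theorem Sp_nm {v : ℤ × ℤ} (hv : IsCoprime v.1 v.2) (h0 : 0 < nm v) : Sp (nm v).natAbs := by
  refine ⟨Int.natAbs_pos.2 h0.ne', fun p hp hd => ?_⟩
  by_cases h5 : p = 5
  · exact Or.inl h5
  right
  have hpZ : Prime (p : ℤ) := Nat.prime_iff_prime_int.1 hp
  have hd' : (p : ℤ) ∣ nm v := Int.natCast_dvd.2 hd
  have hy := SqC_dvd hv hpZ hd'
  have h2 : p ≠ 2 := by
    rintro rfl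
    have h3 : (2 : ℤ) ∣ v.1 ^ 2 + 3 * v.1 * v.2 + v.2 ^ 2 := by
      have := hd'
      unfold nm at this
      exact_mod_cast this
    have h4 : ¬ (2 : ℤ) ∣ v.2 := by exact_mod_cast hy
    have h5 : v.2 % 2 = 1 := by omega
    rcases Int.emod_two_eq_zero_or_one v.1 with h6 | h6
    · have h7 : (v.1 ^ 2 + 3 * v.1 * v.2 + v.2 ^ 2) % 2 = 1 := by
        obtain ⟨a, ha⟩ := Int.dvd_of_emod_eq_zero h6
        obtain ⟨b, hb⟩ : ∃ b, v.2 = 2 * b + 1 := ⟨v.2 / 2, by omega⟩
        rw [ha, hb]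
        have : (2 * a) ^ 2 + 3 * (2 * a) * (2 * b + 1) + (2 * b + 1) ^ 2 =
          2 * (2 * a ^ 2 + 3 * a * (2 * b + 1) + 2 * b ^ 2 + 2 * b) + 1 := by ring
        rw [this]
        omega
      omega
    · have h7 : (v.1 ^ 2 + 3 * v.1 * v.2 + v.2 ^ 2) % 2 = 1 := by
        obtain ⟨a, ha⟩ : ∃ a, v.1 = 2 * a + 1 := ⟨v.1 / 2, by omega⟩
        obtain ⟨b, hb⟩ : ∃ b, v.2 = 2 * b + 1 := ⟨v.2 / 2, by omega⟩
        rw [ha, hb]
        have : (2 * a + 1) ^ 2 + 3 * (2 * a + 1) * (2 * b + 1) + (2 * b + 1) ^ 2 =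
          2 * (2 * a ^ 2 + 2 * a + 6 * a * b + 3 * a + 3 * b + 2 * b ^ 2 + 2 * b + 2) + 1 := by ring
        rw [this]
        omega
      omega
  have : Fact p.Prime := ⟨hp⟩
  have : Fact (Nat.Prime 5) := ⟨by norm_num⟩
  have hsq : IsSquare ((5 : ℕ) : ZMod p) := by
    have h3 : (v.2 : ZMod p) ≠ 0 := fun h => hy ((ZMod.intCast_zmod_eq_zero_iff_dvd _ _).1 h)
    have h4 : ((nm v : ℤ) : ZMod p) = 0 := (ZMod.intCast_zmod_eq_zero_iff_dvd _ _).2 hd'
    refine ⟨(2 * (v.1 : ZMod p) + 3 * v.2) * (v.2 : ZMod p)⁻¹, ?_⟩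
    have h5 : (2 * (v.1 : ZMod p) + 3 * v.2) * (2 * (v.1 : ZMod p) + 3 * v.2) = 5 * ((v.2 : ZMod p) * v.2) := by
      have h6 : ((nm v : ℤ) : ZMod p) = (v.1 : ZMod p) ^ 2 + 3 * v.1 * v.2 + (v.2 : ZMod p) ^ 2 := by
        unfold nm
        push_cast
        ring
      rw [h6] at h4
      linear_combination 4 * h4
    calc ((5 : ℕ) : ZMod p) = 5 * ((v.2 : ZMod p) * v.2) * ((v.2 : ZMod p)⁻¹ * (v.2 : ZMod p)⁻¹) := by
          push_cast
          field_simp
      _ = (2 * (v.1 : ZMod p) + 3 * v.2) * (2 * (v.1 : ZMod p) + 3 * v.2) *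
            ((v.2 : ZMod p)⁻¹ * (v.2 : ZMod p)⁻¹) := by rw [h5]
      _ = _ := by ring
  have hsq' : IsSquare (p : ZMod 5) :=
    (ZMod.exists_sq_eq_prime_iff_of_mod_four_eq_one (p := 5) (q := p) (by norm_num) h2).2 hsq
  have hne : (p : ZMod 5) ≠ 0 := by
    intro h
    have h6 : 5 ∣ p := (ZMod.natCast_eq_zero_iff _ _).1 h
    exact h5 ((Nat.prime_dvd_prime_iff_eq (by norm_num) hp).1 h6).symm
  rcases SqC_five _ hne hsq' with h | h
  · left
    have h6 : ((p : ℕ) : ZMod 5) = ((1 : ℕ) : ZMod 5) := by rw [h]; rfl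
    have h7 := (ZMod.natCast_eq_natCast_iff' _ _ _).1 h6
    omega
  · right
    have h6 : ((p : ℕ) : ZMod 5) = ((4 : ℕ) : ZMod 5) := by rw [h]; rfl
    have h7 := (ZMod.natCast_eq_natCast_iff' _ _ _).1 h6
    omega

/-- two roots modulo a prime power -/
private theorem SqC_two {p : ℕ} (hp : p.Prime) {a : ℕ} (ha : 0 < a) {s t : ℤ}
    (hs : (p : ℤ) ^ a ∣ s ^ 2 + 3 * s + 1) (ht : (p : ℤ) ^ a ∣ t ^ 2 + 3 * t + 1) :
    (p : ℤ) ^ a ∣ s - t ∨ (p : ℤ) ^ a ∣ s + t + 3 := by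
  have hpZ : Prime (p : ℤ) := Nat.prime_iff_prime_int.1 hp
  have hprod : (p : ℤ) ^ a ∣ (s - t) * (s + t + 3) := by
    have h3 : (s - t) * (s + t + 3) = (s ^ 2 + 3 * s + 1) - (t ^ 2 + 3 * t + 1) := by ring
    rw [h3]
    exact dvd_sub hs ht
  by_cases h1 : (p : ℤ) ∣ s - t
  · by_cases h2 : (p : ℤ) ∣ s + t + 3
    · have h3 : (p : ℤ) ∣ 2 * s + 3 := by
        have h4 : 2 * s + 3 = (s - t) + (s + t + 3) := by ring
        rw [h4]
        exact dvd_add h1 h2
      have h5 : (p : ℤ) ∣ 5 := by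
        have h6 : (5 : ℤ) = (2 * s + 3) * (2 * s + 3) - 4 * (s ^ 2 + 3 * s + 1) := by ring
        rw [h6]
        exact dvd_sub (Dvd.dvd.mul_left h3 _) (Dvd.dvd.mul_left ((dvd_pow_self _ (by omega)).trans hs) _)
      have h7 : p = 5 := by
        have h8 : p ∣ 5 := by exact_mod_cast h5
        exact (Nat.prime_dvd_prime_iff_eq hp (by norm_num)).1 h8
      subst h7
      obtain ⟨m, hm⟩ := h3
      rcases Nat.lt_or_ge a 2 with h8 | h8
      · have h9 : a = 1 := by omega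
        subst h9
        left
        rwa [pow_one]
      · exfalso
        obtain ⟨n, hn⟩ : (5 : ℤ) ^ 2 ∣ s ^ 2 + 3 * s + 1 := (pow_dvd_pow _ h8).trans (by exact_mod_cast hs)
        have h10 : (5 : ℤ) = (2 * s + 3) * (2 * s + 3) - 4 * (s ^ 2 + 3 * s + 1) := by ring
        rw [hm, hn] at h10
        push_cast at h10
        have h11 : (5 : ℤ) = 25 * (m * m - 4 * n) := by linarith
        omega
    · left
      exact (IsCoprime.pow_left ((Prime.coprime_iff_not_dvd hpZ).2 h2)).dvd_of_dvd_mul_right hprod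
  · right
    exact (IsCoprime.pow_left ((Prime.coprime_iff_not_dvd hpZ).2 h1)).dvd_of_dvd_mul_left hprod

/-- the roots modulo `n` -/
private def SqC_R (n : ℕ) : Set (ZMod n) := {s | s ^ 2 + 3 * s + 1 = 0}

private theorem SqC_pp {p a : ℕ} (hp : p.Prime) (ha : 0 < a) : (SqC_R (p ^ a)).ncard ≤ 2 := by
  have : NeZero (p ^ a) := ⟨(pow_pos hp.pos a).ne'⟩
  have hcast : ∀ s : ZMod (p ^ a), s ∈ SqC_R (p ^ a) ↔
      (p : ℤ) ^ a ∣ ((s.val : ℤ)) ^ 2 + 3 * (s.val : ℤ) + 1 := by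
    intro s
    have h1 : ((((s.val : ℤ)) ^ 2 + 3 * (s.val : ℤ) + 1 : ℤ) : ZMod (p ^ a)) = s ^ 2 + 3 * s + 1 := by
      push_cast
      rw [ZMod.natCast_zmod_val]
    have h2 := ZMod.intCast_zmod_eq_zero_iff_dvd (((s.val : ℤ)) ^ 2 + 3 * (s.val : ℤ) + 1) (p ^ a)
    rw [h1] at h2
    push_cast at h2
    exact h2
  rcases (SqC_R (p ^ a)).eq_empty_or_nonempty with h | ⟨t, ht⟩
  · rw [h, Set.ncard_empty]
    exact Nat.zero_le _
  · have hsub : SqC_R (p ^ a) ⊆ {t, -t - 3} := by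
      intro s hs
      rcases SqC_two hp ha ((hcast s).1 hs) ((hcast t).1 ht) with h | h
      · left
        have h1 : (((s.val : ℤ) - (t.val : ℤ) : ℤ) : ZMod (p ^ a)) = 0 :=
          (ZMod.intCast_zmod_eq_zero_iff_dvd _ _).2 (by push_cast; exact h)
        push_cast at h1
        rw [ZMod.natCast_zmod_val, ZMod.natCast_zmod_val] at h1
        exact sub_eq_zero.1 h1
      · right
        have h1 : (((s.val : ℤ) + (t.val : ℤ) + 3 : ℤ) : ZMod (p ^ a)) = 0 :=
          (ZMod.intCast_zmod_eq_zero_iff_dvd _ _).2 (by push_cast; exact h)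
        push_cast at h1
        rw [ZMod.natCast_zmod_val, ZMod.natCast_zmod_val] at h1
        show s = -t - 3
        linear_combination h1
    exact (Set.ncard_le_ncard hsub (Set.toFinite _)).trans (Set.ncard_insert_le _ _ |>.trans (by
      rw [Set.ncard_singleton]))

private theorem SqC_roots (n : ℕ) (hn : 0 < n) : (SqC_R n).ncard ≤ n.divisors.card := by
  induction n using Nat.recOnPosPrimePosCoprime with
  | prime_pow p a hp ha =>
    refine (SqC_pp hp ha).trans ?_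
    rw [Nat.divisors_prime_pow hp, Finset.card_map, Finset.card_range]
    omega
  | zero => omega
  | one =>
    have h1 : (SqC_R 1).ncard ≤ 1 := by
      have h2 : (SqC_R 1).Subsingleton := Set.subsingleton_of_subsingleton
      exact (Set.ncard_le_one (Set.toFinite _)).2 fun a ha b hb => h2 ha hb
    rw [Nat.divisors_one, Finset.card_singleton]
    exact h1
  | coprime a b ha hb hab iha ihb =>
    rw [hab.card_divisors_mul]
    have : NeZero a := ⟨by omega⟩
    have : NeZero b := ⟨by omega⟩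
    have : NeZero (a * b) := ⟨(Nat.mul_pos (by omega) (by omega)).ne'⟩
    have h1 : (SqC_R (a * b)).ncard ≤ (SqC_R a ×ˢ SqC_R b).ncard := by
      refine Set.ncard_le_ncard_of_injOn (ZMod.chineseRemainder hab) ?_
        ((ZMod.chineseRemainder hab).injective.injOn) (Set.toFinite _)
      intro s hs
      have h2 : s ^ 2 + 3 * s + 1 = 0 := hs
      have h3 := congrArg (ZMod.chineseRemainder hab) h2
      rw [map_add, map_add, map_pow, map_mul, map_one, map_ofNat, map_zero] at h3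
      have h4 := congrArg Prod.fst h3
      have h5 := congrArg Prod.snd h3
      exact ⟨h4, h5⟩
    rw [Set.ncard_prod] at h1
    exact h1.trans (Nat.mul_le_mul (iha (by omega)) (ihb (by omega)))

private theorem SqC_eq {v w : ℤ × ℤ} (hv : IsCoprime v.1 v.2) (hw : IsCoprime w.1 w.2)
    (h1 : 0 ≤ v.1) (h2 : 0 ≤ v.2) (h3 : 0 ≤ w.1) (h4 : 0 ≤ w.2) (h : dt v w = 0) : v = w := by
  unfold dt at h
  have h5 : v.1 * w.2 = w.1 * v.2 := by linarith
  refine Prod.ext (Int.dvd_antisymm h1 h3 ?_ ?_) (Int.dvd_antisymm h2 h4 ?_ ?_)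
  · exact hv.dvd_of_dvd_mul_right (h5 ▸ dvd_mul_right _ _)
  · exact hw.dvd_of_dvd_mul_right (h5.symm ▸ dvd_mul_right _ _)
  · refine hv.symm.dvd_of_dvd_mul_left ?_
    rw [h5]
    exact dvd_mul_left _ _
  · refine hw.symm.dvd_of_dvd_mul_left ?_
    rw [← h5]
    exact dvd_mul_left _ _

private theorem SqC_side {n : ℕ} (hn : 1 < n) {v w : ℤ × ℤ} (hv : IsCoprime v.1 v.2) (hw : IsCoprime w.1 w.2)
    (h1 : 0 ≤ v.1) (h2 : 0 ≤ v.2) (h3 : 0 ≤ w.1) (h4 : 0 ≤ w.2) (hnv : nm v = n) (hnw : nm w = n)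
    (h : (n : ℤ) ∣ dt v w) (h0 : 0 ≤ dt v w) : dt v w = 0 := by
  by_contra hne
  have hpos : 0 < dt v w := lt_of_le_of_ne h0 (Ne.symm hne)
  have hle : (n : ℤ) ≤ dt v w := Int.le_of_dvd hpos h
  have hk : 0 ≤ kk v w := by
    unfold kk
    positivity
  have hid : nm v * nm w = kk v w ^ 2 + 3 * kk v w * dt v w + dt v w ^ 2 := by
    unfold nm kk dt
    ring
  rw [hnv, hnw] at hid
  have hn1 : (1 : ℤ) < n := by exact_mod_cast hn
  have hk0 : kk v w = 0 := by
    by_contra hk1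
    have hk2 : 0 < kk v w := lt_of_le_of_ne hk (Ne.symm hk1)
    have h5 : (n : ℤ) * n ≤ dt v w ^ 2 := by nlinarith
    nlinarith [mul_pos hk2 hpos]
  unfold kk at hk0
  have e1 : 0 ≤ v.1 * w.1 := mul_nonneg h1 h3
  have e2 : 0 ≤ v.2 * w.2 := mul_nonneg h2 h4
  have e3 : 0 ≤ w.1 * v.2 := mul_nonneg h3 h2
  have f1 : v.1 * w.1 = 0 := by nlinarith
  have f3 : w.1 * v.2 = 0 := by nlinarith
  have f2 : v.2 * w.2 = 0 := by nlinarith
  have g1 : w.1 = 0 := by
    by_contra hc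
    have a1 : v.1 = 0 := (mul_eq_zero.1 f1).resolve_right hc
    have a2 : v.2 = 0 := (mul_eq_zero.1 f3).resolve_left hc
    rw [a1, a2] at hv
    exact not_isCoprime_zero_zero hv
  have g2 : w.2 = 1 := by
    rw [g1] at hw
    have a3 := isCoprime_zero_left.1 hw
    rcases Int.isUnit_iff.1 a3 with a4 | a4
    · exact a4
    · omega
  have hn2 : nm w = 1 := by
    unfold nm
    rw [g1, g2]
    norm_num
  rw [hn2] at hnw
  omega

open Classical in
theorem card_nm (Q n : ℕ) (hn : 0 < n) :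
    ((Bx Q).filter (fun v => IsCoprime v.1 v.2 ∧ nm v = n)).card ≤ 2 * n.divisors.card := by
  have hmem : ∀ v, v ∈ (Bx Q).filter (fun v => IsCoprime v.1 v.2 ∧ nm v = n) →
      0 ≤ v.1 ∧ 0 ≤ v.2 ∧ IsCoprime v.1 v.2 ∧ nm v = n := by
    intro v hv
    obtain ⟨h1, h2, h3⟩ := mem_filter.1 hv
    unfold Bx at h1
    rw [mem_product, mem_Icc, mem_Icc] at h1
    exact ⟨h1.1.1, h1.2.1, h2, h3⟩
  rcases Nat.lt_or_ge 1 n with h1 | h1
  · have : NeZero n := ⟨by omega⟩
    have hle : (((Bx Q).filter (fun v => IsCoprime v.1 v.2 ∧ nm v = n) : Finset (ℤ × ℤ)) : Set (ℤ × ℤ)).ncard ≤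
        (SqC_R n).ncard := by
      have hunit : ∀ v : ℤ × ℤ, IsCoprime v.1 v.2 → nm v = n → IsUnit (v.2 : ZMod n) := by
        intro v hv hnv
        have h2 : IsCoprime v.2 (n : ℤ) := by
          rw [← hnv]
          have h3 : nm v = v.1 ^ 2 + v.2 * (3 * v.1 + v.2) := by
            unfold nm
            ring
          rw [h3]
          exact (IsCoprime.add_mul_left_right_iff).2 (hv.symm.pow_right)
        obtain ⟨a, b, hab⟩ := h2
        have h4 : ((a : ℤ) : ZMod n) * (v.2 : ZMod n) = 1 := by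
          have h5 := congrArg (fun z : ℤ => (z : ZMod n)) hab
          push_cast at h5
          rw [ZMod.natCast_self, mul_zero, add_zero] at h5
          exact h5
        exact IsUnit.of_mul_eq_one_right _ h4
      refine Set.ncard_le_ncard_of_injOn (fun v => (v.1 : ZMod n) * (v.2 : ZMod n)⁻¹) ?_ ?_ (Set.toFinite _)
      · intro v hv
        obtain ⟨-, -, g3, g4⟩ := hmem v (mem_coe.1 hv)
        have hu := ZMod.mul_inv_of_unit _ (hunit v g3 g4)
        have h5 : ((nm v : ℤ) : ZMod n) = 0 := by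
          rw [g4]
          push_cast
          exact ZMod.natCast_self n
        unfold nm at h5
        push_cast at h5
        show ((v.1 : ZMod n) * (v.2 : ZMod n)⁻¹) ^ 2 + 3 * ((v.1 : ZMod n) * (v.2 : ZMod n)⁻¹) + 1 = 0
        linear_combination (v.2 : ZMod n)⁻¹ ^ 2 * h5 + (-3 * (v.1 : ZMod n) * (v.2 : ZMod n)⁻¹ -
          (v.2 : ZMod n) * (v.2 : ZMod n)⁻¹ - 1) * hu
      · intro v hv w hw hvw
        obtain ⟨g1, g2, g3, g4⟩ := hmem v (mem_coe.1 hv)
        obtain ⟨k1, k2, k3, k4⟩ := hmem w (mem_coe.1 hw)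
        have hu := ZMod.mul_inv_of_unit _ (hunit v g3 g4)
        have hu' := ZMod.mul_inv_of_unit _ (hunit w k3 k4)
        have h5 : (v.1 : ZMod n) * (v.2 : ZMod n)⁻¹ = (w.1 : ZMod n) * (w.2 : ZMod n)⁻¹ := hvw
        have h6 : ((dt v w : ℤ) : ZMod n) = 0 := by
          unfold dt
          push_cast
          linear_combination (v.2 : ZMod n) * (w.2 : ZMod n) * h5 - (v.1 : ZMod n) * (w.2 : ZMod n) * hu +
            (w.1 : ZMod n) * (v.2 : ZMod n) * hu'
        have h7 : (n : ℤ) ∣ dt v w := (ZMod.intCast_zmod_eq_zero_iff_dvd _ _).1 h6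
        have hanti : dt w v = - dt v w := by
          unfold dt
          ring
        rcases le_total 0 (dt v w) with h8 | h8
        · exact SqC_eq g3 k3 g1 g2 k1 k2 (SqC_side h1 g3 k3 g1 g2 k1 k2 g4 k4 h7 h8)
        · exact (SqC_eq k3 g3 k1 k2 g1 g2 (SqC_side h1 k3 g3 k1 k2 g1 g2 k4 g4
            (by rw [hanti]; exact (dvd_neg).2 h7) (by rw [hanti]; linarith))).symm
    rw [Set.ncard_coe_finset] at hle
    have := SqC_roots n hn
    omega
  · have h2 : n = 1 := by omega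
    subst h2
    have hsub : (Bx Q).filter (fun v => IsCoprime v.1 v.2 ∧ nm v = (1 : ℕ)) ⊆ {((1 : ℤ), (0 : ℤ)), (0, 1)} := by
      intro v hv
      obtain ⟨g1, g2, -, g4⟩ := hmem v hv
      unfold nm at g4
      push_cast at g4
      rw [mem_insert, mem_singleton]
      rcases eq_or_lt_of_le g1 with h3 | h3
      · right
        have h4 : v.2 = 1 := by
          rw [← h3] at g4
          nlinarith
        exact Prod.ext h3.symm h4
      · left
        have h4 : v.2 = 0 := by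
          by_contra hc
          have h5 : 0 < v.2 := lt_of_le_of_ne g2 (Ne.symm hc)
          nlinarith [mul_pos h3 h5]
        have h5 : v.1 = 1 := by
          rw [h4] at g4
          nlinarith
        exact Prod.ext h5 h4
    have h3 := card_le_card hsub
    have h4 : ({((1 : ℤ), (0 : ℤ)), (0, 1)} : Finset (ℤ × ℤ)).card ≤ 2 := Finset.card_le_two
    rw [Nat.divisors_one, card_singleton]
    omega

end Pool.Agent.Lib.MP_d57abb_nt.GV
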