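import Pool.Agent.Lib.MP_d57abb_nt.GV.SqDefs
import Pool.Agent.Lib.MP_d57abb_nt.GT.Defs
import Pool.Agent.Lib.MP_d57abb_nt.GA.TS.PerK

/-!
# The number of divisors near `k` and the pairs of divisors of the norms
-/

namespace Pool.Agent.Lib.MP_d57abb_nt.GV

open Finset
open Pool.Agent.Lib.MP_d57abb_nt Pool.Agent.Lib.MP_d57abb_nt.GA.TA Pool.Agent.Lib.MP_d57abb_nt.GA.TZ

attribute [local instance] GT.lab0

private def Aa (n i : ℕ) : ℕ := (n.divisors.filter (fun d => Nat.log 2 d = i)).card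

private theorem SqD_lt {n R d : ℕ} (hR : Nat.log 2 n < R) (hd : d ∈ n.divisors) : Nat.log 2 d < R :=
  lt_of_le_of_lt (Nat.log_mono_right (Nat.divisor_le hd)) hR

private theorem SqD_W2 {n R : ℕ} (hR : Nat.log 2 n < R) : W2 n = ∑ i ∈ range R, Aa n i ^ 2 := by
  unfold W2
  rw [Finset.card_eq_sum_card_fiberwise (f := fun x : ℕ × ℕ => Nat.log 2 x.1) (t := range R)]
  · refine Finset.sum_congr rfl fun i _ => ?_
    unfold Aa
    rw [sq, ← Finset.card_product]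
    congr 1
    ext x
    simp only [mem_filter, mem_product]
    constructor
    · rintro ⟨⟨⟨h1, h2⟩, h3⟩, h4⟩
      exact ⟨⟨h1, h4⟩, h2, by rw [← h3, h4]⟩
    · rintro ⟨⟨h1, h4⟩, h2, h5⟩
      exact ⟨⟨⟨h1, h2⟩, by rw [h4, h5]⟩, h4⟩
  · intro x hx
    have h1 := (mem_product.1 (mem_filter.1 (mem_coe.1 hx)).1).1
    exact mem_coe.2 (mem_range.2 (SqD_lt hR h1))

private theorem SqD_near (M R i : ℕ) : ((range R).filter (fun j => i ≤ j + M ∧ j ≤ i + M)).card ≤ 2 * M + 1 := by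
  have h : (range R).filter (fun j => i ≤ j + M ∧ j ≤ i + M) ⊆ Icc (i - M) (i + M) := by
    intro j hj
    rw [mem_filter] at hj
    rw [mem_Icc]
    omega
  refine (Finset.card_le_card h).trans ?_
  rw [Nat.card_Icc]
  omega

/-- the pairs of divisors with ratio at most `2 ^ M` -/
theorem pairs_le (n₁ n₂ M : ℕ) : ((n₁.divisors ×ˢ n₂.divisors).filter
    (fun x => Nat.log 2 x.1 ≤ Nat.log 2 x.2 + M ∧ Nat.log 2 x.2 ≤ Nat.log 2 x.1 + M)).card ≤
    (2 * M + 1) * (W2 n₁ + W2 n₂) := by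
  obtain ⟨R, hR⟩ : ∃ R, R = Nat.log 2 n₁ + Nat.log 2 n₂ + 1 := ⟨_, rfl⟩
  have hR1 : Nat.log 2 n₁ < R := by omega
  have hR2 : Nat.log 2 n₂ < R := by omega
  rw [Finset.card_eq_sum_card_fiberwise (f := fun x : ℕ × ℕ => (Nat.log 2 x.1, Nat.log 2 x.2))
    (t := (range R ×ˢ range R).filter (fun y => y.1 ≤ y.2 + M ∧ y.2 ≤ y.1 + M))]
  · have h1 : ∀ y ∈ (range R ×ˢ range R).filter (fun y : ℕ × ℕ => y.1 ≤ y.2 + M ∧ y.2 ≤ y.1 + M),
        (((n₁.divisors ×ˢ n₂.divisors).filter (fun x => Nat.log 2 x.1 ≤ Nat.log 2 x.2 + M ∧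
          Nat.log 2 x.2 ≤ Nat.log 2 x.1 + M)).filter (fun x => (Nat.log 2 x.1, Nat.log 2 x.2) = y)).card ≤
        Aa n₁ y.1 ^ 2 + Aa n₂ y.2 ^ 2 := by
      intro y _
      have h2 : (((n₁.divisors ×ˢ n₂.divisors).filter (fun x => Nat.log 2 x.1 ≤ Nat.log 2 x.2 + M ∧
          Nat.log 2 x.2 ≤ Nat.log 2 x.1 + M)).filter (fun x => (Nat.log 2 x.1, Nat.log 2 x.2) = y)).card ≤
          Aa n₁ y.1 * Aa n₂ y.2 := by
        unfold Aa
        rw [← Finset.card_product]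
        refine Finset.card_le_card fun x hx => ?_
        simp only [mem_filter, mem_product, Prod.ext_iff] at hx ⊢
        tauto
      refine h2.trans ?_
      generalize Aa n₁ y.1 = a
      generalize Aa n₂ y.2 = b
      rcases le_total a b with h | h
      · have := Nat.mul_le_mul_right b h
        nlinarith [Nat.zero_le (a ^ 2)]
      · have := Nat.mul_le_mul_left a h
        nlinarith [Nat.zero_le (b ^ 2)]
    refine (Finset.sum_le_sum h1).trans ?_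
    rw [Finset.sum_add_distrib, mul_add]
    refine add_le_add ?_ ?_
    · rw [Finset.sum_filter, Finset.sum_product, SqD_W2 hR1, Finset.mul_sum]
      refine Finset.sum_le_sum fun i _ => ?_
      rw [← Finset.sum_filter]
      show ∑ _a ∈ (range R).filter (fun j => i ≤ j + M ∧ j ≤ i + M), Aa n₁ i ^ 2 ≤ _
      rw [Finset.sum_const, smul_eq_mul]
      exact Nat.mul_le_mul_right _ (SqD_near M R i)
    · rw [Finset.sum_filter, Finset.sum_product_right, SqD_W2 hR2, Finset.mul_sum]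
      refine Finset.sum_le_sum fun i _ => ?_
      rw [← Finset.sum_filter]
      show ∑ _a ∈ (range R).filter (fun j => j ≤ i + M ∧ i ≤ j + M), Aa n₂ i ^ 2 ≤ _
      rw [Finset.sum_const, smul_eq_mul]
      refine Nat.mul_le_mul_right _ (le_trans (Finset.card_le_card fun j hj => ?_) (SqD_near M R i))
      simp only [mem_filter] at hj ⊢
      tauto
  · intro x hx
    obtain ⟨h1, h2⟩ := mem_filter.1 (mem_coe.1 hx)
    obtain ⟨h3, h4⟩ := mem_product.1 h1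
    refine mem_coe.2 (mem_filter.2 ⟨mem_product.2 ⟨mem_range.2 (SqD_lt hR1 h3), mem_range.2 (SqD_lt hR2 h4)⟩, h2⟩)

private theorem SqD_pow {b : ℕ} (hb : 0 < b) (M : ℕ) : Nat.log 2 (b * 2 ^ M) = Nat.log 2 b + M := by
  induction M with
  | zero => rw [pow_zero, mul_one, add_zero]
  | succ M ih =>
    rw [pow_succ, ← mul_assoc, Nat.log_mul_base (by norm_num) (by positivity), ih]
    rfl

private theorem SqD_log {a b M : ℕ} (h : a ≤ 2 ^ M * b) (hb : 0 < b) : Nat.log 2 a ≤ Nat.log 2 b + M := by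
  refine (Nat.log_mono_right h).trans ?_
  rw [mul_comm, SqD_pow hb]

open Classical in
/-- divisors of `n₁ n₂` of the size of `n₁` -/
private theorem SqD_inj {n₁ n₂ M : ℕ} (h1 : 0 < n₁) (h2 : 0 < n₂) (S : Finset ℕ) (hS : ∀ d ∈ S, d ∣ n₁ * n₂ ∧
    d ≤ 2 ^ M * n₁ ∧ n₁ ≤ 2 ^ M * d) : S.card ≤ (2 * M + 1) * (W2 n₁ + W2 n₂) := by
  refine le_trans ?_ (pairs_le n₁ n₂ M)
  refine Finset.card_le_card_of_injOn (fun d => (n₁ / n₁.gcd d, d / n₁.gcd d)) ?_ ?_
  · intro d hd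
    obtain ⟨a1, a2, a3⟩ := hS d (mem_coe.1 hd)
    have hd0 : 0 < d := Nat.pos_of_dvd_of_pos a1 (Nat.mul_pos h1 h2)
    have hg0 : 0 < n₁.gcd d := Nat.gcd_pos_of_pos_left _ h1
    obtain ⟨g, hg⟩ : ∃ g, g = n₁.gcd d := ⟨_, rfl⟩
    rw [← hg] at hg0
    obtain ⟨a, ha⟩ : g ∣ n₁ := by rw [hg]; exact Nat.gcd_dvd_left _ _
    obtain ⟨b, hb⟩ : g ∣ d := by rw [hg]; exact Nat.gcd_dvd_right _ _
    have hab : Nat.Coprime b a := by
      have h3 := Nat.coprime_div_gcd_div_gcd (m := n₁) (n := d) (by rw [← hg]; exact hg0)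
      rw [← hg, ha, hb, Nat.mul_div_cancel_left _ hg0, Nat.mul_div_cancel_left _ hg0] at h3
      exact h3.symm
    have e1 : n₁ / g = a := by rw [ha, Nat.mul_div_cancel_left _ hg0]
    have e2 : d / g = b := by rw [hb, Nat.mul_div_cancel_left _ hg0]
    have ha0 : 0 < a := Nat.pos_of_ne_zero fun h => by rw [h, mul_zero] at ha; omega
    have hb0 : 0 < b := Nat.pos_of_ne_zero fun h => by rw [h, mul_zero] at hb; omega
    rw [mem_coe, mem_filter, mem_product]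
    show ((n₁ / n₁.gcd d) ∈ n₁.divisors ∧ (d / n₁.gcd d) ∈ n₂.divisors) ∧
      Nat.log 2 (n₁ / n₁.gcd d) ≤ Nat.log 2 (d / n₁.gcd d) + M ∧
      Nat.log 2 (d / n₁.gcd d) ≤ Nat.log 2 (n₁ / n₁.gcd d) + M
    rw [← hg, e1, e2]
    have hbn : b ∣ n₂ := by
      have h3 : g * b ∣ g * (a * n₂) := by
        rw [← hb, ← mul_assoc, ← ha]
        exact a1
      exact hab.dvd_of_dvd_mul_left ((Nat.mul_dvd_mul_iff_left hg0).1 h3)
    refine ⟨⟨Nat.mem_divisors.2 ⟨⟨g, by rw [ha, mul_comm]⟩, h1.ne'⟩, Nat.mem_divisors.2 ⟨hbn, h2.ne'⟩⟩, ?_, ?_⟩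
    · refine SqD_log ?_ hb0
      rw [ha, hb] at a3
      have h3 : g * a ≤ g * (2 ^ M * b) := by
        refine a3.trans (le_of_eq ?_)
        ring
      exact Nat.le_of_mul_le_mul_left h3 hg0
    · refine SqD_log ?_ ha0
      rw [ha, hb] at a2
      have h3 : g * b ≤ g * (2 ^ M * a) := by
        refine a2.trans (le_of_eq ?_)
        ring
      exact Nat.le_of_mul_le_mul_left h3 hg0
  · intro d _ e _ hde
    obtain ⟨h3, h4⟩ := Prod.ext_iff.1 hde
    have h3' : n₁ / n₁.gcd d = n₁ / n₁.gcd e := h3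
    have h4' : d / n₁.gcd d = e / n₁.gcd e := h4
    have hg : n₁.gcd d = n₁.gcd e := by
      have k1 := Nat.div_mul_cancel (Nat.gcd_dvd_left n₁ d)
      have k2 := Nat.div_mul_cancel (Nat.gcd_dvd_left n₁ e)
      rw [h3'] at k1
      have k3 : 0 < n₁ / n₁.gcd e := Nat.div_pos (Nat.gcd_le_left _ h1) (Nat.gcd_pos_of_pos_left _ h1)
      exact Nat.eq_of_mul_eq_mul_left k3 (k1.trans k2.symm)
    have k1 := Nat.div_mul_cancel (Nat.gcd_dvd_right n₁ d)
    have k2 := Nat.div_mul_cancel (Nat.gcd_dvd_right n₁ e)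
    rw [h4', hg] at k1
    rw [← k1, k2]

theorem tc_le {c : ℝ} (hc : 1 ≤ c) : ∃ C : ℕ, ∀ {v w : ℤ × ℤ} {k : ℕ}, Qd v → Qd w → dt v w = 1 → kk v w = k → 1 ≤ k →
    (k : ℝ) ≤ c * nm v → (nm v : ℝ) ≤ c * k → tc c k ≤ C * (W2 (nm v).natAbs + W2 (nm w).natAbs) := by
  obtain ⟨M, hM⟩ := pow_unbounded_of_one_lt (c ^ 2) (by norm_num : (1 : ℝ) < 2)
  refine ⟨2 * M + 1, fun {v w k} hv hw hd hk hk1 h1 h2 => ?_⟩
  have p1 := (tp_of_Qd hv).nm_pos
  have p2 := (tp_of_Qd hw).nm_pos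
  have h3 := kk_eq hd
  rw [hk] at h3
  have h4 : ff k = (nm v).natAbs * (nm w).natAbs := by
    unfold ff
    rw [← Int.natAbs_mul, ← h3]
    have e : ((k : ℤ) ^ 2 + 3 * k + 1) = ((k ^ 2 + 3 * k + 1 : ℕ) : ℤ) := by
      push_cast
      ring
    rw [e, Int.natAbs_natCast]
  have hn : ((nm v).natAbs : ℝ) = (nm v : ℝ) := by
    have h5 : (((nm v).natAbs : ℕ) : ℤ) = nm v := by omega
    rw [← Int.cast_natCast, h5]
  unfold tc
  refine SqD_inj (by omega) (by omega) _ fun d hd' => ?_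
  obtain ⟨h5, h6, h7⟩ := mem_filter.1 hd'
  refine ⟨?_, ?_, ?_⟩
  · rw [← h4]
    exact Nat.dvd_of_mem_divisors h5
  · have h8 : (d : ℝ) ≤ 2 ^ M * ((nm v).natAbs : ℝ) := by
      rw [hn]
      have h9 : (d : ℝ) ≤ c * (c * nm v) := h7.trans (mul_le_mul_of_nonneg_left h1 (by linarith))
      have h10 : (0 : ℝ) ≤ nm v := by exact_mod_cast p1.le
      nlinarith
    exact_mod_cast h8
  · have h8 : ((nm v).natAbs : ℝ) ≤ 2 ^ M * (d : ℝ) := by
      rw [hn]
      have h9 : (nm v : ℝ) ≤ c * (c * d) := h2.trans (mul_le_mul_of_nonneg_left h6 (by linarith))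
      have h10 : (0 : ℝ) ≤ d := Nat.cast_nonneg _
      nlinarith
    exact_mod_cast h8

end Pool.Agent.Lib.MP_d57abb_nt.GV
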