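import Pool.Agent.Lib.MP_d57abb_nt.KT.CntP
import Pool.Agent.Lib.MP_d57abb_nt.Ev.TauS
import Pool.Agent.Lib.MP_d57abb_nt.GA.TS.Mk

/-!
# Most norms have few divisors

`few_td`: for `η > 0` and large `Q` at most `η Q²` coprime vectors of the box `[0, Q]²` have a norm with more than
`(log Q) ^ 0.699` divisors (`0.699 > log 2`). `SqT_mer`: the sum of `2 / p` over the primes `p ≤ y`, `p = 1, 4` modulo `5`,
is at most `(1 + ε) log log y + C` (`CntP_theta` and partial summation). `SqT_mom`: the sum over `z` of the binomial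
coefficients `C (ω_y, k)` of the number `ω_y` of the prime factors `p ≤ y = Q ^ (1/k)` is at most `8 Q² M ^ k / k!`
(`Ev.card_dvd`); so with `k` large few vectors have `ω_y > 1.005 M` (`SqT_big`). `SqT_b1`, `SqT_b2`: few norms are divisible by
`p ^ 2`, `p > w`, or by `p ^ A`, `p ≤ w`. `SqT_td`: for the other norms the number of divisors is at most
`A ^ w 2 ^ (3 k) 2 ^ ω_y`.
-/

namespace Pool.Agent.Lib.MP_d57abb_nt.GV

open Finset Pool.Agent.Lib.MP_d57abb_nt Pool.Agent.Lib.MP_d57abb_nt.GA.TA Pool.Agent.Lib.MP_d57abb_nt.GA.TS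

/-- comparison by partial summation -/
private theorem SqT_cmp (d f : ℕ → ℝ) (hf : ∀ n, 2 ≤ n → f (n + 1) ≤ f n) (hf0 : ∀ n, 2 ≤ n → 0 ≤ f n)
    (hD : ∀ N, 2 ≤ N → 0 ≤ ∑ n ∈ Icc 2 N, d n) (N : ℕ) (hN : 2 ≤ N) : 0 ≤ ∑ n ∈ Icc 2 N, d n * f n := by
  have key : ∀ N, 2 ≤ N → (∑ n ∈ Icc 2 N, d n) * f N ≤ ∑ n ∈ Icc 2 N, d n * f n := by
    intro N hN
    induction N, hN using Nat.le_induction with
    | base => simp
    | succ n hn ih =>
      rw [Finset.sum_Icc_succ_top (by omega), Finset.sum_Icc_succ_top (by omega)]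
      have h1 := mul_le_mul_of_nonneg_left (hf n hn) (hD n hn)
      linarith
  exact (mul_nonneg (hD N hN) (hf0 N hN)).trans (key N hN)

private theorem SqT_ll (N : ℕ) (hN : 2 ≤ N) : ∑ n ∈ Icc 2 N, 1 / ((n : ℝ) * Real.log n) ≤
    1 / (2 * Real.log 2) + (Real.log (Real.log N) - Real.log (Real.log 2)) := by
  induction N, hN using Nat.le_induction with
  | base => simp
  | succ n hn ih =>
    rw [Finset.sum_Icc_succ_top (by omega)]
    have hnR : (2 : ℝ) ≤ n := by exact_mod_cast hn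
    have hn0 : (0 : ℝ) < n := by linarith
    have hl : 0 < Real.log n := Real.log_pos (by linarith)
    have hl1 : 0 < Real.log ((n + 1 : ℕ) : ℝ) := Real.log_pos (by push_cast; linarith)
    have h1 : 1 / (((n + 1 : ℕ) : ℝ) * Real.log ((n + 1 : ℕ) : ℝ)) ≤
        Real.log (Real.log ((n + 1 : ℕ) : ℝ)) - Real.log (Real.log n) := by
      have e1 : Real.log (Real.log n / Real.log ((n + 1 : ℕ) : ℝ)) ≤ Real.log n / Real.log ((n + 1 : ℕ) : ℝ) - 1 :=
        Real.log_le_sub_one_of_pos (div_pos hl hl1)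
      rw [Real.log_div hl.ne' hl1.ne'] at e1
      have e2 : Real.log ((n : ℝ) / ((n + 1 : ℕ) : ℝ)) ≤ (n : ℝ) / ((n + 1 : ℕ) : ℝ) - 1 :=
        Real.log_le_sub_one_of_pos (by positivity)
      rw [Real.log_div hn0.ne' (by positivity)] at e2
      have e3 : (n : ℝ) / ((n + 1 : ℕ) : ℝ) - 1 = -(1 / ((n + 1 : ℕ) : ℝ)) := by
        have : ((n + 1 : ℕ) : ℝ) ≠ 0 := by positivity
        field_simp
        push_cast
        ring
      rw [e3] at e2
      have e4 : 1 / ((n + 1 : ℕ) : ℝ) ≤ Real.log ((n + 1 : ℕ) : ℝ) - Real.log n := by linarith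
      have e5 : 1 / (((n + 1 : ℕ) : ℝ) * Real.log ((n + 1 : ℕ) : ℝ)) ≤
          (Real.log ((n + 1 : ℕ) : ℝ) - Real.log n) / Real.log ((n + 1 : ℕ) : ℝ) := by
        rw [← div_div]
        exact div_le_div_of_nonneg_right e4 hl1.le
      have e6 : (Real.log ((n + 1 : ℕ) : ℝ) - Real.log n) / Real.log ((n + 1 : ℕ) : ℝ) =
          1 - Real.log n / Real.log ((n + 1 : ℕ) : ℝ) := by
        rw [sub_div, div_self hl1.ne']
      rw [e6] at e5
      linarith
    linarith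

open Classical in
/-- the sum of `2 / p` over the primes `1, 4` modulo `5` -/
private theorem SqT_mer {ε : ℝ} (hε : 0 < ε) (hε1 : ε ≤ 1) : ∃ C : ℝ, ∀ y : ℕ, 2 ≤ y →
    ∑ p ∈ (Icc 1 y).filter (fun p => p.Prime ∧ KT.R5 p), 2 / (p : ℝ) ≤ (1 + ε) * Real.log (Real.log y) + C := by
  obtain ⟨y0, h0⟩ := KT.CntP_theta
  obtain ⟨z1, hz1⟩ := Filter.eventually_atTop.1 (KT.CntP_log.eventually_ge_atTop (√(4 / ε)))
  -- the partial sums
  obtain ⟨A, hA⟩ : ∃ A : ℕ → ℝ, A = fun z => ∑ n ∈ (Ioc 0 z).filter KT.R5, All.lp n := ⟨_, rfl⟩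
  have hlp : ∀ n, 0 ≤ All.lp n := by
    intro n
    unfold All.lp
    split_ifs with h
    · exact Real.log_nonneg (by exact_mod_cast h.one_lt.le)
    · exact le_rfl
  have hmono : ∀ a b, a ≤ b → A a ≤ A b := by
    intro a b hab
    rw [hA]
    refine Finset.sum_le_sum_of_subset_of_nonneg ?_ fun n _ _ => hlp n
    intro n hn
    rw [Finset.mem_filter, Finset.mem_Ioc] at hn ⊢
    exact ⟨⟨hn.1.1, hn.1.2.trans hab⟩, hn.2⟩
  obtain ⟨C0, hC0⟩ : ∃ C0, C0 = A (max (max y0 z1) 2) := ⟨_, rfl⟩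
  have hC00 : 0 ≤ C0 := by
    rw [hC0, hA]
    exact Finset.sum_nonneg fun n _ => hlp n
  have hAb : ∀ z : ℕ, A z ≤ (1 / 2 + ε / 2) * z + C0 := by
    intro z
    rcases le_or_gt (max (max y0 z1) 2) z with h | h
    · have h1 := h0 z (((le_max_left _ _).trans (le_max_left _ _)).trans h)
      have h2 := hz1 z (((le_max_right _ _).trans (le_max_left _ _)).trans h)
      have hs : 0 < √(4 / ε) := Real.sqrt_pos.2 (by positivity)
      have h3 : 4 / ε ≤ Real.log z ^ 2 := by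
        have h4 := pow_le_pow_left₀ hs.le h2 2
        rwa [Real.sq_sqrt (by positivity)] at h4
      have h5 : (z : ℝ) / Real.log z ^ 2 ≤ z * (ε / 4) := by
        rw [div_eq_mul_inv]
        refine mul_le_mul_of_nonneg_left ?_ (Nat.cast_nonneg _)
        have h6 : (Real.log z ^ 2)⁻¹ ≤ (4 / ε)⁻¹ := inv_anti₀ (by positivity) h3
        rwa [inv_div] at h6
      have h6 := (abs_le.1 h1).2
      have h7 : A z ≤ z / 2 + 2 * (z * (ε / 4)) := by
        rw [hA]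
        linarith
      have h8 : (0 : ℝ) ≤ z := Nat.cast_nonneg _
      nlinarith
    · have h1 := hmono z _ h.le
      rw [← hC0] at h1
      have h8 : (0 : ℝ) ≤ z := Nat.cast_nonneg _
      have h9 : 0 ≤ (1 / 2 + ε / 2) * (z : ℝ) := by positivity
      linarith
  -- the comparison
  obtain ⟨a, ha⟩ : ∃ a : ℕ → ℝ, a = fun n => if KT.R5 n then All.lp n else 0 := ⟨_, rfl⟩
  obtain ⟨b, hb⟩ : ∃ b : ℕ → ℝ, b = fun n => (1 / 2 + ε / 2) + (if n = 2 then C0 + 1 else 0) := ⟨_, rfl⟩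
  have hsa : ∀ N, 2 ≤ N → ∑ n ∈ Icc 2 N, a n = A N := by
    intro N hN
    rw [hA, ha]
    simp only
    rw [Finset.sum_filter]
    have h1 : Ioc 0 N = insert 1 (Icc 2 N) := by
      ext n
      rw [Finset.mem_insert, Finset.mem_Ioc, Finset.mem_Icc]
      omega
    rw [h1, Finset.sum_insert (by rw [Finset.mem_Icc]; omega)]
    have h2 : (if KT.R5 1 then All.lp 1 else 0) = (0 : ℝ) := by
      have h3 : All.lp 1 = 0 := by
        unfold All.lp
        rw [if_neg (by norm_num)]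
      rw [h3, ite_self]
    rw [h2, zero_add]
  have hsb : ∀ N, 2 ≤ N → ∑ n ∈ Icc 2 N, b n = (1 / 2 + ε / 2) * ((N : ℝ) - 1) + (C0 + 1) := by
    intro N hN
    rw [hb]
    simp only
    rw [Finset.sum_add_distrib, Finset.sum_const, Nat.card_Icc, Finset.sum_ite_eq' (Icc 2 N) 2,
      if_pos (by rw [Finset.mem_Icc]; omega), nsmul_eq_mul]
    have h1 : ((N + 1 - 2 : ℕ) : ℝ) = (N : ℝ) - 1 := by
      have h2 : N + 1 - 2 = N - 1 := by omega
      rw [h2, Nat.cast_sub (by omega)]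
      norm_num
    rw [h1]
    ring
  have hcmp := SqT_cmp (fun n => b n - a n) (fun n => 1 / ((n : ℝ) * Real.log n)) (by
      intro n hn
      have hnR : (2 : ℝ) ≤ n := by exact_mod_cast hn
      have h1 : 0 < Real.log n := Real.log_pos (by linarith)
      have h2 : Real.log n ≤ Real.log ((n + 1 : ℕ) : ℝ) :=
        Real.log_le_log (by linarith) (by push_cast; linarith)
      have h3 : (n : ℝ) ≤ ((n + 1 : ℕ) : ℝ) := by push_cast; linarith
      refine one_div_le_one_div_of_le (by positivity) ?_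
      exact mul_le_mul h3 h2 h1.le (by positivity)) (by
      intro n hn
      have hnR : (2 : ℝ) ≤ n := by exact_mod_cast hn
      have h1 : 0 < Real.log n := Real.log_pos (by linarith)
      positivity) (by
      intro N hN
      rw [Finset.sum_sub_distrib, hsa N hN, hsb N hN]
      have h1 := hAb N
      nlinarith)
  refine ⟨2 * ((1 / 2 + ε / 2) * (1 / (2 * Real.log 2) - Real.log (Real.log 2)) + (C0 + 1) / (2 * Real.log 2)), ?_⟩
  intro y hy
  have h1 := hcmp y hy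
  have h2 : ∑ p ∈ (Icc 1 y).filter (fun p => p.Prime ∧ KT.R5 p), 2 / (p : ℝ) =
      2 * ∑ n ∈ Icc 2 y, a n * (1 / ((n : ℝ) * Real.log n)) := by
    rw [ha, Finset.mul_sum, Finset.sum_filter]
    simp only
    have h3 : Icc 1 y = insert 1 (Icc 2 y) := by
      ext n
      rw [Finset.mem_insert, Finset.mem_Icc, Finset.mem_Icc]
      omega
    rw [h3, Finset.sum_insert (by rw [Finset.mem_Icc]; omega), if_neg (by norm_num), zero_add]
    refine Finset.sum_congr rfl fun n hn => ?_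
    rw [Finset.mem_Icc] at hn
    have hnR : (2 : ℝ) ≤ n := by exact_mod_cast hn.1
    have hl : 0 < Real.log n := Real.log_pos (by linarith)
    by_cases hp : n.Prime
    · by_cases h5 : KT.R5 n
      · rw [if_pos ⟨hp, h5⟩, if_pos h5, All.lp, if_pos hp]
        field_simp
      · rw [if_neg (fun h => h5 h.2), if_neg h5]
        ring
    · rw [if_neg (fun h => hp h.1)]
      by_cases h5 : KT.R5 n
      · rw [if_pos h5, All.lp, if_neg hp]
        ring
      · rw [if_neg h5]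
        ring
  rw [h2]
  have h3 : ∑ n ∈ Icc 2 y, (b n - a n) * (1 / ((n : ℝ) * Real.log n)) =
      ∑ n ∈ Icc 2 y, b n * (1 / ((n : ℝ) * Real.log n)) - ∑ n ∈ Icc 2 y, a n * (1 / ((n : ℝ) * Real.log n)) := by
    rw [← Finset.sum_sub_distrib]
    exact Finset.sum_congr rfl fun n _ => by ring
  have h4 : ∑ n ∈ Icc 2 y, b n * (1 / ((n : ℝ) * Real.log n)) =
      (1 / 2 + ε / 2) * ∑ n ∈ Icc 2 y, 1 / ((n : ℝ) * Real.log n) + (C0 + 1) / (2 * Real.log 2) := by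
    rw [hb]
    simp only [add_mul, Finset.sum_add_distrib, ← Finset.mul_sum, ite_mul, zero_mul]
    rw [Finset.sum_ite_eq' (Icc 2 y) 2, if_pos (by rw [Finset.mem_Icc]; omega)]
    push_cast
    ring
  have h5 := SqT_ll y hy
  rw [h3, h4] at h1
  have h6 := mul_le_mul_of_nonneg_left h5 (show 0 ≤ 1 / 2 + ε / 2 by positivity)
  linarith

private theorem SqT_rr (d : ℕ) : Ev.rr d ≤ (d.divisors.card : ℤ) := by
  unfold Ev.rr
  have h1 : ∀ e ∈ d.divisors, Ev.chi5 e ≤ 1 := by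
    intro e _
    unfold Ev.chi5
    split_ifs <;> norm_num
  have h2 := Finset.sum_le_card_nsmul _ _ _ h1
  rwa [nsmul_eq_mul, mul_one] at h2

private theorem SqT_dvd (Q d : ℕ) (hd : 0 < d) (hdQ : d ≤ 3 * Q) :
    (((Ev.Pc Q).filter (fun z => d ∣ Ev.nmN z)).card : ℝ) ≤ 8 * (Q : ℝ) ^ 2 * d.divisors.card / d := by
  refine (Ev.card_dvd Q d hd hdQ).trans ?_
  have hdR : (0 : ℝ) < d := by exact_mod_cast hd
  have h1 : (Ev.rts d : ℝ) ≤ 2 * d.divisors.card := by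
    have h2 := (Ev.rts_le d hd).trans (mul_le_mul_of_nonneg_left (SqT_rr d) (by norm_num))
    exact_mod_cast h2
  apply div_le_div_of_nonneg_right _ hdR.le
  nlinarith [sq_nonneg (Q : ℝ)]

open Pointwise in
private theorem SqT_tau (T : Finset ℕ) (hT : ∀ p ∈ T, p.Prime) : (∏ p ∈ T, p).divisors.card ≤ 2 ^ T.card := by
  classical
  induction T using Finset.induction_on with
  | empty => simp
  | insert p T hp ih =>
    rw [Finset.prod_insert hp, Finset.card_insert_of_notMem hp, pow_succ, Nat.divisors_mul]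
    refine Finset.card_mul_le.trans ?_
    have h1 : p.divisors.card = 2 := by
      rw [(hT p (Finset.mem_insert_self _ _)).divisors]
      exact Finset.card_pair (hT p (Finset.mem_insert_self _ _)).one_lt.ne
    have h2 := ih fun q hq => hT q (Finset.mem_insert_of_mem hq)
    rw [h1]
    omega

private theorem SqT_binom (k : ℕ) {x y : ℝ} (hx : 0 ≤ x) (hy : 0 ≤ y) :
    x ^ (k + 1) / (k + 1).factorial + y * (x ^ k / k.factorial) ≤ (x + y) ^ (k + 1) / (k + 1).factorial := by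
  have h1 : x ^ (k + 1) + (k + 1 : ℕ) * x ^ k * y ≤ (x + y) ^ (k + 1) := by
    rcases eq_or_lt_of_le hx with h0 | h0
    · rw [← h0]
      rcases Nat.eq_zero_or_pos k with rfl | hk
      · simp
      · rw [zero_pow hk.ne', zero_pow (by omega)]
        simp only [mul_zero, zero_mul, zero_add]
        positivity
    · have h2 := one_add_mul_le_pow (a := y / x) (by have := div_nonneg hy hx; linarith) (k + 1)
      have h3 := mul_le_mul_of_nonneg_left h2 (pow_nonneg hx (k + 1))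
      rw [← mul_pow, mul_add, mul_one, mul_add, mul_one] at h3
      have h4 : x * (y / x) = y := by field_simp
      rw [h4] at h3
      have h5 : x ^ (k + 1) * (((k + 1 : ℕ) : ℝ) * (y / x)) = (k + 1 : ℕ) * x ^ k * y := by
        rw [pow_succ]
        field_simp
      rw [h5] at h3
      exact h3
  have h2 : (((k + 1).factorial : ℕ) : ℝ) = (k + 1 : ℕ) * (k.factorial : ℕ) := by
    rw [Nat.factorial_succ]
    push_cast
    ring
  have hk : (0 : ℝ) < (k.factorial : ℕ) := by exact_mod_cast Nat.factorial_pos k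
  have hk1 : (0 : ℝ) < ((k + 1).factorial : ℕ) := by exact_mod_cast Nat.factorial_pos (k + 1)
  rw [le_div_iff₀ hk1, add_mul, div_mul_cancel₀ _ hk1.ne']
  refine le_trans (le_of_eq ?_) h1
  congr 1
  rw [h2]
  field_simp

private theorem SqT_esym (x : ℕ → ℝ) (S : Finset ℕ) (hx : ∀ p ∈ S, 0 ≤ x p) (k : ℕ) :
    ∑ T ∈ S.powersetCard k, ∏ p ∈ T, x p ≤ (∑ p ∈ S, x p) ^ k / k.factorial := by
  classical
  induction S using Finset.induction_on generalizing k with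
  | empty =>
    rcases Nat.eq_zero_or_pos k with rfl | hk
    · simp
    · rw [Finset.powersetCard_eq_empty.2 (by simpa using hk)]
      simp only [Finset.sum_empty]
      positivity
  | insert a S ha ih =>
    have hxS : ∀ p ∈ S, 0 ≤ x p := fun p hp => hx p (Finset.mem_insert_of_mem hp)
    have hM : 0 ≤ ∑ p ∈ S, x p := Finset.sum_nonneg hxS
    have hxa := hx a (Finset.mem_insert_self _ _)
    rcases k with _ | k
    · simp
    · rw [Finset.powersetCard_succ_insert ha, Finset.sum_union, Finset.sum_insert ha]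
      · have h1 := ih hxS (k + 1)
        have h2 := ih hxS k
        have h3 : ∑ T ∈ (S.powersetCard k).image (insert a), ∏ p ∈ T, x p =
            x a * ∑ T ∈ S.powersetCard k, ∏ p ∈ T, x p := by
          rw [Finset.sum_image, Finset.mul_sum]
          · refine Finset.sum_congr rfl fun T hT => ?_
            rw [Finset.prod_insert fun h => ha ((Finset.mem_powersetCard.1 hT).1 h)]
          · intro T hT T' hT' h
            have e1 : a ∉ T := fun h => ha ((Finset.mem_powersetCard.1 (Finset.mem_coe.1 hT)).1 h)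
            have e2 : a ∉ T' := fun h => ha ((Finset.mem_powersetCard.1 (Finset.mem_coe.1 hT')).1 h)
            have e3 := congrArg (fun U : Finset ℕ => U.erase a) h
            simp only [Finset.erase_insert e1, Finset.erase_insert e2] at e3
            exact e3
        rw [h3]
        have h4 := SqT_binom k hM hxa
        have h5 := mul_le_mul_of_nonneg_left h2 hxa
        rw [add_comm (x a)]
        linarith
      · rw [Finset.disjoint_left]
        intro T hT hT'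
        obtain ⟨T', hT1, rfl⟩ := Finset.mem_image.1 hT'
        exact ha ((Finset.mem_powersetCard.1 hT).1 (Finset.mem_insert_self _ _))

/-- the factorial moments of the number of the prime factors in `S` -/
private theorem SqT_mom (Q y k : ℕ) (S : Finset ℕ) (hS : ∀ p ∈ S, p.Prime ∧ p ≤ y) (hy : y ^ k ≤ 3 * Q) :
    ∑ z ∈ Ev.Pc Q, (((S.filter (fun p => p ∣ Ev.nmN z)).card.choose k : ℕ) : ℝ) ≤
      8 * (Q : ℝ) ^ 2 * ((∑ p ∈ S, 2 / (p : ℝ)) ^ k / k.factorial) := by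
  classical
  have h1 : ∀ z ∈ Ev.Pc Q, (((S.filter (fun p => p ∣ Ev.nmN z)).card.choose k : ℕ) : ℝ) =
      ∑ T ∈ S.powersetCard k, (if (∀ p ∈ T, p ∣ Ev.nmN z) then (1 : ℝ) else 0) := by
    intro z _
    rw [Finset.sum_boole, ← Finset.card_powersetCard]
    congr 2
    ext T
    rw [Finset.mem_powersetCard, Finset.mem_filter, Finset.mem_powersetCard]
    constructor
    · rintro ⟨a, b⟩
      exact ⟨⟨a.trans (Finset.filter_subset _ _), b⟩, fun p hp => (Finset.mem_filter.1 (a hp)).2⟩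
    · rintro ⟨⟨a, b⟩, c⟩
      exact ⟨fun p hp => Finset.mem_filter.2 ⟨a hp, c p hp⟩, b⟩
  rw [Finset.sum_congr rfl h1, Finset.sum_comm]
  have h2 : ∀ T ∈ S.powersetCard k, ∑ z ∈ Ev.Pc Q, (if (∀ p ∈ T, p ∣ Ev.nmN z) then (1 : ℝ) else 0) ≤
      8 * (Q : ℝ) ^ 2 * ∏ p ∈ T, 2 / (p : ℝ) := by
    intro T hT
    obtain ⟨hT1, hT2⟩ := Finset.mem_powersetCard.1 hT
    have hpr : ∀ p ∈ T, p.Prime := fun p hp => (hS p (hT1 hp)).1
    have hd : 0 < ∏ p ∈ T, p := Finset.prod_pos fun p hp => (hpr p hp).pos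
    have hdQ : ∏ p ∈ T, p ≤ 3 * Q := by
      refine le_trans ?_ hy
      have h3 := Finset.prod_le_pow_card T (fun p => p) y fun p hp => (hS p (hT1 hp)).2
      rwa [hT2] at h3
    rw [Finset.sum_boole]
    have h3 : ((Ev.Pc Q).filter (fun z => ∀ p ∈ T, p ∣ Ev.nmN z)).card ≤
        ((Ev.Pc Q).filter (fun z => (∏ p ∈ T, p) ∣ Ev.nmN z)).card := by
      refine Finset.card_le_card fun z hz => ?_
      rw [Finset.mem_filter] at hz ⊢
      exact ⟨hz.1, Finset.prod_primes_dvd _ (fun p hp => (hpr p hp).prime) hz.2⟩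
    have h4 := SqT_dvd Q _ hd hdQ
    have h5 : (((∏ p ∈ T, p).divisors.card : ℕ) : ℝ) ≤ 2 ^ k := by
      have h6 := SqT_tau T hpr
      rw [hT2] at h6
      exact_mod_cast h6
    have hdR : (0 : ℝ) < ((∏ p ∈ T, p : ℕ) : ℝ) := by exact_mod_cast hd
    have h6 : ∏ p ∈ T, 2 / (p : ℝ) = 2 ^ k / ((∏ p ∈ T, p : ℕ) : ℝ) := by
      rw [Finset.prod_div_distrib, Finset.prod_const, hT2]
      push_cast
      rfl
    rw [h6]
    calc _ ≤ (((Ev.Pc Q).filter (fun z => (∏ p ∈ T, p) ∣ Ev.nmN z)).card : ℝ) := by exact_mod_cast h3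
      _ ≤ 8 * (Q : ℝ) ^ 2 * (((∏ p ∈ T, p).divisors.card : ℕ) : ℝ) / ((∏ p ∈ T, p : ℕ) : ℝ) := h4
      _ ≤ 8 * (Q : ℝ) ^ 2 * 2 ^ k / ((∏ p ∈ T, p : ℕ) : ℝ) := by
          apply div_le_div_of_nonneg_right _ hdR.le
          exact mul_le_mul_of_nonneg_left h5 (by positivity)
      _ = _ := by ring
  refine (Finset.sum_le_sum h2).trans ?_
  rw [← Finset.mul_sum]
  refine mul_le_mul_of_nonneg_left ?_ (by positivity)
  exact SqT_esym (fun p => 2 / (p : ℝ)) S (fun p _ => by positivity) k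

/-- few vectors have many prime factors in `S` -/
private theorem SqT_big (Q y k : ℕ) (S : Finset ℕ) (hS : ∀ p ∈ S, p.Prime ∧ p ≤ y) (hy : y ^ k ≤ 3 * Q)
    {μ : ℝ} (hμ : (k : ℝ) < μ) :
    (((Ev.Pc Q).filter (fun z => μ < ((S.filter (fun p => p ∣ Ev.nmN z)).card : ℝ))).card : ℝ) ≤
      8 * (Q : ℝ) ^ 2 * ((∑ p ∈ S, 2 / (p : ℝ)) / (μ - k)) ^ k := by
  classical
  have h0 : (0 : ℝ) < μ - k := by linarith
  have hm := SqT_mom Q y k S hS hy
  have hk : (0 : ℝ) < (k.factorial : ℕ) := by exact_mod_cast Nat.factorial_pos k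
  have h1 : ∀ z ∈ (Ev.Pc Q).filter (fun z => μ < ((S.filter (fun p => p ∣ Ev.nmN z)).card : ℝ)),
      (μ - k) ^ k / (k.factorial : ℕ) ≤ (((S.filter (fun p => p ∣ Ev.nmN z)).card.choose k : ℕ) : ℝ) := by
    intro z hz
    have hz2 := (Finset.mem_filter.1 hz).2
    refine le_trans ?_ (Nat.pow_le_choose (α := ℝ) k _)
    apply div_le_div_of_nonneg_right _ hk.le
    rw [← Nat.cast_pow]
    push_cast
    refine pow_le_pow_left₀ h0.le ?_ k
    generalize hn : (S.filter (fun p => p ∣ Ev.nmN z)).card = n at hz2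
    have h2 : k ≤ n := by
      have h3 : (k : ℝ) < n := hμ.trans hz2
      exact_mod_cast h3.le
    rw [Nat.cast_sub (by omega)]
    push_cast
    linarith
  have h2 : ((μ - k) ^ k / (k.factorial : ℕ)) *
      (((Ev.Pc Q).filter (fun z => μ < ((S.filter (fun p => p ∣ Ev.nmN z)).card : ℝ))).card : ℝ) ≤
      8 * (Q : ℝ) ^ 2 * ((∑ p ∈ S, 2 / (p : ℝ)) ^ k / k.factorial) := by
    refine le_trans ?_ hm
    have h3 := Finset.card_nsmul_le_sum _ _ _ h1
    rw [nsmul_eq_mul, mul_comm] at h3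
    refine h3.trans (Finset.sum_le_sum_of_subset_of_nonneg (Finset.filter_subset _ _) fun z _ _ => Nat.cast_nonneg _)
  have h3 : 0 < (μ - k) ^ k / (k.factorial : ℕ) := by positivity
  rw [div_pow]
  have h4 : 8 * (Q : ℝ) ^ 2 * ((∑ p ∈ S, 2 / (p : ℝ)) ^ k / k.factorial) =
      ((μ - k) ^ k / (k.factorial : ℕ)) * (8 * (Q : ℝ) ^ 2 * ((∑ p ∈ S, 2 / (p : ℝ)) ^ k / (μ - k) ^ k)) := by
    have h5 : (μ - k) ^ k ≠ 0 := (pow_pos h0 k).ne'
    field_simp
  rw [h4] at h2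
  exact le_of_mul_le_mul_left h2 h3

private theorem SqT_sq2 : ¬ IsSquare (((2 : ℕ) : ZMod 5)) := by decide

private theorem SqT_sq3 : ¬ IsSquare (((3 : ℕ) : ZMod 5)) := by decide

private theorem SqT_pr {x y p : ℕ} (hp : p.Prime) (hc : Nat.Coprime x y) (h : p ∣ Ev.nmN (x, y)) :
    p = 5 ∨ KT.R5 p := by
  rcases eq_or_ne p 5 with h5 | h5
  · exact Or.inl h5
  right
  have h' : p ∣ x ^ 2 + 3 * x * y + y ^ 2 := h
  have hy : ¬ p ∣ y := by
    intro hy
    have h1 : p ∣ x ^ 2 := by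
      have h2 : x ^ 2 + 3 * x * y + y ^ 2 = x ^ 2 + y * (3 * x + y) := by ring
      rw [h2] at h'
      exact (Nat.dvd_add_left (Dvd.dvd.mul_right hy _)).1 h'
    exact Nat.not_coprime_of_dvd_of_dvd hp.one_lt (hp.dvd_of_dvd_pow h1) hy hc
  have hp2 : p ≠ 2 := by
    rintro rfl
    have h3 : y % 2 = 1 := by omega
    have h2 : (x ^ 2 + 3 * x * y + y ^ 2) % 2 = 0 := Nat.mod_eq_zero_of_dvd h'
    rcases Nat.mod_two_eq_zero_or_one x with h4 | h4 <;>
      simp [Nat.add_mod, Nat.mul_mod, Nat.pow_mod, h4, h3] at h2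
  have : Fact p.Prime := ⟨hp⟩
  have : Fact (Nat.Prime 5) := ⟨Nat.prime_five⟩
  have h1 : IsSquare ((5 : ℕ) : ZMod p) := by
    rw [← ZMod.natCast_eq_zero_iff] at h'
    have hy0 : (y : ZMod p) ≠ 0 := by
      intro h0
      exact hy ((ZMod.natCast_eq_zero_iff _ _).1 h0)
    push_cast at h'
    refine ⟨(2 * (x : ZMod p) + 3 * y) * (y : ZMod p)⁻¹, ?_⟩
    push_cast
    field_simp
    linear_combination (-4 : ZMod p) * h'
  have h2 : IsSquare ((p : ℕ) : ZMod 5) :=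
    (ZMod.exists_sq_eq_prime_iff_of_mod_four_eq_one (p := 5) (q := p) (by norm_num) hp2).2 h1
  rw [← ZMod.natCast_mod] at h2
  have h3 : p % 5 < 5 := Nat.mod_lt _ (by norm_num)
  have h4 : p % 5 ≠ 0 := by
    intro h4
    exact h5 ((Nat.prime_dvd_prime_iff_eq Nat.prime_five hp).1 (Nat.dvd_of_mod_eq_zero h4)).symm
  have h6 : p % 5 ≠ 2 := by
    intro h4
    rw [h4] at h2
    exact SqT_sq2 h2
  have h7 : p % 5 ≠ 3 := by
    intro h4
    rw [h4] at h2
    exact SqT_sq3 h2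
  unfold KT.R5
  omega

/-- the number of divisors -/
private theorem SqT_td {n w A y J : ℕ} (hn : 0 < n) (hA : 1 ≤ A) (S : Finset ℕ)
    (h1 : ∀ p, p.Prime → p ≤ w → ¬ p ^ A ∣ n) (h2 : ∀ p, p.Prime → w < p → p ≤ y → ¬ p ^ 2 ∣ n)
    (hS : ∀ p, p.Prime → w < p → p ≤ y → p ∣ n → p ∈ S) (hJ : n < (y + 1) ^ J) :
    n.divisors.card ≤ A ^ w * 2 ^ (S.filter (fun p => p ∣ n)).card * 2 ^ J := by
  classical
  rw [Nat.card_divisors hn.ne', ← Finset.prod_filter_mul_prod_filter_not n.primeFactors (fun p => p ≤ w),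
    ← Finset.prod_filter_mul_prod_filter_not (n.primeFactors.filter (fun p => ¬ p ≤ w)) (fun p => p ≤ y), mul_assoc]
  refine Nat.mul_le_mul ?_ (Nat.mul_le_mul ?_ ?_)
  · have e1 : ∏ p ∈ n.primeFactors.filter (fun p => p ≤ w), (n.factorization p + 1) ≤
        A ^ (n.primeFactors.filter (fun p => p ≤ w)).card := by
      refine Finset.prod_le_pow_card _ _ _ fun p hp => ?_
      obtain ⟨hp1, hp2⟩ := Finset.mem_filter.1 hp
      have hpp := Nat.prime_of_mem_primeFactors hp1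
      have h3 := h1 p hpp hp2
      rw [hpp.pow_dvd_iff_le_factorization hn.ne'] at h3
      omega
    refine e1.trans (Nat.pow_le_pow_right hA ?_)
    have e2 : n.primeFactors.filter (fun p => p ≤ w) ⊆ Icc 1 w := by
      intro p hp
      obtain ⟨hp1, hp2⟩ := Finset.mem_filter.1 hp
      exact Finset.mem_Icc.2 ⟨(Nat.prime_of_mem_primeFactors hp1).pos, hp2⟩
    have e3 := Finset.card_le_card e2
    rwa [Nat.card_Icc, Nat.add_sub_cancel] at e3
  · have e1 : ∏ p ∈ (n.primeFactors.filter (fun p => ¬ p ≤ w)).filter (fun p => p ≤ y), (n.factorization p + 1) ≤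
        2 ^ ((n.primeFactors.filter (fun p => ¬ p ≤ w)).filter (fun p => p ≤ y)).card := by
      refine Finset.prod_le_pow_card _ _ _ fun p hp => ?_
      obtain ⟨hp0, hp3⟩ := Finset.mem_filter.1 hp
      obtain ⟨hp1, hp2⟩ := Finset.mem_filter.1 hp0
      have hpp := Nat.prime_of_mem_primeFactors hp1
      have h3 := h2 p hpp (not_le.1 hp2) hp3
      rw [hpp.pow_dvd_iff_le_factorization hn.ne'] at h3
      omega
    refine e1.trans (Nat.pow_le_pow_right (by norm_num) (Finset.card_le_card ?_))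
    intro p hp
    obtain ⟨hp0, hp3⟩ := Finset.mem_filter.1 hp
    obtain ⟨hp1, hp2⟩ := Finset.mem_filter.1 hp0
    have hpd := Nat.dvd_of_mem_primeFactors hp1
    exact Finset.mem_filter.2 ⟨hS p (Nat.prime_of_mem_primeFactors hp1) (not_le.1 hp2) hp3 hpd, hpd⟩
  · obtain ⟨P, hP⟩ : ∃ P, P = (n.primeFactors.filter (fun p => ¬ p ≤ w)).filter (fun p => ¬ p ≤ y) := ⟨_, rfl⟩
    rw [← hP]
    have hPs : P ⊆ n.primeFactors := by
      rw [hP]
      exact (Finset.filter_subset _ _).trans (Finset.filter_subset _ _)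
    have e1 : ∏ p ∈ P, (n.factorization p + 1) ≤ ∏ p ∈ P, 2 ^ n.factorization p :=
      Finset.prod_le_prod' fun p _ => Nat.lt_two_pow_self
    rw [Finset.prod_pow_eq_pow_sum] at e1
    refine e1.trans (Nat.pow_le_pow_right (by norm_num) ?_)
    have e2 : (y + 1) ^ (∑ p ∈ P, n.factorization p) ≤ n := by
      rw [← Finset.prod_pow_eq_pow_sum]
      calc ∏ p ∈ P, (y + 1) ^ n.factorization p ≤ ∏ p ∈ P, p ^ n.factorization p := by
            refine Finset.prod_le_prod' fun p hp => ?_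
            rw [hP] at hp
            have := (Finset.mem_filter.1 hp).2
            exact Nat.pow_le_pow_left (by omega) _
        _ ≤ ∏ p ∈ n.primeFactors, p ^ n.factorization p :=
            Finset.prod_le_prod_of_subset_of_one_le' hPs fun p hp _ =>
              Nat.one_le_pow _ _ (Nat.prime_of_mem_primeFactors hp).pos
        _ = n := Nat.prod_factorization_pow_eq_self hn.ne'
    have hy : 0 < y := by
      rcases Nat.eq_zero_or_pos y with h0 | h0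
      · rw [h0, zero_add, one_pow] at hJ
        omega
      · exact h0
    have e3 := lt_of_le_of_lt e2 hJ
    exact ((Nat.pow_lt_pow_iff_right (by omega)).1 e3).le

open Classical in
private theorem SqT_b1 (Q y w : ℕ) (hw : 0 < w) (hy : y ^ 2 ≤ 3 * Q) :
    (((Ev.Pc Q).filter (fun z => ∃ p : ℕ, p.Prime ∧ w < p ∧ p ≤ y ∧ p ^ 2 ∣ Ev.nmN z)).card : ℝ) ≤
      24 * (Q : ℝ) ^ 2 / w := by
  classical
  have h1 : (Ev.Pc Q).filter (fun z => ∃ p : ℕ, p.Prime ∧ w < p ∧ p ≤ y ∧ p ^ 2 ∣ Ev.nmN z) ⊆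
      ((Ioc w y).filter Nat.Prime).biUnion (fun p => (Ev.Pc Q).filter (fun z => p ^ 2 ∣ Ev.nmN z)) := by
    intro z hz
    obtain ⟨h2, p, h3, h4, h5, h6⟩ := Finset.mem_filter.1 hz
    exact Finset.mem_biUnion.2 ⟨p, Finset.mem_filter.2 ⟨Finset.mem_Ioc.2 ⟨h4, h5⟩, h3⟩, Finset.mem_filter.2 ⟨h2, h6⟩⟩
  have h2 : (((Ev.Pc Q).filter (fun z => ∃ p : ℕ, p.Prime ∧ w < p ∧ p ≤ y ∧ p ^ 2 ∣ Ev.nmN z)).card : ℝ) ≤
      ∑ p ∈ (Ioc w y).filter Nat.Prime, (((Ev.Pc Q).filter (fun z => p ^ 2 ∣ Ev.nmN z)).card : ℝ) := by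
    exact_mod_cast (Finset.card_le_card h1).trans Finset.card_biUnion_le
  refine h2.trans ?_
  have h3 : ∀ p ∈ (Ioc w y).filter Nat.Prime, (((Ev.Pc Q).filter (fun z => p ^ 2 ∣ Ev.nmN z)).card : ℝ) ≤
      24 * (Q : ℝ) ^ 2 * ((p : ℝ) ^ 2)⁻¹ := by
    intro p hp
    obtain ⟨hp1, hp2⟩ := Finset.mem_filter.1 hp
    rw [Finset.mem_Ioc] at hp1
    have h4 := SqT_dvd Q (p ^ 2) (pow_pos hp2.pos 2) ((Nat.pow_le_pow_left hp1.2 2).trans hy)
    rw [Nat.divisors_prime_pow hp2, Finset.card_map, Finset.card_range] at h4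
    refine h4.trans (le_of_eq ?_)
    push_cast
    rw [div_eq_mul_inv]
    ring
  refine (Finset.sum_le_sum h3).trans ?_
  rw [← Finset.mul_sum, div_eq_mul_inv]
  refine mul_le_mul_of_nonneg_left ?_ (by positivity)
  have h4 : ∑ p ∈ (Ioc w y).filter Nat.Prime, ((p : ℝ) ^ 2)⁻¹ ≤ ∑ p ∈ Ioc w y, ((p : ℝ) ^ 2)⁻¹ :=
    Finset.sum_le_sum_of_subset_of_nonneg (Finset.filter_subset _ _) fun p _ _ => by positivity
  refine h4.trans ?_
  rcases le_or_gt w y with h5 | h5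
  · have h6 := sum_Ioc_inv_sq_le_sub (α := ℝ) hw.ne' h5
    have h7 : (0 : ℝ) ≤ (y : ℝ)⁻¹ := by positivity
    linarith
  · rw [Finset.Ioc_eq_empty (by omega)]
    simp

open Classical in
private theorem SqT_b2 (Q w A : ℕ) (hw : w ^ A ≤ 3 * Q) :
    (((Ev.Pc Q).filter (fun z => ∃ p : ℕ, p.Prime ∧ p ≤ w ∧ p ^ A ∣ Ev.nmN z)).card : ℝ) ≤
      w * (8 * (Q : ℝ) ^ 2 * (A + 1) / 2 ^ A) := by
  classical
  have h1 : (Ev.Pc Q).filter (fun z => ∃ p : ℕ, p.Prime ∧ p ≤ w ∧ p ^ A ∣ Ev.nmN z) ⊆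
      ((Icc 1 w).filter Nat.Prime).biUnion (fun p => (Ev.Pc Q).filter (fun z => p ^ A ∣ Ev.nmN z)) := by
    intro z hz
    obtain ⟨h2, p, h3, h4, h5⟩ := Finset.mem_filter.1 hz
    exact Finset.mem_biUnion.2 ⟨p, Finset.mem_filter.2 ⟨Finset.mem_Icc.2 ⟨h3.pos, h4⟩, h3⟩, Finset.mem_filter.2 ⟨h2, h5⟩⟩
  have h2 : (((Ev.Pc Q).filter (fun z => ∃ p : ℕ, p.Prime ∧ p ≤ w ∧ p ^ A ∣ Ev.nmN z)).card : ℝ) ≤
      ∑ p ∈ (Icc 1 w).filter Nat.Prime, (((Ev.Pc Q).filter (fun z => p ^ A ∣ Ev.nmN z)).card : ℝ) := by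
    exact_mod_cast (Finset.card_le_card h1).trans Finset.card_biUnion_le
  refine h2.trans ?_
  have h3 : ∀ p ∈ (Icc 1 w).filter Nat.Prime, (((Ev.Pc Q).filter (fun z => p ^ A ∣ Ev.nmN z)).card : ℝ) ≤
      8 * (Q : ℝ) ^ 2 * (A + 1) / 2 ^ A := by
    intro p hp
    obtain ⟨hp1, hp2⟩ := Finset.mem_filter.1 hp
    rw [Finset.mem_Icc] at hp1
    have h4 := SqT_dvd Q (p ^ A) (pow_pos hp2.pos A) ((Nat.pow_le_pow_left hp1.2 A).trans hw)
    rw [Nat.divisors_prime_pow hp2, Finset.card_map, Finset.card_range] at h4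
    refine h4.trans ?_
    push_cast
    have hpR : (2 : ℝ) ≤ p := by exact_mod_cast hp2.two_le
    exact div_le_div_of_nonneg_left (by positivity) (by positivity) (pow_le_pow_left₀ (by norm_num) hpR A)
  have h4 := Finset.sum_le_card_nsmul _ _ _ h3
  rw [nsmul_eq_mul] at h4
  refine h4.trans (mul_le_mul_of_nonneg_right ?_ (by positivity))
  have h5 := Finset.card_filter_le (Icc 1 w) Nat.Prime
  rw [Nat.card_Icc, Nat.add_sub_cancel] at h5
  exact_mod_cast h5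

private theorem SqT_log2 : Real.log 2 ≤ 0.69315 := by
  have := Real.log_two_lt_d9
  linarith

open Classical in
private theorem SqT_main {η : ℝ} (hη : 0 < η) : ∃ Q₀ : ℕ, ∀ Q : ℕ, Q₀ ≤ Q →
    (((Ev.Pc Q).filter (fun z => (Real.log Q) ^ (699 / 1000 : ℝ) < ((Ev.nmN z).divisors.card : ℝ))).card : ℝ) ≤
      η * Q ^ 2 := by
  -- the parameters
  obtain ⟨w, hw⟩ : ∃ w, w = max 5 ⌈96 / η⌉₊ := ⟨_, rfl⟩
  have hw5 : 5 ≤ w := by rw [hw]; exact le_max_left _ _
  have hwR : (0 : ℝ) < w := by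
    have : 0 < w := by omega
    exact_mod_cast this
  have hwη : 24 / (w : ℝ) ≤ η / 4 := by
    have h1 : 96 / η ≤ w := (Nat.le_ceil _).trans (by rw [hw]; exact_mod_cast le_max_right _ _)
    rw [div_le_iff₀ hη] at h1
    rw [div_le_div_iff₀ hwR (by norm_num)]
    linarith
  obtain ⟨B, hB⟩ : ∃ B, B = ⌈64 * (w : ℝ) / η⌉₊ + 1 := ⟨_, rfl⟩
  obtain ⟨A, hA⟩ : ∃ A, A = 2 * B := ⟨_, rfl⟩
  have hA1 : 1 ≤ A := by omega
  have hAη : (w : ℝ) * (8 * (A + 1) / 2 ^ A) ≤ η / 4 := by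
    have h1 : 64 * (w : ℝ) / η ≤ B := by
      rw [hB]
      push_cast
      exact (Nat.le_ceil _).trans (by linarith)
    rw [div_le_iff₀ hη] at h1
    have h2 : ((B : ℝ) + 1) ≤ 2 ^ B := by
      have h3 : B + 1 ≤ 2 ^ B := Nat.lt_two_pow_self
      exact_mod_cast h3
    have hB0 : (0 : ℝ) < (B : ℝ) + 1 := by positivity
    have h3 : ((B : ℝ) + 1) ^ 2 ≤ 2 ^ A := by
      rw [hA, mul_comm, pow_mul]
      exact pow_le_pow_left₀ hB0.le h2 2
    have h4 : 8 * ((A : ℝ) + 1) / 2 ^ A ≤ 16 / ((B : ℝ) + 1) := by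
      rw [div_le_div_iff₀ (by positivity) hB0]
      have h5 : (A : ℝ) = 2 * B := by rw [hA]; push_cast; ring
      rw [h5]
      nlinarith
    have h5 : (w : ℝ) * (8 * (A + 1) / 2 ^ A) ≤ w * (16 / ((B : ℝ) + 1)) := mul_le_mul_of_nonneg_left h4 hwR.le
    refine h5.trans ?_
    rw [← mul_div_assoc, div_le_div_iff₀ hB0 (by norm_num)]
    nlinarith
  obtain ⟨k1, hk1⟩ := exists_pow_lt_of_lt_one (show (0 : ℝ) < η / 32 by positivity) (show (1000 / 1003 : ℝ) < 1 by norm_num)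
  obtain ⟨k, hk⟩ : ∃ k, k = k1 + 2 := ⟨_, rfl⟩
  have hk2 : 2 ≤ k := by omega
  have hkη : 8 * (1000 / 1003 : ℝ) ^ k ≤ η / 4 := by
    have h1 : (1000 / 1003 : ℝ) ^ k ≤ (1000 / 1003 : ℝ) ^ k1 :=
      pow_le_pow_of_le_one (by norm_num) (by norm_num) (by omega)
    linarith
  obtain ⟨C2, hC2⟩ := SqT_mer (ε := 1 / 500) (by norm_num) (by norm_num)
  obtain ⟨c1, hc1⟩ : ∃ c1, c1 = Real.log ((A : ℝ) ^ w * 2 ^ (3 * k)) := ⟨_, rfl⟩
  have hl2 := Real.log_two_gt_d9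
  have hl2' := SqT_log2
  have hl20 : 0 < Real.log 2 := by linarith
  -- the lower bound for log log Q
  obtain ⟨L0, hL0⟩ : ∃ L0, L0 = (|C2| + |c1| / Real.log 2 + k + 1) * 1000 + 1 := ⟨_, rfl⟩
  have hL01 : 1 ≤ L0 := by
    rw [hL0]
    have : 0 ≤ (|C2| + |c1| / Real.log 2 + k + 1) := by positivity
    linarith
  have hlim : Filter.Tendsto (fun Q : ℕ => Real.log (Real.log (Q : ℝ))) Filter.atTop Filter.atTop :=
    Real.tendsto_log_atTop.comp KT.CntP_log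
  obtain ⟨Q1, hQ1⟩ := Filter.eventually_atTop.1 (hlim.eventually_ge_atTop L0)
  obtain ⟨Q2, hQ2⟩ := Filter.eventually_atTop.1 (KT.CntP_log.eventually_ge_atTop 1)
  refine ⟨max (max (max Q1 Q2) (w ^ A)) (max 5 (2 ^ k)), fun Q hQ => ?_⟩
  have hQa : Q1 ≤ Q := (((le_max_left _ _).trans (le_max_left _ _)).trans (le_max_left _ _)).trans hQ
  have hQb : Q2 ≤ Q := (((le_max_right _ _).trans (le_max_left _ _)).trans (le_max_left _ _)).trans hQ
  have hQc : w ^ A ≤ Q := ((le_max_right _ _).trans (le_max_left _ _)).trans hQ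
  have hQd : 5 ≤ Q := ((le_max_left _ _).trans (le_max_right _ _)).trans hQ
  have hQe : 2 ^ k ≤ Q := ((le_max_right _ _).trans (le_max_right _ _)).trans hQ
  have hLL := hQ1 Q hQa
  have hLQ := hQ2 Q hQb
  have hQR : (5 : ℝ) ≤ Q := by exact_mod_cast hQd
  have hQ0 : (0 : ℝ) < Q := by linarith
  -- the number y
  obtain ⟨y, hy⟩ : ∃ y, y = ⌊(Q : ℝ) ^ ((k : ℝ)⁻¹)⌋₊ := ⟨_, rfl⟩
  have hk0 : k ≠ 0 := by omega
  have hroot : ((Q : ℝ) ^ ((k : ℝ)⁻¹)) ^ k = Q := Real.rpow_inv_natCast_pow hQ0.le hk0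
  have hrp : 0 ≤ (Q : ℝ) ^ ((k : ℝ)⁻¹) := by positivity
  have hyk : y ^ k ≤ Q := by
    have h1 : (y : ℝ) ≤ (Q : ℝ) ^ ((k : ℝ)⁻¹) := by
      rw [hy]
      exact Nat.floor_le hrp
    have h2 := pow_le_pow_left₀ (Nat.cast_nonneg y) h1 k
    rw [hroot] at h2
    exact_mod_cast h2
  have hyk1 : Q < (y + 1) ^ k := by
    have h1 : (Q : ℝ) ^ ((k : ℝ)⁻¹) < (y : ℝ) + 1 := by
      rw [hy]
      exact Nat.lt_floor_add_one _
    have h2 := pow_lt_pow_left₀ h1 hrp hk0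
    rw [hroot] at h2
    exact_mod_cast h2
  have hy2 : 2 ≤ y := by
    by_contra h
    have h1 : y + 1 ≤ 2 := by omega
    have h2 := Nat.pow_le_pow_left h1 k
    omega
  have hyQ : y ≤ Q := by
    have h1 : y ^ 1 ≤ y ^ k := Nat.pow_le_pow_right (by omega) (by omega)
    rw [pow_one] at h1
    exact h1.trans hyk
  have hy2Q : y ^ 2 ≤ 3 * Q := by
    have h1 : y ^ 2 ≤ y ^ k := Nat.pow_le_pow_right (by omega) hk2
    omega
  have hyk3 : y ^ k ≤ 3 * Q := by omega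
  have hwA : w ^ A ≤ 3 * Q := by omega
  -- the set of primes
  obtain ⟨S, hS⟩ : ∃ S, S = (Icc 1 y).filter (fun p => p.Prime ∧ KT.R5 p) := ⟨_, rfl⟩
  have hSp : ∀ p ∈ S, p.Prime ∧ p ≤ y := by
    intro p hp
    rw [hS, Finset.mem_filter, Finset.mem_Icc] at hp
    exact ⟨hp.2.1, hp.1.2⟩
  obtain ⟨LL, hLLd⟩ : ∃ LL, LL = Real.log (Real.log Q) := ⟨_, rfl⟩
  rw [← hLLd] at hLL
  have hM : ∑ p ∈ S, 2 / (p : ℝ) ≤ (1 + 1 / 500) * LL + |C2| := by
    have h1 := hC2 y hy2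
    rw [← hS] at h1
    have hyR : (2 : ℝ) ≤ y := by exact_mod_cast hy2
    have h2 : Real.log (Real.log y) ≤ LL := by
      rw [hLLd]
      refine Real.log_le_log (Real.log_pos (by linarith)) (Real.log_le_log (by linarith) ?_)
      exact_mod_cast hyQ
    have h3 := le_abs_self C2
    nlinarith
  obtain ⟨μ, hμ⟩ : ∃ μ, μ = (699 / 1000 * LL - c1) / Real.log 2 := ⟨_, rfl⟩
  have hμlo : (1 + 1 / 500) * LL + |C2| ≤ 1000 / 1003 * (μ - k) ∧ (k : ℝ) < μ := by
    have h1 : (1.0084 : ℝ) * LL ≤ 699 / 1000 * LL / Real.log 2 := by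
      rw [le_div_iff₀ hl20]
      have h2 : 0 ≤ LL := by linarith
      nlinarith
    have h2 : c1 / Real.log 2 ≤ |c1| / Real.log 2 := div_le_div_of_nonneg_right (le_abs_self _) hl20.le
    have h3 : (1.0084 : ℝ) * LL - |c1| / Real.log 2 ≤ μ := by
      rw [hμ, sub_div]
      linarith
    have h4 : 0 ≤ |C2| := abs_nonneg _
    have h5 : 0 ≤ |c1| / Real.log 2 := by positivity
    have h6 : (0 : ℝ) ≤ k := Nat.cast_nonneg _
    rw [hL0] at hLL
    constructor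
    · nlinarith
    · nlinarith
  obtain ⟨hμ1, hμ2⟩ := hμlo
  -- the three bad sets
  have hb1 := SqT_b1 Q y w (by omega) hy2Q
  have hb2 := SqT_b2 Q w A hwA
  have hb3 := SqT_big Q y k S hSp hyk3 hμ2
  have hsub : (Ev.Pc Q).filter (fun z => (Real.log Q) ^ (699 / 1000 : ℝ) < ((Ev.nmN z).divisors.card : ℝ)) ⊆
      ((Ev.Pc Q).filter (fun z => ∃ p : ℕ, p.Prime ∧ w < p ∧ p ≤ y ∧ p ^ 2 ∣ Ev.nmN z) ∪
        (Ev.Pc Q).filter (fun z => ∃ p : ℕ, p.Prime ∧ p ≤ w ∧ p ^ A ∣ Ev.nmN z)) ∪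
        (Ev.Pc Q).filter (fun z => μ < ((S.filter (fun p => p ∣ Ev.nmN z)).card : ℝ)) := by
    intro z hz
    obtain ⟨hz1, hz2⟩ := Finset.mem_filter.1 hz
    rw [Finset.mem_union, Finset.mem_union, Finset.mem_filter, Finset.mem_filter, Finset.mem_filter]
    by_cases c1' : ∃ p : ℕ, p.Prime ∧ w < p ∧ p ≤ y ∧ p ^ 2 ∣ Ev.nmN z
    · exact Or.inl (Or.inl ⟨hz1, c1'⟩)
    by_cases c2' : ∃ p : ℕ, p.Prime ∧ p ≤ w ∧ p ^ A ∣ Ev.nmN z
    · exact Or.inl (Or.inr ⟨hz1, c2'⟩)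
    refine Or.inr ⟨hz1, ?_⟩
    obtain ⟨hz3, hz4⟩ := Finset.mem_filter.1 hz1
    obtain ⟨hz5, hz6⟩ := Finset.mem_product.1 hz3
    rw [Finset.mem_Icc] at hz5 hz6
    have hn0 : 0 < Ev.nmN z := by
      unfold Ev.nmN
      have : 0 < z.1 ^ 2 := pow_pos hz5.1 2
      omega
    have hn : Ev.nmN z ≤ 5 * Q ^ 2 := by
      unfold Ev.nmN
      have a1 : z.1 ^ 2 ≤ Q ^ 2 := Nat.pow_le_pow_left hz5.2 2
      have a2 : z.2 ^ 2 ≤ Q ^ 2 := Nat.pow_le_pow_left hz6.2 2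
      have a3 : z.1 * z.2 ≤ Q * Q := Nat.mul_le_mul hz5.2 hz6.2
      have a4 : 3 * z.1 * z.2 = 3 * (z.1 * z.2) := by ring
      have a5 : Q * Q = Q ^ 2 := by ring
      rw [a4]
      omega
    have hnJ : Ev.nmN z < (y + 1) ^ (3 * k) := by
      have a1 : (y + 1) ^ (3 * k) = ((y + 1) ^ k) ^ 3 := by
        rw [mul_comm, pow_mul]
      rw [a1]
      have a2 : (Q + 1) ^ 3 ≤ ((y + 1) ^ k) ^ 3 := Nat.pow_le_pow_left hyk1 3
      have a3 : 5 * Q ^ 2 < (Q + 1) ^ 3 := by nlinarith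
      omega
    have htd := SqT_td hn0 hA1 S (fun p hp hpw h => c2' ⟨p, hp, hpw, h⟩)
      (fun p hp hpw hpy h => c1' ⟨p, hp, hpw, hpy, h⟩) (fun p hp hpw hpy h => by
        rw [hS, Finset.mem_filter, Finset.mem_Icc]
        refine ⟨⟨hp.pos, hpy⟩, hp, ?_⟩
        rcases SqT_pr (x := z.1) (y := z.2) hp hz4 h with h5 | h5
        · omega
        · exact h5) hnJ
    obtain ⟨ω, hω⟩ : ∃ ω, ω = (S.filter (fun p => p ∣ Ev.nmN z)).card := ⟨_, rfl⟩
    rw [← hω] at htd ⊢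
    have htdR : ((Ev.nmN z).divisors.card : ℝ) ≤ (A : ℝ) ^ w * 2 ^ ω * 2 ^ (3 * k) := by exact_mod_cast htd
    have h1 := lt_of_lt_of_le hz2 htdR
    have hLpos : 0 < Real.log Q := by linarith
    have h2 := Real.log_lt_log (Real.rpow_pos_of_pos hLpos _) h1
    have hApos : (0 : ℝ) < A := by exact_mod_cast hA1
    have h3 : (A : ℝ) ^ w * 2 ^ ω * 2 ^ (3 * k) = ((A : ℝ) ^ w * 2 ^ (3 * k)) * 2 ^ ω := by ring
    rw [Real.log_rpow hLpos, h3, Real.log_mul (by positivity) (by positivity), ← hc1, Real.log_pow, ← hLLd] at h2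
    rw [hμ, div_lt_iff₀ hl20]
    linarith
  have hcard := Finset.card_le_card hsub
  have hc3 := (hcard.trans (Finset.card_union_le _ _)).trans
    (Nat.add_le_add_right (Finset.card_union_le _ _) _)
  have hc4 : (((Ev.Pc Q).filter (fun z => (Real.log Q) ^ (699 / 1000 : ℝ) < ((Ev.nmN z).divisors.card : ℝ))).card : ℝ) ≤
      24 * (Q : ℝ) ^ 2 / w + w * (8 * (Q : ℝ) ^ 2 * (A + 1) / 2 ^ A) +
        8 * (Q : ℝ) ^ 2 * ((∑ p ∈ S, 2 / (p : ℝ)) / (μ - k)) ^ k := by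
    refine le_trans ?_ (add_le_add (add_le_add hb1 hb2) hb3)
    exact_mod_cast hc3
  refine hc4.trans ?_
  have hQ2 : (0 : ℝ) ≤ (Q : ℝ) ^ 2 := by positivity
  have e1 : 24 * (Q : ℝ) ^ 2 / w ≤ η / 4 * (Q : ℝ) ^ 2 := by
    have := mul_le_mul_of_nonneg_right hwη hQ2
    calc 24 * (Q : ℝ) ^ 2 / w = 24 / w * (Q : ℝ) ^ 2 := by ring
      _ ≤ _ := this
  have e2 : (w : ℝ) * (8 * (Q : ℝ) ^ 2 * (A + 1) / 2 ^ A) ≤ η / 4 * (Q : ℝ) ^ 2 := by
    have := mul_le_mul_of_nonneg_right hAη hQ2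
    calc (w : ℝ) * (8 * (Q : ℝ) ^ 2 * (A + 1) / 2 ^ A) = w * (8 * (A + 1) / 2 ^ A) * (Q : ℝ) ^ 2 := by ring
      _ ≤ _ := this
  have e3 : 8 * (Q : ℝ) ^ 2 * ((∑ p ∈ S, 2 / (p : ℝ)) / (μ - k)) ^ k ≤ η / 4 * (Q : ℝ) ^ 2 := by
    have h0 : 0 < μ - k := by linarith
    have h1 : (∑ p ∈ S, 2 / (p : ℝ)) / (μ - k) ≤ 1000 / 1003 := by
      rw [div_le_iff₀ h0]
      linarith
    have h2 : 0 ≤ (∑ p ∈ S, 2 / (p : ℝ)) / (μ - k) :=
      div_nonneg (Finset.sum_nonneg fun p _ => by positivity) h0.le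
    have h3 := pow_le_pow_left₀ h2 h1 k
    calc 8 * (Q : ℝ) ^ 2 * ((∑ p ∈ S, 2 / (p : ℝ)) / (μ - k)) ^ k ≤ 8 * (Q : ℝ) ^ 2 * (1000 / 1003 : ℝ) ^ k :=
          mul_le_mul_of_nonneg_left h3 (by positivity)
      _ = 8 * (1000 / 1003 : ℝ) ^ k * (Q : ℝ) ^ 2 := by ring
      _ ≤ _ := mul_le_mul_of_nonneg_right hkη hQ2
  have e4 : 0 ≤ η * (Q : ℝ) ^ 2 := by positivity
  linarith

private theorem SqT_one {v : ℤ × ℤ} (h1 : 0 ≤ v.1) (h2 : 0 ≤ v.2) (hc : IsCoprime v.1 v.2)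
    (ht : 1 < td v) : 1 ≤ v.1 ∧ 1 ≤ v.2 := by
  have hone : ∀ n : ℤ, nm v = n → n = 1 → False := by
    intro n hn h
    unfold td at ht
    rw [hn, h] at ht
    simp at ht
  constructor
  · by_contra h
    have h0 : v.1 = 0 := by omega
    rw [h0, isCoprime_zero_left] at hc
    have h3 : v.2 = 1 := by
      rcases Int.isUnit_iff.mp hc with h3 | h3
      · exact h3
      · omega
    refine hone _ rfl ?_
    unfold nm
    rw [h0, h3]
    norm_num
  · by_contra h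
    have h0 : v.2 = 0 := by omega
    rw [h0, isCoprime_zero_right] at hc
    have h3 : v.1 = 1 := by
      rcases Int.isUnit_iff.mp hc with h3 | h3
      · exact h3
      · omega
    refine hone _ rfl ?_
    unfold nm
    rw [h0, h3]
    norm_num

open Classical in
theorem few_td {η : ℝ} (hη : 0 < η) : ∃ Q₀ : ℕ, ∀ Q : ℕ, Q₀ ≤ Q →
    (((Bx Q).filter (fun v => IsCoprime v.1 v.2 ∧ (Real.log Q) ^ (699 / 1000 : ℝ) < td v)).card : ℝ) ≤ η * Q ^ 2 := by
  obtain ⟨Q1, hQ1⟩ := SqT_main hη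
  refine ⟨max Q1 3, fun Q hQ => ?_⟩
  have hQa : Q1 ≤ Q := (le_max_left _ _).trans hQ
  have hQb : 3 ≤ Q := (le_max_right _ _).trans hQ
  have hQR : (3 : ℝ) ≤ Q := by exact_mod_cast hQb
  have hT : (1 : ℝ) ≤ (Real.log Q) ^ (699 / 1000 : ℝ) := by
    refine Real.one_le_rpow ?_ (by norm_num)
    rw [Real.le_log_iff_exp_le (by linarith)]
    have := Real.exp_one_lt_d9
    linarith
  refine le_trans ?_ (hQ1 Q hQa)
  have hmem : ∀ v ∈ (Bx Q).filter (fun v => IsCoprime v.1 v.2 ∧ (Real.log Q) ^ (699 / 1000 : ℝ) < td v),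
      ∃ m n : ℕ, v = ((m : ℤ), (n : ℤ)) ∧ 1 ≤ m ∧ m ≤ Q ∧ 1 ≤ n ∧ n ≤ Q ∧ Nat.Coprime m n ∧
        (Real.log Q) ^ (699 / 1000 : ℝ) < ((Ev.nmN (m, n)).divisors.card : ℝ) := by
    intro v hv
    obtain ⟨hB, hc, ht⟩ := Finset.mem_filter.mp hv
    unfold Bx at hB
    obtain ⟨hB1, hB2⟩ := Finset.mem_product.mp hB
    rw [Finset.mem_Icc] at hB1 hB2
    have ht1 : 1 < td v := by
      have h1 : (1 : ℝ) < (td v : ℝ) := by linarith
      exact_mod_cast h1
    obtain ⟨h1, h2⟩ := SqT_one hB1.1 hB2.1 hc ht1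
    obtain ⟨m, hm⟩ := Int.eq_ofNat_of_zero_le hB1.1
    obtain ⟨n, hn⟩ := Int.eq_ofNat_of_zero_le hB2.1
    rw [hm, hn, Nat.isCoprime_iff_coprime] at hc
    refine ⟨m, n, Prod.ext hm hn, by omega, by omega, by omega, by omega, hc, ?_⟩
    have h3 : (nm v).natAbs = Ev.nmN (m, n) := by
      have h4 : nm v = ((Ev.nmN (m, n) : ℕ) : ℤ) := by
        unfold nm Ev.nmN
        rw [hm, hn]
        push_cast
        ring
      rw [h4, Int.natAbs_natCast]
    unfold td at ht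
    rw [h3] at ht
    exact ht
  have h1 : ((Bx Q).filter (fun v => IsCoprime v.1 v.2 ∧ (Real.log Q) ^ (699 / 1000 : ℝ) < td v)).card ≤
      ((Ev.Pc Q).filter (fun z => (Real.log Q) ^ (699 / 1000 : ℝ) < ((Ev.nmN z).divisors.card : ℝ))).card := by
    refine Finset.card_le_card_of_injOn (fun v => (v.1.toNat, v.2.toNat)) ?_ ?_
    · intro v hv
      obtain ⟨m, n, rfl, h2, h3, h4, h5, h6, h7⟩ := hmem v (Finset.mem_coe.mp hv)
      refine Finset.mem_coe.mpr (Finset.mem_filter.mpr ⟨?_, ?_⟩)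
      · unfold Ev.Pc
        exact Finset.mem_filter.mpr ⟨Finset.mem_product.mpr
          ⟨Finset.mem_Icc.mpr ⟨h2, h3⟩, Finset.mem_Icc.mpr ⟨h4, h5⟩⟩, h6⟩
      · exact h7
    · intro v hv w hw he
      obtain ⟨m, n, rfl, -⟩ := hmem v (Finset.mem_coe.mp hv)
      obtain ⟨m', n', rfl, -⟩ := hmem w (Finset.mem_coe.mp hw)
      have he' : ((m : ℕ), (n : ℕ)) = (m', n') := he
      obtain ⟨e1, e2⟩ := Prod.mk.inj he'
      rw [e1, e2]
  exact_mod_cast h1

end Pool.Agent.Lib.MP_d57abb_nt.GV
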