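import Pool.Agent.Lib.MP_d57abb_nt.GV.SqB
import Pool.Agent.Lib.MP_d57abb_nt.GV.SqC
import Pool.Agent.Lib.MP_d57abb_nt.GV.SqD
import Pool.Agent.Lib.MP_d57abb_nt.GV.SqT
import Pool.Agent.Lib.MP_d57abb_nt.GV.Card

/-!
# From weights to numbers, with exponent `7 / 10`
-/

namespace Pool.Agent.Lib.MP_d57abb_nt.GV

open Finset Filter Topology
open Pool.Agent.Lib.MP_d57abb_nt Pool.Agent.Lib.MP_d57abb_nt.GA.TA Pool.Agent.Lib.MP_d57abb_nt.GA.TZ
  Pool.Agent.Lib.MP_d57abb_nt.GA.TS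

attribute [local instance] GT.lab0

private theorem CntF_nm {Q : ℕ} {v : ℤ × ℤ} (hv : v ∈ Bx Q) (hc : IsCoprime v.1 v.2) :
    0 < nm v ∧ (nm v).natAbs ≤ 5 * Q ^ 2 := by
  unfold Bx at hv
  rw [mem_product, mem_Icc, mem_Icc] at hv
  obtain ⟨⟨h1, h2⟩, h3, h4⟩ := hv
  have h5 : nm v = v.1 ^ 2 + 3 * v.1 * v.2 + v.2 ^ 2 := rfl
  have h6 : 0 ≤ v.1 * v.2 := mul_nonneg h1 h3
  have h7 : 0 < nm v := by
    have h8 : v.1 ≠ 0 ∨ v.2 ≠ 0 := by
      by_contra hn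
      push Not at hn
      rw [hn.1, hn.2] at hc
      exact not_isCoprime_zero_zero hc
    rw [h5]
    rcases h8 with h8 | h8
    · have := sq_pos_of_ne_zero h8
      nlinarith [sq_nonneg v.2]
    · have := sq_pos_of_ne_zero h8
      nlinarith [sq_nonneg v.1]
  refine ⟨h7, ?_⟩
  have h9 : nm v ≤ 5 * (Q : ℤ) ^ 2 := by
    rw [h5]
    have k1 : v.1 ^ 2 ≤ (Q : ℤ) ^ 2 := by nlinarith
    have k2 : v.2 ^ 2 ≤ (Q : ℤ) ^ 2 := by nlinarith
    have k3 : v.1 * v.2 ≤ (Q : ℤ) * Q := mul_le_mul h2 h4 h3 (h1.trans h2)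
    nlinarith
  have h10 : (((nm v).natAbs : ℕ) : ℤ) ≤ ((5 * Q ^ 2 : ℕ) : ℤ) := by
    push_cast
    rw [abs_of_pos h7]
    exact h9
  exact_mod_cast h10

open Classical in
/-- sum over the vectors with few divisors -/
private theorem CntF_vec : ∃ C : ℝ, 0 < C ∧ ∀ Q : ℕ, 1 ≤ Q → ∀ T : ℝ, 0 ≤ T →
    ∑ v ∈ (Bx Q).filter (fun v => IsCoprime v.1 v.2 ∧ (td v : ℝ) ≤ T), (W2 (nm v).natAbs : ℝ) ≤
      C * T * Q ^ 2 * (1 + Real.log (1 + Real.log (5 * Q ^ 2))) := by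
  obtain ⟨C, hC, h⟩ := W2_sum
  refine ⟨10 * C, by positivity, fun Q hQ T hT => ?_⟩
  have hmaps : ∀ v ∈ (Bx Q).filter (fun v => IsCoprime v.1 v.2 ∧ (td v : ℝ) ≤ T),
      (nm v).natAbs ∈ (Icc 1 (5 * Q ^ 2)).filter Sp := by
    intro v hv
    obtain ⟨h1, h2, -⟩ := mem_filter.1 hv
    obtain ⟨h3, h4⟩ := CntF_nm h1 h2
    exact mem_filter.2 ⟨mem_Icc.2 ⟨by omega, h4⟩, Sp_nm h2 h3⟩
  rw [← Finset.sum_fiberwise_of_maps_to hmaps]
  have hfib : ∀ n ∈ (Icc 1 (5 * Q ^ 2)).filter Sp,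
      ∑ v ∈ ((Bx Q).filter (fun v => IsCoprime v.1 v.2 ∧ (td v : ℝ) ≤ T)).filter (fun v => (nm v).natAbs = n),
        (W2 (nm v).natAbs : ℝ) ≤ 2 * T * W2 n := by
    intro n hn
    have hn1 : 1 ≤ n := (mem_Icc.1 (mem_filter.1 hn).1).1
    have e1 : ∑ v ∈ ((Bx Q).filter (fun v => IsCoprime v.1 v.2 ∧ (td v : ℝ) ≤ T)).filter (fun v => (nm v).natAbs = n),
        (W2 (nm v).natAbs : ℝ) =
        ((((Bx Q).filter (fun v => IsCoprime v.1 v.2 ∧ (td v : ℝ) ≤ T)).filter (fun v => (nm v).natAbs = n)).card : ℝ) * W2 n := by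
      rw [← nsmul_eq_mul, ← Finset.sum_const]
      refine Finset.sum_congr rfl fun v hv => ?_
      rw [(mem_filter.1 hv).2]
    rw [e1]
    refine mul_le_mul_of_nonneg_right ?_ (Nat.cast_nonneg _)
    rcases Finset.eq_empty_or_nonempty (((Bx Q).filter (fun v => IsCoprime v.1 v.2 ∧ (td v : ℝ) ≤ T)).filter
      (fun v => (nm v).natAbs = n)) with h0 | ⟨v0, hv0⟩
    · rw [h0, card_empty, Nat.cast_zero]
      positivity
    · obtain ⟨h1, h2⟩ := mem_filter.1 hv0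
      obtain ⟨-, -, h3⟩ := mem_filter.1 h1
      unfold td at h3
      rw [h2] at h3
      have h4 : (((Bx Q).filter (fun v => IsCoprime v.1 v.2 ∧ (td v : ℝ) ≤ T)).filter (fun v => (nm v).natAbs = n)).card ≤
          2 * n.divisors.card := by
        refine le_trans (Finset.card_le_card fun v hv => ?_) (card_nm Q n (by omega))
        obtain ⟨h5, h6⟩ := mem_filter.1 hv
        obtain ⟨h7, h8, -⟩ := mem_filter.1 h5
        refine mem_filter.2 ⟨h7, h8, ?_⟩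
        have := (CntF_nm h7 h8).1
        omega
      have h5 : ((((Bx Q).filter (fun v => IsCoprime v.1 v.2 ∧ (td v : ℝ) ≤ T)).filter
          (fun v => (nm v).natAbs = n)).card : ℝ) ≤ 2 * (n.divisors.card : ℝ) := by exact_mod_cast h4
      linarith
  refine (Finset.sum_le_sum hfib).trans ?_
  rw [← Finset.mul_sum]
  have h1 := h (5 * Q ^ 2) (by nlinarith)
  have h2 := mul_le_mul_of_nonneg_left h1 (show 0 ≤ 2 * T by positivity)
  refine h2.trans (le_of_eq ?_)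
  push_cast
  ring

open Classical in
private theorem CntF_side {c : ℝ} (hc : 1 ≤ c) (N : ℕ) (Q : ℕ) (hQ : √(5 * c * N) ≤ Q)
    (f : (ℤ × ℤ) × (ℤ × ℤ) → ℤ × ℤ)
    (hq : ∀ x ∈ GG (1 / c) c N, Qd (f x) ∧ IsCoprime (f x).1 (f x).2 ∧ (ll (f x) : ℝ) ^ 2 ≤ 5 * c * N)
    (hf : ∀ v, (((GG (1 / c) c N).filter (fun x => f x = v)).card : ℝ) ≤ 4 * c) (R : ℤ × ℤ → Prop) (F : ℤ × ℤ → ℝ)
    (hF : ∀ v, 0 ≤ F v) :
    ∑ x ∈ (GG (1 / c) c N).filter (fun x => R (f x)), F (f x) ≤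
      4 * c * ∑ v ∈ (Bx Q).filter (fun v => IsCoprime v.1 v.2 ∧ R v), F v := by
  have hmaps : ∀ x ∈ (GG (1 / c) c N).filter (fun x => R (f x)),
      f x ∈ (Bx Q).filter (fun v => IsCoprime v.1 v.2 ∧ R v) := by
    intro x hx
    rw [mem_filter] at hx
    obtain ⟨h1, h2, h3⟩ := hq x hx.1
    rw [mem_filter]
    refine ⟨?_, h2, hx.2⟩
    have h4 : (ll (f x) : ℝ) ≤ Q := (Real.le_sqrt_of_sq_le h3).trans hQ
    have h5 : ll (f x) ≤ (Q : ℤ) := by exact_mod_cast h4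
    obtain ⟨g1, g2, -⟩ := h1
    unfold ll at h5
    unfold Bx
    rw [mem_product, mem_Icc, mem_Icc]
    exact ⟨⟨g1, by linarith⟩, g2, by linarith⟩
  rw [← Finset.sum_fiberwise_of_maps_to hmaps, Finset.mul_sum]
  refine Finset.sum_le_sum fun v _ => ?_
  have e1 : ∑ x ∈ ((GG (1 / c) c N).filter (fun x => R (f x))).filter (fun x => f x = v), F (f x) =
      ((((GG (1 / c) c N).filter (fun x => R (f x))).filter (fun x => f x = v)).card : ℝ) * F v := by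
    rw [← nsmul_eq_mul, ← Finset.sum_const]
    refine Finset.sum_congr rfl fun x hx => ?_
    rw [(mem_filter.1 hx).2]
  rw [e1]
  refine mul_le_mul_of_nonneg_right (le_trans ?_ (hf v)) (hF v)
  have h3 : ((GG (1 / c) c N).filter (fun x => R (f x))).filter (fun x => f x = v) ⊆
      (GG (1 / c) c N).filter (fun x => f x = v) := by
    intro x hx
    rw [mem_filter, mem_filter] at hx
    rw [mem_filter]
    exact ⟨hx.1.1, hx.2⟩
  exact_mod_cast Finset.card_le_card h3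

private theorem CntF_ell (a : ℝ) : ∀ᶠ X : ℕ in atTop, 1 + Real.log (1 + (a + Real.log X)) ≤ Real.log X ^ (1 / 1000 : ℝ) := by
  have h1 : ∀ᶠ y : ℝ in atTop, 1 + Real.log (1 + (a + y)) ≤ y ^ (1 / 1000 : ℝ) := by
    have h2 := (isLittleO_log_rpow_atTop (show (0 : ℝ) < 1 / 1000 by norm_num)).def (show (0 : ℝ) < 1 / 4 by norm_num)
    have h3 : Tendsto (fun y : ℝ => 1 + (a + y)) atTop atTop := by
      have : Tendsto (fun y : ℝ => (1 + a) + y) atTop atTop := tendsto_atTop_add_const_left _ _ tendsto_id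
      refine this.congr fun y => ?_
      ring
    have h4 := h3.eventually h2
    have h5 : ∀ᶠ y : ℝ in atTop, (2 : ℝ) ≤ y ^ (1 / 1000 : ℝ) :=
      (tendsto_rpow_atTop (show (0 : ℝ) < 1 / 1000 by norm_num)).eventually_ge_atTop 2
    filter_upwards [h4, h5, eventually_ge_atTop (|1 + a|), eventually_gt_atTop 0, h3.eventually_gt_atTop 0] with y e1 e2 e3 e4 e5
    have e6 : 1 + (a + y) ≤ 2 * y := by
      have := le_abs_self (1 + a)
      linarith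
    have e7 : (1 + (a + y)) ^ (1 / 1000 : ℝ) ≤ (2 * y) ^ (1 / 1000 : ℝ) :=
      Real.rpow_le_rpow e5.le e6 (by norm_num)
    have e8 : (2 * y) ^ (1 / 1000 : ℝ) ≤ 2 * y ^ (1 / 1000 : ℝ) := by
      rw [Real.mul_rpow (by norm_num) e4.le]
      refine mul_le_mul_of_nonneg_right ?_ (by positivity)
      calc (2 : ℝ) ^ (1 / 1000 : ℝ) ≤ (2 : ℝ) ^ (1 : ℝ) := Real.rpow_le_rpow_of_exponent_le (by norm_num) (by norm_num)
        _ = 2 := Real.rpow_one 2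
    rw [Real.norm_of_nonneg (show 0 ≤ (1 + (a + y)) ^ (1 / 1000 : ℝ) by positivity)] at e1
    have e9 := (le_abs_self _).trans e1
    linarith
  have h2 : Tendsto (fun n : ℕ => Real.log (n : ℝ)) atTop atTop :=
    Real.tendsto_log_atTop.comp tendsto_natCast_atTop_atTop
  exact h2.eventually h1

open Classical in
theorem countF {c : ℝ} (hc : 1 ≤ c) {c2 : ℝ} (h2 : 0 < c2) : ∃ κ : ℝ, 0 < κ ∧ ∃ X₀ : ℕ, ∀ X : ℕ, X₀ ≤ X →
    ∀ (P : ℕ → Prop) [DecidablePred P], c2 * X ≤ ∑ k ∈ (Icc 1 X).filter P, (tc c k : ℝ) →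
      κ * X / (Real.log X) ^ (7 / 10 : ℝ) ≤ (((Icc 1 X).filter P).card : ℝ) := by
  have hc0 : 0 < c := by linarith
  obtain ⟨C₁, hC₁⟩ := tc_le hc
  obtain ⟨C₂, hC₂, hvec⟩ := CntF_vec
  obtain ⟨Q₀, hQ₀⟩ := few_td (show 0 < c2 / (320 * c ^ 2) by positivity)
  obtain ⟨A, hA⟩ : ∃ A : ℝ, A = (C₁ + 1) * (8 * c) * C₂ * (20 * c) := ⟨_, rfl⟩
  have hA0 : 0 < A := by rw [hA]; positivity
  obtain ⟨X₁, hX₁⟩ := eventually_atTop.1 (CntF_ell (Real.log (100 * c)))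
  refine ⟨c2 ^ 2 / (4 * A), by positivity, max (max X₁ (Q₀ ^ 2 + 3)) (⌈20 * c⌉₊), fun X hX P _ hP => ?_⟩
  have hXa : X₁ ≤ X := ((le_max_left _ _).trans (le_max_left _ _)).trans hX
  have hXb : Q₀ ^ 2 + 3 ≤ X := ((le_max_right _ _).trans (le_max_left _ _)).trans hX
  have hXc : ⌈20 * c⌉₊ ≤ X := (le_max_right _ _).trans hX
  have hX20 : 20 * c ≤ X := (Nat.le_ceil _).trans (by exact_mod_cast hXc)
  have hX3 : (3 : ℝ) ≤ X := by exact_mod_cast (by omega : 3 ≤ X)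
  have hX0 : (0 : ℝ) < X := by linarith
  have hell := hX₁ X hXa
  obtain ⟨Lg, hLg⟩ : ∃ Lg : ℝ, Lg = Real.log X := ⟨_, rfl⟩
  rw [← hLg] at hell ⊢
  have hL1 : 1 ≤ Lg := by
    rw [hLg, Real.le_log_iff_exp_le hX0]
    have := Real.exp_one_lt_d9
    norm_num at this
    linarith
  have hL0 : 0 < Lg := by linarith
  obtain ⟨T, hT⟩ : ∃ T : ℝ, T = Lg ^ (699 / 1000 : ℝ) := ⟨_, rfl⟩
  have hT0 : 0 < T := by rw [hT]; positivity
  -- the box
  obtain ⟨Q, hQ⟩ : ∃ Q, Q = ⌈√(5 * c * X)⌉₊ := ⟨_, rfl⟩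
  have h5 : (1 : ℝ) ≤ 5 * c * X := by nlinarith
  have hs1 : 1 ≤ √(5 * c * X) := by
    rw [Real.one_le_sqrt]
    exact h5
  have hQ1 : √(5 * c * X) ≤ Q := by
    rw [hQ]
    exact Nat.le_ceil _
  have hQ2 : (Q : ℝ) ≤ 2 * √(5 * c * X) := by
    rw [hQ]
    have := Nat.ceil_lt_add_one (Real.sqrt_nonneg (5 * c * X))
    linarith
  have hQR : (1 : ℝ) ≤ Q := hs1.trans hQ1
  have hQ3 : 1 ≤ Q := by exact_mod_cast hQR
  have hQsq : (Q : ℝ) ^ 2 ≤ 20 * c * X := by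
    calc (Q : ℝ) ^ 2 ≤ (2 * √(5 * c * X)) ^ 2 := pow_le_pow_left₀ (by linarith) hQ2 2
      _ = 4 * (√(5 * c * X) ^ 2) := by ring
      _ = 4 * (5 * c * X) := by rw [Real.sq_sqrt (by linarith)]
      _ = 20 * c * X := by ring
  have hQX : (Q : ℝ) ≤ X := by
    have h6 : (Q : ℝ) ^ 2 ≤ (X : ℝ) ^ 2 := hQsq.trans (by nlinarith)
    exact (pow_le_pow_iff_left₀ (by linarith) (by linarith) (by norm_num)).1 h6
  have hQQ : Q₀ ≤ Q := by
    have h6 : (Q₀ : ℝ) ^ 2 ≤ (Q : ℝ) ^ 2 := by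
      have h7 : (Q₀ : ℝ) ^ 2 ≤ X := by exact_mod_cast (by omega : Q₀ ^ 2 ≤ X)
      have h8 : 5 * c * X ≤ (Q : ℝ) ^ 2 := by
        have h9 := pow_le_pow_left₀ (Real.sqrt_nonneg _) hQ1 2
        rwa [Real.sq_sqrt (by linarith)] at h9
      nlinarith
    have h7 : (Q₀ : ℝ) ≤ Q := (pow_le_pow_iff_left₀ (by positivity) (by linarith) (by norm_num)).1 h6
    exact_mod_cast h7
  have hTQ : (Real.log Q) ^ (699 / 1000 : ℝ) ≤ T := by
    rw [hT, hLg]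
    exact Real.rpow_le_rpow (Real.log_nonneg hQR) (Real.log_le_log (by linarith) hQX) (by norm_num)
  have hq1 : ∀ x ∈ GG (1 / c) c X, Qd x.1 ∧ IsCoprime x.1.1 x.1.2 ∧ (ll x.1 : ℝ) ^ 2 ≤ 5 * c * X := by
    intro x hx
    obtain ⟨g1, g2, g3, -⟩ := mem_GG.1 hx
    obtain ⟨k1, -, -, -⟩ := geo hc hx
    refine ⟨g1, (cop_of_dt g3).1, k1.trans ?_⟩
    nlinarith
  have hq2 : ∀ x ∈ GG (1 / c) c X, Qd x.2 ∧ IsCoprime x.2.1 x.2.2 ∧ (ll x.2 : ℝ) ^ 2 ≤ 5 * c * X := by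
    intro x hx
    obtain ⟨g1, g2, g3, -⟩ := mem_GG.1 hx
    obtain ⟨-, k1, -, -⟩ := geo hc hx
    exact ⟨g2, (cop_of_dt g3).2, k1⟩
  -- bad frames
  have hbadv : (((Bx Q).filter (fun v => IsCoprime v.1 v.2 ∧ T < td v)).card : ℝ) ≤ c2 / (320 * c ^ 2) * Q ^ 2 := by
    refine le_trans ?_ (hQ₀ Q hQQ)
    have h6 : (Bx Q).filter (fun v => IsCoprime v.1 v.2 ∧ T < td v) ⊆
        (Bx Q).filter (fun v => IsCoprime v.1 v.2 ∧ (Real.log Q) ^ (699 / 1000 : ℝ) < td v) := by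
      intro v hv
      rw [mem_filter] at hv ⊢
      exact ⟨hv.1, hv.2.1, lt_of_le_of_lt hTQ hv.2.2⟩
    exact_mod_cast Finset.card_le_card h6
  have hbad : ∀ (f : (ℤ × ℤ) × (ℤ × ℤ) → ℤ × ℤ),
      (∀ x ∈ GG (1 / c) c X, Qd (f x) ∧ IsCoprime (f x).1 (f x).2 ∧ (ll (f x) : ℝ) ^ 2 ≤ 5 * c * X) →
      (∀ v, (((GG (1 / c) c X).filter (fun x => f x = v)).card : ℝ) ≤ 4 * c) →
      (((GG (1 / c) c X).filter (fun x => T < td (f x))).card : ℝ) ≤ c2 * X / 4 := by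
    intro f hq hf
    have h6 := CntF_side hc X Q hQ1 f hq hf (fun v => T < td v) (fun _ => 1) (fun _ => zero_le_one)
    rw [Finset.sum_const, Finset.sum_const, nsmul_eq_mul, nsmul_eq_mul, mul_one, mul_one] at h6
    refine h6.trans ((mul_le_mul_of_nonneg_left hbadv (by positivity)).trans ?_)
    have h7 : 4 * c * (c2 / (320 * c ^ 2) * (Q : ℝ) ^ 2) ≤ 4 * c * (c2 / (320 * c ^ 2) * (20 * c * X)) := by
      refine mul_le_mul_of_nonneg_left (mul_le_mul_of_nonneg_left hQsq (by positivity)) (by positivity)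
    refine h7.trans (le_of_eq ?_)
    field_simp
    ring
  have hbad1 := hbad (fun x => x.1) hq1 (fun v => per_v hc X v)
  have hbad2 := hbad (fun x => x.2) hq2 (fun v => per_w hc X v)
  -- good frames
  obtain ⟨S, hS⟩ : ∃ S, S = ((GG (1 / c) c X).filter (fun x => P (kk x.1 x.2).toNat)).filter
    (fun x => (td x.1 : ℝ) ≤ T ∧ (td x.2 : ℝ) ≤ T) := ⟨_, rfl⟩
  have hcard : (∑ k ∈ (Icc 1 X).filter P, (tc c k : ℝ)) =
      (((GG (1 / c) c X).filter (fun x => P (kk x.1 x.2).toNat)).card : ℝ) := by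
    rw [← sum_wn (1 / c) c X P, Nat.cast_sum]
    refine Finset.sum_congr rfl fun k _ => ?_
    rw [tc_wn c (by linarith) k]
  rw [hcard] at hP
  have hScard : c2 * X / 2 ≤ (S.card : ℝ) := by
    have h6 : (GG (1 / c) c X).filter (fun x => P (kk x.1 x.2).toNat) ⊆
        S ∪ ((GG (1 / c) c X).filter (fun x => T < td x.1) ∪ (GG (1 / c) c X).filter (fun x => T < td x.2)) := by
      intro x hx
      rw [mem_union, mem_union, mem_filter, mem_filter, hS, mem_filter]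
      by_cases h7 : (td x.1 : ℝ) ≤ T
      · by_cases h8 : (td x.2 : ℝ) ≤ T
        · exact Or.inl ⟨hx, h7, h8⟩
        · exact Or.inr (Or.inr ⟨(mem_filter.1 hx).1, not_le.1 h8⟩)
      · exact Or.inr (Or.inl ⟨(mem_filter.1 hx).1, not_le.1 h7⟩)
    have h7 : (((GG (1 / c) c X).filter (fun x => P (kk x.1 x.2).toNat)).card : ℝ) ≤
        (S.card : ℝ) + ((((GG (1 / c) c X).filter (fun x => T < td x.1)).card : ℝ) +
          (((GG (1 / c) c X).filter (fun x => T < td x.2)).card : ℝ)) := by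
      exact_mod_cast (Finset.card_le_card h6).trans ((Finset.card_union_le _ _).trans
        (Nat.add_le_add_left (Finset.card_union_le _ _) _))
    linarith
  -- the fibres
  obtain ⟨K, hK⟩ : ∃ K, K = (Icc 1 X).filter P := ⟨_, rfl⟩
  obtain ⟨s, hs⟩ : ∃ s : ℕ → ℕ, ∀ k, s k = (S.filter (fun x => (kk x.1 x.2).toNat = k)).card := ⟨_, fun _ => rfl⟩
  have hSG : ∀ x ∈ S, x ∈ GG (1 / c) c X ∧ P (kk x.1 x.2).toNat ∧ (td x.1 : ℝ) ≤ T ∧ (td x.2 : ℝ) ≤ T := by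
    intro x hx
    rw [hS, mem_filter, mem_filter] at hx
    exact ⟨hx.1.1, hx.1.2, hx.2.1, hx.2.2⟩
  have hSK : ∀ x ∈ S, (kk x.1 x.2).toNat ∈ K := by
    intro x hx
    obtain ⟨g1, g2, -⟩ := hSG x hx
    obtain ⟨-, -, -, k1, k2, -⟩ := mem_GG.1 g1
    rw [hK, mem_filter, mem_Icc]
    refine ⟨⟨by omega, by omega⟩, g2⟩
  have hsum : (S.card : ℝ) = ∑ k ∈ K, (s k : ℝ) := by
    rw [Finset.card_eq_sum_card_fiberwise (f := fun x : (ℤ × ℤ) × (ℤ × ℤ) => (kk x.1 x.2).toNat) (t := K)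
      (fun x hx => mem_coe.2 (hSK x (mem_coe.1 hx))), Nat.cast_sum]
    exact Finset.sum_congr rfl fun k _ => by rw [hs]
  have hsk : ∀ k ∈ K, s k ≤ tc c k := by
    intro k hk
    rw [hK, mem_filter] at hk
    have h6 := sum_wn (1 / c) c X (fun n => n = k)
    have e1 : (Icc 1 X).filter (fun n => n = k) = {k} := by
      ext n
      rw [mem_filter, mem_singleton]
      exact ⟨fun h => h.2, fun h => ⟨by rw [h]; exact hk.1, h⟩⟩
    rw [e1, Finset.sum_singleton] at h6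
    rw [tc_wn c hc0, h6, hs]
    refine Finset.card_le_card fun x hx => ?_
    rw [mem_filter] at hx ⊢
    exact ⟨(hSG x hx.1).1, hx.2⟩
  have hcs : (S.card : ℝ) ^ 2 ≤ (K.card : ℝ) * ∑ k ∈ K, (s k : ℝ) ^ 2 := by
    rw [hsum]
    exact sq_sum_le_card_mul_sum_sq
  have hsq : ∑ k ∈ K, (s k : ℝ) ^ 2 ≤ ∑ x ∈ S, (tc c (kk x.1 x.2).toNat : ℝ) := by
    rw [← Finset.sum_fiberwise_of_maps_to hSK]
    refine Finset.sum_le_sum fun k hk => ?_
    have e1 : ∑ x ∈ S.filter (fun x => (kk x.1 x.2).toNat = k), (tc c (kk x.1 x.2).toNat : ℝ) = s k * tc c k := by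
      rw [hs, ← nsmul_eq_mul, ← Finset.sum_const]
      refine Finset.sum_congr rfl fun x hx => ?_
      rw [(mem_filter.1 hx).2]
    rw [e1, sq]
    exact mul_le_mul_of_nonneg_left (by exact_mod_cast hsk k hk) (Nat.cast_nonneg _)
  have htc : ∀ x ∈ S, (tc c (kk x.1 x.2).toNat : ℝ) ≤ (C₁ + 1) * (W2 (nm x.1).natAbs + W2 (nm x.2).natAbs) := by
    intro x hx
    obtain ⟨g1, -⟩ := hSG x hx
    obtain ⟨a1, a2, a3, a4, a5, a6, a7⟩ := mem_GG.1 g1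
    have e1 : (((kk x.1 x.2).toNat : ℕ) : ℤ) = kk x.1 x.2 := Int.toNat_of_nonneg (by omega)
    have e2 : (((kk x.1 x.2).toNat : ℕ) : ℝ) = ((kk x.1 x.2 : ℤ) : ℝ) := by
      rw [← Int.cast_natCast, e1]
    have h6 := hC₁ (k := (kk x.1 x.2).toNat) a1 a2 a3 e1.symm (by omega) (by
      rw [e2]
      rw [one_div, inv_mul_le_iff₀ hc0] at a6
      exact a6) (by
      rw [e2]
      exact a7)
    have h7 : (tc c (kk x.1 x.2).toNat : ℝ) ≤ C₁ * (W2 (nm x.1).natAbs + W2 (nm x.2).natAbs) := by exact_mod_cast h6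
    refine h7.trans (mul_le_mul_of_nonneg_right (by linarith) (by positivity))
  obtain ⟨V, hV⟩ : ∃ V : ℝ, V = ∑ v ∈ (Bx Q).filter (fun v => IsCoprime v.1 v.2 ∧ (td v : ℝ) ≤ T),
    (W2 (nm v).natAbs : ℝ) := ⟨_, rfl⟩
  have hside : ∀ (f : (ℤ × ℤ) × (ℤ × ℤ) → ℤ × ℤ),
      (∀ x ∈ GG (1 / c) c X, Qd (f x) ∧ IsCoprime (f x).1 (f x).2 ∧ (ll (f x) : ℝ) ^ 2 ≤ 5 * c * X) →
      (∀ v, (((GG (1 / c) c X).filter (fun x => f x = v)).card : ℝ) ≤ 4 * c) →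
      (∀ x ∈ S, (td (f x) : ℝ) ≤ T) → ∑ x ∈ S, (W2 (nm (f x)).natAbs : ℝ) ≤ 4 * c * V := by
    intro f hq hf hST
    have h6 := CntF_side hc X Q hQ1 f hq hf (fun v => (td v : ℝ) ≤ T) (fun v => (W2 (nm v).natAbs : ℝ))
      (fun _ => Nat.cast_nonneg _)
    rw [hV]
    refine le_trans (Finset.sum_le_sum_of_subset_of_nonneg ?_ fun _ _ _ => Nat.cast_nonneg _) h6
    intro x hx
    exact mem_filter.2 ⟨(hSG x hx).1, hST x hx⟩
  have hs1' := hside (fun x => x.1) hq1 (fun v => per_v hc X v) (fun x hx => (hSG x hx).2.2.1)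
  have hs2' := hside (fun x => x.2) hq2 (fun v => per_w hc X v) (fun x hx => (hSG x hx).2.2.2)
  have hVle : V ≤ C₂ * T * (20 * c * X) * (1 + Real.log (1 + (Real.log (100 * c) + Lg))) := by
    rw [hV]
    refine (hvec Q hQ3 T hT0.le).trans ?_
    have h6 : Real.log (5 * (Q : ℝ) ^ 2) ≤ Real.log (100 * c) + Lg := by
      rw [hLg, ← Real.log_mul (by positivity) hX0.ne']
      refine Real.log_le_log (by positivity) ?_
      linarith
    have h7 : 0 ≤ Real.log (5 * (Q : ℝ) ^ 2) := Real.log_nonneg (by nlinarith)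
    have h8 : Real.log (1 + Real.log (5 * (Q : ℝ) ^ 2)) ≤ Real.log (1 + (Real.log (100 * c) + Lg)) :=
      Real.log_le_log (by linarith) (by linarith)
    have h9 : 0 ≤ Real.log (1 + Real.log (5 * (Q : ℝ) ^ 2)) := Real.log_nonneg (by linarith)
    refine mul_le_mul (mul_le_mul_of_nonneg_left hQsq (by positivity)) (by linarith) (by linarith) (by positivity)
  have hfin : ∑ k ∈ K, (s k : ℝ) ^ 2 ≤ A * X * Lg ^ (7 / 10 : ℝ) := by
    have h6 : ∑ x ∈ S, (tc c (kk x.1 x.2).toNat : ℝ) ≤ (C₁ + 1) * (8 * c * V) := by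
      refine (Finset.sum_le_sum htc).trans ?_
      rw [← Finset.mul_sum, Finset.sum_add_distrib]
      refine mul_le_mul_of_nonneg_left ?_ (by positivity)
      linarith
    have h7 : V ≤ C₂ * T * (20 * c * X) * Lg ^ (1 / 1000 : ℝ) :=
      hVle.trans (mul_le_mul_of_nonneg_left hell (by positivity))
    have h8 : T * Lg ^ (1 / 1000 : ℝ) = Lg ^ (7 / 10 : ℝ) := by
      rw [hT, ← Real.rpow_add hL0]
      norm_num
    have h9 : C₂ * T * (20 * c * X) * Lg ^ (1 / 1000 : ℝ) = C₂ * (20 * c * X) * Lg ^ (7 / 10 : ℝ) := by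
      rw [← h8]
      ring
    rw [h9] at h7
    refine hsq.trans (h6.trans ?_)
    have h10 : ((C₁ : ℝ) + 1) * (8 * c * V) ≤ (C₁ + 1) * (8 * c * (C₂ * (20 * c * X) * Lg ^ (7 / 10 : ℝ))) :=
      mul_le_mul_of_nonneg_left (mul_le_mul_of_nonneg_left h7 (by positivity)) (by positivity)
    refine h10.trans (le_of_eq ?_)
    rw [hA]
    ring
  have hgoal : (c2 * X / 2) ^ 2 ≤ (K.card : ℝ) * (A * X * Lg ^ (7 / 10 : ℝ)) :=
    (pow_le_pow_left₀ (by positivity) hScard 2).trans (hcs.trans (mul_le_mul_of_nonneg_left hfin (Nat.cast_nonneg _)))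
  have hLp : 0 < Lg ^ (7 / 10 : ℝ) := by positivity
  rw [← hK, div_le_iff₀ hLp]
  have e1 : (c2 * X / 2) ^ 2 = (c2 ^ 2 / (4 * A) * X) * (A * X) := by
    field_simp
    ring
  have e2 : (K.card : ℝ) * (A * X * Lg ^ (7 / 10 : ℝ)) = ((K.card : ℝ) * Lg ^ (7 / 10 : ℝ)) * (A * X) := by ring
  rw [e1, e2] at hgoal
  exact le_of_mul_le_mul_right hgoal (by positivity)

end Pool.Agent.Lib.MP_d57abb_nt.GV
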