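import Pool.Agent.Lib.MP_d57abb_nt.GT.Defs
import Pool.Agent.Lib.MP_d57abb_nt.GA.TA.Defs

/-!
# Several functions which pretend to be characters: definitions
-/

namespace Pool.Agent.Lib.MP_d57abb_nt.GV

open Finset

noncomputable section

/-- completely multiplicative on the positive integers, without zeros -/
structure CN (g : ℕ → ℂ) : Prop where
  mul : ∀ a b : ℕ, 0 < a → 0 < b → g (a * b) = g a * g b
  ne : ∀ n : ℕ, 0 < n → g n ≠ 0

/-- the value of `g` at the norm is not the inverse of the character -/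
def Bc (g : ℕ → ℂ) {W : ℕ} (χ : MulChar (MR.RW W) ℂ) (p : MR.O) : Prop :=
  g (MR.N p).natAbs * χ (MR.red W p) ≠ 1

/-- primitive vectors without prime factors with the property `Bd` of norm prime to `M` -/
def Gb (Bd : MR.O → Prop) (M : ℕ) (u : ℤ × ℤ) : Prop :=
  IsCoprime u.1 u.2 ∧ ∀ p : MR.O, MR.Dg M p → p ∣ GT.tO u → ¬ Bd p

open Classical in
/-- the mass of the primes with the property `Bd` is bounded -/
def Ms (W : ℕ) (Bd : MR.O → Prop) : Prop :=
  ∃ B : ℝ, ∀ z : ℝ, ∑ p ∈ (MR.PP W z).filter (fun p => Bd p), 1 / (MR.N p : ℝ) ≤ B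

end

end Pool.Agent.Lib.MP_d57abb_nt.GV
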