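import Mathlib

/-!
# Completely multiplicative functions with given values at the primes
-/

namespace Pool.Agent.Lib.MP_d57abb_nt.GV

open Finset

/-- a completely multiplicative function with given values at the primes -/
theorem ext_mul (a : ℕ → ℂ) : ∃ g : ℕ → ℂ, (∀ m n : ℕ, 0 < m → 0 < n → g (m * n) = g m * g n) ∧
    (∀ p : ℕ, p.Prime → g p = a p) ∧ ∀ q : ℕ, (∀ p : ℕ, p.Prime → a p ^ q = 1) → ∀ n : ℕ, 0 < n → g n ^ q = 1 := by
  refine ⟨fun n => n.factorization.prod (fun p k => a p ^ k), fun m n hm hn => ?_, fun p hp => ?_, fun q hq n _ => ?_⟩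
  · show (m * n).factorization.prod (fun p k => a p ^ k) = _
    rw [Nat.factorization_mul hm.ne' hn.ne']
    exact Finsupp.prod_add_index' (fun p => pow_zero _) (fun p k l => pow_add _ _ _)
  · show p.factorization.prod (fun p k => a p ^ k) = a p
    rw [hp.factorization, Finsupp.prod_single_index (h := fun p k => a p ^ k) (pow_zero _), pow_one]
  · show (n.factorization.prod (fun p k => a p ^ k)) ^ q = 1
    unfold Finsupp.prod
    rw [← Finset.prod_pow]
    refine Finset.prod_eq_one fun p hp => ?_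
    have hpp : p.Prime := Nat.prime_of_mem_primeFactors hp
    rw [← pow_mul, mul_comm, pow_mul, hq p hpp, one_pow]

/-- a completely additive function with the values of an additive function at the squarefree integers -/
theorem ext_add {H : Type*} [AddCommGroup H] (h : ℕ → H)
    (hadd : ∀ a b : ℕ, 0 < a → 0 < b → a.Coprime b → h (a * b) = h a + h b) :
    ∃ h₁ : ℕ → H, (∀ m n : ℕ, 0 < m → 0 < n → h₁ (m * n) = h₁ m + h₁ n) ∧ (∀ p : ℕ, p.Prime → h₁ p = h p) ∧
      ∀ m : ℕ, Squarefree m → h m = h₁ m := by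
  obtain ⟨h₁, hh₁⟩ : ∃ h₁ : ℕ → H, ∀ n, h₁ n = n.factorization.sum (fun p k => k • h p) := ⟨_, fun _ => rfl⟩
  have e1 : ∀ m n : ℕ, 0 < m → 0 < n → h₁ (m * n) = h₁ m + h₁ n := by
    intro m n hm hn
    rw [hh₁, hh₁, hh₁, Nat.factorization_mul hm.ne' hn.ne']
    exact Finsupp.sum_add_index' (fun p => zero_smul _ _) (fun p k l => add_smul _ _ _)
  have e2 : ∀ p : ℕ, p.Prime → h₁ p = h p := by
    intro p hp
    rw [hh₁, hp.factorization, Finsupp.sum_single_index (h := fun p k => k • h p) (zero_smul _ _), one_smul]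
  have e3 : h₁ 1 = 0 := by
    have := e1 1 1 one_pos one_pos
    rw [mul_one] at this
    simpa using this
  have e4 : h 1 = 0 := by
    have := hadd 1 1 one_pos one_pos (Nat.coprime_one_left 1)
    rw [mul_one] at this
    simpa using this
  refine ⟨h₁, e1, e2, fun m => ?_⟩
  induction m using Nat.recOnMul with
  | zero => exact fun h0 => absurd h0 not_squarefree_zero
  | one => exact fun _ => by rw [e3, e4]
  | prime p hp => exact fun _ => (e2 p hp).symm
  | mul a b iha ihb =>
    intro hs
    have h0 := hs.ne_zero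
    have ha : 0 < a := Nat.pos_of_ne_zero fun h => h0 (by rw [h, zero_mul])
    have hb : 0 < b := Nat.pos_of_ne_zero fun h => h0 (by rw [h, mul_zero])
    have hc : a.Coprime b := (Nat.squarefree_mul_iff.1 hs).1
    rw [hadd a b ha hb hc, e1 a b ha hb, iha (hs.of_mul_left), ihb (hs.of_mul_right)]

end Pool.Agent.Lib.MP_d57abb_nt.GV
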