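import Pool.Agent.Lib.MP_d57abb_nt.GT.CntD
import Pool.Agent.Lib.MP_d57abb_nt.GT.CntP
import Pool.Agent.Lib.MP_d57abb_nt.GV.Defs

/-!
# Few vectors of a residue class are not good (general predicate)

Let `P(z)` be the bad primes of `PP W z`.  `tail`: the sums over `P(z)` with `N p > y` are at most `δ` for a suitable `y` and all `z` (the partial sums are bounded by `B` and monotone).  A vector `u ≠ 0` of the box with
`Cg M u b` and not `Gd` is not primitive (`cnt_np`) or divisible by a bad `p` with `Dg M p`, `N p ≤ N u ≤ 5 T²` (`p ∣ u`), `N p > y` (all the primes `≤ y` divide `M`), `Dg W p` as `W ∣ M`: `cnt_div`, sum over `p`: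
`14 T² / M² * δ + 5 #`, and `# {p ∈ P(5 T²)} ≤ #{p ∈ PP W K} + 5 T² * (tail beyond K)`, the tail beyond `K` at most `ε / (200 M²)`.
-/

namespace Pool.Agent.Lib.MP_d57abb_nt.GV

open Finset MR GT

open Classical in
theorem tail {W : ℕ} {Bd : O → Prop} (h : Ms W Bd) {δ : ℝ} (hδ : 0 < δ) :
    ∃ y : ℕ, ∀ z : ℝ, ∑ p ∈ (PP W z).filter (fun p => Bd p ∧ (y : ℤ) < N p), 1 / (N p : ℝ) ≤ δ := by
  obtain ⟨B, hB⟩ := h
  obtain ⟨F, hF⟩ : ∃ F : ℝ → ℝ, F = fun z => ∑ p ∈ (PP W z).filter (fun p => Bd p), 1 / (N p : ℝ) := ⟨_, rfl⟩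
  have hFB : ∀ z, F z ≤ B := fun z => by
    rw [hF]
    exact hB z
  have hbdd : BddAbove (Set.range F) := ⟨B, by
    rintro _ ⟨z, rfl⟩
    exact hFB z⟩
  obtain ⟨_, ⟨z0, rfl⟩, hz0⟩ := exists_lt_of_lt_csSup (Set.range_nonempty F)
    (show sSup (Set.range F) - δ < sSup (Set.range F) by linarith)
  have hnn : ∀ (z : ℝ) (p : O), p ∈ PP W z → 0 ≤ 1 / (N p : ℝ) := by
    intro z p hp
    have := (mem_PP.1 hp).1.tp.N_pos
    positivity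
  refine ⟨⌈z0⌉₊, fun z => ?_⟩
  have hz0' : z0 ≤ ((⌈z0⌉₊ : ℕ) : ℝ) := Nat.le_ceil z0
  generalize ⌈z0⌉₊ = y at hz0'
  obtain ⟨m, hm⟩ : ∃ m : ℝ, m = max z y := ⟨_, rfl⟩
  have h1 : ∑ p ∈ (PP W z).filter (fun p => Bd p ∧ (y : ℤ) < N p), 1 / (N p : ℝ) +
      ∑ p ∈ (PP W z0).filter (fun p => Bd p), 1 / (N p : ℝ) ≤ F m := by
    rw [hF, ← Finset.sum_union]
    · refine Finset.sum_le_sum_of_subset_of_nonneg ?_ ?_
      · intro p hp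
        rcases Finset.mem_union.1 hp with hp | hp
        · obtain ⟨h2, h3, -⟩ := Finset.mem_filter.1 hp
          obtain ⟨h4, h5⟩ := mem_PP.1 h2
          refine Finset.mem_filter.2 ⟨mem_PP.2 ⟨h4, h5.trans ?_⟩, h3⟩
          rw [hm]
          exact le_max_left _ _
        · obtain ⟨h2, h3⟩ := Finset.mem_filter.1 hp
          obtain ⟨h4, h5⟩ := mem_PP.1 h2
          refine Finset.mem_filter.2 ⟨mem_PP.2 ⟨h4, h5.trans (hz0'.trans ?_)⟩, h3⟩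
          rw [hm]
          exact le_max_right _ _
      · intro p hp _
        exact hnn m p (Finset.mem_filter.1 hp).1
    · rw [Finset.disjoint_left]
      intro p hp hp'
      obtain ⟨-, -, h3⟩ := Finset.mem_filter.1 hp
      obtain ⟨h2, -⟩ := Finset.mem_filter.1 hp'
      have h4 := (mem_PP.1 h2).2
      have h5 : (y : ℝ) < N p := by exact_mod_cast h3
      linarith
  have h2 : F m ≤ sSup (Set.range F) := le_csSup hbdd ⟨m, rfl⟩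
  have h3 : F z0 = ∑ p ∈ (PP W z0).filter (fun p => Bd p), 1 / (N p : ℝ) := by rw [hF]
  linarith

open Classical in
theorem few {W : ℕ} {Bd : O → Prop} (h : Ms W Bd) {ε : ℝ} (hε : 0 < ε) :
    ∃ y : ℕ, ∀ M : ℕ, 0 < M → W ∣ M → (∀ q : ℕ, q.Prime → q ≤ y → q ∣ M) → ∃ T₀ : ℕ, ∀ T : ℕ, T₀ ≤ T →
      ∀ b : ℤ × ℤ, (∀ q : ℕ, q.Prime → q ∣ M → ¬ ((q : ℤ) ∣ b.1 ∧ (q : ℤ) ∣ b.2)) →
      (((GA.TA.Bx T).filter (fun u => (u ≠ 0 ∧ Cg M u b) ∧ ¬ Gb Bd M u)).card : ℝ) ≤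
        ε * (T : ℝ) ^ 2 / (M : ℝ) ^ 2 := by
  obtain ⟨y1, hy1⟩ := tail h (δ := ε / 56) (by positivity)
  obtain ⟨y2, hy2⟩ := exists_nat_gt (8 / ε)
  refine ⟨y1 + y2 + 1, fun M hM hWM hMy => ?_⟩
  obtain ⟨y, hy⟩ : ∃ y : ℕ, y = y1 + y2 + 1 := ⟨_, rfl⟩
  rw [← hy] at hMy
  have hM0 : (0 : ℝ) < M := by exact_mod_cast hM
  obtain ⟨K, hK⟩ := tail h (δ := ε / (200 * (M : ℝ) ^ 2)) (by positivity)
  obtain ⟨T1, hT1⟩ := exists_nat_gt (16 * (M : ℝ) ^ 2 / ε)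
  obtain ⟨T2, hT2⟩ := exists_nat_gt (40 * (M : ℝ) ^ 2 * ((PP W (K : ℝ)).card : ℝ) / ε)
  refine ⟨T1 + T2 + 1, fun T hT b hb => ?_⟩
  have hT0 : (1 : ℝ) ≤ T := by exact_mod_cast (by omega : 1 ≤ T)
  have hT1' : 16 * (M : ℝ) ^ 2 ≤ ε * T := by
    have h1 : (T1 : ℝ) ≤ T := by exact_mod_cast (by omega : T1 ≤ T)
    have h2 := hT1.le.trans h1
    rw [div_le_iff₀ hε] at h2
    linarith
  have hT2' : 40 * (M : ℝ) ^ 2 * ((PP W (K : ℝ)).card : ℝ) ≤ ε * (T : ℝ) ^ 2 := by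
    have h1 : (T2 : ℝ) ≤ T := by exact_mod_cast (by omega : T2 ≤ T)
    have h2 := hT2.le.trans h1
    rw [div_le_iff₀ hε] at h2
    have h3 : (T : ℝ) ≤ (T : ℝ) ^ 2 := by nlinarith
    nlinarith
  have hy0 : (8 : ℝ) ≤ ε * y := by
    have h1 : (y2 : ℝ) ≤ y := by exact_mod_cast (by omega : y2 ≤ y)
    have h2 := hy2.le.trans h1
    rw [div_le_iff₀ hε] at h2
    linarith
  have hyp : (0 : ℝ) < y := by exact_mod_cast (by omega : 0 < y)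
  obtain ⟨PB, hPB⟩ : ∃ PB : Finset O, PB = (PP W (5 * (T : ℝ) ^ 2)).filter
    (fun p => (Bd p ∧ (y1 : ℤ) < N p) ∧ Dg M p) := ⟨_, rfl⟩
  have hPBpos : ∀ p ∈ PB, 0 < N p := by
    intro p hp
    rw [hPB] at hp
    exact (mem_PP.1 (Finset.mem_filter.1 hp).1).1.tp.N_pos
  have hsub : (GA.TA.Bx T).filter (fun u => (u ≠ 0 ∧ Cg M u b) ∧ ¬ Gb Bd M u) ⊆
      ((GA.TA.Bx T).filter (fun u => (u ≠ 0 ∧ Cg M u b) ∧ ¬ IsCoprime u.1 u.2)) ∪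
      PB.biUnion (fun p => (GA.TA.Bx T).filter (fun u => Cg M u b ∧ p ∣ tO u)) := by
    intro u hu
    obtain ⟨hu1, ⟨hu0, hc⟩, hG⟩ := Finset.mem_filter.1 hu
    unfold Gb at hG
    rw [not_and_or] at hG
    rcases hG with hG | hG
    · exact Finset.mem_union_left _ (Finset.mem_filter.2 ⟨hu1, ⟨hu0, hc⟩, hG⟩)
    · push Not at hG
      obtain ⟨p, hp, hpu, hbad⟩ := hG
      refine Finset.mem_union_right _ (Finset.mem_biUnion.2 ⟨p, ?_, Finset.mem_filter.2 ⟨hu1, hc, hpu⟩⟩)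
      have hNp := hp.tp.N_pos
      have hb1 : 0 ≤ u.1 ∧ u.1 ≤ T ∧ 0 ≤ u.2 ∧ u.2 ≤ T := by
        unfold GA.TA.Bx at hu1
        rw [Finset.mem_product, Finset.mem_Icc, Finset.mem_Icc] at hu1
        exact ⟨hu1.1.1, hu1.1.2, hu1.2.1, hu1.2.2⟩
      obtain ⟨a1, a2, a3, a4⟩ := hb1
      have hNu : N (tO u) = u.1 ^ 2 + 3 * u.1 * u.2 + u.2 ^ 2 := rfl
      have hNu0 : 0 < N (tO u) := by
        rw [hNu]
        have h1 : u.1 ≠ 0 ∨ u.2 ≠ 0 := by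
          by_contra h2
          push Not at h2
          exact hu0 (Prod.ext h2.1 h2.2)
        have h2 : 0 ≤ u.1 * u.2 := mul_nonneg a1 a3
        rcases h1 with h1 | h1
        · have : 0 < u.1 ^ 2 := by positivity
          nlinarith
        · have : 0 < u.2 ^ 2 := by positivity
          nlinarith
      have hNu5 : N (tO u) ≤ 5 * (T : ℤ) ^ 2 := by
        rw [hNu]
        have h1 : u.1 ^ 2 ≤ (T : ℤ) ^ 2 := pow_le_pow_left₀ a1 a2 2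
        have h2 : u.2 ^ 2 ≤ (T : ℤ) ^ 2 := pow_le_pow_left₀ a3 a4 2
        have h3 : u.1 * u.2 ≤ (T : ℤ) * T := mul_le_mul a2 a4 a3 (a1.trans a2)
        nlinarith
      have hNle : N p ≤ 5 * (T : ℤ) ^ 2 := by
        obtain ⟨w, hw⟩ := hpu
        have h1 : N p ∣ N (tO u) := ⟨N w, by rw [hw, N_mul]⟩
        exact (Int.le_of_dvd hNu0 h1).trans hNu5
      have hdgW : Dg W p := ⟨hp.1, hp.2.1, fun h1 => hp.2.2 (h1.trans hWM)⟩
      have hgt : (y : ℤ) < N p := by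
        by_contra h1
        have h2 : (N p).natAbs ≤ y := by omega
        exact hp.2.2 (hMy _ hp.2.1 h2)
      rw [hPB]
      refine Finset.mem_filter.2 ⟨mem_PP.2 ⟨hdgW, by exact_mod_cast hNle⟩, ⟨hbad, by omega⟩, hp⟩
  have h1 : (((GA.TA.Bx T).filter (fun u => (u ≠ 0 ∧ Cg M u b) ∧ ¬ Gb Bd M u)).card : ℝ) ≤
      (((GA.TA.Bx T).filter (fun u => (u ≠ 0 ∧ Cg M u b) ∧ ¬ IsCoprime u.1 u.2)).card : ℝ) +
      ∑ p ∈ PB, (((GA.TA.Bx T).filter (fun u => Cg M u b ∧ p ∣ tO u)).card : ℝ) := by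
    have h2 := (Finset.card_le_card hsub).trans (Finset.card_union_le _ _)
    have h3 := h2.trans (Nat.add_le_add_left Finset.card_biUnion_le _)
    exact_mod_cast h3
  have h2 := cnt_np hM (by omega : 1 ≤ y) hMy T hb
  have h3 : ∑ p ∈ PB, (((GA.TA.Bx T).filter (fun u => Cg M u b ∧ p ∣ tO u)).card : ℝ) ≤
      14 * (T : ℝ) ^ 2 / (M : ℝ) ^ 2 * ∑ p ∈ PB, 1 / (N p : ℝ) + 5 * (PB.card : ℝ) := by
    rw [Finset.mul_sum, mul_comm (5 : ℝ), ← nsmul_eq_mul, ← Finset.sum_const, ← Finset.sum_add_distrib]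
    refine Finset.sum_le_sum fun p hp => ?_
    have h4 : Dg M p := by
      rw [hPB] at hp
      exact (Finset.mem_filter.1 hp).2.2
    refine (cnt_div hM h4 T b).trans (le_of_eq ?_)
    have h5 : (N p : ℝ) ≠ 0 := by
      have := hPBpos p hp
      positivity
    field_simp
  have h4 : ∑ p ∈ PB, 1 / (N p : ℝ) ≤ ε / 56 := by
    refine le_trans (Finset.sum_le_sum_of_subset_of_nonneg ?_ ?_) (hy1 (5 * (T : ℝ) ^ 2))
    · intro p hp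
      rw [hPB] at hp
      obtain ⟨h5, h6, -⟩ := Finset.mem_filter.1 hp
      exact Finset.mem_filter.2 ⟨h5, h6⟩
    · intro p hp _
      have := (mem_PP.1 (Finset.mem_filter.1 hp).1).1.tp.N_pos
      positivity
  have h5 : (PB.card : ℝ) ≤ ((PP W (K : ℝ)).card : ℝ) + 5 * (T : ℝ) ^ 2 * (ε / (200 * (M : ℝ) ^ 2)) := by
    have h6 : PB ⊆ PP W (K : ℝ) ∪ (PP W (5 * (T : ℝ) ^ 2)).filter (fun p => Bd p ∧ (K : ℤ) < N p) := by
      intro p hp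
      rw [hPB] at hp
      obtain ⟨h7, ⟨h8, -⟩, -⟩ := Finset.mem_filter.1 hp
      by_cases h9 : (K : ℤ) < N p
      · exact Finset.mem_union_right _ (Finset.mem_filter.2 ⟨h7, h8, h9⟩)
      · refine Finset.mem_union_left _ (mem_PP.2 ⟨(mem_PP.1 h7).1, ?_⟩)
        push Not at h9
        exact_mod_cast h9
    have h7 := (Finset.card_le_card h6).trans (Finset.card_union_le _ _)
    have h8 : (PB.card : ℝ) ≤ ((PP W (K : ℝ)).card : ℝ) +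
        (((PP W (5 * (T : ℝ) ^ 2)).filter (fun p => Bd p ∧ (K : ℤ) < N p)).card : ℝ) := by exact_mod_cast h7
    refine h8.trans ?_
    have h9 : (((PP W (5 * (T : ℝ) ^ 2)).filter (fun p => Bd p ∧ (K : ℤ) < N p)).card : ℝ) ≤
        5 * (T : ℝ) ^ 2 * ∑ p ∈ (PP W (5 * (T : ℝ) ^ 2)).filter (fun p => Bd p ∧ (K : ℤ) < N p), 1 / (N p : ℝ) := by
      rw [Finset.mul_sum, Finset.card_eq_sum_ones, Nat.cast_sum]
      refine Finset.sum_le_sum fun p hp => ?_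
      have h10 := (mem_PP.1 (Finset.mem_filter.1 hp).1)
      have h11 : (0 : ℝ) < N p := by exact_mod_cast h10.1.tp.N_pos
      rw [Nat.cast_one, mul_one_div, le_div_iff₀ h11, one_mul]
      exact h10.2
    have h10 := mul_le_mul_of_nonneg_left (hK (5 * (T : ℝ) ^ 2)) (show (0 : ℝ) ≤ 5 * (T : ℝ) ^ 2 by positivity)
    linarith
  have h6 : 14 * (T : ℝ) ^ 2 / (M : ℝ) ^ 2 * ∑ p ∈ PB, 1 / (N p : ℝ) ≤ 14 * (T : ℝ) ^ 2 / (M : ℝ) ^ 2 * (ε / 56) :=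
    mul_le_mul_of_nonneg_left h4 (by positivity)
  have hfin : 2 * (T : ℝ) ^ 2 / ((M : ℝ) ^ 2 * y) + 2 * T + (14 * (T : ℝ) ^ 2 / (M : ℝ) ^ 2 * (ε / 56) +
      5 * (((PP W (K : ℝ)).card : ℝ) + 5 * (T : ℝ) ^ 2 * (ε / (200 * (M : ℝ) ^ 2)))) ≤ ε * (T : ℝ) ^ 2 / (M : ℝ) ^ 2 := by
    rw [le_div_iff₀ (by positivity)]
    have e1 : 2 * (T : ℝ) ^ 2 / ((M : ℝ) ^ 2 * y) * (M : ℝ) ^ 2 = 2 * (T : ℝ) ^ 2 / y := by
      field_simp
    have e2 : 14 * (T : ℝ) ^ 2 / (M : ℝ) ^ 2 * (ε / 56) * (M : ℝ) ^ 2 = ε * (T : ℝ) ^ 2 / 4 := by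
      field_simp
      ring
    have e3 : 5 * (T : ℝ) ^ 2 * (ε / (200 * (M : ℝ) ^ 2)) * (M : ℝ) ^ 2 = ε * (T : ℝ) ^ 2 / 40 := by
      field_simp
      ring
    have e4 : 2 * (T : ℝ) ^ 2 / y ≤ ε * (T : ℝ) ^ 2 / 4 := by
      rw [div_le_iff₀ hyp]
      nlinarith [sq_nonneg (T : ℝ)]
    have e5 : 2 * (T : ℝ) * (M : ℝ) ^ 2 ≤ ε * (T : ℝ) ^ 2 / 8 := by nlinarith
    calc (2 * (T : ℝ) ^ 2 / ((M : ℝ) ^ 2 * y) + 2 * T + (14 * (T : ℝ) ^ 2 / (M : ℝ) ^ 2 * (ε / 56) +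
        5 * (((PP W (K : ℝ)).card : ℝ) + 5 * (T : ℝ) ^ 2 * (ε / (200 * (M : ℝ) ^ 2))))) * (M : ℝ) ^ 2 =
        2 * (T : ℝ) ^ 2 / ((M : ℝ) ^ 2 * y) * (M : ℝ) ^ 2 + 2 * T * (M : ℝ) ^ 2 +
        14 * (T : ℝ) ^ 2 / (M : ℝ) ^ 2 * (ε / 56) * (M : ℝ) ^ 2 + 5 * (M : ℝ) ^ 2 * ((PP W (K : ℝ)).card : ℝ) +
        5 * (5 * (T : ℝ) ^ 2 * (ε / (200 * (M : ℝ) ^ 2)) * (M : ℝ) ^ 2) := by ring
      _ ≤ ε * (T : ℝ) ^ 2 := by
        rw [e1, e2, e3]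
        have : 0 ≤ ε * (T : ℝ) ^ 2 := by positivity
        linarith
  linarith

end Pool.Agent.Lib.MP_d57abb_nt.GV
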