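import Pool.Agent.Lib.MP_d57abb_nt.GV.WinC

/-!
# Mean values in residue classes of `f k`, at almost all scales
-/

namespace Pool.Agent.Lib.MP_d57abb_nt.GV

open Finset Filter Topology
open Pool.Agent.Lib.MP_d57abb_nt.GA.TA (Lab)
open Pool.Agent.Lib.MP_d57abb_nt.GT Pool.Agent.Lib.MP_d57abb_nt.GA Pool.Agent.Lib.MP_d57abb_nt.GA.TZ
  Pool.Agent.Lib.MP_d57abb_nt.GA.AS

/-- one function -/
theorem natG {q : ℕ} (hq : 0 < q) {g : ℕ → ℂ} (hmul : ∀ a b : ℕ, 0 < a → 0 < b → g (a * b) = g a * g b)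
    (hroot : ∀ n : ℕ, 0 < n → g n ^ q = 1) (hnp : NPx g) :
    ∃ E : Set ℕ, LN (fun X => X ∈ E) ∧ ∀ c : ℝ, 1 < c →
      Tendsto (fun X : ℕ => ‖∑ k ∈ Icc 1 X, (tc c k : ℂ) * g (ff k)‖ / X) (atTop ⊓ 𝓟 Eᶜ) (𝓝 0) := by
  obtain ⟨ζ, hζ, L, hOk, hL⟩ := npx_ok hq hmul hroot hnp
  have hom : ∀ k : ℕ, ζ ^ om k = g (ff k) := by
    intro k
    unfold om
    exact hL _ (by unfold ff; positivity)
  obtain ⟨E, hE, hT⟩ := natAv hq hζ hOk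
  refine ⟨E, hE, fun c hc => ?_⟩
  have h1 := hT c hc
  simp only [hom] at h1
  exact h1

/-- the twisted functions, with one exceptional set -/
theorem natTw {q : ℕ} (hq : 0 < q) {g : ℕ → ℂ} (hmul : ∀ a b : ℕ, 0 < a → 0 < b → g (a * b) = g a * g b)
    (hroot : ∀ n : ℕ, 0 < n → g n ^ q = 1) (hnp : NPx g) :
    ∃ E : Set ℕ, LN (fun X => X ∈ E) ∧ ∀ D m : ℕ, 0 < D → 0 < m → ∀ ψ : AddChar (GD D m) ℂ, ∀ c : ℝ, 1 < c →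
      Tendsto (fun X : ℕ => ‖∑ k ∈ Icc 1 X, (tc c k : ℂ) * (g (ff k) * ψ (hD D m (ff k)))‖ / X) (atTop ⊓ 𝓟 Eᶜ) (𝓝 0) := by
  have h1 : ∀ i : (Σ D : ℕ, Σ m : ℕ, AddChar (GD (D + 1) (m + 1)) ℂ), ∃ E : Set ℕ, LN (fun X => X ∈ E) ∧ ∀ c : ℝ, 1 < c →
      Tendsto (fun X : ℕ => ‖∑ k ∈ Icc 1 X, (tc c k : ℂ) * (g (ff k) * i.2.2 (hD (i.1 + 1) (i.2.1 + 1) (ff k)))‖ / X)
        (atTop ⊓ 𝓟 Eᶜ) (𝓝 0) := by
    rintro ⟨D, m, ψ⟩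
    obtain ⟨t1, t2, t3, t4⟩ := tw_ok (m := m + 1) (D := D + 1) hq hmul hroot hnp ψ
    exact natG (g := fun n => g n * ψ (hD (D + 1) (m + 1) n)) t1 t2 t3 t4
  choose Es hEs hT using h1
  have hne : Nonempty (Σ D : ℕ, Σ m : ℕ, AddChar (GD (D + 1) (m + 1)) ℂ) := ⟨⟨0, 0, 1⟩⟩
  obtain ⟨e, he⟩ := exists_surjective_nat (Σ D : ℕ, Σ m : ℕ, AddChar (GD (D + 1) (m + 1)) ℂ)
  obtain ⟨E, hE, hN⟩ := @diag lab0 (fun i X => X ∈ Es (e i)) (fun i => hEs (e i))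
  refine ⟨E, hE, fun D m hD0 hm0 ψ c hc => ?_⟩
  obtain ⟨D', rfl⟩ := Nat.exists_eq_succ_of_ne_zero hD0.ne'
  obtain ⟨m', rfl⟩ := Nat.exists_eq_succ_of_ne_zero hm0.ne'
  obtain ⟨i, hi⟩ := he ⟨D', m', ψ⟩
  have h2 := hT (e i) c hc
  rw [hi] at h2
  refine h2.mono_left ?_
  obtain ⟨N, hN1⟩ := hN i
  rw [le_inf_iff]
  refine ⟨inf_le_left, ?_⟩
  rw [le_principal_iff, mem_inf_principal]
  filter_upwards [eventually_ge_atTop N] with X hX hXE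
  intro h3
  have h4 : X ∈ Es (e i) := by
    rw [hi]
    exact h3
  exact hXE (hN1 X hX h4)

open Classical in
/-- the class sums, with one exceptional set -/
theorem finC {q : ℕ} (hq : 0 < q) {g : ℕ → ℂ} (hmul : ∀ a b : ℕ, 0 < a → 0 < b → g (a * b) = g a * g b)
    (hroot : ∀ n : ℕ, 0 < n → g n ^ q = 1) (hnp : NPx g) :
    ∃ E : Set ℕ, LN (fun X => X ∈ E) ∧ ∀ c : ℝ, 1 < c → ∀ D : ℕ, 0 < D → ∀ r : ℕ,
      Tendsto (fun X : ℕ => ‖∑ k ∈ (Icc 1 X).filter (fun k => ff k ≡ r [MOD D]), (tc c k : ℂ) * g (ff k)‖ / X)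
        (atTop ⊓ 𝓟 Eᶜ) (𝓝 0) := by
  obtain ⟨E, hE, hT⟩ := natTw hq hmul hroot hnp
  refine ⟨E, hE, fun c hc D hD0 r => ?_⟩
  rw [Metric.tendsto_nhds]
  intro ε hε
  obtain ⟨n, hn⟩ : ∃ n : ℝ, n = (D.primeFactors.card : ℝ) + 1 := ⟨_, rfl⟩
  have hn0 : 0 < n := by rw [hn]; positivity
  have h1 : ∀ l ∈ D.primeFactors, ∃ m : ℕ, ∀ m' : ℕ, m ≤ m' → ∃ K : ℝ, ∀ N : ℕ,
      ∑ k ∈ (Icc 1 N).filter (fun k => l ^ m' ∣ k ^ 2 + 3 * k + 1), (tc c k : ℝ) ≤ ε / (8 * n) * N + K :=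
    fun l hl => high_nat hc.le (Nat.prime_of_mem_primeFactors hl) (by positivity)
  choose! M hM using h1
  obtain ⟨m, hm⟩ : ∃ m : ℕ, m = D.primeFactors.sup M + 1 := ⟨_, rfl⟩
  have hMm : ∀ l ∈ D.primeFactors, M l ≤ m := fun l hl => by
    have := Finset.le_sup (f := M) hl
    omega
  have h2 := fun l (hl : l ∈ D.primeFactors) => hM l hl m (hMm l hl)
  choose! K₁ hK₁ using h2
  have i1 : NeZero D := ⟨hD0.ne'⟩
  have i2 : NeZero m := ⟨by omega⟩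
  obtain ⟨cc, hcc⟩ := Ph_fourier (D := D) (m := m) r
  have hff : ∀ k, 0 < ff k := fun k => by
    unfold ff
    positivity
  have h3 : Tendsto (fun X : ℕ => ∑ ψ : AddChar (GD D m) ℂ, ‖cc ψ‖ *
      (‖∑ k ∈ Icc 1 X, (tc c k : ℂ) * (g (ff k) * ψ (hD D m (ff k)))‖ / X)) (atTop ⊓ 𝓟 Eᶜ) (𝓝 0) := by
    have h4 : Tendsto (fun X : ℕ => ∑ ψ : AddChar (GD D m) ℂ, ‖cc ψ‖ *
        (‖∑ k ∈ Icc 1 X, (tc c k : ℂ) * (g (ff k) * ψ (hD D m (ff k)))‖ / X)) (atTop ⊓ 𝓟 Eᶜ)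
        (𝓝 (∑ ψ : AddChar (GD D m) ℂ, ‖cc ψ‖ * 0)) :=
      tendsto_finsetSum _ fun ψ _ => (hT D m hD0 (by omega) ψ c hc).const_mul _
    simpa using h4
  obtain ⟨B, hB⟩ : ∃ B : ℝ, B = 2 * ∑ l ∈ D.primeFactors, |K₁ l| := ⟨_, rfl⟩
  have h5 : Tendsto (fun X : ℕ => B / (X : ℝ)) (atTop ⊓ 𝓟 Eᶜ) (𝓝 0) :=
    (tendsto_const_div_atTop_nhds_zero_nat B).mono_left inf_le_left
  have h6 : ∀ᶠ X : ℕ in atTop ⊓ 𝓟 Eᶜ, 1 ≤ X := (eventually_ge_atTop 1).filter_mono inf_le_left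
  filter_upwards [(Metric.tendsto_nhds.1 h3) (ε / 4) (by positivity), (Metric.tendsto_nhds.1 h5) (ε / 4) (by positivity), h6]
    with X hX1 hX2 hX3
  rw [Real.dist_0_eq_abs] at hX1 hX2 ⊢
  have hX0 : (0 : ℝ) < X := by exact_mod_cast hX3
  rw [abs_of_nonneg (div_nonneg (norm_nonneg _) hX0.le)]
  have h7 := cls_sum (D := D) (m := m) r (Icc 1 X) (fun k => (tc c k : ℝ)) (fun k _ => by positivity) ff
    (fun k _ => hff k) (fun k => g (ff k)) (fun k _ => by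
      rw [Complex.norm_eq_one_of_pow_eq_one (hroot _ (hff k)) (by omega)]) cc hcc
  have h8 : 2 * ∑ l ∈ D.primeFactors, ∑ k ∈ (Icc 1 X).filter (fun k => l ^ m ∣ ff k), (tc c k : ℝ) ≤
      ε / 4 * X + B := by
    have e1 : ∀ l ∈ D.primeFactors, ∑ k ∈ (Icc 1 X).filter (fun k => l ^ m ∣ ff k), (tc c k : ℝ) ≤
        ε / (8 * n) * X + |K₁ l| := by
      intro l hl
      refine (hK₁ l hl X).trans ?_
      have := le_abs_self (K₁ l)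
      linarith
    have e2 := Finset.sum_le_sum e1
    rw [Finset.sum_add_distrib, Finset.sum_const, nsmul_eq_mul] at e2
    have e3 : (D.primeFactors.card : ℝ) * (ε / (8 * n) * X) ≤ ε / 8 * X := by
      rw [← mul_assoc]
      refine mul_le_mul_of_nonneg_right ?_ hX0.le
      rw [mul_div_assoc', div_le_div_iff₀ (by positivity) (by norm_num), hn]
      nlinarith
    rw [hB]
    linarith
  have h9 : ∑ ψ : AddChar (GD D m) ℂ, ‖cc ψ‖ * ‖∑ k ∈ Icc 1 X, (tc c k : ℂ) * (g (ff k) * ψ (hD D m (ff k)))‖ ≤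
      ε / 4 * X := by
    have e1 := (le_abs_self _).trans hX1.le
    have e2 : ∑ ψ : AddChar (GD D m) ℂ, ‖cc ψ‖ *
        (‖∑ k ∈ Icc 1 X, (tc c k : ℂ) * (g (ff k) * ψ (hD D m (ff k)))‖ / X) =
        (∑ ψ : AddChar (GD D m) ℂ, ‖cc ψ‖ * ‖∑ k ∈ Icc 1 X, (tc c k : ℂ) * (g (ff k) * ψ (hD D m (ff k)))‖) / X := by
      rw [Finset.sum_div]
      exact Finset.sum_congr rfl fun ψ _ => by rw [mul_div_assoc]
    rw [e2, div_le_iff₀ hX0] at e1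
    exact e1
  have h10 : B ≤ ε / 4 * X := by
    have e1 := (le_abs_self _).trans hX2.le
    rwa [div_le_iff₀ hX0] at e1
  rw [div_lt_iff₀ hX0]
  have h11 : ‖∑ k ∈ (Icc 1 X).filter (fun k => ff k ≡ r [MOD D]), (tc c k : ℂ) * g (ff k)‖ ≤
      ∑ ψ : AddChar (GD D m) ℂ, ‖cc ψ‖ * ‖∑ k ∈ Icc 1 X, (tc c k : ℂ) * (g (ff k) * ψ (hD D m (ff k)))‖ +
        2 * ∑ l ∈ D.primeFactors, ∑ k ∈ (Icc 1 X).filter (fun k => l ^ m ∣ ff k), (tc c k : ℝ) := by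
    simpa using h7
  have h12 : 0 < ε * X := by positivity
  linarith

end Pool.Agent.Lib.MP_d57abb_nt.GV
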