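import Pool.Agent.Lib.MP_d57abb_nt.GV.LawU

/-!
# The pairs for which a norm is divisible by a prime
-/

namespace Pool.Agent.Lib.MP_d57abb_nt.GV

open Finset

attribute [local instance] GT.lab0

/-- the second vector of the frame -/
def fw (n : ℕ) (x : ℤ × ℤ) : ℤ × ℤ := (x.2 + n, (x.1 * x.2 + 1) / n + x.1)

/-- the first vector of the frame -/
def fv (n : ℕ) (x : ℤ × ℤ) : ℤ × ℤ := ((n : ℤ), x.1)

private theorem RootP_quad {l : ℕ} (hl : l.Prime) {A B C : ℤ} (hA : ¬ (l : ℤ) ∣ A) :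
    ((range l).filter (fun j : ℕ => (l : ℤ) ∣ A * (j : ℤ) ^ 2 + B * j + C)).card ≤ 2 := by
  have hlp : Prime (l : ℤ) := Nat.prime_iff_prime_int.1 hl
  by_contra hcon
  push Not at hcon
  obtain ⟨a, ha, b, hb, c, hc, hab, hac, hbc⟩ := Finset.two_lt_card.1 hcon
  rw [mem_filter, mem_range] at ha hb hc
  have hne : ∀ x y : ℕ, x < l → y < l → x ≠ y → ¬ (l : ℤ) ∣ (x : ℤ) - y := by
    intro x y hx hy hxy hd
    have h1 : (x : ℤ) - y = 0 := by
      refine Int.eq_zero_of_abs_lt_dvd hd ?_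
      rw [abs_lt]
      constructor <;> omega
    omega
  have key : ∀ x y : ℕ, x < l → y < l → x ≠ y → (l : ℤ) ∣ A * (x : ℤ) ^ 2 + B * x + C →
      (l : ℤ) ∣ A * (y : ℤ) ^ 2 + B * y + C → (l : ℤ) ∣ A * ((x : ℤ) + y) + B := by
    intro x y hx hy hxy h1 h2
    have h3 := dvd_sub h1 h2
    have e : A * (x : ℤ) ^ 2 + B * x + C - (A * (y : ℤ) ^ 2 + B * y + C) = ((x : ℤ) - y) * (A * ((x : ℤ) + y) + B) := by ring
    rw [e] at h3
    exact (hlp.dvd_or_dvd h3).resolve_left (hne x y hx hy hxy)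
  have h1 := key a b ha.1 hb.1 hab ha.2 hb.2
  have h2 := key a c ha.1 hc.1 hac ha.2 hc.2
  have h3 := dvd_sub h1 h2
  have e : A * ((a : ℤ) + b) + B - (A * ((a : ℤ) + c) + B) = A * ((b : ℤ) - c) := by ring
  rw [e] at h3
  rcases hlp.dvd_or_dvd h3 with h4 | h4
  · exact hA h4
  · exact hne b c hb.1 hc.1 hbc h4

private theorem RootP_gen {M l r : ℕ} (hM : 0 < M) (hl : l.Prime) (hlM : ¬ l ∣ M) : ∃ n0 : ℕ, ∀ n : ℕ, n0 ≤ n →
    n.Coprime (M * l) → ∀ (c : ℤ × ℤ) (Q : ℤ × ℤ → Prop) [DecidablePred Q],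
      (∀ x x' : ℤ × ℤ, (l : ℤ) ∣ x.1 - x'.1 → (l : ℤ) ∣ x.2 - x'.2 → Q x → Q x') →
      ((range l ×ˢ range l).filter (fun p : ℕ × ℕ => Q ((p.1 : ℤ), (p.2 : ℤ)))).card ≤ r * l →
      (((Hc n M c).filter Q).card : ℝ) ≤ 2 * r * n.totient / ((M : ℝ) ^ 2 * l) := by
  have hl0 := hl.pos
  have hM0 : (0 : ℝ) < M := by exact_mod_cast hM
  have hlr : (0 : ℝ) < l := by exact_mod_cast hl0
  obtain ⟨n0, hn0⟩ := law_up (M * l) (Nat.mul_pos hM hl0) 1 one_pos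
  refine ⟨n0, fun n hn hc c Q _ hQ hR => ?_⟩
  have hcop : IsCoprime (M : ℤ) (l : ℤ) := by
    rw [Nat.isCoprime_iff_coprime]
    exact ((Nat.Prime.coprime_iff_not_dvd hl).2 hlM).symm
  have hlz : (0 : ℤ) < l := by exact_mod_cast hl0
  have hcls : ∀ p : ℕ × ℕ, (((Hc n M c).filter (fun x => (l : ℤ) ∣ x.1 - p.1 ∧ (l : ℤ) ∣ x.2 - p.2)).card : ℝ) ≤
      2 * n.totient / ((M * l : ℕ) : ℝ) ^ 2 := by
    intro p
    rcases ((Hc n M c).filter (fun x => (l : ℤ) ∣ x.1 - p.1 ∧ (l : ℤ) ∣ x.2 - p.2)).eq_empty_or_nonempty with h0 | ⟨x0, hx0⟩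
    · rw [h0]
      simp only [Finset.card_empty, Nat.cast_zero]
      positivity
    · have h1 := hn0 n hn hc x0
      have e : (1 + 1 : ℝ) * n.totient / ((M * l : ℕ) : ℝ) ^ 2 = 2 * n.totient / ((M * l : ℕ) : ℝ) ^ 2 := by norm_num
      rw [e] at h1
      refine le_trans ?_ h1
      have hsub : (Hc n M c).filter (fun x => (l : ℤ) ∣ x.1 - p.1 ∧ (l : ℤ) ∣ x.2 - p.2) ⊆ Hc n (M * l) x0 := by
        intro x hx
        obtain ⟨hx1, hx2, hx3⟩ := mem_filter.1 hx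
        obtain ⟨hy1, hy2, hy3⟩ := mem_filter.1 hx0
        unfold Hc at hx1 hy1 ⊢
        obtain ⟨hx4, hx5, hx6⟩ := mem_filter.1 hx1
        obtain ⟨-, hy5, hy6⟩ := mem_filter.1 hy1
        refine mem_filter.2 ⟨hx4, ?_, ?_⟩
        · push_cast
          refine hcop.mul_dvd ?_ ?_
          · have := dvd_sub hx5 hy5
            have e : x.1 - c.1 - (x0.1 - c.1) = x.1 - x0.1 := by ring
            rwa [e] at this
          · have := dvd_sub hx2 hy2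
            have e : x.1 - (p.1 : ℤ) - (x0.1 - p.1) = x.1 - x0.1 := by ring
            rwa [e] at this
        · push_cast
          refine hcop.mul_dvd ?_ ?_
          · have := dvd_sub hx6 hy6
            have e : x.2 - c.2 - (x0.2 - c.2) = x.2 - x0.2 := by ring
            rwa [e] at this
          · have := dvd_sub hx3 hy3
            have e : x.2 - (p.2 : ℤ) - (x0.2 - p.2) = x.2 - x0.2 := by ring
            rwa [e] at this
      exact_mod_cast Finset.card_le_card hsub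
  have hres : ∀ z : ℤ, ∃ i : ℕ, i < l ∧ (l : ℤ) ∣ z - i := by
    intro z
    have h1 := Int.emod_nonneg z hlz.ne'
    have h2 := Int.emod_lt_of_pos z hlz
    refine ⟨(z % l).toNat, by omega, z / l, ?_⟩
    have h3 := Int.emod_add_mul_ediv z (l : ℤ)
    rw [Int.toNat_of_nonneg h1]
    linarith
  obtain ⟨R, hRd⟩ : ∃ R : Finset (ℕ × ℕ), R = (range l ×ˢ range l).filter (fun p : ℕ × ℕ => Q ((p.1 : ℤ), (p.2 : ℤ))) :=
    ⟨_, rfl⟩
  rw [← hRd] at hR
  have hcov : (Hc n M c).filter Q ⊆ R.biUnion (fun p => (Hc n M c).filter (fun x => (l : ℤ) ∣ x.1 - p.1 ∧ (l : ℤ) ∣ x.2 - p.2)) := by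
    intro x hx
    obtain ⟨hx1, hx2⟩ := mem_filter.1 hx
    obtain ⟨i, hi, hdi⟩ := hres x.1
    obtain ⟨j, hj, hdj⟩ := hres x.2
    refine mem_biUnion.2 ⟨(i, j), ?_, mem_filter.2 ⟨hx1, hdi, hdj⟩⟩
    rw [hRd, mem_filter, mem_product, mem_range, mem_range]
    exact ⟨⟨hi, hj⟩, hQ x _ hdi hdj hx2⟩
  have h1 : (((Hc n M c).filter Q).card : ℝ) ≤ ∑ p ∈ R,
      (((Hc n M c).filter (fun x => (l : ℤ) ∣ x.1 - p.1 ∧ (l : ℤ) ∣ x.2 - p.2)).card : ℝ) := by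
    have := (Finset.card_le_card hcov).trans Finset.card_biUnion_le
    exact_mod_cast this
  refine h1.trans ((Finset.sum_le_sum fun p _ => hcls p).trans ?_)
  rw [Finset.sum_const, nsmul_eq_mul]
  have hRr : (R.card : ℝ) ≤ r * l := by exact_mod_cast hR
  have h2 : (0 : ℝ) ≤ 2 * n.totient / ((M * l : ℕ) : ℝ) ^ 2 := by positivity
  refine (mul_le_mul_of_nonneg_right hRr h2).trans (le_of_eq ?_)
  push_cast
  field_simp

private theorem RootP_v {l : ℕ} (hl : l.Prime) (n : ℕ) :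
    ((range l).filter (fun i : ℕ => (l : ℤ) ∣ (n : ℤ) ^ 2 + 3 * n * i + (i : ℤ) ^ 2)).card ≤ 2 := by
  have h1 : ¬ (l : ℤ) ∣ 1 := by
    intro h
    have h2 : l ∣ 1 := by exact_mod_cast h
    exact hl.one_lt.ne' (Nat.dvd_one.1 h2)
  have h2 := RootP_quad hl (A := 1) (B := 3 * n) (C := (n : ℤ) ^ 2) h1
  refine le_trans (le_of_eq ?_) h2
  congr 1
  refine Finset.filter_congr fun i _ => ?_
  have e : (n : ℤ) ^ 2 + 3 * n * i + (i : ℤ) ^ 2 = 1 * (i : ℤ) ^ 2 + 3 * n * i + (n : ℤ) ^ 2 := by ring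
  rw [e]

theorem cnt_v {M l : ℕ} (hM : 0 < M) (hl : l.Prime) (hlM : ¬ l ∣ M) : ∃ n0 : ℕ, ∀ n : ℕ, n0 ≤ n → n.Coprime (M * l) →
    ∀ c : ℤ × ℤ, (((Hc n M c).filter (fun x => (l : ℤ) ∣ nm (fv n x))).card : ℝ) ≤ 4 * n.totient / ((M : ℝ) ^ 2 * l) := by
  obtain ⟨n0, hn0⟩ := RootP_gen (r := 2) hM hl hlM
  refine ⟨n0, fun n hn hc c => ?_⟩
  have hmain := hn0 n hn hc c (fun x => (l : ℤ) ∣ nm (fv n x)) ?_ ?_
  · refine hmain.trans (le_of_eq ?_)
    push_cast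
    ring
  · intro x x' h1 _ h3
    have e : nm (fv n x') = nm (fv n x) - (x.1 - x'.1) * (3 * n + x.1 + x'.1) := by
      unfold nm fv
      ring
    show (l : ℤ) ∣ nm (fv n x')
    rw [e]
    exact dvd_sub h3 (Dvd.dvd.mul_right h1 _)
  · have hsub : (range l ×ˢ range l).filter (fun p : ℕ × ℕ => (l : ℤ) ∣ nm (fv n ((p.1 : ℤ), (p.2 : ℤ)))) ⊆
        ((range l).filter (fun i : ℕ => (l : ℤ) ∣ (n : ℤ) ^ 2 + 3 * n * i + (i : ℤ) ^ 2)) ×ˢ range l := by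
      intro p hp
      obtain ⟨h1, h2⟩ := mem_filter.1 hp
      obtain ⟨h3, h4⟩ := mem_product.1 h1
      exact mem_product.2 ⟨mem_filter.2 ⟨h3, h2⟩, h4⟩
    refine (Finset.card_le_card hsub).trans ?_
    rw [card_product, card_range]
    exact Nat.mul_le_mul_right l (RootP_v hl n)

/-- the norm of the second vector times `n ^ 2` as a polynomial -/
private theorem RootP_w (n : ℕ) (x : ℤ × ℤ) (h : (n : ℤ) ∣ x.1 * x.2 + 1) :
    (n : ℤ) ^ 2 * nm (fw n x) = (n * (x.2 + n)) ^ 2 + 3 * (n * (x.2 + n)) * (x.1 * x.2 + 1 + n * x.1) +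
      (x.1 * x.2 + 1 + n * x.1) ^ 2 := by
  have h1 : (n : ℤ) * ((x.1 * x.2 + 1) / n) = x.1 * x.2 + 1 := Int.mul_ediv_cancel' h
  unfold nm fw
  generalize (x.1 * x.2 + 1) / (n : ℤ) = t at h1
  have e : x.1 * x.2 + 1 + n * x.1 = n * (t + x.1) := by rw [← h1]; ring
  rw [e]
  ring

/-- the polynomial -/
private def RootP_E (n : ℕ) (x : ℤ × ℤ) : ℤ :=
  (n * (x.2 + n)) ^ 2 + 3 * (n * (x.2 + n)) * (x.1 * x.2 + 1 + n * x.1) + (x.1 * x.2 + 1 + n * x.1) ^ 2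

theorem cnt_w {M l : ℕ} (hM : 0 < M) (hl : l.Prime) (hlM : ¬ l ∣ M) : ∃ n0 : ℕ, ∀ n : ℕ, n0 ≤ n → n.Coprime (M * l) →
    ∀ c : ℤ × ℤ, (((Hc n M c).filter (fun x => (l : ℤ) ∣ nm (fw n x))).card : ℝ) ≤ 8 * n.totient / ((M : ℝ) ^ 2 * l) := by
  obtain ⟨n0, hn0⟩ := RootP_gen (r := 4) hM hl hlM
  refine ⟨n0, fun n hn hc c => ?_⟩
  have h0 : (Hc n M c).filter (fun x => (l : ℤ) ∣ nm (fw n x)) ⊆ (Hc n M c).filter (fun x => (l : ℤ) ∣ RootP_E n x) := by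
    intro x hx
    obtain ⟨h1, h2⟩ := mem_filter.1 hx
    refine mem_filter.2 ⟨h1, ?_⟩
    unfold Hc at h1
    have h3 := (mem_HH.1 (mem_filter.1 h1).1).2
    have h4 := RootP_w n x h3
    unfold RootP_E
    rw [← h4]
    exact Dvd.dvd.mul_left h2 _
  have h00 : (((Hc n M c).filter (fun x => (l : ℤ) ∣ nm (fw n x))).card : ℝ) ≤
      (((Hc n M c).filter (fun x => (l : ℤ) ∣ RootP_E n x)).card : ℝ) := by exact_mod_cast Finset.card_le_card h0
  refine h00.trans ?_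
  have hmain := hn0 n hn hc c (fun x => (l : ℤ) ∣ RootP_E n x) ?_ ?_
  · refine hmain.trans (le_of_eq ?_)
    push_cast
    ring
  · intro x x' h1 h2 h3
    show (l : ℤ) ∣ RootP_E n x'
    have m1 : x'.1 ≡ x.1 [ZMOD l] := Int.modEq_iff_dvd.2 h1
    have m2 : x'.2 ≡ x.2 [ZMOD l] := Int.modEq_iff_dvd.2 h2
    have m3 : RootP_E n x' ≡ RootP_E n x [ZMOD l] := by
      unfold RootP_E
      have a1 : (n : ℤ) * (x'.2 + n) ≡ n * (x.2 + n) [ZMOD l] := (m2.add_right _).mul_left _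
      have a2 : x'.1 * x'.2 + 1 + n * x'.1 ≡ x.1 * x.2 + 1 + n * x.1 [ZMOD l] :=
        ((m1.mul m2).add_right _).add (m1.mul_left _)
      exact ((a1.pow 2).add ((a1.mul_left 3).mul a2)).add (a2.pow 2)
    exact (Int.modEq_zero_iff_dvd.1 (m3.trans (Int.modEq_zero_iff_dvd.2 h3)))
  · obtain ⟨F, hF⟩ : ∃ F : Finset ℕ, F = (range l).filter (fun i : ℕ => (l : ℤ) ∣ (n : ℤ) ^ 2 + 3 * n * i + (i : ℤ) ^ 2) :=
      ⟨_, rfl⟩
    have hFc : F.card ≤ 2 := by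
      rw [hF]
      exact RootP_v hl n
    have hsub : (range l ×ˢ range l).filter (fun p : ℕ × ℕ => (l : ℤ) ∣ RootP_E n ((p.1 : ℤ), (p.2 : ℤ))) ⊆
        F ×ˢ range l ∪ ((range l).filter (fun i => i ∉ F)).biUnion (fun i =>
          ((range l).filter (fun j : ℕ => (l : ℤ) ∣ RootP_E n ((i : ℤ), (j : ℤ)))).image (fun j => (i, j))) := by
      intro p hp
      obtain ⟨h1, h2⟩ := mem_filter.1 hp
      obtain ⟨h3, h4⟩ := mem_product.1 h1
      by_cases h5 : p.1 ∈ F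
      · exact mem_union_left _ (mem_product.2 ⟨h5, h4⟩)
      · refine mem_union_right _ (mem_biUnion.2 ⟨p.1, mem_filter.2 ⟨h3, h5⟩, mem_image.2 ⟨p.2, mem_filter.2 ⟨h4, h2⟩, rfl⟩⟩)
    refine (Finset.card_le_card hsub).trans ((card_union_le _ _).trans ?_)
    have h1 : (F ×ˢ range l).card ≤ 2 * l := by
      rw [card_product, card_range]
      exact Nat.mul_le_mul_right l hFc
    have h2 : (((range l).filter (fun i => i ∉ F)).biUnion (fun i =>
          ((range l).filter (fun j : ℕ => (l : ℤ) ∣ RootP_E n ((i : ℤ), (j : ℤ)))).image (fun j => (i, j)))).card ≤ l * 2 := by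
      refine card_biUnion_le.trans ?_
      have h3 : ∀ i ∈ (range l).filter (fun i => i ∉ F),
          (((range l).filter (fun j : ℕ => (l : ℤ) ∣ RootP_E n ((i : ℤ), (j : ℤ)))).image (fun j => (i, j))).card ≤ 2 := by
        intro i hi
        obtain ⟨hi1, hi2⟩ := mem_filter.1 hi
        refine card_image_le.trans ?_
        have h4 : ¬ (l : ℤ) ∣ (n : ℤ) ^ 2 + 3 * n * i + (i : ℤ) ^ 2 := by
          intro h5
          apply hi2
          rw [hF]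
          exact mem_filter.2 ⟨hi1, h5⟩
        refine le_trans (le_of_eq ?_) (RootP_quad hl (A := (n : ℤ) ^ 2 + 3 * n * i + (i : ℤ) ^ 2)
          (B := 2 * (n : ℤ) ^ 2 * n + 3 * n * (1 + n * i) + 3 * n * n * i + 2 * i * (1 + n * i))
          (C := (n : ℤ) ^ 4 + 3 * n * n * (1 + n * i) + (1 + n * i) ^ 2) h4)
        congr 1
        refine Finset.filter_congr fun j _ => ?_
        have e : RootP_E n ((i : ℤ), (j : ℤ)) = ((n : ℤ) ^ 2 + 3 * n * i + (i : ℤ) ^ 2) * (j : ℤ) ^ 2 +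
            (2 * (n : ℤ) ^ 2 * n + 3 * n * (1 + n * i) + 3 * n * n * i + 2 * i * (1 + n * i)) * j +
            ((n : ℤ) ^ 4 + 3 * n * n * (1 + n * i) + (1 + n * i) ^ 2) := by
          unfold RootP_E
          ring
        rw [e]
      refine (Finset.sum_le_sum h3).trans ?_
      rw [Finset.sum_const, smul_eq_mul]
      exact Nat.mul_le_mul_right 2 ((Finset.card_filter_le _ _).trans (le_of_eq (card_range l)))
    omega

end Pool.Agent.Lib.MP_d57abb_nt.GV
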