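import Pool.Agent.Lib.MP_d57abb_nt.GT.CntP
import Pool.Agent.Lib.MP_d57abb_nt.GV.Defs

/-!
# The sum of the totients over a sieved residue class
-/

namespace Pool.Agent.Lib.MP_d57abb_nt.GV

open Finset GT

/-- the integers of `(A, 2 A]` which are `1` modulo `M` and have no prime factor in `S` -/
def Nn (M : ℕ) (S : Finset ℕ) (A : ℕ) : Finset ℕ :=
  (Ioc A (2 * A)).filter (fun n => (M : ℤ) ∣ (n : ℤ) - 1 ∧ ∀ l ∈ S, ¬ l ∣ n)

private theorem Tot_grid {M A t : ℕ} (hM : 0 < M) (ht : t = A / M) :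
    ∃ S : Finset (ℤ × ℤ), S.card = (t - 1) * t ∧ ∀ u ∈ S, ((A : ℤ) < u.1 ∧ u.1 ≤ 2 * A) ∧ (0 < u.2 ∧ u.2 ≤ A) ∧
      (M : ℤ) ∣ u.1 - 1 ∧ (M : ℤ) ∣ u.2 := by
  have hMz : (0 : ℤ) < M := by exact_mod_cast hM
  refine ⟨(range (t - 1) ×ˢ range t).image (fun i : ℕ × ℕ => ((1 + M * (t + 1 + i.1) : ℤ), (M * (i.2 + 1) : ℤ))), ?_, ?_⟩
  · rw [Finset.card_image_of_injective, card_product, card_range, card_range]
    intro i j hij
    have h1 : (1 + M * (t + 1 + i.1) : ℤ) = 1 + M * (t + 1 + j.1) := congrArg Prod.fst hij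
    have h2 : (M * (i.2 + 1) : ℤ) = M * (j.2 + 1) := congrArg Prod.snd hij
    have h3 : (M : ℤ) * i.1 = M * j.1 := by linarith
    have h3' : (M : ℤ) * i.2 = M * j.2 := by linarith
    have h4 := mul_left_cancel₀ hMz.ne' h3
    have h5 := mul_left_cancel₀ hMz.ne' h3'
    exact Prod.ext (by exact_mod_cast h4) (by exact_mod_cast h5)
  · intro u hu
    obtain ⟨i, hi, rfl⟩ := Finset.mem_image.1 hu
    rw [mem_product, mem_range, mem_range] at hi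
    obtain ⟨h1, h2⟩ := hi
    have h3 : A < M * (t + 1) := by
      rw [ht]
      exact Nat.lt_mul_div_succ A hM
    have h4 : M * t ≤ A := by
      rw [ht]
      exact Nat.mul_div_le A M
    have h3z : (A : ℤ) < M * (t + 1) := by exact_mod_cast h3
    have h4z : (M : ℤ) * t ≤ A := by exact_mod_cast h4
    have h1z : (i.1 : ℤ) + 2 ≤ t := by exact_mod_cast (by omega : i.1 + 2 ≤ t)
    have h2z : (i.2 : ℤ) + 1 ≤ t := by exact_mod_cast (by omega : i.2 + 1 ≤ t)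
    have e1 : (M : ℤ) * (t + 1 + i.1) = M * (t + 1) + M * i.1 := by ring
    have n1 : (0 : ℤ) ≤ M * i.1 := by positivity
    have n4 : (M : ℤ) * (i.1 + 2) ≤ M * t := mul_le_mul_of_nonneg_left h1z hMz.le
    have n5 : (M : ℤ) * (i.2 + 1) ≤ M * t := mul_le_mul_of_nonneg_left h2z hMz.le
    refine ⟨⟨?_, ?_⟩, ⟨?_, ?_⟩, ⟨t + 1 + i.1, by ring⟩, ⟨i.2 + 1, rfl⟩⟩
    · show (A : ℤ) < 1 + M * (t + 1 + i.1)
      rw [e1]
      linarith
    · show (1 : ℤ) + M * (t + 1 + i.1) ≤ 2 * A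
      have e2 : (M : ℤ) * (t + 1 + i.1) = M * t + M * (i.1 + 2) - M := by ring
      rw [e2]
      linarith
    · show (0 : ℤ) < M * (i.2 + 1)
      positivity
    · show (M : ℤ) * (i.2 + 1) ≤ A
      linarith

private theorem Tot_l {M l A : ℕ} (hM : 0 < M) (hl : l.Prime) (hlM : ¬ l ∣ M) {S : Finset (ℤ × ℤ)}
    (hS : ∀ u ∈ S, (((A : ℤ) < u.1 ∧ u.1 ≤ 2 * A) ∧ (0 < u.2 ∧ u.2 ≤ A) ∧ (M : ℤ) ∣ u.1 - 1 ∧ (M : ℤ) ∣ u.2) ∧ (l : ℤ) ∣ u.1) :
    (S.card : ℝ) ≤ (A : ℝ) ^ 2 / (M : ℝ) ^ 2 * (1 / (l : ℝ)) + 3 * A + 1 := by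
  classical
  have hM0 : (0 : ℝ) < M := by exact_mod_cast hM
  have hM1 : (1 : ℝ) ≤ M := by exact_mod_cast hM
  have hl0 : (0 : ℝ) < l := by exact_mod_cast hl.pos
  have hl1 : (1 : ℝ) ≤ l := by exact_mod_cast hl.one_lt.le
  have hA0 : (0 : ℝ) ≤ A := Nat.cast_nonneg _
  have hcop : IsCoprime (M : ℤ) (l : ℤ) := by
    rw [Nat.isCoprime_iff_coprime]
    exact ((Nat.Prime.coprime_iff_not_dvd hl).2 hlM).symm
  have h1 : S.card ≤ ((S.image Prod.fst) ×ˢ (S.image Prod.snd)).card :=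
    Finset.card_le_card fun x hx => Finset.mem_product.2 ⟨Finset.mem_image_of_mem _ hx, Finset.mem_image_of_mem _ hx⟩
  rw [Finset.card_product] at h1
  have h2 := ap_card (S := S.image Prod.fst) (M := M * l) (lo := A) (hi := 2 * A) (Nat.mul_pos hM hl.pos) (by linarith) ?_ ?_
  · have h3 := ap_card (S := S.image Prod.snd) (M := M) (lo := 0) (hi := A) hM hA0 ?_ ?_
    · have h4 : (S.card : ℝ) ≤ ((S.image Prod.fst).card : ℝ) * ((S.image Prod.snd).card : ℝ) := by exact_mod_cast h1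
      have h20 : (0 : ℝ) ≤ (2 * (A : ℝ) - A) / ((M * l : ℕ) : ℝ) + 1 := by
        have : (0 : ℝ) ≤ (2 * (A : ℝ) - A) / ((M * l : ℕ) : ℝ) := div_nonneg (by linarith) (Nat.cast_nonneg _)
        linarith
      refine h4.trans ((mul_le_mul h2 h3 (Nat.cast_nonneg _) h20).trans ?_)
      push_cast
      have e : ((2 * (A : ℝ) - A) / (M * l) + 1) * ((A - 0) / M + 1) =
          (A : ℝ) ^ 2 / (M : ℝ) ^ 2 * (1 / (l : ℝ)) + (A / (M * l) + A / M + 1) := by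
        field_simp
        ring
      rw [e]
      have k1 : (A : ℝ) / (M * l) ≤ A := div_le_self hA0 (by nlinarith)
      have k2 : (A : ℝ) / M ≤ A := div_le_self hA0 hM1
      linarith
    · intro x hx
      obtain ⟨u, hu, rfl⟩ := Finset.mem_image.1 hx
      obtain ⟨⟨-, ⟨b1, b2⟩, -⟩, -⟩ := hS u hu
      exact ⟨by exact_mod_cast b1.le, by exact_mod_cast b2⟩
    · intro x hx y hy
      obtain ⟨u, hu, rfl⟩ := Finset.mem_image.1 hx
      obtain ⟨v, hv, rfl⟩ := Finset.mem_image.1 hy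
      exact dvd_sub (hS u hu).1.2.2.2 (hS v hv).1.2.2.2
  · intro x hx
    obtain ⟨u, hu, rfl⟩ := Finset.mem_image.1 hx
    obtain ⟨⟨⟨b1, b2⟩, -⟩, -⟩ := hS u hu
    exact ⟨by exact_mod_cast b1.le, by exact_mod_cast b2⟩
  · intro x hx y hy
    obtain ⟨u, hu, rfl⟩ := Finset.mem_image.1 hx
    obtain ⟨v, hv, rfl⟩ := Finset.mem_image.1 hy
    push_cast
    refine hcop.mul_dvd ?_ (dvd_sub (hS u hu).2 (hS v hv).2)
    have := dvd_sub (hS u hu).1.2.2.1 (hS v hv).1.2.2.1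
    have e : u.1 - 1 - (v.1 - 1) = u.1 - v.1 := by ring
    rwa [e] at this

theorem tot {M y : ℕ} (hM : 0 < M) (hy : 64 ≤ y) (hMy : ∀ q : ℕ, q.Prime → q ≤ y → q ∣ M) {S : Finset ℕ}
    (hS : ∀ l ∈ S, l.Prime ∧ ¬ l ∣ M) (hSm : ∑ l ∈ S, 1 / (l : ℝ) ≤ 1 / 8) :
    ∃ A₀ : ℕ, ∀ A : ℕ, A₀ ≤ A → (A : ℝ) ^ 2 / (4 * (M : ℝ) ^ 2) ≤ ∑ n ∈ Nn M S A, (n.totient : ℝ) := by
  classical
  have hM0 : (0 : ℝ) < M := by exact_mod_cast hM
  have hM1 : (1 : ℝ) ≤ M := by exact_mod_cast hM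
  obtain ⟨A1, hA1⟩ := exists_nat_gt (4 * (M : ℝ) ^ 2 * (8 + 4 * (S.card : ℝ)))
  refine ⟨A1 + 1, fun A hA => ?_⟩
  have hAr : 4 * (M : ℝ) ^ 2 * (8 + 4 * (S.card : ℝ)) ≤ A := by
    have : (A1 : ℝ) ≤ A := by exact_mod_cast (by omega : A1 ≤ A)
    linarith
  have hA0 : (1 : ℝ) ≤ A := by exact_mod_cast (by omega : 1 ≤ A)
  obtain ⟨t, ht⟩ : ∃ t : ℕ, t = A / M := ⟨_, rfl⟩
  obtain ⟨Gr, hG, hGm⟩ := Tot_grid hM ht
  -- the parts
  obtain ⟨G1, hG1⟩ : ∃ G1 : Finset (ℤ × ℤ), G1 = Gr.filter (fun u => ¬ IsCoprime u.1 u.2) := ⟨_, rfl⟩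
  obtain ⟨G2, hG2⟩ : ∃ G2 : Finset (ℤ × ℤ), G2 = Gr.filter (fun u => IsCoprime u.1 u.2 ∧ ∀ l ∈ S, ¬ (l : ℤ) ∣ u.1) := ⟨_, rfl⟩
  have hG1c : (G1.card : ℝ) ≤ 2 * ((2 * A : ℕ) : ℝ) ^ 2 / ((M : ℝ) ^ 2 * y) + 2 * ((2 * A : ℕ) : ℝ) := by
    have h1 := cnt_np hM (by omega : 1 ≤ y) hMy (2 * A) (b := (1, 0)) (fun q hq _ hd => by
      have h2 : (q : ℤ) ∣ ((1 : ℕ) : ℤ) := hd.1
      exact hq.one_lt.ne' (Nat.dvd_one.1 (Int.natCast_dvd_natCast.1 h2)))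
    refine le_trans ?_ h1
    have h2 : G1 ⊆ (GA.TA.Bx (2 * A)).filter (fun u => (u ≠ 0 ∧ Cg M u (1, 0)) ∧ ¬ IsCoprime u.1 u.2) := by
      intro u hu
      rw [hG1] at hu
      obtain ⟨hu1, hu2⟩ := mem_filter.1 hu
      obtain ⟨⟨b1, b2⟩, ⟨b3, b4⟩, b6, b7⟩ := hGm u hu1
      rw [mem_filter]
      unfold GA.TA.Bx
      rw [mem_product, mem_Icc, mem_Icc]
      push_cast
      refine ⟨⟨⟨by linarith, b2⟩, b3.le, by linarith⟩, ⟨fun h0 => ?_, b6, ?_⟩, hu2⟩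
      · rw [h0] at b3
        simp only [Prod.snd_zero] at b3
        exact absurd b3 (lt_irrefl 0)
      · show (M : ℤ) ∣ u.2 - 0
        rwa [sub_zero]
    exact_mod_cast Finset.card_le_card h2
  have hGl : ∀ l ∈ S, ((Gr.filter (fun u => (l : ℤ) ∣ u.1)).card : ℝ) ≤
      (A : ℝ) ^ 2 / (M : ℝ) ^ 2 * (1 / (l : ℝ)) + 3 * A + 1 := by
    intro l hl
    obtain ⟨h1, h2⟩ := hS l hl
    exact Tot_l hM h1 h2 fun u hu => ⟨hGm u (mem_filter.1 hu).1, (mem_filter.1 hu).2⟩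
  have hcov : Gr ⊆ G2 ∪ (G1 ∪ S.biUnion (fun l => Gr.filter (fun u => (l : ℤ) ∣ u.1))) := by
    intro u hu
    rw [mem_union, mem_union]
    by_cases h1 : IsCoprime u.1 u.2
    · by_cases h2 : ∀ l ∈ S, ¬ (l : ℤ) ∣ u.1
      · left
        rw [hG2]
        exact mem_filter.2 ⟨hu, h1, h2⟩
      · push Not at h2
        obtain ⟨l, hl, hd⟩ := h2
        exact Or.inr (Or.inr (mem_biUnion.2 ⟨l, hl, mem_filter.2 ⟨hu, hd⟩⟩))
    · right
      left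
      rw [hG1]
      exact mem_filter.2 ⟨hu, h1⟩
  have h1 : (Gr.card : ℝ) ≤ (G2.card : ℝ) + ((G1.card : ℝ) + ∑ l ∈ S, ((Gr.filter (fun u => (l : ℤ) ∣ u.1)).card : ℝ)) := by
    have h2 := (Finset.card_le_card hcov).trans ((Finset.card_union_le _ _).trans
      (Nat.add_le_add_left ((Finset.card_union_le _ _).trans (Nat.add_le_add_left Finset.card_biUnion_le _)) _))
    exact_mod_cast h2
  have h2 : ∑ l ∈ S, ((Gr.filter (fun u => (l : ℤ) ∣ u.1)).card : ℝ) ≤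
      (A : ℝ) ^ 2 / (M : ℝ) ^ 2 * (1 / 8) + (3 * A + 1) * S.card := by
    refine (Finset.sum_le_sum hGl).trans ?_
    have e : ∀ l ∈ S, (A : ℝ) ^ 2 / (M : ℝ) ^ 2 * (1 / (l : ℝ)) + 3 * A + 1 =
        (A : ℝ) ^ 2 / (M : ℝ) ^ 2 * (1 / (l : ℝ)) + (3 * A + 1) := fun l _ => by ring
    rw [Finset.sum_congr rfl e, Finset.sum_add_distrib, ← Finset.mul_sum, Finset.sum_const, nsmul_eq_mul]
    have := mul_le_mul_of_nonneg_left hSm (show (0 : ℝ) ≤ (A : ℝ) ^ 2 / (M : ℝ) ^ 2 by positivity)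
    linarith
  have h3 : 2 * ((2 * A : ℕ) : ℝ) ^ 2 / ((M : ℝ) ^ 2 * y) ≤ (A : ℝ) ^ 2 / (M : ℝ) ^ 2 * (1 / 8) := by
    have hyr : (64 : ℝ) ≤ y := by exact_mod_cast hy
    have hy0 : (0 : ℝ) < y := by linarith
    push_cast
    rw [div_le_iff₀ (by positivity)]
    have e : (A : ℝ) ^ 2 / (M : ℝ) ^ 2 * (1 / 8) * ((M : ℝ) ^ 2 * y) = (A : ℝ) ^ 2 * y / 8 := by
      field_simp
    rw [e]
    nlinarith [sq_nonneg (A : ℝ)]
  -- the grid is large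
  have h4 : (A : ℝ) ^ 2 / (M : ℝ) ^ 2 - 4 * A ≤ (Gr.card : ℝ) := by
    rw [hG]
    have h5 : A < M * (t + 1) := by
      rw [ht]
      exact Nat.lt_mul_div_succ A hM
    have h5r : (A : ℝ) < M * (t + 1) := by exact_mod_cast h5
    obtain ⟨x, hx⟩ : ∃ x : ℝ, x = A / M := ⟨_, rfl⟩
    have hAx : (A : ℝ) = M * x := by rw [hx]; field_simp
    have hx0 : 0 ≤ x := by rw [hx]; positivity
    have htx : x - 1 < t := by
      rw [hAx] at h5r
      have := lt_of_mul_lt_mul_left h5r hM0.le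
      linarith
    have hx4 : 4 ≤ x := by
      rw [hx, le_div_iff₀ hM0]
      have hS0 : (0 : ℝ) ≤ S.card := Nat.cast_nonneg _
      have : (M : ℝ) * 1 ≤ M * M := mul_le_mul_of_nonneg_left hM1 hM0.le
      nlinarith
    have ht1 : 1 ≤ t := by
      by_contra h
      have h0 : t = 0 := by omega
      rw [h0] at htx
      norm_num at htx
      linarith
    push_cast [Nat.cast_sub ht1]
    have e : (A : ℝ) ^ 2 / (M : ℝ) ^ 2 = x ^ 2 := by rw [hx]; ring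
    rw [e]
    have h6 : (x - 2) * (x - 1) ≤ ((t : ℝ) - 1) * t := mul_le_mul (by linarith) htx.le (by linarith) (by linarith)
    have h7 : x ≤ A := by
      rw [hAx]
      nlinarith
    nlinarith
  have h5 : (A : ℝ) ^ 2 / (2 * (M : ℝ) ^ 2) ≤ (G2.card : ℝ) := by
    have e : (A : ℝ) ^ 2 / (2 * (M : ℝ) ^ 2) = (A : ℝ) ^ 2 / (M : ℝ) ^ 2 / 2 := by
      field_simp
    rw [e]
    have h6 : (8 + 4 * (S.card : ℝ)) * A ≤ (A : ℝ) ^ 2 / (M : ℝ) ^ 2 / 4 := by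
      rw [div_div, le_div_iff₀ (by positivity)]
      nlinarith [mul_le_mul_of_nonneg_right hAr (by linarith : (0 : ℝ) ≤ A)]
    have h7 : (3 * (A : ℝ) + 1) * S.card ≤ 4 * A * S.card := by
      refine mul_le_mul_of_nonneg_right (by linarith) (Nat.cast_nonneg _)
    push_cast at hG1c h3
    linarith
  have h6 : (G2.card : ℝ) ≤ ∑ n ∈ Nn M S A, (n.totient : ℝ) := by
    have h7 : G2.card ≤ ((Nn M S A).sigma (fun n => (range n).filter (fun a => n.Coprime a))).card := by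
      refine Finset.card_le_card_of_injOn (fun u : ℤ × ℤ => (⟨u.1.toNat, u.2.toNat⟩ : (_ : ℕ) × ℕ)) ?_ ?_
      · intro u hu
        have hu' : u ∈ G2 := Finset.mem_coe.1 hu
        rw [hG2] at hu'
        obtain ⟨hu1, hu2, hu3⟩ := mem_filter.1 hu'
        obtain ⟨⟨b1, b2⟩, ⟨b3, b4⟩, b6, b7⟩ := hGm u hu1
        have c1 : ((u.1.toNat : ℕ) : ℤ) = u.1 := Int.toNat_of_nonneg (by linarith)
        have c2 : ((u.2.toNat : ℕ) : ℤ) = u.2 := Int.toNat_of_nonneg b3.le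
        refine Finset.mem_coe.2 (Finset.mem_sigma.2 ⟨?_, ?_⟩)
        · show u.1.toNat ∈ Nn M S A
          unfold Nn
          rw [mem_filter, mem_Ioc, c1]
          refine ⟨⟨by omega, by omega⟩, b6, fun l hl hd => hu3 l hl ?_⟩
          rw [← c1]
          exact Int.natCast_dvd_natCast.2 hd
        · show u.2.toNat ∈ (range u.1.toNat).filter (fun a => u.1.toNat.Coprime a)
          rw [mem_filter, mem_range]
          refine ⟨by omega, ?_⟩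
          rw [← Nat.isCoprime_iff_coprime, c1, c2]
          exact hu2
      · intro u hu v hv he
        have hu' : u ∈ G2 := Finset.mem_coe.1 hu
        have hv' : v ∈ G2 := Finset.mem_coe.1 hv
        rw [hG2] at hu' hv'
        obtain ⟨⟨b1, b2⟩, ⟨b3, b4⟩, -⟩ := hGm u (mem_filter.1 hu').1
        obtain ⟨⟨d1, d2⟩, ⟨d3, d4⟩, -⟩ := hGm v (mem_filter.1 hv').1
        have e1 : u.1.toNat = v.1.toNat := congrArg Sigma.fst he
        have e2 : u.2.toNat = v.2.toNat := by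
          have h8 := Sigma.mk.inj he
          exact eq_of_heq h8.2
        exact Prod.ext (by omega) (by omega)
    rw [Finset.card_sigma] at h7
    have h8 : ∑ n ∈ Nn M S A, ((range n).filter (fun a => n.Coprime a)).card = ∑ n ∈ Nn M S A, n.totient :=
      Finset.sum_congr rfl fun n _ => rfl
    rw [h8] at h7
    exact_mod_cast h7
  have h7 : (A : ℝ) ^ 2 / (4 * (M : ℝ) ^ 2) ≤ (A : ℝ) ^ 2 / (2 * (M : ℝ) ^ 2) := by
    refine div_le_div_of_nonneg_left (by positivity) (by positivity) ?_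
    nlinarith [sq_nonneg (M : ℝ)]
  linarith

end Pool.Agent.Lib.MP_d57abb_nt.GV
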