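import Pool.Agent.Lib.MP_d57abb_nt.GV.Big
import Pool.Agent.Lib.MP_d57abb_nt.GV.Tot
import Pool.Agent.Lib.MP_d57abb_nt.GV.RootP
import Pool.Agent.Lib.MP_d57abb_nt.GA.TA.Cone

/-!
# Many frames in a residue class without bad prime factors
-/

namespace Pool.Agent.Lib.MP_d57abb_nt.GV

open Finset MR GT

attribute [local instance] GT.lab0

private theorem Fr_t {n : ℕ} {x : ℤ × ℤ} (hx : x ∈ HH n) : (n : ℤ) * ((x.1 * x.2 + 1) / n) = x.1 * x.2 + 1 :=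
  Int.mul_ediv_cancel' (mem_HH.1 hx).2

private theorem Fr_n {n : ℕ} {x : ℤ × ℤ} (hx : x ∈ HH n) : (0 : ℤ) < n := by
  obtain ⟨⟨⟨a1, a2⟩, -⟩, -⟩ := mem_HH.1 hx
  linarith

theorem fr_dt {n : ℕ} {x : ℤ × ℤ} (hx : x ∈ HH n) : dt (fv n x) (fw n x) = 1 := by
  have h := Fr_t hx
  unfold dt fv fw
  show (n : ℤ) * ((x.1 * x.2 + 1) / n + x.1) - (x.2 + n) * x.1 = 1
  linear_combination h

private theorem Fr_tb {n : ℕ} {x : ℤ × ℤ} (hx : x ∈ HH n) : 1 ≤ (x.1 * x.2 + 1) / (n : ℤ) ∧ (x.1 * x.2 + 1) / (n : ℤ) ≤ n := by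
  have h := Fr_t hx
  have hn := Fr_n hx
  obtain ⟨⟨⟨a1, a2⟩, a3, a4⟩, -⟩ := mem_HH.1 hx
  generalize (x.1 * x.2 + 1) / (n : ℤ) = t at h
  have h0 : 0 ≤ x.1 * x.2 := mul_nonneg a1.le a3
  have h1 : x.1 * x.2 ≤ n * (n - 1) := mul_le_mul a2 (by linarith) a3 hn.le
  constructor
  · by_contra h2
    have h3 : t ≤ 0 := by omega
    have h4 : (n : ℤ) * t ≤ 0 := mul_nonpos_of_nonneg_of_nonpos hn.le h3
    linarith
  · by_contra h2
    have h3 : (n : ℤ) + 1 ≤ t := by omega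
    have h4 : (n : ℤ) * (n + 1) ≤ n * t := mul_le_mul_of_nonneg_left h3 hn.le
    nlinarith

theorem fr_v {n : ℕ} {x : ℤ × ℤ} (hx : x ∈ HH n) :
    GA.TA.Qd (fv n x) ∧ (n : ℤ) < GA.TA.ll (fv n x) ∧ GA.TA.ll (fv n x) ≤ 2 * n ∧ fv n x ∈ GA.TA.Bx n := by
  have hn := Fr_n hx
  obtain ⟨⟨⟨a1, a2⟩, a3, a4⟩, -⟩ := mem_HH.1 hx
  refine ⟨⟨hn.le, a1.le, fun h => ?_⟩, ?_, ?_, ?_⟩
  · have := congrArg Prod.fst h
    have h2 : (n : ℤ) = 0 := this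
    omega
  · show (n : ℤ) < n + x.1
    linarith
  · show (n : ℤ) + x.1 ≤ 2 * n
    linarith
  · unfold GA.TA.Bx fv
    rw [mem_product, mem_Icc, mem_Icc]
    exact ⟨⟨hn.le, le_rfl⟩, a1.le, a2⟩

theorem fr_w {n : ℕ} {x : ℤ × ℤ} (hx : x ∈ HH n) :
    GA.TA.Qd (fw n x) ∧ (n : ℤ) < GA.TA.ll (fw n x) ∧ GA.TA.ll (fw n x) ≤ 4 * n ∧ fw n x ∈ GA.TA.Bx (2 * n) := by
  have hn := Fr_n hx
  obtain ⟨t1, t2⟩ := Fr_tb hx
  obtain ⟨⟨⟨a1, a2⟩, a3, a4⟩, -⟩ := mem_HH.1 hx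
  unfold fw
  generalize (x.1 * x.2 + 1) / (n : ℤ) = t at t1 t2
  refine ⟨⟨?_, ?_, fun h => ?_⟩, ?_, ?_, ?_⟩
  · show 0 ≤ x.2 + n
    linarith
  · show 0 ≤ t + x.1
    linarith
  · have := congrArg Prod.fst h
    have h2 : x.2 + (n : ℤ) = 0 := this
    linarith
  · show (n : ℤ) < x.2 + n + (t + x.1)
    linarith
  · show x.2 + n + (t + x.1) ≤ 4 * n
    linarith
  · unfold GA.TA.Bx
    rw [mem_product, mem_Icc, mem_Icc]
    push_cast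
    exact ⟨⟨by linarith, by linarith⟩, by linarith, by linarith⟩

/-- the first vector determines the frame -/
theorem fv_inj {n n' : ℕ} {x x' : ℤ × ℤ} (hx : x ∈ HH n) (hx' : x' ∈ HH n') (h : fv n x = fv n' x') : n = n' ∧ x = x' := by
  have h1 : (n : ℤ) = n' := congrArg Prod.fst h
  have h2 : x.1 = x'.1 := congrArg Prod.snd h
  have h3 : n = n' := by exact_mod_cast h1
  subst h3
  exact ⟨rfl, HH_inj hx hx' h2⟩

/-- the second vector determines the frame -/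
theorem fw_inj {n n' : ℕ} {x x' : ℤ × ℤ} (hx : x ∈ HH n) (hx' : x' ∈ HH n') (h : fw n x = fw n' x') : n = n' ∧ x = x' := by
  have d1 := fr_dt hx
  have d2 := fr_dt hx'
  rw [← h] at d2
  have hn := Fr_n hx
  have hn' := Fr_n hx'
  obtain ⟨⟨-, a3, a4⟩, -⟩ := mem_HH.1 hx
  obtain ⟨⟨-, b3, b4⟩, -⟩ := mem_HH.1 hx'
  have e1 : (fw n x).1 = x.2 + n := rfl
  have e2 : (fw n x).1 = x'.2 + n' := by rw [h]; rfl
  have hw1 : 0 < (fw n x).1 := by rw [e1]; linarith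
  unfold dt fv at d1 d2
  have d1' : (n : ℤ) * (fw n x).2 - (fw n x).1 * x.1 = 1 := d1
  have d2' : (n' : ℤ) * (fw n x).2 - (fw n x).1 * x'.1 = 1 := d2
  generalize fw n x = w at *
  have hc : IsCoprime w.1 w.2 := ⟨-x.1, n, by linarith⟩
  have h1 : w.1 ∣ ((n : ℤ) - n') * w.2 := ⟨x.1 - x'.1, by linear_combination d1' - d2'⟩
  have h2 : w.1 ∣ (n : ℤ) - n' := hc.dvd_of_dvd_mul_right h1
  have h3 : (n : ℤ) - n' = 0 := by
    refine Int.eq_zero_of_abs_lt_dvd h2 ?_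
    rw [abs_lt]
    constructor <;> linarith
  have h4 : n = n' := by
    have : (n : ℤ) = n' := by linarith
    exact_mod_cast this
  subst h4
  have h5 : w.1 * x.1 = w.1 * x'.1 := by linarith
  have h6 : x.1 = x'.1 := mul_left_cancel₀ hw1.ne' h5
  exact ⟨rfl, HH_inj hx hx' h6⟩

private theorem Fr_cop {n M : ℕ} (h : (M : ℤ) ∣ (n : ℤ) - 1) : n.Coprime M := by
  rw [← Nat.isCoprime_iff_coprime]
  obtain ⟨c, hc⟩ := h
  exact ⟨1, -c, by linarith⟩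

private theorem Fr_max {S : Finset ℕ} (f : ℕ → ℕ) : ∃ m : ℕ, ∀ l ∈ S, f l ≤ m :=
  ⟨∑ l ∈ S, f l, fun l hl => Finset.single_le_sum (f := f) (fun _ _ => Nat.zero_le _) hl⟩

open Classical in
theorem frames {W : ℕ} {Bd : O → Prop} (h : Ms W Bd) : ∃ y : ℕ, ∀ M : ℕ, 0 < M → W ∣ M →
    (∀ q : ℕ, q.Prime → q ≤ y → q ∣ M) → ∀ c : ℤ × ℤ, ∃ κ : ℝ, 0 < κ ∧ ∃ A₀ : ℕ, ∀ A : ℕ, A₀ ≤ A →
      ∃ Z : Finset ((ℤ × ℤ) × (ℤ × ℤ)), κ * (A : ℝ) ^ 2 ≤ (Z.card : ℝ) ∧ ∀ z ∈ Z,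
        (GA.TA.Qd z.1 ∧ GA.TA.Qd z.2 ∧ dt z.1 z.2 = 1) ∧
        (((A : ℤ) < GA.TA.ll z.1 ∧ GA.TA.ll z.1 ≤ 8 * A) ∧ (A : ℤ) < GA.TA.ll z.2 ∧ GA.TA.ll z.2 ≤ 8 * A) ∧
        (Cg M z.1 (1, c.1) ∧ Cg M z.2 (c.2 + 1, c.1 * c.2 + 1 + c.1)) ∧ Gb Bd M z.1 ∧ Gb Bd M z.2 := by
  obtain ⟨y1, hy1⟩ := tail h (δ := 1 / 48) (by norm_num)
  refine ⟨y1 + 64, fun M hM hWM hMy c => ?_⟩
  have hM0 : (0 : ℝ) < M := by exact_mod_cast hM
  obtain ⟨Y, hY⟩ := big h (ε := 1 / (640 * (M : ℝ) ^ 4)) (by positivity)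
  obtain ⟨M', hM'⟩ : ∃ M' : ℕ, M' = M * Y.factorial := ⟨_, rfl⟩
  have hM'0 : 0 < M' := by
    rw [hM']
    exact Nat.mul_pos hM (Nat.factorial_pos _)
  have hMM' : M ∣ M' := by
    rw [hM']
    exact Dvd.intro _ rfl
  obtain ⟨T₀, hT₀⟩ := hY M' hM'0 (hWM.trans hMM') (fun q hq hqY => by
    rw [hM']
    exact Dvd.dvd.mul_left (Nat.dvd_factorial hq.pos hqY) M)
  -- the bad primes dividing `M'`
  obtain ⟨S, hS⟩ : ∃ S : Finset ℕ, S = (range (M' + 1)).filter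
    (fun l => l.Prime ∧ ¬ l ∣ M ∧ ∃ p : O, Dg M p ∧ (N p).natAbs = l ∧ Bd p) := ⟨_, rfl⟩
  have hSp : ∀ l ∈ S, l.Prime ∧ ¬ l ∣ M := by
    intro l hl
    rw [hS] at hl
    obtain ⟨-, h1, h2, -⟩ := mem_filter.1 hl
    exact ⟨h1, h2⟩
  have hSe : ∀ l ∈ S, ∃ p : O, Dg M p ∧ (N p).natAbs = l ∧ Bd p := by
    intro l hl
    rw [hS] at hl
    exact (mem_filter.1 hl).2.2.2
  choose! P hP using hSe
  have hSm : ∑ l ∈ S, 1 / (l : ℝ) ≤ 1 / 48 := by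
    refine le_trans ?_ (hy1 (M' : ℝ))
    have hinj : ∀ l ∈ S, ∀ l' ∈ S, P l = P l' → l = l' := by
      intro l hl l' hl' he
      rw [← (hP l hl).2.1, ← (hP l' hl').2.1, he]
    have e : ∑ l ∈ S, 1 / (l : ℝ) = ∑ p ∈ S.image P, 1 / (N p : ℝ) := by
      rw [Finset.sum_image hinj]
      refine Finset.sum_congr rfl fun l hl => ?_
      obtain ⟨h1, h2, -⟩ := hP l hl
      have h3 : N (P l) = (l : ℤ) := by
        have := h1.tp.N_pos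
        omega
      rw [h3, Int.cast_natCast]
    rw [e]
    refine Finset.sum_le_sum_of_subset_of_nonneg ?_ ?_
    · intro p hp
      obtain ⟨l, hl, rfl⟩ := mem_image.1 hp
      obtain ⟨h1, h2, h3⟩ := hP l hl
      have hNp := h1.tp.N_pos
      have hlM : l ≤ M' := by
        rw [hS] at hl
        have := mem_range.1 (mem_filter.1 hl).1
        omega
      rw [mem_filter, mem_PP]
      refine ⟨⟨⟨h1.1, h1.2.1, fun hd => h1.2.2 (hd.trans hWM)⟩, ?_⟩, h3, ?_⟩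
      · have h4 : N (P l) = (l : ℤ) := by omega
        rw [h4, Int.cast_natCast]
        exact_mod_cast hlM
      · by_contra h5
        exact h1.2.2 (hMy _ h1.2.1 (by omega))
    · intro p hp _
      have := (mem_PP.1 (mem_filter.1 hp).1).1.tp.N_pos
      positivity
  obtain ⟨A1, hA1⟩ := tot hM (by omega : 64 ≤ y1 + 64) hMy hSp (hSm.trans (by norm_num))
  obtain ⟨n1, hn1⟩ := law_lo M hM
  have hcv : ∀ l ∈ S, ∃ n0 : ℕ, ∀ n : ℕ, n0 ≤ n → n.Coprime (M * l) →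
      ∀ c : ℤ × ℤ, (((Hc n M c).filter (fun x => (l : ℤ) ∣ nm (fv n x))).card : ℝ) ≤ 4 * n.totient / ((M : ℝ) ^ 2 * l) :=
    fun l hl => cnt_v hM (hSp l hl).1 (hSp l hl).2
  have hcw : ∀ l ∈ S, ∃ n0 : ℕ, ∀ n : ℕ, n0 ≤ n → n.Coprime (M * l) →
      ∀ c : ℤ × ℤ, (((Hc n M c).filter (fun x => (l : ℤ) ∣ nm (fw n x))).card : ℝ) ≤ 8 * n.totient / ((M : ℝ) ^ 2 * l) :=
    fun l hl => cnt_w hM (hSp l hl).1 (hSp l hl).2
  choose! n2 hn2 using hcv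
  choose! n3 hn3 using hcw
  obtain ⟨m2, hm2⟩ := Fr_max (S := S) n2
  obtain ⟨m3, hm3⟩ := Fr_max (S := S) n3
  refine ⟨1 / (32 * (M : ℝ) ^ 4), by positivity, A1 + n1 + m2 + m3 + T₀ + 1, fun A hA => ?_⟩
  obtain ⟨I, hI⟩ : ∃ I : Finset ((_ : ℕ) × (ℤ × ℤ)), I = (Nn M S A).sigma (fun n => Hc n M c) := ⟨_, rfl⟩
  have hImem : ∀ i ∈ I, ((A < i.1 ∧ i.1 ≤ 2 * A) ∧ (M : ℤ) ∣ (i.1 : ℤ) - 1 ∧ ∀ l ∈ S, ¬ l ∣ i.1) ∧ i.2 ∈ HH i.1 ∧
      ((M : ℤ) ∣ i.2.1 - c.1 ∧ (M : ℤ) ∣ i.2.2 - c.2) := by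
    intro i hi
    rw [hI, mem_sigma] at hi
    obtain ⟨h1, h2⟩ := hi
    unfold Nn at h1
    unfold Hc at h2
    rw [mem_filter, mem_Ioc] at h1
    rw [mem_filter] at h2
    exact ⟨h1, h2⟩
  have hcopl : ∀ n : ℕ, (M : ℤ) ∣ (n : ℤ) - 1 → (∀ l ∈ S, ¬ l ∣ n) → ∀ l ∈ S, n.Coprime (M * l) := by
    intro n h1 h2 l hl
    refine Nat.Coprime.mul_right (Fr_cop h1) ?_
    exact ((Nat.Prime.coprime_iff_not_dvd (hSp l hl).1).2 (h2 l hl)).symm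
  have hNn : ∀ n ∈ Nn M S A, (A < n ∧ n ≤ 2 * A) ∧ (M : ℤ) ∣ (n : ℤ) - 1 ∧ ∀ l ∈ S, ¬ l ∣ n := by
    intro n hn
    unfold Nn at hn
    rwa [mem_filter, mem_Ioc] at hn
  obtain ⟨Φ, hΦ⟩ : ∃ Φ : ℝ, Φ = ∑ n ∈ Nn M S A, (n.totient : ℝ) := ⟨_, rfl⟩
  have hΦ1 : (A : ℝ) ^ 2 / (4 * (M : ℝ) ^ 2) ≤ Φ := by
    rw [hΦ]
    exact hA1 A (by omega)
  have hIc : Φ / (2 * (M : ℝ) ^ 2) ≤ (I.card : ℝ) := by
    rw [hI, card_sigma, hΦ, Nat.cast_sum, Finset.sum_div]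
    refine Finset.sum_le_sum fun n hn => ?_
    obtain ⟨⟨h1, h2⟩, h3, h4⟩ := hNn n hn
    exact hn1 n (by omega) (Fr_cop h3) c
  -- the bad frames
  obtain ⟨I1, hI1⟩ : ∃ I1 : Finset ((_ : ℕ) × (ℤ × ℤ)), I1 = (Nn M S A).sigma
    (fun n => S.biUnion (fun l => (Hc n M c).filter (fun x => (l : ℤ) ∣ nm (fv n x)))) := ⟨_, rfl⟩
  obtain ⟨I2, hI2⟩ : ∃ I2 : Finset ((_ : ℕ) × (ℤ × ℤ)), I2 = (Nn M S A).sigma
    (fun n => S.biUnion (fun l => (Hc n M c).filter (fun x => (l : ℤ) ∣ nm (fw n x)))) := ⟨_, rfl⟩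
  obtain ⟨I3, hI3⟩ : ∃ I3 : Finset ((_ : ℕ) × (ℤ × ℤ)), I3 = I.filter (fun i => Hb Bd M' (fv i.1 i.2)) := ⟨_, rfl⟩
  obtain ⟨I4, hI4⟩ : ∃ I4 : Finset ((_ : ℕ) × (ℤ × ℤ)), I4 = I.filter (fun i => Hb Bd M' (fw i.1 i.2)) := ⟨_, rfl⟩
  have hI1c : (I1.card : ℝ) ≤ 4 * Φ / (M : ℝ) ^ 2 * (1 / 48) := by
    rw [hI1, card_sigma, Nat.cast_sum]
    have h1 : ∀ n ∈ Nn M S A, (((S.biUnion (fun l => (Hc n M c).filter (fun x => (l : ℤ) ∣ nm (fv n x)))).card : ℕ) : ℝ) ≤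
        4 * n.totient / (M : ℝ) ^ 2 * (1 / 48) := by
      intro n hn
      obtain ⟨⟨h1, h2⟩, h3, h4⟩ := hNn n hn
      have h5 : (((S.biUnion (fun l => (Hc n M c).filter (fun x => (l : ℤ) ∣ nm (fv n x)))).card : ℕ) : ℝ) ≤
          ∑ l ∈ S, (((Hc n M c).filter (fun x => (l : ℤ) ∣ nm (fv n x))).card : ℝ) := by
        exact_mod_cast Finset.card_biUnion_le
      refine h5.trans ((Finset.sum_le_sum fun l hl => hn2 l hl n (by have := hm2 l hl; omega) (hcopl n h3 h4 l hl) c).trans ?_)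
      have e : ∀ l ∈ S, 4 * (n.totient : ℝ) / ((M : ℝ) ^ 2 * l) = 4 * n.totient / (M : ℝ) ^ 2 * (1 / (l : ℝ)) := by
        intro l hl
        have : (l : ℝ) ≠ 0 := by exact_mod_cast (hSp l hl).1.ne_zero
        field_simp
      rw [Finset.sum_congr rfl e, ← Finset.mul_sum]
      exact mul_le_mul_of_nonneg_left hSm (by positivity)
    refine (Finset.sum_le_sum h1).trans (le_of_eq ?_)
    rw [← Finset.sum_mul, ← Finset.sum_div, ← Finset.mul_sum, hΦ]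
  have hI2c : (I2.card : ℝ) ≤ 8 * Φ / (M : ℝ) ^ 2 * (1 / 48) := by
    rw [hI2, card_sigma, Nat.cast_sum]
    have h1 : ∀ n ∈ Nn M S A, (((S.biUnion (fun l => (Hc n M c).filter (fun x => (l : ℤ) ∣ nm (fw n x)))).card : ℕ) : ℝ) ≤
        8 * n.totient / (M : ℝ) ^ 2 * (1 / 48) := by
      intro n hn
      obtain ⟨⟨h1, h2⟩, h3, h4⟩ := hNn n hn
      have h5 : (((S.biUnion (fun l => (Hc n M c).filter (fun x => (l : ℤ) ∣ nm (fw n x)))).card : ℕ) : ℝ) ≤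
          ∑ l ∈ S, (((Hc n M c).filter (fun x => (l : ℤ) ∣ nm (fw n x))).card : ℝ) := by
        exact_mod_cast Finset.card_biUnion_le
      refine h5.trans ((Finset.sum_le_sum fun l hl => hn3 l hl n (by have := hm3 l hl; omega) (hcopl n h3 h4 l hl) c).trans ?_)
      have e : ∀ l ∈ S, 8 * (n.totient : ℝ) / ((M : ℝ) ^ 2 * l) = 8 * n.totient / (M : ℝ) ^ 2 * (1 / (l : ℝ)) := by
        intro l hl
        have : (l : ℝ) ≠ 0 := by exact_mod_cast (hSp l hl).1.ne_zero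
        field_simp
      rw [Finset.sum_congr rfl e, ← Finset.mul_sum]
      exact mul_le_mul_of_nonneg_left hSm (by positivity)
    refine (Finset.sum_le_sum h1).trans (le_of_eq ?_)
    rw [← Finset.sum_mul, ← Finset.sum_div, ← Finset.mul_sum, hΦ]
  have hcopv : ∀ i ∈ I, IsCoprime (fv i.1 i.2).1 (fv i.1 i.2).2 ∧ IsCoprime (fw i.1 i.2).1 (fw i.1 i.2).2 := by
    intro i hi
    have h1 := fr_dt (hImem i hi).2.1
    unfold dt at h1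
    exact ⟨⟨(fw i.1 i.2).2, -(fw i.1 i.2).1, by linarith⟩, ⟨-(fv i.1 i.2).2, (fv i.1 i.2).1, by linarith⟩⟩
  have hBx : ∀ (a b : ℕ), a ≤ b → GA.TA.Bx a ⊆ GA.TA.Bx b := by
    intro a b hab u hu
    unfold GA.TA.Bx at hu ⊢
    rw [mem_product, mem_Icc, mem_Icc] at hu ⊢
    have : (a : ℤ) ≤ b := by exact_mod_cast hab
    exact ⟨⟨hu.1.1, hu.1.2.trans this⟩, hu.2.1, hu.2.2.trans this⟩
  have hI3c : (I3.card : ℝ) ≤ 1 / (640 * (M : ℝ) ^ 4) * ((2 * A : ℕ) : ℝ) ^ 2 := by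
    refine le_trans ?_ (hT₀ (2 * A) (by omega))
    have h1 : I3.card ≤ ((GA.TA.Bx (2 * A)).filter (fun u => IsCoprime u.1 u.2 ∧ Hb Bd M' u)).card := by
      refine Finset.card_le_card_of_injOn (fun i => fv i.1 i.2) ?_ ?_
      · intro i hi
        have hi' := Finset.mem_coe.1 hi
        rw [hI3] at hi'
        obtain ⟨h2, h3⟩ := mem_filter.1 hi'
        obtain ⟨⟨⟨h4, h5⟩, -⟩, h6, -⟩ := hImem i h2
        exact Finset.mem_coe.2 (mem_filter.2 ⟨hBx _ _ h5 (fr_v h6).2.2.2, (hcopv i h2).1, h3⟩)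
      · intro i hi j hj he
        have hi' := Finset.mem_coe.1 hi
        have hj' := Finset.mem_coe.1 hj
        rw [hI3] at hi' hj'
        obtain ⟨e1, e2⟩ := fv_inj (hImem i (mem_filter.1 hi').1).2.1 (hImem j (mem_filter.1 hj').1).2.1 he
        exact Sigma.ext e1 (heq_of_eq e2)
    exact_mod_cast h1
  have hI4c : (I4.card : ℝ) ≤ 1 / (640 * (M : ℝ) ^ 4) * ((4 * A : ℕ) : ℝ) ^ 2 := by
    refine le_trans ?_ (hT₀ (4 * A) (by omega))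
    have h1 : I4.card ≤ ((GA.TA.Bx (4 * A)).filter (fun u => IsCoprime u.1 u.2 ∧ Hb Bd M' u)).card := by
      refine Finset.card_le_card_of_injOn (fun i => fw i.1 i.2) ?_ ?_
      · intro i hi
        have hi' := Finset.mem_coe.1 hi
        rw [hI4] at hi'
        obtain ⟨h2, h3⟩ := mem_filter.1 hi'
        obtain ⟨⟨⟨h4, h5⟩, -⟩, h6, -⟩ := hImem i h2
        exact Finset.mem_coe.2 (mem_filter.2 ⟨hBx _ _ (by omega) (fr_w h6).2.2.2, (hcopv i h2).2, h3⟩)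
      · intro i hi j hj he
        have hi' := Finset.mem_coe.1 hi
        have hj' := Finset.mem_coe.1 hj
        rw [hI4] at hi' hj'
        obtain ⟨e1, e2⟩ := fw_inj (hImem i (mem_filter.1 hi').1).2.1 (hImem j (mem_filter.1 hj').1).2.1 he
        exact Sigma.ext e1 (heq_of_eq e2)
    exact_mod_cast h1
  -- a frame outside these sets is good
  have hsplit : ∀ u : ℤ × ℤ, IsCoprime u.1 u.2 → ¬ Gb Bd M u → Hb Bd M' u ∨ ∃ l ∈ S, (l : ℤ) ∣ nm u := by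
    intro u hu hG
    unfold Gb at hG
    push Not at hG
    obtain ⟨p, hp, hpu, hbd⟩ := hG hu
    have hNp := hp.tp.N_pos
    by_cases h1 : (N p).natAbs ∣ M'
    · right
      refine ⟨(N p).natAbs, ?_, ?_⟩
      · rw [hS, mem_filter, mem_range]
        exact ⟨Nat.lt_succ_of_le (Nat.le_of_dvd hM'0 h1), hp.2.1, hp.2.2, p, hp, rfl, hbd⟩
      · have h2 : (((N p).natAbs : ℕ) : ℤ) = N p := by omega
        rw [h2]
        obtain ⟨w, hw⟩ := hpu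
        have h3 : nm u = N (tO u) := rfl
        rw [h3, hw, N_mul]
        exact Dvd.intro _ rfl
    · left
      exact ⟨p, ⟨hp.1, hp.2.1, h1⟩, hpu, hbd⟩
  obtain ⟨J, hJ⟩ : ∃ J : Finset ((_ : ℕ) × (ℤ × ℤ)), J = I.filter (fun i => Gb Bd M (fv i.1 i.2) ∧ Gb Bd M (fw i.1 i.2)) :=
    ⟨_, rfl⟩
  have hcov : I ⊆ J ∪ ((I1 ∪ I2) ∪ (I3 ∪ I4)) := by
    intro i hi
    obtain ⟨h1, h2⟩ := hcopv i hi
    have hi0 := hi
    rw [hI, mem_sigma] at hi0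
    by_cases hv : Gb Bd M (fv i.1 i.2)
    · by_cases hw : Gb Bd M (fw i.1 i.2)
      · rw [mem_union]
        left
        rw [hJ]
        exact mem_filter.2 ⟨hi, hv, hw⟩
      · rcases hsplit _ h2 hw with h3 | ⟨l, hl, h3⟩
        · simp only [mem_union]
          right; right; right
          rw [hI4]
          exact mem_filter.2 ⟨hi, h3⟩
        · simp only [mem_union]
          right; left; right
          rw [hI2, mem_sigma]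
          exact ⟨hi0.1, mem_biUnion.2 ⟨l, hl, mem_filter.2 ⟨hi0.2, h3⟩⟩⟩
    · rcases hsplit _ h1 hv with h3 | ⟨l, hl, h3⟩
      · simp only [mem_union]
        right; right; left
        rw [hI3]
        exact mem_filter.2 ⟨hi, h3⟩
      · simp only [mem_union]
        right; left; left
        rw [hI1, mem_sigma]
        exact ⟨hi0.1, mem_biUnion.2 ⟨l, hl, mem_filter.2 ⟨hi0.2, h3⟩⟩⟩
  have hcard : (I.card : ℝ) ≤ (J.card : ℝ) + ((I1.card : ℝ) + I2.card + ((I3.card : ℝ) + I4.card)) := by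
    have h1 := (Finset.card_le_card hcov).trans ((Finset.card_union_le _ _).trans (Nat.add_le_add_left
      ((Finset.card_union_le _ _).trans (Nat.add_le_add (Finset.card_union_le _ _) (Finset.card_union_le _ _))) _))
    exact_mod_cast h1
  have hJc : 1 / (32 * (M : ℝ) ^ 4) * (A : ℝ) ^ 2 ≤ (J.card : ℝ) := by
    have h1 : 4 * Φ / (M : ℝ) ^ 2 * (1 / 48) + 8 * Φ / (M : ℝ) ^ 2 * (1 / 48) = Φ / (4 * (M : ℝ) ^ 2) := by
      field_simp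
      ring
    have h2 : Φ / (2 * (M : ℝ) ^ 2) = Φ / (4 * (M : ℝ) ^ 2) + Φ / (4 * (M : ℝ) ^ 2) := by
      field_simp
      ring
    have h3 : (A : ℝ) ^ 2 / (16 * (M : ℝ) ^ 4) ≤ Φ / (4 * (M : ℝ) ^ 2) := by
      rw [le_div_iff₀ (by positivity)]
      have e : (A : ℝ) ^ 2 / (16 * (M : ℝ) ^ 4) * (4 * (M : ℝ) ^ 2) = (A : ℝ) ^ 2 / (4 * (M : ℝ) ^ 2) := by
        field_simp
        ring
      rw [e]
      exact hΦ1
    have h4 : 1 / (640 * (M : ℝ) ^ 4) * ((2 * A : ℕ) : ℝ) ^ 2 + 1 / (640 * (M : ℝ) ^ 4) * ((4 * A : ℕ) : ℝ) ^ 2 =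
        1 / (32 * (M : ℝ) ^ 4) * (A : ℝ) ^ 2 := by
      push_cast
      field_simp
      ring
    have h5 : (A : ℝ) ^ 2 / (16 * (M : ℝ) ^ 4) = 1 / (32 * (M : ℝ) ^ 4) * (A : ℝ) ^ 2 + 1 / (32 * (M : ℝ) ^ 4) * (A : ℝ) ^ 2 := by
      field_simp
      ring
    linarith
  refine ⟨J.image (fun i => (fv i.1 i.2, fw i.1 i.2)), ?_, ?_⟩
  · rw [Finset.card_image_of_injOn]
    · exact hJc
    · intro i hi j hj he
      have hi' := Finset.mem_coe.1 hi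
      have hj' := Finset.mem_coe.1 hj
      rw [hJ] at hi' hj'
      obtain ⟨e1, e2⟩ := fv_inj (hImem i (mem_filter.1 hi').1).2.1 (hImem j (mem_filter.1 hj').1).2.1 (congrArg Prod.fst he)
      exact Sigma.ext e1 (heq_of_eq e2)
  · intro z hz
    obtain ⟨i, hi, rfl⟩ := mem_image.1 hz
    rw [hJ] at hi
    obtain ⟨hi1, hi2, hi3⟩ := mem_filter.1 hi
    obtain ⟨⟨⟨a1, a2⟩, a3, -⟩, a4, a5, a6⟩ := hImem i hi1
    obtain ⟨v1, v2, v3, -⟩ := fr_v a4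
    obtain ⟨w1, w2, w3, -⟩ := fr_w a4
    have a1z : (A : ℤ) < i.1 := by exact_mod_cast a1
    have a2z : (i.1 : ℤ) ≤ 2 * A := by exact_mod_cast a2
    refine ⟨⟨v1, w1, fr_dt a4⟩, ⟨⟨by linarith, by linarith⟩, by linarith, by linarith⟩, ⟨⟨?_, ?_⟩, ?_, ?_⟩, hi2, hi3⟩
    · exact a3
    · exact a5
    · show (M : ℤ) ∣ i.2.2 + i.1 - (c.2 + 1)
      have := dvd_add a6 a3
      have e : i.2.2 - c.2 + ((i.1 : ℤ) - 1) = i.2.2 + i.1 - (c.2 + 1) := by ring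
      rwa [e] at this
    · show (M : ℤ) ∣ (i.2.1 * i.2.2 + 1) / (i.1 : ℤ) + i.2.1 - (c.1 * c.2 + 1 + c.1)
      have ht := Fr_t a4
      generalize (i.2.1 * i.2.2 + 1) / (i.1 : ℤ) = t at ht
      have e : t + i.2.1 - (c.1 * c.2 + 1 + c.1) = (i.2.1 - c.1) * (i.2.2 + 1) + c.1 * (i.2.2 - c.2) - ((i.1 : ℤ) - 1) * t := by
        linear_combination ht
      rw [e]
      exact dvd_sub (dvd_add (Dvd.dvd.mul_right a5 _) (Dvd.dvd.mul_left a6 _)) (Dvd.dvd.mul_right a3 _)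

end Pool.Agent.Lib.MP_d57abb_nt.GV
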