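import Pool.Agent.Lib.MP_d57abb_nt.GA.TS.Big
import Pool.Agent.Lib.MP_d57abb_nt.GT.Defs

/-!
# The values which are divisible by a high power of a prime have small mass

`tc c k` is the number of the frames `(v, w)` with `kk v w = k`, and `ff k = nm v * nm w`; so if `l ^ (2 s)` divides `ff k`
then `l ^ s` divides `nm v` or `nm w`. Each vector is in at most `4 c` frames (`per_v`, `per_w`). For a given `y` the integers
`x` prime to `y` with `l ^ s ∣ nm (x, y)` are in at most two classes modulo `l ^ s` (`High_two`), so their number in `[0, Q]`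
is at most `2 (Q / l ^ s + 1)`.
-/

namespace Pool.Agent.Lib.MP_d57abb_nt.GV

open Finset Pool.Agent.Lib.MP_d57abb_nt Pool.Agent.Lib.MP_d57abb_nt.GA.TA Pool.Agent.Lib.MP_d57abb_nt.GA.TZ
  Pool.Agent.Lib.MP_d57abb_nt.GA.TS

attribute [local instance] GT.lab0

private theorem High_two {l : ℕ} (hl : l.Prime) {s : ℕ} (hs : 2 ≤ s) {x x' y : ℤ} (hc : IsCoprime x y)
    (h : (l : ℤ) ^ s ∣ nm (x, y)) (h' : (l : ℤ) ^ s ∣ nm (x', y)) :
    (l : ℤ) ^ s ∣ x - x' ∨ (l : ℤ) ^ s ∣ x - (-x' - 3 * y) := by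
  have hp : Prime (l : ℤ) := Nat.prime_iff_prime_int.1 hl
  have e : ∀ x : ℤ, nm (x, y) = x ^ 2 + 3 * x * y + y ^ 2 := fun x => rfl
  rw [e] at h h'
  have h1 : (l : ℤ) ∣ x ^ 2 + 3 * x * y + y ^ 2 := (dvd_pow_self _ (by omega)).trans h
  have hy : ¬ (l : ℤ) ∣ y := by
    intro hy
    have h2 : (l : ℤ) ∣ x ^ 2 := by
      have h3 : x ^ 2 = (x ^ 2 + 3 * x * y + y ^ 2) - (3 * x + y) * y := by ring
      rw [h3]
      exact dvd_sub h1 (Dvd.dvd.mul_left hy _)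
    exact hp.not_isUnit (hc.isUnit_of_dvd' (hp.dvd_of_dvd_pow h2) hy)
  have hprod : (l : ℤ) ^ s ∣ (x - x') * (x - (-x' - 3 * y)) := by
    have h3 : (x - x') * (x - (-x' - 3 * y)) = (x ^ 2 + 3 * x * y + y ^ 2) - (x' ^ 2 + 3 * x' * y + y ^ 2) := by ring
    rw [h3]
    exact dvd_sub h h'
  by_cases a1 : (l : ℤ) ∣ x - x'
  · by_cases a2 : (l : ℤ) ∣ x - (-x' - 3 * y)
    · exfalso
      have b1 : (l : ℤ) ∣ 2 * x + 3 * y := by
        have h3 : 2 * x + 3 * y = (x - x') + (x - (-x' - 3 * y)) := by ring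
        rw [h3]
        exact dvd_add a1 a2
      have b2 : (l : ℤ) ∣ 5 * y ^ 2 := by
        have h3 : 5 * y ^ 2 = (2 * x + 3 * y) * (2 * x + 3 * y) - 4 * (x ^ 2 + 3 * x * y + y ^ 2) := by ring
        rw [h3]
        exact dvd_sub (Dvd.dvd.mul_left b1 _) (Dvd.dvd.mul_left h1 _)
      have b3 : (l : ℤ) ∣ 5 := (hp.dvd_or_dvd b2).resolve_right fun h => hy (hp.dvd_of_dvd_pow h)
      have b4 : l = 5 := by
        have h3 : l ∣ 5 := by exact_mod_cast b3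
        exact (Nat.prime_dvd_prime_iff_eq hl (by norm_num)).1 h3
      subst b4
      obtain ⟨m, hm⟩ := b1
      have b5 : (5 : ℤ) ^ 2 ∣ x ^ 2 + 3 * x * y + y ^ 2 := (pow_dvd_pow _ hs).trans (by exact_mod_cast h)
      obtain ⟨n, hn⟩ := b5
      refine hy (hp.dvd_of_dvd_pow (n := 2) ?_)
      refine ⟨m ^ 2 - 4 * n, ?_⟩
      push_cast at hm ⊢
      have h3 : 5 * y ^ 2 = (2 * x + 3 * y) * (2 * x + 3 * y) - 4 * (x ^ 2 + 3 * x * y + y ^ 2) := by ring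
      rw [hm, hn] at h3
      linarith
    · left
      have h3 : IsCoprime ((l : ℤ) ^ s) (x - (-x' - 3 * y)) :=
        ((hp.irreducible.coprime_iff_not_dvd).2 a2).pow_left
      exact h3.dvd_of_dvd_mul_right hprod
  · right
    have h3 : IsCoprime ((l : ℤ) ^ s) (x - x') := ((hp.irreducible.coprime_iff_not_dvd).2 a1).pow_left
    exact h3.dvd_of_dvd_mul_left hprod

open Classical in
private theorem High_ap (L : ℕ) (hL : 0 < L) (Q : ℕ) (a : ℤ) :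
    ((Icc (0 : ℤ) Q).filter (fun x => (L : ℤ) ∣ x - a)).card ≤ Q / L + 1 := by
  have h0 : (0 : ℤ) < L := by exact_mod_cast hL
  have h : ((Icc (0 : ℤ) Q).filter (fun x => (L : ℤ) ∣ x - a)).card ≤ (Icc (0 : ℤ) ((Q / L : ℕ) : ℤ)).card := by
    refine Finset.card_le_card_of_injOn (fun x => x / (L : ℤ)) ?_ ?_
    · intro x hx
      obtain ⟨h1, -⟩ := mem_filter.1 (mem_coe.1 hx)
      obtain ⟨h2, h3⟩ := mem_Icc.1 h1
      refine mem_coe.2 (mem_Icc.2 ⟨Int.ediv_nonneg h2 h0.le, ?_⟩)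
      push_cast
      exact Int.ediv_le_ediv h0 h3
    · intro x hx y hy hxy
      obtain ⟨-, h1⟩ := mem_filter.1 (mem_coe.1 hx)
      obtain ⟨-, h2⟩ := mem_filter.1 (mem_coe.1 hy)
      have hxy' : x / (L : ℤ) = y / (L : ℤ) := hxy
      have h3 : (L : ℤ) ∣ x - y := by
        have e : x - y = (x - a) - (y - a) := by ring
        rw [e]
        exact dvd_sub h1 h2
      have h5 : y % (L : ℤ) = x % (L : ℤ) := (Int.modEq_iff_dvd).2 h3
      have h4 := h5.symm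
      rw [← Int.mul_ediv_add_emod x L, ← Int.mul_ediv_add_emod y L, hxy', h4]
  rw [Int.card_Icc] at h
  obtain ⟨q, hq⟩ : ∃ q, q = Q / L := ⟨_, rfl⟩
  rw [← hq] at h ⊢
  omega

open Classical in
private theorem High_vec {l : ℕ} (hl : l.Prime) {s : ℕ} (hs : 2 ≤ s) (Q : ℕ) :
    ((Bx Q).filter (fun v => IsCoprime v.1 v.2 ∧ (l : ℤ) ^ s ∣ nm v)).card ≤ 2 * (Q / l ^ s + 1) * (Q + 1) := by
  have hL : 0 < l ^ s := Nat.pow_pos hl.pos
  have hcard : (Icc (0 : ℤ) Q).card = Q + 1 := by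
    rw [Int.card_Icc]
    omega
  rw [← hcard]
  refine Finset.card_le_mul_card_image_of_maps_to (f := fun v : ℤ × ℤ => v.2) ?_ _ ?_
  · intro v hv
    obtain ⟨h1, -⟩ := mem_filter.1 hv
    exact (mem_product.1 h1).2
  · intro y _
    rcases Finset.eq_empty_or_nonempty (((Bx Q).filter (fun v => IsCoprime v.1 v.2 ∧ (l : ℤ) ^ s ∣ nm v)).filter
      (fun v => v.2 = y)) with h0 | ⟨v0, hv0⟩
    · rw [h0, card_empty]
      exact Nat.zero_le _
    · obtain ⟨a0, a1⟩ := mem_filter.1 hv0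
      obtain ⟨-, -, a4⟩ := mem_filter.1 a0
      have hle : ((((Bx Q).filter (fun v => IsCoprime v.1 v.2 ∧ (l : ℤ) ^ s ∣ nm v)).filter
          (fun v => v.2 = y))).card ≤ (((Icc (0 : ℤ) Q).filter (fun x => ((l ^ s : ℕ) : ℤ) ∣ x - v0.1)) ∪
            ((Icc (0 : ℤ) Q).filter (fun x => ((l ^ s : ℕ) : ℤ) ∣ x - (-v0.1 - 3 * y)))).card := by
        refine Finset.card_le_card_of_injOn (fun v => v.1) ?_ ?_
        · intro v hv
          obtain ⟨b0, b1⟩ := mem_filter.1 (mem_coe.1 hv)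
          obtain ⟨b2, b3, b4⟩ := mem_filter.1 b0
          have b5 := (mem_product.1 b2).1
          have e1 : v = (v.1, y) := Prod.ext rfl b1
          have e0 : v0 = (v0.1, y) := Prod.ext rfl a1
          rw [e1] at b4
          rw [e0] at a4
          rw [b1] at b3
          have h1 := High_two hl hs b3 b4 a4
          refine mem_coe.2 (mem_union.2 ?_)
          rcases h1 with h1 | h1
          · exact Or.inl (mem_filter.2 ⟨b5, by push_cast; exact h1⟩)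
          · exact Or.inr (mem_filter.2 ⟨b5, by push_cast; exact h1⟩)
        · intro v hv w hw hvw
          obtain ⟨-, b1⟩ := mem_filter.1 (mem_coe.1 hv)
          obtain ⟨-, b2⟩ := mem_filter.1 (mem_coe.1 hw)
          exact Prod.ext hvw (b1.trans b2.symm)
      refine hle.trans ((card_union_le _ _).trans ?_)
      have h1 := High_ap (l ^ s) hL Q v0.1
      have h2 := High_ap (l ^ s) hL Q (-v0.1 - 3 * y)
      omega

open Classical in
private theorem High_side (c : ℝ) (N : ℕ) (Q : ℕ) (hQ : √(5 * c * N) ≤ Q) (P : ℤ × ℤ → Prop) [DecidablePred P]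
    (f : (ℤ × ℤ) × (ℤ × ℤ) → ℤ × ℤ)
    (hq : ∀ x ∈ GG (1 / c) c N, Qd (f x) ∧ IsCoprime (f x).1 (f x).2 ∧ (ll (f x) : ℝ) ^ 2 ≤ 5 * c * N)
    (hf : ∀ v, (((GG (1 / c) c N).filter (fun x => f x = v)).card : ℝ) ≤ 4 * c) :
    (((GG (1 / c) c N).filter (fun x => P (f x))).card : ℝ) ≤
      4 * c * (((Bx Q).filter (fun v => IsCoprime v.1 v.2 ∧ P v)).card : ℝ) := by
  have hmaps : ∀ x ∈ (GG (1 / c) c N).filter (fun x => P (f x)),
      f x ∈ (Bx Q).filter (fun v => IsCoprime v.1 v.2 ∧ P v) := by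
    intro x hx
    rw [mem_filter] at hx
    obtain ⟨h1, h2, h3⟩ := hq x hx.1
    rw [mem_filter]
    refine ⟨?_, h2, hx.2⟩
    have h4 : (ll (f x) : ℝ) ≤ Q := (Real.le_sqrt_of_sq_le h3).trans hQ
    have h5 : ll (f x) ≤ (Q : ℤ) := by exact_mod_cast h4
    obtain ⟨g1, g2, -⟩ := h1
    unfold ll at h5
    unfold Bx
    rw [mem_product, mem_Icc, mem_Icc]
    exact ⟨⟨g1, by linarith⟩, g2, by linarith⟩
  have h1 : (((GG (1 / c) c N).filter (fun x => P (f x))).card : ℝ) =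
      ∑ v ∈ (Bx Q).filter (fun v => IsCoprime v.1 v.2 ∧ P v),
        ((((GG (1 / c) c N).filter (fun x => P (f x))).filter (fun x => f x = v)).card : ℝ) := by
    exact_mod_cast congrArg (fun n : ℕ => (n : ℝ)) (Finset.card_eq_sum_card_fiberwise hmaps)
  rw [h1]
  have h2 : ∀ v ∈ (Bx Q).filter (fun v => IsCoprime v.1 v.2 ∧ P v),
      ((((GG (1 / c) c N).filter (fun x => P (f x))).filter (fun x => f x = v)).card : ℝ) ≤ 4 * c := by
    intro v _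
    refine le_trans ?_ (hf v)
    have h3 : ((GG (1 / c) c N).filter (fun x => P (f x))).filter (fun x => f x = v) ⊆
        (GG (1 / c) c N).filter (fun x => f x = v) := by
      intro x hx
      rw [mem_filter, mem_filter] at hx
      rw [mem_filter]
      exact ⟨hx.1.1, hx.2⟩
    exact_mod_cast Finset.card_le_card h3
  refine (sum_le_sum h2).trans ?_
  rw [sum_const, nsmul_eq_mul, mul_comm]

private theorem High_pow {l : ℕ} (hl : l.Prime) {s m a b : ℕ} (hm : 2 * s ≤ m) (h : l ^ m ∣ a * b) :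
    l ^ s ∣ a ∨ l ^ s ∣ b := by
  obtain ⟨x, y, hx, hy, hxy⟩ := exists_dvd_and_dvd_of_dvd_mul h
  have h1 : x ∣ l ^ m := ⟨y, hxy⟩
  have h2 : y ∣ l ^ m := ⟨x, by rw [mul_comm]; exact hxy⟩
  obtain ⟨i, -, rfl⟩ := (Nat.dvd_prime_pow hl).1 h1
  obtain ⟨j, -, rfl⟩ := (Nat.dvd_prime_pow hl).1 h2
  rw [← pow_add] at hxy
  have h3 := Nat.pow_right_injective hl.two_le hxy
  rcases Nat.lt_or_ge i s with hi | hi
  · exact Or.inr ((pow_dvd_pow l (by omega)).trans hy)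
  · exact Or.inl ((pow_dvd_pow l hi).trans hx)

open Classical in
private theorem High_count {c : ℝ} (hc : 1 ≤ c) {l : ℕ} (hl : l.Prime) {s m : ℕ} (hs : 2 ≤ s) (hm : 2 * s ≤ m) (N : ℕ)
    (hN : 1 ≤ N) : ∑ k ∈ (Icc 1 N).filter (fun k => l ^ m ∣ k ^ 2 + 3 * k + 1), (tc c k : ℝ) ≤
      320 * c ^ 2 * N / (l : ℝ) ^ s * 2 + 16 * c * (4 * √(5 * c * N) + 1) := by
  have hc0 : 0 < c := by linarith
  have hN1 : (1 : ℝ) ≤ N := by exact_mod_cast hN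
  obtain ⟨Q, hQ⟩ : ∃ Q, Q = ⌈√(5 * c * N)⌉₊ := ⟨_, rfl⟩
  have h5 : (1 : ℝ) ≤ 5 * c * N := by nlinarith
  have hs1 : 1 ≤ √(5 * c * N) := by
    rw [Real.one_le_sqrt]
    exact h5
  have hQ1 : √(5 * c * N) ≤ Q := by
    rw [hQ]
    exact Nat.le_ceil _
  have hQ2 : (Q : ℝ) ≤ 2 * √(5 * c * N) := by
    rw [hQ]
    have := Nat.ceil_lt_add_one (Real.sqrt_nonneg (5 * c * N))
    linarith
  have hQsq : (Q : ℝ) ^ 2 ≤ 20 * c * N := by
    calc (Q : ℝ) ^ 2 ≤ (2 * √(5 * c * N)) ^ 2 := pow_le_pow_left₀ (by positivity) hQ2 2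
      _ = 4 * (√(5 * c * N) ^ 2) := by ring
      _ = 4 * (5 * c * N) := by rw [Real.sq_sqrt (by linarith)]
      _ = 20 * c * N := by ring
  have hvec : (((Bx Q).filter (fun v => IsCoprime v.1 v.2 ∧ (l : ℤ) ^ s ∣ nm v)).card : ℝ) ≤
      2 * (2 * (Q : ℝ) ^ 2 / (l : ℝ) ^ s) + 4 * Q + 2 := by
    have h1 : (((Bx Q).filter (fun v => IsCoprime v.1 v.2 ∧ (l : ℤ) ^ s ∣ nm v)).card : ℝ) ≤
        ((2 * (Q / l ^ s + 1) * (Q + 1) : ℕ) : ℝ) := by exact_mod_cast High_vec hl hs Q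
    refine h1.trans ?_
    push_cast
    have h2 : ((Q / l ^ s : ℕ) : ℝ) ≤ (Q : ℝ) / (l : ℝ) ^ s := by
      have := @Nat.cast_div_le ℝ _ _ _ Q (l ^ s)
      push_cast at this
      exact this
    have h3 : (0 : ℝ) ≤ (Q : ℝ) / (l : ℝ) ^ s := by positivity
    have h4 : (1 : ℝ) ≤ Q := hs1.trans hQ1
    have h6 : 2 * (Q : ℝ) ^ 2 / (l : ℝ) ^ s = 2 * Q * ((Q : ℝ) / (l : ℝ) ^ s) := by ring
    rw [h6]
    nlinarith [mul_le_mul_of_nonneg_right h2 (show (0 : ℝ) ≤ (Q : ℝ) + 1 by positivity),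
      mul_nonneg h3 (show (0 : ℝ) ≤ (Q : ℝ) - 1 by linarith)]
  have hA1 := High_side c N Q hQ1 (fun v => (l : ℤ) ^ s ∣ nm v) (fun x => x.1) (fun x hx => by
      obtain ⟨g1, g2, g3, -⟩ := mem_GG.1 hx
      obtain ⟨k1, -, -, -⟩ := geo hc hx
      refine ⟨g1, (cop_of_dt g3).1, k1.trans ?_⟩
      nlinarith) (fun v => per_v hc N v)
  have hA2 := High_side c N Q hQ1 (fun v => (l : ℤ) ^ s ∣ nm v) (fun x => x.2) (fun x hx => by
      obtain ⟨g1, g2, g3, -⟩ := mem_GG.1 hx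
      obtain ⟨-, k1, -, -⟩ := geo hc hx
      exact ⟨g2, (cop_of_dt g3).2, k1⟩) (fun v => per_w hc N v)
  have hcard : (∑ k ∈ (Icc 1 N).filter (fun k => l ^ m ∣ k ^ 2 + 3 * k + 1), (tc c k : ℝ)) =
      (((GG (1 / c) c N).filter (fun x => l ^ m ∣ (kk x.1 x.2).toNat ^ 2 + 3 * (kk x.1 x.2).toNat + 1)).card : ℝ) := by
    rw [← sum_wn (1 / c) c N (fun k => l ^ m ∣ k ^ 2 + 3 * k + 1), Nat.cast_sum]
    refine Finset.sum_congr rfl fun k _ => ?_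
    rw [tc_wn c hc0 k]
  have hsub : (GG (1 / c) c N).filter (fun x => l ^ m ∣ (kk x.1 x.2).toNat ^ 2 + 3 * (kk x.1 x.2).toNat + 1) ⊆
      (GG (1 / c) c N).filter (fun x => (l : ℤ) ^ s ∣ nm x.1) ∪
        (GG (1 / c) c N).filter (fun x => (l : ℤ) ^ s ∣ nm x.2) := by
    intro x hx
    rw [mem_filter] at hx
    rw [mem_union, mem_filter, mem_filter]
    obtain ⟨g1, g2, g3, -⟩ := mem_GG.1 hx.1
    have h1 := kk_nn g1 g2
    obtain ⟨n, hn⟩ := Int.eq_ofNat_of_zero_le h1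
    have h2 : (n ^ 2 + 3 * n + 1 : ℕ) = (nm x.1).natAbs * (nm x.2).natAbs := by
      rw [← Int.natAbs_mul, ← kk_eq g3, hn]
      have h3 : ((n : ℤ) ^ 2 + 3 * n + 1) = ((n ^ 2 + 3 * n + 1 : ℕ) : ℤ) := by
        push_cast
        ring
      rw [h3, Int.natAbs_natCast]
    have h3 := hx.2
    rw [hn, Int.toNat_natCast, h2] at h3
    rcases High_pow hl hm h3 with h4 | h4
    · refine Or.inl ⟨hx.1, ?_⟩
      have h5 : ((l ^ s : ℕ) : ℤ) ∣ nm x.1 := Int.natCast_dvd.2 h4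
      push_cast at h5
      exact h5
    · refine Or.inr ⟨hx.1, ?_⟩
      have h5 : ((l ^ s : ℕ) : ℤ) ∣ nm x.2 := Int.natCast_dvd.2 h4
      push_cast at h5
      exact h5
  have hle : (((GG (1 / c) c N).filter
      (fun x => l ^ m ∣ (kk x.1 x.2).toNat ^ 2 + 3 * (kk x.1 x.2).toNat + 1)).card : ℝ) ≤
      (((GG (1 / c) c N).filter (fun x => (l : ℤ) ^ s ∣ nm x.1)).card : ℝ) +
        (((GG (1 / c) c N).filter (fun x => (l : ℤ) ^ s ∣ nm x.2)).card : ℝ) := by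
    exact_mod_cast (Finset.card_le_card hsub).trans (Finset.card_union_le _ _)
  rw [hcard]
  refine hle.trans ((add_le_add hA1 hA2).trans ?_)
  have hlp : (0 : ℝ) < (l : ℝ) ^ s := pow_pos (by exact_mod_cast hl.pos) s
  have h7 : (Q : ℝ) ^ 2 / (l : ℝ) ^ s ≤ 20 * c * N / (l : ℝ) ^ s := div_le_div_of_nonneg_right hQsq hlp.le
  have h8 : 320 * c ^ 2 * N / (l : ℝ) ^ s * 2 = 32 * c * (20 * c * N / (l : ℝ) ^ s) := by ring
  have h9 : 2 * (2 * (Q : ℝ) ^ 2 / (l : ℝ) ^ s) = 4 * ((Q : ℝ) ^ 2 / (l : ℝ) ^ s) := by ring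
  rw [h9] at hvec
  rw [h8]
  nlinarith [mul_le_mul_of_nonneg_left hvec (show (0 : ℝ) ≤ 8 * c by linarith),
    mul_le_mul_of_nonneg_left h7 (show (0 : ℝ) ≤ 32 * c by linarith),
    mul_le_mul_of_nonneg_left hQ2 (show (0 : ℝ) ≤ 32 * c by linarith)]

private theorem High_nonneg {c : ℝ} (hc : 1 ≤ c) {l : ℕ} (hl : l.Prime) {ε : ℝ} (hε : 0 < ε) :
    ∃ m : ℕ, ∃ K : ℝ, 0 ≤ K ∧ ∀ m' : ℕ, m ≤ m' → ∀ N : ℕ,
      ∑ k ∈ (Icc 1 N).filter (fun k => l ^ m' ∣ k ^ 2 + 3 * k + 1), (tc c k : ℝ) ≤ ε * N + K := by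
  have hc0 : 0 < c := by linarith
  obtain ⟨n, hn⟩ := pow_unbounded_of_one_lt (1280 * c ^ 2 / ε) (show (1 : ℝ) < (l : ℝ) by exact_mod_cast hl.one_lt)
  obtain ⟨s, hs⟩ : ∃ s, s = n + 2 := ⟨_, rfl⟩
  have hl1 : (1 : ℝ) ≤ l := by exact_mod_cast hl.one_lt.le
  have hls : 1280 * c ^ 2 / ε < (l : ℝ) ^ s := hn.trans_le (pow_le_pow_right₀ hl1 (by omega))
  have hlp : (0 : ℝ) < (l : ℝ) ^ s := by positivity
  refine ⟨2 * s, 16 * c + (64 * c) ^ 2 * (5 * c) / (2 * ε), by positivity, fun m' hm' N => ?_⟩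
  rcases Nat.eq_zero_or_pos N with h0 | hN
  · subst h0
    simp only [Finset.Icc_eq_empty (by norm_num : ¬ (1 : ℕ) ≤ 0), Finset.filter_empty,
      Finset.sum_empty, Nat.cast_zero, mul_zero, zero_add]
    positivity
  refine (High_count hc hl (s := s) (by omega) hm' N hN).trans ?_
  have hN0 : (0 : ℝ) ≤ N := Nat.cast_nonneg _
  have h1 : 320 * c ^ 2 * N / (l : ℝ) ^ s * 2 ≤ ε / 2 * N := by
    have h2 : 320 * c ^ 2 * N / (l : ℝ) ^ s * 2 = (640 * c ^ 2 / (l : ℝ) ^ s) * N := by ring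
    rw [h2]
    refine mul_le_mul_of_nonneg_right ?_ hN0
    rw [div_le_iff₀ hlp]
    rw [div_lt_iff₀ hε] at hls
    nlinarith
  have h2 : 64 * c * √(5 * c * N) ≤ ε / 2 * N + (64 * c) ^ 2 * (5 * c) / (2 * ε) := by
    obtain ⟨r, hr⟩ : ∃ r, r = √(5 * c * N) := ⟨_, rfl⟩
    have hr2 : r ^ 2 = 5 * c * N := by
      rw [hr]
      exact Real.sq_sqrt (by positivity)
    rw [← hr]
    have h3 : (N : ℝ) = r ^ 2 / (5 * c) := by
      rw [hr2]
      field_simp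
    rw [h3]
    have h4 : ε / 2 * (r ^ 2 / (5 * c)) + (64 * c) ^ 2 * (5 * c) / (2 * ε) - 64 * c * r =
        (ε * r - 64 * c * (5 * c)) ^ 2 / (2 * ε * (5 * c)) := by
      field_simp
      ring
    have h5 : 0 ≤ (ε * r - 64 * c * (5 * c)) ^ 2 / (2 * ε * (5 * c)) := by positivity
    linarith
  nlinarith

theorem high_nat {c : ℝ} (hc : 1 ≤ c) {l : ℕ} (hl : l.Prime) {ε : ℝ} (hε : 0 < ε) : ∃ m : ℕ, ∀ m' : ℕ, m ≤ m' →
    ∃ K : ℝ, ∀ N : ℕ, ∑ k ∈ (Icc 1 N).filter (fun k => l ^ m' ∣ k ^ 2 + 3 * k + 1), (tc c k : ℝ) ≤ ε * N + K := by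
  obtain ⟨m, K, -, h⟩ := High_nonneg hc hl hε
  exact ⟨m, fun m' hm' => ⟨K, h m' hm'⟩⟩

private theorem High_sum (a : ℕ → ℝ) {ε K : ℝ} (hε : 0 ≤ ε)
    (h : ∀ N : ℕ, ∑ k ∈ Icc 1 N, a k ≤ ε * N + K) {A : ℕ} (hA : 1 ≤ A) (h0 : 0 ≤ ∑ k ∈ Icc 1 A, a k) (n : ℕ) :
    ∑ k ∈ Ioc A (A + n), a k / k ≤ (∑ k ∈ Icc 1 (A + n), a k) / ((A + n : ℕ) : ℝ) +
      ε * (Real.log ((A + n : ℕ) : ℝ) - Real.log A) + K * (1 / (A : ℝ) - 1 / ((A + n : ℕ) : ℝ)) := by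
  have hA0 : (0 : ℝ) < A := by exact_mod_cast hA
  induction n with
  | zero =>
    simp only [add_zero, Finset.Ioc_self, Finset.sum_empty, sub_self, mul_zero]
    positivity
  | succ n ih =>
    obtain ⟨X, hX⟩ : ∃ X, X = A + n := ⟨_, rfl⟩
    have e : A + (n + 1) = X + 1 := by omega
    rw [e]
    rw [← hX] at ih
    have hX0 : (0 : ℝ) < X := by
      have : 1 ≤ X := by omega
      exact_mod_cast this
    have e1 : ∑ k ∈ Ioc A (X + 1), a k / k = ∑ k ∈ Ioc A X, a k / k + a (X + 1) / ((X + 1 : ℕ) : ℝ) := by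
      rw [← Finset.insert_Ioc_right_eq_Ioc_add_one (by omega), Finset.sum_insert (by simp), add_comm]
    have e2 : ∑ k ∈ Icc 1 (X + 1), a k = ∑ k ∈ Icc 1 X, a k + a (X + 1) := by
      rw [Finset.sum_Icc_succ_top (by omega)]
    rw [e1, e2]
    have h1 := h X
    obtain ⟨S, hS⟩ : ∃ S, S = ∑ k ∈ Icc 1 X, a k := ⟨_, rfl⟩
    rw [← hS] at ih h1 ⊢
    have h2 : S / (X : ℝ) - S / ((X + 1 : ℕ) : ℝ) ≤ (ε * X + K) / (X * ((X : ℝ) + 1)) := by
      have h3 : S / (X : ℝ) - S / ((X + 1 : ℕ) : ℝ) = S / (X * ((X : ℝ) + 1)) := by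
        push_cast
        field_simp
        ring
      rw [h3]
      exact div_le_div_of_nonneg_right h1 (by positivity)
    have h3 : (ε * X + K) / (X * ((X : ℝ) + 1)) = ε * (1 / ((X : ℝ) + 1)) + K * (1 / (X : ℝ) - 1 / ((X + 1 : ℕ) : ℝ)) := by
      push_cast
      field_simp
      ring
    have h4 : 1 / ((X : ℝ) + 1) ≤ Real.log ((X + 1 : ℕ) : ℝ) - Real.log X := by
      rw [← Real.log_div (by positivity) hX0.ne']
      have h5 := Real.one_sub_inv_le_log_of_pos (show (0 : ℝ) < ((X + 1 : ℕ) : ℝ) / X by positivity)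
      refine le_trans (le_of_eq ?_) h5
      push_cast
      field_simp
      ring
    have h5 := mul_le_mul_of_nonneg_left h4 hε
    have h6 : (S + a (X + 1)) / ((X + 1 : ℕ) : ℝ) = S / ((X + 1 : ℕ) : ℝ) + a (X + 1) / ((X + 1 : ℕ) : ℝ) := add_div _ _ _
    rw [h6]
    rw [h3] at h2
    linarith

theorem high_win {c : ℝ} (hc : 1 ≤ c) {l : ℕ} (hl : l.Prime) {ε : ℝ} (hε : 0 < ε) : ∃ m : ℕ, ∀ m' : ℕ, m ≤ m' →
    ∃ K : ℝ, ∀ A X : ℕ, 1 ≤ A → A ≤ X →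
      ∑ k ∈ (Ioc A X).filter (fun k => l ^ m' ∣ k ^ 2 + 3 * k + 1), (tc c k : ℝ) / k ≤ ε * Real.log (X / A) + K := by
  obtain ⟨m, K, hK, h⟩ := High_nonneg hc hl hε
  refine ⟨m, fun m' hm' => ⟨ε + 2 * K, fun A X hA hX => ?_⟩⟩
  obtain ⟨a, ha⟩ : ∃ a : ℕ → ℝ, a = fun k => if l ^ m' ∣ k ^ 2 + 3 * k + 1 then (tc c k : ℝ) else 0 := ⟨_, rfl⟩
  have ha0 : ∀ k, 0 ≤ a k := fun k => by
    rw [ha]
    positivity
  have hS : ∀ N : ℕ, ∑ k ∈ Icc 1 N, a k ≤ ε * N + K := fun N => by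
    refine le_trans (le_of_eq ?_) (h m' hm' N)
    rw [ha, Finset.sum_filter]
  obtain ⟨n, rfl⟩ := Nat.exists_eq_add_of_le hX
  have key := High_sum a hε.le hS hA (Finset.sum_nonneg fun k _ => ha0 k) n
  have e1 : ∑ k ∈ (Ioc A (A + n)).filter (fun k => l ^ m' ∣ k ^ 2 + 3 * k + 1), (tc c k : ℝ) / k =
      ∑ k ∈ Ioc A (A + n), a k / k := by
    rw [Finset.sum_filter, ha]
    refine Finset.sum_congr rfl fun k _ => ?_
    show (if l ^ m' ∣ k ^ 2 + 3 * k + 1 then (tc c k : ℝ) / k else 0) =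
      (if l ^ m' ∣ k ^ 2 + 3 * k + 1 then (tc c k : ℝ) else 0) / k
    split_ifs
    · rfl
    · rw [zero_div]
  rw [e1]
  refine key.trans ?_
  have hA0 : (0 : ℝ) < A := by exact_mod_cast hA
  have hA1 : (1 : ℝ) ≤ A := by exact_mod_cast hA
  obtain ⟨X, hX'⟩ : ∃ X, X = A + n := ⟨_, rfl⟩
  rw [← hX']
  have hX1 : (1 : ℝ) ≤ X := by
    have : 1 ≤ X := by omega
    exact_mod_cast this
  have hX0 : (0 : ℝ) < X := by linarith
  rw [Real.log_div hX0.ne' hA0.ne']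
  have h1 : (∑ k ∈ Icc 1 X, a k) / (X : ℝ) ≤ ε + K := by
    rw [div_le_iff₀ hX0]
    have h2 := hS X
    nlinarith
  have h2 : K * (1 / (A : ℝ) - 1 / (X : ℝ)) ≤ K := by
    have h3 : 1 / (A : ℝ) ≤ 1 := by
      rw [div_le_one hA0]
      exact hA1
    have h4 : 0 ≤ 1 / (X : ℝ) := by positivity
    nlinarith
  linarith

end Pool.Agent.Lib.MP_d57abb_nt.GV
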