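import Pool.Agent.Lib.MP_d57abb_nt.GV.PrSq
import Pool.Agent.Lib.MP_d57abb_nt.GV.BigL
import Pool.Agent.Lib.MP_d57abb_nt.GV.High

/-!
# The values which are divisible by the square of a prime larger than `Y` have small mass
-/

namespace Pool.Agent.Lib.MP_d57abb_nt.GV

open Finset Pool.Agent.Lib.MP_d57abb_nt Pool.Agent.Lib.MP_d57abb_nt.GA.TA Pool.Agent.Lib.MP_d57abb_nt.GA.TZ
  Pool.Agent.Lib.MP_d57abb_nt.GA.TS

attribute [local instance] GT.lab0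

private theorem TailS_two {l : ℕ} (hl : l.Prime) {s : ℕ} (hs : 2 ≤ s) {x x' y : ℤ} (hc : IsCoprime x y)
    (h : (l : ℤ) ^ s ∣ nm (x, y)) (h' : (l : ℤ) ^ s ∣ nm (x', y)) :
    (l : ℤ) ^ s ∣ x - x' ∨ (l : ℤ) ^ s ∣ x - (-x' - 3 * y) := by
  have hp : Prime (l : ℤ) := Nat.prime_iff_prime_int.1 hl
  have e : ∀ x : ℤ, nm (x, y) = x ^ 2 + 3 * x * y + y ^ 2 := fun x => rfl
  rw [e] at h h'
  have h1 : (l : ℤ) ∣ x ^ 2 + 3 * x * y + y ^ 2 := (dvd_pow_self _ (by omega)).trans h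
  have hy : ¬ (l : ℤ) ∣ y := by
    intro hy
    have h2 : (l : ℤ) ∣ x ^ 2 := by
      have h3 : x ^ 2 = (x ^ 2 + 3 * x * y + y ^ 2) - (3 * x + y) * y := by ring
      rw [h3]
      exact dvd_sub h1 (Dvd.dvd.mul_left hy _)
    exact hp.not_isUnit (hc.isUnit_of_dvd' (hp.dvd_of_dvd_pow h2) hy)
  have hprod : (l : ℤ) ^ s ∣ (x - x') * (x - (-x' - 3 * y)) := by
    have h3 : (x - x') * (x - (-x' - 3 * y)) = (x ^ 2 + 3 * x * y + y ^ 2) - (x' ^ 2 + 3 * x' * y + y ^ 2) := by ring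
    rw [h3]
    exact dvd_sub h h'
  by_cases a1 : (l : ℤ) ∣ x - x'
  · by_cases a2 : (l : ℤ) ∣ x - (-x' - 3 * y)
    · exfalso
      have b1 : (l : ℤ) ∣ 2 * x + 3 * y := by
        have h3 : 2 * x + 3 * y = (x - x') + (x - (-x' - 3 * y)) := by ring
        rw [h3]
        exact dvd_add a1 a2
      have b2 : (l : ℤ) ∣ 5 * y ^ 2 := by
        have h3 : 5 * y ^ 2 = (2 * x + 3 * y) * (2 * x + 3 * y) - 4 * (x ^ 2 + 3 * x * y + y ^ 2) := by ring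
        rw [h3]
        exact dvd_sub (Dvd.dvd.mul_left b1 _) (Dvd.dvd.mul_left h1 _)
      have b3 : (l : ℤ) ∣ 5 := (hp.dvd_or_dvd b2).resolve_right fun h => hy (hp.dvd_of_dvd_pow h)
      have b4 : l = 5 := by
        have h3 : l ∣ 5 := by exact_mod_cast b3
        exact (Nat.prime_dvd_prime_iff_eq hl (by norm_num)).1 h3
      subst b4
      obtain ⟨m, hm⟩ := b1
      have b5 : (5 : ℤ) ^ 2 ∣ x ^ 2 + 3 * x * y + y ^ 2 := (pow_dvd_pow _ hs).trans (by exact_mod_cast h)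
      obtain ⟨n, hn⟩ := b5
      refine hy (hp.dvd_of_dvd_pow (n := 2) ?_)
      refine ⟨m ^ 2 - 4 * n, ?_⟩
      push_cast at hm ⊢
      have h3 : 5 * y ^ 2 = (2 * x + 3 * y) * (2 * x + 3 * y) - 4 * (x ^ 2 + 3 * x * y + y ^ 2) := by ring
      rw [hm, hn] at h3
      linarith
    · left
      have h3 : IsCoprime ((l : ℤ) ^ s) (x - (-x' - 3 * y)) :=
        ((hp.irreducible.coprime_iff_not_dvd).2 a2).pow_left
      exact h3.dvd_of_dvd_mul_right hprod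
  · right
    have h3 : IsCoprime ((l : ℤ) ^ s) (x - x') := ((hp.irreducible.coprime_iff_not_dvd).2 a1).pow_left
    exact h3.dvd_of_dvd_mul_left hprod

open Classical in
private theorem TailS_ap (L : ℕ) (hL : 0 < L) (Q : ℕ) (a : ℤ) :
    ((Icc (0 : ℤ) Q).filter (fun x => (L : ℤ) ∣ x - a)).card ≤ Q / L + 1 := by
  have h0 : (0 : ℤ) < L := by exact_mod_cast hL
  have h : ((Icc (0 : ℤ) Q).filter (fun x => (L : ℤ) ∣ x - a)).card ≤ (Icc (0 : ℤ) ((Q / L : ℕ) : ℤ)).card := by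
    refine Finset.card_le_card_of_injOn (fun x => x / (L : ℤ)) ?_ ?_
    · intro x hx
      obtain ⟨h1, -⟩ := mem_filter.1 (mem_coe.1 hx)
      obtain ⟨h2, h3⟩ := mem_Icc.1 h1
      refine mem_coe.2 (mem_Icc.2 ⟨Int.ediv_nonneg h2 h0.le, ?_⟩)
      push_cast
      exact Int.ediv_le_ediv h0 h3
    · intro x hx y hy hxy
      obtain ⟨-, h1⟩ := mem_filter.1 (mem_coe.1 hx)
      obtain ⟨-, h2⟩ := mem_filter.1 (mem_coe.1 hy)
      have hxy' : x / (L : ℤ) = y / (L : ℤ) := hxy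
      have h3 : (L : ℤ) ∣ x - y := by
        have e : x - y = (x - a) - (y - a) := by ring
        rw [e]
        exact dvd_sub h1 h2
      have h5 : y % (L : ℤ) = x % (L : ℤ) := (Int.modEq_iff_dvd).2 h3
      have h4 := h5.symm
      rw [← Int.mul_ediv_add_emod x L, ← Int.mul_ediv_add_emod y L, hxy', h4]
  rw [Int.card_Icc] at h
  obtain ⟨q, hq⟩ : ∃ q, q = Q / L := ⟨_, rfl⟩
  rw [← hq] at h ⊢
  omega

open Classical in
private theorem TailS_vec {l : ℕ} (hl : l.Prime) {s : ℕ} (hs : 2 ≤ s) (Q : ℕ) :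
    ((Bx Q).filter (fun v => IsCoprime v.1 v.2 ∧ (l : ℤ) ^ s ∣ nm v)).card ≤ 2 * (Q / l ^ s + 1) * (Q + 1) := by
  have hL : 0 < l ^ s := Nat.pow_pos hl.pos
  have hcard : (Icc (0 : ℤ) Q).card = Q + 1 := by
    rw [Int.card_Icc]
    omega
  rw [← hcard]
  refine Finset.card_le_mul_card_image_of_maps_to (f := fun v : ℤ × ℤ => v.2) ?_ _ ?_
  · intro v hv
    obtain ⟨h1, -⟩ := mem_filter.1 hv
    exact (mem_product.1 h1).2
  · intro y _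
    rcases Finset.eq_empty_or_nonempty (((Bx Q).filter (fun v => IsCoprime v.1 v.2 ∧ (l : ℤ) ^ s ∣ nm v)).filter
      (fun v => v.2 = y)) with h0 | ⟨v0, hv0⟩
    · rw [h0, card_empty]
      exact Nat.zero_le _
    · obtain ⟨a0, a1⟩ := mem_filter.1 hv0
      obtain ⟨-, -, a4⟩ := mem_filter.1 a0
      have hle : ((((Bx Q).filter (fun v => IsCoprime v.1 v.2 ∧ (l : ℤ) ^ s ∣ nm v)).filter
          (fun v => v.2 = y))).card ≤ (((Icc (0 : ℤ) Q).filter (fun x => ((l ^ s : ℕ) : ℤ) ∣ x - v0.1)) ∪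
            ((Icc (0 : ℤ) Q).filter (fun x => ((l ^ s : ℕ) : ℤ) ∣ x - (-v0.1 - 3 * y)))).card := by
        refine Finset.card_le_card_of_injOn (fun v => v.1) ?_ ?_
        · intro v hv
          obtain ⟨b0, b1⟩ := mem_filter.1 (mem_coe.1 hv)
          obtain ⟨b2, b3, b4⟩ := mem_filter.1 b0
          have b5 := (mem_product.1 b2).1
          have e1 : v = (v.1, y) := Prod.ext rfl b1
          have e0 : v0 = (v0.1, y) := Prod.ext rfl a1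
          rw [e1] at b4
          rw [e0] at a4
          rw [b1] at b3
          have h1 := TailS_two hl hs b3 b4 a4
          refine mem_coe.2 (mem_union.2 ?_)
          rcases h1 with h1 | h1
          · exact Or.inl (mem_filter.2 ⟨b5, by push_cast; exact h1⟩)
          · exact Or.inr (mem_filter.2 ⟨b5, by push_cast; exact h1⟩)
        · intro v hv w hw hvw
          obtain ⟨-, b1⟩ := mem_filter.1 (mem_coe.1 hv)
          obtain ⟨-, b2⟩ := mem_filter.1 (mem_coe.1 hw)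
          exact Prod.ext hvw (b1.trans b2.symm)
      refine hle.trans ((card_union_le _ _).trans ?_)
      have h1 := TailS_ap (l ^ s) hL Q v0.1
      have h2 := TailS_ap (l ^ s) hL Q (-v0.1 - 3 * y)
      omega

open Classical in
private theorem TailS_side (c : ℝ) (N : ℕ) (Q : ℕ) (hQ : √(5 * c * N) ≤ Q) (P : ℤ × ℤ → Prop) [DecidablePred P]
    (f : (ℤ × ℤ) × (ℤ × ℤ) → ℤ × ℤ)
    (hq : ∀ x ∈ GG (1 / c) c N, Qd (f x) ∧ IsCoprime (f x).1 (f x).2 ∧ (ll (f x) : ℝ) ^ 2 ≤ 5 * c * N)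
    (hf : ∀ v, (((GG (1 / c) c N).filter (fun x => f x = v)).card : ℝ) ≤ 4 * c) :
    (((GG (1 / c) c N).filter (fun x => P (f x))).card : ℝ) ≤
      4 * c * (((Bx Q).filter (fun v => IsCoprime v.1 v.2 ∧ P v)).card : ℝ) := by
  have hmaps : ∀ x ∈ (GG (1 / c) c N).filter (fun x => P (f x)),
      f x ∈ (Bx Q).filter (fun v => IsCoprime v.1 v.2 ∧ P v) := by
    intro x hx
    rw [mem_filter] at hx
    obtain ⟨h1, h2, h3⟩ := hq x hx.1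
    rw [mem_filter]
    refine ⟨?_, h2, hx.2⟩
    have h4 : (ll (f x) : ℝ) ≤ Q := (Real.le_sqrt_of_sq_le h3).trans hQ
    have h5 : ll (f x) ≤ (Q : ℤ) := by exact_mod_cast h4
    obtain ⟨g1, g2, -⟩ := h1
    unfold ll at h5
    unfold Bx
    rw [mem_product, mem_Icc, mem_Icc]
    exact ⟨⟨g1, by linarith⟩, g2, by linarith⟩
  have h1 : (((GG (1 / c) c N).filter (fun x => P (f x))).card : ℝ) =
      ∑ v ∈ (Bx Q).filter (fun v => IsCoprime v.1 v.2 ∧ P v),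
        ((((GG (1 / c) c N).filter (fun x => P (f x))).filter (fun x => f x = v)).card : ℝ) := by
    exact_mod_cast congrArg (fun n : ℕ => (n : ℝ)) (Finset.card_eq_sum_card_fiberwise hmaps)
  rw [h1]
  have h2 : ∀ v ∈ (Bx Q).filter (fun v => IsCoprime v.1 v.2 ∧ P v),
      ((((GG (1 / c) c N).filter (fun x => P (f x))).filter (fun x => f x = v)).card : ℝ) ≤ 4 * c := by
    intro v _
    refine le_trans ?_ (hf v)
    have h3 : ((GG (1 / c) c N).filter (fun x => P (f x))).filter (fun x => f x = v) ⊆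
        (GG (1 / c) c N).filter (fun x => f x = v) := by
      intro x hx
      rw [mem_filter, mem_filter] at hx
      rw [mem_filter]
      exact ⟨hx.1.1, hx.2⟩
    exact_mod_cast Finset.card_le_card h3
  refine (sum_le_sum h2).trans ?_
  rw [sum_const, nsmul_eq_mul, mul_comm]

private theorem TailS_sum (a : ℕ → ℝ) {ε K : ℝ} (hε : 0 ≤ ε)
    (h : ∀ N : ℕ, ∑ k ∈ Icc 1 N, a k ≤ ε * N + K) {A : ℕ} (hA : 1 ≤ A) (h0 : 0 ≤ ∑ k ∈ Icc 1 A, a k) (n : ℕ) :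
    ∑ k ∈ Ioc A (A + n), a k / k ≤ (∑ k ∈ Icc 1 (A + n), a k) / ((A + n : ℕ) : ℝ) +
      ε * (Real.log ((A + n : ℕ) : ℝ) - Real.log A) + K * (1 / (A : ℝ) - 1 / ((A + n : ℕ) : ℝ)) := by
  have hA0 : (0 : ℝ) < A := by exact_mod_cast hA
  induction n with
  | zero =>
    simp only [add_zero, Finset.Ioc_self, Finset.sum_empty, sub_self, mul_zero]
    positivity
  | succ n ih =>
    obtain ⟨X, hX⟩ : ∃ X, X = A + n := ⟨_, rfl⟩
    have e : A + (n + 1) = X + 1 := by omega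
    rw [e]
    rw [← hX] at ih
    have hX0 : (0 : ℝ) < X := by
      have : 1 ≤ X := by omega
      exact_mod_cast this
    have e1 : ∑ k ∈ Ioc A (X + 1), a k / k = ∑ k ∈ Ioc A X, a k / k + a (X + 1) / ((X + 1 : ℕ) : ℝ) := by
      rw [← Finset.insert_Ioc_right_eq_Ioc_add_one (by omega), Finset.sum_insert (by simp), add_comm]
    have e2 : ∑ k ∈ Icc 1 (X + 1), a k = ∑ k ∈ Icc 1 X, a k + a (X + 1) := by
      rw [Finset.sum_Icc_succ_top (by omega)]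
    rw [e1, e2]
    have h1 := h X
    obtain ⟨S, hS⟩ : ∃ S, S = ∑ k ∈ Icc 1 X, a k := ⟨_, rfl⟩
    rw [← hS] at ih h1 ⊢
    have h2 : S / (X : ℝ) - S / ((X + 1 : ℕ) : ℝ) ≤ (ε * X + K) / (X * ((X : ℝ) + 1)) := by
      have h3 : S / (X : ℝ) - S / ((X + 1 : ℕ) : ℝ) = S / (X * ((X : ℝ) + 1)) := by
        push_cast
        field_simp
        ring
      rw [h3]
      exact div_le_div_of_nonneg_right h1 (by positivity)
    have h3 : (ε * X + K) / (X * ((X : ℝ) + 1)) = ε * (1 / ((X : ℝ) + 1)) + K * (1 / (X : ℝ) - 1 / ((X + 1 : ℕ) : ℝ)) := by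
      push_cast
      field_simp
      ring
    have h4 : 1 / ((X : ℝ) + 1) ≤ Real.log ((X + 1 : ℕ) : ℝ) - Real.log X := by
      rw [← Real.log_div (by positivity) hX0.ne']
      have h5 := Real.one_sub_inv_le_log_of_pos (show (0 : ℝ) < ((X + 1 : ℕ) : ℝ) / X by positivity)
      refine le_trans (le_of_eq ?_) h5
      push_cast
      field_simp
      ring
    have h5 := mul_le_mul_of_nonneg_left h4 hε
    have h6 : (S + a (X + 1)) / ((X + 1 : ℕ) : ℝ) = S / ((X + 1 : ℕ) : ℝ) + a (X + 1) / ((X + 1 : ℕ) : ℝ) := add_div _ _ _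
    rw [h6]
    rw [h3] at h2
    linarith

private theorem TailS_sq {l : ℕ} (hl : l.Prime) {a b : ℕ} (h : l ^ 2 ∣ a * b) :
    l ^ 2 ∣ a ∨ l ^ 2 ∣ b ∨ (l ∣ a ∧ l ∣ b) := by
  obtain ⟨x, y, hx, hy, hxy⟩ := exists_dvd_and_dvd_of_dvd_mul h
  have h1 : x ∣ l ^ 2 := ⟨y, hxy⟩
  have h2 : y ∣ l ^ 2 := ⟨x, by rw [mul_comm]; exact hxy⟩
  obtain ⟨i, hi, rfl⟩ := (Nat.dvd_prime_pow hl).1 h1
  obtain ⟨j, hj, rfl⟩ := (Nat.dvd_prime_pow hl).1 h2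
  rw [← pow_add] at hxy
  have h3 := Nat.pow_right_injective hl.two_le hxy
  have h4 : (2 : ℕ) = i + j := h3
  rcases Nat.lt_or_ge i 1 with h5 | h5
  · right
    left
    have : j = 2 := by omega
    rw [this] at hy
    exact hy
  · rcases Nat.lt_or_ge j 1 with h6 | h6
    · left
      have : i = 2 := by omega
      rw [this] at hx
      exact hx
    · right
      right
      exact ⟨(dvd_pow_self l (by omega)).trans hx, (dvd_pow_self l (by omega)).trans hy⟩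

open Classical in
private theorem TailS_count {C : ℝ} (hC : 0 < C) (hpair : ∀ Q l : ℕ, 1 ≤ Q → l.Prime → l ≠ 5 →
    (((Bx Q ×ˢ Bx Q).filter (fun z => Qd z.1 ∧ Qd z.2 ∧ dt z.1 z.2 = 1 ∧ (l : ℤ) ∣ nm z.1 ∧ (l : ℤ) ∣ nm z.2)).card : ℝ) ≤
      C * ((Q : ℝ) ^ 2 / (l : ℝ) ^ 2 + (l : ℝ) ^ 146 * Q)) {c : ℝ} (hc : 1 ≤ c) {l : ℕ} (hl : l.Prime) (hl5 : l ≠ 5)
    (N : ℕ) (hN : 1 ≤ N) : ∑ k ∈ (Icc 1 N).filter (fun k => l ^ 2 ∣ k ^ 2 + 3 * k + 1), (tc c k : ℝ) ≤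
      (32 * c + C) * (20 * c * N) * (1 / (l : ℝ) ^ 2) + (32 * c + C) * (2 * √(5 * c * N)) * (l : ℝ) ^ 146 := by
  have hc0 : 0 < c := by linarith
  have hN1 : (1 : ℝ) ≤ N := by exact_mod_cast hN
  obtain ⟨Q, hQ⟩ : ∃ Q, Q = ⌈√(5 * c * N)⌉₊ := ⟨_, rfl⟩
  have h5 : (1 : ℝ) ≤ 5 * c * N := by nlinarith
  have hs1 : 1 ≤ √(5 * c * N) := by
    rw [Real.one_le_sqrt]
    exact h5
  have hQ1 : √(5 * c * N) ≤ Q := by
    rw [hQ]
    exact Nat.le_ceil _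
  have hQ2 : (Q : ℝ) ≤ 2 * √(5 * c * N) := by
    rw [hQ]
    have := Nat.ceil_lt_add_one (Real.sqrt_nonneg (5 * c * N))
    linarith
  have hQsq : (Q : ℝ) ^ 2 ≤ 20 * c * N := by
    calc (Q : ℝ) ^ 2 ≤ (2 * √(5 * c * N)) ^ 2 := pow_le_pow_left₀ (by positivity) hQ2 2
      _ = 4 * (√(5 * c * N) ^ 2) := by ring
      _ = 4 * (5 * c * N) := by rw [Real.sq_sqrt (by linarith)]
      _ = 20 * c * N := by ring
  have hQr : (1 : ℝ) ≤ Q := hs1.trans hQ1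
  have hQn : 1 ≤ Q := by exact_mod_cast hQr
  have hl1 : (1 : ℝ) ≤ l := by exact_mod_cast hl.one_lt.le
  have hlp : (0 : ℝ) < (l : ℝ) ^ 2 := by positivity
  have hl146 : (1 : ℝ) ≤ (l : ℝ) ^ 146 := one_le_pow₀ hl1
  have hvec : (((Bx Q).filter (fun v => IsCoprime v.1 v.2 ∧ (l : ℤ) ^ 2 ∣ nm v)).card : ℝ) ≤
      4 * ((Q : ℝ) ^ 2 / (l : ℝ) ^ 2) + 4 * Q := by
    have h1 : (((Bx Q).filter (fun v => IsCoprime v.1 v.2 ∧ (l : ℤ) ^ 2 ∣ nm v)).card : ℝ) ≤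
        ((2 * (Q / l ^ 2 + 1) * (Q + 1) : ℕ) : ℝ) := by exact_mod_cast TailS_vec hl le_rfl Q
    refine h1.trans ?_
    push_cast
    have h2 : ((Q / l ^ 2 : ℕ) : ℝ) ≤ (Q : ℝ) / (l : ℝ) ^ 2 := by
      have := @Nat.cast_div_le ℝ _ _ _ Q (l ^ 2)
      push_cast at this
      exact this
    have h3 : (0 : ℝ) ≤ (Q : ℝ) / (l : ℝ) ^ 2 := by positivity
    have h6 : (Q : ℝ) ^ 2 / (l : ℝ) ^ 2 = Q * ((Q : ℝ) / (l : ℝ) ^ 2) := by ring
    rw [h6]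
    have h7 : (0 : ℝ) ≤ ((Q / l ^ 2 : ℕ) : ℝ) := Nat.cast_nonneg _
    have h8 : 2 * (((Q / l ^ 2 : ℕ) : ℝ) + 1) * ((Q : ℝ) + 1) ≤ 2 * ((Q : ℝ) / (l : ℝ) ^ 2 + 1) * (2 * Q) :=
      mul_le_mul (by linarith) (by linarith) (by linarith) (by linarith)
    refine h8.trans (le_of_eq ?_)
    ring
  have hA1 := TailS_side c N Q hQ1 (fun v => (l : ℤ) ^ 2 ∣ nm v) (fun x => x.1) (fun x hx => by
      obtain ⟨g1, g2, g3, -⟩ := mem_GG.1 hx
      obtain ⟨k1, -, -, -⟩ := geo hc hx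
      refine ⟨g1, (cop_of_dt g3).1, k1.trans ?_⟩
      nlinarith) (fun v => per_v hc N v)
  have hA2 := TailS_side c N Q hQ1 (fun v => (l : ℤ) ^ 2 ∣ nm v) (fun x => x.2) (fun x hx => by
      obtain ⟨g1, g2, g3, -⟩ := mem_GG.1 hx
      obtain ⟨-, k1, -, -⟩ := geo hc hx
      exact ⟨g2, (cop_of_dt g3).2, k1⟩) (fun v => per_w hc N v)
  have hbx : ∀ v : ℤ × ℤ, Qd v → (ll v : ℝ) ^ 2 ≤ 5 * c * N → v ∈ Bx Q := by
    intro v h1 h3
    have h4 : (ll v : ℝ) ≤ Q := (Real.le_sqrt_of_sq_le h3).trans hQ1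
    have h5 : ll v ≤ (Q : ℤ) := by exact_mod_cast h4
    obtain ⟨g1, g2, -⟩ := h1
    unfold ll at h5
    unfold Bx
    rw [mem_product, mem_Icc, mem_Icc]
    exact ⟨⟨g1, by linarith⟩, g2, by linarith⟩
  have hA3 : (((GG (1 / c) c N).filter (fun x => (l : ℤ) ∣ nm x.1 ∧ (l : ℤ) ∣ nm x.2)).card : ℝ) ≤
      C * ((Q : ℝ) ^ 2 / (l : ℝ) ^ 2 + (l : ℝ) ^ 146 * Q) := by
    refine le_trans ?_ (hpair Q l hQn hl hl5)
    have hsub : (GG (1 / c) c N).filter (fun x => (l : ℤ) ∣ nm x.1 ∧ (l : ℤ) ∣ nm x.2) ⊆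
        (Bx Q ×ˢ Bx Q).filter (fun z => Qd z.1 ∧ Qd z.2 ∧ dt z.1 z.2 = 1 ∧ (l : ℤ) ∣ nm z.1 ∧ (l : ℤ) ∣ nm z.2) := by
      intro x hx
      rw [mem_filter] at hx
      obtain ⟨g1, g2, g3, -⟩ := mem_GG.1 hx.1
      obtain ⟨k1, k2, -, -⟩ := geo hc hx.1
      rw [mem_filter, mem_product]
      exact ⟨⟨hbx _ g1 (k1.trans (by nlinarith)), hbx _ g2 k2⟩, g1, g2, g3, hx.2.1, hx.2.2⟩
    exact_mod_cast Finset.card_le_card hsub
  have hcard : (∑ k ∈ (Icc 1 N).filter (fun k => l ^ 2 ∣ k ^ 2 + 3 * k + 1), (tc c k : ℝ)) =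
      (((GG (1 / c) c N).filter (fun x => l ^ 2 ∣ (kk x.1 x.2).toNat ^ 2 + 3 * (kk x.1 x.2).toNat + 1)).card : ℝ) := by
    rw [← sum_wn (1 / c) c N (fun k => l ^ 2 ∣ k ^ 2 + 3 * k + 1), Nat.cast_sum]
    refine Finset.sum_congr rfl fun k _ => ?_
    rw [tc_wn c hc0 k]
  have hsub : (GG (1 / c) c N).filter (fun x => l ^ 2 ∣ (kk x.1 x.2).toNat ^ 2 + 3 * (kk x.1 x.2).toNat + 1) ⊆
      ((GG (1 / c) c N).filter (fun x => (l : ℤ) ^ 2 ∣ nm x.1) ∪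
        (GG (1 / c) c N).filter (fun x => (l : ℤ) ^ 2 ∣ nm x.2)) ∪
        (GG (1 / c) c N).filter (fun x => (l : ℤ) ∣ nm x.1 ∧ (l : ℤ) ∣ nm x.2) := by
    intro x hx
    rw [mem_filter] at hx
    rw [mem_union, mem_union, mem_filter, mem_filter, mem_filter]
    obtain ⟨g1, g2, g3, -⟩ := mem_GG.1 hx.1
    have h1 := kk_nn g1 g2
    obtain ⟨n, hn⟩ := Int.eq_ofNat_of_zero_le h1
    have h2 : (n ^ 2 + 3 * n + 1 : ℕ) = (nm x.1).natAbs * (nm x.2).natAbs := by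
      rw [← Int.natAbs_mul, ← kk_eq g3, hn]
      have h3 : ((n : ℤ) ^ 2 + 3 * n + 1) = ((n ^ 2 + 3 * n + 1 : ℕ) : ℤ) := by
        push_cast
        ring
      rw [h3, Int.natAbs_natCast]
    have h3 := hx.2
    rw [hn, Int.toNat_natCast, h2] at h3
    rcases TailS_sq hl h3 with h4 | h4 | ⟨h4, h4'⟩
    · refine Or.inl (Or.inl ⟨hx.1, ?_⟩)
      have h5 : ((l ^ 2 : ℕ) : ℤ) ∣ nm x.1 := Int.natCast_dvd.2 h4
      push_cast at h5
      exact h5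
    · refine Or.inl (Or.inr ⟨hx.1, ?_⟩)
      have h5 : ((l ^ 2 : ℕ) : ℤ) ∣ nm x.2 := Int.natCast_dvd.2 h4
      push_cast at h5
      exact h5
    · exact Or.inr ⟨hx.1, Int.natCast_dvd.2 h4, Int.natCast_dvd.2 h4'⟩
  have hle : (((GG (1 / c) c N).filter
      (fun x => l ^ 2 ∣ (kk x.1 x.2).toNat ^ 2 + 3 * (kk x.1 x.2).toNat + 1)).card : ℝ) ≤
      (((GG (1 / c) c N).filter (fun x => (l : ℤ) ^ 2 ∣ nm x.1)).card : ℝ) +
        (((GG (1 / c) c N).filter (fun x => (l : ℤ) ^ 2 ∣ nm x.2)).card : ℝ) +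
        (((GG (1 / c) c N).filter (fun x => (l : ℤ) ∣ nm x.1 ∧ (l : ℤ) ∣ nm x.2)).card : ℝ) := by
    have h1 := (Finset.card_le_card hsub).trans ((Finset.card_union_le _ _).trans
      (Nat.add_le_add_right (Finset.card_union_le _ _) _))
    exact_mod_cast h1
  rw [hcard]
  refine hle.trans ((add_le_add (add_le_add hA1 hA2) hA3).trans ?_)
  have h7 : (Q : ℝ) ^ 2 / (l : ℝ) ^ 2 ≤ 20 * c * N * (1 / (l : ℝ) ^ 2) := by
    rw [mul_one_div]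
    exact div_le_div_of_nonneg_right hQsq hlp.le
  have h8 : (Q : ℝ) ≤ (l : ℝ) ^ 146 * Q := by
    have := mul_le_mul_of_nonneg_right hl146 (show (0 : ℝ) ≤ Q by linarith)
    linarith
  have h9 : (l : ℝ) ^ 146 * Q ≤ (l : ℝ) ^ 146 * (2 * √(5 * c * N)) :=
    mul_le_mul_of_nonneg_left hQ2 (by linarith)
  have h10 : 4 * c * (((Bx Q).filter (fun v => IsCoprime v.1 v.2 ∧ (l : ℤ) ^ 2 ∣ nm v)).card : ℝ) ≤
      4 * c * (4 * ((Q : ℝ) ^ 2 / (l : ℝ) ^ 2) + 4 * Q) := mul_le_mul_of_nonneg_left hvec (by linarith)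
  have h11 : 32 * c * ((Q : ℝ) ^ 2 / (l : ℝ) ^ 2) ≤ 32 * c * (20 * c * N * (1 / (l : ℝ) ^ 2)) :=
    mul_le_mul_of_nonneg_left h7 (by linarith)
  have h12 : C * ((Q : ℝ) ^ 2 / (l : ℝ) ^ 2) ≤ C * (20 * c * N * (1 / (l : ℝ) ^ 2)) :=
    mul_le_mul_of_nonneg_left h7 hC.le
  have h13 : 32 * c * (Q : ℝ) ≤ 32 * c * ((l : ℝ) ^ 146 * (2 * √(5 * c * N))) :=
    mul_le_mul_of_nonneg_left (h8.trans h9) (by linarith)
  have h14 : C * ((l : ℝ) ^ 146 * Q) ≤ C * ((l : ℝ) ^ 146 * (2 * √(5 * c * N))) :=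
    mul_le_mul_of_nonneg_left h9 hC.le
  have e1 : (32 * c + C) * (20 * c * N) * (1 / (l : ℝ) ^ 2) + (32 * c + C) * (2 * √(5 * c * N)) * (l : ℝ) ^ 146 =
      32 * c * (20 * c * N * (1 / (l : ℝ) ^ 2)) + C * (20 * c * N * (1 / (l : ℝ) ^ 2)) +
      32 * c * ((l : ℝ) ^ 146 * (2 * √(5 * c * N))) + C * ((l : ℝ) ^ 146 * (2 * √(5 * c * N))) := by ring
  rw [e1]
  linarith

private theorem TailS_inv (Y L : ℕ) (hY : 1 ≤ Y) : ∑ l ∈ (Ioc Y L).filter Nat.Prime, 1 / (l : ℝ) ^ 2 ≤ 1 / (Y : ℝ) := by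
  have h1 : ∑ l ∈ (Ioc Y L).filter Nat.Prime, 1 / (l : ℝ) ^ 2 ≤ ∑ l ∈ Ioc Y L, 1 / (l : ℝ) ^ 2 :=
    Finset.sum_le_sum_of_subset_of_nonneg (Finset.filter_subset _ _) fun i _ _ => by positivity
  refine h1.trans ?_
  rcases Nat.lt_or_ge L Y with h | h
  · rw [Finset.Ioc_eq_empty (by omega), Finset.sum_empty]
    positivity
  · have h2 := sum_Ioc_inv_sq_le_sub (α := ℝ) (k := Y) (n := L) (by omega) h
    have h3 : ∑ l ∈ Ioc Y L, 1 / (l : ℝ) ^ 2 = ∑ i ∈ Ioc Y L, ((i : ℝ) ^ 2)⁻¹ :=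
      Finset.sum_congr rfl fun i _ => one_div _
    rw [h3]
    have h4 : (0 : ℝ) ≤ (L : ℝ)⁻¹ := by positivity
    rw [one_div]
    linarith

private theorem TailS_pow (Y L : ℕ) : ∑ l ∈ (Ioc Y L).filter Nat.Prime, (l : ℝ) ^ 146 ≤ (L : ℝ) ^ 147 := by
  have h1 : ∀ l ∈ (Ioc Y L).filter Nat.Prime, (l : ℝ) ^ 146 ≤ (L : ℝ) ^ 146 := by
    intro l hl
    have h2 := (mem_Ioc.1 (mem_filter.1 hl).1).2
    exact pow_le_pow_left₀ (Nat.cast_nonneg _) (by exact_mod_cast h2) _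
  refine (Finset.sum_le_sum h1).trans ?_
  rw [sum_const, nsmul_eq_mul]
  have h3 : ((Ioc Y L).filter Nat.Prime).card ≤ L := by
    refine (Finset.card_filter_le _ _).trans ?_
    rw [Nat.card_Ioc]
    omega
  have h4 : (((Ioc Y L).filter Nat.Prime).card : ℝ) ≤ L := by exact_mod_cast h3
  calc (((Ioc Y L).filter Nat.Prime).card : ℝ) * (L : ℝ) ^ 146 ≤ L * (L : ℝ) ^ 146 :=
        mul_le_mul_of_nonneg_right h4 (by positivity)
    _ = (L : ℝ) ^ 147 := by ring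

private theorem TailS_young {η : ℝ} (hη : 0 < η) {x : ℝ} (hx : 1 ≤ x) : x ^ ((3 : ℝ) / 4) ≤ η * x + (1 / η) ^ 3 := by
  have hx0 : 0 < x := by linarith
  obtain ⟨y, hy⟩ : ∃ y, y = x ^ ((1 : ℝ) / 4) := ⟨_, rfl⟩
  have hy0 : 0 < y := by rw [hy]; positivity
  have h4 : y ^ 4 = x := by
    rw [hy, ← Real.rpow_natCast, ← Real.rpow_mul hx0.le]
    norm_num
  have h3 : x ^ ((3 : ℝ) / 4) = y ^ 3 := by
    rw [hy, ← Real.rpow_natCast, ← Real.rpow_mul hx0.le]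
    norm_num
  rw [h3, ← h4]
  rcases le_total 1 (η * y) with h | h
  · have h5 : y ^ 3 * 1 ≤ y ^ 3 * (η * y) := mul_le_mul_of_nonneg_left h (by positivity)
    have h6 : (0 : ℝ) ≤ (1 / η) ^ 3 := by positivity
    have h7 : y ^ 3 * (η * y) = η * y ^ 4 := by ring
    linarith
  · have h5 : y ≤ 1 / η := by
      rw [le_div_iff₀ hη, mul_comm]
      exact h
    have h6 : y ^ 3 ≤ (1 / η) ^ 3 := pow_le_pow_left₀ hy0.le h5 3
    have h7 : 0 ≤ η * y ^ 4 := by positivity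
    linarith

private theorem TailS_L {c : ℝ} (hc : 1 ≤ c) {N : ℕ} (hN : 1 ≤ N) {L : ℕ} (hL : (L : ℝ) ≤ (N : ℝ) ^ ((1 : ℝ) / 600)) :
    (2 * √(5 * c * N)) * (L : ℝ) ^ 147 ≤ 2 * √(5 * c) * (N : ℝ) ^ ((3 : ℝ) / 4) := by
  have hN1 : (1 : ℝ) ≤ N := by exact_mod_cast hN
  have hN0 : (0 : ℝ) < N := by linarith
  have h1 : (L : ℝ) ^ 147 ≤ (N : ℝ) ^ ((147 : ℝ) / 600) := by
    calc (L : ℝ) ^ 147 ≤ ((N : ℝ) ^ ((1 : ℝ) / 600)) ^ 147 := pow_le_pow_left₀ (Nat.cast_nonneg _) hL 147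
      _ = (N : ℝ) ^ ((147 : ℝ) / 600) := by
        rw [← Real.rpow_natCast, ← Real.rpow_mul hN0.le]
        norm_num
  have h2 : √(5 * c * N) = √(5 * c) * (N : ℝ) ^ ((1 : ℝ) / 2) := by
    rw [Real.sqrt_mul (by linarith), ← Real.sqrt_eq_rpow (N : ℝ)]
  have h3 : (N : ℝ) ^ ((1 : ℝ) / 2) * (N : ℝ) ^ ((147 : ℝ) / 600) ≤ (N : ℝ) ^ ((3 : ℝ) / 4) := by
    rw [← Real.rpow_add hN0]
    exact Real.rpow_le_rpow_of_exponent_le hN1 (by norm_num)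
  rw [h2]
  have h4 : (0 : ℝ) ≤ √(5 * c) := Real.sqrt_nonneg _
  have h5 : (0 : ℝ) ≤ (N : ℝ) ^ ((1 : ℝ) / 2) := by positivity
  calc 2 * (√(5 * c) * (N : ℝ) ^ ((1 : ℝ) / 2)) * (L : ℝ) ^ 147
      ≤ 2 * (√(5 * c) * (N : ℝ) ^ ((1 : ℝ) / 2)) * (N : ℝ) ^ ((147 : ℝ) / 600) :=
        mul_le_mul_of_nonneg_left h1 (by positivity)
    _ = 2 * √(5 * c) * ((N : ℝ) ^ ((1 : ℝ) / 2) * (N : ℝ) ^ ((147 : ℝ) / 600)) := by ring
    _ ≤ 2 * √(5 * c) * (N : ℝ) ^ ((3 : ℝ) / 4) := mul_le_mul_of_nonneg_left h3 (by positivity)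

open Classical in
theorem tail_nat {c : ℝ} (hc : 1 ≤ c) {ε : ℝ} (hε : 0 < ε) : ∃ Y : ℕ, ∃ K : ℝ, 0 ≤ K ∧ ∀ N : ℕ,
    ∑ k ∈ (Icc 1 N).filter (fun k => ∃ l : ℕ, l.Prime ∧ Y < l ∧ l ^ 2 ∣ k ^ 2 + 3 * k + 1), (tc c k : ℝ) ≤ ε * N + K := by
  obtain ⟨C, hC, hpair⟩ := pairs_sq
  have hc0 : 0 < c := by linarith
  obtain ⟨K1, hK1⟩ := big_l hc (δ := 1 / 600) (ε := ε / 4) (by norm_num) (by positivity)
  obtain ⟨D, hD⟩ : ∃ D, D = 32 * c + C := ⟨_, rfl⟩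
  have hD0 : 0 < D := by rw [hD]; linarith
  obtain ⟨y, hy⟩ := exists_nat_gt (D * (20 * c) * 4 / ε)
  obtain ⟨E, hE⟩ : ∃ E, E = D * (2 * √(5 * c)) := ⟨_, rfl⟩
  have hE0 : 0 < E := by
    rw [hE]
    have : 0 < √(5 * c) := Real.sqrt_pos.2 (by linarith)
    positivity
  have hη : 0 < ε / (4 * E) := by positivity
  refine ⟨max y 5, |K1| + E * (1 / (ε / (4 * E))) ^ 3, by positivity, fun N => ?_⟩
  obtain ⟨Y, hY⟩ : ∃ Y, Y = max y 5 := ⟨_, rfl⟩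
  rw [← hY]
  have hY5 : 5 ≤ Y := by rw [hY]; exact le_max_right _ _
  have hYy : (y : ℝ) ≤ Y := by
    have : y ≤ Y := by rw [hY]; exact le_max_left _ _
    exact_mod_cast this
  rcases Nat.eq_zero_or_pos N with h0 | hN
  · subst h0
    simp only [Finset.Icc_eq_empty (by norm_num : ¬ (1 : ℕ) ≤ 0), Finset.filter_empty,
      Finset.sum_empty, Nat.cast_zero, mul_zero, zero_add]
    positivity
  have hN1 : (1 : ℝ) ≤ N := by exact_mod_cast hN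
  obtain ⟨L, hL⟩ : ∃ L, L = ⌊(N : ℝ) ^ ((1 : ℝ) / 600)⌋₊ := ⟨_, rfl⟩
  have hLle : (L : ℝ) ≤ (N : ℝ) ^ ((1 : ℝ) / 600) := by
    rw [hL]
    exact Nat.floor_le (by positivity)
  -- the union bound
  have hsplit : ∑ k ∈ (Icc 1 N).filter (fun k => ∃ l : ℕ, l.Prime ∧ Y < l ∧ l ^ 2 ∣ k ^ 2 + 3 * k + 1), (tc c k : ℝ) ≤
      ∑ k ∈ (Icc 1 N).filter (fun k => ∃ l : ℕ, l.Prime ∧ (N : ℝ) ^ ((1 : ℝ) / 600) < l ∧ l ^ 2 ∣ k ^ 2 + 3 * k + 1),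
        (tc c k : ℝ) +
      ∑ l ∈ (Ioc Y L).filter Nat.Prime, ∑ k ∈ (Icc 1 N).filter (fun k => l ^ 2 ∣ k ^ 2 + 3 * k + 1), (tc c k : ℝ) := by
    simp only [Finset.sum_filter (s := Icc 1 N)]
    rw [Finset.sum_comm, ← Finset.sum_add_distrib]
    refine Finset.sum_le_sum fun k _ => ?_
    have hk0 : (0 : ℝ) ≤ tc c k := by positivity
    have hpos2 : ∀ l ∈ (Ioc Y L).filter Nat.Prime,
        (0 : ℝ) ≤ (if l ^ 2 ∣ k ^ 2 + 3 * k + 1 then (tc c k : ℝ) else 0) := by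
      intro l _
      split_ifs
      · exact hk0
      · exact le_rfl
    have hpos3 := Finset.sum_nonneg hpos2
    have hpos1 : (0 : ℝ) ≤ (if ∃ l : ℕ, l.Prime ∧ (N : ℝ) ^ ((1 : ℝ) / 600) < l ∧ l ^ 2 ∣ k ^ 2 + 3 * k + 1
        then (tc c k : ℝ) else 0) := by
      split_ifs
      · exact hk0
      · exact le_rfl
    by_cases hP : ∃ l : ℕ, l.Prime ∧ Y < l ∧ l ^ 2 ∣ k ^ 2 + 3 * k + 1
    · rw [if_pos hP]
      obtain ⟨l, hl, hYl, hlk⟩ := hP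
      by_cases hb : (N : ℝ) ^ ((1 : ℝ) / 600) < l
      · rw [if_pos ⟨l, hl, hb, hlk⟩]
        linarith
      · have hmem : l ∈ (Ioc Y L).filter Nat.Prime := by
          rw [mem_filter, mem_Ioc]
          refine ⟨⟨hYl, ?_⟩, hl⟩
          rw [hL]
          exact Nat.le_floor (not_lt.1 hb)
        have h1 := Finset.single_le_sum hpos2 hmem
        have h2 : (if l ^ 2 ∣ k ^ 2 + 3 * k + 1 then (tc c k : ℝ) else 0) = tc c k := if_pos hlk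
        rw [h2] at h1
        linarith
    · rw [if_neg hP]
      linarith
  have hbig := hK1 N
  have hsmall : ∑ l ∈ (Ioc Y L).filter Nat.Prime,
      ∑ k ∈ (Icc 1 N).filter (fun k => l ^ 2 ∣ k ^ 2 + 3 * k + 1), (tc c k : ℝ) ≤
      D * (20 * c * N) * (1 / Y) + D * (2 * √(5 * c * N)) * (L : ℝ) ^ 147 := by
    have h1 : ∀ l ∈ (Ioc Y L).filter Nat.Prime,
        ∑ k ∈ (Icc 1 N).filter (fun k => l ^ 2 ∣ k ^ 2 + 3 * k + 1), (tc c k : ℝ) ≤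
        D * (20 * c * N) * (1 / (l : ℝ) ^ 2) + D * (2 * √(5 * c * N)) * (l : ℝ) ^ 146 := by
      intro l hl
      obtain ⟨h2, h3⟩ := mem_filter.1 hl
      have h4 := (mem_Ioc.1 h2).1
      rw [hD]
      exact TailS_count hC hpair hc h3 (by omega) N hN
    refine (Finset.sum_le_sum h1).trans ?_
    rw [Finset.sum_add_distrib, ← Finset.mul_sum, ← Finset.mul_sum]
    refine add_le_add ?_ ?_
    · exact mul_le_mul_of_nonneg_left (TailS_inv Y L (by omega)) (by positivity)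
    · exact mul_le_mul_of_nonneg_left (TailS_pow Y L) (by positivity)
  have hA : D * (20 * c * N) * (1 / Y) ≤ ε / 4 * N := by
    have hY0 : (0 : ℝ) < Y := by
      have : 0 < Y := by omega
      exact_mod_cast this
    have h1 : D * (20 * c) * 4 / ε < Y := hy.trans_le hYy
    rw [div_lt_iff₀ hε] at h1
    rw [mul_one_div, div_le_iff₀ hY0]
    have hN0 : (0 : ℝ) ≤ N := by linarith
    nlinarith
  have hB : D * (2 * √(5 * c * N)) * (L : ℝ) ^ 147 ≤ ε / 4 * N + E * (1 / (ε / (4 * E))) ^ 3 := by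
    have h1 := TailS_L hc hN hLle
    have h2 := TailS_young hη hN1
    have h3 : D * (2 * √(5 * c * N)) * (L : ℝ) ^ 147 ≤ E * (N : ℝ) ^ ((3 : ℝ) / 4) := by
      have h4 := mul_le_mul_of_nonneg_left h1 hD0.le
      rw [hE]
      calc D * (2 * √(5 * c * N)) * (L : ℝ) ^ 147 = D * (2 * √(5 * c * N) * (L : ℝ) ^ 147) := by ring
        _ ≤ D * (2 * √(5 * c) * (N : ℝ) ^ ((3 : ℝ) / 4)) := h4
        _ = D * (2 * √(5 * c)) * (N : ℝ) ^ ((3 : ℝ) / 4) := by ring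
    have h5 := mul_le_mul_of_nonneg_left h2 hE0.le
    have h6 : E * (ε / (4 * E) * N + (1 / (ε / (4 * E))) ^ 3) = ε / 4 * N + E * (1 / (ε / (4 * E))) ^ 3 := by
      rw [mul_add]
      congr 1
      field_simp
    rw [h6] at h5
    exact h3.trans h5
  have hK : K1 ≤ |K1| := le_abs_self _
  have hNε : 0 ≤ ε / 4 * N := by positivity
  have hfin := add_le_add hbig hsmall
  refine hsplit.trans (hfin.trans ?_)
  linarith

open Classical in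
theorem tail_win {c : ℝ} (hc : 1 ≤ c) {ε : ℝ} (hε : 0 < ε) : ∃ Y : ℕ, ∃ K : ℝ, 0 ≤ K ∧ ∀ A X : ℕ, 1 ≤ A → A ≤ X →
    ∑ k ∈ (Ioc A X).filter (fun k => ∃ l : ℕ, l.Prime ∧ Y < l ∧ l ^ 2 ∣ k ^ 2 + 3 * k + 1), (tc c k : ℝ) / k ≤
      ε * Real.log (X / A) + K := by
  obtain ⟨Y, K, hK, h⟩ := tail_nat hc hε
  refine ⟨Y, ε + 2 * K, by positivity, fun A X hA hX => ?_⟩
  obtain ⟨a, ha⟩ : ∃ a : ℕ → ℝ, a = fun k => if (∃ l : ℕ, l.Prime ∧ Y < l ∧ l ^ 2 ∣ k ^ 2 + 3 * k + 1) then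
    (tc c k : ℝ) else 0 := ⟨_, rfl⟩
  have ha0 : ∀ k, 0 ≤ a k := fun k => by
    rw [ha]
    show (0 : ℝ) ≤ if (∃ l : ℕ, l.Prime ∧ Y < l ∧ l ^ 2 ∣ k ^ 2 + 3 * k + 1) then (tc c k : ℝ) else 0
    split_ifs
    · positivity
    · exact le_rfl
  have hS : ∀ N : ℕ, ∑ k ∈ Icc 1 N, a k ≤ ε * N + K := fun N => by
    refine le_trans (le_of_eq ?_) (h N)
    rw [ha, Finset.sum_filter]
  obtain ⟨n, rfl⟩ := Nat.exists_eq_add_of_le hX
  have key := TailS_sum a hε.le hS hA (Finset.sum_nonneg fun k _ => ha0 k) n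
  have e1 : ∑ k ∈ (Ioc A (A + n)).filter (fun k => ∃ l : ℕ, l.Prime ∧ Y < l ∧ l ^ 2 ∣ k ^ 2 + 3 * k + 1),
      (tc c k : ℝ) / k = ∑ k ∈ Ioc A (A + n), a k / k := by
    rw [Finset.sum_filter, ha]
    refine Finset.sum_congr rfl fun k _ => ?_
    show (if (∃ l : ℕ, l.Prime ∧ Y < l ∧ l ^ 2 ∣ k ^ 2 + 3 * k + 1) then (tc c k : ℝ) / k else 0) =
      (if (∃ l : ℕ, l.Prime ∧ Y < l ∧ l ^ 2 ∣ k ^ 2 + 3 * k + 1) then (tc c k : ℝ) else 0) / k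
    split_ifs
    · rfl
    · rw [zero_div]
  rw [e1]
  refine key.trans ?_
  have hA0 : (0 : ℝ) < A := by exact_mod_cast hA
  have hA1 : (1 : ℝ) ≤ A := by exact_mod_cast hA
  obtain ⟨X, hX'⟩ : ∃ X, X = A + n := ⟨_, rfl⟩
  rw [← hX']
  have hX1 : (1 : ℝ) ≤ X := by
    have : 1 ≤ X := by omega
    exact_mod_cast this
  have hX0 : (0 : ℝ) < X := by linarith
  rw [Real.log_div hX0.ne' hA0.ne']
  have h1 : (∑ k ∈ Icc 1 X, a k) / (X : ℝ) ≤ ε + K := by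
    rw [div_le_iff₀ hX0]
    have h2 := hS X
    nlinarith
  have h2 : K * (1 / (A : ℝ) - 1 / (X : ℝ)) ≤ K := by
    have h3 : 1 / (A : ℝ) ≤ 1 := by
      rw [div_le_one hA0]
      exact hA1
    have h4 : 0 ≤ 1 / (X : ℝ) := by positivity
    nlinarith
  linarith

end Pool.Agent.Lib.MP_d57abb_nt.GV
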