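import Pool.Agent.Lib.MP_d57abb_nt.GV.Tot

/-!
# The sum of the totients over a sieved residue class, the right order in the modulus
-/

namespace Pool.Agent.Lib.MP_d57abb_nt.GV

open Finset

private theorem TotB_prod (s : Finset ℕ) (f : ℕ → ℝ) (h0 : ∀ i ∈ s, 0 ≤ f i) (h1 : ∀ i ∈ s, f i ≤ 1) :
    1 - ∑ i ∈ s, f i ≤ ∏ i ∈ s, (1 - f i) ∧ ∏ i ∈ s, (1 - f i) ≤ 1 := by
  classical
  induction s using Finset.induction_on with
  | empty => simp
  | insert a s ha ih =>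
    obtain ⟨h2, h3⟩ := ih (fun i hi => h0 i (mem_insert_of_mem hi)) (fun i hi => h1 i (mem_insert_of_mem hi))
    have h4 := h0 a (mem_insert_self a s)
    have h5 := h1 a (mem_insert_self a s)
    have h6 : 0 ≤ ∏ i ∈ s, (1 - f i) := prod_nonneg fun i hi => sub_nonneg.2 (h1 i (mem_insert_of_mem hi))
    rw [sum_insert ha, prod_insert ha]
    constructor <;> nlinarith

private theorem TotB_phi {n : ℕ} (hn : 0 < n) :
    (n : ℝ) - n * ∑ p ∈ n.primeFactors, 1 / (p : ℝ) ≤ (n.totient : ℝ) := by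
  have h1 := Nat.totient_eq_mul_prod_factors n
  have h2 : ((n.totient : ℚ) : ℝ) = ((n * ∏ p ∈ n.primeFactors, (1 - (p : ℚ)⁻¹) : ℚ) : ℝ) := by rw [h1]
  push_cast at h2
  have h3 := (TotB_prod n.primeFactors (fun p => 1 / (p : ℝ)) (fun p _ => by positivity) (fun p hp => by
    have h4 := (Nat.prime_of_mem_primeFactors hp).one_lt.le
    have h5 : (1 : ℝ) ≤ p := by exact_mod_cast h4
    rw [div_le_one (by linarith)]
    exact h5)).1
  have hn0 : (0 : ℝ) < n := by exact_mod_cast hn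
  have h4 : ∏ p ∈ n.primeFactors, (1 - (p : ℝ)⁻¹) = ∏ p ∈ n.primeFactors, (1 - 1 / (p : ℝ)) :=
    prod_congr rfl fun p _ => by rw [one_div]
  rw [h2, h4]
  have h5 := mul_le_mul_of_nonneg_left h3 hn0.le
  linarith

/-- the numbers of `(A, 2 A]` in a class modulo `Q` -/
private theorem TotB_ap {A Q : ℕ} (hQ : 0 < Q) (T : Finset ℕ) (h1 : ∀ n ∈ T, A < n ∧ n ≤ 2 * A)
    (h2 : ∀ n ∈ T, ∀ n' ∈ T, (Q : ℤ) ∣ (n : ℤ) - n') : (T.card : ℝ) ≤ A / Q + 1 := by
  have h3 : T.card ≤ (range (A / Q + 1)).card := by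
    refine card_le_card_of_injOn (fun n => (n - A - 1) / Q) ?_ ?_
    · intro n hn
      have hn' := h1 n (mem_coe.1 hn)
      rw [mem_coe, mem_range]
      exact Nat.lt_succ_of_le (Nat.div_le_div_right (by omega))
    · intro n hn n' hn' he
      have k1 := h1 n (mem_coe.1 hn)
      have k2 := h1 n' (mem_coe.1 hn')
      have k3 := h2 n (mem_coe.1 hn) n' (mem_coe.1 hn')
      have he' : (n - A - 1) / Q = (n' - A - 1) / Q := he
      have h3 : (n - A - 1) % Q = (n' - A - 1) % Q := by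
        have h4 : ((n' - A - 1 : ℕ) : ℤ) ≡ ((n - A - 1 : ℕ) : ℤ) [ZMOD Q] := by
          refine Int.modEq_iff_dvd.2 ?_
          have e : ((n - A - 1 : ℕ) : ℤ) - ((n' - A - 1 : ℕ) : ℤ) = (n : ℤ) - n' := by omega
          rw [e]
          exact k3
        exact ((Int.natCast_modEq_iff).1 h4).symm
      have h5 : n - A - 1 = n' - A - 1 := by
        rw [← Nat.div_add_mod (n - A - 1) Q, ← Nat.div_add_mod (n' - A - 1) Q, he', h3]
      omega
  rw [card_range] at h3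
  have h4 : ((A / Q + 1 : ℕ) : ℝ) ≤ A / Q + 1 := by
    push_cast
    have := Nat.cast_div_le (α := ℝ) (m := A) (n := Q)
    linarith
  exact le_trans (by exact_mod_cast h3) h4

/-- there are enough of them -/
private theorem TotB_lo {A M : ℕ} (hM : 0 < M) :
    (A : ℝ) / M - 2 ≤ (((Ioc A (2 * A)).filter (fun n : ℕ => (M : ℤ) ∣ (n : ℤ) - 1)).card : ℝ) := by
  obtain ⟨t, ht⟩ : ∃ t : ℕ, t = A / M := ⟨_, rfl⟩
  have h3 : A < M * (t + 1) := by
    rw [ht]
    exact Nat.lt_mul_div_succ A hM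
  have h4 : M * t ≤ A := by
    rw [ht]
    exact Nat.mul_div_le A M
  have h1 : (range (t - 1)).card ≤ ((Ioc A (2 * A)).filter (fun n : ℕ => (M : ℤ) ∣ (n : ℤ) - 1)).card := by
    refine card_le_card_of_injOn (fun i => 1 + M * (t + 1 + i)) ?_ ?_
    · intro i hi
      rw [mem_coe, mem_range] at hi
      rw [mem_coe, mem_filter, mem_Ioc]
      refine ⟨⟨?_, ?_⟩, ?_⟩
      · show A < 1 + M * (t + 1 + i)
        have : M * (t + 1) ≤ M * (t + 1 + i) := Nat.mul_le_mul_left M (by omega)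
        omega
      · show 1 + M * (t + 1 + i) ≤ 2 * A
        have h5 : M * (t + 1 + i) ≤ M * (2 * t - 1) := Nat.mul_le_mul_left M (by omega)
        have h6 : M * (2 * t - 1) + M = 2 * (M * t) := by
          have : 2 * t - 1 + 1 = 2 * t := by omega
          calc M * (2 * t - 1) + M = M * (2 * t - 1 + 1) := by ring
            _ = 2 * (M * t) := by rw [this]; ring
        omega
      · refine ⟨t + 1 + i, ?_⟩
        push_cast
        ring
    · intro i _ j _ he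
      have he' : 1 + M * (t + 1 + i) = 1 + M * (t + 1 + j) := he
      have h5 : M * (t + 1 + i) = M * (t + 1 + j) := by omega
      have h6 := Nat.eq_of_mul_eq_mul_left hM h5
      omega
  rw [card_range] at h1
  have h5 : (A : ℝ) < M * (t + 1) := by exact_mod_cast h3
  have hM0 : (0 : ℝ) < M := by exact_mod_cast hM
  have h6 : (A : ℝ) / M < t + 1 := by
    rw [div_lt_iff₀ hM0]
    linarith
  have h7 : (t : ℝ) - 1 ≤ ((t - 1 : ℕ) : ℝ) := by
    have : t ≤ (t - 1) + 1 := by omega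
    have h8 : (t : ℝ) ≤ ((t - 1 : ℕ) : ℝ) + 1 := by exact_mod_cast this
    linarith
  have h8 : ((t - 1 : ℕ) : ℝ) ≤ (((Ioc A (2 * A)).filter (fun n : ℕ => (M : ℤ) ∣ (n : ℤ) - 1)).card : ℝ) := by exact_mod_cast h1
  linarith

/-- the sum of the reciprocals of the prime factors -/
private theorem TotB_rec {M y A : ℕ} (hM : 0 < M) (hy : 64 ≤ y) (hA : y ≤ 2 * A)
    (hMy : ∀ q : ℕ, q.Prime → q ≤ y → q ∣ M) :
    ∑ n ∈ (Ioc A (2 * A)).filter (fun n : ℕ => (M : ℤ) ∣ (n : ℤ) - 1), ∑ p ∈ n.primeFactors, 1 / (p : ℝ) ≤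
      A / (M * 64) + (1 + Real.log (2 * A)) := by
  classical
  have hM0 : (0 : ℝ) < M := by exact_mod_cast hM
  have hyr : (64 : ℝ) ≤ y := by exact_mod_cast hy
  have hy0 : y ≠ 0 := by omega
  have hA0 : (0 : ℝ) ≤ A := Nat.cast_nonneg _
  obtain ⟨N, hN⟩ : ∃ N : Finset ℕ, N = (Ioc A (2 * A)).filter (fun n : ℕ => (M : ℤ) ∣ (n : ℤ) - 1) := ⟨_, rfl⟩
  rw [← hN]
  obtain ⟨P, hP⟩ : ∃ P : Finset ℕ, P = (Ioc y (2 * A)).filter (fun p => p.Prime ∧ ¬ p ∣ M) := ⟨_, rfl⟩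
  have h1 : ∀ n ∈ N, ∑ p ∈ n.primeFactors, 1 / (p : ℝ) = ∑ p ∈ P, if p ∣ n then 1 / (p : ℝ) else 0 := by
    intro n hn
    rw [hN, mem_filter, mem_Ioc] at hn
    obtain ⟨⟨a1, a2⟩, a3⟩ := hn
    rw [← sum_filter]
    refine sum_congr ?_ fun _ _ => rfl
    ext p
    rw [mem_filter, hP, mem_filter, mem_Ioc, Nat.mem_primeFactors]
    constructor
    · rintro ⟨b1, b2, b3⟩
      have hpM : ¬ p ∣ M := by
        intro h
        have h2 : (p : ℤ) ∣ (n : ℤ) - 1 := (Int.natCast_dvd_natCast.2 h).trans a3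
        have h3 : (p : ℤ) ∣ (n : ℤ) := Int.natCast_dvd_natCast.2 b2
        have h4 := dvd_sub h3 h2
        have e : (n : ℤ) - ((n : ℤ) - 1) = 1 := by ring
        rw [e] at h4
        have h5 : p ∣ 1 := by exact_mod_cast h4
        exact b1.one_lt.ne' (Nat.dvd_one.1 h5)
      refine ⟨⟨⟨?_, ?_⟩, b1, hpM⟩, b2⟩
      · by_contra h
        exact hpM (hMy p b1 (not_lt.1 h))
      · exact (Nat.le_of_dvd (by omega) b2).trans a2
    · rintro ⟨⟨-, b1, -⟩, b2⟩
      exact ⟨b1, b2, by omega⟩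
  rw [sum_congr rfl h1, sum_comm]
  have h2 : ∀ p ∈ P, (∑ n ∈ N, if p ∣ n then 1 / (p : ℝ) else 0) ≤ A / M * ((p : ℝ) ^ 2)⁻¹ + (p : ℝ)⁻¹ := by
    intro p hp
    rw [hP, mem_filter, mem_Ioc] at hp
    obtain ⟨-, b1, b2⟩ := hp
    have hp0 : (0 : ℝ) < p := by exact_mod_cast b1.pos
    rw [← sum_filter, sum_const, nsmul_eq_mul]
    have hcop : IsCoprime (M : ℤ) (p : ℤ) := by
      rw [Nat.isCoprime_iff_coprime]
      exact ((Nat.Prime.coprime_iff_not_dvd b1).2 b2).symm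
    have h3 := TotB_ap (A := A) (Q := M * p) (Nat.mul_pos hM b1.pos) (N.filter (fun n => p ∣ n)) (fun n hn => by
      obtain ⟨h4, -⟩ := mem_filter.1 hn
      rw [hN, mem_filter, mem_Ioc] at h4
      exact h4.1) (fun n hn n' hn' => by
      obtain ⟨h4, h5⟩ := mem_filter.1 hn
      obtain ⟨h4', h5'⟩ := mem_filter.1 hn'
      rw [hN, mem_filter] at h4 h4'
      push_cast
      refine hcop.mul_dvd ?_ (dvd_sub (Int.natCast_dvd_natCast.2 h5) (Int.natCast_dvd_natCast.2 h5'))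
      have := dvd_sub h4.2 h4'.2
      have e : (n : ℤ) - 1 - ((n' : ℤ) - 1) = (n : ℤ) - n' := by ring
      rwa [e] at this)
    push_cast at h3
    calc ((N.filter (fun n => p ∣ n)).card : ℝ) * (1 / (p : ℝ)) ≤ ((A : ℝ) / (M * p) + 1) * (1 / (p : ℝ)) :=
          mul_le_mul_of_nonneg_right h3 (by positivity)
      _ = A / M * ((p : ℝ) ^ 2)⁻¹ + (p : ℝ)⁻¹ := by
        field_simp
  refine (sum_le_sum h2).trans ?_
  rw [sum_add_distrib, ← mul_sum]
  refine add_le_add ?_ ?_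
  · have h3 : ∑ p ∈ P, ((p : ℝ) ^ 2)⁻¹ ≤ (y : ℝ)⁻¹ := by
      have h4 : ∑ p ∈ P, ((p : ℝ) ^ 2)⁻¹ ≤ ∑ p ∈ Ioc y (2 * A), ((p : ℝ) ^ 2)⁻¹ := by
        refine sum_le_sum_of_subset_of_nonneg ?_ fun _ _ _ => by positivity
        rw [hP]
        exact filter_subset _ _
      have h5 := sum_Ioc_inv_sq_le_sub (α := ℝ) hy0 hA
      have h6 : (0 : ℝ) ≤ (((2 * A : ℕ) : ℝ))⁻¹ := by positivity
      linarith
    have h4 : (y : ℝ)⁻¹ ≤ 1 / 64 := by
      rw [← one_div]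
      exact one_div_le_one_div_of_le (by norm_num) hyr
    calc (A : ℝ) / M * ∑ p ∈ P, ((p : ℝ) ^ 2)⁻¹ ≤ A / M * (1 / 64) :=
          mul_le_mul_of_nonneg_left (h3.trans h4) (by positivity)
      _ = A / (M * 64) := by
        field_simp
  · have h4 : ∑ p ∈ P, (p : ℝ)⁻¹ ≤ ∑ i ∈ range (2 * A), ((i + 1 : ℕ) : ℝ)⁻¹ := by
      have h5 : ∑ i ∈ range (2 * A), ((i + 1 : ℕ) : ℝ)⁻¹ = ∑ i ∈ (range (2 * A)).image (fun i : ℕ => i + 1), (i : ℝ)⁻¹ := by
        rw [Finset.sum_image]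
        intro a _ b _ h
        exact Nat.succ_injective h
      rw [h5]
      refine sum_le_sum_of_subset_of_nonneg ?_ fun _ _ _ => by positivity
      intro p hp
      rw [hP, mem_filter, mem_Ioc] at hp
      refine mem_image.2 ⟨p - 1, ?_, ?_⟩
      · rw [mem_range]
        omega
      · have := hp.2.1.pos
        omega
    have h5 := harmonic_le_one_add_log (2 * A)
    unfold harmonic at h5
    push_cast at h4 h5
    linarith

theorem tot2 {M y : ℕ} (hM : 0 < M) (hy : 64 ≤ y) (hMy : ∀ q : ℕ, q.Prime → q ≤ y → q ∣ M) {S : Finset ℕ}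
    (hS : ∀ l ∈ S, l.Prime ∧ ¬ l ∣ M) (hSm : ∑ l ∈ S, 1 / (l : ℝ) ≤ 1 / 8) :
    ∃ A₀ : ℕ, ∀ A : ℕ, A₀ ≤ A → (A : ℝ) ^ 2 / (2 * (M : ℝ)) ≤ ∑ n ∈ Nn M S A, (n.totient : ℝ) := by
  classical
  have hM0 : (0 : ℝ) < M := by exact_mod_cast hM
  have hM1 : (1 : ℝ) ≤ M := by exact_mod_cast hM
  obtain ⟨K, hK⟩ : ∃ K : ℕ, K = 64 * M + 4 + S.card + y := ⟨_, rfl⟩
  refine ⟨K ^ 2, fun A hA => ?_⟩
  have hKr : (K : ℝ) = 64 * M + 4 + S.card + y := by rw [hK]; push_cast; ring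
  have hS0 : (0 : ℝ) ≤ S.card := Nat.cast_nonneg _
  have hy0 : (0 : ℝ) ≤ y := Nat.cast_nonneg _
  have hK4 : 4 ≤ K := by omega
  have hAK : K ≤ A := le_trans (by nlinarith) hA
  have hA1 : 1 ≤ A := by omega
  have hA0 : (0 : ℝ) < A := by exact_mod_cast hA1
  obtain ⟨s, hs⟩ : ∃ s : ℝ, s = Real.sqrt A := ⟨_, rfl⟩
  have hs2 : s ^ 2 = A := by rw [hs]; exact Real.sq_sqrt hA0.le
  have hs0 : 0 ≤ s := by rw [hs]; exact Real.sqrt_nonneg _
  have hsK : (K : ℝ) ≤ s := by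
    rw [hs]
    refine Real.le_sqrt_of_sq_le ?_
    exact_mod_cast hA
  have hlog : Real.log (2 * A) ≤ 4 * s := by
    have h1 : (0 : ℝ) < 2 * A := by positivity
    have h2 : Real.log (2 * A) = 2 * Real.log (Real.sqrt (2 * A)) := by
      rw [Real.log_sqrt h1.le]
      ring
    have h3 : 0 < Real.sqrt (2 * A) := Real.sqrt_pos.2 h1
    have h4 := Real.log_le_sub_one_of_pos h3
    have h5 : Real.sqrt (2 * A) ≤ 2 * s := by
      rw [hs, Real.sqrt_le_left (by positivity), mul_pow, Real.sq_sqrt hA0.le]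
      linarith
    rw [h2]
    linarith
  obtain ⟨N, hN⟩ : ∃ N : Finset ℕ, N = (Ioc A (2 * A)).filter (fun n : ℕ => (M : ℤ) ∣ (n : ℤ) - 1) := ⟨_, rfl⟩
  have hNn : Nn M S A ⊆ N := by
    intro n hn
    unfold Nn at hn
    rw [hN, mem_filter]
    exact ⟨(mem_filter.1 hn).1, (mem_filter.1 hn).2.1⟩
  -- the number of elements
  have hcard : (7 / 8 : ℝ) * (A / M) - 2 - S.card ≤ ((Nn M S A).card : ℝ) := by
    have h1 := TotB_lo (A := A) hM
    rw [← hN] at h1
    have hcov : N ⊆ Nn M S A ∪ S.biUnion (fun l => N.filter (fun n => l ∣ n)) := by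
      intro n hn
      rw [mem_union]
      by_cases h2 : ∀ l ∈ S, ¬ l ∣ n
      · left
        have hn' := hn
        rw [hN, mem_filter] at hn'
        unfold Nn
        exact mem_filter.2 ⟨hn'.1, hn'.2, h2⟩
      · push Not at h2
        obtain ⟨l, hl, hd⟩ := h2
        exact Or.inr (mem_biUnion.2 ⟨l, hl, mem_filter.2 ⟨hn, hd⟩⟩)
    have h2 : (N.card : ℝ) ≤ (Nn M S A).card + ∑ l ∈ S, ((N.filter (fun n => l ∣ n)).card : ℝ) := by
      have h3 := (card_le_card hcov).trans ((card_union_le _ _).trans (Nat.add_le_add_left card_biUnion_le _))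
      exact_mod_cast h3
    have h3 : ∀ l ∈ S, ((N.filter (fun n => l ∣ n)).card : ℝ) ≤ A / M * (1 / (l : ℝ)) + 1 := by
      intro l hl
      obtain ⟨b1, b2⟩ := hS l hl
      have hl0 : (0 : ℝ) < l := by exact_mod_cast b1.pos
      have hcop : IsCoprime (M : ℤ) (l : ℤ) := by
        rw [Nat.isCoprime_iff_coprime]
        exact ((Nat.Prime.coprime_iff_not_dvd b1).2 b2).symm
      have h3 := TotB_ap (A := A) (Q := M * l) (Nat.mul_pos hM b1.pos) (N.filter (fun n => l ∣ n)) (fun n hn => by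
        obtain ⟨h4, -⟩ := mem_filter.1 hn
        rw [hN, mem_filter, mem_Ioc] at h4
        exact h4.1) (fun n hn n' hn' => by
        obtain ⟨h4, h5⟩ := mem_filter.1 hn
        obtain ⟨h4', h5'⟩ := mem_filter.1 hn'
        rw [hN, mem_filter] at h4 h4'
        push_cast
        refine hcop.mul_dvd ?_ (dvd_sub (Int.natCast_dvd_natCast.2 h5) (Int.natCast_dvd_natCast.2 h5'))
        have := dvd_sub h4.2 h4'.2
        have e : (n : ℤ) - 1 - ((n' : ℤ) - 1) = (n : ℤ) - n' := by ring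
        rwa [e] at this)
      refine h3.trans (le_of_eq ?_)
      push_cast
      field_simp
    have h4 : ∑ l ∈ S, ((N.filter (fun n => l ∣ n)).card : ℝ) ≤ A / M * (1 / 8) + S.card := by
      refine (sum_le_sum h3).trans ?_
      rw [sum_add_distrib, ← mul_sum, sum_const, nsmul_eq_mul, mul_one]
      have := mul_le_mul_of_nonneg_left hSm (show (0 : ℝ) ≤ (A : ℝ) / M by positivity)
      linarith
    linarith
  have hrec := TotB_rec hM hy (by omega : y ≤ 2 * A) hMy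
  rw [← hN] at hrec
  have hmain : ∑ n ∈ Nn M S A, ((n : ℝ) - n * ∑ p ∈ n.primeFactors, 1 / (p : ℝ)) ≤ ∑ n ∈ Nn M S A, (n.totient : ℝ) := by
    refine sum_le_sum fun n hn => TotB_phi ?_
    have := hNn hn
    rw [hN, mem_filter, mem_Ioc] at this
    omega
  refine le_trans ?_ hmain
  rw [sum_sub_distrib]
  have h1 : (A : ℝ) * (Nn M S A).card ≤ ∑ n ∈ Nn M S A, (n : ℝ) := by
    have : ∀ n ∈ Nn M S A, (A : ℝ) ≤ n := by
      intro n hn
      have := hNn hn
      rw [hN, mem_filter, mem_Ioc] at this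
      exact_mod_cast this.1.1.le
    have h2 := card_nsmul_le_sum _ _ _ this
    rw [nsmul_eq_mul] at h2
    linarith
  have h2 : ∑ n ∈ Nn M S A, (n : ℝ) * ∑ p ∈ n.primeFactors, 1 / (p : ℝ) ≤ 2 * A * (A / (M * 64) + (1 + 4 * s)) := by
    have h3 : ∑ n ∈ Nn M S A, (n : ℝ) * ∑ p ∈ n.primeFactors, 1 / (p : ℝ) ≤
        ∑ n ∈ N, 2 * A * ∑ p ∈ n.primeFactors, 1 / (p : ℝ) := by
      have h4 : ∑ n ∈ Nn M S A, (n : ℝ) * ∑ p ∈ n.primeFactors, 1 / (p : ℝ) ≤
          ∑ n ∈ Nn M S A, 2 * A * ∑ p ∈ n.primeFactors, 1 / (p : ℝ) := by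
        refine sum_le_sum fun n hn => ?_
        have h5 := hNn hn
        rw [hN, mem_filter, mem_Ioc] at h5
        have h6 : (n : ℝ) ≤ 2 * A := by exact_mod_cast h5.1.2
        exact mul_le_mul_of_nonneg_right h6 (sum_nonneg fun _ _ => by positivity)
      exact h4.trans (sum_le_sum_of_subset_of_nonneg hNn fun _ _ _ =>
        mul_nonneg (by positivity) (sum_nonneg fun _ _ => by positivity))
    refine h3.trans ?_
    rw [← mul_sum]
    refine mul_le_mul_of_nonneg_left ?_ (by positivity)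
    linarith
  obtain ⟨x, hx⟩ : ∃ x : ℝ, x = A / M := ⟨_, rfl⟩
  have hAx : (A : ℝ) = M * x := by rw [hx]; field_simp
  have e1 : (A : ℝ) ^ 2 / (2 * (M : ℝ)) = A * (x / 2) := by
    rw [hx]
    field_simp
  have e2 : (A : ℝ) / (M * 64) = x / 64 := by
    rw [hx]
    field_simp
  rw [← hx] at hcard
  rw [e2] at h2
  rw [e1]
  have h5 : (A : ℝ) * ((7 / 8 : ℝ) * x - 2 - S.card) ≤ A * (Nn M S A).card := mul_le_mul_of_nonneg_left hcard hA0.le
  have h6 : 4 + (S.card : ℝ) + 8 * s ≤ 11 / 32 * x := by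
    have h7 : (M : ℝ) * (4 + S.card + 8 * s) ≤ M * (11 / 32 * x) := by
      have e3 : (M : ℝ) * (11 / 32 * x) = 11 / 32 * A := by rw [hAx]; ring
      rw [e3, ← hs2]
      have h8 : 64 * (M : ℝ) + 4 + S.card ≤ s := by
        rw [hKr] at hsK
        linarith
      have h9 : 4 + (S.card : ℝ) ≤ s := by linarith
      have h10 : (M : ℝ) * (4 + S.card) ≤ M * s := mul_le_mul_of_nonneg_left h9 hM0.le
      have h11 : 64 * (M : ℝ) * s ≤ s * s := mul_le_mul_of_nonneg_right (by linarith) hs0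
      nlinarith
    exact le_of_mul_le_mul_left h7 hM0
  have h7 := mul_le_mul_of_nonneg_left h6 hA0.le
  have e4 : (A : ℝ) * (4 + S.card + 8 * s) = 4 * A + A * S.card + 8 * (A * s) := by ring
  have e5 : (A : ℝ) * (11 / 32 * x) = 11 / 32 * (A * x) := by ring
  have e6 : (A : ℝ) * (7 / 8 * x - 2 - S.card) = 7 / 8 * (A * x) - 2 * A - A * S.card := by ring
  have e7 : 2 * (A : ℝ) * (x / 64 + (1 + 4 * s)) = 1 / 32 * (A * x) + 2 * A + 8 * (A * s) := by ring
  have e8 : (A : ℝ) * (x / 2) = 1 / 2 * (A * x) := by ring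
  rw [e4, e5] at h7
  rw [e6] at h5
  rw [e7] at h2
  rw [e8]
  linarith

end Pool.Agent.Lib.MP_d57abb_nt.GV
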