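import Pool.Agent.Lib.MP_d57abb_nt.GV.FrT
import Pool.Agent.Lib.MP_d57abb_nt.GV.TotB
import Pool.Agent.Lib.MP_d57abb_nt.GV.TailS
import Pool.Agent.Lib.MP_d57abb_nt.GT.Cell

/-!
# Many frames in a residue class without bad prime factors and without square factors
-/

namespace Pool.Agent.Lib.MP_d57abb_nt.GV

open Finset MR GT GA.TZ GA.TS

attribute [local instance] GT.lab0

private theorem FrS_t {n : ℕ} {x : ℤ × ℤ} (hx : x ∈ HH n) : (n : ℤ) * ((x.1 * x.2 + 1) / n) = x.1 * x.2 + 1 :=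
  Int.mul_ediv_cancel' (mem_HH.1 hx).2

private theorem FrS_n {n : ℕ} {x : ℤ × ℤ} (hx : x ∈ HH n) : (0 : ℤ) < n := by
  obtain ⟨⟨⟨a1, a2⟩, -⟩, -⟩ := mem_HH.1 hx
  linarith

private theorem FrS_cop {n M : ℕ} (h : (M : ℤ) ∣ (n : ℤ) - 1) : n.Coprime M := by
  rw [← Nat.isCoprime_iff_coprime]
  obtain ⟨c, hc⟩ := h
  exact ⟨1, -c, by linarith⟩

private theorem FrS_max {S : Finset ℕ} (f : ℕ → ℕ) : ∃ m : ℕ, ∀ l ∈ S, f l ≤ m :=
  ⟨∑ l ∈ S, f l, fun l hl => Finset.single_le_sum (f := f) (fun _ _ => Nat.zero_le _) hl⟩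

private theorem FrS_tc {A X : ℕ} (hA : 1 ≤ A) (hX : 128 * A ^ 2 ≤ X) (Z : Finset ((ℤ × ℤ) × (ℤ × ℤ))) (P : ℕ → Prop)
    [DecidablePred P] (hZ : ∀ z ∈ Z, (GA.TA.Qd z.1 ∧ GA.TA.Qd z.2 ∧ dt z.1 z.2 = 1) ∧
      ((A : ℤ) < GA.TA.ll z.1 ∧ GA.TA.ll z.1 ≤ 8 * A) ∧ (A : ℤ) < GA.TA.ll z.2 ∧ GA.TA.ll z.2 ≤ 8 * A)
    (hP : ∀ z ∈ Z, P (kk z.1 z.2).toNat) : (Z.card : ℝ) ≤ ∑ k ∈ (Icc 1 X).filter P, (GA.TZ.tc 32 k : ℝ) := by
  have hcard : (∑ k ∈ (Icc 1 X).filter P, (GA.TZ.tc 32 k : ℝ)) =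
      (((GA.TS.GG (1 / 32) 32 X).filter (fun x => P (kk x.1 x.2).toNat)).card : ℝ) := by
    rw [← GA.TS.sum_wn (1 / 32) 32 X P, Nat.cast_sum]
    refine Finset.sum_congr rfl fun k _ => ?_
    rw [tc_wn 32 (by norm_num) k]
  rw [hcard]
  have hsub : Z ⊆ (GA.TS.GG (1 / 32) 32 X).filter (fun x => P (kk x.1 x.2).toNat) := by
    intro z hz
    obtain ⟨⟨q1, q2, q3⟩, ⟨a1, a2⟩, b1, b2⟩ := hZ z hz
    refine mem_filter.2 ⟨?_, hP z hz⟩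
    have h1 := Cell_mem (M := 4) (by norm_num) hA (X := X) (by omega) q1 q2 q3 a1 (by push_cast; linarith) b1
      (by push_cast; linarith)
    have e1 : (1 : ℝ) / (8 * ((4 : ℕ) : ℝ)) = 1 / 32 := by norm_num
    have e2 : (8 : ℝ) * ((4 : ℕ) : ℝ) = 32 := by norm_num
    rw [e1, e2] at h1
    exact h1
  exact_mod_cast Finset.card_le_card hsub

private theorem FrS_fin {M A y2 A8 K2 Φ I I1 I2 I3 I4 I5 I6 I7 I8 J : ℝ} (hM0 : 0 < M) (hA : 1 ≤ A) (hy : 70000 ≤ y2)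
    (hA8 : A8 ≤ A) (hK : 128 * M ^ 3 * K2 < A8) (hΦ1 : A ^ 2 / (2 * M) ≤ Φ) (hI : Φ / (2 * M ^ 2) ≤ I)
    (h1 : I1 ≤ 4 * Φ / M ^ 2 * (1 / 48)) (h2 : I2 ≤ 8 * Φ / M ^ 2 * (1 / 48)) (h3 : I3 ≤ 1 / (1280 * M ^ 3) * (2 * A) ^ 2)
    (h4 : I4 ≤ 1 / (1280 * M ^ 3) * (4 * A) ^ 2) (h5 : I5 ≤ 32 * A ^ 2 / (M ^ 3 * y2)) (h6 : I6 ≤ 32 * A ^ 2 / (M ^ 3 * y2))
    (h7 : I7 ≤ 2000 * A ^ 2 / (M ^ 3 * y2)) (h8 : I8 ≤ 1 / (16384 * M ^ 3) * (128 * A ^ 2) + K2)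
    (hc : I ≤ J + ((I1 + I2 + (I3 + I4)) + (I5 + I6 + (I7 + I8)))) : 1 / (16 * M ^ 3) * A ^ 2 ≤ J := by
  obtain ⟨B, hB⟩ : ∃ B : ℝ, B = A ^ 2 / M ^ 3 := ⟨_, rfl⟩
  have hB0 : 0 ≤ B := by rw [hB]; positivity
  have g1 : 4 * Φ / M ^ 2 * (1 / 48) + 8 * Φ / M ^ 2 * (1 / 48) = Φ / (4 * M ^ 2) := by
    field_simp
    ring
  have g2 : Φ / (2 * M ^ 2) = Φ / (4 * M ^ 2) + Φ / (4 * M ^ 2) := by
    field_simp
    ring
  have g3 : B / 8 ≤ Φ / (4 * M ^ 2) := by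
    rw [le_div_iff₀ (by positivity)]
    refine le_trans (le_of_eq ?_) hΦ1
    rw [hB]
    field_simp
    ring
  have g4 : 1 / (1280 * M ^ 3) * (2 * A) ^ 2 + 1 / (1280 * M ^ 3) * (4 * A) ^ 2 = B / 64 := by
    rw [hB]
    field_simp
    ring
  have g5 : ∀ a : ℝ, a * A ^ 2 / (M ^ 3 * y2) = a / y2 * B := by
    intro a
    have : y2 ≠ 0 := by linarith
    rw [hB]
    field_simp
  have g6 : 32 * A ^ 2 / (M ^ 3 * y2) + 32 * A ^ 2 / (M ^ 3 * y2) + 2000 * A ^ 2 / (M ^ 3 * y2) ≤ B / 32 := by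
    rw [g5, g5, ← add_mul, ← add_mul, ← add_div, ← add_div]
    have g7 : (32 + 32 + 2000) / y2 ≤ 1 / 32 := by
      rw [div_le_div_iff₀ (by linarith) (by norm_num)]
      linarith
    refine (mul_le_mul_of_nonneg_right g7 hB0).trans (le_of_eq ?_)
    ring
  have g7 : 1 / (16384 * M ^ 3) * (128 * A ^ 2) + K2 ≤ B / 64 := by
    have g8 : 1 / (16384 * M ^ 3) * (128 * A ^ 2) = B / 128 := by
      rw [hB]
      field_simp
      ring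
    have g9 : K2 ≤ B / 128 := by
      have g12 : 128 * M ^ 3 * K2 ≤ A ^ 2 := by nlinarith
      rw [hB, le_div_iff₀ (by norm_num), le_div_iff₀ (by positivity)]
      linarith
    linarith
  have g8 : 1 / (16 * M ^ 3) * A ^ 2 = B / 16 := by
    rw [hB]
    field_simp
  rw [g8]
  linarith

private theorem FrS_sq {v w : ℤ × ℤ} (hv : GA.TA.Qd v) (hw : GA.TA.Qd w) (hd : dt v w = 1) {l : ℕ} (hl : l.Prime)
    (h : l ^ 2 ∣ (kk v w).toNat ^ 2 + 3 * (kk v w).toNat + 1) :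
    (l : ℤ) ^ 2 ∣ nm v ∨ (l : ℤ) ^ 2 ∣ nm w ∨ ((l : ℤ) ∣ nm v ∧ (l : ℤ) ∣ nm w) := by
  have h1 := kk_nn hv hw
  obtain ⟨n, hn⟩ := Int.eq_ofNat_of_zero_le h1
  rw [hn, Int.toNat_natCast] at h
  have h2 : ((l : ℤ)) ^ 2 ∣ nm v * nm w := by
    rw [← kk_eq hd, hn]
    have h3 : ((n : ℤ) ^ 2 + 3 * n + 1) = ((n ^ 2 + 3 * n + 1 : ℕ) : ℤ) := by
      push_cast
      ring
    rw [h3]
    exact_mod_cast h
  have hp : Prime (l : ℤ) := Nat.prime_iff_prime_int.1 hl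
  by_cases a : (l : ℤ) ∣ nm v
  · by_cases b : (l : ℤ) ∣ nm w
    · exact Or.inr (Or.inr ⟨a, b⟩)
    · left
      have h3 : IsCoprime ((l : ℤ) ^ 2) (nm w) := ((hp.irreducible.coprime_iff_not_dvd).2 b).pow_left
      exact h3.dvd_of_dvd_mul_right h2
  · right; left
    have h3 : IsCoprime ((l : ℤ) ^ 2) (nm v) := ((hp.irreducible.coprime_iff_not_dvd).2 a).pow_left
    exact h3.dvd_of_dvd_mul_left h2

open Classical in
theorem framesS {W : ℕ} {Bd : O → Prop} (h : Ms W Bd) : ∃ y : ℕ, ∀ M : ℕ, 0 < M → W ∣ M →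
    (∀ q : ℕ, q.Prime → q ≤ y → q ∣ M) → ∀ e : ℤ, ∃ κ : ℝ, 0 < κ ∧ ∃ A₀ : ℕ, ∀ A : ℕ, A₀ ≤ A →
      ∃ Z : Finset ((ℤ × ℤ) × (ℤ × ℤ)), κ * (A : ℝ) ^ 2 ≤ (Z.card : ℝ) ∧ ∀ z ∈ Z,
        (GA.TA.Qd z.1 ∧ GA.TA.Qd z.2 ∧ dt z.1 z.2 = 1) ∧
        (((A : ℤ) < GA.TA.ll z.1 ∧ GA.TA.ll z.1 ≤ 8 * A) ∧ (A : ℤ) < GA.TA.ll z.2 ∧ GA.TA.ll z.2 ≤ 8 * A) ∧
        (Cg M z.1 (1, 0) ∧ Cg M z.2 (e + 1, 1)) ∧ (Gb Bd M z.1 ∧ Gb Bd M z.2) ∧
        ∀ l : ℕ, l.Prime → ¬ l ∣ M → ¬ l ^ 2 ∣ (kk z.1 z.2).toNat ^ 2 + 3 * (kk z.1 z.2).toNat + 1 := by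
  obtain ⟨y1, hy1⟩ := tail h (δ := 1 / 48) (by norm_num)
  obtain ⟨y2, hy2⟩ : ∃ y2 : ℕ, y2 = y1 + 70000 := ⟨_, rfl⟩
  refine ⟨y2, fun M hM hWM hMy e => ?_⟩
  have hM0 : (0 : ℝ) < M := by exact_mod_cast hM
  obtain ⟨c, hc⟩ : ∃ c : ℤ × ℤ, c = (0, e) := ⟨_, rfl⟩
  have hy20 : (70000 : ℝ) ≤ y2 := by exact_mod_cast (by omega : 70000 ≤ y2)
  have h5M : 5 ∣ M := hMy 5 (by norm_num) (by omega)
  obtain ⟨Y2, K2, hK20, hY2⟩ := tail_nat (c := 32) (by norm_num) (ε := 1 / (16384 * (M : ℝ) ^ 3)) (by positivity)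
  obtain ⟨L, hLd⟩ : ∃ L : Finset ℕ, L = (range (Y2 + 1)).filter (fun l => l.Prime ∧ ¬ l ∣ M) := ⟨_, rfl⟩
  have hLp : ∀ l ∈ L, l.Prime ∧ ¬ l ∣ M := by
    intro l hl
    rw [hLd] at hl
    exact (mem_filter.1 hl).2
  have hLy : ∀ l ∈ L, y2 < l := by
    intro l hl
    by_contra hcon
    exact (hLp l hl).2 (hMy l (hLp l hl).1 (by omega))
  have hL5 : ∀ l ∈ L, l ≠ 5 := by
    intro l hl h0
    exact (hLp l hl).2 (by rw [h0]; exact h5M)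
  obtain ⟨A5, hA5⟩ := small_a hM (by omega : 1 ≤ y2) L hLy c (fun l n x => (l : ℤ) ^ 2 ∣ nm (fv n x)) (fun l hl => by
    obtain ⟨n0, hn0⟩ := cnt_v2 hM (hLp l hl).1 (hLp l hl).2
    exact ⟨n0, fun n hn hcop => by convert hn0 n hn hcop c⟩)
  obtain ⟨A6, hA6⟩ := small_a hM (by omega : 1 ≤ y2) L hLy c (fun l n x => (l : ℤ) ∣ nm (fv n x) ∧ (l : ℤ) ∣ nm (fw n x))
    (fun l hl => by
    obtain ⟨n0, hn0⟩ := cnt_vw hM (hLp l hl).1 (hLp l hl).2 (hL5 l hl)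
    exact ⟨n0, fun n hn hcop => by convert hn0 n hn hcop c⟩)
  obtain ⟨A7, hA7⟩ := small_b hM (by omega : 1 ≤ y2) L hLy hLp e
  obtain ⟨A8, hA8⟩ := exists_nat_gt (128 * (M : ℝ) ^ 3 * K2)
  obtain ⟨Y, hY⟩ := big h (ε := 1 / (1280 * (M : ℝ) ^ 3)) (by positivity)
  obtain ⟨M', hM'⟩ : ∃ M' : ℕ, M' = M * Y.factorial := ⟨_, rfl⟩
  have hM'0 : 0 < M' := by
    rw [hM']
    exact Nat.mul_pos hM (Nat.factorial_pos _)
  have hMM' : M ∣ M' := by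
    rw [hM']
    exact Dvd.intro _ rfl
  obtain ⟨T₀, hT₀⟩ := hY M' hM'0 (hWM.trans hMM') (fun q hq hqY => by
    rw [hM']
    exact Dvd.dvd.mul_left (Nat.dvd_factorial hq.pos hqY) M)
  -- the bad primes dividing `M'`
  obtain ⟨S, hS⟩ : ∃ S : Finset ℕ, S = (range (M' + 1)).filter
    (fun l => l.Prime ∧ ¬ l ∣ M ∧ ∃ p : O, Dg M p ∧ (N p).natAbs = l ∧ Bd p) := ⟨_, rfl⟩
  have hSp : ∀ l ∈ S, l.Prime ∧ ¬ l ∣ M := by
    intro l hl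
    rw [hS] at hl
    obtain ⟨-, h1, h2, -⟩ := mem_filter.1 hl
    exact ⟨h1, h2⟩
  have hSe : ∀ l ∈ S, ∃ p : O, Dg M p ∧ (N p).natAbs = l ∧ Bd p := by
    intro l hl
    rw [hS] at hl
    exact (mem_filter.1 hl).2.2.2
  choose! P hP using hSe
  have hSm : ∑ l ∈ S, 1 / (l : ℝ) ≤ 1 / 48 := by
    refine le_trans ?_ (hy1 (M' : ℝ))
    have hinj : ∀ l ∈ S, ∀ l' ∈ S, P l = P l' → l = l' := by
      intro l hl l' hl' he
      rw [← (hP l hl).2.1, ← (hP l' hl').2.1, he]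
    have e : ∑ l ∈ S, 1 / (l : ℝ) = ∑ p ∈ S.image P, 1 / (N p : ℝ) := by
      rw [Finset.sum_image hinj]
      refine Finset.sum_congr rfl fun l hl => ?_
      obtain ⟨h1, h2, -⟩ := hP l hl
      have h3 : N (P l) = (l : ℤ) := by
        have := h1.tp.N_pos
        omega
      rw [h3, Int.cast_natCast]
    rw [e]
    refine Finset.sum_le_sum_of_subset_of_nonneg ?_ ?_
    · intro p hp
      obtain ⟨l, hl, rfl⟩ := mem_image.1 hp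
      obtain ⟨h1, h2, h3⟩ := hP l hl
      have hNp := h1.tp.N_pos
      have hlM : l ≤ M' := by
        rw [hS] at hl
        have := mem_range.1 (mem_filter.1 hl).1
        omega
      rw [mem_filter, mem_PP]
      refine ⟨⟨⟨h1.1, h1.2.1, fun hd => h1.2.2 (hd.trans hWM)⟩, ?_⟩, h3, ?_⟩
      · have h4 : N (P l) = (l : ℤ) := by omega
        rw [h4, Int.cast_natCast]
        exact_mod_cast hlM
      · by_contra h5
        exact h1.2.2 (hMy _ h1.2.1 (by omega))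
    · intro p hp _
      have := (mem_PP.1 (mem_filter.1 hp).1).1.tp.N_pos
      positivity
  obtain ⟨A1, hA1⟩ := tot2 hM (by omega : 64 ≤ y2) hMy hSp (hSm.trans (by norm_num))
  obtain ⟨n1, hn1⟩ := law_lo M hM
  have hcv : ∀ l ∈ S, ∃ n0 : ℕ, ∀ n : ℕ, n0 ≤ n → n.Coprime (M * l) →
      ∀ c : ℤ × ℤ, (((Hc n M c).filter (fun x => (l : ℤ) ∣ nm (fv n x))).card : ℝ) ≤ 4 * n.totient / ((M : ℝ) ^ 2 * l) :=
    fun l hl => cnt_v hM (hSp l hl).1 (hSp l hl).2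
  have hcw : ∀ l ∈ S, ∃ n0 : ℕ, ∀ n : ℕ, n0 ≤ n → n.Coprime (M * l) →
      ∀ c : ℤ × ℤ, (((Hc n M c).filter (fun x => (l : ℤ) ∣ nm (fw n x))).card : ℝ) ≤ 8 * n.totient / ((M : ℝ) ^ 2 * l) :=
    fun l hl => cnt_w hM (hSp l hl).1 (hSp l hl).2
  choose! n2 hn2 using hcv
  choose! n3 hn3 using hcw
  obtain ⟨m2, hm2⟩ := FrS_max (S := S) n2
  obtain ⟨m3, hm3⟩ := FrS_max (S := S) n3
  refine ⟨1 / (16 * (M : ℝ) ^ 3), by positivity, A1 + n1 + m2 + m3 + T₀ + 1 + (A5 + A6 + A7 + A8 + M), fun A hA => ?_⟩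
  obtain ⟨I, hI⟩ : ∃ I : Finset ((_ : ℕ) × (ℤ × ℤ)), I = (Nn M S A).sigma (fun n => Hc n M c) := ⟨_, rfl⟩
  have hImem : ∀ i ∈ I, ((A < i.1 ∧ i.1 ≤ 2 * A) ∧ (M : ℤ) ∣ (i.1 : ℤ) - 1 ∧ ∀ l ∈ S, ¬ l ∣ i.1) ∧ i.2 ∈ HH i.1 ∧
      ((M : ℤ) ∣ i.2.1 - c.1 ∧ (M : ℤ) ∣ i.2.2 - c.2) := by
    intro i hi
    rw [hI, mem_sigma] at hi
    obtain ⟨h1, h2⟩ := hi
    unfold Nn at h1
    unfold Hc at h2
    rw [mem_filter, mem_Ioc] at h1
    rw [mem_filter] at h2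
    exact ⟨h1, h2⟩
  have hcopl : ∀ n : ℕ, (M : ℤ) ∣ (n : ℤ) - 1 → (∀ l ∈ S, ¬ l ∣ n) → ∀ l ∈ S, n.Coprime (M * l) := by
    intro n h1 h2 l hl
    refine Nat.Coprime.mul_right (FrS_cop h1) ?_
    exact ((Nat.Prime.coprime_iff_not_dvd (hSp l hl).1).2 (h2 l hl)).symm
  have hNn : ∀ n ∈ Nn M S A, (A < n ∧ n ≤ 2 * A) ∧ (M : ℤ) ∣ (n : ℤ) - 1 ∧ ∀ l ∈ S, ¬ l ∣ n := by
    intro n hn
    unfold Nn at hn
    rwa [mem_filter, mem_Ioc] at hn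
  obtain ⟨Φ, hΦ⟩ : ∃ Φ : ℝ, Φ = ∑ n ∈ Nn M S A, (n.totient : ℝ) := ⟨_, rfl⟩
  have hΦ1 : (A : ℝ) ^ 2 / (2 * (M : ℝ)) ≤ Φ := by
    rw [hΦ]
    exact hA1 A (by omega)
  have hIc : Φ / (2 * (M : ℝ) ^ 2) ≤ (I.card : ℝ) := by
    rw [hI, card_sigma, hΦ, Nat.cast_sum, Finset.sum_div]
    refine Finset.sum_le_sum fun n hn => ?_
    obtain ⟨⟨h1, h2⟩, h3, h4⟩ := hNn n hn
    exact hn1 n (by omega) (FrS_cop h3) c
  -- the bad frames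
  obtain ⟨I1, hI1⟩ : ∃ I1 : Finset ((_ : ℕ) × (ℤ × ℤ)), I1 = (Nn M S A).sigma
    (fun n => S.biUnion (fun l => (Hc n M c).filter (fun x => (l : ℤ) ∣ nm (fv n x)))) := ⟨_, rfl⟩
  obtain ⟨I2, hI2⟩ : ∃ I2 : Finset ((_ : ℕ) × (ℤ × ℤ)), I2 = (Nn M S A).sigma
    (fun n => S.biUnion (fun l => (Hc n M c).filter (fun x => (l : ℤ) ∣ nm (fw n x)))) := ⟨_, rfl⟩
  obtain ⟨I3, hI3⟩ : ∃ I3 : Finset ((_ : ℕ) × (ℤ × ℤ)), I3 = I.filter (fun i => Hb Bd M' (fv i.1 i.2)) := ⟨_, rfl⟩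
  obtain ⟨I4, hI4⟩ : ∃ I4 : Finset ((_ : ℕ) × (ℤ × ℤ)), I4 = I.filter (fun i => Hb Bd M' (fw i.1 i.2)) := ⟨_, rfl⟩
  have hI1c : (I1.card : ℝ) ≤ 4 * Φ / (M : ℝ) ^ 2 * (1 / 48) := by
    rw [hI1, card_sigma, Nat.cast_sum]
    have h1 : ∀ n ∈ Nn M S A, (((S.biUnion (fun l => (Hc n M c).filter (fun x => (l : ℤ) ∣ nm (fv n x)))).card : ℕ) : ℝ) ≤
        4 * n.totient / (M : ℝ) ^ 2 * (1 / 48) := by
      intro n hn
      obtain ⟨⟨h1, h2⟩, h3, h4⟩ := hNn n hn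
      have h5 : (((S.biUnion (fun l => (Hc n M c).filter (fun x => (l : ℤ) ∣ nm (fv n x)))).card : ℕ) : ℝ) ≤
          ∑ l ∈ S, (((Hc n M c).filter (fun x => (l : ℤ) ∣ nm (fv n x))).card : ℝ) := by
        exact_mod_cast Finset.card_biUnion_le
      refine h5.trans ((Finset.sum_le_sum fun l hl => hn2 l hl n (by have := hm2 l hl; omega) (hcopl n h3 h4 l hl) c).trans ?_)
      have e : ∀ l ∈ S, 4 * (n.totient : ℝ) / ((M : ℝ) ^ 2 * l) = 4 * n.totient / (M : ℝ) ^ 2 * (1 / (l : ℝ)) := by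
        intro l hl
        have : (l : ℝ) ≠ 0 := by exact_mod_cast (hSp l hl).1.ne_zero
        field_simp
      rw [Finset.sum_congr rfl e, ← Finset.mul_sum]
      exact mul_le_mul_of_nonneg_left hSm (by positivity)
    refine (Finset.sum_le_sum h1).trans (le_of_eq ?_)
    rw [← Finset.sum_mul, ← Finset.sum_div, ← Finset.mul_sum, hΦ]
  have hI2c : (I2.card : ℝ) ≤ 8 * Φ / (M : ℝ) ^ 2 * (1 / 48) := by
    rw [hI2, card_sigma, Nat.cast_sum]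
    have h1 : ∀ n ∈ Nn M S A, (((S.biUnion (fun l => (Hc n M c).filter (fun x => (l : ℤ) ∣ nm (fw n x)))).card : ℕ) : ℝ) ≤
        8 * n.totient / (M : ℝ) ^ 2 * (1 / 48) := by
      intro n hn
      obtain ⟨⟨h1, h2⟩, h3, h4⟩ := hNn n hn
      have h5 : (((S.biUnion (fun l => (Hc n M c).filter (fun x => (l : ℤ) ∣ nm (fw n x)))).card : ℕ) : ℝ) ≤
          ∑ l ∈ S, (((Hc n M c).filter (fun x => (l : ℤ) ∣ nm (fw n x))).card : ℝ) := by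
        exact_mod_cast Finset.card_biUnion_le
      refine h5.trans ((Finset.sum_le_sum fun l hl => hn3 l hl n (by have := hm3 l hl; omega) (hcopl n h3 h4 l hl) c).trans ?_)
      have e : ∀ l ∈ S, 8 * (n.totient : ℝ) / ((M : ℝ) ^ 2 * l) = 8 * n.totient / (M : ℝ) ^ 2 * (1 / (l : ℝ)) := by
        intro l hl
        have : (l : ℝ) ≠ 0 := by exact_mod_cast (hSp l hl).1.ne_zero
        field_simp
      rw [Finset.sum_congr rfl e, ← Finset.mul_sum]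
      exact mul_le_mul_of_nonneg_left hSm (by positivity)
    refine (Finset.sum_le_sum h1).trans (le_of_eq ?_)
    rw [← Finset.sum_mul, ← Finset.sum_div, ← Finset.mul_sum, hΦ]
  have hcopv : ∀ i ∈ I, IsCoprime (fv i.1 i.2).1 (fv i.1 i.2).2 ∧ IsCoprime (fw i.1 i.2).1 (fw i.1 i.2).2 := by
    intro i hi
    have h1 := fr_dt (hImem i hi).2.1
    unfold dt at h1
    exact ⟨⟨(fw i.1 i.2).2, -(fw i.1 i.2).1, by linarith⟩, ⟨-(fv i.1 i.2).2, (fv i.1 i.2).1, by linarith⟩⟩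
  have hBx : ∀ (a b : ℕ), a ≤ b → GA.TA.Bx a ⊆ GA.TA.Bx b := by
    intro a b hab u hu
    unfold GA.TA.Bx at hu ⊢
    rw [mem_product, mem_Icc, mem_Icc] at hu ⊢
    have : (a : ℤ) ≤ b := by exact_mod_cast hab
    exact ⟨⟨hu.1.1, hu.1.2.trans this⟩, hu.2.1, hu.2.2.trans this⟩
  have hI3c : (I3.card : ℝ) ≤ 1 / (1280 * (M : ℝ) ^ 3) * ((2 * A : ℕ) : ℝ) ^ 2 := by
    refine le_trans ?_ (hT₀ (2 * A) (by omega))
    have h1 : I3.card ≤ ((GA.TA.Bx (2 * A)).filter (fun u => IsCoprime u.1 u.2 ∧ Hb Bd M' u)).card := by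
      refine Finset.card_le_card_of_injOn (fun i => fv i.1 i.2) ?_ ?_
      · intro i hi
        have hi' := Finset.mem_coe.1 hi
        rw [hI3] at hi'
        obtain ⟨h2, h3⟩ := mem_filter.1 hi'
        obtain ⟨⟨⟨h4, h5⟩, -⟩, h6, -⟩ := hImem i h2
        exact Finset.mem_coe.2 (mem_filter.2 ⟨hBx _ _ h5 (fr_v h6).2.2.2, (hcopv i h2).1, h3⟩)
      · intro i hi j hj he
        have hi' := Finset.mem_coe.1 hi
        have hj' := Finset.mem_coe.1 hj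
        rw [hI3] at hi' hj'
        obtain ⟨e1, e2⟩ := fv_inj (hImem i (mem_filter.1 hi').1).2.1 (hImem j (mem_filter.1 hj').1).2.1 he
        exact Sigma.ext e1 (heq_of_eq e2)
    exact_mod_cast h1
  have hI4c : (I4.card : ℝ) ≤ 1 / (1280 * (M : ℝ) ^ 3) * ((4 * A : ℕ) : ℝ) ^ 2 := by
    refine le_trans ?_ (hT₀ (4 * A) (by omega))
    have h1 : I4.card ≤ ((GA.TA.Bx (4 * A)).filter (fun u => IsCoprime u.1 u.2 ∧ Hb Bd M' u)).card := by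
      refine Finset.card_le_card_of_injOn (fun i => fw i.1 i.2) ?_ ?_
      · intro i hi
        have hi' := Finset.mem_coe.1 hi
        rw [hI4] at hi'
        obtain ⟨h2, h3⟩ := mem_filter.1 hi'
        obtain ⟨⟨⟨h4, h5⟩, -⟩, h6, -⟩ := hImem i h2
        exact Finset.mem_coe.2 (mem_filter.2 ⟨hBx _ _ (by omega) (fr_w h6).2.2.2, (hcopv i h2).2, h3⟩)
      · intro i hi j hj he
        have hi' := Finset.mem_coe.1 hi
        have hj' := Finset.mem_coe.1 hj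
        rw [hI4] at hi' hj'
        obtain ⟨e1, e2⟩ := fw_inj (hImem i (mem_filter.1 hi').1).2.1 (hImem j (mem_filter.1 hj').1).2.1 he
        exact Sigma.ext e1 (heq_of_eq e2)
    exact_mod_cast h1
  -- a frame outside these sets is good
  have hsplit : ∀ u : ℤ × ℤ, IsCoprime u.1 u.2 → ¬ Gb Bd M u → Hb Bd M' u ∨ ∃ l ∈ S, (l : ℤ) ∣ nm u := by
    intro u hu hG
    unfold Gb at hG
    push Not at hG
    obtain ⟨p, hp, hpu, hbd⟩ := hG hu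
    have hNp := hp.tp.N_pos
    by_cases h1 : (N p).natAbs ∣ M'
    · right
      refine ⟨(N p).natAbs, ?_, ?_⟩
      · rw [hS, mem_filter, mem_range]
        exact ⟨Nat.lt_succ_of_le (Nat.le_of_dvd hM'0 h1), hp.2.1, hp.2.2, p, hp, rfl, hbd⟩
      · have h2 : (((N p).natAbs : ℕ) : ℤ) = N p := by omega
        rw [h2]
        obtain ⟨w, hw⟩ := hpu
        have h3 : nm u = N (tO u) := rfl
        rw [h3, hw, N_mul]
        exact Dvd.intro _ rfl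
    · left
      exact ⟨p, ⟨hp.1, hp.2.1, h1⟩, hpu, hbd⟩
  -- the square factors
  obtain ⟨Sq, hSq⟩ : ∃ Sq : (ℤ × ℤ) × (ℤ × ℤ) → Prop, ∀ z, Sq z ↔
    ∀ l : ℕ, l.Prime → ¬ l ∣ M → ¬ l ^ 2 ∣ (kk z.1 z.2).toNat ^ 2 + 3 * (kk z.1 z.2).toNat + 1 := ⟨_, fun _ => Iff.rfl⟩
  obtain ⟨I5, hI5⟩ : ∃ I5 : Finset ((_ : ℕ) × (ℤ × ℤ)), I5 = (N1 M A).sigma
    (fun n => L.biUnion (fun l => (Hc n M c).filter (fun x => (l : ℤ) ^ 2 ∣ nm (fv n x)))) := ⟨_, rfl⟩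
  obtain ⟨I6, hI6⟩ : ∃ I6 : Finset ((_ : ℕ) × (ℤ × ℤ)), I6 = (N1 M A).sigma
    (fun n => L.biUnion (fun l => (Hc n M c).filter (fun x => (l : ℤ) ∣ nm (fv n x) ∧ (l : ℤ) ∣ nm (fw n x)))) := ⟨_, rfl⟩
  obtain ⟨I7, hI7⟩ : ∃ I7 : Finset ((_ : ℕ) × (ℤ × ℤ)), I7 = L.biUnion (fun l => (N1 M A).sigma
    (fun n => (Hc n M (0, e)).filter (fun x => (l : ℤ) ^ 2 ∣ nm (fw n x)))) := ⟨_, rfl⟩
  obtain ⟨I8, hI8⟩ : ∃ I8 : Finset ((_ : ℕ) × (ℤ × ℤ)), I8 = I.filter (fun i => ∃ l : ℕ, l.Prime ∧ Y2 < l ∧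
    l ^ 2 ∣ (kk (fv i.1 i.2) (fw i.1 i.2)).toNat ^ 2 + 3 * (kk (fv i.1 i.2) (fw i.1 i.2)).toNat + 1) := ⟨_, rfl⟩
  have hI5c : (I5.card : ℝ) ≤ 32 * (A : ℝ) ^ 2 / ((M : ℝ) ^ 3 * y2) := by
    rw [hI5]
    convert hA5 A (by omega)
  have hI6c : (I6.card : ℝ) ≤ 32 * (A : ℝ) ^ 2 / ((M : ℝ) ^ 3 * y2) := by
    rw [hI6]
    convert hA6 A (by omega)
  have hI7c : (I7.card : ℝ) ≤ 2000 * (A : ℝ) ^ 2 / ((M : ℝ) ^ 3 * y2) := by
    rw [hI7]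
    convert hA7 A (by omega)
  have hI8c : (I8.card : ℝ) ≤ 1 / (16384 * (M : ℝ) ^ 3) * ((128 * A ^ 2 : ℕ) : ℝ) + K2 := by
    refine le_trans ?_ (hY2 (128 * A ^ 2))
    have hinj : Set.InjOn (fun i : (_ : ℕ) × (ℤ × ℤ) => (fv i.1 i.2, fw i.1 i.2)) (I8 : Set ((_ : ℕ) × (ℤ × ℤ))) := by
      intro i hi j hj he
      have hi' := Finset.mem_coe.1 hi
      have hj' := Finset.mem_coe.1 hj
      rw [hI8] at hi' hj'
      obtain ⟨e1, e2⟩ := fv_inj (hImem i (mem_filter.1 hi').1).2.1 (hImem j (mem_filter.1 hj').1).2.1 (congrArg Prod.fst he)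
      exact Sigma.ext e1 (heq_of_eq e2)
    rw [← Finset.card_image_of_injOn hinj]
    refine FrS_tc (A := A) (by omega) le_rfl _ _ ?_ ?_
    · intro z hz
      obtain ⟨i, hi, rfl⟩ := mem_image.1 hz
      rw [hI8] at hi
      obtain ⟨⟨⟨a1, a2⟩, a3, -⟩, a4, a5, a6⟩ := hImem i (mem_filter.1 hi).1
      obtain ⟨v1, v2, v3, -⟩ := fr_v a4
      obtain ⟨w1, w2, w3, -⟩ := fr_w a4
      have a1z : (A : ℤ) < i.1 := by exact_mod_cast a1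
      have a2z : (i.1 : ℤ) ≤ 2 * A := by exact_mod_cast a2
      exact ⟨⟨v1, w1, fr_dt a4⟩, ⟨by linarith, by linarith⟩, by linarith, by linarith⟩
    · intro z hz
      obtain ⟨i, hi, rfl⟩ := mem_image.1 hz
      rw [hI8] at hi
      exact (mem_filter.1 hi).2
  obtain ⟨J, hJ⟩ : ∃ J : Finset ((_ : ℕ) × (ℤ × ℤ)), J = I.filter (fun i => (Gb Bd M (fv i.1 i.2) ∧ Gb Bd M (fw i.1 i.2)) ∧
    Sq (fv i.1 i.2, fw i.1 i.2)) := ⟨_, rfl⟩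
  have hIN1 : ∀ i ∈ I, i.1 ∈ N1 M A := by
    intro i hi
    obtain ⟨⟨h1, h2, -⟩, -⟩ := hImem i hi
    unfold N1
    exact mem_filter.2 ⟨mem_Ioc.2 h1, h2⟩
  have hsq : ∀ i ∈ I, ¬ Sq (fv i.1 i.2, fw i.1 i.2) → i ∈ (I5 ∪ I6) ∪ (I7 ∪ I8) := by
    intro i hi hn
    have hi0 := hi
    rw [hI, mem_sigma] at hi0
    rw [hSq] at hn
    push Not at hn
    obtain ⟨l, hl, hlM, hd⟩ := hn
    rcases Nat.lt_or_ge Y2 l with h1 | h1
    · simp only [mem_union]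
      right; right
      rw [hI8]
      exact mem_filter.2 ⟨hi, l, hl, h1, hd⟩
    · have hlP : l ∈ L := by
        rw [hLd, mem_filter, mem_range]
        exact ⟨by omega, hl, hlM⟩
      obtain ⟨-, a4, -⟩ := hImem i hi
      rcases FrS_sq (fr_v a4).1 (fr_w a4).1 (fr_dt a4) hl hd with h2 | h2 | h2
      · simp only [mem_union]
        left; left
        rw [hI5, mem_sigma]
        exact ⟨hIN1 i hi, mem_biUnion.2 ⟨l, hlP, mem_filter.2 ⟨hi0.2, h2⟩⟩⟩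
      · simp only [mem_union]
        right; left
        rw [hI7]
        refine mem_biUnion.2 ⟨l, hlP, mem_sigma.2 ⟨hIN1 i hi, mem_filter.2 ⟨?_, h2⟩⟩⟩
        rw [← hc]
        exact hi0.2
      · simp only [mem_union]
        left; right
        rw [hI6, mem_sigma]
        exact ⟨hIN1 i hi, mem_biUnion.2 ⟨l, hlP, mem_filter.2 ⟨hi0.2, h2⟩⟩⟩
  have hcov : I ⊆ J ∪ (((I1 ∪ I2) ∪ (I3 ∪ I4)) ∪ ((I5 ∪ I6) ∪ (I7 ∪ I8))) := by
    intro i hi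
    obtain ⟨h1, h2⟩ := hcopv i hi
    have hi0 := hi
    rw [hI, mem_sigma] at hi0
    by_cases hs : Sq (fv i.1 i.2, fw i.1 i.2)
    · by_cases hv : Gb Bd M (fv i.1 i.2)
      · by_cases hw : Gb Bd M (fw i.1 i.2)
        · rw [mem_union]
          left
          rw [hJ]
          exact mem_filter.2 ⟨hi, ⟨hv, hw⟩, hs⟩
        · rcases hsplit _ h2 hw with h3 | ⟨l, hl, h3⟩
          · rw [mem_union]
            right
            rw [mem_union]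
            left
            simp only [mem_union]
            right; right
            rw [hI4]
            exact mem_filter.2 ⟨hi, h3⟩
          · rw [mem_union]
            right
            rw [mem_union]
            left
            simp only [mem_union]
            left; right
            rw [hI2, mem_sigma]
            exact ⟨hi0.1, mem_biUnion.2 ⟨l, hl, mem_filter.2 ⟨hi0.2, h3⟩⟩⟩
      · rcases hsplit _ h1 hv with h3 | ⟨l, hl, h3⟩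
        · rw [mem_union]
          right
          rw [mem_union]
          left
          simp only [mem_union]
          right; left
          rw [hI3]
          exact mem_filter.2 ⟨hi, h3⟩
        · rw [mem_union]
          right
          rw [mem_union]
          left
          simp only [mem_union]
          left; left
          rw [hI1, mem_sigma]
          exact ⟨hi0.1, mem_biUnion.2 ⟨l, hl, mem_filter.2 ⟨hi0.2, h3⟩⟩⟩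
    · rw [mem_union]
      right
      rw [mem_union]
      right
      exact hsq i hi hs
  have hcard : (I.card : ℝ) ≤ (J.card : ℝ) + (((I1.card : ℝ) + I2.card + ((I3.card : ℝ) + I4.card)) +
      ((I5.card : ℝ) + I6.card + ((I7.card : ℝ) + I8.card))) := by
    have u : ∀ X Y : Finset ((_ : ℕ) × (ℤ × ℤ)), ((X ∪ Y).card : ℝ) ≤ X.card + Y.card := fun X Y => by
      exact_mod_cast Finset.card_union_le X Y
    have h1 : (I.card : ℝ) ≤ ((J ∪ (((I1 ∪ I2) ∪ (I3 ∪ I4)) ∪ ((I5 ∪ I6) ∪ (I7 ∪ I8)))).card : ℝ) := by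
      exact_mod_cast Finset.card_le_card hcov
    have u1 := u J (((I1 ∪ I2) ∪ (I3 ∪ I4)) ∪ ((I5 ∪ I6) ∪ (I7 ∪ I8)))
    have u2 := u ((I1 ∪ I2) ∪ (I3 ∪ I4)) ((I5 ∪ I6) ∪ (I7 ∪ I8))
    have u3 := u (I1 ∪ I2) (I3 ∪ I4)
    have u4 := u I1 I2
    have u5 := u I3 I4
    have u6 := u (I5 ∪ I6) (I7 ∪ I8)
    have u7 := u I5 I6
    have u8 := u I7 I8
    linarith
  have hJc : 1 / (16 * (M : ℝ) ^ 3) * (A : ℝ) ^ 2 ≤ (J.card : ℝ) :=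
    FrS_fin (by exact_mod_cast hM) (by exact_mod_cast (by omega : 1 ≤ A)) hy20 (by exact_mod_cast (by omega : A8 ≤ A)) hA8 hΦ1 hIc
      hI1c hI2c (by push_cast at hI3c; exact hI3c) (by push_cast at hI4c; exact hI4c) hI5c hI6c hI7c
      (by push_cast at hI8c; exact hI8c) hcard
  refine ⟨J.image (fun i => (fv i.1 i.2, fw i.1 i.2)), ?_, ?_⟩
  · rw [Finset.card_image_of_injOn]
    · exact hJc
    · intro i hi j hj he
      have hi' := Finset.mem_coe.1 hi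
      have hj' := Finset.mem_coe.1 hj
      rw [hJ] at hi' hj'
      obtain ⟨e1, e2⟩ := fv_inj (hImem i (mem_filter.1 hi').1).2.1 (hImem j (mem_filter.1 hj').1).2.1 (congrArg Prod.fst he)
      exact Sigma.ext e1 (heq_of_eq e2)
  · intro z hz
    obtain ⟨i, hi, rfl⟩ := mem_image.1 hz
    rw [hJ] at hi
    obtain ⟨hi1, hi2, hi3⟩ := mem_filter.1 hi
    obtain ⟨⟨⟨a1, a2⟩, a3, -⟩, a4, a5, a6⟩ := hImem i hi1
    obtain ⟨v1, v2, v3, -⟩ := fr_v a4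
    obtain ⟨w1, w2, w3, -⟩ := fr_w a4
    have a1z : (A : ℤ) < i.1 := by exact_mod_cast a1
    have a2z : (i.1 : ℤ) ≤ 2 * A := by exact_mod_cast a2
    have ec1 : c.1 = 0 := by rw [hc]
    have ec2 : c.2 = e := by rw [hc]
    rw [ec1] at a5
    rw [ec2] at a6
    refine ⟨⟨v1, w1, fr_dt a4⟩, ⟨⟨by linarith, by linarith⟩, by linarith, by linarith⟩, ⟨⟨?_, ?_⟩, ?_, ?_⟩, hi2, (hSq _).1 hi3⟩
    · exact a3
    · exact a5
    · show (M : ℤ) ∣ i.2.2 + i.1 - (e + 1)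
      have := dvd_add a6 a3
      have e1 : i.2.2 - e + ((i.1 : ℤ) - 1) = i.2.2 + i.1 - (e + 1) := by ring
      rwa [e1] at this
    · show (M : ℤ) ∣ (i.2.1 * i.2.2 + 1) / (i.1 : ℤ) + i.2.1 - 1
      have ht := FrS_t a4
      generalize (i.2.1 * i.2.2 + 1) / (i.1 : ℤ) = t at ht
      have e1 : t + i.2.1 - 1 = (i.2.1 - 0) * (i.2.2 + 1) - ((i.1 : ℤ) - 1) * t := by
        linear_combination ht
      rw [e1]
      exact dvd_sub (Dvd.dvd.mul_right a5 _) (Dvd.dvd.mul_right a3 _)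

end Pool.Agent.Lib.MP_d57abb_nt.GV
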