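import Pool.Agent.Lib.MP_d57abb_nt.GV.Fr

/-!
# Frames for which the norm of the second vector is divisible by the square of a prime
-/

namespace Pool.Agent.Lib.MP_d57abb_nt.GV

open Finset

attribute [local instance] GT.lab0

private theorem RelB_ns {l : ℕ} (hl : l.Prime) {m j : ℤ} (hm : ¬ (l : ℤ) ∣ m)
    (hj : (l : ℤ) ^ 2 ∣ j ^ 2 + 3 * j * m + m ^ 2) : ¬ (l : ℤ) ∣ 2 * j + 3 * m := by
  intro h
  have hlp : Prime (l : ℤ) := Nat.prime_iff_prime_int.1 hl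
  have h1 : (l : ℤ) ^ 2 ∣ (2 * j + 3 * m) ^ 2 := pow_dvd_pow_of_dvd h 2
  have h2 : (l : ℤ) ^ 2 ∣ 5 * m ^ 2 := by
    have := dvd_sub h1 (Dvd.dvd.mul_left hj 4)
    have e : (2 * j + 3 * m) ^ 2 - 4 * (j ^ 2 + 3 * j * m + m ^ 2) = 5 * m ^ 2 := by ring
    rwa [e] at this
  have h3 : (l : ℤ) ∣ 5 * m ^ 2 := (dvd_pow_self _ (by norm_num)).trans h2
  rcases hlp.dvd_or_dvd h3 with h4 | h4
  · have h5 : l ∣ 5 := by exact_mod_cast h4
    have h6 : l = 5 := (Nat.prime_dvd_prime_iff_eq hl (by norm_num)).1 h5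
    subst h6
    have h7 : (5 : ℤ) ∣ m ^ 2 := by
      obtain ⟨c, hc⟩ := h2
      push_cast at hc
      exact ⟨c, by linarith⟩
    have h8 : ((5 : ℕ) : ℤ) ∣ m ^ 2 := by exact_mod_cast h7
    exact hm (hlp.dvd_of_dvd_pow h8)
  · exact hm (hlp.dvd_of_dvd_pow h4)

private theorem RelB_quad {l : ℕ} (hl : l.Prime) {m : ℤ} (hm : ¬ (l : ℤ) ∣ m) :
    ((range (l ^ 2)).filter (fun j : ℕ => (l : ℤ) ^ 2 ∣ (j : ℤ) ^ 2 + 3 * j * m + m ^ 2)).card ≤ 2 := by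
  have hlp : Prime (l : ℤ) := Nat.prime_iff_prime_int.1 hl
  by_contra hcon
  push Not at hcon
  obtain ⟨a, ha, b, hb, c, hc, hab, hac, hbc⟩ := Finset.two_lt_card.1 hcon
  rw [mem_filter, mem_range] at ha hb hc
  have hne : ∀ x y : ℕ, x < l ^ 2 → y < l ^ 2 → x ≠ y → ¬ (l : ℤ) ^ 2 ∣ (x : ℤ) - y := by
    intro x y hx hy hxy hd
    have hx' : (x : ℤ) < (l : ℤ) ^ 2 := by exact_mod_cast hx
    have hy' : (y : ℤ) < (l : ℤ) ^ 2 := by exact_mod_cast hy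
    have h1 : (x : ℤ) - y = 0 := by
      refine Int.eq_zero_of_abs_lt_dvd hd ?_
      rw [abs_lt]
      constructor <;> omega
    omega
  have key : ∀ x y : ℕ, x < l ^ 2 → y < l ^ 2 → x ≠ y → (l : ℤ) ^ 2 ∣ (x : ℤ) ^ 2 + 3 * x * m + m ^ 2 →
      (l : ℤ) ^ 2 ∣ (y : ℤ) ^ 2 + 3 * y * m + m ^ 2 → (l : ℤ) ^ 2 ∣ (x : ℤ) + y + 3 * m := by
    intro x y hx hy hxy h1 h2
    have h3 := dvd_sub h1 h2
    have e : (x : ℤ) ^ 2 + 3 * x * m + m ^ 2 - ((y : ℤ) ^ 2 + 3 * y * m + m ^ 2) = ((x : ℤ) - y) * ((x : ℤ) + y + 3 * m) := by ring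
    rw [e] at h3
    by_cases h4 : (l : ℤ) ∣ (x : ℤ) + y + 3 * m
    · have h5 : ¬ (l : ℤ) ∣ (x : ℤ) - y := by
        intro h5
        apply RelB_ns hl hm h1
        have := dvd_add h4 h5
        have e : (x : ℤ) + y + 3 * m + (x - y) = 2 * x + 3 * m := by ring
        rwa [e] at this
      have h6 : IsCoprime ((l : ℤ) ^ 2) ((x : ℤ) - y) := ((hlp.irreducible.coprime_iff_not_dvd).2 h5).pow_left
      exact h6.dvd_of_dvd_mul_left h3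
    · exfalso
      have h6 : IsCoprime ((l : ℤ) ^ 2) ((x : ℤ) + y + 3 * m) := ((hlp.irreducible.coprime_iff_not_dvd).2 h4).pow_left
      exact hne x y hx hy hxy (h6.dvd_of_dvd_mul_right h3)
  have h1 := key a b ha.1 hb.1 hab ha.2 hb.2
  have h2 := key a c ha.1 hc.1 hac ha.2 hc.2
  have h3 := dvd_sub h1 h2
  have e : (a : ℤ) + b + 3 * m - ((a : ℤ) + c + 3 * m) = (b : ℤ) - c := by ring
  rw [e] at h3
  exact hne b c hb.1 hc.1 hbc h3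

/-- the pairs which belong to the second coordinate `m` of the second vector -/
private noncomputable def RelB_S (A M l : ℕ) (e : ℤ) (m : ℕ) : Finset (ℤ × ℤ) :=
  (Ioc (0 : ℤ) (4 * A) ×ˢ Ico (0 : ℤ) m).filter (fun y => (m : ℤ) ∣ y.1 * y.2 + 1 ∧
    (l : ℤ) ^ 2 ∣ y.1 ^ 2 + 3 * y.1 * m + (m : ℤ) ^ 2 ∧ (M : ℤ) ∣ y.1 - (e + 1) ∧ (M : ℤ) ∣ y.2)

private theorem RelB_res {q : ℕ} (hq : 0 < q) (z : ℤ) : ∃ i : ℕ, i < q ∧ (q : ℤ) ∣ z - i := by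
  have hqz : (0 : ℤ) < q := by exact_mod_cast hq
  have h1 := Int.emod_nonneg z hqz.ne'
  have h2 := Int.emod_lt_of_pos z hqz
  refine ⟨(z % q).toNat, by omega, z / q, ?_⟩
  have h3 := Int.emod_add_mul_ediv z (q : ℤ)
  rw [Int.toNat_of_nonneg h1]
  linarith

private theorem RelB_T {M l : ℕ} (hM : 0 < M) (hl : l.Prime) (hlM : ¬ l ∣ M) (e : ℤ) : ∃ n0 : ℕ, 0 < n0 ∧
    ∀ m : ℕ, n0 ≤ m → m.Coprime M → ∀ A : ℕ, m ≤ 4 * A →
      ((RelB_S A M l e m).card : ℝ) ≤ 32 * A / ((M : ℝ) ^ 2 * (l : ℝ) ^ 2) := by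
  classical
  have hl0 := hl.pos
  have hlp : Prime (l : ℤ) := Nat.prime_iff_prime_int.1 hl
  have hM0 : (0 : ℝ) < M := by exact_mod_cast hM
  have hlr : (0 : ℝ) < l := by exact_mod_cast hl0
  have hQ : 0 < M * l ^ 2 := Nat.mul_pos hM (pow_pos hl0 2)
  obtain ⟨n0, hn0⟩ := GA.TA.law (M * l ^ 2) hQ 1 one_pos
  refine ⟨n0 + 1, Nat.succ_pos _, fun m hm hc A hmA => ?_⟩
  have hm0 : 0 < m := by omega
  have hmr : (0 : ℝ) < m := by exact_mod_cast hm0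
  have hmz : (0 : ℤ) < m := by exact_mod_cast hm0
  have hAr : (m : ℝ) ≤ 4 * A := by exact_mod_cast hmA
  by_cases hlm : (l : ℤ) ∣ m
  · have h0 : RelB_S A M l e m = ∅ := by
      unfold RelB_S
      refine filter_eq_empty_iff.2 ?_
      rintro y - ⟨h1, h2, -, -⟩
      have h3 : (l : ℤ) ∣ y.1 ^ 2 := by
        have h4 : (l : ℤ) ∣ y.1 ^ 2 + 3 * y.1 * m + (m : ℤ) ^ 2 := (dvd_pow_self _ (by norm_num)).trans h2
        have h5 : (l : ℤ) ∣ 3 * y.1 * m + (m : ℤ) ^ 2 :=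
          dvd_add (Dvd.dvd.mul_left hlm _) (Dvd.dvd.pow hlm (by norm_num))
        have h6 := dvd_sub h4 h5
        have e : y.1 ^ 2 + 3 * y.1 * m + (m : ℤ) ^ 2 - (3 * y.1 * m + (m : ℤ) ^ 2) = y.1 ^ 2 := by ring
        rwa [e] at h6
      have h4 : (l : ℤ) ∣ y.1 := hlp.dvd_of_dvd_pow h3
      have h5 : (l : ℤ) ∣ 1 := by
        have h6 := dvd_sub (hlm.trans h1) (Dvd.dvd.mul_right h4 y.2)
        have e : y.1 * y.2 + 1 - y.1 * y.2 = 1 := by ring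
        rwa [e] at h6
      have h6 : l ∣ 1 := by exact_mod_cast h5
      exact hl.one_lt.ne' (Nat.dvd_one.1 h6)
    rw [h0, card_empty, Nat.cast_zero]
    positivity
  have hlmN : ¬ l ∣ m := fun h => hlm (by exact_mod_cast h)
  have hcop : m.Coprime (M * l ^ 2) :=
    Nat.Coprime.mul_right hc (Nat.Coprime.pow_right 2 ((Nat.Prime.coprime_iff_not_dvd hl).2 hlmN).symm)
  have hcopM : IsCoprime (M : ℤ) ((l : ℤ) ^ 2) := by
    have h1 : IsCoprime (M : ℤ) (l : ℤ) := by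
      rw [Nat.isCoprime_iff_coprime]
      exact ((Nat.Prime.coprime_iff_not_dvd hl).2 hlM).symm
    exact h1.pow_right
  obtain ⟨W, hW⟩ : ∃ W : ℕ → ℕ → ℕ → Finset (ℤ × ℤ), ∀ i j y, W i j y =
      (Ioc ((i : ℤ) * m) ((i : ℤ) * m + m) ×ˢ Ico (0 : ℤ) m).filter (fun z => (m : ℤ) ∣ z.1 * z.2 + 1 ∧
        ((l : ℤ) ^ 2 ∣ z.1 - j ∧ (l : ℤ) ^ 2 ∣ z.2 - y) ∧ (M : ℤ) ∣ z.1 - (e + 1) ∧ (M : ℤ) ∣ z.2) := ⟨_, fun _ _ _ => rfl⟩
  have hWc : ∀ i j y, ((W i j y).card : ℝ) ≤ 2 * m / ((M : ℝ) * (l : ℝ) ^ 2) ^ 2 := by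
    intro i j y
    rcases (W i j y).eq_empty_or_nonempty with h0 | ⟨x0, hx0⟩
    · rw [h0, card_empty, Nat.cast_zero]
      positivity
    · have h1 := hn0 m (by omega) hcop ((i : ℤ) * m) x0.1 x0.2
      have h2 : ((W i j y).card : ℝ) ≤ (((Ioc ((i : ℤ) * m) ((i : ℤ) * m + m) ×ˢ Ico (0 : ℤ) m).filter
          (fun x => (m : ℤ) ∣ x.1 * x.2 + 1 ∧ ((M * l ^ 2 : ℕ) : ℤ) ∣ x.1 - x0.1 ∧ ((M * l ^ 2 : ℕ) : ℤ) ∣ x.2 - x0.2)).card : ℝ) := by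
        have hsub : W i j y ⊆ (Ioc ((i : ℤ) * m) ((i : ℤ) * m + m) ×ˢ Ico (0 : ℤ) m).filter
          (fun x => (m : ℤ) ∣ x.1 * x.2 + 1 ∧ ((M * l ^ 2 : ℕ) : ℤ) ∣ x.1 - x0.1 ∧ ((M * l ^ 2 : ℕ) : ℤ) ∣ x.2 - x0.2) := by
          intro x hx
          rw [hW] at hx hx0
          obtain ⟨hx1, hx2, ⟨hx3, hx4⟩, hx5, hx6⟩ := mem_filter.1 hx
          obtain ⟨-, -, ⟨hy3, hy4⟩, hy5, hy6⟩ := mem_filter.1 hx0
          refine mem_filter.2 ⟨hx1, hx2, ?_, ?_⟩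
          · push_cast
            refine hcopM.mul_dvd ?_ ?_
            · have := dvd_sub hx5 hy5
              have e' : x.1 - (e + 1) - (x0.1 - (e + 1)) = x.1 - x0.1 := by ring
              rwa [e'] at this
            · have := dvd_sub hx3 hy3
              have e' : x.1 - (j : ℤ) - (x0.1 - j) = x.1 - x0.1 := by ring
              rwa [e'] at this
          · push_cast
            refine hcopM.mul_dvd (dvd_sub hx6 hy6) ?_
            have := dvd_sub hx4 hy4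
            have e' : x.2 - (y : ℤ) - (x0.2 - y) = x.2 - x0.2 := by ring
            rwa [e'] at this
        exact_mod_cast card_le_card hsub
      refine h2.trans (h1.trans ?_)
      have h3 : (m.totient : ℝ) ≤ m := by exact_mod_cast Nat.totient_le m
      push_cast
      have h4 : (0 : ℝ) < ((M : ℝ) * (l : ℝ) ^ 2) ^ 2 := by positivity
      refine div_le_div_of_nonneg_right ?_ h4.le
      linarith
  obtain ⟨R, hR⟩ : ∃ R : Finset ℕ, R = (range (l ^ 2)).filter (fun j : ℕ => (l : ℤ) ^ 2 ∣ (j : ℤ) ^ 2 + 3 * j * (m : ℤ) + (m : ℤ) ^ 2) :=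
    ⟨_, rfl⟩
  have hRc : R.card ≤ 2 := by
    rw [hR]
    exact RelB_quad hl hlm
  have hcov : RelB_S A M l e m ⊆ (range (4 * A / m + 1) ×ˢ (R ×ˢ range (l ^ 2))).biUnion (fun p => W p.1 p.2.1 p.2.2) := by
    intro z hz
    unfold RelB_S at hz
    rw [mem_filter, mem_product, mem_Ioc, mem_Ico] at hz
    obtain ⟨⟨⟨hz1, hz2⟩, hz3, hz4⟩, hz5, hz6, hz7, hz8⟩ := hz
    obtain ⟨j, hj, hdj⟩ := RelB_res (pow_pos hl0 2) z.1
    obtain ⟨y, hy, hdy⟩ := RelB_res (pow_pos hl0 2) z.2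
    push_cast at hdj hdy
    have h1 := Int.emod_nonneg (z.1 - 1) hmz.ne'
    have h2 := Int.emod_lt_of_pos (z.1 - 1) hmz
    have h3 := Int.emod_add_mul_ediv (z.1 - 1) (m : ℤ)
    have h4 : 0 ≤ (z.1 - 1) / (m : ℤ) := Int.ediv_nonneg (by omega) hmz.le
    obtain ⟨i, hi⟩ := Int.eq_ofNat_of_zero_le h4
    have hi' : (z.1 - 1) / (m : ℤ) = (i : ℤ) := hi
    rw [hi'] at h3
    refine mem_biUnion.2 ⟨(i, j, y), ?_, ?_⟩
    · rw [mem_product, mem_product, mem_range, mem_range, hR, mem_filter, mem_range]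
      refine ⟨?_, ⟨hj, ?_⟩, hy⟩
      · have h5 : i * m ≤ 4 * A := by
          have h6 : (i : ℤ) * m ≤ 4 * A := by nlinarith
          exact_mod_cast h6
        exact Nat.lt_succ_of_le ((Nat.le_div_iff_mul_le hm0).2 h5)
      · have e' : (j : ℤ) ^ 2 + 3 * j * (m : ℤ) + (m : ℤ) ^ 2 = z.1 ^ 2 + 3 * z.1 * m + (m : ℤ) ^ 2 -
            (z.1 - j) * (z.1 + j + 3 * m) := by ring
        show (l : ℤ) ^ 2 ∣ (j : ℤ) ^ 2 + 3 * j * (m : ℤ) + (m : ℤ) ^ 2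
        rw [e']
        exact dvd_sub hz6 (Dvd.dvd.mul_right hdj _)
    · show z ∈ W i j y
      rw [hW, mem_filter, mem_product, mem_Ioc, mem_Ico]
      refine ⟨⟨⟨?_, ?_⟩, hz3, hz4⟩, hz5, ⟨hdj, hdy⟩, hz7, hz8⟩
      · nlinarith
      · nlinarith
  have h5 : ((RelB_S A M l e m).card : ℝ) ≤ ∑ p ∈ range (4 * A / m + 1) ×ˢ (R ×ˢ range (l ^ 2)), ((W p.1 p.2.1 p.2.2).card : ℝ) := by
    have := (card_le_card hcov).trans card_biUnion_le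
    exact_mod_cast this
  refine h5.trans ((sum_le_sum fun p _ => hWc p.1 p.2.1 p.2.2).trans ?_)
  rw [sum_const, nsmul_eq_mul, card_product, card_product, card_range, card_range]
  have h6 : ((4 * A / m + 1 : ℕ) : ℝ) ≤ 8 * A / m := by
    have h7 : ((4 * A / m : ℕ) : ℝ) ≤ 4 * A / m := by
      have := Nat.cast_div_le (α := ℝ) (m := 4 * A) (n := m)
      push_cast at this
      exact this
    have h8 : (1 : ℝ) ≤ 4 * A / m := by
      rw [le_div_iff₀ hmr]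
      linarith
    push_cast
    have h9 : (8 : ℝ) * A / m = 4 * A / m + 4 * A / m := by ring
    rw [h9]
    exact add_le_add h7 h8
  have h7 : (R.card : ℝ) ≤ 2 := by exact_mod_cast hRc
  calc (((4 * A / m + 1) * (R.card * l ^ 2) : ℕ) : ℝ) * (2 * m / ((M : ℝ) * (l : ℝ) ^ 2) ^ 2)
      = ((4 * A / m + 1 : ℕ) : ℝ) * (R.card * (l : ℝ) ^ 2) * (2 * m / ((M : ℝ) * (l : ℝ) ^ 2) ^ 2) := by push_cast; ring
    _ ≤ (8 * A / m) * (2 * (l : ℝ) ^ 2) * (2 * m / ((M : ℝ) * (l : ℝ) ^ 2) ^ 2) := by gcongr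
    _ = 32 * A / ((M : ℝ) ^ 2 * (l : ℝ) ^ 2) := by
        field_simp
        ring

private theorem RelB_mem {A M l n : ℕ} {e : ℤ} (hM : 0 < M) (hn1 : A < n) (hn2 : n ≤ 2 * A) (hnM : (M : ℤ) ∣ (n : ℤ) - 1)
    {x : ℤ × ℤ} (hx : x ∈ Hc n M (0, e)) (hl : (l : ℤ) ^ 2 ∣ nm (fw n x)) :
    0 ≤ (fw n x).2 ∧ (fw n x).2 ≤ 4 * A ∧ (M : ℤ) ∣ (fw n x).2 - 1 ∧
      ((fw n x).1, x.1) ∈ RelB_S A M l e (fw n x).2.toNat := by
  unfold Hc at hx
  obtain ⟨hx1, hx2, hx3⟩ := mem_filter.1 hx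
  have hd := fr_dt hx1
  obtain ⟨⟨⟨a1, a2⟩, a3, a4⟩, a5⟩ := mem_HH.1 hx1
  have hn0 : (0 : ℤ) < n := by linarith
  have ht : (n : ℤ) * ((x.1 * x.2 + 1) / n) = x.1 * x.2 + 1 := Int.mul_ediv_cancel' a5
  have e1 : (fw n x).1 = x.2 + n := rfl
  have e2 : (fw n x).2 = (x.1 * x.2 + 1) / (n : ℤ) + x.1 := rfl
  have e3 : (fv n x).1 = n := rfl
  have e4 : (fv n x).2 = x.1 := rfl
  unfold dt at hd
  rw [e3, e4] at hd
  have h0 : 0 ≤ x.1 * x.2 := mul_nonneg a1.le a3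
  have t1 : 1 ≤ (x.1 * x.2 + 1) / (n : ℤ) := by
    by_contra h2
    have h3 : (x.1 * x.2 + 1) / (n : ℤ) ≤ 0 := by omega
    have h4 : (n : ℤ) * ((x.1 * x.2 + 1) / (n : ℤ)) ≤ 0 := mul_nonpos_of_nonneg_of_nonpos hn0.le h3
    linarith
  have t2 : (x.1 * x.2 + 1) / (n : ℤ) ≤ n := by
    by_contra h2
    have h3 : (n : ℤ) + 1 ≤ (x.1 * x.2 + 1) / (n : ℤ) := by omega
    have h4 : (n : ℤ) * (n + 1) ≤ n * ((x.1 * x.2 + 1) / (n : ℤ)) := mul_le_mul_of_nonneg_left h3 hn0.le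
    have h5 : x.1 * x.2 ≤ n * (n - 1) := mul_le_mul a2 (by linarith) a3 hn0.le
    nlinarith
  have hn2z : (n : ℤ) ≤ 2 * A := by exact_mod_cast hn2
  have hw2 : 0 ≤ (fw n x).2 := by
    rw [e2]
    linarith
  have hx2' : (M : ℤ) ∣ x.1 := by
    have h1 : (M : ℤ) ∣ x.1 - 0 := hx2
    rwa [sub_zero] at h1
  have hx3' : (M : ℤ) ∣ x.2 - e := hx3
  have hmM : (M : ℤ) ∣ (fw n x).2 - 1 := by
    have e5 : (fw n x).2 - 1 = (fw n x).1 * x.1 - ((n : ℤ) - 1) * (fw n x).2 := by linear_combination hd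
    rw [e5]
    exact dvd_sub (Dvd.dvd.mul_left hx2' _) (Dvd.dvd.mul_right hnM _)
  refine ⟨hw2, ?_, hmM, ?_⟩
  · rw [e2]
    linarith
  · have hcast : (((fw n x).2.toNat : ℕ) : ℤ) = (fw n x).2 := Int.toNat_of_nonneg hw2
    unfold RelB_S
    rw [mem_filter, mem_product, mem_Ioc, mem_Ico, hcast]
    refine ⟨⟨⟨?_, ?_⟩, ?_, ?_⟩, ?_, ?_, ?_, hx2'⟩
    · show 0 < (fw n x).1
      rw [e1]
      linarith
    · show (fw n x).1 ≤ 4 * A
      rw [e1]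
      linarith
    · exact a1.le
    · show x.1 < (fw n x).2
      rw [e2]
      linarith
    · show (fw n x).2 ∣ (fw n x).1 * x.1 + 1
      exact ⟨n, by linear_combination -hd⟩
    · show (l : ℤ) ^ 2 ∣ (fw n x).1 ^ 2 + 3 * (fw n x).1 * (fw n x).2 + (fw n x).2 ^ 2
      exact hl
    · show (M : ℤ) ∣ (fw n x).1 - (e + 1)
      have e5 : (fw n x).1 - (e + 1) = (x.2 - e) + ((n : ℤ) - 1) := by
        rw [e1]
        ring
      rw [e5]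
      exact dvd_add hx3' hnM

private theorem RelB_cop {m M : ℕ} (h : (M : ℤ) ∣ (m : ℤ) - 1) : m.Coprime M := by
  rw [← Nat.isCoprime_iff_coprime]
  obtain ⟨c, hc⟩ := h
  exact ⟨1, -c, by linarith⟩

private theorem RelB_cls {M : ℕ} (hM : 0 < M) (B : ℕ) :
    (((range (B + 1)).filter (fun m : ℕ => (M : ℤ) ∣ (m : ℤ) - 1)).card : ℝ) ≤ B / M + 1 := by
  have h1 : ((range (B + 1)).filter (fun m : ℕ => (M : ℤ) ∣ (m : ℤ) - 1)).card ≤ (range (B / M + 1)).card := by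
    refine card_le_card_of_injOn (fun m => m / M) ?_ ?_
    · intro m hm
      rw [mem_coe, mem_filter, mem_range] at hm
      rw [mem_coe, mem_range]
      exact Nat.lt_succ_of_le (Nat.div_le_div_right (by omega))
    · intro m hm m' hm' he
      rw [mem_coe, mem_filter, mem_range] at hm hm'
      have he' : m / M = m' / M := he
      have h2 : (M : ℤ) ∣ (m : ℤ) - m' := by
        have := dvd_sub hm.2 hm'.2
        have e : (m : ℤ) - 1 - ((m' : ℤ) - 1) = (m : ℤ) - m' := by ring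
        rwa [e] at this
      have h3 : m % M = m' % M := by
        have h4 : (m' : ℤ) ≡ m [ZMOD M] := Int.modEq_iff_dvd.2 h2
        exact ((Int.natCast_modEq_iff).1 h4).symm
      rw [← Nat.div_add_mod m M, ← Nat.div_add_mod m' M, he', h3]
  rw [card_range] at h1
  have h2 : ((B / M + 1 : ℕ) : ℝ) ≤ B / M + 1 := by
    push_cast
    have := Nat.cast_div_le (α := ℝ) (m := B) (n := M)
    linarith
  exact le_trans (by exact_mod_cast h1) h2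

open Classical in
theorem cnt_w2 {M l : ℕ} (hM : 0 < M) (hl : l.Prime) (hlM : ¬ l ∣ M) (e : ℤ) : ∃ A₀ : ℕ, ∀ A : ℕ, A₀ ≤ A →
    ((((Ioc A (2 * A)).filter (fun n : ℕ => (M : ℤ) ∣ (n : ℤ) - 1)).sigma
      (fun n => (Hc n M (0, e)).filter (fun x => (l : ℤ) ^ 2 ∣ nm (fw n x)))).card : ℝ) ≤
      2000 * (A : ℝ) ^ 2 / ((M : ℝ) ^ 3 * (l : ℝ) ^ 2) := by
  obtain ⟨n0, hn00, hn0⟩ := RelB_T hM hl hlM e
  have hMr : (0 : ℝ) < M := by exact_mod_cast hM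
  have hlr : (0 : ℝ) < l := by exact_mod_cast hl.pos
  refine ⟨M + 4 * n0 ^ 2 * M ^ 3 * l ^ 2 + 1, fun A hA => ?_⟩
  have hA0 : 0 < A := by omega
  have hAr : (0 : ℝ) < A := by exact_mod_cast hA0
  have hA1 : (M : ℝ) + 4 * (n0 : ℝ) ^ 2 * (M : ℝ) ^ 3 * (l : ℝ) ^ 2 + 1 ≤ A := by exact_mod_cast hA
  obtain ⟨Ms, hMs⟩ : ∃ Ms : Finset ℕ, Ms = (range (4 * A + 1)).filter (fun m : ℕ => (M : ℤ) ∣ (m : ℤ) - 1) := ⟨_, rfl⟩
  have hcard : (((Ioc A (2 * A)).filter (fun n : ℕ => (M : ℤ) ∣ (n : ℤ) - 1)).sigma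
      (fun n => (Hc n M (0, e)).filter (fun x => (l : ℤ) ^ 2 ∣ nm (fw n x)))).card ≤
      (Ms.sigma (fun m => RelB_S A M l e m)).card := by
    refine card_le_card_of_injOn (fun p => ⟨(fw p.1 p.2).2.toNat, ((fw p.1 p.2).1, p.2.1)⟩) ?_ ?_
    · rintro ⟨n, x⟩ hp
      rw [mem_coe, mem_sigma, mem_filter, mem_Ioc, mem_filter] at hp
      obtain ⟨⟨⟨h1, h2⟩, h3⟩, h4, h5⟩ := hp
      obtain ⟨k1, k2, k3, k4⟩ := RelB_mem hM h1 h2 h3 h4 h5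
      have k1a : 0 ≤ (fw n x).2 := k1
      have k2a : (fw n x).2 ≤ 4 * A := k2
      rw [mem_coe, mem_sigma]
      refine ⟨?_, k4⟩
      show (fw n x).2.toNat ∈ Ms
      have hcast : (((fw n x).2.toNat : ℕ) : ℤ) = (fw n x).2 := Int.toNat_of_nonneg k1
      rw [hMs, mem_filter, mem_range, hcast]
      exact ⟨by omega, k3⟩
    · rintro ⟨n, x⟩ hp ⟨n', x'⟩ hp' he
      rw [mem_coe, mem_sigma, mem_filter, mem_Ioc, mem_filter] at hp hp'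
      obtain ⟨⟨⟨h1, h2⟩, h3⟩, h4, h5⟩ := hp
      obtain ⟨⟨⟨h1', h2'⟩, h3'⟩, h4', h5'⟩ := hp'
      obtain ⟨k1, -, -, -⟩ := RelB_mem hM h1 h2 h3 h4 h5
      obtain ⟨k1', -, -, -⟩ := RelB_mem hM h1' h2' h3' h4' h5'
      have e1 : (fw n x).2.toNat = (fw n' x').2.toNat := congrArg Sigma.fst he
      have e2 : ((fw n x).1, x.1) = ((fw n' x').1, x'.1) := by
        have := (Sigma.mk.inj_iff.1 he).2
        exact eq_of_heq this
      have e3 : (fw n x).1 = (fw n' x').1 := (Prod.mk.inj e2).1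
      have e4 : (fw n x).2 = (fw n' x').2 := by
        have k1a : 0 ≤ (fw n x).2 := k1
        have k1b : 0 ≤ (fw n' x').2 := k1'
        have e1a : (fw n x).2.toNat = (fw n' x').2.toNat := e1
        omega
      unfold Hc at h4 h4'
      obtain ⟨r1, r2⟩ := fw_inj (mem_filter.1 h4).1 (mem_filter.1 h4').1 (Prod.ext e3 e4)
      have r1' : n = n' := r1
      have r2' : x = x' := r2
      subst r1'
      subst r2'
      rfl
  rw [card_sigma Ms] at hcard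
  have hcard' : ((((Ioc A (2 * A)).filter (fun n : ℕ => (M : ℤ) ∣ (n : ℤ) - 1)).sigma
      (fun n => (Hc n M (0, e)).filter (fun x => (l : ℤ) ^ 2 ∣ nm (fw n x)))).card : ℝ) ≤
      ∑ m ∈ Ms, ((RelB_S A M l e m).card : ℝ) := by
    exact_mod_cast hcard
  refine hcard'.trans ?_
  have hpt : ∀ m ∈ Ms, ((RelB_S A M l e m).card : ℝ) ≤ 32 * A / ((M : ℝ) ^ 2 * (l : ℝ) ^ 2) + (if m < n0 then 4 * A * n0 else 0 : ℝ) := by
    intro m hm
    rw [hMs, mem_filter, mem_range] at hm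
    by_cases h1 : m < n0
    · rw [if_pos h1]
      have h2 : (RelB_S A M l e m).card ≤ 4 * A * m := by
        unfold RelB_S
        refine (card_filter_le _ _).trans ?_
        rw [card_product, Int.card_Ioc, Int.card_Ico]
        have e1 : ((4 : ℤ) * A - 0).toNat = 4 * A := by omega
        have e2 : ((m : ℤ) - 0).toNat = m := by omega
        rw [e1, e2]
      have h3 : ((RelB_S A M l e m).card : ℝ) ≤ 4 * A * m := by exact_mod_cast h2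
      have h4 : (m : ℝ) ≤ n0 := by exact_mod_cast h1.le
      have h5 : (4 : ℝ) * A * m ≤ 4 * A * n0 := by gcongr
      have h6 : (0 : ℝ) ≤ 32 * A / ((M : ℝ) ^ 2 * (l : ℝ) ^ 2) := by positivity
      linarith
    · rw [if_neg h1, add_zero]
      exact hn0 m (not_lt.1 h1) (RelB_cop hm.2) A (by omega)
  refine (sum_le_sum hpt).trans ?_
  rw [sum_add_distrib, sum_const, nsmul_eq_mul]
  have h1 : (Ms.card : ℝ) ≤ 8 * A / M := by
    have h2 := RelB_cls hM (4 * A)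
    rw [← hMs] at h2
    push_cast at h2
    have h3 : (1 : ℝ) ≤ 4 * A / M := by
      rw [le_div_iff₀ hMr]
      have : (0 : ℝ) ≤ 4 * (n0 : ℝ) ^ 2 * (M : ℝ) ^ 3 * (l : ℝ) ^ 2 := by positivity
      linarith
    have h4 : (8 : ℝ) * A / M = 4 * A / M + 4 * A / M := by ring
    rw [h4]
    linarith
  have h2 : ∑ m ∈ Ms, (if m < n0 then 4 * A * n0 else 0 : ℝ) ≤ n0 * (4 * A * n0) := by
    rw [← sum_filter, sum_const, nsmul_eq_mul]
    refine mul_le_mul_of_nonneg_right ?_ (by positivity)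
    have h3 : (Ms.filter (fun m => m < n0)).card ≤ (range n0).card := by
      refine card_le_card fun m hm => ?_
      rw [mem_range]
      exact (mem_filter.1 hm).2
    rw [card_range] at h3
    exact_mod_cast h3
  have h3 : (Ms.card : ℝ) * (32 * A / ((M : ℝ) ^ 2 * (l : ℝ) ^ 2)) ≤ 256 * (A : ℝ) ^ 2 / ((M : ℝ) ^ 3 * (l : ℝ) ^ 2) := by
    calc (Ms.card : ℝ) * (32 * A / ((M : ℝ) ^ 2 * (l : ℝ) ^ 2)) ≤ (8 * A / M) * (32 * A / ((M : ℝ) ^ 2 * (l : ℝ) ^ 2)) := by gcongr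
      _ = 256 * (A : ℝ) ^ 2 / ((M : ℝ) ^ 3 * (l : ℝ) ^ 2) := by
        field_simp
        ring
  have h4 : (n0 : ℝ) * (4 * A * n0) ≤ (A : ℝ) ^ 2 / ((M : ℝ) ^ 3 * (l : ℝ) ^ 2) := by
    rw [le_div_iff₀ (by positivity)]
    have h5 : 4 * (n0 : ℝ) ^ 2 * (M : ℝ) ^ 3 * (l : ℝ) ^ 2 ≤ A := by linarith
    calc (n0 : ℝ) * (4 * A * n0) * ((M : ℝ) ^ 3 * (l : ℝ) ^ 2) = (A : ℝ) * (4 * (n0 : ℝ) ^ 2 * (M : ℝ) ^ 3 * (l : ℝ) ^ 2) := by ring
      _ ≤ (A : ℝ) * A := mul_le_mul_of_nonneg_left h5 hAr.le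
      _ = (A : ℝ) ^ 2 := by ring
  calc (Ms.card : ℝ) * (32 * A / ((M : ℝ) ^ 2 * (l : ℝ) ^ 2)) + ∑ m ∈ Ms, (if m < n0 then 4 * A * n0 else 0 : ℝ)
      ≤ 256 * (A : ℝ) ^ 2 / ((M : ℝ) ^ 3 * (l : ℝ) ^ 2) + (A : ℝ) ^ 2 / ((M : ℝ) ^ 3 * (l : ℝ) ^ 2) :=
        add_le_add h3 (h2.trans h4)
    _ = 257 * (A : ℝ) ^ 2 / ((M : ℝ) ^ 3 * (l : ℝ) ^ 2) := by ring
    _ ≤ 2000 * (A : ℝ) ^ 2 / ((M : ℝ) ^ 3 * (l : ℝ) ^ 2) := by gcongr; norm_num

end Pool.Agent.Lib.MP_d57abb_nt.GV
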