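import Pool.Agent.Lib.MP_d57abb_nt.GV.RelA
import Pool.Agent.Lib.MP_d57abb_nt.GV.RelB

/-!
# Frames whose norms are divisible by squares of primes of bounded size
-/

namespace Pool.Agent.Lib.MP_d57abb_nt.GV

open Finset GT

attribute [local instance] GT.lab0

/-- the first coordinates -/
noncomputable def N1 (M A : ℕ) : Finset ℕ := (Ioc A (2 * A)).filter (fun n : ℕ => (M : ℤ) ∣ (n : ℤ) - 1)

theorem inv_sq_sum {y : ℕ} (hy : 1 ≤ y) (P : Finset ℕ) (hP : ∀ l ∈ P, y < l) : ∑ l ∈ P, 1 / (l : ℝ) ^ 2 ≤ 1 / (y : ℝ) := by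
  have key : ∀ n : ℕ, ∑ l ∈ Ioc y (y + n), 1 / (l : ℝ) ^ 2 ≤ 1 / (y : ℝ) - 1 / ((y + n : ℕ) : ℝ) := by
    intro n
    induction n with
    | zero => simp
    | succ n ih =>
      have e : y + (n + 1) = (y + n) + 1 := by omega
      rw [e, ← Finset.insert_Ioc_right_eq_Ioc_add_one (by omega), Finset.sum_insert (by simp)]
      have h0 : (0 : ℝ) < ((y + n : ℕ) : ℝ) := by exact_mod_cast (by omega : 0 < y + n)
      have h1 : 1 / (((y + n + 1 : ℕ) : ℝ)) ^ 2 ≤ 1 / ((y + n : ℕ) : ℝ) - 1 / ((y + n + 1 : ℕ) : ℝ) := by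
        push_cast at h0 ⊢
        rw [div_sub_div _ _ h0.ne' (by positivity), div_le_div_iff₀ (by positivity) (by positivity)]
        nlinarith
      linarith
  have h1 : P ⊆ Ioc y (y + P.sup id) := by
    intro l hl
    have h2 : l ≤ P.sup id := Finset.le_sup (f := id) hl
    have h3 := hP l hl
    rw [mem_Ioc]
    omega
  refine (Finset.sum_le_sum_of_subset_of_nonneg h1 fun _ _ _ => by positivity).trans ((key _).trans ?_)
  have : (0 : ℝ) ≤ 1 / ((y + P.sup id : ℕ) : ℝ) := by positivity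
  linarith

theorem N1_card {M A : ℕ} (hM : 0 < M) : ((N1 M A).card : ℝ) ≤ A / M + 1 := by
  have h1 := ap_card (S := (N1 M A).image (fun n : ℕ => (n : ℤ))) (M := M) (lo := A) (hi := 2 * A) hM
    (by have : (0 : ℝ) ≤ A := Nat.cast_nonneg _
        linarith) ?_ ?_
  · rw [Finset.card_image_of_injective _ Nat.cast_injective] at h1
    refine h1.trans (le_of_eq ?_)
    ring
  · intro x hx
    obtain ⟨n, hn, rfl⟩ := mem_image.1 hx
    unfold N1 at hn
    obtain ⟨h2, -⟩ := mem_filter.1 hn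
    obtain ⟨h3, h4⟩ := mem_Ioc.1 h2
    constructor
    · have : (A : ℝ) ≤ n := by exact_mod_cast h3.le
      exact_mod_cast this
    · have : (n : ℝ) ≤ 2 * A := by exact_mod_cast h4
      exact_mod_cast this
  · intro x hx y hy
    obtain ⟨n, hn, rfl⟩ := mem_image.1 hx
    obtain ⟨m, hm, rfl⟩ := mem_image.1 hy
    unfold N1 at hn hm
    have e : (n : ℤ) - m = ((n : ℤ) - 1) - ((m : ℤ) - 1) := by ring
    rw [e]
    exact dvd_sub (mem_filter.1 hn).2 (mem_filter.1 hm).2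

theorem N1_sum {M A : ℕ} (hM : 0 < M) (hA : M ≤ A) : ∑ n ∈ N1 M A, (n.totient : ℝ) ≤ 4 * (A : ℝ) ^ 2 / M := by
  have hM0 : (0 : ℝ) < M := by exact_mod_cast hM
  have h1 : ∀ n ∈ N1 M A, (n.totient : ℝ) ≤ 2 * A := by
    intro n hn
    unfold N1 at hn
    have h2 := (mem_Ioc.1 (mem_filter.1 hn).1).2
    have h3 := Nat.totient_le n
    exact_mod_cast h3.trans h2
  refine (Finset.sum_le_sum h1).trans ?_
  rw [Finset.sum_const, nsmul_eq_mul]
  have h2 := N1_card (A := A) hM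
  have hA0 : (0 : ℝ) ≤ A := Nat.cast_nonneg _
  have h3 : (1 : ℝ) ≤ A / M := by
    rw [le_div_iff₀ hM0, one_mul]
    exact_mod_cast hA
  calc ((N1 M A).card : ℝ) * (2 * A) ≤ (2 * (A / M)) * (2 * A) :=
        mul_le_mul_of_nonneg_right (by linarith) (by positivity)
    _ = 4 * (A : ℝ) ^ 2 / M := by ring

open Classical in
/-- the small squares, counted for every first coordinate -/
theorem small_a {M y : ℕ} (hM : 0 < M) (hy : 1 ≤ y) (P : Finset ℕ) (hP : ∀ l ∈ P, y < l) (c : ℤ × ℤ)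
    (R : ℕ → ℕ → ℤ × ℤ → Prop) (hR : ∀ l ∈ P, ∃ n0 : ℕ, ∀ n : ℕ, n0 ≤ n → n.Coprime M →
      (((Hc n M c).filter (fun x => R l n x)).card : ℝ) ≤ 8 * n.totient / ((M : ℝ) ^ 2 * (l : ℝ) ^ 2)) :
    ∃ A₀ : ℕ, ∀ A : ℕ, A₀ ≤ A →
      (((N1 M A).sigma (fun n => (P.biUnion (fun l => (Hc n M c).filter (fun x => R l n x))))).card : ℝ) ≤
        32 * (A : ℝ) ^ 2 / ((M : ℝ) ^ 3 * y) := by
  have hM0 : (0 : ℝ) < M := by exact_mod_cast hM
  have hy0 : (0 : ℝ) < y := by exact_mod_cast hy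
  choose! n0 hn0 using hR
  refine ⟨M + P.sup n0, fun A hA => ?_⟩
  rw [card_sigma, Nat.cast_sum]
  have h1 : ∀ n ∈ N1 M A, (((P.biUnion (fun l => (Hc n M c).filter (fun x => R l n x))).card : ℕ) : ℝ) ≤
      8 / ((M : ℝ) ^ 2 * y) * n.totient := by
    intro n hn
    unfold N1 at hn
    obtain ⟨h2, h3⟩ := mem_filter.1 hn
    obtain ⟨h4, -⟩ := mem_Ioc.1 h2
    have hcop : n.Coprime M := by
      rw [← Nat.isCoprime_iff_coprime]
      obtain ⟨c, hc⟩ := h3
      exact ⟨1, -c, by linarith⟩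
    have h5 : (((P.biUnion (fun l => (Hc n M c).filter (fun x => R l n x))).card : ℕ) : ℝ) ≤
        ∑ l ∈ P, (((Hc n M c).filter (fun x => R l n x)).card : ℝ) := by
      exact_mod_cast Finset.card_biUnion_le
    refine h5.trans ((Finset.sum_le_sum fun l hl => hn0 l hl n (by
      have := Finset.le_sup (f := n0) hl
      omega) hcop).trans ?_)
    have e : ∀ l ∈ P, 8 * (n.totient : ℝ) / ((M : ℝ) ^ 2 * (l : ℝ) ^ 2) = 8 * n.totient / (M : ℝ) ^ 2 * (1 / (l : ℝ) ^ 2) := by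
      intro l hl
      have : (l : ℝ) ≠ 0 := by
        have := hP l hl
        exact_mod_cast (by omega : l ≠ 0)
      field_simp
    rw [Finset.sum_congr rfl e, ← Finset.mul_sum]
    refine (mul_le_mul_of_nonneg_left (inv_sq_sum hy P hP) (by positivity)).trans (le_of_eq ?_)
    field_simp
  refine (Finset.sum_le_sum h1).trans ?_
  rw [← Finset.mul_sum]
  refine (mul_le_mul_of_nonneg_left (N1_sum hM (by omega)) (by positivity)).trans (le_of_eq ?_)
  field_simp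
  ring

open Classical in
/-- the small squares which divide the norm of the second vector -/
theorem small_b {M y : ℕ} (hM : 0 < M) (hy : 1 ≤ y) (P : Finset ℕ) (hP : ∀ l ∈ P, y < l) (hPp : ∀ l ∈ P, l.Prime ∧ ¬ l ∣ M)
    (e : ℤ) : ∃ A₀ : ℕ, ∀ A : ℕ, A₀ ≤ A →
      ((P.biUnion (fun l => (N1 M A).sigma (fun n => (Hc n M (0, e)).filter (fun x => (l : ℤ) ^ 2 ∣ nm (fw n x))))).card : ℝ) ≤
        2000 * (A : ℝ) ^ 2 / ((M : ℝ) ^ 3 * y) := by
  have hM0 : (0 : ℝ) < M := by exact_mod_cast hM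
  have hy0 : (0 : ℝ) < y := by exact_mod_cast hy
  have hR := fun l (hl : l ∈ P) => cnt_w2 hM (hPp l hl).1 (hPp l hl).2 e
  choose! n0 hn0 using hR
  refine ⟨P.sup n0, fun A hA => ?_⟩
  have h5 : (((P.biUnion (fun l => (N1 M A).sigma
      (fun n => (Hc n M (0, e)).filter (fun x => (l : ℤ) ^ 2 ∣ nm (fw n x))))).card : ℕ) : ℝ) ≤
      ∑ l ∈ P, (((N1 M A).sigma (fun n => (Hc n M (0, e)).filter (fun x => (l : ℤ) ^ 2 ∣ nm (fw n x)))).card : ℝ) := by
    exact_mod_cast Finset.card_biUnion_le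
  refine h5.trans ((Finset.sum_le_sum fun l hl => hn0 l hl A ((Finset.le_sup (f := n0) hl).trans hA)).trans ?_)
  have e : ∀ l ∈ P, 2000 * (A : ℝ) ^ 2 / ((M : ℝ) ^ 3 * (l : ℝ) ^ 2) = 2000 * (A : ℝ) ^ 2 / (M : ℝ) ^ 3 * (1 / (l : ℝ) ^ 2) := by
    intro l hl
    have : (l : ℝ) ≠ 0 := by
      have := hP l hl
      exact_mod_cast (by omega : l ≠ 0)
    field_simp
  rw [Finset.sum_congr rfl e, ← Finset.mul_sum]
  refine (mul_le_mul_of_nonneg_left (inv_sq_sum hy P hP) (by positivity)).trans (le_of_eq ?_)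
  field_simp

end Pool.Agent.Lib.MP_d57abb_nt.GV
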