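import Pool.Agent.Lib.MP_d57abb_nt.GA.TA.Law

/-!
# Inverses modulo `n` in residue classes, uniformly in the modulus of the class
-/

namespace Pool.Agent.Lib.MP_d57abb_nt.GV

open Finset Pool.Agent.Lib.MP_d57abb_nt.GA.TA

private theorem KlU_maj (m : ℕ) (hm : 0 < m) :
    ∃ (D : ℕ) (c : ℤ → ℂ) (f : UnitAddCircle → ℝ), D ≤ m ∧ ‖c 0‖ ≤ 8 / (m : ℝ) ∧ (∀ x, 0 ≤ f x) ∧
      (∀ x, ‖x‖ ≤ (1 / (m : ℝ)) / 2 → 1 ≤ f x) ∧ ∑ h ∈ Icc (-(D : ℤ)) D, ‖c h‖ ≤ 2 ∧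
      ∀ x, (f x : ℂ) = ∑ h ∈ Icc (-(D : ℤ)) D, c h * (fourier h x : ℂ) := by
  have hmR : (0 : ℝ) < m := by exact_mod_cast hm
  obtain ⟨J, hJ⟩ : ∃ J, J = m / 4 + 1 := ⟨_, rfl⟩
  have hJ0 : 0 < J := by omega
  have hJR : (0 : ℝ) < J := by exact_mod_cast hJ0
  have hJm : (m : ℝ) ≤ 4 * J := by
    have : m ≤ 4 * J := by omega
    exact_mod_cast this
  obtain ⟨S, hS⟩ : ∃ S : Finset (ℕ × ℕ), S = range J ×ˢ range J := ⟨_, rfl⟩
  have hScard : S.card = J * J := by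
    rw [hS, card_product, card_range]
  obtain ⟨N, hN⟩ : ∃ N : ℤ → ℕ, ∀ h, N h = (S.filter (fun p => (p.1 : ℤ) - p.2 = h)).card := ⟨_, fun _ => rfl⟩
  have hmaps : ∀ p ∈ S, (p.1 : ℤ) - p.2 ∈ Icc (-((J - 1 : ℕ) : ℤ)) ((J - 1 : ℕ) : ℤ) := by
    intro p hp
    rw [hS, mem_product, mem_range, mem_range] at hp
    rw [mem_Icc]
    omega
  have hNsum : ∑ h ∈ Icc (-((J - 1 : ℕ) : ℤ)) ((J - 1 : ℕ) : ℤ), N h = J * J := by
    rw [← hScard, card_eq_sum_card_fiberwise hmaps]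
    exact sum_congr rfl fun h _ => hN h
  have hN0 : N 0 = J := by
    rw [hN]
    have : S.filter (fun p => (p.1 : ℤ) - p.2 = 0) = (range J).image (fun j => (j, j)) := by
      ext p
      rw [mem_filter, hS, mem_product, mem_range, mem_range, mem_image]
      constructor
      · rintro ⟨⟨h1, h2⟩, h3⟩
        exact ⟨p.1, mem_range.2 h1, Prod.ext rfl (by omega)⟩
      · rintro ⟨j, hj, rfl⟩
        rw [mem_range] at hj
        exact ⟨⟨hj, hj⟩, by omega⟩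
    rw [this, card_image_of_injective _ (fun a b h => congrArg Prod.fst h), card_range]
  obtain ⟨g, hg⟩ : ∃ g : UnitAddCircle → ℂ, ∀ x, g x = ∑ j ∈ range J, (fourier (j : ℤ) x : ℂ) := ⟨_, fun _ => rfl⟩
  refine ⟨J - 1, fun h => ((2 / (J : ℝ) ^ 2 * N h : ℝ) : ℂ), fun x => 2 / (J : ℝ) ^ 2 * ‖g x‖ ^ 2, by omega, ?_, ?_, ?_, ?_, ?_⟩
  · rw [Complex.norm_real, Real.norm_of_nonneg (by positivity), hN0]
    rw [div_mul_eq_mul_div, div_le_div_iff₀ (by positivity) hmR]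
    nlinarith
  · intro x
    positivity
  · intro x hx
    obtain ⟨t, rfl⟩ := QuotientAddGroup.mk_surjective x
    have hx' : |t - round t| ≤ (1 / (m : ℝ)) / 2 := by
      rw [← UnitAddCircle.norm_eq]
      exact hx
    obtain ⟨r, hr⟩ : ∃ r, r = t - round t := ⟨_, rfl⟩
    rw [← hr] at hx'
    have hcoe : ((t : ℝ) : UnitAddCircle) = (r : UnitAddCircle) := by
      rw [hr, AddCircle.coe_sub]
      have : (((round t : ℤ) : ℝ) : UnitAddCircle) = 0 := by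
        rw [AddCircle.coe_eq_zero_iff]
        exact ⟨round t, by simp⟩
      rw [this, sub_zero]
    have hre : ∀ j ∈ range J, Real.sqrt 2 / 2 ≤ (fourier (j : ℤ) ((t : ℝ) : UnitAddCircle) : ℂ).re := by
      intro j hj
      rw [mem_range] at hj
      have h4 : 4 * j ≤ m := by omega
      have h4R : 4 * (j : ℝ) ≤ m := by exact_mod_cast h4
      rw [hcoe, fourier_coe_apply]
      have e1 : (2 * Real.pi * Complex.I * ((j : ℤ) : ℂ) * (r : ℂ) / ((1 : ℝ) : ℂ)) = ((2 * Real.pi * j * r : ℝ) : ℂ) * Complex.I := by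
        push_cast
        ring
      rw [e1, Complex.exp_ofReal_mul_I_re]
      have h5 : |2 * Real.pi * j * r| ≤ Real.pi / 4 := by
        rw [abs_mul, abs_of_nonneg (by positivity)]
        have h6 : 2 * Real.pi * j * |r| ≤ 2 * Real.pi * j * ((1 / (m : ℝ)) / 2) := by gcongr
        have h7 : 2 * Real.pi * j * ((1 / (m : ℝ)) / 2) = Real.pi * (j / m) := by
          field_simp
        have h8 : (j : ℝ) / m ≤ 1 / 4 := by
          rw [div_le_div_iff₀ hmR (by norm_num)]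
          linarith
        have h9 : Real.pi * (j / m) ≤ Real.pi * (1 / 4) := mul_le_mul_of_nonneg_left h8 Real.pi_pos.le
        linarith
      rw [← Real.cos_abs, ← Real.cos_pi_div_four]
      exact Real.cos_le_cos_of_nonneg_of_le_pi (abs_nonneg _) (by linarith [Real.pi_pos]) h5
    have h10 : (J : ℝ) * (Real.sqrt 2 / 2) ≤ ‖g ((t : ℝ) : UnitAddCircle)‖ := by
      refine le_trans ?_ (Complex.re_le_norm _)
      rw [hg, Complex.re_sum]
      have := Finset.card_nsmul_le_sum (range J) _ _ hre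
      rw [card_range, nsmul_eq_mul] at this
      exact this
    have h11 : ((J : ℝ) * (Real.sqrt 2 / 2)) ^ 2 ≤ ‖g ((t : ℝ) : UnitAddCircle)‖ ^ 2 :=
      pow_le_pow_left₀ (by positivity) h10 2
    have h12 : ((J : ℝ) * (Real.sqrt 2 / 2)) ^ 2 = (J : ℝ) ^ 2 / 2 := by
      rw [mul_pow, div_pow, Real.sq_sqrt (by norm_num)]
      ring
    rw [h12] at h11
    show 1 ≤ 2 / (J : ℝ) ^ 2 * ‖g ((t : ℝ) : UnitAddCircle)‖ ^ 2
    calc (1 : ℝ) = 2 / (J : ℝ) ^ 2 * ((J : ℝ) ^ 2 / 2) := by field_simp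
      _ ≤ _ := mul_le_mul_of_nonneg_left h11 (by positivity)
  · have : ∀ h ∈ Icc (-((J - 1 : ℕ) : ℤ)) ((J - 1 : ℕ) : ℤ), ‖((2 / (J : ℝ) ^ 2 * N h : ℝ) : ℂ)‖ = 2 / (J : ℝ) ^ 2 * N h := by
      intro h _
      rw [Complex.norm_real, Real.norm_of_nonneg (by positivity)]
    rw [sum_congr rfl this, ← mul_sum, ← Nat.cast_sum, hNsum]
    push_cast
    apply le_of_eq
    field_simp
  · intro x
    have e1 : ((2 / (J : ℝ) ^ 2 * ‖g x‖ ^ 2 : ℝ) : ℂ) = ((2 / (J : ℝ) ^ 2 : ℝ) : ℂ) * (g x * (starRingEnd ℂ) (g x)) := by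
      rw [Complex.mul_conj, Complex.normSq_eq_norm_sq]
      push_cast
      ring
    have e2 : g x * (starRingEnd ℂ) (g x) = ∑ p ∈ S, (fourier ((p.1 : ℤ) - p.2) x : ℂ) := by
      rw [hg, map_sum, sum_mul_sum, hS, sum_product]
      refine sum_congr rfl fun j _ => sum_congr rfl fun k _ => ?_
      rw [← fourier_neg, ← fourier_add, sub_eq_add_neg]
    rw [e1, e2, ← sum_fiberwise_of_maps_to hmaps, mul_sum]
    refine sum_congr rfl fun h _ => ?_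
    have e3 : ∑ p ∈ S.filter (fun p => (p.1 : ℤ) - p.2 = h), (fourier ((p.1 : ℤ) - p.2) x : ℂ) = (N h : ℂ) * (fourier h x : ℂ) := by
      rw [hN, ← nsmul_eq_mul, ← sum_const]
      refine sum_congr rfl fun p hp => ?_
      rw [(mem_filter.1 hp).2]
    rw [e3]
    push_cast
    ring

private theorem KlU_one (H : ℕ) (ε C : ℝ) (hε : 0 < ε) (hC : 1 ≤ C) (n : ℕ) (hn : 0 < n)
    (hX : (2 * H * C ^ 7 / ε ^ 4) ^ 8 ≤ n) (hτ : (n.divisors.card : ℝ) ≤ C * (n : ℝ) ^ (1 / 8 : ℝ)) (K : ℝ)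
    (hK : (n.totient : ℝ) * K ^ 4 ≤ 2 * (n : ℝ) ^ 4 * (n.divisors.card : ℝ) ^ 2 * H) :
    K ≤ ε * (n.totient : ℝ) := by
  by_contra hlt
  rw [not_le] at hlt
  have hφ : (0 : ℝ) < (n.totient : ℝ) := by exact_mod_cast Nat.totient_pos.mpr hn
  have hn0 : (0 : ℝ) < (n : ℝ) := by exact_mod_cast hn
  set y : ℝ := (n : ℝ) ^ (1 / 8 : ℝ) with hy
  have hy0 : 0 < y := Real.rpow_pos_of_pos hn0 _
  have hy8 : y ^ 8 = n := by
    rw [hy, ← Real.rpow_natCast, ← Real.rpow_mul hn0.le]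
    norm_num
  set τ : ℝ := (n.divisors.card : ℝ) with hτd
  set φ : ℝ := (n.totient : ℝ) with hφd
  have hτ0 : 0 < τ := by
    rw [hτd]
    exact_mod_cast card_pos.mpr (Nat.nonempty_divisors.mpr hn.ne')
  have hnτ : (n : ℝ) ≤ φ * τ := by
    rw [hτd, hφd]
    exact_mod_cast le_totient_mul n hn
  have h1 : φ * (ε * φ) ^ 4 < φ * K ^ 4 :=
    mul_lt_mul_of_pos_left (pow_lt_pow_left₀ hlt (by positivity) (by norm_num)) hφ
  have h2 : ε ^ 4 * φ ^ 5 < 2 * (n : ℝ) ^ 4 * τ ^ 2 * H := by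
    calc ε ^ 4 * φ ^ 5 = φ * (ε * φ) ^ 4 := by ring
      _ < φ * K ^ 4 := h1
      _ ≤ _ := hK
  have h3 : ε ^ 4 * (φ * τ) ^ 5 < 2 * (n : ℝ) ^ 4 * τ ^ 7 * H := by
    calc ε ^ 4 * (φ * τ) ^ 5 = (ε ^ 4 * φ ^ 5) * τ ^ 5 := by ring
      _ < (2 * (n : ℝ) ^ 4 * τ ^ 2 * H) * τ ^ 5 := mul_lt_mul_of_pos_right h2 (by positivity)
      _ = _ := by ring
  have h4 : ε ^ 4 * (n : ℝ) ^ 5 < 2 * (n : ℝ) ^ 4 * τ ^ 7 * H := by
    refine lt_of_le_of_lt ?_ h3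
    exact mul_le_mul_of_nonneg_left (pow_le_pow_left₀ hn0.le hnτ 5) (by positivity)
  have h5 : ε ^ 4 * (n : ℝ) < 2 * τ ^ 7 * H := by
    have h6 : (n : ℝ) ^ 4 * (ε ^ 4 * (n : ℝ)) < (n : ℝ) ^ 4 * (2 * τ ^ 7 * H) := by
      calc (n : ℝ) ^ 4 * (ε ^ 4 * (n : ℝ)) = ε ^ 4 * (n : ℝ) ^ 5 := by ring
        _ < 2 * (n : ℝ) ^ 4 * τ ^ 7 * H := h4
        _ = _ := by ring
    exact lt_of_mul_lt_mul_left h6 (by positivity)
  have h7 : τ ^ 7 ≤ (C * y) ^ 7 := pow_le_pow_left₀ hτ0.le hτ 7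
  have h8 : ε ^ 4 * y ^ 8 < 2 * (C * y) ^ 7 * H := by
    rw [hy8]
    refine lt_of_lt_of_le h5 ?_
    exact mul_le_mul_of_nonneg_right (by linarith) (Nat.cast_nonneg _)
  have h9 : y * ε ^ 4 < 2 * H * C ^ 7 := by
    have h10 : y ^ 7 * (y * ε ^ 4) < y ^ 7 * (2 * H * C ^ 7) := by
      calc y ^ 7 * (y * ε ^ 4) = ε ^ 4 * y ^ 8 := by ring
        _ < 2 * (C * y) ^ 7 * H := h8
        _ = _ := by ring
    exact lt_of_mul_lt_mul_left h10 (by positivity)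
  have h11 : y < 2 * H * C ^ 7 / ε ^ 4 := by
    rw [lt_div_iff₀ (by positivity)]
    exact h9
  have h12 : y ^ 8 < (2 * H * C ^ 7 / ε ^ 4) ^ 8 := pow_lt_pow_left₀ h11 hy0.le (by norm_num)
  rw [hy8] at h12
  linarith

private theorem KlU_fourier_add (h : ℤ) (x y : UnitAddCircle) :
    (fourier h (x + y) : ℂ) = fourier h x * fourier h y := by
  rw [fourier_apply, fourier_apply, fourier_apply, smul_add, AddCircle.toCircle_add, Circle.coe_mul]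

private theorem KlU_norm_coe (r : ℝ) : ‖(r : UnitAddCircle)‖ ≤ |r| := by
  rw [UnitAddCircle.norm_eq]
  have := round_le r 0
  simpa using this

private theorem KlU_near (m n : ℕ) (hm : 0 < m) [NeZero n] (N : ZMod n) (hN : N * (m : ZMod n) = 1)
    (j j1 : ℤ) (h1 : (m : ℤ) ∣ j - j1) (h2 : 0 ≤ j - j1) (h3 : j - j1 < n) :
    ‖ZMod.toAddCircle (N * ((j : ZMod n) - (j1 : ZMod n))) + ((-(1 / (2 * m)) : ℝ) : UnitAddCircle)‖
      ≤ (1 / (m : ℝ)) / 2 := by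
  obtain ⟨s, hs⟩ := h1
  have hmR : (0 : ℝ) < m := by exact_mod_cast hm
  have hnR : (0 : ℝ) < n := by exact_mod_cast Nat.pos_of_ne_zero (NeZero.ne n)
  have hz : N * ((j : ZMod n) - (j1 : ZMod n)) = ((s : ℤ) : ZMod n) := by
    have : ((j : ZMod n) - (j1 : ZMod n)) = (m : ZMod n) * ((s : ℤ) : ZMod n) := by
      rw [← Int.cast_sub, hs]
      push_cast
      rfl
    rw [this, ← mul_assoc, hN, one_mul]
  rw [hz, ZMod.toAddCircle_intCast, ← AddCircle.coe_add]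
  refine (KlU_norm_coe _).trans ?_
  have hs0 : 0 ≤ s := by
    have hmZ : (0 : ℤ) < m := by exact_mod_cast hm
    rw [hs] at h2
    exact nonneg_of_mul_nonneg_right h2 hmZ
  have hs1 : (m : ℝ) * s < n := by
    rw [hs] at h3
    exact_mod_cast h3
  have h4 : (0 : ℝ) ≤ (s : ℝ) / n := by
    apply div_nonneg _ hnR.le
    exact_mod_cast hs0
  have h5 : (s : ℝ) / n ≤ 1 / m := by
    rw [div_le_div_iff₀ hnR hmR]
    linarith
  have h6 : (1 : ℝ) / (2 * m) = (1 / m) / 2 := by ring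
  rw [h6, abs_le]
  constructor <;> linarith

private theorem KlU_sum (n : ℕ) [NeZero n] (D : ℕ) (c : ℤ → ℂ) (f : UnitAddCircle → ℝ)
    (hf : ∀ x, (f x : ℂ) = ∑ h ∈ Icc (-(D : ℤ)) D, c h * (fourier h x : ℂ))
    (w : UnitAddCircle) (N : ZMod n) (hN : IsUnit N) (ε : ℝ) (hε : 0 ≤ ε)
    (hK : ∀ a b : ZMod n, (Gn n a ≤ D ∨ Gn n b ≤ D) → ‖Kl n a b‖ ≤ ε * (n.totient : ℝ))
    (j1 y1 : ZMod n) :
    ∑ u : (ZMod n)ˣ, f (ZMod.toAddCircle (N * ((u : ZMod n) - j1)) + w) *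
        f (ZMod.toAddCircle (N * (-((u⁻¹ : (ZMod n)ˣ) : ZMod n) - y1)) + w) ≤
      (n.totient : ℝ) * (‖c 0‖ ^ 2 + ε * (∑ h ∈ Icc (-(D : ℤ)) D, ‖c h‖) ^ 2) := by
  have hφ : (0 : ℝ) < n.totient := by
    exact_mod_cast Nat.totient_pos.mpr (Nat.pos_of_ne_zero (NeZero.ne n))
  have key : ((∑ u : (ZMod n)ˣ, f (ZMod.toAddCircle (N * ((u : ZMod n) - j1)) + w) *
        f (ZMod.toAddCircle (N * (-((u⁻¹ : (ZMod n)ˣ) : ZMod n) - y1)) + w) : ℝ) : ℂ) =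
      ∑ h ∈ Icc (-(D : ℤ)) D, ∑ k ∈ Icc (-(D : ℤ)) D,
        (c h * c k * (fourier h w * fourier k w *
          ZMod.stdAddChar (-((h : ZMod n) * (N * j1))) * ZMod.stdAddChar (-((k : ZMod n) * (N * y1))))) *
          Kl n ((h : ZMod n) * N) (((-k : ℤ) : ZMod n) * N) := by
    simp only [Complex.ofReal_sum, Complex.ofReal_mul, hf, Kl]
    rw [Finset.sum_congr rfl (fun u _ => Finset.sum_mul_sum _ _ _ _), Finset.sum_comm]
    refine Finset.sum_congr rfl (fun h _ => ?_)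
    rw [Finset.sum_comm]
    refine Finset.sum_congr rfl (fun k _ => ?_)
    rw [Finset.mul_sum]
    refine Finset.sum_congr rfl (fun u _ => ?_)
    rw [KlU_fourier_add, KlU_fourier_add, fourier_toAddCircle, fourier_toAddCircle]
    have e1 : (h : ZMod n) * (N * ((u : ZMod n) - j1)) =
        (h : ZMod n) * N * u + -((h : ZMod n) * (N * j1)) := by ring
    have e2 : (k : ZMod n) * (N * (-((u⁻¹ : (ZMod n)ˣ) : ZMod n) - y1)) =
        ((-k : ℤ) : ZMod n) * N * ((u⁻¹ : (ZMod n)ˣ) : ZMod n) + -((k : ZMod n) * (N * y1)) := by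
      push_cast
      ring
    rw [e1, e2, AddChar.map_add_eq_mul, AddChar.map_add_eq_mul, AddChar.map_add_eq_mul]
    ring
  have hstd : ∀ z : ZMod n, ‖(ZMod.stdAddChar z : ℂ)‖ = 1 := fun z => by
    rw [ZMod.stdAddChar_apply]
    exact Circle.norm_coe _
  have hfou : ∀ h : ℤ, ∀ x : UnitAddCircle, ‖(fourier h x : ℂ)‖ = 1 := fun h x => by
    rw [fourier_apply]
    exact Circle.norm_coe _
  have hterm : ∀ h ∈ Icc (-(D : ℤ)) D, ∀ k ∈ Icc (-(D : ℤ)) D,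
      ‖(c h * c k * (fourier h w * fourier k w *
          ZMod.stdAddChar (-((h : ZMod n) * (N * j1))) * ZMod.stdAddChar (-((k : ZMod n) * (N * y1))))) *
          Kl n ((h : ZMod n) * N) (((-k : ℤ) : ZMod n) * N)‖ ≤
        (n.totient : ℝ) * ((if h = 0 ∧ k = 0 then ‖c 0‖ ^ 2 else 0) + ε * (‖c h‖ * ‖c k‖)) := by
    intro h hh k hk
    rw [norm_mul, norm_mul, norm_mul, norm_mul, norm_mul, norm_mul, hstd, hstd, hfou, hfou]
    rw [Finset.mem_Icc] at hh hk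
    have hc : 0 ≤ ‖c h‖ * ‖c k‖ := mul_nonneg (norm_nonneg _) (norm_nonneg _)
    by_cases h0 : h = 0 ∧ k = 0
    · rw [if_pos h0]
      obtain ⟨rfl, rfl⟩ := h0
      have := norm_Kl_le n (((0 : ℤ) : ZMod n) * N) (((-0 : ℤ) : ZMod n) * N)
      have h4 : 0 ≤ ε * (‖c 0‖ * ‖c 0‖) := mul_nonneg hε (mul_nonneg (norm_nonneg _) (norm_nonneg _))
      nlinarith [mul_le_mul_of_nonneg_left this hc, mul_nonneg hφ.le h4]
    · rw [if_neg h0]
      have hG : Gn n ((h : ZMod n) * N) ≤ D ∨ Gn n (((-k : ℤ) : ZMod n) * N) ≤ D := by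
        by_cases hh0 : h = 0
        · right
          have hk0 : k ≠ 0 := fun e => h0 ⟨hh0, e⟩
          refine (Gn_int n (-k) (by simpa using hk0) N hN).trans ?_
          omega
        · left
          refine (Gn_int n h hh0 N hN).trans ?_
          omega
      have h1 := hK _ _ hG
      nlinarith [mul_le_mul_of_nonneg_left h1 hc]
  have h0mem : (0 : ℤ) ∈ Icc (-(D : ℤ)) D := by
    rw [Finset.mem_Icc]
    omega
  have hsum1 : ∑ h ∈ Icc (-(D : ℤ)) D, ∑ k ∈ Icc (-(D : ℤ)) D,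
      (n.totient : ℝ) * ((if h = 0 ∧ k = 0 then ‖c 0‖ ^ 2 else 0) + ε * (‖c h‖ * ‖c k‖)) =
      (n.totient : ℝ) * (‖c 0‖ ^ 2 + ε * (∑ h ∈ Icc (-(D : ℤ)) D, ‖c h‖) ^ 2) := by
    have e1 : ∑ h ∈ Icc (-(D : ℤ)) D, ∑ k ∈ Icc (-(D : ℤ)) D,
        (if h = 0 ∧ k = 0 then ‖c 0‖ ^ 2 else 0) = ‖c 0‖ ^ 2 := by
      rw [Finset.sum_eq_single 0]
      · rw [Finset.sum_eq_single 0]
        · simp
        · intro b _ hb
          simp [hb]
        · intro hb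
          exact absurd h0mem hb
      · intro b _ hb
        simp [hb]
      · intro hb
        exact absurd h0mem hb
    have e2 : ∑ h ∈ Icc (-(D : ℤ)) D, ∑ k ∈ Icc (-(D : ℤ)) D, ε * (‖c h‖ * ‖c k‖) =
        ε * (∑ h ∈ Icc (-(D : ℤ)) D, ‖c h‖) ^ 2 := by
      rw [sq, Finset.sum_mul_sum, Finset.mul_sum]
      refine Finset.sum_congr rfl (fun h _ => ?_)
      rw [Finset.mul_sum]
    simp only [← Finset.mul_sum, Finset.sum_add_distrib]
    rw [e1]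
    simp only [← Finset.mul_sum] at e2
    rw [e2]
  have hS : ∀ r : ℝ, r ≤ ‖(r : ℂ)‖ := fun r => by
    rw [Complex.norm_real]
    exact le_abs_self r
  refine (hS _).trans ?_
  rw [key, ← hsum1]
  refine (norm_sum_le _ _).trans ?_
  refine Finset.sum_le_sum (fun h hh => ?_)
  refine (norm_sum_le _ _).trans ?_
  exact Finset.sum_le_sum (fun k hk => hterm h hh k hk)

open Classical in
private noncomputable def KlU_u (n : ℕ) (x : ℤ × ℤ) : (ZMod n)ˣ :=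
  if h : IsUnit ((x.1 : ℤ) : ZMod n) then h.unit else 1

private theorem KlU_u_spec (n : ℕ) (x : ℤ × ℤ) (hx : (n : ℤ) ∣ x.1 * x.2 + 1) :
    ((KlU_u n x : (ZMod n)ˣ) : ZMod n) = (x.1 : ZMod n) ∧
      -(((KlU_u n x)⁻¹ : (ZMod n)ˣ) : ZMod n) = (x.2 : ZMod n) := by
  have h1 : ((x.1 : ℤ) : ZMod n) * (x.2 : ZMod n) = -1 := by
    have := (ZMod.intCast_zmod_eq_zero_iff_dvd (x.1 * x.2 + 1) n).mpr hx
    push_cast at this
    linear_combination this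
  have hu : IsUnit ((x.1 : ℤ) : ZMod n) := by
    refine IsUnit.of_mul_eq_one (-(x.2 : ZMod n)) ?_
    linear_combination -h1
  have h2 : ((KlU_u n x : (ZMod n)ˣ) : ZMod n) = (x.1 : ZMod n) := by
    unfold KlU_u
    rw [dif_pos hu]
    exact hu.unit_spec
  refine ⟨h2, ?_⟩
  have h3 : (((KlU_u n x)⁻¹ : (ZMod n)ˣ) : ZMod n) * (x.1 : ZMod n) = 1 := by
    rw [← h2]
    exact Units.inv_mul _
  linear_combination (-(((KlU_u n x)⁻¹ : (ZMod n)ˣ) : ZMod n)) * h1 + (x.2 : ZMod n) * h3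

theorem law_unif : ∃ C : ℕ, 0 < C ∧ ∀ n m : ℕ, 0 < n → 0 < m → n.Coprime m → C * m ^ 73 ≤ n →
    ∀ a j0 y0 : ℤ, (((Ioc a (a + n) ×ˢ Ico (0 : ℤ) n).filter (fun x => (n : ℤ) ∣ x.1 * x.2 + 1 ∧
      (m : ℤ) ∣ x.1 - j0 ∧ (m : ℤ) ∣ x.2 - y0)).card : ℝ) ≤ 100 * n / (m : ℝ) ^ 2 := by
  obtain ⟨C, hC, hdiv⟩ := Pool.Agent.Lib.MP_2a816b_nt.divisor_bound (1 / 8) (by norm_num)
  obtain ⟨C', hC'⟩ : ∃ C' : ℕ, C' = ⌈256 * C ^ 56⌉₊ := ⟨_, rfl⟩
  have hC0 : 0 < C := lt_of_lt_of_le one_pos hC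
  have hC'1 : 256 * C ^ 56 ≤ (C' : ℝ) := by
    rw [hC']
    exact Nat.le_ceil _
  refine ⟨C', ?_, ?_⟩
  · have h1 : (0 : ℝ) < C' := lt_of_lt_of_le (by positivity) hC'1
    exact_mod_cast h1
  intro n m hn hm hco hnm a j0 y0
  have hmR : (0 : ℝ) < m := by exact_mod_cast hm
  have hm1 : (1 : ℝ) ≤ m := by exact_mod_cast hm
  have hmZ : (0 : ℤ) < m := by exact_mod_cast hm
  obtain ⟨D, c, f, hDm, hc0, hf0, hf1, hS2, hf⟩ := KlU_maj m hm
  set S : ℝ := ∑ h ∈ Icc (-(D : ℤ)) D, ‖c h‖ with hS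
  have hS0 : 0 ≤ S := Finset.sum_nonneg (fun _ _ => norm_nonneg _)
  set e' : ℝ := 1 / (m : ℝ) ^ 2 with he'
  have he'0 : 0 < e' := by positivity
  have hn1 : 1 ≤ n := hn
  have : NeZero n := ⟨by omega⟩
  have hnZ : (0 : ℤ) < n := by exact_mod_cast hn1
  have hX : (2 * (D : ℝ) * C ^ 7 / e' ^ 4) ^ 8 ≤ n := by
    have h1 : 2 * (D : ℝ) * C ^ 7 / e' ^ 4 ≤ 2 * C ^ 7 * (m : ℝ) ^ 9 := by
      rw [he', div_pow, one_pow, div_div_eq_mul_div, div_one]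
      have h2 : (D : ℝ) ≤ m := by exact_mod_cast hDm
      calc 2 * (D : ℝ) * C ^ 7 * ((m : ℝ) ^ 2) ^ 4 ≤ 2 * (m : ℝ) * C ^ 7 * ((m : ℝ) ^ 2) ^ 4 := by gcongr
        _ = 2 * C ^ 7 * (m : ℝ) ^ 9 := by ring
    calc (2 * (D : ℝ) * C ^ 7 / e' ^ 4) ^ 8 ≤ (2 * C ^ 7 * (m : ℝ) ^ 9) ^ 8 := pow_le_pow_left₀ (by positivity) h1 8
      _ = 256 * C ^ 56 * (m : ℝ) ^ 72 := by ring
      _ ≤ (C' : ℝ) * (m : ℝ) ^ 73 :=
          mul_le_mul hC'1 (pow_le_pow_right₀ hm1 (by norm_num)) (by positivity) (by positivity)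
      _ ≤ n := by exact_mod_cast hnm
  have hK : ∀ a b : ZMod n, (Gn n a ≤ D ∨ Gn n b ≤ D) → ‖Kl n a b‖ ≤ e' * (n.totient : ℝ) := by
    have main : ∀ a b : ZMod n, Gn n a ≤ D → ‖Kl n a b‖ ≤ e' * (n.totient : ℝ) := by
      intro a b ha
      apply KlU_one D e' C he'0 hC n hn hX (hdiv n hn)
      refine (Kl_pow4 n a b).trans ?_
      exact mul_le_mul_of_nonneg_left (by exact_mod_cast ha) (by positivity)
    intro a b hab
    rcases hab with h | h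
    · exact main a b h
    · rw [Kl_comm]
      exact main b a h
  set M : (ZMod n)ˣ := ZMod.unitOfCoprime m hco.symm with hM
  have hMN : ((M⁻¹ : (ZMod n)ˣ) : ZMod n) * (m : ZMod n) = 1 := by
    have : (M : ZMod n) = (m : ZMod n) := ZMod.coe_unitOfCoprime m hco.symm
    rw [← this]
    exact Units.inv_mul _
  set w : UnitAddCircle := ((-(1 / (2 * m)) : ℝ) : UnitAddCircle) with hw
  set j1 : ℤ := a + 1 + (j0 - a - 1) % m with hj1
  set y1 : ℤ := y0 % m with hy1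
  have hb := KlU_sum n D c f hf w ((M⁻¹ : (ZMod n)ˣ) : ZMod n) (M⁻¹).isUnit e' he'0.le hK
    ((j1 : ℤ) : ZMod n) ((y1 : ℤ) : ZMod n)
  set F : (ZMod n)ˣ → ℝ := fun u =>
    f (ZMod.toAddCircle (((M⁻¹ : (ZMod n)ˣ) : ZMod n) * ((u : ZMod n) - ((j1 : ℤ) : ZMod n))) + w) *
      f (ZMod.toAddCircle (((M⁻¹ : (ZMod n)ˣ) : ZMod n) *
        (-((u⁻¹ : (ZMod n)ˣ) : ZMod n) - ((y1 : ℤ) : ZMod n))) + w) with hF
  have hF0 : ∀ u, 0 ≤ F u := fun u => mul_nonneg (hf0 _) (hf0 _)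
  set E := (Ioc a (a + n) ×ˢ Ico (0 : ℤ) n).filter (fun x => (n : ℤ) ∣ x.1 * x.2 + 1 ∧
      (m : ℤ) ∣ x.1 - j0 ∧ (m : ℤ) ∣ x.2 - y0) with hE
  have hFE : ∀ x ∈ E, 1 ≤ F (KlU_u n x) := by
    intro x hx
    rw [hE, Finset.mem_filter, Finset.mem_product, Finset.mem_Ioc, Finset.mem_Ico] at hx
    obtain ⟨⟨⟨ha1, ha2⟩, hb1, hb2⟩, hd, hdj, hdy⟩ := hx
    obtain ⟨hu1, hu2⟩ := KlU_u_spec n x hd
    have hmod1 := Int.emod_nonneg (j0 - a - 1) hmZ.ne'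
    have hmod2 := Int.emod_lt_of_pos (j0 - a - 1) hmZ
    have hmod3 := Int.emod_add_mul_ediv (j0 - a - 1) m
    have hmod4 := Int.emod_nonneg y0 hmZ.ne'
    have hmod5 := Int.emod_lt_of_pos y0 hmZ
    have hmod6 := Int.emod_add_mul_ediv y0 m
    have d1 : (m : ℤ) ∣ x.1 - j1 := by
      have : x.1 - j1 = (x.1 - j0) + m * ((j0 - a - 1) / m) := by
        rw [hj1]
        linear_combination -hmod3
      rw [this]
      exact dvd_add hdj (dvd_mul_right _ _)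
    have d2 : (m : ℤ) ∣ x.2 - y1 := by
      have : x.2 - y1 = (x.2 - y0) + m * (y0 / m) := by
        rw [hy1]
        linear_combination -hmod6
      rw [this]
      exact dvd_add hdy (dvd_mul_right _ _)
    have p1 : 0 ≤ x.1 - j1 := by
      obtain ⟨s, hs⟩ := d1
      rw [hs]
      by_contra hneg
      push Not at hneg
      have hs1 : s ≤ -1 := by
        by_contra hs1
        push Not at hs1
        have : 0 ≤ (m : ℤ) * s := mul_nonneg hmZ.le (by omega)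
        omega
      have : (m : ℤ) * s ≤ m * (-1) := mul_le_mul_of_nonneg_left hs1 hmZ.le
      omega
    have p2 : 0 ≤ x.2 - y1 := by
      obtain ⟨s, hs⟩ := d2
      rw [hs]
      by_contra hneg
      push Not at hneg
      have hs1 : s ≤ -1 := by
        by_contra hs1
        push Not at hs1
        have : 0 ≤ (m : ℤ) * s := mul_nonneg hmZ.le (by omega)
        omega
      have : (m : ℤ) * s ≤ m * (-1) := mul_le_mul_of_nonneg_left hs1 hmZ.le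
      omega
    have q1 := hf1 _ (KlU_near m n hm _ hMN x.1 j1 d1 p1 (by omega))
    have q2 := hf1 _ (KlU_near m n hm _ hMN x.2 y1 d2 p2 (by omega))
    have q3 : F (KlU_u n x) =
        f (ZMod.toAddCircle (((M⁻¹ : (ZMod n)ˣ) : ZMod n) * ((x.1 : ZMod n) - ((j1 : ℤ) : ZMod n))) + w) *
        f (ZMod.toAddCircle (((M⁻¹ : (ZMod n)ˣ) : ZMod n) * ((x.2 : ZMod n) - ((y1 : ℤ) : ZMod n))) + w) := by
      rw [hF]
      simp only
      rw [hu1, hu2]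
    rw [q3]
    exact one_le_mul_of_one_le_of_one_le q1 q2
  have hinj : Set.InjOn (KlU_u n) (E : Set (ℤ × ℤ)) := by
    intro x hx y hy hxy
    rw [Finset.mem_coe, hE, Finset.mem_filter, Finset.mem_product, Finset.mem_Ioc, Finset.mem_Ico] at hx hy
    obtain ⟨⟨⟨ha1, ha2⟩, hb1, hb2⟩, hd, hdj, hdy⟩ := hx
    obtain ⟨⟨⟨ha1', ha2'⟩, hb1', hb2'⟩, hd', hdj', hdy'⟩ := hy
    obtain ⟨hu1, hu2⟩ := KlU_u_spec n x hd
    obtain ⟨hv1, hv2⟩ := KlU_u_spec n y hd'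
    rw [hxy] at hu1 hu2
    have e1 : ((x.1 : ℤ) : ZMod n) = (y.1 : ZMod n) := hu1.symm.trans hv1
    have e2 : ((x.2 : ℤ) : ZMod n) = (y.2 : ZMod n) := hu2.symm.trans hv2
    rw [ZMod.intCast_eq_intCast_iff_dvd_sub] at e1 e2
    have aux : ∀ r : ℤ, (n : ℤ) ∣ r → -(n : ℤ) < r → r < n → r = 0 := by
      rintro r ⟨s, rfl⟩ h1 h2
      have hs1 : s < 1 := by
        by_contra hc1
        push Not at hc1
        have : (n : ℤ) * 1 ≤ n * s := mul_le_mul_of_nonneg_left hc1 hnZ.le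
        omega
      have hs2 : -1 < s := by
        by_contra hc1
        push Not at hc1
        have : (n : ℤ) * s ≤ n * (-1) := mul_le_mul_of_nonneg_left hc1 hnZ.le
        omega
      have : s = 0 := by omega
      rw [this, mul_zero]
    have r1 := aux _ e1 (by omega) (by omega)
    have r2 := aux _ e2 (by omega) (by omega)
    refine Prod.ext ?_ ?_ <;> omega
  have hcard : (E.card : ℝ) ≤ ∑ u : (ZMod n)ˣ, F u := by
    calc (E.card : ℝ) = ∑ x ∈ E, (1 : ℝ) := by simp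
      _ ≤ ∑ x ∈ E, F (KlU_u n x) := Finset.sum_le_sum hFE
      _ = ∑ u ∈ E.image (KlU_u n), F u := (Finset.sum_image hinj).symm
      _ ≤ ∑ u : (ZMod n)ˣ, F u :=
          Finset.sum_le_sum_of_subset_of_nonneg (Finset.subset_univ _) (fun u _ _ => hF0 u)
  refine (hcard.trans hb).trans ?_
  have hφ : (0 : ℝ) ≤ n.totient := Nat.cast_nonneg _
  have hA : ‖c 0‖ ^ 2 ≤ 64 / (m : ℝ) ^ 2 := by
    have h1 : ‖c 0‖ ^ 2 ≤ (8 / (m : ℝ)) ^ 2 := pow_le_pow_left₀ (norm_nonneg _) hc0 2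
    refine h1.trans (le_of_eq ?_)
    rw [div_pow]
    norm_num
  have hB : e' * S ^ 2 ≤ 4 / (m : ℝ) ^ 2 := by
    have h1 : S ^ 2 ≤ 2 ^ 2 := pow_le_pow_left₀ hS0 hS2 2
    calc e' * S ^ 2 ≤ e' * 2 ^ 2 := mul_le_mul_of_nonneg_left h1 he'0.le
      _ = 4 / (m : ℝ) ^ 2 := by
        rw [he']
        ring
  have hφn : (n.totient : ℝ) ≤ n := by exact_mod_cast Nat.totient_le n
  have hn0R : (0 : ℝ) ≤ n := Nat.cast_nonneg _
  calc (n.totient : ℝ) * (‖c 0‖ ^ 2 + e' * S ^ 2) ≤ (n.totient : ℝ) * (64 / (m : ℝ) ^ 2 + 4 / (m : ℝ) ^ 2) :=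
        mul_le_mul_of_nonneg_left (add_le_add hA hB) hφ
    _ ≤ (n : ℝ) * (64 / (m : ℝ) ^ 2 + 4 / (m : ℝ) ^ 2) := mul_le_mul_of_nonneg_right hφn (by positivity)
    _ = 68 * n / (m : ℝ) ^ 2 := by ring
    _ ≤ 100 * n / (m : ℝ) ^ 2 := by
        refine div_le_div_of_nonneg_right ?_ (by positivity)
        linarith

end Pool.Agent.Lib.MP_d57abb_nt.GV
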