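import Pool.Agent.Lib.MP_d57abb_nt.GV.MulM
import Pool.Agent.Lib.MP_d57abb_nt.GV.FinC
import Pool.Agent.Lib.MP_d57abb_nt.GV.TailS

/-!
# Mean values of multiplicative functions in a residue class of `f k`
-/

namespace Pool.Agent.Lib.MP_d57abb_nt.GV

open Finset Filter Topology
open Pool.Agent.Lib.MP_d57abb_nt.GT Pool.Agent.Lib.MP_d57abb_nt.GA Pool.Agent.Lib.MP_d57abb_nt.GA.TZ
  Pool.Agent.Lib.MP_d57abb_nt.GA.AS

private theorem WinM_norm {q : ℕ} (hq : 0 < q) {g : ℕ → ℂ} (hroot : ∀ n : ℕ, 0 < n → g n ^ q = 1) (n : ℕ) (hn : 0 < n) :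
    ‖g n‖ = 1 := Complex.norm_eq_one_of_pow_eq_one (hroot n hn) (by omega)

/-- a sum over a finite set of small terms -/
private theorem WinM_sum {ι : Type*} (s : Finset ι) (n : ℕ) (hn : s.card ≤ n) (F : ι → ℝ) {ε L : ℝ} (hε : 0 < ε) (hL : 0 ≤ L)
    (K : ι → ℝ) (h : ∀ i ∈ s, F i ≤ ε / ((n : ℝ) + 1) * L + K i) : ∑ i ∈ s, F i ≤ ε * L + ∑ i ∈ s, |K i| := by
  refine (Finset.sum_le_sum h).trans ?_
  rw [Finset.sum_add_distrib, Finset.sum_const, nsmul_eq_mul]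
  refine add_le_add ?_ (Finset.sum_le_sum fun i _ => le_abs_self _)
  have h1 : (s.card : ℝ) ≤ n := by exact_mod_cast hn
  rw [← mul_assoc]
  refine mul_le_mul_of_nonneg_right ?_ hL
  rw [mul_div_assoc', div_le_iff₀ (by positivity)]
  nlinarith

open Classical in
/-- the sums over windows in a residue class of `f k` -/
theorem mul_win {q : ℕ} (hq : 0 < q) {g G : ℕ → ℂ} (hmul : ∀ a b : ℕ, 0 < a → 0 < b → g (a * b) = g a * g b)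
    (hroot : ∀ n : ℕ, 0 < n → g n ^ q = 1) (hnp : NPx g)
    (hG : ∀ a b : ℕ, 0 < a → 0 < b → a.Coprime b → G (a * b) = G a * G b) (hG1 : ∀ n : ℕ, 0 < n → ‖G n‖ ≤ 1)
    (hGg : ∀ p : ℕ, p.Prime → p % 5 = 1 ∨ p % 5 = 4 → G p = g p) {D : ℕ} (hD0 : 0 < D) (r : ℕ) :
    ∀ c : ℝ, 1 < c → ∀ ε : ℝ, 0 < ε → ∃ K : ℝ, 0 ≤ K ∧ ∀ A X : ℕ, 1 ≤ A → A ≤ X →
      ‖∑ k ∈ (Ioc A X).filter (fun k => ff k ≡ r [MOD D]), ((tc c k / k : ℝ) : ℂ) * G (ff k)‖ ≤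
        ε * Real.log (X / A) + K := by
  intro c hc ε hε
  obtain ⟨Y0, K0, hK0, h0⟩ := tail_win hc.le (ε := ε / 8) (by positivity)
  obtain ⟨Y, hY⟩ : ∃ Y : ℕ, Y = Y0 + 5 := ⟨_, rfl⟩
  have h1 : ∀ l ∈ (range (Y + 1)).filter Nat.Prime, ∃ m : ℕ, ∀ m' : ℕ, m ≤ m' → ∃ K : ℝ, ∀ A X : ℕ, 1 ≤ A → A ≤ X →
      ∑ k ∈ (Ioc A X).filter (fun k => l ^ m' ∣ k ^ 2 + 3 * k + 1), (tc c k : ℝ) / k ≤
        ε / 8 / (((Y + 1 : ℕ) : ℝ) + 1) * Real.log (X / A) + K :=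
    fun l hl => high_win hc.le (mem_filter.1 hl).2 (by positivity)
  choose! M hM using h1
  obtain ⟨m, hm⟩ : ∃ m : ℕ, m = ((range (Y + 1)).filter Nat.Prime).sup M + 1 := ⟨_, rfl⟩
  have h2 := fun l (hl : l ∈ (range (Y + 1)).filter Nat.Prime) => hM l hl m (by
    have := Finset.le_sup (f := M) hl
    omega)
  choose! K₁ hK₁ using h2
  obtain ⟨D', hD'⟩ : ∃ D' : ℕ, D' = D * Y.factorial ^ m := ⟨_, rfl⟩
  have hD'0 : 0 < D' := by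
    rw [hD']
    exact Nat.mul_pos hD0 (Nat.pow_pos (Nat.factorial_pos _))
  have h3 : ∀ r' : ℕ, ∃ K : ℝ, 0 ≤ K ∧ ∀ A X : ℕ, 1 ≤ A → A ≤ X →
      ‖∑ k ∈ (Ioc A X).filter (fun k => ff k ≡ r' [MOD D']), ((tc c k / k : ℝ) : ℂ) * g (ff k)‖ ≤
        ε / 2 / ((D' : ℝ) + 1) * Real.log (X / A) + K := fun r' =>
    win_cls hq hmul hroot hnp hD'0 r' c hc _ (by positivity)
  choose K₂ hK₂0 hK₂ using h3
  refine ⟨∑ r' ∈ range D', |K₂ r'| + 2 * (K0 + ∑ l ∈ (range (Y + 1)).filter Nat.Prime, |K₁ l|), ?_, fun A X hA hX => ?_⟩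
  · have e1 : (0 : ℝ) ≤ ∑ r' ∈ range D', |K₂ r'| := Finset.sum_nonneg fun _ _ => abs_nonneg _
    have e2 : (0 : ℝ) ≤ ∑ l ∈ (range (Y + 1)).filter Nat.Prime, |K₁ l| := Finset.sum_nonneg fun _ _ => abs_nonneg _
    linarith
  have hlog : 0 ≤ Real.log ((X : ℝ) / A) := by
    apply Real.log_nonneg
    have hA0 : (0 : ℝ) < A := by exact_mod_cast hA
    rw [le_div_iff₀ hA0, one_mul]
    exact_mod_cast hX
  have key := dec_sum hmul (WinM_norm hq hroot) hG hG1 hGg (Y := Y) (m := m) (by omega) (by omega) hD0 r (Ioc A X)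
    (fun k => (tc c k : ℝ) / k) (fun k _ => by positivity)
  rw [← hD'] at key
  refine key.trans ?_
  have e1 := WinM_sum (range D') D' (by rw [card_range]) (fun r' =>
    ‖∑ k ∈ (Ioc A X).filter (fun k => ff k ≡ r' [MOD D']), (((tc c k : ℝ) / k : ℝ) : ℂ) * g (ff k)‖)
    (ε := ε / 2) (L := Real.log (X / A)) (by positivity) hlog K₂ (fun r' _ => hK₂ r' A X hA hX)
  have e2 := WinM_sum ((range (Y + 1)).filter Nat.Prime) (Y + 1) ((Finset.card_filter_le _ _).trans (by rw [card_range]))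
    (fun l => ∑ k ∈ (Ioc A X).filter (fun k => l ^ m ∣ ff k), (tc c k : ℝ) / k)
    (ε := ε / 8) (L := Real.log (X / A)) (by positivity) hlog K₁ (fun l hl => hK₁ l hl A X hA hX)
  have e3 : ∑ k ∈ (Ioc A X).filter (fun k => ∃ l : ℕ, l.Prime ∧ Y < l ∧ l ^ 2 ∣ ff k), (tc c k : ℝ) / k ≤
      ε / 8 * Real.log (X / A) + K0 := by
    refine le_trans ?_ (h0 A X hA hX)
    refine Finset.sum_le_sum_of_subset_of_nonneg ?_ fun _ _ _ => by positivity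
    intro k hk
    obtain ⟨h4, l, h5, h6, h7⟩ := mem_filter.1 hk
    exact mem_filter.2 ⟨h4, l, h5, by omega, h7⟩
  linarith

open Classical in
/-- the class sums, with one exceptional set -/
theorem mul_fin {q : ℕ} (hq : 0 < q) {g G : ℕ → ℂ} (hmul : ∀ a b : ℕ, 0 < a → 0 < b → g (a * b) = g a * g b)
    (hroot : ∀ n : ℕ, 0 < n → g n ^ q = 1) (hnp : NPx g)
    (hG : ∀ a b : ℕ, 0 < a → 0 < b → a.Coprime b → G (a * b) = G a * G b) (hG1 : ∀ n : ℕ, 0 < n → ‖G n‖ ≤ 1)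
    (hGg : ∀ p : ℕ, p.Prime → p % 5 = 1 ∨ p % 5 = 4 → G p = g p) :
    ∃ E : Set ℕ, LN (fun X => X ∈ E) ∧ ∀ c : ℝ, 1 < c → ∀ D : ℕ, 0 < D → ∀ r : ℕ,
      Tendsto (fun X : ℕ => ‖∑ k ∈ (Icc 1 X).filter (fun k => ff k ≡ r [MOD D]), (tc c k : ℂ) * G (ff k)‖ / X)
        (atTop ⊓ 𝓟 Eᶜ) (𝓝 0) := by
  obtain ⟨E, hE, hT⟩ := finC hq hmul hroot hnp
  refine ⟨E, hE, fun c hc D hD0 r => ?_⟩
  rw [Metric.tendsto_nhds]
  intro ε hε
  obtain ⟨Y0, K0, hK0, h0⟩ := tail_nat hc.le (ε := ε / 16) (by positivity)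
  obtain ⟨Y, hY⟩ : ∃ Y : ℕ, Y = Y0 + 5 := ⟨_, rfl⟩
  have h1 : ∀ l ∈ (range (Y + 1)).filter Nat.Prime, ∃ m : ℕ, ∀ m' : ℕ, m ≤ m' → ∃ K : ℝ, ∀ N : ℕ,
      ∑ k ∈ (Icc 1 N).filter (fun k => l ^ m' ∣ k ^ 2 + 3 * k + 1), (tc c k : ℝ) ≤
        ε / 16 / (((Y + 1 : ℕ) : ℝ) + 1) * N + K :=
    fun l hl => high_nat hc.le (mem_filter.1 hl).2 (by positivity)
  choose! M hM using h1
  obtain ⟨m, hm⟩ : ∃ m : ℕ, m = ((range (Y + 1)).filter Nat.Prime).sup M + 1 := ⟨_, rfl⟩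
  have h2 := fun l (hl : l ∈ (range (Y + 1)).filter Nat.Prime) => hM l hl m (by
    have := Finset.le_sup (f := M) hl
    omega)
  choose! K₁ hK₁ using h2
  obtain ⟨D', hD'⟩ : ∃ D' : ℕ, D' = D * Y.factorial ^ m := ⟨_, rfl⟩
  have hD'0 : 0 < D' := by
    rw [hD']
    exact Nat.mul_pos hD0 (Nat.pow_pos (Nat.factorial_pos _))
  have h3 : Tendsto (fun X : ℕ => ∑ r' ∈ range D',
      ‖∑ k ∈ (Icc 1 X).filter (fun k => ff k ≡ r' [MOD D']), (tc c k : ℂ) * g (ff k)‖ / X) (atTop ⊓ 𝓟 Eᶜ) (𝓝 0) := by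
    have h4 := tendsto_finsetSum (range D') fun r' _ => hT c hc D' hD'0 r'
    simpa using h4
  obtain ⟨B, hB⟩ : ∃ B : ℝ, B = 2 * (K0 + ∑ l ∈ (range (Y + 1)).filter Nat.Prime, |K₁ l|) := ⟨_, rfl⟩
  have h5 : Tendsto (fun X : ℕ => B / (X : ℝ)) (atTop ⊓ 𝓟 Eᶜ) (𝓝 0) :=
    (tendsto_const_div_atTop_nhds_zero_nat B).mono_left inf_le_left
  have h6 : ∀ᶠ X : ℕ in atTop ⊓ 𝓟 Eᶜ, 1 ≤ X := (eventually_ge_atTop 1).filter_mono inf_le_left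
  filter_upwards [(Metric.tendsto_nhds.1 h3) (ε / 4) (by positivity), (Metric.tendsto_nhds.1 h5) (ε / 4) (by positivity), h6]
    with X hX1 hX2 hX3
  rw [Real.dist_0_eq_abs] at hX1 hX2 ⊢
  have hX0 : (0 : ℝ) < X := by exact_mod_cast hX3
  rw [abs_of_nonneg (div_nonneg (norm_nonneg _) hX0.le)]
  have key := dec_sum hmul (WinM_norm hq hroot) hG hG1 hGg (Y := Y) (m := m) (by omega) (by omega) hD0 r (Icc 1 X)
    (fun k => (tc c k : ℝ)) (fun k _ => by positivity)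
  rw [← hD'] at key
  have e1 : ∑ r' ∈ range D', ‖∑ k ∈ (Icc 1 X).filter (fun k => ff k ≡ r' [MOD D']), (tc c k : ℂ) * g (ff k)‖ ≤
      ε / 4 * X := by
    have e2 := (le_abs_self _).trans hX1.le
    rw [← Finset.sum_div, div_le_iff₀ hX0] at e2
    exact e2
  have e2 := WinM_sum ((range (Y + 1)).filter Nat.Prime) (Y + 1) ((Finset.card_filter_le _ _).trans (by rw [card_range]))
    (fun l => ∑ k ∈ (Icc 1 X).filter (fun k => l ^ m ∣ ff k), (tc c k : ℝ))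
    (ε := ε / 16) (L := X) (by positivity) hX0.le K₁ (fun l hl => hK₁ l hl X)
  have e3 : ∑ k ∈ (Icc 1 X).filter (fun k => ∃ l : ℕ, l.Prime ∧ Y < l ∧ l ^ 2 ∣ ff k), (tc c k : ℝ) ≤
      ε / 16 * X + K0 := by
    refine le_trans ?_ (h0 X)
    refine Finset.sum_le_sum_of_subset_of_nonneg ?_ fun _ _ _ => by positivity
    intro k hk
    obtain ⟨h4, l, h5, h6, h7⟩ := mem_filter.1 hk
    exact mem_filter.2 ⟨h4, l, h5, by omega, h7⟩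
  have e4 : B ≤ ε / 4 * X := by
    have e5 := (le_abs_self _).trans hX2.le
    rwa [div_le_iff₀ hX0] at e5
  rw [div_lt_iff₀ hX0]
  have e6 : ‖∑ k ∈ (Icc 1 X).filter (fun k => ff k ≡ r [MOD D]), (tc c k : ℂ) * G (ff k)‖ ≤
      ∑ r' ∈ range D', ‖∑ k ∈ (Icc 1 X).filter (fun k => ff k ≡ r' [MOD D']), (tc c k : ℂ) * g (ff k)‖ +
      2 * (∑ k ∈ (Icc 1 X).filter (fun k => ∃ l : ℕ, l.Prime ∧ Y < l ∧ l ^ 2 ∣ ff k), (tc c k : ℝ) +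
        ∑ l ∈ (range (Y + 1)).filter Nat.Prime, ∑ k ∈ (Icc 1 X).filter (fun k => l ^ m ∣ ff k), (tc c k : ℝ)) := by
    simpa using key
  have e7 : 0 < ε * X := by positivity
  rw [hB] at e4
  linarith

end Pool.Agent.Lib.MP_d57abb_nt.GV
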