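import Pool.Agent.Lib.MP_d57abb_nt.GT.Abs

/-!
# Characters of a finite abelian group and sums over windows
-/

namespace Pool.Agent.Lib.MP_d57abb_nt.GV

open Finset Filter Topology

/-- from windows to intervals -/
theorem win_pos {u : ℕ → ℝ} (hu : ∀ k, 0 ≤ u k) (P : ℕ → Prop) [DecidablePred P] {a K : ℝ} (ha : 0 < a)
    (h : ∀ A X : ℕ, 1 ≤ A → A ≤ X → a * Real.log (X / A) - K ≤ ∑ k ∈ (Ioc A X).filter P, u k / k) :
    ∃ κ : ℝ, 0 < κ ∧ ∃ X0 : ℕ, ∀ X : ℕ, X0 ≤ X → κ * X ≤ ∑ k ∈ (Icc 1 X).filter P, u k := by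
  obtain ⟨G, hG⟩ : ∃ G : ℕ, (K + 1) / a ≤ Real.log G ∧ 1 ≤ G := by
    have h1 : Tendsto (fun n : ℕ => Real.log (n : ℝ)) atTop atTop :=
      Real.tendsto_log_atTop.comp tendsto_natCast_atTop_atTop
    exact ((h1.eventually_ge_atTop _).and (eventually_ge_atTop 1)).exists
  obtain ⟨hG1, hG2⟩ := hG
  have hG0 : (0 : ℝ) < G := by exact_mod_cast hG2
  refine ⟨1 / (2 * G), by positivity, G, fun X hX => ?_⟩
  obtain ⟨A, hA⟩ : ∃ A : ℕ, A = X / G := ⟨_, rfl⟩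
  have hA1 : 1 ≤ A := by
    rw [hA]
    exact (Nat.one_le_div_iff (by omega)).2 hX
  have hA2 : G * A ≤ X := by
    rw [hA]
    exact Nat.mul_div_le X G
  have hA3 : X < G * (A + 1) := by
    rw [hA]
    exact Nat.lt_mul_div_succ X (by omega)
  have hA0 : (0 : ℝ) < A := by exact_mod_cast hA1
  have h1 := h A (G * A) hA1 (Nat.le_mul_of_pos_left A (by omega))
  have e1 : (((G * A : ℕ) : ℝ)) / A = G := by
    push_cast
    field_simp
  rw [e1] at h1
  rw [div_le_iff₀ ha] at hG1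
  have h4 : 1 ≤ ∑ k ∈ (Ioc A (G * A)).filter P, u k / k := by
    have := mul_comm a (Real.log G)
    linarith
  have h5 : ∑ k ∈ (Ioc A (G * A)).filter P, u k / k ≤ ∑ k ∈ (Ioc A (G * A)).filter P, u k / A := by
    refine Finset.sum_le_sum fun k hk => ?_
    have h6 := (mem_Ioc.1 (mem_filter.1 hk).1).1
    exact div_le_div_of_nonneg_left (hu k) hA0 (by exact_mod_cast h6.le)
  rw [← Finset.sum_div] at h5
  have h6 : (A : ℝ) ≤ ∑ k ∈ (Ioc A (G * A)).filter P, u k := by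
    have h7 := h4.trans h5
    rwa [le_div_iff₀ hA0, one_mul] at h7
  have h7 : ∑ k ∈ (Ioc A (G * A)).filter P, u k ≤ ∑ k ∈ (Icc 1 X).filter P, u k := by
    refine Finset.sum_le_sum_of_subset_of_nonneg ?_ fun _ _ _ => hu _
    refine Finset.filter_subset_filter _ fun k hk => ?_
    rw [mem_Ioc] at hk
    rw [mem_Icc]
    omega
  refine le_trans ?_ (h6.trans h7)
  have h8 : (X : ℝ) ≤ G * (A + 1) := by exact_mod_cast hA3.le
  have h9 : (1 : ℝ) ≤ A := by exact_mod_cast hA1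
  rw [div_mul_eq_mul_div, one_mul, div_le_iff₀ (by positivity)]
  nlinarith

variable {H : Type*} [AddCommGroup H] [Fintype H]

/-- orthogonality for a submonoid of the characters -/
private theorem WinP_orth (S : Finset (AddChar H ℂ))
    (hm : ∀ ψ ∈ S, ∀ φ ∈ S, ψ * φ ∈ S) (a : H) :
    ∑ ψ ∈ S, ψ a = if ∀ ψ ∈ S, ψ a = 1 then (S.card : ℂ) else 0 := by
  classical
  split_ifs with h
  · rw [Finset.sum_congr rfl h]
    simp
  · push Not at h
    obtain ⟨φ, hφ, hφa⟩ := h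
    have hb : ∑ ψ ∈ S, ψ a = ∑ ψ ∈ S, (φ * ψ) a := by
      have hi : S.image (fun ψ => φ * ψ) = S := by
        refine Finset.eq_of_subset_of_card_le (Finset.image_subset_iff.2 fun ψ hψ => hm φ hφ ψ hψ) ?_
        rw [Finset.card_image_of_injective _ (mul_right_injective φ)]
      conv_lhs => rw [← hi]
      rw [Finset.sum_image fun _ _ _ _ h => mul_right_injective φ h]
    have h2 : ∑ ψ ∈ S, (φ * ψ) a = φ a * ∑ ψ ∈ S, ψ a := by
      rw [Finset.mul_sum]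
      rfl
    rw [h2] at hb
    have h3 : (φ a - 1) * ∑ ψ ∈ S, ψ a = 0 := by
      rw [sub_mul, one_mul, ← hb, sub_self]
    rcases mul_eq_zero.1 h3 with h4 | h4
    · exact absurd (sub_eq_zero.1 h4) hφa
    · exact h4

open Classical in
/-- the values of `o` in windows -/
theorem chr_low (S : Finset (AddChar H ℂ)) (h1 : (1 : AddChar H ℂ) ∈ S)
    (hm : ∀ ψ ∈ S, ∀ φ ∈ S, ψ * φ ∈ S) {w : ℕ → ℝ} (o : ℕ → H) (x : H)
    (hs : ∀ ψ : AddChar H ℂ, ψ ∉ S → ∀ ε : ℝ, 0 < ε → ∃ K : ℝ, 0 ≤ K ∧ ∀ A X : ℕ, 1 ≤ A → A ≤ X →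
      ‖∑ k ∈ Ioc A X, (w k : ℂ) * ψ (o k)‖ ≤ ε * Real.log (X / A) + K) {a K : ℝ} (ha : 0 < a)
    (hl : ∀ A X : ℕ, 1 ≤ A → A ≤ X →
      a * Real.log (X / A) - K ≤ ∑ k ∈ (Ioc A X).filter (fun k => ∀ ψ ∈ S, ψ (o k) = ψ x), w k) :
    ∃ a' : ℝ, 0 < a' ∧ ∃ K' : ℝ, ∀ A X : ℕ, 1 ≤ A → A ≤ X →
      a' * Real.log (X / A) - K' ≤ ∑ k ∈ (Ioc A X).filter (fun k => o k = x), w k := by
  have hq : (0 : ℝ) < Fintype.card H := by exact_mod_cast Fintype.card_pos
  have hqc : (Fintype.card H : ℂ) ≠ 0 := by exact_mod_cast hq.ne'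
  have hS : (1 : ℝ) ≤ S.card := by exact_mod_cast Finset.card_pos.2 ⟨1, h1⟩
  obtain ⟨T, hT⟩ : ∃ T : Finset (AddChar H ℂ), T = univ \ S := ⟨_, rfl⟩
  have hε : 0 < a / (2 * ((T.card : ℝ) + 1)) := by positivity
  have h2 : ∀ ψ : AddChar H ℂ, ∃ K : ℝ, 0 ≤ K ∧ (ψ ∈ T → ∀ A X : ℕ, 1 ≤ A → A ≤ X →
      ‖∑ k ∈ Ioc A X, (w k : ℂ) * ψ (o k)‖ ≤ a / (2 * ((T.card : ℝ) + 1)) * Real.log (X / A) + K) := by
    intro ψ
    by_cases hψ : ψ ∈ S
    · refine ⟨0, le_rfl, fun h => ?_⟩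
      rw [hT] at h
      exact absurd hψ (mem_sdiff.1 h).2
    · obtain ⟨K, hK, h⟩ := hs ψ hψ _ hε
      exact ⟨K, hK, fun _ => h⟩
  choose L hL0 hL using h2
  refine ⟨a / (2 * Fintype.card H), by positivity, (S.card * |K| + ∑ ψ ∈ T, L ψ) / Fintype.card H, fun A X hA hX => ?_⟩
  have hlog : 0 ≤ Real.log ((X : ℝ) / A) := by
    apply Real.log_nonneg
    have hA0 : (0 : ℝ) < A := by exact_mod_cast hA
    rw [le_div_iff₀ hA0, one_mul]
    exact_mod_cast hX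
  -- the identity
  have e1 : ((∑ k ∈ (Ioc A X).filter (fun k => o k = x), w k : ℝ) : ℂ) =
      (1 / (Fintype.card H : ℂ)) * (S.card * ((∑ k ∈ (Ioc A X).filter (fun k => ∀ ψ ∈ S, ψ (o k) = ψ x), w k : ℝ) : ℂ)
        + ∑ ψ ∈ T, ψ (-x) * ∑ k ∈ Ioc A X, (w k : ℂ) * ψ (o k)) := by
    have e2 : ∀ k, (if o k = x then (1 : ℂ) else 0) = (1 / (Fintype.card H : ℂ)) *
        ((S.card : ℂ) * (if ∀ ψ ∈ S, ψ (o k) = ψ x then 1 else 0) + ∑ ψ ∈ T, ψ (-x) * ψ (o k)) := by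
      intro k
      have e3 := AddChar.sum_apply_eq_ite (o k - x)
      rw [← Finset.sum_sdiff (Finset.subset_univ S), ← hT, WinP_orth S hm (o k - x)] at e3
      have e4 : ∀ ψ : AddChar H ℂ, ψ (o k - x) = ψ (-x) * ψ (o k) := by
        intro ψ
        rw [← AddChar.map_add_eq_mul]
        congr 1
        abel
      have e5 : (∀ ψ ∈ S, ψ (o k - x) = 1) ↔ ∀ ψ ∈ S, ψ (o k) = ψ x := by
        refine forall_congr' fun ψ => forall_congr' fun _ => ?_
        have e6 : ψ (-x) * ψ x = 1 := by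
          rw [← AddChar.map_add_eq_mul, neg_add_cancel, AddChar.map_zero_eq_one]
        rw [e4]
        constructor
        · intro h
          have : ψ (-x) ≠ 0 := left_ne_zero_of_mul_eq_one e6
          exact mul_left_cancel₀ this (h.trans e6.symm)
        · intro h
          rw [h, e6]
      rw [Finset.sum_congr rfl fun ψ _ => e4 ψ] at e3
      simp only [e5] at e3
      have e7 : ((S.card : ℂ) * (if ∀ ψ ∈ S, ψ (o k) = ψ x then 1 else 0)) =
          if ∀ ψ ∈ S, ψ (o k) = ψ x then (S.card : ℂ) else 0 := by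
        split_ifs <;> simp
      rw [e7, add_comm, e3]
      by_cases h : o k = x
      · rw [if_pos h, if_pos (sub_eq_zero.2 h), one_div, inv_mul_cancel₀ hqc]
      · rw [if_neg h, if_neg (sub_ne_zero.2 h), mul_zero]
    rw [Finset.sum_filter, Finset.sum_filter, Complex.ofReal_sum, Complex.ofReal_sum]
    have e3 : ∀ k, (((if o k = x then w k else 0 : ℝ)) : ℂ) = (w k : ℂ) * (if o k = x then (1 : ℂ) else 0) := by
      intro k
      split_ifs <;> simp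
    have e4 : ∀ k, (((if ∀ ψ ∈ S, ψ (o k) = ψ x then w k else 0 : ℝ)) : ℂ) =
        (w k : ℂ) * (if ∀ ψ ∈ S, ψ (o k) = ψ x then (1 : ℂ) else 0) := by
      intro k
      split_ifs <;> simp
    rw [Finset.sum_congr rfl fun k _ => e3 k, Finset.sum_congr rfl fun k _ => e4 k]
    have e5 : ∑ ψ ∈ T, ψ (-x) * ∑ k ∈ Ioc A X, (w k : ℂ) * ψ (o k) =
        ∑ k ∈ Ioc A X, (w k : ℂ) * ∑ ψ ∈ T, ψ (-x) * ψ (o k) := by
      simp only [Finset.mul_sum]
      rw [Finset.sum_comm]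
      exact Finset.sum_congr rfl fun k _ => Finset.sum_congr rfl fun ψ _ => by ring
    rw [e5, Finset.mul_sum, ← Finset.sum_add_distrib, Finset.mul_sum]
    refine Finset.sum_congr rfl fun k _ => ?_
    rw [e2 k]
    ring
  obtain ⟨R, hR⟩ : ∃ R : ℂ, R = ∑ ψ ∈ T, ψ (-x) * ∑ k ∈ Ioc A X, (w k : ℂ) * ψ (o k) := ⟨_, rfl⟩
  rw [← hR] at e1
  have hRn : ‖R‖ ≤ a / 2 * Real.log (X / A) + ∑ ψ ∈ T, L ψ := by
    rw [hR]
    refine (norm_sum_le _ _).trans ?_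
    have h3 : ∀ ψ ∈ T, ‖ψ (-x) * ∑ k ∈ Ioc A X, (w k : ℂ) * ψ (o k)‖ ≤
        a / (2 * ((T.card : ℝ) + 1)) * Real.log (X / A) + L ψ := by
      intro ψ hψ
      rw [norm_mul, AddChar.norm_apply, one_mul]
      exact hL ψ hψ A X hA hX
    refine (Finset.sum_le_sum h3).trans ?_
    rw [Finset.sum_add_distrib, Finset.sum_const, nsmul_eq_mul]
    have h4 : (T.card : ℝ) * (a / (2 * ((T.card : ℝ) + 1)) * Real.log (X / A)) ≤ a / 2 * Real.log (X / A) := by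
      rw [← mul_assoc]
      refine mul_le_mul_of_nonneg_right ?_ hlog
      rw [mul_div_assoc', div_le_div_iff₀ (by positivity) (by norm_num)]
      nlinarith [show (0 : ℝ) ≤ T.card from Nat.cast_nonneg _]
    linarith
  have e2 : ∑ k ∈ (Ioc A X).filter (fun k => o k = x), w k = 1 / Fintype.card H *
      (S.card * (∑ k ∈ (Ioc A X).filter (fun k => ∀ ψ ∈ S, ψ (o k) = ψ x), w k) + R.re) := by
    have h3 := congrArg Complex.re e1
    have h4 : (1 / (Fintype.card H : ℂ)) * (S.card * ((∑ k ∈ (Ioc A X).filter (fun k => ∀ ψ ∈ S, ψ (o k) = ψ x), w k : ℝ) : ℂ)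
        + R) = ((1 / Fintype.card H : ℝ) : ℂ) *
        ((((S.card : ℝ) * (∑ k ∈ (Ioc A X).filter (fun k => ∀ ψ ∈ S, ψ (o k) = ψ x), w k) : ℝ) : ℂ) + R) := by
      push_cast
      ring
    rw [h4, Complex.ofReal_re, Complex.re_ofReal_mul, Complex.add_re, Complex.ofReal_re] at h3
    exact h3
  rw [e2]
  have h3 := hl A X hA hX
  have h4 : -‖R‖ ≤ R.re := (abs_le.1 (Complex.abs_re_le_norm R)).1
  have h5 := mul_le_mul_of_nonneg_left h3 (show (0 : ℝ) ≤ S.card by linarith)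
  have h6 : a * Real.log (X / A) ≤ S.card * (a * Real.log (X / A)) := le_mul_of_one_le_left (by positivity) hS
  have h7 : (S.card : ℝ) * K ≤ S.card * |K| := mul_le_mul_of_nonneg_left (le_abs_self K) (by linarith)
  have h8 : a / (2 * Fintype.card H) * Real.log (X / A) - (S.card * |K| + ∑ ψ ∈ T, L ψ) / Fintype.card H =
      1 / Fintype.card H * (a / 2 * Real.log (X / A) - S.card * |K| - ∑ ψ ∈ T, L ψ) := by
    field_simp
    ring
  rw [h8]
  refine mul_le_mul_of_nonneg_left ?_ (by positivity)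
  linarith

end Pool.Agent.Lib.MP_d57abb_nt.GV
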