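import Pool.Agent.Lib.MP_d57abb_nt.GV.PvS
import Pool.Agent.Lib.MP_d57abb_nt.GV.WinM
import Pool.Agent.Lib.MP_d57abb_nt.GV.WinP
import Pool.Agent.Lib.MP_d57abb_nt.GV.CntF

/-!
# The law of the values of an additive function at the values of `f` without square factors
-/

namespace Pool.Agent.Lib.MP_d57abb_nt.GV

open Finset GT
open Pool.Agent.Lib.MP_d57abb_nt.GA Pool.Agent.Lib.MP_d57abb_nt.GA.TZ Pool.Agent.Lib.MP_d57abb_nt.GA.AS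

/-- no prime which does not divide `D` divides `n` twice -/
def SqD (D n : ℕ) : Prop := ∀ l : ℕ, l.Prime → ¬ l ∣ D → ¬ l ^ 2 ∣ n

theorem SqD_mul {D a b : ℕ} (hab : a.Coprime b) : SqD D (a * b) ↔ SqD D a ∧ SqD D b := by
  constructor
  · intro h
    exact ⟨fun l hl hD hd => h l hl hD (hd.mul_right b), fun l hl hD hd => h l hl hD (hd.mul_left a)⟩
  · rintro ⟨h1, h2⟩ l hl hD hd
    by_cases ha : l ∣ a
    · have hb : ¬ l ∣ b := fun hb => hl.one_lt.ne' (Nat.dvd_one.1 (by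
        rw [← hab.gcd_eq_one]
        exact Nat.dvd_gcd ha hb))
      exact h1 l hl hD (Nat.Coprime.dvd_of_dvd_mul_right (((Nat.Prime.coprime_iff_not_dvd hl).2 hb).pow_left 2) hd)
    · exact h2 l hl hD (Nat.Coprime.dvd_of_dvd_mul_left (((Nat.Prime.coprime_iff_not_dvd hl).2 ha).pow_left 2) hd)

theorem SqD_prime (D : ℕ) {p : ℕ} (hp : p.Prime) : SqD D p := by
  intro l hl _ hd
  have h1 : l = p := (Nat.prime_dvd_prime_iff_eq hl hp).1 ((dvd_pow_self l (by norm_num)).trans hd)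
  rw [h1] at hd
  have h2 := Nat.le_of_dvd hp.pos hd
  have h3 := hp.one_lt
  nlinarith

theorem sq_fac {D k₀ k : ℕ} (h2 : k ^ 2 + 3 * k + 1 ≡ k₀ ^ 2 + 3 * k₀ + 1 [MOD D * (k₀ ^ 2 + 3 * k₀ + 1) * (k₀ ^ 2 + 3 * k₀ + 1)])
    (h3 : SqD (D * (k₀ ^ 2 + 3 * k₀ + 1)) (k ^ 2 + 3 * k + 1)) :
    ∃ m : ℕ, 0 < m ∧ k ^ 2 + 3 * k + 1 = (k₀ ^ 2 + 3 * k₀ + 1) * m ∧ Squarefree m ∧ m ≡ 1 [MOD D] := by
  obtain ⟨f, hf⟩ : ∃ f : ℕ, f = k₀ ^ 2 + 3 * k₀ + 1 := ⟨_, rfl⟩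
  have hf0 : 0 < f := by rw [hf]; positivity
  rw [← hf] at h2 h3 ⊢
  have h5 : f ∣ k ^ 2 + 3 * k + 1 := ((h2.of_dvd (Dvd.intro_left _ rfl)).dvd_iff (dvd_refl f)).2 (dvd_refl f)
  obtain ⟨m, hm1⟩ := h5
  have hm0 : 0 < m := by
    rcases Nat.eq_zero_or_pos m with h0 | h0
    · rw [h0, mul_zero] at hm1
      omega
    · exact h0
  have h6 : m ≡ 1 [MOD D * f] := by
    rw [hm1] at h2
    have h7 : f * m ≡ f * 1 [MOD f * (D * f)] := by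
      rw [mul_one, mul_comm f (D * f)]
      exact h2
    exact Nat.ModEq.mul_left_cancel' hf0.ne' h7
  refine ⟨m, hm0, hm1, ?_, h6.of_mul_right f⟩
  rw [Nat.squarefree_iff_prime_squarefree]
  intro l hl hd
  refine h3 l hl (fun hlD => ?_) ?_
  · have h7 : l ∣ m := (Dvd.intro _ rfl).trans hd
    have h8 : l ∣ 1 := ((h6.of_dvd hlD).dvd_iff (dvd_refl l)).1 h7
    exact hl.one_lt.ne' (Nat.dvd_one.1 h8)
  · rw [hm1, sq]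
    exact hd.mul_left f

variable {H : Type*} [AddCommGroup H]

private theorem LawS_mul {h : ℕ → H} (hm : ∀ a b : ℕ, 0 < a → 0 < b → h (a * b) = h a + h b) (ψ : AddChar H ℂ)
    {a b : ℕ} (ha : 0 < a) (hb : 0 < b) : ψ (h (a * b)) = ψ (h a) * ψ (h b) := by
  rw [hm a b ha hb, AddChar.map_add_eq_mul]

private theorem LawS_ff {D k k₀ : ℕ} (h : k ≡ k₀ [MOD D]) : k ^ 2 + 3 * k + 1 ≡ k₀ ^ 2 + 3 * k₀ + 1 [MOD D] :=
  Nat.ModEq.add_right 1 (Nat.ModEq.add (h.pow 2) (h.mul_left 3))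

variable [Fintype H]

private theorem LawS_root (ψ : AddChar H ℂ) (x : H) : ψ x ^ Fintype.card H = 1 := by
  rw [← AddChar.map_nsmul_eq_pow, card_nsmul_eq_zero, AddChar.map_zero_eq_one]

private theorem LawS_norm (ψ : AddChar H ℂ) (x : H) : ‖ψ x‖ = 1 :=
  Complex.norm_eq_one_of_pow_eq_one (LawS_root ψ x) Fintype.card_ne_zero

open Classical in
theorem lawSX {h : ℕ → H} (hm : ∀ a b : ℕ, 0 < a → 0 < b → h (a * b) = h a + h b) {D : ℕ} (hD : 0 < D) (k₀ : ℕ)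
    (hk₀ : k₀ ^ 2 + 3 * k₀ + 1 ∣ D) {x : H}
    (hx : ∀ ψ : AddChar H ℂ, ¬ NPx (fun n => ψ (h n)) → ψ x = ψ (h (k₀ ^ 2 + 3 * k₀ + 1))) :
    ∃ κ : ℝ, 0 < κ ∧ ∃ X₀ : ℕ, ∀ X : ℕ, X₀ ≤ X →
      κ * X ≤ ∑ k ∈ (Icc 1 X).filter (fun k => (k ^ 2 + 3 * k + 1 ≡ k₀ ^ 2 + 3 * k₀ + 1 [MOD D * (k₀ ^ 2 + 3 * k₀ + 1)] ∧
        SqD D (k ^ 2 + 3 * k + 1)) ∧ h (k ^ 2 + 3 * k + 1) = x), (tc 32 k : ℝ) := by
  obtain ⟨S, hS⟩ : ∃ S : Finset (AddChar H ℂ), ∀ ψ, ψ ∈ S ↔ ¬ NPx (fun n => ψ (h n)) :=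
    ⟨univ.filter (fun ψ => ¬ NPx (fun n => ψ (h n))), fun ψ => by simp⟩
  have h1 : (1 : AddChar H ℂ) ∈ S := by
    rw [hS]
    exact npx_one
  have hmul : ∀ ψ ∈ S, ∀ φ ∈ S, ψ * φ ∈ S := by
    intro ψ hψ φ hφ
    rw [hS] at hψ hφ ⊢
    exact npx_mul hψ hφ
  have hDc : 0 < D * (k₀ ^ 2 + 3 * k₀ + 1) := Nat.mul_pos hD (by positivity)
  obtain ⟨Q, hQ⟩ : ∃ Q : ℕ → Prop, ∀ k, Q k ↔ (k ^ 2 + 3 * k + 1 ≡ k₀ ^ 2 + 3 * k₀ + 1 [MOD D * (k₀ ^ 2 + 3 * k₀ + 1)] ∧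
        SqD D (k ^ 2 + 3 * k + 1)) := ⟨_, fun _ => Iff.rfl⟩
  obtain ⟨κ0, hκ0, X1, hX1⟩ := pvS (ι := {ψ : AddChar H ℂ // ψ ∈ S}) (g := fun ψ n => ψ.1 (h n))
    (fun ψ => ⟨fun a b ha hb => LawS_mul hm ψ.1 ha hb, fun n _ => (AddChar.val_isUnit ψ.1 (h n)).ne_zero⟩)
    (fun ψ => (hS ψ.1).1 ψ.2) hD k₀ hk₀
  have hxS : ∀ ψ ∈ S, ψ x = ψ (h (k₀ ^ 2 + 3 * k₀ + 1)) := fun ψ hψ => hx ψ ((hS ψ).1 hψ)
  obtain ⟨u, hu⟩ : ∃ u : ℕ → ℝ, ∀ k, u k = if Q k ∧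
    ∀ ψ ∈ S, ψ (h (k ^ 2 + 3 * k + 1)) = ψ x then (tc 32 k : ℝ) else 0 := ⟨_, fun _ => rfl⟩
  obtain ⟨w, hw⟩ : ∃ w : ℕ → ℝ, ∀ k, w k = if Q k then (tc 32 k : ℝ) / k else 0 := ⟨_, fun _ => rfl⟩
  have hu0 : ∀ k, 0 ≤ u k := by
    intro k
    rw [hu]
    split_ifs
    · positivity
    · exact le_rfl
  have hlo : ∀ N : ℕ, X1 ≤ N → κ0 * N ≤ ∑ k ∈ Icc 1 N, u k := by
    intro N hN
    refine (hX1 N hN).trans ?_
    rw [Finset.sum_filter]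
    refine Finset.sum_le_sum fun k _ => ?_
    split_ifs with h2
    · rw [hu, if_pos ⟨(hQ k).2 ⟨LawS_ff h2.1, h2.2.1⟩, fun ψ hψ => by rw [hxS ψ hψ]; exact h2.2.2 ⟨ψ, hψ⟩⟩]
    · exact hu0 k
  have hhi : ∀ N : ℕ, ∑ k ∈ Icc 1 N, u k ≤ (3 * 32) * N := by
    intro N
    refine le_trans (Finset.sum_le_sum fun k _ => ?_) (@TS.mass_le lab0 32 (by norm_num) N)
    rw [hu]
    split_ifs
    · exact le_rfl
    · positivity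
  obtain ⟨a, ha, K, -, hlow⟩ := low_abs hu0 hκ0 (by positivity) hlo hhi
  obtain ⟨a', ha', K', hwin⟩ := chr_low S h1 hmul (w := w)
    (fun k => h (k ^ 2 + 3 * k + 1)) x (fun ψ hψ ε hε => by
      obtain ⟨G, hG⟩ : ∃ G : ℕ → ℂ, ∀ n, G n = if SqD D n then ψ (h n) else 0 := ⟨_, fun _ => rfl⟩
      obtain ⟨K, hK, h2⟩ := mul_win (q := Fintype.card H) Fintype.card_pos (g := fun n => ψ (h n)) (G := G)
        (fun a b ha hb => LawS_mul hm ψ ha hb) (fun n _ => LawS_root ψ (h n))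
        (not_not.1 fun h3 => hψ ((hS ψ).2 h3))
        (fun a b ha hb hab => by
          rw [hG, hG, hG]
          by_cases c1 : SqD D a
          · by_cases c2 : SqD D b
            · rw [if_pos c1, if_pos c2, if_pos ((SqD_mul hab).2 ⟨c1, c2⟩), LawS_mul hm ψ ha hb]
            · rw [if_neg c2, if_neg (fun c3 => c2 ((SqD_mul hab).1 c3).2), mul_zero]
          · rw [if_neg c1, if_neg (fun c3 => c1 ((SqD_mul hab).1 c3).1), zero_mul])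
        (fun n _ => by
          rw [hG]
          split_ifs
          · exact (LawS_norm ψ _).le
          · rw [norm_zero]
            exact zero_le_one)
        (fun p hp _ => by rw [hG, if_pos (SqD_prime D hp)])
        hDc (k₀ ^ 2 + 3 * k₀ + 1) 32 (by norm_num) ε hε
      refine ⟨K, hK, fun A X hA hX => le_trans (le_of_eq ?_) (h2 A X hA hX)⟩
      rw [Finset.sum_filter]
      refine congrArg _ (Finset.sum_congr rfl fun k _ => ?_)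
      rw [hw]
      show (((if Q k then (tc 32 k : ℝ) / k else 0 : ℝ) : ℂ)) * ψ (h (k ^ 2 + 3 * k + 1)) =
        if k ^ 2 + 3 * k + 1 ≡ k₀ ^ 2 + 3 * k₀ + 1 [MOD D * (k₀ ^ 2 + 3 * k₀ + 1)] then
          (((tc 32 k : ℝ) / k : ℝ) : ℂ) * G (k ^ 2 + 3 * k + 1) else 0
      by_cases c1 : k ^ 2 + 3 * k + 1 ≡ k₀ ^ 2 + 3 * k₀ + 1 [MOD D * (k₀ ^ 2 + 3 * k₀ + 1)]
      · by_cases c2 : SqD D (k ^ 2 + 3 * k + 1)
        · rw [if_pos ((hQ k).2 ⟨c1, c2⟩), if_pos c1, hG, if_pos c2]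
        · rw [if_neg (fun c3 => c2 ((hQ k).1 c3).2), if_pos c1, hG, if_neg c2, Complex.ofReal_zero, zero_mul, mul_zero]
      · rw [if_neg (fun c3 => c1 ((hQ k).1 c3).1), if_neg c1, Complex.ofReal_zero, zero_mul]) ha (K := K)
      (fun A X hA hX => by
      refine (hlow A X hA hX).trans (le_of_eq ?_)
      rw [Finset.sum_filter]
      refine Finset.sum_congr rfl fun k _ => ?_
      rw [hu, hw]
      by_cases h2 : Q k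
      · by_cases h3 : ∀ ψ ∈ S, ψ (h (k ^ 2 + 3 * k + 1)) = ψ x
        · rw [if_pos ⟨h2, h3⟩, if_pos h3, if_pos h2]
        · rw [if_neg (fun h4 => h3 h4.2), if_neg h3, zero_div]
      · rw [if_neg (fun h4 => h2 h4.1), if_neg h2, zero_div]
        split_ifs <;> rfl)
  refine win_pos (u := fun k => (tc 32 k : ℝ)) (fun k => by positivity) _ ha' (K := K') fun A X hA hX =>
    (hwin A X hA hX).trans (le_of_eq ?_)
  rw [Finset.sum_filter, Finset.sum_filter]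
  refine Finset.sum_congr rfl fun k _ => ?_
  rw [hw]
  by_cases h2 : Q k
  · have h2' := (hQ k).1 h2
    by_cases h3 : h (k ^ 2 + 3 * k + 1) = x
    · rw [if_pos h3, if_pos h2, if_pos ⟨h2', h3⟩]
    · rw [if_neg h3, if_neg (fun h4 => h3 h4.2)]
  · rw [if_neg (fun h4 : (k ^ 2 + 3 * k + 1 ≡ k₀ ^ 2 + 3 * k₀ + 1 [MOD D * (k₀ ^ 2 + 3 * k₀ + 1)] ∧
      SqD D (k ^ 2 + 3 * k + 1)) ∧ h (k ^ 2 + 3 * k + 1) = x => h2 ((hQ k).2 h4.1)), if_neg h2]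
    split_ifs <;> rfl

/-- from weights to numbers -/
private theorem LawS_card {κ : ℝ} (hκ : 0 < κ) (P : ℕ → Prop) [DecidablePred P] {X₀ : ℕ}
    (h : ∀ X : ℕ, X₀ ≤ X → κ * X ≤ ∑ k ∈ (Icc 1 X).filter P, (tc 32 k : ℝ)) :
    ∃ κ' : ℝ, 0 < κ' ∧ κ' ≤ κ ∧ ∃ X₁ : ℕ, X₀ ≤ X₁ ∧ ∀ X : ℕ, X₁ ≤ X →
      κ' * X / (Real.log X) ^ (7 / 10 : ℝ) ≤ (((Icc 1 X).filter P).card : ℝ) := by
  obtain ⟨κ', hκ', X₂, hcount⟩ := countF (show (1 : ℝ) ≤ 32 by norm_num) hκ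
  refine ⟨min κ' κ, lt_min hκ' hκ, min_le_right _ _, X₀ + X₂ + 1, by omega, fun X hX => ?_⟩
  refine le_trans ?_ (hcount X (by omega) P (h X (by omega)))
  have h1 : (0 : ℝ) ≤ X := Nat.cast_nonneg _
  have h2 : (0 : ℝ) ≤ Real.log X := Real.log_nonneg (by exact_mod_cast (by omega : 1 ≤ X))
  exact div_le_div_of_nonneg_right (mul_le_mul_of_nonneg_right (min_le_left _ _) h1) (Real.rpow_nonneg h2 _)

open Classical in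
/-- the law: `f k = f k₀ * m` with `m` squarefree, `1` modulo `D`, and `h m = x` -/
theorem lawS {h : ℕ → H} (hm : ∀ a b : ℕ, 0 < a → 0 < b → h (a * b) = h a + h b) {D : ℕ} (hD : 0 < D) (k₀ : ℕ) :
    ∃ κ : ℝ, 0 < κ ∧ ∃ X₀ : ℕ, ∀ x : H, (∀ ψ : AddChar H ℂ, ¬ NPx (fun n => ψ (h n)) → ψ x = 1) →
      ∀ X : ℕ, X₀ ≤ X →
      κ * X ≤ ∑ k ∈ (Icc 1 X).filter (fun k => ∃ m : ℕ, k ^ 2 + 3 * k + 1 = (k₀ ^ 2 + 3 * k₀ + 1) * m ∧ Squarefree m ∧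
        m ≡ 1 [MOD D] ∧ h m = x), (tc 32 k : ℝ) ∧
      κ * X / (Real.log X) ^ (7 / 10 : ℝ) ≤ (((Icc 1 X).filter (fun k => ∃ m : ℕ,
        k ^ 2 + 3 * k + 1 = (k₀ ^ 2 + 3 * k₀ + 1) * m ∧ Squarefree m ∧ m ≡ 1 [MOD D] ∧ h m = x)).card : ℝ) := by
  obtain ⟨f, hf⟩ : ∃ f : ℕ, f = k₀ ^ 2 + 3 * k₀ + 1 := ⟨_, rfl⟩
  have hf0 : 0 < f := by rw [hf]; positivity
  have hD1 : 0 < D * f := Nat.mul_pos hD hf0
  have hsub : ∀ (x : H) (X : ℕ), (Icc 1 X).filter (fun k =>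
      (k ^ 2 + 3 * k + 1 ≡ k₀ ^ 2 + 3 * k₀ + 1 [MOD D * f * (k₀ ^ 2 + 3 * k₀ + 1)] ∧
        SqD (D * f) (k ^ 2 + 3 * k + 1)) ∧ h (k ^ 2 + 3 * k + 1) = h (k₀ ^ 2 + 3 * k₀ + 1) + x) ⊆
      (Icc 1 X).filter (fun k => ∃ m : ℕ, k ^ 2 + 3 * k + 1 = (k₀ ^ 2 + 3 * k₀ + 1) * m ∧ Squarefree m ∧
        m ≡ 1 [MOD D] ∧ h m = x) := by
    intro x X k hk
    obtain ⟨h1, ⟨h2, h3⟩, h4⟩ := mem_filter.1 hk
    refine mem_filter.2 ⟨h1, ?_⟩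
    rw [hf] at h2 h3
    obtain ⟨m, hm0, hm1, hm2, hm3⟩ := sq_fac h2 h3
    refine ⟨m, hm1, hm2, hm3, ?_⟩
    rw [hm1, hm _ m (by positivity) hm0] at h4
    exact add_left_cancel h4
  have h1 : ∀ x : H, ∃ κ : ℝ, 0 < κ ∧ ∃ X₀ : ℕ, (∀ ψ : AddChar H ℂ, ¬ NPx (fun n => ψ (h n)) → ψ x = 1) →
      ∀ X : ℕ, X₀ ≤ X →
      κ * X ≤ ∑ k ∈ (Icc 1 X).filter (fun k => ∃ m : ℕ, k ^ 2 + 3 * k + 1 = (k₀ ^ 2 + 3 * k₀ + 1) * m ∧ Squarefree m ∧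
        m ≡ 1 [MOD D] ∧ h m = x), (tc 32 k : ℝ) ∧
      κ * X / (Real.log X) ^ (7 / 10 : ℝ) ≤ (((Icc 1 X).filter (fun k => ∃ m : ℕ,
        k ^ 2 + 3 * k + 1 = (k₀ ^ 2 + 3 * k₀ + 1) * m ∧ Squarefree m ∧ m ≡ 1 [MOD D] ∧ h m = x)).card : ℝ) := by
    intro x
    by_cases hx : ∀ ψ : AddChar H ℂ, ¬ NPx (fun n => ψ (h n)) → ψ x = 1
    · obtain ⟨κ, hκ, X₀, h2⟩ := lawSX hm hD1 k₀ (x := h (k₀ ^ 2 + 3 * k₀ + 1) + x) (by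
        rw [← hf]
        exact Dvd.intro_left _ rfl) (fun ψ hψ => by rw [AddChar.map_add_eq_mul, hx ψ hψ, mul_one])
      have h2' : ∀ X : ℕ, X₀ ≤ X → κ * X ≤ ∑ k ∈ (Icc 1 X).filter (fun k => ∃ m : ℕ,
          k ^ 2 + 3 * k + 1 = (k₀ ^ 2 + 3 * k₀ + 1) * m ∧ Squarefree m ∧ m ≡ 1 [MOD D] ∧ h m = x), (tc 32 k : ℝ) :=
        fun X hX => (h2 X hX).trans (Finset.sum_le_sum_of_subset_of_nonneg (hsub x X) fun _ _ _ => by positivity)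
      obtain ⟨κ', hκ', hle, X₁, hX₁, h3⟩ := LawS_card hκ _ h2'
      exact ⟨κ', hκ', X₁, fun _ X hX => ⟨le_trans (mul_le_mul_of_nonneg_right hle (Nat.cast_nonneg _)) (h2' X (by omega)),
        h3 X hX⟩⟩
    · exact ⟨1, one_pos, 0, fun h2 => absurd h2 hx⟩
  choose κ hκ X₀ hX₀ using h1
  obtain ⟨x₀, -, hmin⟩ := Finset.exists_min_image (univ : Finset H) κ ⟨0, mem_univ _⟩
  refine ⟨κ x₀, hκ x₀, (univ : Finset H).sup X₀ + 1, fun x hx X hX' => ?_⟩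
  have hX : X₀ x ≤ X := (Finset.le_sup (mem_univ x)).trans (by omega)
  have hlog : (0 : ℝ) ≤ Real.log X := Real.log_nonneg (by exact_mod_cast (by omega : 1 ≤ X))
  obtain ⟨h2, h3⟩ := hX₀ x hx X hX
  have h5 : κ x₀ * X ≤ κ x * X := mul_le_mul_of_nonneg_right (hmin x (mem_univ x)) (Nat.cast_nonneg _)
  exact ⟨h5.trans h2, (div_le_div_of_nonneg_right h5 (Real.rpow_nonneg hlog _)).trans h3⟩

end Pool.Agent.Lib.MP_d57abb_nt.GV
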