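import Pool.Agent.Lib.MP_d57abb_nt.GV.Defs
import Pool.Agent.Lib.MP_d57abb_nt.GA.TA.Law

/-!
# The pairs `(x, y)` with `x y = -1` modulo `n` in residue classes modulo `m`
-/

namespace Pool.Agent.Lib.MP_d57abb_nt.GV

open Finset

attribute [local instance] GT.lab0

/-- the pairs with `x y = - 1` modulo `n` -/
noncomputable def HH (n : ℕ) : Finset (ℤ × ℤ) := (Ioc (0 : ℤ) n ×ˢ Ico (0 : ℤ) n).filter (fun x => (n : ℤ) ∣ x.1 * x.2 + 1)

theorem mem_HH {n : ℕ} {x : ℤ × ℤ} :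
    x ∈ HH n ↔ ((0 < x.1 ∧ x.1 ≤ n) ∧ 0 ≤ x.2 ∧ x.2 < n) ∧ (n : ℤ) ∣ x.1 * x.2 + 1 := by
  unfold HH
  rw [mem_filter, mem_product, mem_Ioc, mem_Ico]

/-- the second coordinate is determined by the first -/
theorem HH_inj {n : ℕ} {x x' : ℤ × ℤ} (hx : x ∈ HH n) (hx' : x' ∈ HH n) (h : x.1 = x'.1) : x = x' := by
  obtain ⟨⟨-, a3, a4⟩, a5⟩ := mem_HH.1 hx
  obtain ⟨⟨-, b3, b4⟩, b5⟩ := mem_HH.1 hx'
  rw [← h] at b5
  have h1 : (n : ℤ) ∣ x.1 * (x.2 - x'.2) := by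
    have := dvd_sub a5 b5
    have e : x.1 * x.2 + 1 - (x.1 * x'.2 + 1) = x.1 * (x.2 - x'.2) := by ring
    rwa [e] at this
  have hc : IsCoprime (n : ℤ) x.1 := by
    obtain ⟨c, hc⟩ := a5
    exact ⟨c, -x.2, by linarith⟩
  have h2 : (n : ℤ) ∣ x.2 - x'.2 := hc.dvd_of_dvd_mul_left h1
  have h3 : x.2 - x'.2 = 0 := by
    refine Int.eq_zero_of_abs_lt_dvd h2 ?_
    rw [abs_lt]
    constructor <;> linarith
  exact Prod.ext h (by linarith)

theorem card_HH {n : ℕ} (hn : 0 < n) : (HH n).card = n.totient := by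
  have h1 : (HH n).card = ((Ioc 0 n).filter (fun a => n.Coprime a)).card := by
    refine Finset.card_bij (fun x _ => x.1.toNat) ?_ ?_ ?_
    · intro x hx
      obtain ⟨⟨⟨a1, a2⟩, -⟩, a5⟩ := mem_HH.1 hx
      rw [mem_filter, mem_Ioc]
      refine ⟨⟨by omega, by omega⟩, ?_⟩
      rw [← Nat.isCoprime_iff_coprime, Int.toNat_of_nonneg a1.le]
      obtain ⟨c, hc⟩ := a5
      exact ⟨c, -x.2, by linarith⟩
    · intro x hx x' hx' he
      obtain ⟨⟨⟨a1, -⟩, -⟩, -⟩ := mem_HH.1 hx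
      obtain ⟨⟨⟨b1, -⟩, -⟩, -⟩ := mem_HH.1 hx'
      exact HH_inj hx hx' (by omega)
    · intro a ha
      rw [mem_filter, mem_Ioc] at ha
      obtain ⟨⟨h2, h3⟩, h4⟩ := ha
      have hnz : (0 : ℤ) < n := by exact_mod_cast hn
      obtain ⟨s, t, hst⟩ := Nat.isCoprime_iff_coprime.2 h4
      refine ⟨((a : ℤ), (-t) % n), ?_, by simp⟩
      rw [mem_HH]
      have h2z : (0 : ℤ) < a := by exact_mod_cast h2
      have h3z : (a : ℤ) ≤ n := by exact_mod_cast h3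
      refine ⟨⟨⟨h2z, h3z⟩, Int.emod_nonneg _ hnz.ne', Int.emod_lt_of_pos _ hnz⟩, ?_⟩
      have h5 := Int.emod_add_mul_ediv (-t) (n : ℤ)
      refine ⟨s - a * (-t / n), ?_⟩
      show (a : ℤ) * (-t % n) + 1 = _
      linear_combination (a : ℤ) * h5 - hst
  rw [h1]
  unfold Nat.totient
  refine Finset.card_bij (fun a _ => a % n) ?_ ?_ ?_
  · intro a ha
    rw [mem_filter, mem_Ioc] at ha
    rw [mem_filter, mem_range]
    refine ⟨Nat.mod_lt _ hn, ?_⟩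
    show Nat.gcd n (a % n) = 1
    rw [Nat.gcd_comm, ← Nat.gcd_rec]
    exact ha.2
  · intro a ha b hb he
    rw [mem_filter, mem_Ioc] at ha hb
    have he' : a % n = b % n := he
    rcases Nat.lt_or_ge a n with h2 | h2 <;> rcases Nat.lt_or_ge b n with h3 | h3
    · rwa [Nat.mod_eq_of_lt h2, Nat.mod_eq_of_lt h3] at he'
    · have h4 : b = n := by omega
      rw [h4, Nat.mod_self, Nat.mod_eq_of_lt h2] at he'
      omega
    · have h4 : a = n := by omega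
      rw [h4, Nat.mod_self, Nat.mod_eq_of_lt h3] at he'
      omega
    · omega
  · intro a ha
    rw [mem_filter, mem_range] at ha
    rcases Nat.eq_zero_or_pos a with h2 | h2
    · refine ⟨n, ?_, ?_⟩
      · rw [mem_filter, mem_Ioc]
        refine ⟨⟨hn, le_rfl⟩, ?_⟩
        rw [h2, Nat.coprime_zero_right] at ha
        rw [ha.2]
        exact Nat.coprime_one_left 1
      · rw [Nat.mod_self, h2]
    · exact ⟨a, by rw [mem_filter, mem_Ioc]; exact ⟨⟨h2, ha.1.le⟩, ha.2⟩, Nat.mod_eq_of_lt ha.1⟩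

/-- the pairs in a residue class -/
noncomputable def Hc (n m : ℕ) (c : ℤ × ℤ) : Finset (ℤ × ℤ) := (HH n).filter (fun x => (m : ℤ) ∣ x.1 - c.1 ∧ (m : ℤ) ∣ x.2 - c.2)

theorem law_up (m : ℕ) (hm : 0 < m) (ε : ℝ) (hε : 0 < ε) : ∃ n0 : ℕ, ∀ n : ℕ, n0 ≤ n → n.Coprime m →
    ∀ c : ℤ × ℤ, ((Hc n m c).card : ℝ) ≤ (1 + ε) * n.totient / (m : ℝ) ^ 2 := by
  obtain ⟨n0, hn0⟩ := GA.TA.law m hm ε hε
  refine ⟨n0, fun n hn hc c => le_trans (le_of_eq ?_) (hn0 n hn hc 0 c.1 c.2)⟩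
  congr 2
  unfold Hc HH
  ext x
  simp only [mem_filter, mem_product, zero_add]
  tauto

private theorem LawU_res (m : ℕ) (hm : 0 < m) (z : ℤ) : ∃ i : ℕ, i < m ∧ (m : ℤ) ∣ z - i := by
  have hmz : (0 : ℤ) < m := by exact_mod_cast hm
  have h1 := Int.emod_nonneg z hmz.ne'
  have h2 := Int.emod_lt_of_pos z hmz
  refine ⟨(z % m).toNat, by omega, z / m, ?_⟩
  have h3 := Int.emod_add_mul_ediv z (m : ℤ)
  rw [Int.toNat_of_nonneg h1]
  linarith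

theorem law_lo (m : ℕ) (hm : 0 < m) : ∃ n0 : ℕ, ∀ n : ℕ, n0 ≤ n → n.Coprime m →
    ∀ c : ℤ × ℤ, (n.totient : ℝ) / (2 * (m : ℝ) ^ 2) ≤ ((Hc n m c).card : ℝ) := by
  have hm0 : (0 : ℝ) < m := by exact_mod_cast hm
  have hm1 : (1 : ℝ) ≤ m := by exact_mod_cast hm
  obtain ⟨n0, hn0⟩ := law_up m hm (1 / (2 * (m : ℝ) ^ 2)) (by positivity)
  refine ⟨n0 + 1, fun n hn hc c => ?_⟩
  have hup := hn0 n (by omega) hc
  obtain ⟨i, hi, hdi⟩ := LawU_res m hm c.1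
  obtain ⟨j, hj, hdj⟩ := LawU_res m hm c.2
  obtain ⟨I, hI⟩ : ∃ I : Finset (ℕ × ℕ), I = range m ×ˢ range m := ⟨_, rfl⟩
  have hij : (i, j) ∈ I := by
    rw [hI, mem_product, mem_range, mem_range]
    exact ⟨hi, hj⟩
  have hIc : (I.card : ℝ) = (m : ℝ) ^ 2 := by
    rw [hI, card_product, card_range]
    push_cast
    ring
  have hcov : (HH n).card ≤ ∑ p ∈ I, (Hc n m ((p.1 : ℤ), (p.2 : ℤ))).card := by
    refine (Finset.card_le_card (t := I.biUnion fun p => Hc n m ((p.1 : ℤ), (p.2 : ℤ))) ?_).trans Finset.card_biUnion_le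
    intro x hx
    obtain ⟨i', hi', hdi'⟩ := LawU_res m hm x.1
    obtain ⟨j', hj', hdj'⟩ := LawU_res m hm x.2
    refine Finset.mem_biUnion.2 ⟨(i', j'), ?_, ?_⟩
    · rw [hI, mem_product, mem_range, mem_range]
      exact ⟨hi', hj'⟩
    · unfold Hc
      exact mem_filter.2 ⟨hx, hdi', hdj'⟩
  have hsame : Hc n m ((i : ℤ), (j : ℤ)) = Hc n m c := by
    unfold Hc
    refine Finset.filter_congr fun x _ => ?_
    have e1 : (m : ℤ) ∣ x.1 - i ↔ (m : ℤ) ∣ x.1 - c.1 := by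
      constructor
      · intro h
        have := dvd_sub h hdi
        have e : x.1 - i - (c.1 - i) = x.1 - c.1 := by ring
        rwa [e] at this
      · intro h
        have := dvd_add h hdi
        have e : x.1 - c.1 + (c.1 - i) = x.1 - i := by ring
        rwa [e] at this
    have e2 : (m : ℤ) ∣ x.2 - j ↔ (m : ℤ) ∣ x.2 - c.2 := by
      constructor
      · intro h
        have := dvd_sub h hdj
        have e : x.2 - j - (c.2 - j) = x.2 - c.2 := by ring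
        rwa [e] at this
      · intro h
        have := dvd_add h hdj
        have e : x.2 - c.2 + (c.2 - j) = x.2 - j := by ring
        rwa [e] at this
    show (m : ℤ) ∣ x.1 - i ∧ (m : ℤ) ∣ x.2 - j ↔ _
    rw [e1, e2]
  have hφ : (n.totient : ℝ) = ((HH n).card : ℝ) := by
    rw [card_HH (by omega)]
  have h1 : (n.totient : ℝ) ≤ ((Hc n m c).card : ℝ) +
      ((m : ℝ) ^ 2 - 1) * ((1 + 1 / (2 * (m : ℝ) ^ 2)) * n.totient / (m : ℝ) ^ 2) := by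
    have h2 : ((HH n).card : ℝ) ≤ ∑ p ∈ I, ((Hc n m ((p.1 : ℤ), (p.2 : ℤ))).card : ℝ) := by exact_mod_cast hcov
    rw [← Finset.add_sum_erase I _ hij, hsame] at h2
    have h3 : ∑ p ∈ I.erase (i, j), ((Hc n m ((p.1 : ℤ), (p.2 : ℤ))).card : ℝ) ≤
        ∑ _p ∈ I.erase (i, j), ((1 + 1 / (2 * (m : ℝ) ^ 2)) * n.totient / (m : ℝ) ^ 2) :=
      Finset.sum_le_sum fun p _ => hup _
    rw [Finset.sum_const, Finset.card_erase_of_mem hij, nsmul_eq_mul, Nat.cast_sub (Finset.card_pos.2 ⟨_, hij⟩), hIc,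
      Nat.cast_one] at h3
    linarith
  have hφ0 : (0 : ℝ) ≤ n.totient := Nat.cast_nonneg _
  have h2 : ((m : ℝ) ^ 2 - 1) * ((1 + 1 / (2 * (m : ℝ) ^ 2)) * n.totient / (m : ℝ) ^ 2) ≤
      n.totient - n.totient / (2 * (m : ℝ) ^ 2) := by
    have e : ((m : ℝ) ^ 2 - 1) * ((1 + 1 / (2 * (m : ℝ) ^ 2)) * n.totient / (m : ℝ) ^ 2) =
        n.totient * ((((m : ℝ) ^ 2 - 1) * (1 + 1 / (2 * (m : ℝ) ^ 2))) / (m : ℝ) ^ 2) := by ring
    have e2 : (n.totient : ℝ) - n.totient / (2 * (m : ℝ) ^ 2) = n.totient * (1 - 1 / (2 * (m : ℝ) ^ 2)) := by ring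
    rw [e, e2]
    refine mul_le_mul_of_nonneg_left ?_ hφ0
    rw [div_le_iff₀ (by positivity)]
    have e3 : (1 - 1 / (2 * (m : ℝ) ^ 2)) * (m : ℝ) ^ 2 = (m : ℝ) ^ 2 - 1 / 2 := by
      field_simp
    have e4 : ((m : ℝ) ^ 2 - 1) * (1 + 1 / (2 * (m : ℝ) ^ 2)) = (m : ℝ) ^ 2 - 1 / 2 - 1 / (2 * (m : ℝ) ^ 2) := by
      field_simp
      ring
    rw [e3, e4]
    have : (0 : ℝ) ≤ 1 / (2 * (m : ℝ) ^ 2) := by positivity
    linarith
  linarith

end Pool.Agent.Lib.MP_d57abb_nt.GV
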