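import Pool.Agent.Lib.MP_d57abb_nt.GV.LawS

/-!
# The mass of the weights at the values `f k = f k₀ * m` with `m` squarefree
-/

namespace Pool.Agent.Lib.MP_d57abb_nt.GV

open Finset GT
open Pool.Agent.Lib.MP_d57abb_nt.GA Pool.Agent.Lib.MP_d57abb_nt.GA.TZ

private theorem MasS_mono {b c : ℝ} (hbc : b ≤ c) (k : ℕ) : tc b k ≤ tc c k := by
  unfold tc
  refine Finset.card_le_card fun d hd => ?_
  rw [mem_filter] at hd ⊢
  refine ⟨hd.1, hd.2.1.trans ?_, hd.2.2.trans ?_⟩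
  · exact mul_le_mul_of_nonneg_right hbc (Nat.cast_nonneg _)
  · exact mul_le_mul_of_nonneg_right hbc (Nat.cast_nonneg _)

open Classical in
/-- the weights have positive mean at the values `f k = f k₀ * m` with `m` squarefree and `1` modulo `D` -/
theorem mass_sq {c : ℝ} (hc : 32 ≤ c) {D : ℕ} (hD : 0 < D) (k₀ : ℕ) :
    (∃ a : ℝ, 0 < a ∧ ∃ K : ℝ, ∀ A X : ℕ, 1 ≤ A → A ≤ X → a * Real.log (X / A) - K ≤
      ∑ k ∈ (Ioc A X).filter (fun k => ∃ m : ℕ, k ^ 2 + 3 * k + 1 = (k₀ ^ 2 + 3 * k₀ + 1) * m ∧ Squarefree m ∧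
        m ≡ 1 [MOD D]), (tc c k : ℝ) / k) ∧
    ∃ c₀ : ℝ, 0 < c₀ ∧ ∃ N₀ : ℕ, ∀ N : ℕ, N₀ ≤ N → c₀ * N ≤
      ∑ k ∈ (Icc 1 N).filter (fun k => ∃ m : ℕ, k ^ 2 + 3 * k + 1 = (k₀ ^ 2 + 3 * k₀ + 1) * m ∧ Squarefree m ∧
        m ≡ 1 [MOD D]), (tc c k : ℝ) := by
  have hD1 : 0 < D * (k₀ ^ 2 + 3 * k₀ + 1) := Nat.mul_pos hD (by positivity)
  obtain ⟨κ0, hκ0, X1, hX1⟩ := pvS (ι := Empty) (g := fun i => i.elim) (fun i => i.elim) (fun i => i.elim) hD1 k₀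
    (Dvd.intro_left _ rfl)
  obtain ⟨Q, hQ⟩ : ∃ Q : ℕ → Prop, ∀ k, Q k ↔ ∃ m : ℕ, k ^ 2 + 3 * k + 1 = (k₀ ^ 2 + 3 * k₀ + 1) * m ∧ Squarefree m ∧
        m ≡ 1 [MOD D] := ⟨_, fun _ => Iff.rfl⟩
  obtain ⟨u, hu⟩ : ∃ u : ℕ → ℝ, ∀ k, u k = if Q k then (tc c k : ℝ) else 0 := ⟨_, fun _ => rfl⟩
  have hu0 : ∀ k, 0 ≤ u k := by
    intro k
    rw [hu]
    split_ifs
    · positivity
    · exact le_rfl
  have hlo : ∀ N : ℕ, X1 ≤ N → κ0 * N ≤ ∑ k ∈ Icc 1 N, u k := by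
    intro N hN
    refine (hX1 N hN).trans ?_
    rw [Finset.sum_filter]
    refine Finset.sum_le_sum fun k _ => ?_
    split_ifs with h2
    · have h3 : Q k := by
        obtain ⟨m, -, h4⟩ := sq_fac (Nat.ModEq.add_right 1 (Nat.ModEq.add (h2.1.pow 2) (h2.1.mul_left 3))) h2.2.1
        exact (hQ k).2 ⟨m, h4⟩
      rw [hu, if_pos h3]
      exact_mod_cast MasS_mono hc k
    · exact hu0 k
  have hhi : ∀ N : ℕ, ∑ k ∈ Icc 1 N, u k ≤ (3 * c) * N := by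
    intro N
    refine le_trans (Finset.sum_le_sum fun k _ => ?_) (@TS.mass_le lab0 c (by linarith) N)
    rw [hu]
    split_ifs
    · exact le_rfl
    · positivity
  obtain ⟨a, ha, K, -, hlow⟩ := low_abs hu0 hκ0 (show 0 < 3 * c by linarith) hlo hhi
  simp only [← hQ]
  refine ⟨⟨a, ha, K, fun A X hA hX => (hlow A X hA hX).trans (le_of_eq ?_)⟩, κ0, hκ0, X1, fun N hN =>
    (hlo N hN).trans (le_of_eq ?_)⟩
  · rw [Finset.sum_filter]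
    refine Finset.sum_congr rfl fun k _ => ?_
    rw [hu]
    split_ifs
    · rfl
    · rw [zero_div]
  · rw [Finset.sum_filter]
    exact Finset.sum_congr rfl fun k _ => hu k

end Pool.Agent.Lib.MP_d57abb_nt.GV
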