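import Pool.Agent.Lib.MP_d57abb_nt.GV.Defs
import Pool.Agent.Lib.MP_d57abb_nt.GT.NPx

/-!
# Products of functions which pretend to be characters
-/

namespace Pool.Agent.Lib.MP_d57abb_nt.GV

open Finset MR GT

/-- the projection of the residue rings -/
private def Mul_pi {W V : ℕ} (h : W ∣ V) : RW V →+* RW W where
  toFun x := ⟨ZMod.castHom h (ZMod W) x.re, ZMod.castHom h (ZMod W) x.im⟩
  map_one' := by
    ext
    · show ZMod.castHom h (ZMod W) (1 : RW V).re = (1 : RW W).re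
      rw [QuadraticAlgebra.re_one, QuadraticAlgebra.re_one, map_one]
    · show ZMod.castHom h (ZMod W) (1 : RW V).im = (1 : RW W).im
      rw [QuadraticAlgebra.im_one, QuadraticAlgebra.im_one, map_zero]
  map_mul' x y := by
    ext
    · show ZMod.castHom h (ZMod W) (x * y).re = ((⟨_, _⟩ : RW W) * ⟨_, _⟩).re
      rw [QuadraticAlgebra.re_mul, QuadraticAlgebra.re_mul]
      simp only [map_add, map_mul, map_neg, map_one]
    · show ZMod.castHom h (ZMod W) (x * y).im = ((⟨_, _⟩ : RW W) * ⟨_, _⟩).im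
      rw [QuadraticAlgebra.im_mul, QuadraticAlgebra.im_mul]
      simp only [map_add, map_mul, map_ofNat]
  map_zero' := by
    ext
    · show ZMod.castHom h (ZMod W) (0 : RW V).re = (0 : RW W).re
      rw [QuadraticAlgebra.re_zero, QuadraticAlgebra.re_zero, map_zero]
    · show ZMod.castHom h (ZMod W) (0 : RW V).im = (0 : RW W).im
      rw [QuadraticAlgebra.im_zero, QuadraticAlgebra.im_zero, map_zero]
  map_add' x y := by
    ext
    · show ZMod.castHom h (ZMod W) (x + y).re = ((⟨_, _⟩ : RW W) + ⟨_, _⟩).re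
      rw [QuadraticAlgebra.re_add, QuadraticAlgebra.re_add, map_add]
    · show ZMod.castHom h (ZMod W) (x + y).im = ((⟨_, _⟩ : RW W) + ⟨_, _⟩).im
      rw [QuadraticAlgebra.im_add, QuadraticAlgebra.im_add, map_add]

private theorem Mul_pi_red {W V : ℕ} (h : W ∣ V) (x : O) : Mul_pi h (red V x) = red W x := by
  ext
  · show ZMod.castHom h (ZMod W) ((x.re : ℤ) : ZMod V) = ((x.re : ℤ) : ZMod W)
    rw [map_intCast]
  · show ZMod.castHom h (ZMod W) ((x.im : ℤ) : ZMod V) = ((x.im : ℤ) : ZMod W)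
    rw [map_intCast]

/-- a character as a character of a larger modulus -/
theorem lift_char {W V : ℕ} (h : W ∣ V) (χ : MulChar (RW W) ℂ) : ∃ χ' : MulChar (RW V) ℂ, ∀ x : O, IsUnit (red V x) →
    χ' (red V x) = χ (red W x) := by
  refine ⟨MulChar.ofUnitHom (χ.toUnitHom.comp (Units.map (Mul_pi h : RW V →* RW W))), fun x hx => ?_⟩
  obtain ⟨u, hu⟩ := hx
  rw [← hu, MulChar.ofUnitHom_coe, MonoidHom.comp_apply, MulChar.coe_toUnitHom, Units.coe_map, hu]
  show χ (Mul_pi h (red V x)) = _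
  rw [Mul_pi_red]

private theorem Mul_Dg {W V : ℕ} (h : W ∣ V) {p : O} (hp : Dg V p) : Dg W p :=
  ⟨hp.1, hp.2.1, fun hd => hp.2.2 (hd.trans h)⟩

/-- products of pretentious functions are pretentious -/
theorem npx_mul {g g' : ℕ → ℂ} (h : ¬ NPx g) (h' : ¬ NPx g') : ¬ NPx (fun n => g n * g' n) := by
  classical
  unfold NPx at h h' ⊢
  push Not at h h' ⊢
  obtain ⟨W, hW, h5, χ, hom, B, hB⟩ := h
  obtain ⟨W', hW', h5', χ', hom', B', hB'⟩ := h'
  obtain ⟨c, hc⟩ := lift_char (Dvd.intro _ rfl : W ∣ W * W') χ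
  obtain ⟨c', hc'⟩ := lift_char (Dvd.intro_left _ rfl : W' ∣ W * W') χ'
  refine ⟨W * W', ⟨Nat.mul_ne_zero (NeZero.ne W) (NeZero.ne W')⟩, Dvd.dvd.mul_right h5 _, c * c', ?_, B + B' , fun y => ?_⟩
  · rw [MulChar.mul_apply, hc _ isUnit_red_om, hc' _ isUnit_red_om, hom, hom', one_mul]
  have hs1 : (PP (W * W') y).filter (fun p => g (N p).natAbs * g' (N p).natAbs * (c * c') (red (W * W') p) ≠ 1) ⊆
      (PP W y).filter (fun p => g (N p).natAbs * χ (red W p) ≠ 1) ∪
      (PP W' y).filter (fun p => g' (N p).natAbs * χ' (red W' p) ≠ 1) := by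
    intro p hp
    obtain ⟨hp1, hp2⟩ := mem_filter.1 hp
    obtain ⟨hp3, hp4⟩ := mem_PP.1 hp1
    have d1 := Mul_Dg (Dvd.intro _ rfl : W ∣ W * W') hp3
    have d2 := Mul_Dg (Dvd.intro_left _ rfl : W' ∣ W * W') hp3
    rw [MulChar.mul_apply, hc _ (isUnit_red_prime hp3), hc' _ (isUnit_red_prime hp3)] at hp2
    rw [mem_union, mem_filter, mem_filter]
    by_cases h3 : g (N p).natAbs * χ (red W p) = 1
    · refine Or.inr ⟨mem_PP.2 ⟨d2, hp4⟩, fun h4 => hp2 ?_⟩
      calc g (N p).natAbs * g' (N p).natAbs * (χ (red W p) * χ' (red W' p)) =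
          (g (N p).natAbs * χ (red W p)) * (g' (N p).natAbs * χ' (red W' p)) := by ring
        _ = 1 := by rw [h3, h4, one_mul]
    · exact Or.inl ⟨mem_PP.2 ⟨d1, hp4⟩, h3⟩
  have hnn1 : ∀ p ∈ (PP W y).filter (fun p => g (N p).natAbs * χ (red W p) ≠ 1), 0 ≤ 1 / (N p : ℝ) := by
    intro p hp
    have := (mem_PP.1 (mem_filter.1 hp).1).1.tp.N_pos
    positivity
  have hnn2 : ∀ p ∈ (PP W' y).filter (fun p => g' (N p).natAbs * χ' (red W' p) ≠ 1), 0 ≤ 1 / (N p : ℝ) := by
    intro p hp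
    have := (mem_PP.1 (mem_filter.1 hp).1).1.tp.N_pos
    positivity
  have h3 := Finset.sum_le_sum_of_subset_of_nonneg (f := fun p : O => 1 / (N p : ℝ)) hs1 fun p hp _ => by
    rcases mem_union.1 hp with hp | hp
    · exact hnn1 p hp
    · exact hnn2 p hp
  have h4 := Finset.sum_union_inter (s₁ := (PP W y).filter (fun p => g (N p).natAbs * χ (red W p) ≠ 1))
    (s₂ := (PP W' y).filter (fun p => g' (N p).natAbs * χ' (red W' p) ≠ 1)) (f := fun p : O => 1 / (N p : ℝ))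
  have h5 : 0 ≤ ∑ p ∈ (PP W y).filter (fun p => g (N p).natAbs * χ (red W p) ≠ 1) ∩
      (PP W' y).filter (fun p => g' (N p).natAbs * χ' (red W' p) ≠ 1), 1 / (N p : ℝ) :=
    Finset.sum_nonneg fun p hp => hnn1 p (mem_inter.1 hp).1
  have h6 := hB y
  have h7 := hB' y
  linarith

/-- the function `1` is pretentious -/
theorem npx_one : ¬ NPx (fun _ => 1) := by
  classical
  unfold NPx
  push Not
  refine ⟨5, ⟨by norm_num⟩, dvd_rfl, 1, MulChar.one_apply isUnit_red_om, 1, fun y => ?_⟩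
  rw [Finset.sum_eq_zero]
  · norm_num
  · intro p hp
    obtain ⟨hp1, hp2⟩ := mem_filter.1 hp
    exact absurd (by rw [MulChar.one_apply (isUnit_red_prime (mem_PP.1 hp1).1), one_mul]) hp2

end Pool.Agent.Lib.MP_d57abb_nt.GV
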