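import Pool.Agent.Lib.MP_d57abb_nt.GV.WinC

/-!
# Multiplicative functions at `f k` in terms of completely multiplicative ones
-/

namespace Pool.Agent.Lib.MP_d57abb_nt.GV

open Finset Pool.Agent.Lib.MP_d57abb_nt.GA.TZ

private theorem MulM_sq5 : ∀ x : ZMod 5, IsSquare x → x = 0 ∨ x = 1 ∨ x = 4 := by decide

private theorem MulM_sq {p k : ℕ} (hp : p.Prime) (h5 : p ≠ 5) (h2 : p ≠ 2) (h : p ∣ ff k) :
    p % 5 = 1 ∨ p % 5 = 4 := by
  have : Fact p.Prime := ⟨hp⟩
  have : Fact (Nat.Prime 5) := ⟨by norm_num⟩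
  have h1 : ((ff k : ℕ) : ZMod p) = 0 := (ZMod.natCast_eq_zero_iff _ _).2 h
  have h3 : IsSquare (((5 : ℕ) : ℕ) : ZMod p) := by
    refine ⟨2 * (k : ZMod p) + 3, ?_⟩
    unfold ff at h1
    push_cast at h1 ⊢
    linear_combination (-4) * h1
  have h4 : IsSquare ((p : ℕ) : ZMod 5) :=
    (ZMod.exists_sq_eq_prime_iff_of_mod_four_eq_one (p := 5) (q := p) (by norm_num) h2).2 h3
  have h7 : p % 5 ≠ 0 := by
    intro h7
    rcases (Nat.Prime.eq_one_or_self_of_dvd hp 5 (Nat.dvd_of_mod_eq_zero h7)) with h8 | h8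
    · omega
    · exact h5 h8.symm
  have key : ∀ a : ℕ, ((p : ℕ) : ZMod 5) = ((a : ℕ) : ZMod 5) → p % 5 = a % 5 := by
    intro a ha
    exact (ZMod.natCast_eq_natCast_iff' p a 5).1 ha
  rcases MulM_sq5 _ h4 with h8 | h8 | h8
  · have := key 0 (by simpa using h8)
    omega
  · have := key 1 (by simpa using h8)
    omega
  · have := key 4 (by simpa using h8)
    omega

/-- the quotient of `G` and `g` at the part of `n` with prime factors at most `Y` -/
private noncomputable def MulM_F (g G : ℕ → ℂ) (Y n : ℕ) : ℂ :=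
  ∏ l ∈ (range (Y + 1)).filter Nat.Prime, G (l ^ n.factorization l) / g (l ^ n.factorization l)

private theorem MulM_F_le {g G : ℕ → ℂ} (hg1 : ∀ n : ℕ, 0 < n → ‖g n‖ = 1)
    (hG1 : ∀ n : ℕ, 0 < n → ‖G n‖ ≤ 1) (Y n : ℕ) : ‖MulM_F g G Y n‖ ≤ 1 := by
  unfold MulM_F
  rw [norm_prod]
  refine Finset.prod_le_one (fun l _ => norm_nonneg _) fun l hl => ?_
  have h1 : 0 < l ^ n.factorization l := pow_pos (mem_filter.1 hl).2.pos _
  rw [norm_div, hg1 _ h1, div_one]
  exact hG1 _ h1

private theorem MulM_fac {f : ℕ → ℂ} (hf : ∀ a b : ℕ, 0 < a → 0 < b → a.Coprime b → f (a * b) = f a * f b)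
    (h1 : f 1 = 1) {n : ℕ} (hn : 0 < n) : f n = ∏ p ∈ n.primeFactors, f (p ^ n.factorization p) := by
  have h2 := Nat.multiplicative_factorization f (fun x y hxy => by
    rcases Nat.eq_zero_or_pos x with hx | hx
    · subst hx
      have hy : y = 1 := by simpa using hxy
      subst hy
      rw [h1, mul_one, mul_one]
    rcases Nat.eq_zero_or_pos y with hy | hy
    · subst hy
      have hx : x = 1 := by simpa using hxy
      subst hx
      rw [h1, one_mul, one_mul]
    exact hf x y hx hy hxy) h1 hn.ne'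
  rw [h2]
  rfl

private theorem MulM_A {g G : ℕ → ℂ} (hmul : ∀ a b : ℕ, 0 < a → 0 < b → g (a * b) = g a * g b)
    (hg1 : ∀ n : ℕ, 0 < n → ‖g n‖ = 1)
    (hG : ∀ a b : ℕ, 0 < a → 0 < b → a.Coprime b → G (a * b) = G a * G b)
    (hGg : ∀ p : ℕ, p.Prime → p % 5 = 1 ∨ p % 5 = 4 → G p = g p) {Y : ℕ} (hY : 5 ≤ Y) {k : ℕ}
    (hk : ∀ l : ℕ, l.Prime → Y < l → ¬ l ^ 2 ∣ ff k) : G (ff k) = MulM_F g G Y (ff k) * g (ff k) := by
  have hg0 : ∀ n : ℕ, 0 < n → g n ≠ 0 := fun n hn h => by
    have := hg1 n hn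
    rw [h, norm_zero] at this
    exact zero_ne_one this
  have hgo : g 1 = 1 := by
    have h1 := hmul 1 1 one_pos one_pos
    rw [mul_one] at h1
    exact mul_left_cancel₀ (hg0 1 one_pos) (by rw [mul_one]; exact h1.symm)
  have hGo : G 1 = 1 := by
    have h1 := hG 1 11 one_pos (by norm_num) (Nat.coprime_one_left 11)
    rw [one_mul, hGg 11 (by norm_num) (by norm_num)] at h1
    exact mul_right_cancel₀ (hg0 11 (by norm_num)) (by rw [one_mul]; exact h1.symm)
  have hn : 0 < ff k := by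
    unfold ff
    omega
  have e1 := MulM_fac hG hGo hn
  have e2 := MulM_fac (fun a b ha hb _ => hmul a b ha hb) hgo hn
  obtain ⟨q, hq⟩ : ∃ q : ℕ → ℂ, ∀ p, q p = G (p ^ (ff k).factorization p) / g (p ^ (ff k).factorization p) :=
    ⟨_, fun _ => rfl⟩
  have e3 : G (ff k) = (∏ p ∈ (ff k).primeFactors, q p) * g (ff k) := by
    rw [e1, e2, ← prod_mul_distrib]
    refine prod_congr rfl fun p hp => ?_
    rw [hq, div_mul_cancel₀ _ (hg0 _ (pow_pos (Nat.prime_of_mem_primeFactors hp).pos _))]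
  have e4 : ∏ p ∈ (ff k).primeFactors, q p = ∏ p ∈ (ff k).primeFactors ∪ (range (Y + 1)).filter Nat.Prime, q p := by
    refine prod_subset subset_union_left fun p hp hp' => ?_
    have h1 : p.Prime := by
      rcases mem_union.1 hp with h | h
      · exact Nat.prime_of_mem_primeFactors h
      · exact (mem_filter.1 h).2
    have h2 : (ff k).factorization p = 0 := by
      apply Nat.factorization_eq_zero_of_not_dvd
      intro h
      exact hp' (Nat.mem_primeFactors.2 ⟨h1, h, hn.ne'⟩)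
    rw [hq, h2, pow_zero, hGo, hgo, div_one]
  have e5 : ∏ p ∈ (range (Y + 1)).filter Nat.Prime, q p = ∏ p ∈ (ff k).primeFactors ∪ (range (Y + 1)).filter Nat.Prime, q p := by
    refine prod_subset subset_union_right fun p hp hp' => ?_
    have h0 : p ∈ (ff k).primeFactors := (mem_union.1 hp).resolve_right hp'
    have h1 : p.Prime := Nat.prime_of_mem_primeFactors h0
    have h2 : Y < p := by
      by_contra h2
      exact hp' (mem_filter.2 ⟨mem_range.2 (by omega), h1⟩)
    have h3 : p ∣ ff k := Nat.dvd_of_mem_primeFactors h0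
    have h4 : (ff k).factorization p = 1 := by
      have h5 : 1 ≤ (ff k).factorization p := (h1.dvd_iff_one_le_factorization hn.ne').1 h3
      have h6 : ¬ 2 ≤ (ff k).factorization p := fun h6 =>
        hk p h1 h2 ((h1.pow_dvd_iff_le_factorization hn.ne').2 h6)
      omega
    rw [hq, h4, pow_one, hGg p h1 (MulM_sq h1 (by omega) (by omega) h3), div_self (hg0 p h1.pos)]
  rw [e3, e4, ← e5]
  unfold MulM_F
  congr 1
  exact prod_congr rfl fun p _ => hq p

private theorem MulM_B (g G : ℕ → ℂ) {Y m D a b : ℕ} (hab : a ≡ b [MOD D * Y.factorial ^ m]) (ha : 0 < a)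
    (hl : ∀ l : ℕ, l.Prime → l ≤ Y → ¬ l ^ m ∣ a) : MulM_F g G Y a = MulM_F g G Y b := by
  unfold MulM_F
  refine prod_congr rfl fun l hlm => ?_
  rw [mem_filter, mem_range] at hlm
  obtain ⟨hlY, hp⟩ := hlm
  have h1 : l ∣ Y.factorial := (Nat.Prime.dvd_factorial hp).2 (by omega)
  have h2 : l ^ m ∣ D * Y.factorial ^ m := Dvd.dvd.mul_left (pow_dvd_pow_of_dvd h1 m) D
  have h3 : ∀ j, j ≤ m → (l ^ j ∣ a ↔ l ^ j ∣ b) := fun j hj =>
    hab.dvd_iff ((pow_dvd_pow l hj).trans h2)
  have h4 : ¬ l ^ m ∣ a := hl l hp (by omega)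
  have h5 : ¬ l ^ m ∣ b := fun h => h4 ((h3 m le_rfl).2 h)
  have hb : b ≠ 0 := by
    rintro rfl
    exact h5 (dvd_zero _)
  have h6 : a.factorization l < m := by
    by_contra h
    exact h4 ((hp.pow_dvd_iff_le_factorization ha.ne').2 (not_lt.1 h))
  have h7 : b.factorization l < m := by
    by_contra h
    exact h5 ((hp.pow_dvd_iff_le_factorization hb).2 (not_lt.1 h))
  have h8 : a.factorization l = b.factorization l := by
    apply le_antisymm
    · exact (hp.pow_dvd_iff_le_factorization hb).1 ((h3 _ h6.le).1 ((hp.pow_dvd_iff_le_factorization ha.ne').2 le_rfl))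
    · exact (hp.pow_dvd_iff_le_factorization ha.ne').1 ((h3 _ h7.le).2 ((hp.pow_dvd_iff_le_factorization hb).2 le_rfl))
  rw [h8]

open Classical in
/-- `G` is multiplicative, bounded, and equal to `g` at the primes which divide the values of `f` -/
theorem dec_sum {g G : ℕ → ℂ} (hmul : ∀ a b : ℕ, 0 < a → 0 < b → g (a * b) = g a * g b)
    (hg1 : ∀ n : ℕ, 0 < n → ‖g n‖ = 1)
    (hG : ∀ a b : ℕ, 0 < a → 0 < b → a.Coprime b → G (a * b) = G a * G b) (hG1 : ∀ n : ℕ, 0 < n → ‖G n‖ ≤ 1)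
    (hGg : ∀ p : ℕ, p.Prime → p % 5 = 1 ∨ p % 5 = 4 → G p = g p) {Y m D : ℕ} (hY : 5 ≤ Y) (hm : 0 < m) (hD : 0 < D) (r : ℕ)
    (S : Finset ℕ) (w : ℕ → ℝ) (hw : ∀ k ∈ S, 0 ≤ w k) :
    ‖∑ k ∈ S.filter (fun k => ff k ≡ r [MOD D]), (w k : ℂ) * G (ff k)‖ ≤
      ∑ r' ∈ range (D * Y.factorial ^ m),
        ‖∑ k ∈ S.filter (fun k => ff k ≡ r' [MOD D * Y.factorial ^ m]), (w k : ℂ) * g (ff k)‖ +
      2 * (∑ k ∈ S.filter (fun k => ∃ l : ℕ, l.Prime ∧ Y < l ∧ l ^ 2 ∣ ff k), w k +
        ∑ l ∈ (range (Y + 1)).filter Nat.Prime, ∑ k ∈ S.filter (fun k => l ^ m ∣ ff k), w k) := by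
  have hE : 0 < D * Y.factorial ^ m := Nat.mul_pos hD (pow_pos (Nat.factorial_pos Y) m)
  obtain ⟨E, hEd⟩ : ∃ E, E = D * Y.factorial ^ m := ⟨_, rfl⟩
  have hF1 := MulM_F_le hg1 hG1 Y
  have hff : ∀ k, 0 < ff k := fun k => by
    unfold ff
    omega
  rw [← hEd]
  rw [← hEd] at hE
  have hdec : ∑ k ∈ S.filter (fun k => ff k ≡ r [MOD D]), (w k : ℂ) * G (ff k) =
      ∑ k ∈ S.filter (fun k => ff k ≡ r [MOD D]), (w k : ℂ) * (MulM_F g G Y (ff k % E) * g (ff k)) +
      ∑ k ∈ S.filter (fun k => ff k ≡ r [MOD D]), (w k : ℂ) * (G (ff k) - MulM_F g G Y (ff k % E) * g (ff k)) := by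
    rw [← sum_add_distrib]
    refine sum_congr rfl fun k _ => ?_
    ring
  rw [hdec]
  refine (norm_add_le _ _).trans (add_le_add ?_ ?_)
  · have hmaps : ∀ k ∈ S.filter (fun k => ff k ≡ r [MOD D]), ff k % E ∈ range E := fun k _ =>
      mem_range.2 (Nat.mod_lt _ hE)
    rw [← sum_fiberwise_of_maps_to hmaps]
    refine (norm_sum_le _ _).trans (sum_le_sum fun r' hr' => ?_)
    rw [mem_range] at hr'
    by_cases hrr : r' ≡ r [MOD D]
    · have h1 : (S.filter (fun k => ff k ≡ r [MOD D])).filter (fun k => ff k % E = r') =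
          S.filter (fun k => ff k ≡ r' [MOD E]) := by
        ext k
        rw [mem_filter, mem_filter, mem_filter]
        constructor
        · rintro ⟨⟨h1, -⟩, h3⟩
          refine ⟨h1, ?_⟩
          rw [← h3]
          exact (Nat.mod_modEq _ _).symm
        · rintro ⟨h1, h2⟩
          refine ⟨⟨h1, ?_⟩, ?_⟩
          · refine Nat.ModEq.trans (h2.of_dvd ?_) hrr
            rw [hEd]
            exact dvd_mul_right _ _
          · have h3 : ff k % E = r' % E := h2
            rw [h3, Nat.mod_eq_of_lt hr']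
      have h2 : ∑ k ∈ (S.filter (fun k => ff k ≡ r [MOD D])).filter (fun k => ff k % E = r'),
          (w k : ℂ) * (MulM_F g G Y (ff k % E) * g (ff k)) =
          MulM_F g G Y r' * ∑ k ∈ S.filter (fun k => ff k ≡ r' [MOD E]), (w k : ℂ) * g (ff k) := by
        rw [← h1, mul_sum]
        refine sum_congr rfl fun k hk => ?_
        rw [(mem_filter.1 hk).2]
        ring
      rw [h2, norm_mul]
      exact mul_le_of_le_one_left (norm_nonneg _) (hF1 r')
    · have h1 : (S.filter (fun k => ff k ≡ r [MOD D])).filter (fun k => ff k % E = r') = ∅ := by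
        refine filter_eq_empty_iff.2 fun k hk h3 => ?_
        apply hrr
        have h4 : ff k ≡ r' [MOD E] := by
          rw [← h3]
          exact (Nat.mod_modEq _ _).symm
        have h5 : ff k ≡ r' [MOD D] := h4.of_dvd (by rw [hEd]; exact dvd_mul_right _ _)
        exact h5.symm.trans (mem_filter.1 hk).2
      rw [h1, sum_empty, norm_zero]
      exact norm_nonneg _
  · have hpt : ∀ k ∈ S, ‖(w k : ℂ) * (G (ff k) - MulM_F g G Y (ff k % E) * g (ff k))‖ ≤
        2 * ((if ∃ l : ℕ, l.Prime ∧ Y < l ∧ l ^ 2 ∣ ff k then w k else 0) +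
          ∑ l ∈ (range (Y + 1)).filter Nat.Prime, if l ^ m ∣ ff k then w k else 0) := by
      intro k hk
      have hwk := hw k hk
      have hsum0 : 0 ≤ ∑ l ∈ (range (Y + 1)).filter Nat.Prime, if l ^ m ∣ ff k then w k else 0 := by
        refine sum_nonneg fun l _ => ?_
        split_ifs
        · exact hwk
        · exact le_rfl
      have htwo : ‖(w k : ℂ) * (G (ff k) - MulM_F g G Y (ff k % E) * g (ff k))‖ ≤ 2 * w k := by
        rw [norm_mul, Complex.norm_real, Real.norm_of_nonneg hwk, mul_comm]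
        refine mul_le_mul_of_nonneg_right ?_ hwk
        refine (norm_sub_le _ _).trans ?_
        rw [norm_mul, hg1 _ (hff k), mul_one]
        linarith [hG1 _ (hff k), hF1 (ff k % E)]
      by_cases h1 : ∃ l : ℕ, l.Prime ∧ Y < l ∧ l ^ 2 ∣ ff k
      · rw [if_pos h1]
        linarith
      · rw [if_neg h1, zero_add]
        by_cases h2 : ∃ l ∈ (range (Y + 1)).filter Nat.Prime, l ^ m ∣ ff k
        · obtain ⟨l, hl, hlm⟩ := h2
          have h3 : w k ≤ ∑ l ∈ (range (Y + 1)).filter Nat.Prime, if l ^ m ∣ ff k then w k else 0 := by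
            refine le_trans ?_ (single_le_sum (f := fun l => if l ^ m ∣ ff k then w k else 0) (fun i _ => ?_) hl)
            · show w k ≤ if l ^ m ∣ ff k then w k else 0
              rw [if_pos hlm]
            · show 0 ≤ if i ^ m ∣ ff k then w k else 0
              split_ifs
              · exact hwk
              · exact le_rfl
          linarith
        · push Not at h1 h2
          have h3 := MulM_A hmul hg1 hG hGg hY (k := k) (fun l hl hYl hd => h1 l hl hYl hd)
          have h4 : MulM_F g G Y (ff k) = MulM_F g G Y (ff k % E) := by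
            refine MulM_B g G (D := D) (m := m) ?_ (hff k) fun l hl hlY => ?_
            · rw [← hEd]
              exact (Nat.mod_modEq _ _).symm
            · exact h2 l (mem_filter.2 ⟨mem_range.2 (by omega), hl⟩)
          rw [← h4, ← h3, sub_self, mul_zero, norm_zero]
          linarith
    refine (norm_sum_le _ _).trans ?_
    have h5 : ∑ k ∈ S.filter (fun k => ff k ≡ r [MOD D]), ‖(w k : ℂ) * (G (ff k) - MulM_F g G Y (ff k % E) * g (ff k))‖ ≤
        ∑ k ∈ S, ‖(w k : ℂ) * (G (ff k) - MulM_F g G Y (ff k % E) * g (ff k))‖ :=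
      sum_le_sum_of_subset_of_nonneg (filter_subset _ _) fun _ _ _ => norm_nonneg _
    refine (h5.trans (sum_le_sum hpt)).trans (le_of_eq ?_)
    rw [← mul_sum, sum_add_distrib, sum_filter, sum_comm]
    congr 2
    refine sum_congr rfl fun l _ => ?_
    rw [sum_filter]

end Pool.Agent.Lib.MP_d57abb_nt.GV
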