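import Mathlib

/-!
# The values of `k ^ 2 + 3 k + 1` which are a given number times a square

With `Z = 2 k + 3` the equation is `Z ^ 2 - 4 e l ^ 2 = 5`. Of two different solutions with the same ratio `Z / l` modulo `5` the larger
`Z` is at least three times the smaller one.
-/

namespace Pool.Agent.Lib.MP_d57abb_nt.GV

open Finset

private theorem Pell_l {Z e l : ℤ} (h : Z ^ 2 - 4 * e * l ^ 2 = 5) : ¬ (5 : ℤ) ∣ l := by
  rintro ⟨a, ha⟩
  have h1 : (5 : ℤ) ∣ Z ^ 2 := ⟨1 + 20 * e * a ^ 2, by rw [ha] at h; linarith⟩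
  have h2 : (5 : ℤ) ∣ Z := Int.Prime.dvd_pow' (by norm_num) h1
  obtain ⟨b, hb⟩ := h2
  rw [ha, hb] at h
  have h3 : 5 * (b ^ 2 - 4 * e * a ^ 2) = 1 := by linarith
  omega

private theorem Pell_step {e Z l Z' l' : ℤ} (he : 1 ≤ e) (hZ : 0 < Z) (hl : 0 ≤ l) (hl' : 0 ≤ l')
    (h : Z ^ 2 - 4 * e * l ^ 2 = 5) (h' : Z' ^ 2 - 4 * e * l' ^ 2 = 5) (hc : (5 : ℤ) ∣ l' * Z - l * Z') (hlt : Z < Z') :
    2 * Z ≤ Z' := by
  have hZ' : 0 < Z' := hZ.trans hlt
  obtain ⟨V, hV⟩ := hc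
  have h1 : (5 : ℤ) ∣ (Z * Z' - 4 * e * l * l') * l :=
    ⟨-(Z * V) + l', by linear_combination (-Z) * hV + l' * h⟩
  have h2 : (5 : ℤ) ∣ Z * Z' - 4 * e * l * l' := by
    rcases Int.Prime.dvd_mul' (p := 5) (by norm_num) h1 with h3 | h3
    · exact h3
    · exact absurd h3 (Pell_l h)
  obtain ⟨U, hU⟩ := h2
  have hUV : U ^ 2 - 4 * e * V ^ 2 = 1 := by
    have h3 : 25 * (U ^ 2 - 4 * e * V ^ 2) = 25 := by
      have h4 : 25 * (U ^ 2 - 4 * e * V ^ 2) = (5 * U) ^ 2 - 4 * e * (5 * V) ^ 2 := by ring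
      rw [h4, ← hU, ← hV]
      linear_combination (Z' ^ 2 - 4 * e * l' ^ 2) * h + 5 * h'
    linarith
  have hll : l < l' := by
    by_contra hcon
    push Not at hcon
    have h3 : l' ^ 2 ≤ l ^ 2 := pow_le_pow_left₀ hl' hcon 2
    have h4 : 4 * e * l' ^ 2 ≤ 4 * e * l ^ 2 := mul_le_mul_of_nonneg_left h3 (by linarith)
    have h5 : Z ^ 2 < Z' ^ 2 := pow_lt_pow_left₀ hlt hZ.le (by norm_num)
    linarith
  have hVp : 0 < V := by
    have h3 : 0 < (l' * Z) ^ 2 - (l * Z') ^ 2 := by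
      have h4 : (l' * Z) ^ 2 - (l * Z') ^ 2 = 5 * (l' ^ 2 - l ^ 2) := by linear_combination l' ^ 2 * h - l ^ 2 * h'
      rw [h4]
      have h5 : l ^ 2 < l' ^ 2 := pow_lt_pow_left₀ hll hl (by norm_num)
      linarith
    have h4 : l * Z' < l' * Z := lt_of_pow_lt_pow_left₀ 2 (mul_nonneg hl' hZ.le) (by linarith)
    linarith
  have hZe : Z' = Z * U + 4 * e * l * V := by
    have h3 : 5 * Z' = 5 * (Z * U + 4 * e * l * V) := by
      have h4 : 5 * (Z * U + 4 * e * l * V) = Z * (5 * U) + 4 * e * l * (5 * V) := by ring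
      rw [h4, ← hU, ← hV]
      linear_combination (-Z') * h
    linarith
  have hU0 : 0 < U := by
    by_contra hcon
    push Not at hcon
    have h3 : Z * Z' ≤ 4 * e * l * l' := by linarith
    have h4 : (Z * Z') ^ 2 ≤ (4 * e * l * l') ^ 2 := pow_le_pow_left₀ (mul_pos hZ hZ').le h3 2
    have h5 : (Z * Z') ^ 2 - (4 * e * l * l') ^ 2 = 5 * (4 * e * l ^ 2) + 5 * Z' ^ 2 := by
      linear_combination (Z' ^ 2) * h + (4 * e * l ^ 2) * h'
    have h6 : 0 ≤ 4 * e * l ^ 2 := mul_nonneg (by linarith) (sq_nonneg l)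
    have h7 : 0 < Z' ^ 2 := by positivity
    linarith
  have hU3 : 3 ≤ U := by
    by_contra hcon
    push Not at hcon
    have h3 : U ^ 2 ≤ 2 ^ 2 := pow_le_pow_left₀ hU0.le (by omega) 2
    have h4 : 1 ≤ V ^ 2 := by nlinarith
    have h5 : 4 * e * 1 ≤ 4 * e * V ^ 2 := mul_le_mul_of_nonneg_left h4 (by linarith)
    linarith
  have h3 : 0 ≤ 4 * e * l * V := mul_nonneg (mul_nonneg (by linarith) hl) hVp.le
  have h4 : Z * 3 ≤ Z * U := mul_le_mul_of_nonneg_left hU3 hZ.le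
  linarith

open Classical in
theorem pell_card : ∃ C : ℝ, 0 < C ∧ ∀ e X : ℕ, 1 ≤ e → 2 ≤ X →
    (((Icc 1 X).filter (fun k => ∃ l : ℕ, k ^ 2 + 3 * k + 1 = e * l ^ 2)).card : ℝ) ≤ C * Real.log X := by
  refine ⟨50, by norm_num, fun e X he hX => ?_⟩
  have : Fact (Nat.Prime 5) := ⟨by norm_num⟩
  obtain ⟨S, hS⟩ : ∃ S : Finset ℕ, S = (Icc 1 X).filter (fun k => ∃ l : ℕ, k ^ 2 + 3 * k + 1 = e * l ^ 2) := ⟨_, rfl⟩
  have hex : ∀ k ∈ S, ∃ l : ℕ, k ^ 2 + 3 * k + 1 = e * l ^ 2 := by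
    intro k hk
    rw [hS] at hk
    exact (mem_filter.1 hk).2
  choose! l hl using hex
  have heq : ∀ k ∈ S, ((2 * k + 3 : ℕ) : ℤ) ^ 2 - 4 * (e : ℤ) * (l k : ℤ) ^ 2 = 5 := by
    intro k hk
    have h1 : ((k : ℤ)) ^ 2 + 3 * k + 1 = e * (l k : ℤ) ^ 2 := by exact_mod_cast hl k hk
    push_cast
    linear_combination 4 * h1
  have hcard : S.card ≤ ((univ : Finset (ZMod 5)) ×ˢ range (Nat.log 2 (2 * X + 3) + 1)).card := by
    refine Finset.card_le_card_of_injOn (fun k => (((2 * k + 3 : ℕ) : ZMod 5) * ((l k : ℕ) : ZMod 5)⁻¹, Nat.log 2 (2 * k + 3))) ?_ ?_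
    · intro k hk
      have hk' := mem_coe.1 hk
      rw [hS] at hk'
      have h1 := (mem_Icc.1 (mem_filter.1 hk').1).2
      have h2 : Nat.log 2 (2 * k + 3) ≤ Nat.log 2 (2 * X + 3) := Nat.log_mono_right (by omega)
      exact mem_coe.2 (mem_product.2 ⟨mem_univ _, mem_range.2 (Nat.lt_succ_of_le h2)⟩)
    · have key : ∀ k ∈ S, ∀ k' ∈ S, k < k' → ((2 * k + 3 : ℕ) : ZMod 5) * ((l k : ℕ) : ZMod 5)⁻¹ =
          ((2 * k' + 3 : ℕ) : ZMod 5) * ((l k' : ℕ) : ZMod 5)⁻¹ → Nat.log 2 (2 * k + 3) ≠ Nat.log 2 (2 * k' + 3) := by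
        intro k hk k' hk' hlt hc
        have e1 := heq k hk
        have e2 := heq k' hk'
        have n1 : ((l k : ℕ) : ZMod 5) ≠ 0 := by
          intro h0
          rw [ZMod.natCast_eq_zero_iff] at h0
          exact Pell_l e1 (by exact_mod_cast h0)
        have n2 : ((l k' : ℕ) : ZMod 5) ≠ 0 := by
          intro h0
          rw [ZMod.natCast_eq_zero_iff] at h0
          exact Pell_l e2 (by exact_mod_cast h0)
        have h1 : (((l k' : ℤ) * ((2 * k + 3 : ℕ) : ℤ) - (l k : ℤ) * ((2 * k' + 3 : ℕ) : ℤ) : ℤ) : ZMod 5) = 0 := by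
          have h2 : ((l k' : ℕ) : ZMod 5) * ((2 * k + 3 : ℕ) : ZMod 5) = ((l k : ℕ) : ZMod 5) * ((2 * k' + 3 : ℕ) : ZMod 5) := by
            have h3 := congrArg (fun z => z * ((l k : ℕ) : ZMod 5) * ((l k' : ℕ) : ZMod 5)) hc
            have h4 : ((2 * k + 3 : ℕ) : ZMod 5) * ((l k : ℕ) : ZMod 5)⁻¹ * ((l k : ℕ) : ZMod 5) * ((l k' : ℕ) : ZMod 5) =
                ((l k' : ℕ) : ZMod 5) * ((2 * k + 3 : ℕ) : ZMod 5) := by
              rw [inv_mul_cancel_right₀ n1, mul_comm]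
            have h5 : ((2 * k' + 3 : ℕ) : ZMod 5) * ((l k' : ℕ) : ZMod 5)⁻¹ * ((l k : ℕ) : ZMod 5) * ((l k' : ℕ) : ZMod 5) =
                ((l k : ℕ) : ZMod 5) * ((2 * k' + 3 : ℕ) : ZMod 5) := by
              rw [mul_right_comm, inv_mul_cancel_right₀ n2, mul_comm]
            rw [h4, h5] at h3
            exact h3
          push_cast at h2 ⊢
          linear_combination h2
        have h2 : (5 : ℤ) ∣ (l k' : ℤ) * ((2 * k + 3 : ℕ) : ℤ) - (l k : ℤ) * ((2 * k' + 3 : ℕ) : ℤ) :=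
          (ZMod.intCast_zmod_eq_zero_iff_dvd _ 5).1 h1
        have h3 := Pell_step (by exact_mod_cast he) (by positivity) (Int.natCast_nonneg _) (Int.natCast_nonneg _) e1 e2 h2
          (by exact_mod_cast (by omega : 2 * k + 3 < 2 * k' + 3))
        have h4 : (2 * k + 3) * 2 ≤ 2 * k' + 3 := by
          have h5 : 2 * (2 * k + 3) ≤ 2 * k' + 3 := by exact_mod_cast h3
          omega
        have h5 := Nat.log_mono_right (b := 2) h4
        rw [Nat.log_mul_base (by norm_num) (by omega)] at h5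
        omega
      intro k hk k' hk' he
      have a1 := mem_coe.1 hk
      have a2 := mem_coe.1 hk'
      have b1 := congrArg Prod.fst he
      have b2 := congrArg Prod.snd he
      simp only at b1 b2
      rcases Nat.lt_trichotomy k k' with h | h | h
      · exact absurd b2 (key k a1 k' a2 h b1)
      · exact h
      · exact absurd b2.symm (key k' a2 k a1 h b1.symm)
  rw [card_product, card_univ, ZMod.card, card_range] at hcard
  rw [← hS]
  have hX1 : (2 : ℝ) ≤ X := by exact_mod_cast hX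
  have hl2 : 0.6931471803 < Real.log 2 := Real.log_two_gt_d9
  have hlX : Real.log 2 ≤ Real.log X := Real.log_le_log (by norm_num) hX1
  have h1 : ((Nat.log 2 (2 * X + 3) : ℕ) : ℝ) * Real.log 2 ≤ Real.log (4 * X) := by
    have h2 : 2 ^ Nat.log 2 (2 * X + 3) ≤ 2 * X + 3 := Nat.pow_log_le_self 2 (by omega)
    have h3 : ((2 : ℝ)) ^ Nat.log 2 (2 * X + 3) ≤ 4 * X := by
      have h4 : ((2 ^ Nat.log 2 (2 * X + 3) : ℕ) : ℝ) ≤ ((2 * X + 3 : ℕ) : ℝ) := by exact_mod_cast h2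
      push_cast at h4
      linarith
    rw [← Real.log_pow]
    exact Real.log_le_log (by positivity) h3
  have h2 : Real.log (4 * X) = 2 * Real.log 2 + Real.log X := by
    rw [Real.log_mul (by norm_num) (by positivity)]
    have h3 : Real.log 4 = 2 * Real.log 2 := by
      have h4 : (4 : ℝ) = 2 ^ 2 := by norm_num
      rw [h4, Real.log_pow]
      push_cast
      rfl
    rw [h3]
  have h3 : (S.card : ℝ) ≤ 5 * (((Nat.log 2 (2 * X + 3) : ℕ) : ℝ) + 1) := by exact_mod_cast hcard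
  refine h3.trans ?_
  obtain ⟨t, ht⟩ : ∃ t : ℝ, t = ((Nat.log 2 (2 * X + 3) : ℕ) : ℝ) := ⟨_, rfl⟩
  rw [← ht] at h1 ⊢
  have h4 : t * 0.6931 ≤ 3 * Real.log X := by
    have h5 : 0 ≤ t := by rw [ht]; positivity
    have h6 : t * 0.6931 ≤ t * Real.log 2 := mul_le_mul_of_nonneg_left (by linarith) h5
    linarith
  linarith

end Pool.Agent.Lib.MP_d57abb_nt.GV
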