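import Pool.Agent.Lib.MP_d57abb_nt.GV.KlU
import Pool.Agent.Lib.MP_d57abb_nt.GA.TS.Big
import Pool.Agent.Lib.MP_d57abb_nt.GT.Defs

/-!
# Frames whose two norms are divisible by the same prime
-/

namespace Pool.Agent.Lib.MP_d57abb_nt.GV

open Finset Pool.Agent.Lib.MP_d57abb_nt Pool.Agent.Lib.MP_d57abb_nt.GA.TA

/-- the conditions for given `n` -/
private def PrSq_C (l n : ℤ) (z : ℤ × ℤ) : Prop :=
  n ∣ z.1 * z.2 + 1 ∧ l ∣ n ^ 2 + 3 * n * z.2 + z.2 ^ 2 ∧ l ∣ z.1 * (3 * n + 2 * z.2) + 1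

private theorem PrSq_cls {C : ℕ} (hL : ∀ n m : ℕ, 0 < n → 0 < m → n.Coprime m → C * m ^ 73 ≤ n →
    ∀ a j0 y0 : ℤ, (((Ioc a (a + n) ×ˢ Ico (0 : ℤ) n).filter (fun x => (n : ℤ) ∣ x.1 * x.2 + 1 ∧
      (m : ℤ) ∣ x.1 - j0 ∧ (m : ℤ) ∣ x.2 - y0)).card : ℝ) ≤ 100 * n / (m : ℝ) ^ 2)
    {Q l n : ℕ} (hQ : 1 ≤ Q) (hl : l.Prime) (hn : 0 < n) (hnQ : n ≤ Q) (hco : n.Coprime l)
    (hCn : C * l ^ 73 ≤ n) (x0 : ℤ) (S : Finset (ℤ × ℤ))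
    (hS : ∀ z ∈ S, z ∈ Icc (-(Q : ℤ)) Q ×ˢ Ico (0 : ℤ) n ∧ PrSq_C l n z ∧ (l : ℤ) ∣ z.2 - x0) :
    (S.card : ℝ) ≤ 400 * Q / (l : ℝ) ^ 2 := by
  classical
  have hlp : Prime (l : ℤ) := Nat.prime_iff_prime_int.1 hl
  have hl0 : (0 : ℝ) < (l : ℝ) ^ 2 := by
    have : (0 : ℝ) < l := by exact_mod_cast hl.pos
    positivity
  rcases S.eq_empty_or_nonempty with he | ⟨z1, hz1⟩
  · rw [he, card_empty, Nat.cast_zero]
    positivity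
  obtain ⟨hz1a, hz1b, hz1c⟩ := hS z1 hz1
  have hcl : ∀ z ∈ S, (l : ℤ) ∣ z.1 - z1.1 := by
    intro z hz
    obtain ⟨_, hzb, hzc⟩ := hS z hz
    have h1 : (l : ℤ) ∣ (z.1 - z1.1) * (3 * n + 2 * z.2) := by
      have h2 : (z.1 - z1.1) * (3 * n + 2 * z.2) = (z.1 * (3 * n + 2 * z.2) + 1) -
          (z1.1 * (3 * n + 2 * z1.2) + 1) - 2 * z1.1 * ((z.2 - x0) - (z1.2 - x0)) := by ring
      rw [h2]
      exact dvd_sub (dvd_sub hzb.2.2 hz1b.2.2) (Dvd.dvd.mul_left (dvd_sub hzc hz1c) _)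
    rcases hlp.dvd_or_dvd h1 with h | h
    · exact h
    · exfalso
      have h3 : (l : ℤ) ∣ 1 := by
        have h4 := dvd_sub hzb.2.2 (Dvd.dvd.mul_left h z.1)
        rwa [add_sub_cancel_left] at h4
      exact hlp.not_isUnit (isUnit_of_dvd_one h3)
  let K : ℕ := (2 * Q + 1) / n + 1
  have hK1 : 2 * Q + 1 < K * n := by
    have h1 := Nat.div_add_mod (2 * Q + 1) n
    have h2 := Nat.mod_lt (2 * Q + 1) hn
    have h3 : K * n = n * ((2 * Q + 1) / n) + n := by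
      show ((2 * Q + 1) / n + 1) * n = _
      ring
    omega
  have hK2 : K * n ≤ 4 * Q := by
    rcases Nat.lt_or_ge Q 2 with h | h
    · have hQ1 : Q = 1 := by omega
      have hn1 : n = 1 := by omega
      subst hQ1
      subst hn1
      show ((2 * 1 + 1) / 1 + 1) * 1 ≤ 4 * 1
      norm_num
    · have h1 := Nat.div_mul_le_self (2 * Q + 1) n
      have h3 : K * n = (2 * Q + 1) / n * n + n := by
        show ((2 * Q + 1) / n + 1) * n = _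
        ring
      omega
  have hsub : S ⊆ (range K).biUnion fun i => (Ioc (-(Q : ℤ) - 1 + i * n) (-(Q : ℤ) - 1 + i * n + n) ×ˢ
      Ico (0 : ℤ) n).filter (fun x => (n : ℤ) ∣ x.1 * x.2 + 1 ∧ (l : ℤ) ∣ x.1 - z1.1 ∧ (l : ℤ) ∣ x.2 - x0) := by
    intro z hz
    obtain ⟨hza, hzb, hzc⟩ := hS z hz
    rw [mem_product, mem_Icc, mem_Ico] at hza
    have hn' : (0 : ℤ) < n := by exact_mod_cast hn
    -- the index of the window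
    let t : ℤ := (z.1 + Q) / n
    have ht1 := Int.mul_ediv_add_emod (z.1 + Q) n
    have ht2 := Int.emod_nonneg (z.1 + Q) hn'.ne'
    have ht3 := Int.emod_lt_of_pos (z.1 + Q) hn'
    have ht0 : 0 ≤ t := Int.ediv_nonneg (by omega) hn'.le
    have htn : (n : ℤ) * t = z.1 + Q - (z.1 + Q) % n := by
      show (n : ℤ) * ((z.1 + Q) / n) = _
      omega
    have htK : t < K := by
      by_contra h
      push Not at h
      have h1 : (K : ℤ) * n ≤ t * n := mul_le_mul_of_nonneg_right h hn'.le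
      have h2 : (2 * Q + 1 : ℤ) < K * n := by exact_mod_cast hK1
      have h3 : t * n = n * t := mul_comm _ _
      omega
    rw [mem_biUnion]
    refine ⟨t.toNat, mem_range.2 (by omega), ?_⟩
    rw [mem_filter, mem_product, mem_Ioc, mem_Ico]
    have h4 : ((t.toNat : ℕ) : ℤ) = t := Int.toNat_of_nonneg ht0
    rw [h4]
    have h5 : t * n = n * t := mul_comm _ _
    refine ⟨⟨⟨?_, ?_⟩, hza.2⟩, hzb.1, hcl z hz, hzc⟩
    · omega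
    · omega
  have h1 : (S.card : ℝ) ≤ ∑ i ∈ range K, (100 * n / (l : ℝ) ^ 2) := by
    have h2 := (card_le_card hsub).trans card_biUnion_le
    have h3 : (S.card : ℝ) ≤ ∑ i ∈ range K, (((Ioc (-(Q : ℤ) - 1 + i * n) (-(Q : ℤ) - 1 + i * n + n) ×ˢ
      Ico (0 : ℤ) n).filter (fun x => (n : ℤ) ∣ x.1 * x.2 + 1 ∧ (l : ℤ) ∣ x.1 - z1.1 ∧ (l : ℤ) ∣ x.2 - x0)).card : ℝ) := by
      exact_mod_cast h2
    refine h3.trans (sum_le_sum fun i _ => ?_)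
    exact hL n l hn hl.pos hco hCn _ _ _
  rw [sum_const, card_range, nsmul_eq_mul] at h1
  refine h1.trans ?_
  have h4 : (K : ℝ) * n ≤ 4 * Q := by exact_mod_cast hK2
  rw [mul_div_assoc', div_le_div_iff_of_pos_right hl0]
  nlinarith

open Classical in
private theorem PrSq_n {C : ℕ} (hL : ∀ n m : ℕ, 0 < n → 0 < m → n.Coprime m → C * m ^ 73 ≤ n →
    ∀ a j0 y0 : ℤ, (((Ioc a (a + n) ×ˢ Ico (0 : ℤ) n).filter (fun x => (n : ℤ) ∣ x.1 * x.2 + 1 ∧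
      (m : ℤ) ∣ x.1 - j0 ∧ (m : ℤ) ∣ x.2 - y0)).card : ℝ) ≤ 100 * n / (m : ℝ) ^ 2)
    {Q l n : ℕ} (hQ : 1 ≤ Q) (hl : l.Prime) (hn : 0 < n) (hnQ : n ≤ Q) (hCn : C * l ^ 73 ≤ n) :
    (((Icc (-(Q : ℤ)) Q ×ˢ Ico (0 : ℤ) n).filter (PrSq_C l n)).card : ℝ) ≤ 800 * Q / (l : ℝ) ^ 2 := by
  have hlp : Prime (l : ℤ) := Nat.prime_iff_prime_int.1 hl
  have hl0 : (0 : ℝ) < (l : ℝ) ^ 2 := by
    have : (0 : ℝ) < l := by exact_mod_cast hl.pos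
    positivity
  rcases ((Icc (-(Q : ℤ)) Q ×ˢ Ico (0 : ℤ) n).filter (PrSq_C l n)).eq_empty_or_nonempty with he | ⟨z1, hz1⟩
  · rw [he, card_empty, Nat.cast_zero]
    positivity
  obtain ⟨hz1a, hz1b⟩ := mem_filter.1 hz1
  have hco : n.Coprime l := by
    rw [Nat.coprime_comm, Nat.Prime.coprime_iff_not_dvd hl]
    intro h
    have h1 : (l : ℤ) ∣ n := Int.natCast_dvd_natCast.2 h
    have h2 : (l : ℤ) ∣ z1.2 ^ 2 := by
      have h3 : z1.2 ^ 2 = ((n : ℤ) ^ 2 + 3 * n * z1.2 + z1.2 ^ 2) - n * (n + 3 * z1.2) := by ring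
      rw [h3]
      exact dvd_sub hz1b.2.1 (Dvd.dvd.mul_right h1 _)
    have h4 : (l : ℤ) ∣ z1.2 := hlp.dvd_of_dvd_pow h2
    have h5 : (l : ℤ) ∣ 1 := by
      have h6 := dvd_sub (h1.trans hz1b.1) (Dvd.dvd.mul_left h4 z1.1)
      rwa [add_sub_cancel_left] at h6
    exact hlp.not_isUnit (isUnit_of_dvd_one h5)
  have hsub : (Icc (-(Q : ℤ)) Q ×ˢ Ico (0 : ℤ) n).filter (PrSq_C l n) ⊆
      ((Icc (-(Q : ℤ)) Q ×ˢ Ico (0 : ℤ) n).filter fun z => PrSq_C l n z ∧ (l : ℤ) ∣ z.2 - z1.2) ∪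
      ((Icc (-(Q : ℤ)) Q ×ˢ Ico (0 : ℤ) n).filter fun z => PrSq_C l n z ∧ (l : ℤ) ∣ z.2 - (-(3 * n) - z1.2)) := by
    intro z hz
    obtain ⟨hza, hzb⟩ := mem_filter.1 hz
    have h1 : (l : ℤ) ∣ (z.2 - z1.2) * (z.2 - (-(3 * n) - z1.2)) := by
      have h2 : (z.2 - z1.2) * (z.2 - (-(3 * (n : ℤ)) - z1.2)) =
          ((n : ℤ) ^ 2 + 3 * n * z.2 + z.2 ^ 2) - ((n : ℤ) ^ 2 + 3 * n * z1.2 + z1.2 ^ 2) := by ring
      rw [h2]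
      exact dvd_sub hzb.2.1 hz1b.2.1
    rw [mem_union, mem_filter, mem_filter]
    rcases hlp.dvd_or_dvd h1 with h | h
    · exact Or.inl ⟨hza, hzb, h⟩
    · exact Or.inr ⟨hza, hzb, h⟩
  have hA := PrSq_cls hL hQ hl hn hnQ hco hCn z1.2
    ((Icc (-(Q : ℤ)) Q ×ˢ Ico (0 : ℤ) n).filter fun z => PrSq_C l n z ∧ (l : ℤ) ∣ z.2 - z1.2)
    (fun z hz => ⟨(mem_filter.1 hz).1, (mem_filter.1 hz).2.1, (mem_filter.1 hz).2.2⟩)
  have hB := PrSq_cls hL hQ hl hn hnQ hco hCn (-(3 * n) - z1.2)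
    ((Icc (-(Q : ℤ)) Q ×ˢ Ico (0 : ℤ) n).filter fun z => PrSq_C l n z ∧ (l : ℤ) ∣ z.2 - (-(3 * n) - z1.2))
    (fun z hz => ⟨(mem_filter.1 hz).1, (mem_filter.1 hz).2.1, (mem_filter.1 hz).2.2⟩)
  have h1 : (((Icc (-(Q : ℤ)) Q ×ˢ Ico (0 : ℤ) n).filter (PrSq_C l n)).card : ℝ) ≤
      (((Icc (-(Q : ℤ)) Q ×ˢ Ico (0 : ℤ) n).filter fun z => PrSq_C l n z ∧ (l : ℤ) ∣ z.2 - z1.2).card : ℝ) +
      (((Icc (-(Q : ℤ)) Q ×ˢ Ico (0 : ℤ) n).filter fun z => PrSq_C l n z ∧ (l : ℤ) ∣ z.2 - (-(3 * n) - z1.2)).card : ℝ) := by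
    exact_mod_cast (card_le_card hsub).trans (card_union_le _ _)
  have h2 : (800 * Q / (l : ℝ) ^ 2 : ℝ) = 400 * Q / (l : ℝ) ^ 2 + 400 * Q / (l : ℝ) ^ 2 := by ring
  rw [h2]
  linarith

open Classical in
private theorem PrSq_sum {C : ℕ} (hL : ∀ n m : ℕ, 0 < n → 0 < m → n.Coprime m → C * m ^ 73 ≤ n →
    ∀ a j0 y0 : ℤ, (((Ioc a (a + n) ×ˢ Ico (0 : ℤ) n).filter (fun x => (n : ℤ) ∣ x.1 * x.2 + 1 ∧
      (m : ℤ) ∣ x.1 - j0 ∧ (m : ℤ) ∣ x.2 - y0)).card : ℝ) ≤ 100 * n / (m : ℝ) ^ 2)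
    {Q l : ℕ} (hQ : 1 ≤ Q) (hl : l.Prime) :
    ∑ n ∈ Icc 1 Q, (((Icc (-(Q : ℤ)) Q ×ˢ Ico (0 : ℤ) n).filter (PrSq_C l n)).card : ℝ) ≤
      800 * (Q : ℝ) ^ 2 / (l : ℝ) ^ 2 + 3 * (C : ℝ) ^ 2 * (l : ℝ) ^ 146 * Q := by
  have hQ0 : (1 : ℝ) ≤ Q := by exact_mod_cast hQ
  have hl0 : (0 : ℝ) < (l : ℝ) ^ 2 := by
    have : (0 : ℝ) < l := by exact_mod_cast hl.pos
    positivity
  have hpt : ∀ n ∈ Icc 1 Q, (((Icc (-(Q : ℤ)) Q ×ˢ Ico (0 : ℤ) n).filter (PrSq_C l n)).card : ℝ) ≤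
      800 * Q / (l : ℝ) ^ 2 + (if n < C * l ^ 73 then 3 * (Q : ℝ) * (C * l ^ 73) else 0) := by
    intro n hn
    rw [mem_Icc] at hn
    have h800 : (0 : ℝ) ≤ 800 * Q / (l : ℝ) ^ 2 := by positivity
    split_ifs with h
    · have h1 : ((Icc (-(Q : ℤ)) Q ×ˢ Ico (0 : ℤ) n).filter (PrSq_C l n)).card ≤ (2 * Q + 1) * n := by
        refine (card_filter_le _ _).trans ?_
        rw [card_product, Int.card_Icc, Int.card_Ico]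
        have e1 : ((Q : ℤ) + 1 - -(Q : ℤ)).toNat = 2 * Q + 1 := by omega
        have e2 : ((n : ℤ) - 0).toNat = n := by omega
        rw [e1, e2]
      have h2 : (((Icc (-(Q : ℤ)) Q ×ˢ Ico (0 : ℤ) n).filter (PrSq_C l n)).card : ℝ) ≤ (2 * Q + 1) * n := by
        exact_mod_cast h1
      have h3 : (n : ℝ) ≤ C * (l : ℝ) ^ 73 := by
        have : (n : ℝ) < ((C * l ^ 73 : ℕ) : ℝ) := by exact_mod_cast h
        push_cast at this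
        exact this.le
      have h4 : (2 * (Q : ℝ) + 1) * n ≤ 3 * Q * (C * (l : ℝ) ^ 73) :=
        mul_le_mul (by linarith) h3 (Nat.cast_nonneg n) (by positivity)
      linarith
    · rw [add_zero]
      exact PrSq_n hL hQ hl (by omega) hn.2 (by omega)
  refine (sum_le_sum hpt).trans ?_
  rw [sum_add_distrib, sum_const, Nat.card_Icc, Nat.add_sub_cancel, nsmul_eq_mul, ← sum_filter, sum_const,
    nsmul_eq_mul]
  have hcard : (((Icc 1 Q).filter fun n => n < C * l ^ 73).card : ℝ) ≤ C * (l : ℝ) ^ 73 := by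
    have h1 : ((Icc 1 Q).filter fun n => n < C * l ^ 73) ⊆ range (C * l ^ 73) := by
      intro n hn
      exact mem_range.2 (mem_filter.1 hn).2
    have h2 := card_le_card h1
    rw [card_range] at h2
    have h3 : (((Icc 1 Q).filter fun n => n < C * l ^ 73).card : ℝ) ≤ ((C * l ^ 73 : ℕ) : ℝ) := by
      exact_mod_cast h2
    push_cast at h3
    exact h3
  have h5 : (((Icc 1 Q).filter fun n => n < C * l ^ 73).card : ℝ) * (3 * (Q : ℝ) * (C * (l : ℝ) ^ 73)) ≤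
      (C * (l : ℝ) ^ 73) * (3 * (Q : ℝ) * (C * (l : ℝ) ^ 73)) :=
    mul_le_mul_of_nonneg_right hcard (by positivity)
  have h6 : (C * (l : ℝ) ^ 73) * (3 * (Q : ℝ) * (C * (l : ℝ) ^ 73)) = 3 * (C : ℝ) ^ 2 * (l : ℝ) ^ 146 * Q := by
    ring
  have h7 : (Q : ℝ) * (800 * Q / (l : ℝ) ^ 2) = 800 * (Q : ℝ) ^ 2 / (l : ℝ) ^ 2 := by
    ring
  rw [h7]
  linarith

open Classical in
theorem pairs_sq : ∃ C : ℝ, 0 < C ∧ ∀ Q l : ℕ, 1 ≤ Q → l.Prime → l ≠ 5 →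
    (((Bx Q ×ˢ Bx Q).filter (fun z => Qd z.1 ∧ Qd z.2 ∧ dt z.1 z.2 = 1 ∧ (l : ℤ) ∣ nm z.1 ∧ (l : ℤ) ∣ nm z.2)).card : ℝ) ≤
      C * ((Q : ℝ) ^ 2 / (l : ℝ) ^ 2 + (l : ℝ) ^ 146 * Q) := by
  obtain ⟨C, hC, hL⟩ := law_unif
  refine ⟨1600 + 6 * (C : ℝ) ^ 2, by positivity, fun Q l hQ hl hl5 => ?_⟩
  have hlp : Prime (l : ℤ) := Nat.prime_iff_prime_int.1 hl
  have hl5' : ¬ (l : ℤ) ∣ 5 := by
    intro h
    have h1 : l ∣ 5 := by exact_mod_cast h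
    rcases (Nat.dvd_prime (by norm_num : Nat.Prime 5)).1 h1 with h2 | h2
    · exact hl.one_lt.ne' h2
    · exact hl5 h2
  let T : Finset ((n : ℕ) × (ℤ × ℤ)) :=
    (Icc 1 Q).sigma fun n => (Icc (-(Q : ℤ)) Q ×ˢ Ico (0 : ℤ) n).filter (PrSq_C l n)
  have hT : (T.card : ℝ) = ∑ n ∈ Icc 1 Q, (((Icc (-(Q : ℤ)) Q ×ˢ Ico (0 : ℤ) n).filter (PrSq_C l n)).card : ℝ) := by
    show ((((Icc 1 Q).sigma fun n => (Icc (-(Q : ℤ)) Q ×ˢ Ico (0 : ℤ) n).filter (PrSq_C l n)).card : ℕ) : ℝ) = _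
    rw [card_sigma]
    push_cast
    rfl
  let S := (Bx Q ×ˢ Bx Q).filter
    (fun z => Qd z.1 ∧ Qd z.2 ∧ dt z.1 z.2 = 1 ∧ (l : ℤ) ∣ nm z.1 ∧ (l : ℤ) ∣ nm z.2)
  have hmem : ∀ z ∈ S, (0 ≤ z.1.1 ∧ z.1.1 ≤ Q) ∧ (0 ≤ z.1.2 ∧ z.1.2 ≤ Q) ∧ (0 ≤ z.2.1 ∧ z.2.1 ≤ Q) ∧
      (0 ≤ z.2.2 ∧ z.2.2 ≤ Q) ∧ z.1 ≠ 0 ∧ z.1.1 * z.2.2 - z.2.1 * z.1.2 = 1 ∧
      (l : ℤ) ∣ z.1.1 ^ 2 + 3 * z.1.1 * z.1.2 + z.1.2 ^ 2 ∧ (l : ℤ) ∣ z.2.1 ^ 2 + 3 * z.2.1 * z.2.2 + z.2.2 ^ 2 := by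
    intro z hz
    obtain ⟨hz1, hz2, hz3, hz4, hz5, hz6⟩ := mem_filter.1 hz
    obtain ⟨ha, hb⟩ := mem_product.1 hz1
    obtain ⟨ha1, ha2⟩ := mem_product.1 ha
    obtain ⟨hb1, hb2⟩ := mem_product.1 hb
    rw [mem_Icc] at ha1 ha2 hb1 hb2
    exact ⟨ha1, ha2, hb1, hb2, hz2.2.2, hz4, hz5, hz6⟩
  have hcase : ∀ z ∈ S, z.1.2 < z.1.1 ∨ z.1.1 < z.1.2 := by
    intro z hz
    obtain ⟨h1, h2, h3, h4, h5, h6, h7, h8⟩ := hmem z hz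
    rcases lt_trichotomy z.1.2 z.1.1 with h | h | h
    · exact Or.inl h
    · exfalso
      rw [h] at h6 h7
      have e1 : z.1.1 * (z.2.2 - z.2.1) = 1 := by linarith
      have e2 : z.1.1 = 1 := by
        rcases Int.isUnit_iff.1 (IsUnit.of_mul_eq_one _ e1) with h | h
        · exact h
        · omega
      rw [e2] at h7
      norm_num at h7
      exact hl5' h7
    · exact Or.inr h
  have hS1 : (S.filter fun z => z.1.2 < z.1.1).card ≤ T.card := by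
    refine card_le_card_of_injOn
      (fun z : (ℤ × ℤ) × (ℤ × ℤ) => (⟨z.1.1.toNat, (z.2.1, z.1.2)⟩ : (n : ℕ) × (ℤ × ℤ))) ?_ ?_
    · intro z hz
      obtain ⟨hz0, hz1⟩ := mem_filter.1 (mem_coe.1 hz)
      obtain ⟨h1, h2, h3, h4, h5, h6, h7, h8⟩ := hmem z hz0
      have hn : ((z.1.1.toNat : ℕ) : ℤ) = z.1.1 := Int.toNat_of_nonneg h1.1
      rw [mem_coe, mem_sigma]
      refine ⟨?_, ?_⟩
      · show z.1.1.toNat ∈ Icc 1 Q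
        exact mem_Icc.2 ⟨by omega, by omega⟩
      show (z.2.1, z.1.2) ∈ (Icc (-(Q : ℤ)) Q ×ˢ Ico (0 : ℤ) ((z.1.1.toNat : ℕ) : ℤ)).filter
        (PrSq_C l ((z.1.1.toNat : ℕ) : ℤ))
      rw [hn, mem_filter, mem_product, mem_Icc, mem_Ico]
      refine ⟨⟨⟨by omega, h3.2⟩, h2.1, hz1⟩, ⟨z.2.2, ?_⟩, h7, ?_⟩
      · show z.2.1 * z.1.2 + 1 = z.1.1 * z.2.2
        linarith
      · show (l : ℤ) ∣ z.2.1 * (3 * z.1.1 + 2 * z.1.2) + 1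
        have e : z.2.1 * (3 * z.1.1 + 2 * z.1.2) + 1 =
            z.1.1 ^ 2 * (z.2.1 ^ 2 + 3 * z.2.1 * z.2.2 + z.2.2 ^ 2) -
            z.2.1 ^ 2 * (z.1.1 ^ 2 + 3 * z.1.1 * z.1.2 + z.1.2 ^ 2) := by
          have e1 : z.1.1 * z.2.2 = z.2.1 * z.1.2 + 1 := by linarith
          have e2 : z.1.1 ^ 2 * (z.2.1 ^ 2 + 3 * z.2.1 * z.2.2 + z.2.2 ^ 2) =
            z.1.1 ^ 2 * z.2.1 ^ 2 + 3 * z.1.1 * z.2.1 * (z.1.1 * z.2.2) + (z.1.1 * z.2.2) ^ 2 := by ring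
          rw [e2, e1]
          ring
        rw [e]
        exact dvd_sub (Dvd.dvd.mul_left h8 _) (Dvd.dvd.mul_left h7 _)
    · intro z hz z' hz' h
      obtain ⟨hz0, hz1⟩ := mem_filter.1 (mem_coe.1 hz)
      obtain ⟨hz0', hz1'⟩ := mem_filter.1 (mem_coe.1 hz')
      obtain ⟨h1, h2, h3, h4, h5, h6, h7, h8⟩ := hmem z hz0
      obtain ⟨h1', h2', h3', h4', h5', h6', h7', h8'⟩ := hmem z' hz0'
      have ea : z.1.1.toNat = z'.1.1.toNat := congrArg (fun t : (n : ℕ) × (ℤ × ℤ) => t.1) h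
      have eb : (z.2.1, z.1.2) = (z'.2.1, z'.1.2) := congrArg (fun t : (n : ℕ) × (ℤ × ℤ) => t.2) h
      have e1 : z.1.1 = z'.1.1 := by omega
      have e2 : z.2.1 = z'.2.1 := (Prod.mk.inj eb).1
      have e3 : z.1.2 = z'.1.2 := (Prod.mk.inj eb).2
      have e4 : z.2.2 = z'.2.2 := by
        have : z.1.1 * z.2.2 = z.1.1 * z'.2.2 := by
          rw [← e1, ← e2, ← e3] at h6'
          linarith
        exact mul_left_cancel₀ (by omega) this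
      exact Prod.ext (Prod.ext e1 e3) (Prod.ext e2 e4)
  have hS2 : (S.filter fun z => z.1.1 < z.1.2).card ≤ T.card := by
    refine card_le_card_of_injOn
      (fun z : (ℤ × ℤ) × (ℤ × ℤ) => (⟨z.1.2.toNat, (-z.2.2, z.1.1)⟩ : (n : ℕ) × (ℤ × ℤ))) ?_ ?_
    · intro z hz
      obtain ⟨hz0, hz1⟩ := mem_filter.1 (mem_coe.1 hz)
      obtain ⟨h1, h2, h3, h4, h5, h6, h7, h8⟩ := hmem z hz0
      have hn : ((z.1.2.toNat : ℕ) : ℤ) = z.1.2 := Int.toNat_of_nonneg h2.1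
      rw [mem_coe, mem_sigma]
      refine ⟨?_, ?_⟩
      · show z.1.2.toNat ∈ Icc 1 Q
        exact mem_Icc.2 ⟨by omega, by omega⟩
      show (-z.2.2, z.1.1) ∈ (Icc (-(Q : ℤ)) Q ×ˢ Ico (0 : ℤ) ((z.1.2.toNat : ℕ) : ℤ)).filter
        (PrSq_C l ((z.1.2.toNat : ℕ) : ℤ))
      rw [hn, mem_filter, mem_product, mem_Icc, mem_Ico]
      refine ⟨⟨⟨by omega, by omega⟩, h1.1, hz1⟩, ⟨-z.2.1, ?_⟩, ?_, ?_⟩
      · show -z.2.2 * z.1.1 + 1 = z.1.2 * -z.2.1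
        linarith
      · show (l : ℤ) ∣ z.1.2 ^ 2 + 3 * z.1.2 * z.1.1 + z.1.1 ^ 2
        have e : z.1.2 ^ 2 + 3 * z.1.2 * z.1.1 + z.1.1 ^ 2 = z.1.1 ^ 2 + 3 * z.1.1 * z.1.2 + z.1.2 ^ 2 := by ring
        rw [e]
        exact h7
      · show (l : ℤ) ∣ -z.2.2 * (3 * z.1.2 + 2 * z.1.1) + 1
        have e : -z.2.2 * (3 * z.1.2 + 2 * z.1.1) + 1 =
            z.1.2 ^ 2 * (z.2.1 ^ 2 + 3 * z.2.1 * z.2.2 + z.2.2 ^ 2) -
            z.2.2 ^ 2 * (z.1.1 ^ 2 + 3 * z.1.1 * z.1.2 + z.1.2 ^ 2) := by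
          have e1 : z.1.2 * z.2.1 = z.1.1 * z.2.2 - 1 := by linarith
          have e2 : z.1.2 ^ 2 * (z.2.1 ^ 2 + 3 * z.2.1 * z.2.2 + z.2.2 ^ 2) =
            (z.1.2 * z.2.1) ^ 2 + 3 * (z.1.2 * z.2.1) * z.1.2 * z.2.2 + z.1.2 ^ 2 * z.2.2 ^ 2 := by ring
          rw [e2, e1]
          ring
        rw [e]
        exact dvd_sub (Dvd.dvd.mul_left h8 _) (Dvd.dvd.mul_left h7 _)
    · intro z hz z' hz' h
      obtain ⟨hz0, hz1⟩ := mem_filter.1 (mem_coe.1 hz)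
      obtain ⟨hz0', hz1'⟩ := mem_filter.1 (mem_coe.1 hz')
      obtain ⟨h1, h2, h3, h4, h5, h6, h7, h8⟩ := hmem z hz0
      obtain ⟨h1', h2', h3', h4', h5', h6', h7', h8'⟩ := hmem z' hz0'
      have ea : z.1.2.toNat = z'.1.2.toNat := congrArg (fun t : (n : ℕ) × (ℤ × ℤ) => t.1) h
      have eb : (-z.2.2, z.1.1) = (-z'.2.2, z'.1.1) := congrArg (fun t : (n : ℕ) × (ℤ × ℤ) => t.2) h
      have e1 : z.1.2 = z'.1.2 := by omega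
      have e2' : -z.2.2 = -z'.2.2 := (Prod.mk.inj eb).1
      have e2 : z.2.2 = z'.2.2 := by omega
      have e3 : z.1.1 = z'.1.1 := (Prod.mk.inj eb).2
      have e4 : z.2.1 = z'.2.1 := by
        have : z.1.2 * z.2.1 = z.1.2 * z'.2.1 := by
          rw [← e1, ← e2, ← e3] at h6'
          linarith
        exact mul_left_cancel₀ (by omega) this
      exact Prod.ext (Prod.ext e3 e1) (Prod.ext e4 e2)
  have hcov : S ⊆ (S.filter fun z => z.1.2 < z.1.1) ∪ (S.filter fun z => z.1.1 < z.1.2) := by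
    intro z hz
    rcases hcase z hz with h | h
    · exact mem_union.2 (Or.inl (mem_filter.2 ⟨hz, h⟩))
    · exact mem_union.2 (Or.inr (mem_filter.2 ⟨hz, h⟩))
  have hfin : S.card ≤ 2 * T.card := by
    have h1 := (card_le_card hcov).trans (card_union_le _ _)
    omega
  have hfin' : (S.card : ℝ) ≤ 2 * T.card := by exact_mod_cast hfin
  have hsum := PrSq_sum hL hQ hl
  rw [← hT] at hsum
  have hpos1 : (0 : ℝ) ≤ (Q : ℝ) ^ 2 / (l : ℝ) ^ 2 := by positivity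
  have hpos2 : (0 : ℝ) ≤ (l : ℝ) ^ 146 * Q := by positivity
  have hpos3 : (0 : ℝ) ≤ (C : ℝ) ^ 2 := by positivity
  refine hfin'.trans ?_
  have e1 : 800 * (Q : ℝ) ^ 2 / (l : ℝ) ^ 2 = 800 * ((Q : ℝ) ^ 2 / (l : ℝ) ^ 2) := by ring
  rw [e1] at hsum
  nlinarith [mul_nonneg hpos3 hpos1]

end Pool.Agent.Lib.MP_d57abb_nt.GV
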