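import Pool.Agent.Lib.MP_d57abb_nt.GT.Fct
import Pool.Agent.Lib.MP_d57abb_nt.GV.Defs

/-!
# Values at good vectors (complex valued functions)
-/

namespace Pool.Agent.Lib.MP_d57abb_nt.GV

open Finset MR GT

theorem fctC {g : ℕ → ℂ} (hg : CN g) {W : ℕ} [NeZero W] (χ : MulChar (RW W) ℂ) (hom : χ (red W om) = 1)
    {x : O} (hx : MR.TP x) (hp : Pm x) (hu : IsUnit (red W x)) (hb : ∀ p : O, Dg W p → p ∣ x → ¬ Bc g χ p) :
    g (N x).natAbs * χ (red W x) = 1 := by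
  obtain ⟨n, hn⟩ : ∃ n : ℕ, n = (N x).natAbs := ⟨_, rfl⟩
  induction n using Nat.strong_induction_on generalizing x with
  | _ n ih =>
  have hNx := hx.N_pos
  by_cases h1 : N x = 1
  · have hxu : IsUnit x := by
      rw [isUnit_iff, h1]
      rfl
    obtain ⟨k, hk⟩ := unit_tp hx hxu
    have hg1 : g 1 = 1 := by
      have h2 := hg.mul 1 1 one_pos one_pos
      rw [mul_one] at h2
      exact (mul_eq_left₀ (hg.ne 1 one_pos)).1 h2.symm
    have hχ : χ (red W x) = 1 := by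
      have h3 : red W x = (((Units.map (red W).toMonoidHom omu) ^ k : (RW W)ˣ) : RW W) := by
        rw [hk, ← map_zpow]
        rfl
      rw [h3]
      have h4 : χ (((Units.map (red W).toMonoidHom omu : (RW W)ˣ)) : RW W) = 1 := hom
      have h5 : χ.toUnitHom (Units.map (red W).toMonoidHom omu) = 1 := by
        rw [Units.ext_iff, MulChar.coe_toUnitHom]
        exact h4
      rw [← MulChar.coe_toUnitHom, map_zpow, h5, one_zpow]
      rfl
    rw [h1, hχ, mul_one]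
    exact hg1
  · obtain ⟨p, y, hpq, hpp, hy, hxy⟩ := exists_dg hx hp h1
    have hNp := hpq.tp.N_pos
    have hNy := hy.N_pos
    have hNm : (N x).natAbs = (N p).natAbs * (N y).natAbs := by
      rw [hxy, N_mul, Int.natAbs_mul]
    have hup : IsUnit (red W p) ∧ IsUnit (red W y) := by
      rw [hxy, map_mul] at hu
      exact ⟨isUnit_of_mul_isUnit_left hu, isUnit_of_mul_isUnit_right hu⟩
    have hdg : Dg W p := by
      refine ⟨hpq, hpp, fun hd => ?_⟩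
      have h2 := hup.1
      have h3 : N p = (((N p).natAbs : ℕ) : ℤ) := by omega
      rw [isUnit_iff_nm, nm_red, h3, Int.cast_natCast, ZMod.isUnit_iff_coprime] at h2
      exact (Nat.Prime.coprime_iff_not_dvd hpp).1 h2 hd
    have hlt : (N y).natAbs < n := by
      rw [hn, hNm]
      have h2 := hpp.two_le
      have h3 : 0 < (N y).natAbs := by omega
      nlinarith
    have h2 := ih _ hlt hy (Pm_of_mul (hxy ▸ hp)) hup.2
      (fun q hq hqy => hb q hq (hqy.trans ⟨p, by rw [hxy, mul_comm]⟩)) rfl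
    have h3 : g (N p).natAbs * χ (red W p) = 1 := by
      have h4 := hb p hdg ⟨y, hxy⟩
      unfold Bc at h4
      push Not at h4
      exact h4
    rw [hNm, hg.mul _ _ (by omega) (by omega), hxy, map_mul, map_mul]
    calc g (N p).natAbs * g (N y).natAbs * (χ (red W p) * χ (red W y)) =
        (g (N p).natAbs * χ (red W p)) * (g (N y).natAbs * χ (red W y)) := by ring
      _ = 1 := by rw [h2, h3, one_mul]

private theorem ValC_core {g : ℕ → ℂ} (hg : CN g) {W : ℕ} [NeZero W] {χ : MulChar (RW W) ℂ} (hom : χ (red W om) = 1)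
    {M1 : ℕ} (hW : W ∣ M1) {x : O} (hx : MR.TP x) (hp : Pm x) (hr : (M1 : ℤ) ∣ x.re - 1) (hi : (M1 : ℤ) ∣ x.im)
    (hb : ∀ p : O, Dg M1 p → p ∣ x → ¬ Bc g χ p) : g (N x).natAbs = 1 := by
  have hW' : (W : ℤ) ∣ (M1 : ℤ) := by exact_mod_cast hW
  have hred : red W x = 1 := by
    rw [← map_one (red W), red_eq_iff]
    constructor
    · show x.re ≡ 1 [ZMOD W]
      exact (Int.modEq_iff_dvd.2 (hW'.trans hr)).symm
    · show x.im ≡ 0 [ZMOD W]
      exact Int.modEq_zero_iff_dvd.2 (hW'.trans hi)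
  have hN1 : (M1 : ℤ) ∣ N x - 1 := by
    have e : N x - 1 = (x.re - 1) * (x.re + 1) + x.im * (3 * x.re + x.im) := by
      unfold N
      ring
    rw [e]
    exact dvd_add (Dvd.dvd.mul_right hr _) (Dvd.dvd.mul_right hi _)
  have h1 := fctC hg χ hom hx hp (by rw [hred]; exact isUnit_one) (fun p hpW hpx => by
    refine hb p ⟨hpW.1, hpW.2.1, fun hd => ?_⟩ hpx
    have h2 := hpW.two_le
    have h3 : N p ∣ N x := by
      obtain ⟨w, hw⟩ := hpx
      exact ⟨N w, by rw [hw, N_mul]⟩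
    have h4 : N p ∣ (M1 : ℤ) := by
      have h5 : N p = (((N p).natAbs : ℕ) : ℤ) := by omega
      rw [h5]
      exact_mod_cast hd
    have h6 := dvd_sub h3 (h4.trans hN1)
    have e : N x - (N x - 1) = 1 := by ring
    rw [e] at h6
    have := Int.le_of_dvd one_pos h6
    omega)
  rwa [hred, map_one, mul_one] at h1

theorem val1C {g : ℕ → ℂ} (hg : CN g) {W : ℕ} [NeZero W] {χ : MulChar (RW W) ℂ} (hom : χ (red W om) = 1)
    {M : ℕ} (hWM : W ∣ M) {u : ℤ × ℤ} (hu : TP u) (hc : Cg M u (1, 0)) (hG : Gb (Bc g χ) M u) : g (nm u).natAbs = 1 := by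
  refine ValC_core hg hom hWM (x := tO u) hu hG.1 hc.1 ?_ hG.2
  have h := hc.2
  rwa [sub_zero] at h

theorem valkC {g : ℕ → ℂ} (hg : CN g) {W : ℕ} [NeZero W] {χ : MulChar (RW W) ℂ} (hom : χ (red W om) = 1)
    {M1 k : ℕ} (hW : W ∣ M1) (hf : ∀ q : ℕ, q.Prime → q ∣ k ^ 2 + 3 * k + 1 → q ∣ M1) {u : ℤ × ℤ} (hu : TP u)
    (hc : Cg (M1 * (k ^ 2 + 3 * k + 1)) u ((k : ℤ), 1)) (hG : Gb (Bc g χ) (M1 * (k ^ 2 + 3 * k + 1)) u) :
    g (nm u).natAbs = g (k ^ 2 + 3 * k + 1) := by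
  obtain ⟨⟨a, ha⟩, b, hb⟩ := hc
  push_cast at ha hb
  have hw0 : MR.TP (⟨(k : ℤ), 1⟩ : O) := by
    have h1 : (0 : ℝ) ≤ k := Nat.cast_nonneg _
    have h2 := al_lo
    have h3 := be_lo
    constructor
    · show (0 : ℝ) < (((k : ℕ) : ℤ) : ℝ) + ((1 : ℤ) : ℝ) * al
      push_cast
      linarith
    · show (0 : ℝ) < (((k : ℕ) : ℤ) : ℝ) + ((1 : ℤ) : ℝ) * be
      push_cast
      linarith
  have hNw : N (⟨(k : ℤ), 1⟩ : O) = (k : ℤ) ^ 2 + 3 * k + 1 := by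
    show (k : ℤ) ^ 2 + 3 * k * 1 + 1 ^ 2 = _
    ring
  -- `star w0 * s` with coordinates
  obtain ⟨t1, ht1⟩ : ∃ t1 : ℤ, t1 = (k + 3) * a + b := ⟨_, rfl⟩
  obtain ⟨t2, ht2⟩ : ∃ t2 : ℤ, t2 = k * b - a := ⟨_, rfl⟩
  obtain ⟨x, hx⟩ : ∃ x : O, x = (⟨1 + M1 * t1, M1 * t2⟩ : O) := ⟨_, rfl⟩
  have hxr : x.re = 1 + M1 * t1 := by rw [hx]
  have hxi : x.im = M1 * t2 := by rw [hx]
  have hux : tO u = (⟨(k : ℤ), 1⟩ : O) * x := by
    apply QuadraticAlgebra.ext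
    · rw [QuadraticAlgebra.re_mul, hxr, hxi]
      show u.1 = (k : ℤ) * (1 + M1 * t1) + -1 * 1 * (M1 * t2)
      rw [ht1, ht2]
      linear_combination ha
    · rw [QuadraticAlgebra.im_mul, hxr, hxi]
      show u.2 = (k : ℤ) * (M1 * t2) + 1 * (1 + M1 * t1) + 3 * 1 * (M1 * t2)
      rw [ht1, ht2]
      linear_combination hb
  have hxu : x ∣ tO u := ⟨⟨(k : ℤ), 1⟩, by rw [hux, mul_comm]⟩
  have huT : MR.TP (tO u) := hu
  have hxT : MR.TP x := TP.of_mul hw0 (hux ▸ huT)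
  have hxP : Pm x := Pm_of_mul (x := (⟨(k : ℤ), 1⟩ : O)) (hux ▸ (show Pm (tO u) from hG.1))
  have h1 := ValC_core hg hom hW hxT hxP (by rw [hxr]; exact ⟨t1, by ring⟩) (by rw [hxi]; exact ⟨t2, rfl⟩)
    (fun p hp hpx => by
      refine hG.2 p ⟨hp.1, hp.2.1, fun hd => ?_⟩ (hpx.trans hxu)
      rcases (Nat.Prime.dvd_mul hp.2.1).1 hd with h2 | h2
      · exact hp.2.2 h2
      · exact hp.2.2 (hf _ hp.2.1 h2))
  have h2 : nm u = ((k : ℤ) ^ 2 + 3 * k + 1) * N x := by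
    have h3 : nm u = N (tO u) := rfl
    rw [h3, hux, N_mul, hNw]
  have h4 : ((k : ℤ) ^ 2 + 3 * k + 1).natAbs = k ^ 2 + 3 * k + 1 := by
    have h5 : ((k : ℤ) ^ 2 + 3 * k + 1) = ((k ^ 2 + 3 * k + 1 : ℕ) : ℤ) := by
      push_cast
      ring
    rw [h5, Int.natAbs_natCast]
  have hNx := hxT.N_pos
  rw [h2, Int.natAbs_mul, hg.mul _ _ (by rw [h4]; positivity) (by omega), h1, mul_one, h4]

end Pool.Agent.Lib.MP_d57abb_nt.GV
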