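import Pool.Agent.Lib.MP_d57abb_nt.GV.FrS
import Pool.Agent.Lib.MP_d57abb_nt.GV.Val
import Pool.Agent.Lib.MP_d57abb_nt.GT.NPx
import Pool.Agent.Lib.MP_d57abb_nt.GT.Cell

/-!
# Several functions which pretend to be characters, in a residue class, at values without square factors
-/

namespace Pool.Agent.Lib.MP_d57abb_nt.GV

open Finset MR GT GA.TZ GA.TS

attribute [local instance] GT.lab0

private theorem PvS_tc {A X : ℕ} (hA : 1 ≤ A) (hX : 128 * A ^ 2 ≤ X) (Z : Finset ((ℤ × ℤ) × (ℤ × ℤ))) (P : ℕ → Prop)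
    [DecidablePred P] (hZ : ∀ z ∈ Z, (GA.TA.Qd z.1 ∧ GA.TA.Qd z.2 ∧ dt z.1 z.2 = 1) ∧
      ((A : ℤ) < GA.TA.ll z.1 ∧ GA.TA.ll z.1 ≤ 8 * A) ∧ (A : ℤ) < GA.TA.ll z.2 ∧ GA.TA.ll z.2 ≤ 8 * A)
    (hP : ∀ z ∈ Z, P (kk z.1 z.2).toNat) : (Z.card : ℝ) ≤ ∑ k ∈ (Icc 1 X).filter P, (tc 32 k : ℝ) := by
  have hcard : (∑ k ∈ (Icc 1 X).filter P, (tc 32 k : ℝ)) =
      (((GG (1 / 32) 32 X).filter (fun x => P (kk x.1 x.2).toNat)).card : ℝ) := by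
    rw [← sum_wn (1 / 32) 32 X P, Nat.cast_sum]
    refine Finset.sum_congr rfl fun k _ => ?_
    rw [tc_wn 32 (by norm_num) k]
  rw [hcard]
  have hsub : Z ⊆ (GG (1 / 32) 32 X).filter (fun x => P (kk x.1 x.2).toNat) := by
    intro z hz
    obtain ⟨⟨q1, q2, q3⟩, ⟨a1, a2⟩, b1, b2⟩ := hZ z hz
    refine mem_filter.2 ⟨?_, hP z hz⟩
    have h1 := Cell_mem (M := 4) (by norm_num) hA (X := X) (by omega) q1 q2 q3 a1 (by push_cast; linarith) b1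
      (by push_cast; linarith)
    have e1 : (1 : ℝ) / (8 * ((4 : ℕ) : ℝ)) = 1 / 32 := by norm_num
    have e2 : (8 : ℝ) * ((4 : ℕ) : ℝ) = 32 := by norm_num
    rw [e1, e2] at h1
    exact h1
  exact_mod_cast Finset.card_le_card hsub

private theorem PvS_kk {g : ℕ → ℂ} (hg : CN g) {v w : ℤ × ℤ} (hv : GA.TA.Qd v) (hw : GA.TA.Qd w) (hd : dt v w = 1) :
    g ((kk v w).toNat ^ 2 + 3 * (kk v w).toNat + 1) = g (nm v).natAbs * g (nm w).natAbs := by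
  have p1 := (GA.TA.tp_of_Qd hv).nm_pos
  have p2 := (GA.TA.tp_of_Qd hw).nm_pos
  rw [← hg.mul _ _ (by omega) (by omega), ← Int.natAbs_mul, ← kk_eq hd]
  congr 1
  have h1 := kk_nn hv hw
  obtain ⟨n, hn⟩ := Int.eq_ofNat_of_zero_le h1
  rw [hn, Int.toNat_natCast]
  have h2 : ((n : ℤ) ^ 2 + 3 * n + 1) = ((n ^ 2 + 3 * n + 1 : ℕ) : ℤ) := by
    push_cast
    ring
  rw [h2, Int.natAbs_natCast]

private theorem PvS_cls {v w : ℤ × ℤ} (hv : GA.TA.Qd v) (hw : GA.TA.Qd w) {D k₀ : ℕ} (h1 : (D : ℤ) ∣ v.1 - 1)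
    (h2 : (D : ℤ) ∣ v.2 - 0) (h3 : (D : ℤ) ∣ w.1 - k₀) (h4 : (D : ℤ) ∣ w.2 - 1) : (kk v w).toNat ≡ k₀ [MOD D] := by
  rw [← Int.natCast_modEq_iff, Int.toNat_of_nonneg (kk_nn hv hw)]
  have e : (k₀ : ℤ) - kk v w = -((w.1 - k₀) + (v.1 - 1) * w.1 + (v.2 - 0) * (w.2 + 3 * w.1)) := by
    unfold kk
    ring
  refine (Int.modEq_iff_dvd).2 ?_
  rw [e]
  exact (dvd_neg).2 (dvd_add (dvd_add h3 (Dvd.dvd.mul_right h1 _)) (Dvd.dvd.mul_right h2 _))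

open Classical in
theorem pvS {ι : Type*} [Fintype ι] {g : ι → ℕ → ℂ} (hg : ∀ i, CN (g i)) (hP : ∀ i, ¬ NPx (g i)) {D : ℕ} (hD : 0 < D)
    (k₀ : ℕ) (hk₀ : k₀ ^ 2 + 3 * k₀ + 1 ∣ D) : ∃ κ : ℝ, 0 < κ ∧ ∃ X₀ : ℕ, ∀ X : ℕ, X₀ ≤ X →
      κ * X ≤ ∑ k ∈ (Icc 1 X).filter (fun k => k ≡ k₀ [MOD D * (k₀ ^ 2 + 3 * k₀ + 1)] ∧
        (∀ l : ℕ, l.Prime → ¬ l ∣ D → ¬ l ^ 2 ∣ k ^ 2 + 3 * k + 1) ∧
        ∀ i, g i (k ^ 2 + 3 * k + 1) = g i (k₀ ^ 2 + 3 * k₀ + 1)), (tc 32 k : ℝ) := by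
  have hP' : ∀ i, ∃ W : ℕ, ∃ _ : NeZero W, ∃ χ : MulChar (RW W) ℂ, χ (red W om) = 1 ∧ ∃ B : ℝ, ∀ y : ℝ,
      ∑ p ∈ (PP W y).filter (fun p => Bc (g i) χ p), 1 / (N p : ℝ) ≤ B := by
    intro i
    have h1 := hP i
    unfold NPx at h1
    push Not at h1
    obtain ⟨W, hW, -, χ, hom, B, hB⟩ := h1
    refine ⟨W, hW, χ, hom, B, fun y => le_trans (le_of_eq (Finset.sum_congr ?_ fun _ _ => rfl)) (hB y).le⟩
    ext p
    rw [mem_filter, mem_filter]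
    rfl
  choose W hW χ hom B hB using hP'
  obtain ⟨V, hV⟩ : ∃ V : ℕ, V = ∏ i, W i := ⟨_, rfl⟩
  have hV0 : 0 < V := by
    rw [hV]
    exact Finset.prod_pos fun i _ => Nat.pos_of_ne_zero (hW i).out
  have hWV : ∀ i, W i ∣ V := fun i => by
    rw [hV]
    exact Finset.dvd_prod_of_mem _ (mem_univ i)
  obtain ⟨Bd, hBd⟩ : ∃ Bd : _ → Prop, ∀ p, Bd p ↔ ∃ i, Bc (g i) (χ i) p := ⟨_, fun _ => Iff.rfl⟩
  have hMs : Ms V Bd := by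
    refine ⟨∑ i, B i, fun z => ?_⟩
    have h1 : (PP V z).filter (fun p => Bd p) ⊆
        (univ : Finset ι).biUnion (fun i => (PP (W i) z).filter (fun p => Bc (g i) (χ i) p)) := by
      intro p hp
      obtain ⟨hp1, hb⟩ := mem_filter.1 hp
      obtain ⟨i, hi⟩ := (hBd p).1 hb
      obtain ⟨hp2, hp3⟩ := mem_PP.1 hp1
      exact mem_biUnion.2 ⟨i, mem_univ i, mem_filter.2 ⟨mem_PP.2 ⟨⟨hp2.1, hp2.2.1, fun hd => hp2.2.2 (hd.trans (hWV i))⟩, hp3⟩, hi⟩⟩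
    have hnn : ∀ p ∈ (univ : Finset ι).biUnion (fun i => (PP (W i) z).filter (fun p => Bc (g i) (χ i) p)), 0 ≤ 1 / (N p : ℝ) := by
      intro p hp
      obtain ⟨i, -, hi⟩ := mem_biUnion.1 hp
      have := (mem_PP.1 (mem_filter.1 hi).1).1.tp.N_pos
      positivity
    refine (Finset.sum_le_sum_of_subset_of_nonneg h1 fun p hp _ => hnn p hp).trans ?_
    refine le_trans ?_ (Finset.sum_le_sum fun i _ => hB i z)
    have hmem : ∀ p ∈ (univ : Finset ι).biUnion (fun i => (PP (W i) z).filter (fun p => Bc (g i) (χ i) p)),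
        1 / (N p : ℝ) ≤ ∑ i, if p ∈ (PP (W i) z).filter (fun p => Bc (g i) (χ i) p) then 1 / (N p : ℝ) else 0 := by
      intro p hp
      have hp0 := hnn p hp
      obtain ⟨i, -, hi⟩ := mem_biUnion.1 hp
      refine le_trans ?_ (Finset.single_le_sum (f := fun i => if p ∈ (PP (W i) z).filter (fun p => Bc (g i) (χ i) p)
        then 1 / (N p : ℝ) else 0) (fun j _ => ?_) (mem_univ i))
      · show 1 / (N p : ℝ) ≤ if p ∈ (PP (W i) z).filter (fun p => Bc (g i) (χ i) p) then 1 / (N p : ℝ) else 0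
        rw [if_pos hi]
      · show 0 ≤ if p ∈ (PP (W j) z).filter (fun p => Bc (g j) (χ j) p) then 1 / (N p : ℝ) else 0
        split_ifs
        · exact hp0
        · exact le_rfl
    refine (Finset.sum_le_sum hmem).trans ?_
    rw [Finset.sum_comm]
    refine Finset.sum_le_sum fun i _ => ?_
    rw [← Finset.sum_filter]
    refine Finset.sum_le_sum_of_subset_of_nonneg ?_ ?_
    · intro p hp
      exact (mem_filter.1 hp).2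
    · intro p hp _
      have := (mem_PP.1 (mem_filter.1 hp).1).1.tp.N_pos
      positivity
  obtain ⟨y, hy⟩ := framesS hMs
  obtain ⟨f, hf⟩ : ∃ f : ℕ, f = k₀ ^ 2 + 3 * k₀ + 1 := ⟨_, rfl⟩
  have hf0 : 0 < f := by rw [hf]; positivity
  obtain ⟨M1, hM1⟩ : ∃ M1 : ℕ, M1 = V * D * (y + f).factorial := ⟨_, rfl⟩
  have hM10 : 0 < M1 := by rw [hM1]; exact Nat.mul_pos (Nat.mul_pos hV0 hD) (Nat.factorial_pos _)
  have hVM1 : V ∣ M1 := by rw [hM1, mul_assoc]; exact Dvd.intro _ rfl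
  have hDM1 : D ∣ M1 := by
    rw [hM1, mul_comm V D, mul_assoc]
    exact Dvd.intro _ rfl
  have hfac : ∀ q : ℕ, q.Prime → q ≤ y + f → q ∣ M1 := by
    intro q hq hq2
    rw [hM1]
    exact Dvd.dvd.mul_left (Nat.dvd_factorial hq.pos hq2) (V * D)
  have hfM : ∀ q : ℕ, q.Prime → q ∣ k₀ ^ 2 + 3 * k₀ + 1 → q ∣ M1 := by
    intro q hq hd
    refine hfac q hq ?_
    have := Nat.le_of_dvd (by positivity) hd
    omega
  obtain ⟨M, hM⟩ : ∃ M : ℕ, M = M1 * (k₀ ^ 2 + 3 * k₀ + 1) := ⟨_, rfl⟩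
  have hM0 : 0 < M := by rw [hM]; exact Nat.mul_pos hM10 (by positivity)
  have hVM : V ∣ M := by rw [hM]; exact Dvd.dvd.mul_right hVM1 _
  obtain ⟨κ, hκ, A₀, hA₀⟩ := hy M hM0 hVM (fun q hq hq2 => by
    rw [hM]
    exact Dvd.dvd.mul_right (hfac q hq (by omega)) _) ((k₀ : ℤ) - 1)
  refine ⟨κ / 512, by positivity, 128 * (A₀ + 1) ^ 2 + 3, fun X hX => ?_⟩
  obtain ⟨A, hA⟩ : ∃ A : ℕ, A = Nat.sqrt (X / 128) := ⟨_, rfl⟩
  have h1 : 128 * A ^ 2 ≤ X := by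
    have h2 : A ^ 2 ≤ X / 128 := by
      rw [hA]
      exact Nat.sqrt_le' _
    omega
  have h3 : X < 128 * (A + 1) ^ 2 := by
    have h2 : X / 128 < (A + 1) ^ 2 := by
      rw [hA]
      exact Nat.lt_succ_sqrt' _
    omega
  have h4 : A₀ + 1 ≤ A := by
    rw [hA, Nat.le_sqrt, ← sq, Nat.le_div_iff_mul_le (by norm_num)]
    linarith
  obtain ⟨Z, hZ1, hZ2⟩ := hA₀ A (by omega)
  have hA1 : (1 : ℝ) ≤ A := by exact_mod_cast (by omega : 1 ≤ A)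
  have h5 : (X : ℝ) ≤ 128 * ((A : ℝ) + 1) ^ 2 := by exact_mod_cast h3.le
  have h6 : κ / 512 * X ≤ κ * (A : ℝ) ^ 2 := by
    have h7 : ((A : ℝ) + 1) ^ 2 ≤ 4 * (A : ℝ) ^ 2 := by nlinarith
    have h8 : (X : ℝ) ≤ 512 * (A : ℝ) ^ 2 := by linarith
    have := mul_le_mul_of_nonneg_left h8 hκ.le
    linarith
  refine h6.trans (hZ1.trans (PvS_tc (A := A) (by omega) h1 Z _ (fun z hz => ⟨(hZ2 z hz).1, (hZ2 z hz).2.1⟩) ?_))
  intro z hz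
  obtain ⟨⟨q1, q2, q3⟩, -, ⟨c1, c2⟩, ⟨g1, g2⟩, sq⟩ := hZ2 z hz
  have c2' : Cg (M1 * (k₀ ^ 2 + 3 * k₀ + 1)) z.2 ((k₀ : ℤ), 1) := by
    rw [← hM]
    have e : (((k₀ : ℤ) - 1) + 1, (1 : ℤ)) = (((k₀ : ℤ), (1 : ℤ)) : ℤ × ℤ) := by
      apply Prod.ext <;> simp
    rw [e] at c2
    exact c2
  have hcl : (kk z.1 z.2).toNat ≡ k₀ [MOD M] := by
    have c2'' := c2'
    rw [← hM] at c2''
    exact PvS_cls q1 q2 c1.1 c1.2 c2''.1 c2''.2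
  have hDM : D * (k₀ ^ 2 + 3 * k₀ + 1) ∣ M := by
    rw [hM]
    exact Nat.mul_dvd_mul hDM1 (dvd_refl _)
  refine ⟨hcl.of_dvd hDM, fun l hl hlD hd => ?_, fun i => ?_⟩
  · by_cases hlM : l ∣ M
    · have h8 : (kk z.1 z.2).toNat ≡ k₀ [MOD l] := hcl.of_dvd hlM
      have h9 : (kk z.1 z.2).toNat ^ 2 + 3 * (kk z.1 z.2).toNat + 1 ≡ k₀ ^ 2 + 3 * k₀ + 1 [MOD l] :=
        Nat.ModEq.add_right 1 (Nat.ModEq.add (h8.pow 2) (h8.mul_left 3))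
      have h10 : l ∣ (kk z.1 z.2).toNat ^ 2 + 3 * (kk z.1 z.2).toNat + 1 := (dvd_pow_self l (by norm_num)).trans hd
      exact hlD (((h9.dvd_iff (dvd_refl l)).1 h10).trans hk₀)
    · exact sq l hl hlM hd
  have := hW i
  have hG : ∀ u : ℤ × ℤ, Gb Bd M u → Gb (Bc (g i) (χ i)) M u := fun u hu =>
    ⟨hu.1, fun p hp hpu hb => hu.2 p hp hpu ((hBd p).2 ⟨i, hb⟩)⟩
  have e1 : g i (nm z.1).natAbs = 1 := val1C (hg i) (hom i) ((hWV i).trans hVM) (GA.TA.tp_of_Qd q1) c1 (hG _ g1)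
  have g2' := hG _ g2
  rw [hM] at g2'
  have e2 : g i (nm z.2).natAbs = g i (k₀ ^ 2 + 3 * k₀ + 1) :=
    valkC (hg i) (hom i) ((hWV i).trans hVM1) hfM (GA.TA.tp_of_Qd q2) c2' g2'
  rw [PvS_kk (hg i) q1 q2 q3, e1, e2, one_mul]

end Pool.Agent.Lib.MP_d57abb_nt.GV
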