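import Pool.Agent.Lib.MP_d57abb_nt.GV.RootP

/-!
# Frames for which a norm is divisible by the square of a prime, or both norms by the prime
-/

namespace Pool.Agent.Lib.MP_d57abb_nt.GV

open Finset

attribute [local instance] GT.lab0

private theorem RelA_res {q : ℕ} (hq : 0 < q) (z : ℤ) : ∃ i : ℕ, i < q ∧ (q : ℤ) ∣ z - i := by
  have hqz : (0 : ℤ) < q := by exact_mod_cast hq
  have h1 := Int.emod_nonneg z hqz.ne'
  have h2 := Int.emod_lt_of_pos z hqz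
  refine ⟨(z % q).toNat, by omega, z / q, ?_⟩
  have h3 := Int.emod_add_mul_ediv z (q : ℤ)
  rw [Int.toNat_of_nonneg h1]
  linarith

/-- a condition which implies one of `r` residue classes modulo `L` -/
private theorem RelA_gen {M L : ℕ} (hM : 0 < M) (hL : 0 < L) (hLM : L.Coprime M) : ∃ n0 : ℕ, ∀ n : ℕ, n0 ≤ n →
    n.Coprime (M * L) → ∀ (c : ℤ × ℤ) (Q : ℤ × ℤ → Prop) [DecidablePred Q] (R : Finset (ℕ × ℕ)),
      (∀ x ∈ Hc n M c, Q x → ∃ p ∈ R, (L : ℤ) ∣ x.1 - p.1 ∧ (L : ℤ) ∣ x.2 - p.2) →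
      (((Hc n M c).filter Q).card : ℝ) ≤ 2 * (R.card : ℝ) * n.totient / ((M : ℝ) ^ 2 * (L : ℝ) ^ 2) := by
  have hM0 : (0 : ℝ) < M := by exact_mod_cast hM
  have hLr : (0 : ℝ) < L := by exact_mod_cast hL
  obtain ⟨n0, hn0⟩ := law_up (M * L) (Nat.mul_pos hM hL) 1 one_pos
  refine ⟨n0, fun n hn hc c Q _ R hR => ?_⟩
  have hcop : IsCoprime (M : ℤ) (L : ℤ) := by
    rw [Nat.isCoprime_iff_coprime]
    exact hLM.symm
  have hcls : ∀ p : ℕ × ℕ, (((Hc n M c).filter (fun x => (L : ℤ) ∣ x.1 - p.1 ∧ (L : ℤ) ∣ x.2 - p.2)).card : ℝ) ≤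
      2 * n.totient / ((M * L : ℕ) : ℝ) ^ 2 := by
    intro p
    rcases ((Hc n M c).filter (fun x => (L : ℤ) ∣ x.1 - p.1 ∧ (L : ℤ) ∣ x.2 - p.2)).eq_empty_or_nonempty with h0 | ⟨x0, hx0⟩
    · rw [h0]
      simp only [Finset.card_empty, Nat.cast_zero]
      positivity
    · have h1 := hn0 n hn hc x0
      have e : (1 + 1 : ℝ) * n.totient / ((M * L : ℕ) : ℝ) ^ 2 = 2 * n.totient / ((M * L : ℕ) : ℝ) ^ 2 := by norm_num
      rw [e] at h1
      refine le_trans ?_ h1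
      have hsub : (Hc n M c).filter (fun x => (L : ℤ) ∣ x.1 - p.1 ∧ (L : ℤ) ∣ x.2 - p.2) ⊆ Hc n (M * L) x0 := by
        intro x hx
        obtain ⟨hx1, hx2, hx3⟩ := mem_filter.1 hx
        obtain ⟨hy1, hy2, hy3⟩ := mem_filter.1 hx0
        unfold Hc at hx1 hy1 ⊢
        obtain ⟨hx4, hx5, hx6⟩ := mem_filter.1 hx1
        obtain ⟨-, hy5, hy6⟩ := mem_filter.1 hy1
        refine mem_filter.2 ⟨hx4, ?_, ?_⟩
        · push_cast
          refine hcop.mul_dvd ?_ ?_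
          · have := dvd_sub hx5 hy5
            have e : x.1 - c.1 - (x0.1 - c.1) = x.1 - x0.1 := by ring
            rwa [e] at this
          · have := dvd_sub hx2 hy2
            have e : x.1 - (p.1 : ℤ) - (x0.1 - p.1) = x.1 - x0.1 := by ring
            rwa [e] at this
        · push_cast
          refine hcop.mul_dvd ?_ ?_
          · have := dvd_sub hx6 hy6
            have e : x.2 - c.2 - (x0.2 - c.2) = x.2 - x0.2 := by ring
            rwa [e] at this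
          · have := dvd_sub hx3 hy3
            have e : x.2 - (p.2 : ℤ) - (x0.2 - p.2) = x.2 - x0.2 := by ring
            rwa [e] at this
      exact_mod_cast Finset.card_le_card hsub
  have hcov : (Hc n M c).filter Q ⊆ R.biUnion (fun p => (Hc n M c).filter (fun x => (L : ℤ) ∣ x.1 - p.1 ∧ (L : ℤ) ∣ x.2 - p.2)) := by
    intro x hx
    obtain ⟨hx1, hx2⟩ := mem_filter.1 hx
    obtain ⟨p, hp, hp2⟩ := hR x hx1 hx2
    exact mem_biUnion.2 ⟨p, hp, mem_filter.2 ⟨hx1, hp2⟩⟩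
  have h1 : (((Hc n M c).filter Q).card : ℝ) ≤ ∑ p ∈ R,
      (((Hc n M c).filter (fun x => (L : ℤ) ∣ x.1 - p.1 ∧ (L : ℤ) ∣ x.2 - p.2)).card : ℝ) := by
    have := (Finset.card_le_card hcov).trans Finset.card_biUnion_le
    exact_mod_cast this
  refine h1.trans ((Finset.sum_le_sum fun p _ => hcls p).trans ?_)
  rw [Finset.sum_const, nsmul_eq_mul]
  push_cast
  refine le_of_eq ?_
  field_simp

private theorem RelA_cop {n : ℕ} {x : ℤ × ℤ} (h : (n : ℤ) ∣ x.1 * x.2 + 1) {l : ℕ} (hl : l.Prime) (hln : (l : ℤ) ∣ n)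
    (hlx : (l : ℤ) ∣ x.1) : False := by
  have h1 := dvd_sub (hln.trans h) (Dvd.dvd.mul_right hlx x.2)
  have e : x.1 * x.2 + 1 - x.1 * x.2 = 1 := by ring
  rw [e] at h1
  have h2 : l ∣ 1 := by exact_mod_cast h1
  exact hl.one_lt.ne' (Nat.dvd_one.1 h2)

private theorem RelA_nm (n : ℕ) (x : ℤ × ℤ) : nm (fv n x) = (n : ℤ) ^ 2 + 3 * n * x.1 + x.1 ^ 2 := by
  unfold nm fv
  rfl

private theorem RelA_ln {n : ℕ} {x : ℤ × ℤ} (h : (n : ℤ) ∣ x.1 * x.2 + 1) {l : ℕ} (hl : l.Prime) (hd : (l : ℤ) ∣ nm (fv n x)) :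
    ¬ (l : ℤ) ∣ n := by
  intro hln
  have hlp : Prime (l : ℤ) := Nat.prime_iff_prime_int.1 hl
  rw [RelA_nm] at hd
  have h3 : (l : ℤ) ∣ x.1 ^ 2 := by
    have e : x.1 ^ 2 = (n : ℤ) ^ 2 + 3 * n * x.1 + x.1 ^ 2 - n * (n + 3 * x.1) := by ring
    rw [e]
    exact dvd_sub hd (Dvd.dvd.mul_right hln _)
  exact RelA_cop h hl hln (hlp.dvd_of_dvd_pow h3)

/-- the roots modulo `l ^ s` -/
private theorem RelA_roots {l : ℕ} (hl : l.Prime) {s : ℕ} (hs : s = 2 ∨ (s = 1 ∧ l ≠ 5)) {n : ℤ} (hn : ¬ (l : ℤ) ∣ n) :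
    ((range (l ^ s)).filter (fun j : ℕ => (l : ℤ) ^ s ∣ n ^ 2 + 3 * n * j + (j : ℤ) ^ 2)).card ≤ 2 := by
  have hlp : Prime (l : ℤ) := Nat.prime_iff_prime_int.1 hl
  have hs0 : s ≠ 0 := by rcases hs with h | h <;> omega
  have hns : ∀ x : ℤ, (l : ℤ) ^ s ∣ n ^ 2 + 3 * n * x + x ^ 2 → ¬ (l : ℤ) ∣ 2 * x + 3 * n := by
    intro x hx h
    have h0 : (l : ℤ) ∣ n ^ 2 + 3 * n * x + x ^ 2 := (dvd_pow_self _ hs0).trans hx
    have h3 : (l : ℤ) ∣ 5 * n ^ 2 := by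
      have := dvd_sub (Dvd.dvd.mul_left h (2 * x + 3 * n)) (Dvd.dvd.mul_left h0 4)
      have e : (2 * x + 3 * n) * (2 * x + 3 * n) - 4 * (n ^ 2 + 3 * n * x + x ^ 2) = 5 * n ^ 2 := by ring
      rwa [e] at this
    rcases hlp.dvd_or_dvd h3 with h4 | h4
    · have h5 : l ∣ 5 := by exact_mod_cast h4
      have h6 : l = 5 := (Nat.prime_dvd_prime_iff_eq hl (by norm_num)).1 h5
      rcases hs with hs | hs
      · subst hs
        have h1 : (l : ℤ) ^ 2 ∣ (2 * x + 3 * n) ^ 2 := pow_dvd_pow_of_dvd h 2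
        have h2 : (l : ℤ) ^ 2 ∣ 5 * n ^ 2 := by
          have := dvd_sub h1 (Dvd.dvd.mul_left hx 4)
          have e : (2 * x + 3 * n) ^ 2 - 4 * (n ^ 2 + 3 * n * x + x ^ 2) = 5 * n ^ 2 := by ring
          rwa [e] at this
        rw [h6] at h2
        obtain ⟨c, hc⟩ := h2
        push_cast at hc
        refine hn (hlp.dvd_of_dvd_pow (n := 2) ?_)
        rw [h6]
        exact ⟨c, by push_cast; linarith⟩
      · exact hs.2 h6
    · exact hn (hlp.dvd_of_dvd_pow h4)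
  by_contra hcon
  push Not at hcon
  obtain ⟨a, ha, b, hb, c, hc, hab, hac, hbc⟩ := Finset.two_lt_card.1 hcon
  rw [mem_filter, mem_range] at ha hb hc
  have hne : ∀ x y : ℕ, x < l ^ s → y < l ^ s → x ≠ y → ¬ (l : ℤ) ^ s ∣ (x : ℤ) - y := by
    intro x y hx hy hxy hd
    have hx' : (x : ℤ) < (l : ℤ) ^ s := by exact_mod_cast hx
    have hy' : (y : ℤ) < (l : ℤ) ^ s := by exact_mod_cast hy
    have h1 : (x : ℤ) - y = 0 := by
      refine Int.eq_zero_of_abs_lt_dvd hd ?_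
      rw [abs_lt]
      constructor <;> omega
    omega
  have key : ∀ x y : ℕ, x < l ^ s → y < l ^ s → x ≠ y → (l : ℤ) ^ s ∣ n ^ 2 + 3 * n * x + (x : ℤ) ^ 2 →
      (l : ℤ) ^ s ∣ n ^ 2 + 3 * n * y + (y : ℤ) ^ 2 → (l : ℤ) ^ s ∣ (x : ℤ) + y + 3 * n := by
    intro x y hx hy hxy h1 h2
    have h3 := dvd_sub h1 h2
    have e : n ^ 2 + 3 * n * x + (x : ℤ) ^ 2 - (n ^ 2 + 3 * n * y + (y : ℤ) ^ 2) = ((x : ℤ) - y) * ((x : ℤ) + y + 3 * n) := by ring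
    rw [e] at h3
    by_cases h4 : (l : ℤ) ∣ (x : ℤ) + y + 3 * n
    · have h5 : ¬ (l : ℤ) ∣ (x : ℤ) - y := by
        intro h5
        apply hns x h1
        have := dvd_add h4 h5
        have e : (x : ℤ) + y + 3 * n + (x - y) = 2 * x + 3 * n := by ring
        rwa [e] at this
      have h6 : IsCoprime ((l : ℤ) ^ s) ((x : ℤ) - y) := ((hlp.irreducible.coprime_iff_not_dvd).2 h5).pow_left
      exact h6.dvd_of_dvd_mul_left h3
    · exfalso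
      have h6 : IsCoprime ((l : ℤ) ^ s) ((x : ℤ) + y + 3 * n) := ((hlp.irreducible.coprime_iff_not_dvd).2 h4).pow_left
      exact hne x y hx hy hxy (h6.dvd_of_dvd_mul_right h3)
  have h1 := key a b ha.1 hb.1 hab ha.2 hb.2
  have h2 := key a c ha.1 hc.1 hac ha.2 hc.2
  have h3 := dvd_sub h1 h2
  have e : (a : ℤ) + b + 3 * n - ((a : ℤ) + c + 3 * n) = (b : ℤ) - c := by ring
  rw [e] at h3
  exact hne b c hb.1 hc.1 hbc h3

private theorem RelA_mod {l : ℤ} {n x x' : ℤ} (h : l ∣ x - x') (h' : l ∣ n ^ 2 + 3 * n * x + x ^ 2) :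
    l ∣ n ^ 2 + 3 * n * x' + x' ^ 2 := by
  have e : n ^ 2 + 3 * n * x' + x' ^ 2 = n ^ 2 + 3 * n * x + x ^ 2 - (x - x') * (x + x' + 3 * n) := by ring
  rw [e]
  exact dvd_sub h' (Dvd.dvd.mul_right h _)

open Classical in
theorem cnt_v2 {M l : ℕ} (hM : 0 < M) (hl : l.Prime) (hlM : ¬ l ∣ M) : ∃ n0 : ℕ, ∀ n : ℕ, n0 ≤ n → n.Coprime M →
    ∀ c : ℤ × ℤ, (((Hc n M c).filter (fun x => (l : ℤ) ^ 2 ∣ nm (fv n x))).card : ℝ) ≤
      8 * n.totient / ((M : ℝ) ^ 2 * (l : ℝ) ^ 2) := by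
  have hl0 := hl.pos
  have hM0 : (0 : ℝ) < M := by exact_mod_cast hM
  have hlr : (0 : ℝ) < l := by exact_mod_cast hl0
  obtain ⟨n0, hn0⟩ := RelA_gen (M := M) (L := l ^ 2) hM (Nat.pow_pos hl0)
    (((Nat.Prime.coprime_iff_not_dvd hl).2 hlM).pow_left 2)
  refine ⟨n0, fun n hn hc c => ?_⟩
  by_cases hln : l ∣ n
  · have h0 : (Hc n M c).filter (fun x => (l : ℤ) ^ 2 ∣ nm (fv n x)) = ∅ := by
      refine filter_eq_empty_iff.2 fun x hx h => ?_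
      unfold Hc at hx
      exact RelA_ln (mem_HH.1 (mem_filter.1 hx).1).2 hl ((dvd_pow_self _ (by norm_num)).trans h) (by exact_mod_cast hln)
    rw [h0, card_empty, Nat.cast_zero]
    positivity
  have hlnz : ¬ (l : ℤ) ∣ (n : ℤ) := fun h => hln (by exact_mod_cast h)
  have hcop : n.Coprime (M * l ^ 2) :=
    Nat.Coprime.mul_right hc (Nat.Coprime.pow_right 2 ((Nat.Prime.coprime_iff_not_dvd hl).2 hln).symm)
  have h1 := hn0 n hn hcop c (fun x => (l : ℤ) ^ 2 ∣ nm (fv n x))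
    (((range (l ^ 2)).filter (fun j : ℕ => (l : ℤ) ^ 2 ∣ (n : ℤ) ^ 2 + 3 * n * j + (j : ℤ) ^ 2)) ×ˢ range (l ^ 2))
    (fun x hx h => by
      obtain ⟨i, hi, hi2⟩ := RelA_res (Nat.pow_pos (n := 2) hl0) x.1
      obtain ⟨j, hj, hj2⟩ := RelA_res (Nat.pow_pos (n := 2) hl0) x.2
      refine ⟨(i, j), mem_product.2 ⟨mem_filter.2 ⟨mem_range.2 hi, ?_⟩, mem_range.2 hj⟩, hi2, hj2⟩
      rw [RelA_nm] at h
      push_cast at hi2
      exact RelA_mod hi2 h)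
  refine h1.trans ?_
  rw [card_product, card_range]
  have h2 : (((range (l ^ 2)).filter (fun j : ℕ => (l : ℤ) ^ 2 ∣ (n : ℤ) ^ 2 + 3 * n * j + (j : ℤ) ^ 2)).card : ℝ) ≤ 2 := by
    exact_mod_cast RelA_roots hl (Or.inl rfl) hlnz
  push_cast
  rw [div_le_div_iff₀ (by positivity) (by positivity)]
  have h3 : (0 : ℝ) ≤ (l : ℝ) ^ 2 * n.totient * ((M : ℝ) ^ 2 * (l : ℝ) ^ 2) := by positivity
  have h4 := mul_le_mul_of_nonneg_right h2 h3
  nlinarith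

open Classical in
theorem cnt_vw {M l : ℕ} (hM : 0 < M) (hl : l.Prime) (hlM : ¬ l ∣ M) (hl5 : l ≠ 5) : ∃ n0 : ℕ, ∀ n : ℕ, n0 ≤ n → n.Coprime M →
    ∀ c : ℤ × ℤ, (((Hc n M c).filter (fun x => (l : ℤ) ∣ nm (fv n x) ∧ (l : ℤ) ∣ nm (fw n x))).card : ℝ) ≤
      8 * n.totient / ((M : ℝ) ^ 2 * (l : ℝ) ^ 2) := by
  have hl0 := hl.pos
  have hlp : Prime (l : ℤ) := Nat.prime_iff_prime_int.1 hl
  have hM0 : (0 : ℝ) < M := by exact_mod_cast hM
  have hlr : (0 : ℝ) < l := by exact_mod_cast hl0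
  obtain ⟨n0, hn0⟩ := RelA_gen (M := M) (L := l) hM hl0 ((Nat.Prime.coprime_iff_not_dvd hl).2 hlM)
  refine ⟨n0, fun n hn hc c => ?_⟩
  by_cases hln : l ∣ n
  · have h0 : (Hc n M c).filter (fun x => (l : ℤ) ∣ nm (fv n x) ∧ (l : ℤ) ∣ nm (fw n x)) = ∅ := by
      refine filter_eq_empty_iff.2 fun x hx h => ?_
      unfold Hc at hx
      exact RelA_ln (mem_HH.1 (mem_filter.1 hx).1).2 hl h.1 (by exact_mod_cast hln)
    rw [h0, card_empty, Nat.cast_zero]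
    positivity
  have hlnz : ¬ (l : ℤ) ∣ (n : ℤ) := fun h => hln (by exact_mod_cast h)
  have hcop : n.Coprime (M * l) := Nat.Coprime.mul_right hc ((Nat.Prime.coprime_iff_not_dvd hl).2 hln).symm
  -- the polynomial for the second norm
  have hw : ∀ x : ℤ × ℤ, (n : ℤ) ∣ x.1 * x.2 + 1 → (l : ℤ) ∣ nm (fv n x) → (l : ℤ) ∣ nm (fw n x) →
      (l : ℤ) ∣ (x.2 + n) * (3 * n + 2 * x.1) + 1 := by
    intro x h h1 h2
    have h3 : (n : ℤ) * ((x.1 * x.2 + 1) / n) = x.1 * x.2 + 1 := Int.mul_ediv_cancel' h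
    rw [RelA_nm] at h1
    have h4 : (l : ℤ) ∣ (n : ℤ) ^ 2 * nm (fw n x) := Dvd.dvd.mul_left h2 _
    have e : (n : ℤ) ^ 2 * nm (fw n x) = (x.2 + n) ^ 2 * ((n : ℤ) ^ 2 + 3 * n * x.1 + x.1 ^ 2) +
        ((x.2 + n) * (3 * n + 2 * x.1) + 1) := by
      unfold nm fw
      generalize (x.1 * x.2 + 1) / (n : ℤ) = t at h3
      show (n : ℤ) ^ 2 * ((x.2 + n) ^ 2 + 3 * (x.2 + n) * (t + x.1) + (t + x.1) ^ 2) = _
      have e1 : (n : ℤ) * (t + x.1) = x.1 * (x.2 + n) + 1 := by linear_combination h3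
      have e2 : (n : ℤ) ^ 2 * ((x.2 + n) ^ 2 + 3 * (x.2 + n) * (t + x.1) + (t + x.1) ^ 2) =
          (n * (x.2 + n)) ^ 2 + 3 * (n * (x.2 + n)) * (n * (t + x.1)) + (n * (t + x.1)) ^ 2 := by ring
      rw [e2, e1]
      ring
    rw [e] at h4
    have h5 := dvd_sub h4 (Dvd.dvd.mul_left h1 ((x.2 + n) ^ 2))
    have e2 : (x.2 + n) ^ 2 * ((n : ℤ) ^ 2 + 3 * n * x.1 + x.1 ^ 2) + ((x.2 + n) * (3 * n + 2 * x.1) + 1) -
        (x.2 + n) ^ 2 * ((n : ℤ) ^ 2 + 3 * n * x.1 + x.1 ^ 2) = (x.2 + n) * (3 * n + 2 * x.1) + 1 := by ring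
    rwa [e2] at h5
  obtain ⟨F, hF⟩ : ∃ F : Finset ℕ, F = (range l).filter (fun i : ℕ => (l : ℤ) ∣ (n : ℤ) ^ 2 + 3 * n * i + (i : ℤ) ^ 2) :=
    ⟨_, rfl⟩
  have hFc : F.card ≤ 2 := by
    have h1 := RelA_roots hl (s := 1) (Or.inr ⟨rfl, hl5⟩) hlnz
    simp only [pow_one] at h1
    rw [hF]
    exact h1
  obtain ⟨R, hR⟩ : ∃ R : Finset (ℕ × ℕ), R = (F ×ˢ range l).filter (fun p : ℕ × ℕ =>
    (l : ℤ) ∣ ((p.2 : ℤ) + n) * (3 * n + 2 * p.1) + 1) := ⟨_, rfl⟩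
  have hRc : R.card ≤ 2 := by
    refine le_trans ?_ hFc
    refine Finset.card_le_card_of_injOn (fun p => p.1) ?_ ?_
    · intro p hp
      rw [mem_coe, hR] at hp
      exact mem_coe.2 (mem_product.1 (mem_filter.1 hp).1).1
    · intro p hp p' hp' he
      rw [mem_coe, hR] at hp hp'
      obtain ⟨a1, a2⟩ := mem_filter.1 hp
      obtain ⟨b1, b2⟩ := mem_filter.1 hp'
      obtain ⟨a3, a4⟩ := mem_product.1 a1
      obtain ⟨b3, b4⟩ := mem_product.1 b1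
      rw [mem_range] at a4 b4
      have he' : p.1 = p'.1 := he
      have h1 := dvd_sub a2 b2
      rw [← he'] at h1
      have e : ((p.2 : ℤ) + n) * (3 * n + 2 * p.1) + 1 - (((p'.2 : ℤ) + n) * (3 * n + 2 * p.1) + 1) =
          ((p.2 : ℤ) - p'.2) * (3 * n + 2 * p.1) := by ring
      rw [e] at h1
      have h2 : ¬ (l : ℤ) ∣ 3 * n + 2 * p.1 := by
        intro h2
        have h3 := dvd_sub a2 (Dvd.dvd.mul_left h2 ((p.2 : ℤ) + n))
        have e : ((p.2 : ℤ) + n) * (3 * n + 2 * p.1) + 1 - ((p.2 : ℤ) + n) * (3 * n + 2 * p.1) = 1 := by ring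
        rw [e] at h3
        have h4 : l ∣ 1 := by exact_mod_cast h3
        exact hl.one_lt.ne' (Nat.dvd_one.1 h4)
      have h3 := (hlp.dvd_or_dvd h1).resolve_right h2
      have h4 : (p.2 : ℤ) - p'.2 = 0 := by
        refine Int.eq_zero_of_abs_lt_dvd h3 ?_
        rw [abs_lt]
        constructor <;> omega
      exact Prod.ext he' (by omega)
  have h1 := hn0 n hn hcop c (fun x => (l : ℤ) ∣ nm (fv n x) ∧ (l : ℤ) ∣ nm (fw n x)) R (fun x hx h => by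
    obtain ⟨i, hi, hi2⟩ := RelA_res hl0 x.1
    obtain ⟨j, hj, hj2⟩ := RelA_res hl0 x.2
    unfold Hc at hx
    have h5 := hw x (mem_HH.1 (mem_filter.1 hx).1).2 h.1 h.2
    refine ⟨(i, j), ?_, hi2, hj2⟩
    rw [hR, hF]
    have h6 := h.1
    rw [RelA_nm] at h6
    refine mem_filter.2 ⟨mem_product.2 ⟨mem_filter.2 ⟨mem_range.2 hi, RelA_mod hi2 h6⟩, mem_range.2 hj⟩, ?_⟩
    show (l : ℤ) ∣ ((j : ℤ) + n) * (3 * n + 2 * i) + 1
    have e : ((j : ℤ) + n) * (3 * n + 2 * i) + 1 = (x.2 + n) * (3 * n + 2 * x.1) + 1 - ((x.2 - j) * (3 * n + 2 * i) +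
        (x.1 - i) * (2 * (x.2 + n))) := by ring
    rw [e]
    exact dvd_sub h5 (dvd_add (Dvd.dvd.mul_right hj2 _) (Dvd.dvd.mul_right hi2 _)))
  refine h1.trans ?_
  have h2 : (R.card : ℝ) ≤ 2 := by exact_mod_cast hRc
  rw [div_le_div_iff₀ (by positivity) (by positivity)]
  have h3 : (0 : ℝ) ≤ (n.totient : ℝ) * ((M : ℝ) ^ 2 * (l : ℝ) ^ 2) := by positivity
  have h4 := mul_le_mul_of_nonneg_right h2 h3
  nlinarith

end Pool.Agent.Lib.MP_d57abb_nt.GV
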