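import Pool.Agent.Lib.MP_d57abb_nt.GV.SqDefs

/-!
# The numbers with prime factors `5` or `1, 4` modulo `5`
-/

namespace Pool.Agent.Lib.MP_d57abb_nt.GV

open Finset

/-- the quadratic character modulo `5` -/
private def SqA_chi (n : ℕ) : ℤ := if n % 5 = 1 ∨ n % 5 = 4 then 1 else if n % 5 = 0 then 0 else -1

private theorem SqA_chi_mul (m n : ℕ) : SqA_chi (m * n) = SqA_chi m * SqA_chi n := by
  unfold SqA_chi
  rw [Nat.mul_mod]
  have hm : m % 5 < 5 := Nat.mod_lt _ (by norm_num)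
  have hn : n % 5 < 5 := Nat.mod_lt _ (by norm_num)
  generalize m % 5 = a at *
  generalize n % 5 = b at *
  interval_cases a <;> interval_cases b <;> simp

private theorem SqA_chi_cases (n : ℕ) : SqA_chi n = 1 ∨ SqA_chi n = 0 ∨ SqA_chi n = -1 := by
  unfold SqA_chi
  split_ifs
  · exact Or.inl rfl
  · exact Or.inr (Or.inl rfl)
  · exact Or.inr (Or.inr rfl)

private theorem SqA_chi_pow (n k : ℕ) : SqA_chi (n ^ k) = SqA_chi n ^ k := by
  induction k with
  | zero => rw [pow_zero, pow_zero]; rfl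
  | succ k ih => rw [pow_succ, pow_succ, SqA_chi_mul, ih]

private def SqA_X : ArithmeticFunction ℤ := ⟨SqA_chi, rfl⟩

private def SqA_r : ArithmeticFunction ℤ := (ArithmeticFunction.zeta : ArithmeticFunction ℤ) * SqA_X

private theorem SqA_r_apply (n : ℕ) : SqA_r n = ∑ d ∈ n.divisors, SqA_chi d :=
  ArithmeticFunction.coe_zeta_mul_apply

private theorem SqA_X_mul : SqA_X.IsMultiplicative :=
  ⟨rfl, fun {m n} _ => SqA_chi_mul m n⟩

private theorem SqA_r_mul : SqA_r.IsMultiplicative :=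
  ArithmeticFunction.isMultiplicative_zeta.natCast.mul SqA_X_mul

private theorem SqA_r_nonneg (n : ℕ) : 0 ≤ ∑ d ∈ n.divisors, SqA_chi d := by
  rw [← SqA_r_apply]
  by_cases hn : n = 0
  · rw [hn, ArithmeticFunction.map_zero]
  · rw [SqA_r_mul.multiplicative_factorization _ hn]
    refine Finset.prod_nonneg fun p hp => ?_
    have hpp : p.Prime := Nat.prime_of_mem_primeFactors hp
    show 0 ≤ SqA_r (p ^ n.factorization p)
    rw [SqA_r_apply, Nat.divisors_prime_pow hpp, Finset.sum_map]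
    show 0 ≤ ∑ i ∈ range (n.factorization p + 1), SqA_chi (p ^ i)
    simp only [SqA_chi_pow]
    rcases SqA_chi_cases p with h | h | h
    · rw [h]
      exact Finset.sum_nonneg fun i _ => by rw [one_pow]; exact zero_le_one
    · rw [h]
      exact Finset.sum_nonneg fun i _ => pow_nonneg le_rfl _
    · rw [h, neg_one_geom_sum]
      split_ifs
      · exact le_rfl
      · exact zero_le_one

private theorem SqA_A (z : ℕ) : ∑ d ∈ Ioc 0 z, SqA_chi d =
    if z % 5 = 1 then 1 else if z % 5 = 3 then -1 else 0 := by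
  induction z with
  | zero => rfl
  | succ z ih =>
    rw [← Finset.insert_Ioc_right_eq_Ioc_add_one (Nat.zero_le z), Finset.sum_insert (by simp), ih]
    unfold SqA_chi
    split_ifs <;> omega

private theorem SqA_A_le (z : ℕ) : ((∑ d ∈ Ioc 0 z, SqA_chi d : ℤ) : ℝ) ≤ 1 := by
  rw [SqA_A]
  split_ifs <;> norm_num

private theorem SqA_abel (f : ℕ → ℝ) (h0 : ∀ n, 0 ≤ f n) (hf : ∀ n, 1 ≤ n → f (n + 1) ≤ f n) (z : ℕ)
    (hz : 1 ≤ z) : ∑ d ∈ Ioc 0 z, (SqA_chi d : ℝ) * f d ≤ f 1 := by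
  have key : ∀ z : ℕ, 1 ≤ z → ∑ d ∈ Ioc 0 z, (SqA_chi d : ℝ) * f d ≤
      f 1 - (1 - ((∑ d ∈ Ioc 0 z, SqA_chi d : ℤ) : ℝ)) * f z := by
    intro z hz
    induction z, hz using Nat.le_induction with
    | base =>
      have h1 : Ioc 0 1 = {1} := rfl
      have h2 : SqA_chi 1 = 1 := rfl
      rw [h1, Finset.sum_singleton, Finset.sum_singleton, h2]
      norm_num
    | succ z hz ih =>
      rw [← Finset.insert_Ioc_right_eq_Ioc_add_one (Nat.zero_le z), Finset.sum_insert (by simp),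
        Finset.sum_insert (by simp), Int.cast_add]
      have h1 := SqA_A_le z
      have h2 := hf z hz
      nlinarith [mul_le_mul_of_nonneg_left h2 (sub_nonneg.2 h1)]
  have h1 := key z hz
  have h2 := SqA_A_le z
  nlinarith [mul_nonneg (sub_nonneg.2 h2) (h0 z)]

private theorem SqA_H (z : ℕ) : ∑ k ∈ Ioc 0 z, 1 / (k : ℝ) ≤ 1 + Real.log z := by
  have h := harmonic_le_one_add_log z
  have h1 : ((harmonic z : ℚ) : ℝ) = ∑ k ∈ Ioc 0 z, 1 / (k : ℝ) := by
    rw [harmonic_eq_sum_Icc, Rat.cast_sum]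
    have h2 : Icc 1 z = Ioc 0 z := rfl
    rw [h2]
    refine Finset.sum_congr rfl fun k _ => ?_
    rw [Rat.cast_inv, Rat.cast_natCast, one_div]
  rwa [h1] at h

private theorem SqA_main (z : ℕ) (hz : 1 ≤ z) :
    ∑ n ∈ Ioc 0 z, ((∑ d ∈ n.divisors, SqA_chi d : ℤ) : ℝ) / n ≤ 1 + Real.log z := by
  let F : ArithmeticFunction ℝ := ⟨fun d => (SqA_chi d : ℝ) / d, by simp⟩
  let G : ArithmeticFunction ℝ := ⟨fun d => 1 / (d : ℝ), by simp⟩
  have h1 : ∀ n ∈ Ioc 0 z, ((∑ d ∈ n.divisors, SqA_chi d : ℤ) : ℝ) / n = (F * G) n := by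
    intro n hn
    have hn0 : n ≠ 0 := (Finset.mem_Ioc.1 hn).1.ne'
    rw [ArithmeticFunction.mul_apply, Nat.sum_divisorsAntidiagonal (fun a b => F a * G b), Int.cast_sum, Finset.sum_div]
    refine Finset.sum_congr rfl fun d hd => ?_
    have hd1 : d ∣ n := Nat.dvd_of_mem_divisors hd
    obtain ⟨e, rfl⟩ := hd1
    have hd0 : d ≠ 0 := fun h => hn0 (by rw [h, zero_mul])
    have he0 : e ≠ 0 := fun h => hn0 (by rw [h, mul_zero])
    show (SqA_chi d : ℝ) / ((d * e : ℕ) : ℝ) = (SqA_chi d : ℝ) / d * (1 / ((d * e / d : ℕ) : ℝ))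
    rw [Nat.mul_div_cancel_left _ (Nat.pos_of_ne_zero hd0), Nat.cast_mul]
    have hd2 : (d : ℝ) ≠ 0 := Nat.cast_ne_zero.2 hd0
    have he2 : (e : ℝ) ≠ 0 := Nat.cast_ne_zero.2 he0
    field_simp
  rw [Finset.sum_congr rfl h1, ArithmeticFunction.sum_Ioc_mul_eq_sum_sum]
  have h2 : ∀ d ∈ Ioc 0 z, F d * ∑ m ∈ Ioc 0 (z / d), G m =
      (SqA_chi d : ℝ) * ((∑ m ∈ Ioc 0 (z / d), 1 / (m : ℝ)) / d) := by
    intro d _
    show (SqA_chi d : ℝ) / d * ∑ m ∈ Ioc 0 (z / d), 1 / (m : ℝ) = _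
    ring
  rw [Finset.sum_congr rfl h2]
  refine (SqA_abel (fun d => (∑ m ∈ Ioc 0 (z / d), 1 / (m : ℝ)) / d) ?_ ?_ z hz).trans ?_
  · intro n
    positivity
  · intro n hn
    have hn1 : (0 : ℝ) < n := by exact_mod_cast hn
    refine div_le_div₀ (by positivity) ?_ hn1 (by push_cast; linarith)
    refine Finset.sum_le_sum_of_subset_of_nonneg ?_ fun _ _ _ => by positivity
    exact Finset.Ioc_subset_Ioc_right (Nat.div_le_div_left (Nat.le_succ n) hn)
  · show (∑ m ∈ Ioc 0 (z / 1), 1 / (m : ℝ)) / ((1 : ℕ) : ℝ) ≤ 1 + Real.log z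
    rw [Nat.div_one, Nat.cast_one, div_one]
    exact SqA_H z

private theorem SqA_dvd {m d : ℕ} (hm : Sp m) (hd : d ∣ m) : Sp d :=
  ⟨Nat.pos_of_dvd_of_pos hd hm.1, fun p hp hpd => hm.2 p hp (hpd.trans hd)⟩

private theorem SqA_mul {a b : ℕ} (ha : Sp a) (hb : Sp b) : Sp (a * b) :=
  ⟨Nat.mul_pos ha.1 hb.1, fun p hp hpd => by
    rcases (Nat.Prime.dvd_mul hp).1 hpd with h | h
    · exact ha.2 p hp h
    · exact hb.2 p hp h⟩

private theorem SqA_chi_one {n : ℕ} (hn : Sp n) (h5 : ¬ 5 ∣ n) (d : ℕ) : d ∣ n → SqA_chi d = 1 := by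
  induction d using Nat.recOnMul with
  | zero =>
    intro h
    exact absurd (Nat.eq_zero_of_zero_dvd h) hn.1.ne'
  | one =>
    intro _
    rfl
  | prime p hp =>
    intro h
    rcases hn.2 p hp h with h1 | h1 | h1
    · rw [h1] at h
      exact absurd h h5
    · unfold SqA_chi
      rw [if_pos (Or.inl h1)]
    · unfold SqA_chi
      rw [if_pos (Or.inr h1)]
  | mul a b ha hb =>
    intro h
    rw [SqA_chi_mul, ha ((Dvd.intro _ rfl).trans h), hb ((Dvd.intro_left _ rfl).trans h), one_mul]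

open Classical in
private theorem SqA_sq (N : ℕ) (hN : 1 ≤ N) :
    (∑ m ∈ (Icc 1 N).filter (fun m => Sp m ∧ ¬ 5 ∣ m), 1 / (m : ℝ)) ^ 2 ≤ 1 + 2 * Real.log N := by
  set S := (Icc 1 N).filter (fun m => Sp m ∧ ¬ 5 ∣ m) with hS
  have hmaps : ∀ x ∈ S ×ˢ S, x.1 * x.2 ∈ Ioc 0 (N ^ 2) := by
    intro x hx
    rw [Finset.mem_product, hS, Finset.mem_filter, Finset.mem_filter, Finset.mem_Icc, Finset.mem_Icc] at hx
    rw [Finset.mem_Ioc, sq]
    exact ⟨Nat.mul_pos hx.1.2.1.1 hx.2.2.1.1, Nat.mul_le_mul hx.1.1.2 hx.2.1.2⟩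
  rw [sq, Finset.sum_mul_sum, ← Finset.sum_product', ← Finset.sum_fiberwise_of_maps_to hmaps]
  have h1 : ∀ n ∈ Ioc 0 (N ^ 2), ∑ x ∈ (S ×ˢ S) with x.1 * x.2 = n, 1 / (x.1 : ℝ) * (1 / (x.2 : ℝ)) ≤
      ((∑ d ∈ n.divisors, SqA_chi d : ℤ) : ℝ) / n := by
    intro n hn
    have hn0 : 0 < n := (Finset.mem_Ioc.1 hn).1
    have h2 : ∑ x ∈ (S ×ˢ S) with x.1 * x.2 = n, 1 / (x.1 : ℝ) * (1 / (x.2 : ℝ)) =
        (((S ×ˢ S).filter (fun x => x.1 * x.2 = n)).card : ℝ) / n := by
      rw [div_eq_mul_one_div, ← nsmul_eq_mul, ← Finset.sum_const]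
      refine Finset.sum_congr rfl fun x hx => ?_
      rw [← (Finset.mem_filter.1 hx).2, Nat.cast_mul, one_div_mul_one_div]
    rw [h2]
    refine div_le_div_of_nonneg_right ?_ (Nat.cast_nonneg n)
    rcases Finset.eq_empty_or_nonempty ((S ×ˢ S).filter (fun x => x.1 * x.2 = n)) with h3 | ⟨x, hx⟩
    · rw [h3, Finset.card_empty, Nat.cast_zero]
      exact_mod_cast SqA_r_nonneg n
    · have hx1 := Finset.mem_filter.1 hx
      have hx2 := hx1.1
      rw [Finset.mem_product, hS, Finset.mem_filter, Finset.mem_filter] at hx2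
      have hSn : Sp n := hx1.2 ▸ SqA_mul hx2.1.2.1 hx2.2.2.1
      have h5 : ¬ 5 ∣ n := by
        rw [← hx1.2, Nat.Prime.dvd_mul Nat.prime_five]
        rintro (h | h)
        · exact hx2.1.2.2 h
        · exact hx2.2.2.2 h
      have h4 : ∑ d ∈ n.divisors, SqA_chi d = (n.divisors.card : ℤ) := by
        rw [Finset.sum_congr rfl fun d hd => SqA_chi_one hSn h5 d (Nat.dvd_of_mem_divisors hd), Finset.sum_const,
          nsmul_eq_mul, mul_one]
      rw [h4]
      have h6 : ((S ×ˢ S).filter (fun x => x.1 * x.2 = n)).card ≤ n.divisors.card := by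
        refine Finset.card_le_card_of_injOn (fun x => x.1) ?_ ?_
        · intro y hy
          rw [Finset.mem_coe, Finset.mem_filter] at hy
          rw [Finset.mem_coe, Nat.mem_divisors]
          exact ⟨Dvd.intro _ hy.2, hn0.ne'⟩
        · intro y hy z hz hyz
          rw [Finset.mem_coe, Finset.mem_filter] at hy hz
          have hyz' : y.1 = z.1 := hyz
          have h7 : y.1 * y.2 = y.1 * z.2 := by rw [hy.2, hyz', hz.2]
          have h8 : 0 < y.1 := Nat.pos_of_ne_zero fun h => hn0.ne' (by rw [← hy.2, h, zero_mul])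
          exact Prod.ext hyz' (Nat.eq_of_mul_eq_mul_left h8 h7)
      exact_mod_cast h6
  refine (Finset.sum_le_sum h1).trans ?_
  refine (SqA_main (N ^ 2) (Nat.one_le_pow _ _ hN)).trans ?_
  rw [Nat.cast_pow, Real.log_pow]
  norm_num

open Classical in
private theorem SqA_five (N : ℕ) : ∑ m ∈ (Icc 1 N).filter Sp, 1 / (m : ℝ) ≤
    5 / 4 * ∑ m ∈ (Icc 1 N).filter (fun m => Sp m ∧ ¬ 5 ∣ m), 1 / (m : ℝ) := by
  have h1 := Finset.sum_filter_add_sum_filter_not ((Icc 1 N).filter Sp) (fun m => ¬ 5 ∣ m) (fun m => 1 / (m : ℝ))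
  rw [Finset.filter_filter] at h1
  have h2 : ∑ m ∈ ((Icc 1 N).filter Sp).filter (fun m => ¬ ¬ 5 ∣ m), 1 / (m : ℝ) ≤
      1 / 5 * ∑ m ∈ (Icc 1 N).filter Sp, 1 / (m : ℝ) := by
    have h3 : ((Icc 1 N).filter Sp).filter (fun m => ¬ ¬ 5 ∣ m) ⊆
        ((Icc 1 N).filter Sp).image (fun k => 5 * k) := by
      intro m hm
      rw [Finset.mem_filter, Finset.mem_filter, Finset.mem_Icc, not_not] at hm
      obtain ⟨⟨⟨hm1, hm2⟩, hm3⟩, k, rfl⟩ := hm
      rw [Finset.mem_image]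
      refine ⟨k, Finset.mem_filter.2 ⟨Finset.mem_Icc.2 ⟨by omega, by omega⟩, SqA_dvd hm3 (Dvd.intro_left _ rfl)⟩, rfl⟩
    refine (Finset.sum_le_sum_of_subset_of_nonneg h3 fun _ _ _ => by positivity).trans ?_
    rw [Finset.sum_image (fun a _ b _ hab => by have : 5 * a = 5 * b := hab; omega), Finset.mul_sum]
    refine Finset.sum_le_sum fun k _ => ?_
    rw [Nat.cast_mul, one_div_mul_one_div]
    norm_num
  linarith

open Classical in
theorem Sp_log : ∃ C : ℝ, 0 < C ∧ ∀ N : ℕ, 1 ≤ N → ∑ m ∈ (Icc 1 N).filter Sp, 1 / (m : ℝ) ≤ C * √(Real.log (2 * N)) := by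
  refine ⟨2, two_pos, fun N hN => ?_⟩
  have h1 := SqA_five N
  have h2 := SqA_sq N hN
  set T := ∑ m ∈ (Icc 1 N).filter (fun m => Sp m ∧ ¬ 5 ∣ m), 1 / (m : ℝ) with hT
  have hT0 : 0 ≤ T := Finset.sum_nonneg fun _ _ => by positivity
  have hN1 : (1 : ℝ) ≤ N := by exact_mod_cast hN
  have hlN : 0 ≤ Real.log N := Real.log_nonneg hN1
  have hl : Real.log (2 * N) = Real.log 2 + Real.log N := Real.log_mul two_ne_zero (by positivity)
  have hl2 : 0.6931 < Real.log 2 := by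
    have := Real.log_two_gt_d9
    linarith
  have hL0 : 0 ≤ Real.log (2 * N) := by rw [hl]; linarith
  have h3 : 5 / 4 * T ≤ 2 * √(Real.log (2 * N)) := by
    have h4 : (5 / 4 * T) ^ 2 ≤ (2 * √(Real.log (2 * N))) ^ 2 := by
      rw [mul_pow, mul_pow, Real.sq_sqrt hL0, hl]
      nlinarith
    exact le_of_sq_le_sq h4 (by positivity)
  exact h1.trans h3

open Classical in
theorem Sp_card : ∃ C : ℝ, 0 < C ∧ ∀ N : ℕ, 1 ≤ N → (((Icc 1 N).filter Sp).card : ℝ) ≤ C * N / √(Real.log (2 * N)) := by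
  obtain ⟨C, hC, hCN⟩ := Sp_log
  refine ⟨(Real.log 4 + 5) * C + 1, by positivity, fun N hN => ?_⟩
  have hN1 : (1 : ℝ) ≤ N := by exact_mod_cast hN
  have hlN : 0 ≤ Real.log N := Real.log_nonneg hN1
  have hl : Real.log (2 * N) = Real.log 2 + Real.log N := Real.log_mul two_ne_zero (by positivity)
  have hl2 : 0.6931 < Real.log 2 := by
    have := Real.log_two_gt_d9
    linarith
  have hl3 : Real.log 2 < 0.6932 := by
    have := Real.log_two_lt_d9
    linarith
  have hL0 : 0 < Real.log (2 * N) := by rw [hl]; linarith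
  have hT := hCN N hN
  set T := ∑ m ∈ (Icc 1 N).filter Sp, 1 / (m : ℝ) with hTd
  set B := (((Icc 1 N).filter Sp).card : ℝ) with hB
  -- the sum of the logarithms
  have h1 : ∑ m ∈ (Icc 1 N).filter Sp, Real.log m ≤ (Real.log 4 + 4) * N * T := by
    let F : ArithmeticFunction ℝ := ⟨fun m => if Sp m then 1 else 0, if_neg fun h => h.1.ne' rfl⟩
    have h2 : ∀ m ∈ (Icc 1 N).filter Sp, Real.log m ≤ (F * ArithmeticFunction.vonMangoldt) m := by
      intro m hm
      rw [Finset.mem_filter] at hm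
      rw [ArithmeticFunction.mul_apply, Nat.sum_divisorsAntidiagonal' (fun a b => F a * ArithmeticFunction.vonMangoldt b),
        ← ArithmeticFunction.vonMangoldt_sum]
      refine le_of_eq (Finset.sum_congr rfl fun q hq => ?_)
      have hq1 : F (m / q) = 1 := if_pos (SqA_dvd hm.2 (Nat.div_dvd_of_dvd (Nat.dvd_of_mem_divisors hq)))
      rw [hq1, one_mul]
    have h3 : ∀ m ∈ Ioc 0 N, m ∉ (Icc 1 N).filter Sp → 0 ≤ (F * ArithmeticFunction.vonMangoldt) m := by
      intro m _ _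
      rw [ArithmeticFunction.mul_apply]
      refine Finset.sum_nonneg fun x _ => mul_nonneg ?_ ArithmeticFunction.vonMangoldt_nonneg
      show (0 : ℝ) ≤ if Sp x.1 then 1 else 0
      split_ifs
      · exact zero_le_one
      · exact le_rfl
    have h4 : (Icc 1 N).filter Sp ⊆ Ioc 0 N := fun m hm => by
      rw [Finset.mem_filter, Finset.mem_Icc] at hm
      exact Finset.mem_Ioc.2 ⟨hm.1.1, hm.1.2⟩
    refine (Finset.sum_le_sum h2).trans ((Finset.sum_le_sum_of_subset_of_nonneg h4 h3).trans ?_)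
    rw [ArithmeticFunction.sum_Ioc_mul_eq_sum_sum]
    have h5 : ∀ m ∈ Ioc 0 N, F m * ∑ q ∈ Ioc 0 (N / m), ArithmeticFunction.vonMangoldt q ≤
        if Sp m then (Real.log 4 + 4) * N * (1 / m) else 0 := by
      intro m hm
      have hm0 : 0 < m := (Finset.mem_Ioc.1 hm).1
      show (if Sp m then (1 : ℝ) else 0) * _ ≤ _
      split_ifs with h
      · rw [one_mul]
        have h6 := Chebyshev.psi_le_const_mul_self (x := ((N / m : ℕ) : ℝ)) (Nat.cast_nonneg _)
        unfold Chebyshev.psi at h6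
        rw [Nat.floor_natCast] at h6
        refine h6.trans ?_
        rw [mul_assoc]
        refine mul_le_mul_of_nonneg_left ?_ (by positivity)
        rw [mul_one_div]
        exact Nat.cast_div_le
      · rw [zero_mul]
    refine (Finset.sum_le_sum h5).trans ?_
    rw [← Finset.sum_filter, hTd, Finset.mul_sum]
    exact le_rfl
  have h2 : ∑ m ∈ (Icc 1 N).filter Sp, (Real.log N - Real.log m) ≤ N * T := by
    rw [hTd, Finset.mul_sum]
    refine Finset.sum_le_sum fun m hm => ?_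
    rw [Finset.mem_filter, Finset.mem_Icc] at hm
    have hm0 : (0 : ℝ) < m := by exact_mod_cast hm.1.1
    rw [← Real.log_div (by positivity) hm0.ne', mul_one_div]
    exact (Real.log_le_sub_one_of_pos (by positivity)).trans (by linarith)
  have h3 : B * Real.log N ≤ (Real.log 4 + 5) * N * T := by
    have h4 : ∑ m ∈ (Icc 1 N).filter Sp, (Real.log N - Real.log m) =
        B * Real.log N - ∑ m ∈ (Icc 1 N).filter Sp, Real.log m := by
      rw [Finset.sum_sub_distrib, Finset.sum_const, nsmul_eq_mul]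
    rw [h4] at h2
    linarith
  have hBN : B ≤ N := by
    have h4 : ((Icc 1 N).filter Sp).card ≤ N := (Finset.card_filter_le _ _).trans (by rw [Nat.card_Icc]; omega)
    rw [hB]
    exact Nat.cast_le.2 h4
  set L := Real.log (2 * N) with hLd
  have hs0 : 0 < √L := Real.sqrt_pos.2 hL0
  have hs2 : √L * √L = L := Real.mul_self_sqrt hL0.le
  have hs1 : Real.log 2 ≤ √L := by
    refine Real.le_sqrt_of_sq_le ?_
    rw [hl]
    nlinarith
  rw [le_div_iff₀ hs0]
  have h5 : B * L ≤ ((Real.log 4 + 5) * C + 1) * N * √L := by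
    have h6 : (Real.log 4 + 5) * N * T ≤ (Real.log 4 + 5) * N * (C * √L) :=
      mul_le_mul_of_nonneg_left hT (by positivity)
    have h7 : B * Real.log 2 ≤ N * √L := mul_le_mul hBN hs1 (by linarith) (by positivity)
    have h8 : B * L = B * Real.log 2 + B * Real.log N := by rw [hl]; ring
    have h9 : ((Real.log 4 + 5) * C + 1) * N * √L = (Real.log 4 + 5) * N * (C * √L) + N * √L := by ring
    linarith
  have h6 : B * √L * √L ≤ ((Real.log 4 + 5) * C + 1) * N * √L := by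
    rw [mul_assoc, hs2]
    exact h5
  exact le_of_mul_le_mul_right h6 hs0

end Pool.Agent.Lib.MP_d57abb_nt.GV
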