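import Pool.Agent.Lib.MP_d57abb_nt.GV.SqA

/-!
# The mean of the number of pairs of divisors of almost the same size
-/

namespace Pool.Agent.Lib.MP_d57abb_nt.GV

open Finset

private theorem SqB_dvd {m d : ℕ} (hm : Sp m) (hd : d ∣ m) : Sp d :=
  ⟨Nat.pos_of_dvd_of_pos hd hm.1, fun p hp hpd => hm.2 p hp (hpd.trans hd)⟩

open Classical in
private noncomputable def SqB_B (y : ℕ) : ℕ := ((Icc 1 y).filter Sp).card

open Classical in
private noncomputable def SqB_P (N : ℕ) : Finset (ℕ × ℕ) :=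
  (Icc 1 N ×ˢ Icc 1 N).filter
    (fun x => Sp x.1 ∧ Sp x.2 ∧ x.1 < 2 * x.2 ∧ x.2 < 2 * x.1 ∧ x.1 * x.2 ≤ N)

open Classical in
private noncomputable def SqB_Q (M : ℕ) : Finset (ℕ × ℕ) :=
  (Icc 1 M ×ˢ Icc 1 M).filter (fun y => Sp y.1 ∧ Sp y.2 ∧ y.1 * y.2 ≤ M)

/-- the sum of `1 / √x` -/
private theorem SqB_sqrt (n : ℕ) : ∑ i ∈ range n, 1 / √((i : ℝ) + 1) ≤ 2 * √n := by
  induction n with
  | zero => simp
  | succ n ih =>
    rw [Finset.sum_range_succ]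
    have h0 : (0 : ℝ) ≤ n := Nat.cast_nonneg n
    have h1 : 0 < √((n : ℝ) + 1) := Real.sqrt_pos.2 (by positivity)
    have h2 : √((n : ℝ) + 1) * √((n : ℝ) + 1) = n + 1 := Real.mul_self_sqrt (by positivity)
    have h3 : √(n : ℝ) * √(n : ℝ) = n := Real.mul_self_sqrt h0
    have h4 : 0 ≤ √(n : ℝ) := Real.sqrt_nonneg _
    have h5 : √(n : ℝ) ≤ √((n : ℝ) + 1) := Real.sqrt_le_sqrt (by linarith)
    have h6 : 1 / √((n : ℝ) + 1) ≤ 2 * √((n : ℝ) + 1) - 2 * √(n : ℝ) := by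
      rw [div_le_iff₀ h1]
      nlinarith [mul_nonneg (sub_nonneg.2 h5) (sub_nonneg.2 h5)]
    push_cast
    linarith

private theorem SqB_beta (K : ℕ) :
    ∑ i ∈ range (K + 1), 1 / √(((i : ℝ) + 1) * ((K : ℝ) - i + 1)) ≤ 8 := by
  have hL : (0 : ℝ) < (K : ℝ) + 2 := by positivity
  have h1 : ∀ i ∈ range (K + 1), 1 / √(((i : ℝ) + 1) * ((K : ℝ) - i + 1)) ≤
      2 / √((K : ℝ) + 2) * (1 / √((i : ℝ) + 1) + 1 / √((K : ℝ) - i + 1)) := by
    intro i hi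
    have hi1 : (i : ℝ) ≤ K := by
      have := Finset.mem_range.1 hi
      exact_mod_cast (by omega : i ≤ K)
    have hx : (0 : ℝ) < (i : ℝ) + 1 := by positivity
    have hy : (0 : ℝ) < (K : ℝ) - i + 1 := by linarith
    have key : ∀ x y : ℝ, 0 < x → 0 < y → x ≤ y → 1 / √(x * y) ≤ 2 / √(x + y) * (1 / √x + 1 / √y) := by
      intro x y hx hy hxy
      rw [Real.sqrt_mul hx.le]
      have h2 : √(x + y) ≤ 2 * √y := by
        rw [Real.sqrt_le_left (by positivity), mul_pow, Real.sq_sqrt hy.le]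
        linarith
      have h3 : 0 < √x := Real.sqrt_pos.2 hx
      have h4 : 0 < √y := Real.sqrt_pos.2 hy
      have h5 : 0 < √(x + y) := Real.sqrt_pos.2 (by linarith)
      have h6 : 1 / √y ≤ 2 / √(x + y) := by
        rw [div_le_div_iff₀ h4 h5]
        linarith
      calc 1 / (√x * √y) = 1 / √y * (1 / √x) := by rw [one_div_mul_one_div, mul_comm]
        _ ≤ 2 / √(x + y) * (1 / √x) := mul_le_mul_of_nonneg_right h6 (by positivity)
        _ ≤ 2 / √(x + y) * (1 / √x + 1 / √y) :=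
          mul_le_mul_of_nonneg_left (le_add_of_nonneg_right (by positivity)) (by positivity)
    have hsum : (i : ℝ) + 1 + ((K : ℝ) - i + 1) = K + 2 := by ring
    rcases le_total ((i : ℝ) + 1) ((K : ℝ) - i + 1) with h | h
    · have h2 := key _ _ hx hy h
      rwa [hsum] at h2
    · have h2 := key _ _ hy hx h
      rw [add_comm ((K : ℝ) - i + 1), hsum, mul_comm ((K : ℝ) - i + 1), add_comm (1 / √((K : ℝ) - i + 1))] at h2
      exact h2
  refine (Finset.sum_le_sum h1).trans ?_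
  rw [← Finset.mul_sum, Finset.sum_add_distrib]
  have h2 : ∑ i ∈ range (K + 1), 1 / √((K : ℝ) - i + 1) = ∑ i ∈ range (K + 1), 1 / √((i : ℝ) + 1) := by
    rw [← Finset.sum_range_reflect]
    refine Finset.sum_congr rfl fun i hi => ?_
    have hi1 : i ≤ K := by
      have := Finset.mem_range.1 hi
      omega
    have h3 : ((K + 1 - 1 - i : ℕ) : ℝ) = (K : ℝ) - i := by
      rw [Nat.add_sub_cancel, Nat.cast_sub hi1]
    rw [h3]
    ring_nf
  rw [h2]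
  have h3 := SqB_sqrt (K + 1)
  have h4 : 0 < √((K : ℝ) + 2) := Real.sqrt_pos.2 hL
  have h5 : √((K + 1 : ℕ) : ℝ) ≤ √((K : ℝ) + 2) := Real.sqrt_le_sqrt (by push_cast; linarith)
  rw [div_mul_eq_mul_div, div_le_iff₀ h4]
  nlinarith

private theorem SqB_B_le {C : ℝ} (hC : 0 < C)
    (h : ∀ N : ℕ, 1 ≤ N → (SqB_B N : ℝ) ≤ C * N / √(Real.log (2 * N))) {y j : ℕ} (hy : 2 ^ j ≤ y) :
    (SqB_B y : ℝ) ≤ C * y / √(((j : ℝ) + 1) * Real.log 2) := by
  have hl2 : 0 < Real.log 2 := Real.log_pos one_lt_two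
  have hy1 : 1 ≤ y := (Nat.one_le_two_pow).trans hy
  refine (h y hy1).trans ?_
  have h1 : ((j : ℝ) + 1) * Real.log 2 ≤ Real.log (2 * y) := by
    have h2 : ((j : ℝ) + 1) * Real.log 2 = Real.log ((2 : ℝ) ^ (j + 1)) := by
      rw [Real.log_pow]
      push_cast
      ring
    rw [h2]
    refine Real.log_le_log (by positivity) ?_
    rw [pow_succ, mul_comm]
    have h3 : (2 : ℝ) ^ j ≤ y := by exact_mod_cast hy
    linarith
  refine div_le_div_of_nonneg_left (by positivity) (Real.sqrt_pos.2 (by positivity)) (Real.sqrt_le_sqrt h1)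

private theorem SqB_Q_card : ∃ C : ℝ, 0 < C ∧ ∀ M : ℕ, 1 ≤ M → ((SqB_Q M).card : ℝ) ≤ C * M := by
  classical
  obtain ⟨C, hC, hCN⟩ := Sp_card
  have hl2 : 0 < Real.log 2 := Real.log_pos one_lt_two
  refine ⟨2 * C ^ 2 / Real.log 2 * 8, by positivity, fun M hM => ?_⟩
  set K := Nat.log 2 M with hK
  have hKM : 2 ^ K ≤ M := Nat.pow_log_le_self 2 (by omega)
  have h1 : SqB_Q M ⊆ (range (K + 1)).biUnion
      (fun i => (Icc 1 (2 ^ (i + 1))).filter Sp ×ˢ (Icc 1 (M / 2 ^ i)).filter Sp) := by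
    rintro ⟨g, m⟩ hx
    rw [SqB_Q, Finset.mem_filter, Finset.mem_product, Finset.mem_Icc, Finset.mem_Icc] at hx
    obtain ⟨⟨⟨hg1, hg2⟩, hm1, hm2⟩, hg, hm, hgm⟩ := hx
    have hg1 : 1 ≤ g := hg1
    have hg2 : g ≤ M := hg2
    have hm1 : 1 ≤ m := hm1
    have hgm : g * m ≤ M := hgm
    have h2 : 2 ^ Nat.log 2 g ≤ g := Nat.pow_log_le_self 2 (by omega)
    have h3 : g < 2 ^ (Nat.log 2 g + 1) := Nat.lt_pow_succ_log_self one_lt_two g
    rw [Finset.mem_biUnion]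
    refine ⟨Nat.log 2 g, Finset.mem_range.2 (Nat.lt_succ_of_le (Nat.log_mono_right hg2)), ?_⟩
    rw [Finset.mem_product, Finset.mem_filter, Finset.mem_filter, Finset.mem_Icc, Finset.mem_Icc]
    refine ⟨⟨⟨hg1, h3.le⟩, hg⟩, ⟨hm1, ?_⟩, hm⟩
    rw [Nat.le_div_iff_mul_le (by positivity)]
    calc m * 2 ^ Nat.log 2 g ≤ m * g := Nat.mul_le_mul_left m h2
      _ = g * m := mul_comm _ _
      _ ≤ M := hgm
  have h2 : ((SqB_Q M).card : ℝ) ≤ ∑ i ∈ range (K + 1), (SqB_B (2 ^ (i + 1)) : ℝ) * SqB_B (M / 2 ^ i) := by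
    have h3 := (Finset.card_le_card h1).trans Finset.card_biUnion_le
    have h4 : ∀ i ∈ range (K + 1), ((Icc 1 (2 ^ (i + 1))).filter Sp ×ˢ (Icc 1 (M / 2 ^ i)).filter Sp).card =
        SqB_B (2 ^ (i + 1)) * SqB_B (M / 2 ^ i) := fun i _ => Finset.card_product _ _
    rw [Finset.sum_congr rfl h4] at h3
    exact_mod_cast h3
  refine h2.trans ?_
  have h3 : ∀ i ∈ range (K + 1), (SqB_B (2 ^ (i + 1)) : ℝ) * SqB_B (M / 2 ^ i) ≤
      2 * C ^ 2 / Real.log 2 * M * (1 / √(((i : ℝ) + 1) * ((K : ℝ) - i + 1))) := by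
    intro i hi
    have hi1 : i ≤ K := by
      have := Finset.mem_range.1 hi
      omega
    have hiK : (i : ℝ) ≤ K := by exact_mod_cast hi1
    have h4 := SqB_B_le hC hCN (y := 2 ^ (i + 1)) (j := i) (Nat.pow_le_pow_right two_pos (Nat.le_succ i))
    have h5 : 2 ^ (K - i) ≤ M / 2 ^ i := by
      rw [Nat.le_div_iff_mul_le (by positivity), ← pow_add, Nat.sub_add_cancel hi1]
      exact hKM
    have h6 := SqB_B_le hC hCN h5
    rw [Nat.cast_sub hi1] at h6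
    have hx : (0 : ℝ) < (i : ℝ) + 1 := by positivity
    have hy : (0 : ℝ) < (K : ℝ) - i + 1 := by linarith
    have h7 : (((M / 2 ^ i : ℕ)) : ℝ) ≤ M / 2 ^ i := by
      have := Nat.cast_div_le (α := ℝ) (m := M) (n := 2 ^ i)
      push_cast at this
      exact this
    refine (mul_le_mul h4 h6 (Nat.cast_nonneg _) (by positivity)).trans ?_
    rw [Real.sqrt_mul hx.le, Real.sqrt_mul hy.le, Real.sqrt_mul hx.le]
    have hs1 : 0 < √((i : ℝ) + 1) := Real.sqrt_pos.2 hx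
    have hs2 : 0 < √((K : ℝ) - i + 1) := Real.sqrt_pos.2 hy
    have hs3 : 0 < √(Real.log 2) := Real.sqrt_pos.2 hl2
    have hs4 : √(Real.log 2) * √(Real.log 2) = Real.log 2 := Real.mul_self_sqrt hl2.le
    have h8 : C * ((2 ^ (i + 1) : ℕ) : ℝ) / (√((i : ℝ) + 1) * √(Real.log 2)) *
        (C * ((M / 2 ^ i : ℕ) : ℝ) / (√((K : ℝ) - i + 1) * √(Real.log 2))) =
        (2 * C ^ 2 / (√(Real.log 2) * √(Real.log 2)) * (2 ^ i * ((M / 2 ^ i : ℕ) : ℝ))) *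
          (1 / (√((i : ℝ) + 1) * √((K : ℝ) - i + 1))) := by
      rw [Nat.cast_pow, Nat.cast_two, pow_succ]
      field_simp
    rw [h8, hs4]
    refine mul_le_mul_of_nonneg_right ?_ (by positivity)
    refine mul_le_mul_of_nonneg_left ?_ (by positivity)
    rw [mul_comm, ← le_div_iff₀ (by positivity)]
    exact h7
  refine (Finset.sum_le_sum h3).trans ?_
  rw [← Finset.mul_sum]
  calc 2 * C ^ 2 / Real.log 2 * M * ∑ i ∈ range (K + 1), 1 / √(((i : ℝ) + 1) * ((K : ℝ) - i + 1)) ≤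
        2 * C ^ 2 / Real.log 2 * M * 8 := mul_le_mul_of_nonneg_left (SqB_beta K) (by positivity)
    _ = 2 * C ^ 2 / Real.log 2 * 8 * M := by ring

private theorem SqB_P_sum : ∃ C : ℝ, 0 < C ∧ ∀ N : ℕ, 1 ≤ N →
    ∑ x ∈ SqB_P N, 1 / ((x.1 : ℝ) * x.2) ≤ C * (1 + Real.log (1 + Real.log N)) := by
  classical
  obtain ⟨C, hC, hCN⟩ := Sp_card
  have hl2 : 0 < Real.log 2 := Real.log_pos one_lt_two
  refine ⟨32 * C ^ 2 / Real.log 2 * 2, by positivity, fun N hN => ?_⟩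
  set K := Nat.log 2 N with hK
  have hmaps : ∀ x ∈ SqB_P N, Nat.log 2 x.1 ∈ range (K + 1) := by
    intro x hx
    rw [SqB_P, Finset.mem_filter, Finset.mem_product, Finset.mem_Icc] at hx
    exact Finset.mem_range.2 (Nat.lt_succ_of_le (Nat.log_mono_right hx.1.1.2))
  rw [← Finset.sum_fiberwise_of_maps_to hmaps]
  have h1 : ∀ j ∈ range (K + 1), ∑ x ∈ SqB_P N with Nat.log 2 x.1 = j, 1 / ((x.1 : ℝ) * x.2) ≤
      32 * C ^ 2 / Real.log 2 * (1 / ((j : ℝ) + 1)) := by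
    intro j _
    have h2 : ∀ x ∈ (SqB_P N).filter (fun x => Nat.log 2 x.1 = j), 1 / ((x.1 : ℝ) * x.2) ≤ 2 / 4 ^ j := by
      intro x hx
      rw [Finset.mem_filter, SqB_P, Finset.mem_filter, Finset.mem_product, Finset.mem_Icc, Finset.mem_Icc] at hx
      obtain ⟨⟨⟨⟨ha1, _⟩, hb1, _⟩, _, _, hab, _, _⟩, hj⟩ := hx
      have h3 : 2 ^ j ≤ x.1 := by
        rw [← hj]
        exact Nat.pow_log_le_self 2 (by omega)
      have h3' : (2 : ℝ) ^ j ≤ x.1 := by exact_mod_cast h3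
      have h4 : (x.1 : ℝ) < 2 * x.2 := by exact_mod_cast hab
      have h5 : (0 : ℝ) < (2 : ℝ) ^ j := by positivity
      have h6 : (4 : ℝ) ^ j = 2 ^ j * 2 ^ j := by
        rw [← mul_pow]
        norm_num
      have ha : (0 : ℝ) < x.1 := lt_of_lt_of_le h5 h3'
      have hb : (0 : ℝ) < x.2 := by linarith
      rw [div_le_div_iff₀ (by positivity) (by positivity), h6]
      nlinarith [mul_le_mul h3' h3' h5.le ha.le, mul_lt_mul_of_pos_left h4 ha]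
    refine (Finset.sum_le_card_nsmul _ _ _ h2).trans ?_
    have h3 : ((SqB_P N).filter (fun x => Nat.log 2 x.1 = j)) ⊆
        (Icc 1 (2 ^ (j + 2))).filter Sp ×ˢ (Icc 1 (2 ^ (j + 2))).filter Sp := by
      intro x hx
      rw [Finset.mem_filter, SqB_P, Finset.mem_filter, Finset.mem_product, Finset.mem_Icc, Finset.mem_Icc] at hx
      obtain ⟨⟨⟨⟨ha1, _⟩, hb1, _⟩, hSa, hSb, hab, hba, _⟩, hj⟩ := hx
      have h4 : x.1 < 2 ^ (j + 1) := by
        rw [← hj]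
        exact Nat.lt_pow_succ_log_self one_lt_two _
      rw [Finset.mem_product, Finset.mem_filter, Finset.mem_filter, Finset.mem_Icc, Finset.mem_Icc]
      have h5 : 2 ^ (j + 2) = 2 * 2 ^ (j + 1) := by ring
      exact ⟨⟨⟨ha1, by omega⟩, hSa⟩, ⟨hb1, by omega⟩, hSb⟩
    have h4 := Finset.card_le_card h3
    rw [Finset.card_product] at h4
    have h5 : (((SqB_P N).filter (fun x => Nat.log 2 x.1 = j)).card : ℝ) ≤
        (SqB_B (2 ^ (j + 2)) : ℝ) * SqB_B (2 ^ (j + 2)) := by exact_mod_cast h4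
    have h6 := SqB_B_le hC hCN (y := 2 ^ (j + 2)) (j := j) (Nat.pow_le_pow_right two_pos (by omega))
    rw [nsmul_eq_mul]
    have hs : 0 < √(((j : ℝ) + 1) * Real.log 2) := Real.sqrt_pos.2 (by positivity)
    have hs2 : √(((j : ℝ) + 1) * Real.log 2) * √(((j : ℝ) + 1) * Real.log 2) = ((j : ℝ) + 1) * Real.log 2 :=
      Real.mul_self_sqrt (by positivity)
    have h7 := h5.trans (mul_le_mul h6 h6 (Nat.cast_nonneg _) (by positivity))
    refine (mul_le_mul_of_nonneg_right h7 (by positivity)).trans (le_of_eq ?_)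
    rw [div_mul_div_comm, hs2]
    have h8 : ((2 ^ (j + 2) : ℕ) : ℝ) * ((2 ^ (j + 2) : ℕ) : ℝ) = 16 * 4 ^ j := by
      push_cast
      have h9 : (4 : ℝ) ^ j = 2 ^ j * 2 ^ j := by
        rw [← mul_pow]
        norm_num
      rw [h9]
      ring
    have h9 : C * ((2 ^ (j + 2) : ℕ) : ℝ) * (C * ((2 ^ (j + 2) : ℕ) : ℝ)) = 16 * C ^ 2 * 4 ^ j := by
      rw [show C * ((2 ^ (j + 2) : ℕ) : ℝ) * (C * ((2 ^ (j + 2) : ℕ) : ℝ)) =
        C ^ 2 * (((2 ^ (j + 2) : ℕ) : ℝ) * ((2 ^ (j + 2) : ℕ) : ℝ)) by ring, h8]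
      ring
    rw [h9]
    have h10 : (4 : ℝ) ^ j ≠ 0 := by positivity
    field_simp
    ring
  refine (Finset.sum_le_sum h1).trans ?_
  rw [← Finset.mul_sum, mul_assoc (32 * C ^ 2 / Real.log 2)]
  refine mul_le_mul_of_nonneg_left ?_ (by positivity)
  have h2 : ∑ j ∈ range (K + 1), 1 / ((j : ℝ) + 1) ≤ 1 + Real.log ((K : ℝ) + 1) := by
    have h3 := harmonic_le_one_add_log (K + 1)
    have h4 : ((harmonic (K + 1) : ℚ) : ℝ) = ∑ j ∈ range (K + 1), 1 / ((j : ℝ) + 1) := by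
      rw [harmonic, Rat.cast_sum]
      refine Finset.sum_congr rfl fun j _ => ?_
      rw [Rat.cast_inv, Rat.cast_natCast, one_div]
      push_cast
      rfl
    rw [h4] at h3
    push_cast at h3
    exact h3
  refine h2.trans ?_
  have hN1 : (1 : ℝ) ≤ N := by exact_mod_cast hN
  have hlN : 0 ≤ Real.log N := Real.log_nonneg hN1
  have hl2' : 0.6931 < Real.log 2 := by
    have := Real.log_two_gt_d9
    linarith
  have hl3 : Real.log 2 < 0.6932 := by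
    have := Real.log_two_lt_d9
    linarith
  have h3 : (K : ℝ) * Real.log 2 ≤ Real.log N := by
    rw [← Real.log_pow]
    refine Real.log_le_log (by positivity) ?_
    have : 2 ^ K ≤ N := Nat.pow_log_le_self 2 (by omega)
    exact_mod_cast this
  have hK0 : (0 : ℝ) ≤ K := Nat.cast_nonneg K
  have h4 : (K : ℝ) + 1 ≤ 2 * (1 + Real.log N) := by nlinarith
  have h5 : Real.log ((K : ℝ) + 1) ≤ Real.log 2 + Real.log (1 + Real.log N) := by
    rw [← Real.log_mul two_ne_zero (by positivity)]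
    exact Real.log_le_log (by positivity) h4
  have h6 : 0 ≤ Real.log (1 + Real.log N) := Real.log_nonneg (by linarith)
  linarith

open Classical in
private theorem SqB_inj (N : ℕ) : ∑ n ∈ (Icc 1 N).filter Sp, W2 n ≤
    ∑ x ∈ SqB_P N, (SqB_Q (N / (x.1 * x.2))).card := by
  have h1 : ∑ n ∈ (Icc 1 N).filter Sp, W2 n = (((Icc 1 N).filter Sp).sigma
      (fun n => (n.divisors ×ˢ n.divisors).filter (fun x => Nat.log 2 x.1 = Nat.log 2 x.2))).card := by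
    rw [Finset.card_sigma]
    rfl
  rw [h1, ← Finset.card_sigma]
  have hdec : ∀ n d₁ d₂ : ℕ, Sp n → d₁ ∣ n → d₂ ∣ n → ∃ a b g m : ℕ, g = Nat.gcd d₁ d₂ ∧ 0 < g ∧ 0 < a ∧ 0 < b ∧ 0 < m ∧
      d₁ = g * a ∧ d₂ = g * b ∧ n = g * (a * b) * m := by
    intro n d₁ d₂ hn h₁ h₂
    have hd₁ : 0 < d₁ := Nat.pos_of_dvd_of_pos h₁ hn.1
    have hd₂ : 0 < d₂ := Nat.pos_of_dvd_of_pos h₂ hn.1
    have hg : 0 < Nat.gcd d₁ d₂ := Nat.gcd_pos_of_pos_left _ hd₁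
    obtain ⟨a, b, hab, ha, hb⟩ := Nat.exists_coprime d₁ d₂
    have hl : Nat.gcd d₁ d₂ * (a * b) ∣ n := by
      have h3 : Nat.lcm d₁ d₂ ∣ n := Nat.lcm_dvd h₁ h₂
      have h4 : Nat.lcm d₁ d₂ = Nat.gcd d₁ d₂ * (a * b) := by
        have h5 := Nat.gcd_mul_lcm d₁ d₂
        have h6 : d₁ * d₂ = Nat.gcd d₁ d₂ * (Nat.gcd d₁ d₂ * (a * b)) := by
          calc d₁ * d₂ = (a * Nat.gcd d₁ d₂) * (b * Nat.gcd d₁ d₂) := by rw [← ha, ← hb]
            _ = Nat.gcd d₁ d₂ * (Nat.gcd d₁ d₂ * (a * b)) := by ring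
        rw [h6] at h5
        exact Nat.eq_of_mul_eq_mul_left hg h5
      rwa [h4] at h3
    obtain ⟨m, hm⟩ := hl
    refine ⟨a, b, Nat.gcd d₁ d₂, m, rfl, hg, ?_, ?_, ?_, by rw [mul_comm]; exact ha, by rw [mul_comm]; exact hb, hm⟩
    · exact Nat.pos_of_ne_zero fun h => hd₁.ne' (by rw [ha, h, zero_mul])
    · exact Nat.pos_of_ne_zero fun h => hd₂.ne' (by rw [hb, h, zero_mul])
    · exact Nat.pos_of_ne_zero fun h => hn.1.ne' (by rw [hm, h, mul_zero])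
  refine Finset.card_le_card_of_injOn (fun t => ⟨(t.2.1 / Nat.gcd t.2.1 t.2.2, t.2.2 / Nat.gcd t.2.1 t.2.2),
    (Nat.gcd t.2.1 t.2.2, t.1 / (t.2.1 * (t.2.2 / Nat.gcd t.2.1 t.2.2)))⟩) ?_ ?_
  · rintro ⟨n, d₁, d₂⟩ ht
    rw [Finset.mem_coe, Finset.mem_sigma, Finset.mem_filter, Finset.mem_filter, Finset.mem_product,
      Finset.mem_Icc] at ht
    obtain ⟨⟨⟨hn1, hn2⟩, hSn⟩, ⟨hd₁, hd₂⟩, hlog⟩ := ht
    have hn2 : n ≤ N := hn2
    have hd₁ : d₁ ∣ n := Nat.dvd_of_mem_divisors hd₁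
    have hd₂ : d₂ ∣ n := Nat.dvd_of_mem_divisors hd₂
    have hlog : Nat.log 2 d₁ = Nat.log 2 d₂ := hlog
    have hSn : Sp n := hSn
    obtain ⟨a, b, g, m, hg, hg0, ha0, hb0, hm0, h₁, h₂, hnn⟩ := hdec n d₁ d₂ hSn hd₁ hd₂
    have e1 : d₁ / Nat.gcd d₁ d₂ = a := by rw [← hg, h₁, Nat.mul_div_cancel_left _ hg0]
    have e2 : d₂ / Nat.gcd d₁ d₂ = b := by rw [← hg, h₂, Nat.mul_div_cancel_left _ hg0]
    have e3 : n / (d₁ * (d₂ / Nat.gcd d₁ d₂)) = m := by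
      rw [e2, h₁, hnn, show g * (a * b) * m = g * a * b * m by ring, Nat.mul_div_cancel_left _ (by positivity)]
    rw [Finset.mem_coe, Finset.mem_sigma]
    show (d₁ / Nat.gcd d₁ d₂, d₂ / Nat.gcd d₁ d₂) ∈ SqB_P N ∧
      (Nat.gcd d₁ d₂, n / (d₁ * (d₂ / Nat.gcd d₁ d₂))) ∈
        SqB_Q (N / (d₁ / Nat.gcd d₁ d₂ * (d₂ / Nat.gcd d₁ d₂)))
    rw [e3, e1, e2, ← hg]
    have hSa : Sp a := SqB_dvd hSn ⟨g * b * m, by rw [hnn]; ring⟩
    have hSb : Sp b := SqB_dvd hSn ⟨g * a * m, by rw [hnn]; ring⟩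
    have hSg : Sp g := SqB_dvd hSn ⟨a * b * m, by rw [hnn]; ring⟩
    have hSm : Sp m := SqB_dvd hSn ⟨g * (a * b), by rw [hnn]; ring⟩
    have hle : g * m * (a * b) ≤ N := by
      calc g * m * (a * b) = n := by rw [hnn]; ring
        _ ≤ N := hn2
    have hab : a * b ≤ N := le_trans (Nat.le_mul_of_pos_left _ (by positivity)) hle
    have hd₁0 : d₁ ≠ 0 := by rw [h₁]; positivity
    have hd₂0 : d₂ ≠ 0 := by rw [h₂]; positivity
    have l1 : 2 ^ Nat.log 2 d₁ ≤ g * a := h₁ ▸ Nat.pow_log_le_self 2 hd₁0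
    have l2 : g * a < 2 ^ (Nat.log 2 d₁ + 1) := by
      have := Nat.lt_pow_succ_log_self one_lt_two d₁
      calc g * a = d₁ := h₁.symm
        _ < _ := this
    have l3 : 2 ^ Nat.log 2 d₁ ≤ g * b := by
      calc 2 ^ Nat.log 2 d₁ = 2 ^ Nat.log 2 d₂ := by rw [hlog]
        _ ≤ d₂ := Nat.pow_log_le_self 2 hd₂0
        _ = g * b := h₂
    have l4 : g * b < 2 ^ (Nat.log 2 d₁ + 1) := by
      have := Nat.lt_pow_succ_log_self one_lt_two d₂
      calc g * b = d₂ := h₂.symm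
        _ < 2 ^ (Nat.log 2 d₂ + 1) := this
        _ = _ := by rw [hlog]
    rw [pow_succ] at l2 l4
    have c1 : a < 2 * b := by
      have : g * a < g * (2 * b) := by
        calc g * a < 2 ^ Nat.log 2 d₁ * 2 := l2
          _ ≤ g * b * 2 := Nat.mul_le_mul_right 2 l3
          _ = g * (2 * b) := by ring
      exact Nat.lt_of_mul_lt_mul_left this
    have c2 : b < 2 * a := by
      have : g * b < g * (2 * a) := by
        calc g * b < 2 ^ Nat.log 2 d₁ * 2 := l4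
          _ ≤ g * a * 2 := Nat.mul_le_mul_right 2 l1
          _ = g * (2 * a) := by ring
      exact Nat.lt_of_mul_lt_mul_left this
    have hgm : g * m ≤ N / (a * b) := (Nat.le_div_iff_mul_le (by positivity)).2 hle
    constructor
    · rw [SqB_P, Finset.mem_filter, Finset.mem_product, Finset.mem_Icc, Finset.mem_Icc]
      exact ⟨⟨⟨ha0, le_trans (Nat.le_mul_of_pos_right _ hb0) hab⟩, hb0, le_trans (Nat.le_mul_of_pos_left _ ha0) hab⟩,
        hSa, hSb, c1, c2, hab⟩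
    · rw [SqB_Q, Finset.mem_filter, Finset.mem_product, Finset.mem_Icc, Finset.mem_Icc]
      exact ⟨⟨⟨hg0, le_trans (Nat.le_mul_of_pos_right _ hm0) hgm⟩, hm0, le_trans (Nat.le_mul_of_pos_left _ hg0) hgm⟩,
        hSg, hSm, hgm⟩
  · rintro ⟨n, d₁, d₂⟩ ht ⟨n', d₁', d₂'⟩ ht' heq
    rw [Finset.mem_coe, Finset.mem_sigma, Finset.mem_filter, Finset.mem_filter, Finset.mem_product,
      Finset.mem_Icc] at ht ht'
    obtain ⟨⟨⟨hn1, hn2⟩, hSn⟩, ⟨hd₁, hd₂⟩, hlog⟩ := ht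
    obtain ⟨⟨⟨hn1', hn2'⟩, hSn'⟩, ⟨hd₁', hd₂'⟩, hlog'⟩ := ht'
    obtain ⟨a, b, g, m, hg, hg0, ha0, hb0, hm0, h₁, h₂, hnn⟩ := hdec n d₁ d₂ hSn
      (Nat.dvd_of_mem_divisors hd₁) (Nat.dvd_of_mem_divisors hd₂)
    obtain ⟨a', b', g', m', hg', hg0', ha0', hb0', hm0', h₁', h₂', hnn'⟩ := hdec n' d₁' d₂' hSn'
      (Nat.dvd_of_mem_divisors hd₁') (Nat.dvd_of_mem_divisors hd₂')
    have e1 : d₁ / Nat.gcd d₁ d₂ = a := by rw [← hg, h₁, Nat.mul_div_cancel_left _ hg0]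
    have e2 : d₂ / Nat.gcd d₁ d₂ = b := by rw [← hg, h₂, Nat.mul_div_cancel_left _ hg0]
    have e3 : n / (d₁ * (d₂ / Nat.gcd d₁ d₂)) = m := by
      rw [e2, h₁, hnn, show g * (a * b) * m = g * a * b * m by ring, Nat.mul_div_cancel_left _ (by positivity)]
    have e1' : d₁' / Nat.gcd d₁' d₂' = a' := by rw [← hg', h₁', Nat.mul_div_cancel_left _ hg0']
    have e2' : d₂' / Nat.gcd d₁' d₂' = b' := by rw [← hg', h₂', Nat.mul_div_cancel_left _ hg0']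
    have e3' : n' / (d₁' * (d₂' / Nat.gcd d₁' d₂')) = m' := by
      rw [e2', h₁', hnn', show g' * (a' * b') * m' = g' * a' * b' * m' by ring,
        Nat.mul_div_cancel_left _ (by positivity)]
    have q1 : ((d₁ / Nat.gcd d₁ d₂, d₂ / Nat.gcd d₁ d₂) : ℕ × ℕ) = (d₁' / Nat.gcd d₁' d₂', d₂' / Nat.gcd d₁' d₂') :=
      congrArg Sigma.fst heq
    have q2 : ((Nat.gcd d₁ d₂, n / (d₁ * (d₂ / Nat.gcd d₁ d₂))) : ℕ × ℕ) =
        (Nat.gcd d₁' d₂', n' / (d₁' * (d₂' / Nat.gcd d₁' d₂'))) :=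
      congrArg (fun z : (_ : ℕ × ℕ) × (ℕ × ℕ) => z.2) heq
    rw [e3, e3', ← hg, ← hg'] at q2
    rw [e1, e2, e1', e2'] at q1
    obtain ⟨qa, qb⟩ := Prod.mk.inj q1
    obtain ⟨qg, qm⟩ := Prod.mk.inj q2
    subst qa qb qg qm
    rw [h₁, h₂, hnn, h₁', h₂', hnn']

open Classical in
theorem W2_sum : ∃ C : ℝ, 0 < C ∧ ∀ N : ℕ, 1 ≤ N →
    ∑ n ∈ (Icc 1 N).filter Sp, (W2 n : ℝ) ≤ C * N * (1 + Real.log (1 + Real.log N)) := by
  obtain ⟨C, hC, hCM⟩ := SqB_Q_card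
  obtain ⟨C', hC', hCN⟩ := SqB_P_sum
  refine ⟨C * C', by positivity, fun N hN => ?_⟩
  have h1 : ∑ n ∈ (Icc 1 N).filter Sp, (W2 n : ℝ) ≤ ∑ x ∈ SqB_P N, ((SqB_Q (N / (x.1 * x.2))).card : ℝ) := by
    exact_mod_cast SqB_inj N
  refine h1.trans ?_
  have h2 : ∀ x ∈ SqB_P N, ((SqB_Q (N / (x.1 * x.2))).card : ℝ) ≤ C * N * (1 / ((x.1 : ℝ) * x.2)) := by
    intro x hx
    rw [SqB_P, Finset.mem_filter, Finset.mem_product, Finset.mem_Icc, Finset.mem_Icc] at hx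
    obtain ⟨⟨⟨ha1, _⟩, hb1, _⟩, _, _, _, _, hab⟩ := hx
    have h3 : 0 < x.1 * x.2 := Nat.mul_pos ha1 hb1
    have h4 : 1 ≤ N / (x.1 * x.2) := (Nat.one_le_div_iff h3).2 hab
    refine (hCM _ h4).trans ?_
    rw [mul_assoc]
    refine mul_le_mul_of_nonneg_left ?_ hC.le
    rw [mul_one_div]
    have := Nat.cast_div_le (α := ℝ) (m := N) (n := x.1 * x.2)
    push_cast at this
    exact this
  refine (Finset.sum_le_sum h2).trans ?_
  rw [← Finset.mul_sum]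
  calc C * N * ∑ x ∈ SqB_P N, 1 / ((x.1 : ℝ) * x.2) ≤ C * N * (C' * (1 + Real.log (1 + Real.log N))) :=
        mul_le_mul_of_nonneg_left (hCN N hN) (by positivity)
    _ = C * C' * N * (1 + Real.log (1 + Real.log N)) := by ring

end Pool.Agent.Lib.MP_d57abb_nt.GV
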