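import Mathlib

/-!
# Pairs of divisors of almost the same size: definitions
-/

namespace Pool.Agent.Lib.MP_d57abb_nt.GV

open Finset

/-- the numbers whose prime factors are `5` or congruent to `1` or `4` modulo `5` -/
def Sp (n : ℕ) : Prop := 0 < n ∧ ∀ p : ℕ, p.Prime → p ∣ n → p = 5 ∨ p % 5 = 1 ∨ p % 5 = 4

/-- the number of pairs of divisors of `n` in the same dyadic interval -/
def W2 (n : ℕ) : ℕ := ((n.divisors ×ˢ n.divisors).filter (fun x => Nat.log 2 x.1 = Nat.log 2 x.2)).card

end Pool.Agent.Lib.MP_d57abb_nt.GV
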