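import Pool.Agent.Lib.MP_d57abb_nt.GV.Cls
import Pool.Agent.Lib.MP_d57abb_nt.GV.High
import Pool.Agent.Lib.MP_d57abb_nt.GT.FinA

/-!
# Mean values in a residue class of `f k`
-/

namespace Pool.Agent.Lib.MP_d57abb_nt.GV

open Finset Filter Topology
open Pool.Agent.Lib.MP_d57abb_nt.GT Pool.Agent.Lib.MP_d57abb_nt.GA Pool.Agent.Lib.MP_d57abb_nt.GA.TZ
  Pool.Agent.Lib.MP_d57abb_nt.GA.AS

section

variable {D m : ℕ} [NeZero D] [NeZero m]

/-- the twisted functions satisfy the hypotheses -/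
theorem tw_ok {q : ℕ} (hq : 0 < q) {g : ℕ → ℂ} (hmul : ∀ a b : ℕ, 0 < a → 0 < b → g (a * b) = g a * g b)
    (hroot : ∀ n : ℕ, 0 < n → g n ^ q = 1) (hnp : NPx g) (ψ : AddChar (GD D m) ℂ) :
    0 < q * Fintype.card (GD D m) ∧
      (∀ a b : ℕ, 0 < a → 0 < b → g (a * b) * ψ (hD D m (a * b)) = (g a * ψ (hD D m a)) * (g b * ψ (hD D m b))) ∧
      (∀ n : ℕ, 0 < n → (g n * ψ (hD D m n)) ^ (q * Fintype.card (GD D m)) = 1) ∧
      NPx (fun n => g n * ψ (hD D m n)) := by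
  have hD0 : 0 < D := Nat.pos_of_ne_zero (NeZero.ne D)
  refine ⟨Nat.mul_pos hq Fintype.card_pos, fun a b ha hb => ?_, fun n hn => ?_, ?_⟩
  · rw [hmul a b ha hb, hD_add D m ha hb, AddChar.map_add_eq_mul]
    ring
  · rw [mul_pow, pow_mul, hroot n hn, one_pow, one_mul, mul_comm, pow_mul, ← AddChar.map_nsmul_eq_pow, card_nsmul_eq_zero,
      AddChar.map_zero_eq_one, one_pow]
  · by_contra h
    have h1 := npx_mul h (npx_hD (m := m) hD0 ψ⁻¹)
    refine h1 ?_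
    have e : (fun n => g n * ψ (hD D m n) * ψ⁻¹ (hD D m n)) = g := by
      funext n
      rw [mul_assoc, ← AddChar.mul_apply, mul_inv_cancel, AddChar.one_apply, mul_one]
    rw [e]
    exact hnp

end

open Classical in
/-- the pointwise error -/
theorem err_le {D m : ℕ} (hD0 : 0 < D) (r : ℕ) {n : ℕ} (hn : 0 < n) :
    ‖(if n ≡ r [MOD D] then (1 : ℂ) else 0) - Ph D m r (hD D m n)‖ ≤ ∑ l ∈ D.primeFactors, if l ^ m ∣ n then (2 : ℝ) else 0 := by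
  have h0 : ∀ l ∈ D.primeFactors, (0 : ℝ) ≤ if l ^ m ∣ n then (2 : ℝ) else 0 := by
    intro l _
    split_ifs <;> norm_num
  by_cases h : ∀ l ∈ D.primeFactors, ¬ l ^ m ∣ n
  · rw [cls_hD hD0 r hn h, sub_self, norm_zero]
    exact Finset.sum_nonneg h0
  · push Not at h
    obtain ⟨l, hl, hln⟩ := h
    have h1 : (2 : ℝ) ≤ ∑ l ∈ D.primeFactors, if l ^ m ∣ n then (2 : ℝ) else 0 := by
      refine le_trans ?_ (Finset.single_le_sum h0 hl)
      rw [if_pos hln]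
    refine le_trans ?_ h1
    refine (norm_sub_le _ _).trans ?_
    have h2 : ‖(if n ≡ r [MOD D] then (1 : ℂ) else 0)‖ ≤ 1 := by split_ifs <;> simp
    have h3 := norm_Ph D m r (hD D m n)
    linarith

open Classical in
/-- a weighted sum over a residue class of `n = o k`, in terms of the twisted sums -/
theorem cls_sum {D m : ℕ} [NeZero D] [NeZero m] (r : ℕ) (S : Finset ℕ) (w : ℕ → ℝ) (hw : ∀ k ∈ S, 0 ≤ w k) (o : ℕ → ℕ)
    (ho : ∀ k ∈ S, 0 < o k) (G : ℕ → ℂ) (hG : ∀ k ∈ S, ‖G k‖ ≤ 1) (c : AddChar (GD D m) ℂ → ℂ)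
    (hc : ∀ x : GD D m, Ph D m r x = ∑ ψ : AddChar (GD D m) ℂ, c ψ * ψ x) :
    ‖∑ k ∈ S.filter (fun k => o k ≡ r [MOD D]), (w k : ℂ) * G k‖ ≤
      ∑ ψ : AddChar (GD D m) ℂ, ‖c ψ‖ * ‖∑ k ∈ S, (w k : ℂ) * (G k * ψ (hD D m (o k)))‖ +
        2 * ∑ l ∈ D.primeFactors, ∑ k ∈ S.filter (fun k => l ^ m ∣ o k), w k := by
  have hD0 : 0 < D := Nat.pos_of_ne_zero (NeZero.ne D)
  have e1 : ∑ k ∈ S.filter (fun k => o k ≡ r [MOD D]), (w k : ℂ) * G k =
      ∑ ψ : AddChar (GD D m) ℂ, c ψ * ∑ k ∈ S, (w k : ℂ) * (G k * ψ (hD D m (o k))) +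
        ∑ k ∈ S, (w k : ℂ) * G k * ((if o k ≡ r [MOD D] then (1 : ℂ) else 0) - Ph D m r (hD D m (o k))) := by
    have e2 : ∑ ψ : AddChar (GD D m) ℂ, c ψ * ∑ k ∈ S, (w k : ℂ) * (G k * ψ (hD D m (o k))) =
        ∑ k ∈ S, (w k : ℂ) * G k * Ph D m r (hD D m (o k)) := by
      simp only [Finset.mul_sum]
      rw [Finset.sum_comm]
      refine Finset.sum_congr rfl fun k _ => ?_
      rw [hc, Finset.mul_sum]
      refine Finset.sum_congr rfl fun ψ _ => ?_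
      ring
    rw [e2, Finset.sum_filter, ← Finset.sum_add_distrib]
    refine Finset.sum_congr rfl fun k _ => ?_
    split_ifs
    · ring
    · ring
  rw [e1]
  refine (norm_add_le _ _).trans (add_le_add ?_ ?_)
  · refine (norm_sum_le _ _).trans (Finset.sum_le_sum fun ψ _ => ?_)
    rw [norm_mul]
  · refine (norm_sum_le _ _).trans ?_
    have e3 : ∀ k ∈ S, ‖(w k : ℂ) * G k * ((if o k ≡ r [MOD D] then (1 : ℂ) else 0) - Ph D m r (hD D m (o k)))‖ ≤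
        ∑ l ∈ D.primeFactors, if l ^ m ∣ o k then 2 * w k else 0 := by
      intro k hk
      rw [norm_mul, norm_mul, Complex.norm_real, Real.norm_of_nonneg (hw k hk)]
      have h1 := err_le (m := m) hD0 r (ho k hk)
      have h2 := hG k hk
      calc w k * ‖G k‖ * ‖(if o k ≡ r [MOD D] then (1 : ℂ) else 0) - Ph D m r (hD D m (o k))‖
          ≤ w k * 1 * ∑ l ∈ D.primeFactors, if l ^ m ∣ o k then (2 : ℝ) else 0 :=
            mul_le_mul (mul_le_mul_of_nonneg_left h2 (hw k hk)) h1 (norm_nonneg _) (by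
              rw [mul_one]
              exact hw k hk)
        _ = ∑ l ∈ D.primeFactors, if l ^ m ∣ o k then 2 * w k else 0 := by
            rw [mul_one, Finset.mul_sum]
            refine Finset.sum_congr rfl fun l _ => ?_
            split_ifs <;> ring
    refine (Finset.sum_le_sum e3).trans (le_of_eq ?_)
    rw [Finset.sum_comm, Finset.mul_sum]
    refine Finset.sum_congr rfl fun l _ => ?_
    rw [← Finset.sum_filter, Finset.mul_sum]

open Classical in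
/-- the sums over windows in a residue class of `f k` -/
theorem win_cls {q : ℕ} (hq : 0 < q) {g : ℕ → ℂ} (hmul : ∀ a b : ℕ, 0 < a → 0 < b → g (a * b) = g a * g b)
    (hroot : ∀ n : ℕ, 0 < n → g n ^ q = 1) (hnp : NPx g) {D : ℕ} (hD0 : 0 < D) (r : ℕ) :
    ∀ c : ℝ, 1 < c → ∀ ε : ℝ, 0 < ε → ∃ K : ℝ, 0 ≤ K ∧ ∀ A X : ℕ, 1 ≤ A → A ≤ X →
      ‖∑ k ∈ (Ioc A X).filter (fun k => ff k ≡ r [MOD D]), ((tc c k / k : ℝ) : ℂ) * g (ff k)‖ ≤
        ε * Real.log (X / A) + K := by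
  intro c hc ε hε
  obtain ⟨n, hn⟩ : ∃ n : ℝ, n = (D.primeFactors.card : ℝ) + 1 := ⟨_, rfl⟩
  have hn0 : 0 < n := by rw [hn]; positivity
  have h1 : ∀ l ∈ D.primeFactors, ∃ m : ℕ, ∀ m' : ℕ, m ≤ m' → ∃ K : ℝ, ∀ A X : ℕ, 1 ≤ A → A ≤ X →
      ∑ k ∈ (Ioc A X).filter (fun k => l ^ m' ∣ k ^ 2 + 3 * k + 1), (tc c k : ℝ) / k ≤ ε / (4 * n) * Real.log (X / A) + K :=
    fun l hl => high_win hc.le (Nat.prime_of_mem_primeFactors hl) (by positivity)
  choose! M hM using h1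
  obtain ⟨m, hm⟩ : ∃ m : ℕ, m = D.primeFactors.sup M + 1 := ⟨_, rfl⟩
  have hMm : ∀ l ∈ D.primeFactors, M l ≤ m := fun l hl => by
    have := Finset.le_sup (f := M) hl
    omega
  have h2 := fun l (hl : l ∈ D.primeFactors) => hM l hl m (hMm l hl)
  choose! K₁ hK₁ using h2
  have i1 : NeZero D := ⟨hD0.ne'⟩
  have i2 : NeZero m := ⟨by omega⟩
  obtain ⟨cc, hcc⟩ := Ph_fourier (D := D) (m := m) r
  obtain ⟨C, hC⟩ : ∃ C : ℝ, C = ∑ ψ : AddChar (GD D m) ℂ, ‖cc ψ‖ := ⟨_, rfl⟩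
  have hC0 : 0 ≤ C := by
    rw [hC]
    exact Finset.sum_nonneg fun _ _ => norm_nonneg _
  have h3 : ∀ ψ : AddChar (GD D m) ℂ, ∃ K : ℝ, 0 ≤ K ∧ ∀ A X : ℕ, 1 ≤ A → A ≤ X →
      ‖∑ k ∈ Ioc A X, ((tc c k / k : ℝ) : ℂ) * (g (ff k) * ψ (hD D m (ff k)))‖ ≤
        ε / (2 * (C + 1)) * Real.log (X / A) + K := by
    intro ψ
    obtain ⟨t1, t2, t3, t4⟩ := tw_ok (m := m) (D := D) hq hmul hroot hnp ψ
    exact win t1 t2 t3 t4 c hc _ (by positivity)
  choose K₂ hK₂0 hK₂ using h3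
  refine ⟨∑ ψ : AddChar (GD D m) ℂ, ‖cc ψ‖ * K₂ ψ + 2 * ∑ l ∈ D.primeFactors, |K₁ l|, ?_, fun A X hA hX => ?_⟩
  · refine add_nonneg (Finset.sum_nonneg fun ψ _ => mul_nonneg (norm_nonneg _) (hK₂0 ψ)) (mul_nonneg (by norm_num)
      (Finset.sum_nonneg fun l _ => abs_nonneg _))
  have hlog : 0 ≤ Real.log ((X : ℝ) / A) := by
    apply Real.log_nonneg
    have hA0 : (0 : ℝ) < A := by exact_mod_cast hA
    rw [le_div_iff₀ hA0, one_mul]
    exact_mod_cast hX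
  have hff : ∀ k, 0 < ff k := fun k => by
    unfold ff
    positivity
  have h4 := cls_sum (D := D) (m := m) r (Ioc A X) (fun k => (tc c k : ℝ) / k) (fun k _ => by positivity) ff
    (fun k _ => hff k) (fun k => g (ff k)) (fun k _ => by
      rw [Complex.norm_eq_one_of_pow_eq_one (hroot _ (hff k)) (by omega)]) cc hcc
  refine h4.trans ?_
  have h5 : ∑ ψ : AddChar (GD D m) ℂ, ‖cc ψ‖ * ‖∑ k ∈ Ioc A X, (((tc c k : ℝ) / k : ℝ) : ℂ) * (g (ff k) * ψ (hD D m (ff k)))‖ ≤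
      ε / 2 * Real.log (X / A) + ∑ ψ : AddChar (GD D m) ℂ, ‖cc ψ‖ * K₂ ψ := by
    have e1 : ∀ ψ ∈ (univ : Finset (AddChar (GD D m) ℂ)),
        ‖cc ψ‖ * ‖∑ k ∈ Ioc A X, (((tc c k : ℝ) / k : ℝ) : ℂ) * (g (ff k) * ψ (hD D m (ff k)))‖ ≤
        ‖cc ψ‖ * (ε / (2 * (C + 1)) * Real.log (X / A)) + ‖cc ψ‖ * K₂ ψ := by
      intro ψ _
      rw [← mul_add]
      exact mul_le_mul_of_nonneg_left (hK₂ ψ A X hA hX) (norm_nonneg _)
    refine (Finset.sum_le_sum e1).trans ?_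
    rw [Finset.sum_add_distrib, ← Finset.sum_mul, ← hC]
    refine add_le_add ?_ le_rfl
    rw [← mul_assoc]
    refine mul_le_mul_of_nonneg_right ?_ hlog
    rw [mul_div_assoc', div_le_div_iff₀ (by positivity) (by norm_num)]
    nlinarith
  have h6 : 2 * ∑ l ∈ D.primeFactors, ∑ k ∈ (Ioc A X).filter (fun k => l ^ m ∣ ff k), (tc c k : ℝ) / k ≤
      ε / 2 * Real.log (X / A) + 2 * ∑ l ∈ D.primeFactors, |K₁ l| := by
    have e1 : ∀ l ∈ D.primeFactors, ∑ k ∈ (Ioc A X).filter (fun k => l ^ m ∣ ff k), (tc c k : ℝ) / k ≤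
        ε / (4 * n) * Real.log (X / A) + |K₁ l| := by
      intro l hl
      refine (hK₁ l hl A X hA hX).trans ?_
      have := le_abs_self (K₁ l)
      linarith
    have e2 := Finset.sum_le_sum e1
    rw [Finset.sum_add_distrib, Finset.sum_const, nsmul_eq_mul] at e2
    have e3 : (D.primeFactors.card : ℝ) * (ε / (4 * n) * Real.log (X / A)) ≤ ε / 4 * Real.log (X / A) := by
      rw [← mul_assoc]
      refine mul_le_mul_of_nonneg_right ?_ hlog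
      rw [mul_div_assoc', div_le_div_iff₀ (by positivity) (by norm_num), hn]
      nlinarith
    linarith
  have h7 := add_le_add h5 h6
  refine h7.trans (le_of_eq ?_)
  ring

end Pool.Agent.Lib.MP_d57abb_nt.GV
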